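import Pool.Agent.Lib_MP_1de93e_cont.RSect

/-!
# PIECE BAI: a common flat sector

## BAI `exists_sector_ball`. For rational `p, q` with `dt (cQ p) (cQ q) ≠ 0` let
`C_{p,q} = {x ∈ U | F x (p+q) = F x p + F x q}`, relatively closed in `U` (`HP.continuousOn_left`). If no
`F x`, `x ∈ U`, is differentiable off `0`, then `exists_rat_sector` shows `U = ⋃ C_{p,q}` (countable
union); `U` is a nonempty open subset of the complete space `V`, so some `C_{p,q}` has nonempty interior
(Baire: `nonempty_interior_of_iUnion_of_closed` in the subtype of a closed ball inside `U`, or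
`IsOpen.baireSpace`).
-/

namespace Pool.Agent.L1de93c

open MeasureTheory Metric Set

/-- BAI -/
theorem exists_sector_ball {U : Set V} {F : V → V → ℝ} (h : RP U F) (hne : U.Nonempty)
    (hnd : ∀ x ∈ U, ¬ ∀ u, u ≠ 0 → DifferentiableAt ℝ (F x) u) :
    ∃ (p q x : V) (r : ℝ), dt p q ≠ 0 ∧ 0 < r ∧ ball x r ⊆ U ∧
      ∀ y ∈ ball x r, F y (p + q) = F y p + F y q := by
  haveI : BaireSpace U := h.isOpen.baireSpace
  haveI : Nonempty U := hne.to_subtype
  let C : (ℚ × ℚ) × (ℚ × ℚ) → Set U := fun w =>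
    {y : U | dt (cQ w.1) (cQ w.2) ≠ 0 ∧
      F y.1 (cQ w.1 + cQ w.2) = F y.1 (cQ w.1) + F y.1 (cQ w.2)}
  have hcont : ∀ u : V, Continuous (fun y : U => F y.1 u) := fun u =>
    continuousOn_iff_continuous_restrict.mp (h.toHP.continuousOn_left u)
  have hclosed : ∀ w, IsClosed (C w) := by
    intro w
    by_cases hd : dt (cQ w.1) (cQ w.2) ≠ 0
    · have e : C w = {y : U | F y.1 (cQ w.1 + cQ w.2) = F y.1 (cQ w.1) + F y.1 (cQ w.2)} := by
        ext y
        simp only [C, mem_setOf_eq, hd, ne_eq, not_false_eq_true, true_and]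
      rw [e]
      exact isClosed_eq (hcont _) ((hcont _).add (hcont _))
    · have e : C w = ∅ := by
        ext y
        simp only [C, mem_setOf_eq, hd, false_and, mem_empty_iff_false]
      rw [e]
      exact isClosed_empty
  have huniv : ⋃ w, C w = univ := by
    rw [eq_univ_iff_forall]
    intro y
    obtain ⟨p, q, h1, h2⟩ := exists_rat_sector (h.toHP.norm y.1 y.2) (h.sb y.1 y.2) (hnd y.1 y.2)
    rw [mem_iUnion]
    exact ⟨(p, q), h1, h2⟩
  obtain ⟨w, y, hy⟩ := nonempty_interior_of_iUnion_of_closed hclosed huniv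
  have hO : IsOpen (Subtype.val '' interior (C w)) :=
    h.isOpen.isOpenMap_subtype_val _ isOpen_interior
  have hym : y.1 ∈ Subtype.val '' interior (C w) := ⟨y, hy, rfl⟩
  obtain ⟨r, hr, hball⟩ := Metric.isOpen_iff.mp hO y.1 hym
  refine ⟨cQ w.1, cQ w.2, y.1, r, (interior_subset hy).1, hr, ?_, ?_⟩
  · intro z hz
    obtain ⟨z', -, rfl⟩ := hball hz
    exact z'.2
  · intro z hz
    obtain ⟨z', hz', rfl⟩ := hball hz
    exact (interior_subset hz').2

end Pool.Agent.L1de93c
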