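import Mathlib

/-!
# MP_1de93e: regularity of continuous Finsler metrics with straight geodesics and Radon norms

Basic definitions. The plane is `V = ℝ × ℝ` with the sup norm, so that closed balls are squares.
-/

namespace Pool.Agent.L1de93c

open MeasureTheory Metric Set

/-- The plane with the sup norm; `closedBall x r` is a square of side `2 r`. -/
abbrev V := ℝ × ℝ

/-- The determinant. -/
def dt (u v : V) : ℝ := u.1 * v.2 - u.2 * v.1

/-- The scalar product. -/
def dot (u v : V) : ℝ := u.1 * v.1 + u.2 * v.2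

/-- The determinant of a linear map. -/
def detT (T : V →L[ℝ] V) : ℝ := dt (T (1, 0)) (T (0, 1))

/-- `N` is a norm. -/
structure NormV (N : V → ℝ) : Prop where
  pos : ∀ u, u ≠ 0 → 0 < N u
  smul : ∀ (a : ℝ) (u : V), N (a • u) = |a| * N u
  add_le : ∀ u v, N (u + v) ≤ N u + N v

/-- Birkhoff orthogonality `u ⟂ v`. -/
def Bk (N : V → ℝ) (u v : V) : Prop := ∀ s : ℝ, N u ≤ N (u + s • v)

/-- Birkhoff orthogonality is symmetric (Radon norm). -/
def SB (N : V → ℝ) : Prop := ∀ u v, Bk N u v → Bk N v u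

/-- The Radon constant: the infimum of `N u * N w` over `dt u w = 1`. -/
noncomputable def rc (N : V → ℝ) : ℝ := sInf {c : ℝ | ∃ u w : V, dt u w = 1 ∧ c = N u * N w}

/-- The length of the segment from `A` to `B`. -/
noncomputable def DD (F : V → V → ℝ) (A B : V) : ℝ :=
  ∫ t in (0:ℝ)..1, F (A + t • (B - A)) (B - A)

/-- A continuous Finsler function on the open convex set `U` whose segment lengths satisfy the
triangle inequality. -/
structure HP (U : Set V) (F : V → V → ℝ) : Prop where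
  isOpen : IsOpen U
  convex : Convex ℝ U
  cont : ContinuousOn (fun p : V × V => F p.1 p.2) (U ×ˢ univ)
  norm : ∀ x ∈ U, NormV (F x)
  tri : ∀ A ∈ U, ∀ B ∈ U, ∀ C ∈ U, DD F A C ≤ DD F A B + DD F B C

/-- `HP` with Radon norms. -/
structure RP (U : Set V) (F : V → V → ℝ) : Prop extends HP U F where
  sb : ∀ x ∈ U, SB (F x)

/-- `HP` and continuously differentiable in the base point. -/
structure HPC (U : Set V) (H : V → V → ℝ) (H' : V → V → V →L[ℝ] ℝ) : Prop extends HP U H where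
  hasD : ∀ x ∈ U, ∀ v, HasFDerivAt (fun y => H y v) (H' x v) x
  contD : ContinuousOn (fun p : V × V => H' p.1 p.2) (U ×ˢ univ)

/-- A Radon norm differentiable off zero. -/
structure Nice (N : V → ℝ) : Prop extends NormV N where
  diff : ∀ u, u ≠ 0 → DifferentiableAt ℝ N u
  sb : SB N

/-- The conjugate vector of `u`: `dt u (cj N u) = N u` and `fderiv N u (cj N u) = 0`. -/
noncomputable def cj (N : V → ℝ) (u : V) : V := (-(fderiv ℝ N u (0, 1)), fderiv ℝ N u (1, 0))

/-- Average of `h` over the square `closedBall x r`. -/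
noncomputable def av (h : V → ℝ) (x : V) (r : ℝ) : ℝ :=
  (1 / 4) * ∫ y in closedBall (0 : V) 1, h (x + r • y)

/-- Mean oscillation of `h` over the square `closedBall x r`. -/
noncomputable def mo (h : V → ℝ) (x : V) (r : ℝ) : ℝ :=
  (1 / 4) * ∫ y in closedBall (0 : V) 1, |h (x + r • y) - av h x r|

/-- Logarithm of the Radon constant. -/
noncomputable def lc (F : V → V → ℝ) (y : V) : ℝ := Real.log (rc (F y))

/-- The mean oscillation of `F` over the square `closedBall x r` is at most `Θ`. -/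
def OB (F : V → V → ℝ) (x : V) (r Θ : ℝ) : Prop :=
  (∀ u : V, ‖u‖ = 1 → mo (fun y => F y u) x r ≤ Θ) ∧ mo (lc F) x r ≤ Θ

/-- Steklov average in the base point. -/
noncomputable def Stk (F : V → V → ℝ) (s : ℝ) (x v : V) : ℝ := av (fun y => F y v) x s

/-- The projective map `y / (1 - l y)`. -/
noncomputable def pj (l y : V) : V := (1 - dot l y)⁻¹ • y

/-- The differential of `pj l` at `y`. -/
noncomputable def dpj (l y : V) : V →L[ℝ] V :=
  (1 - dot l y)⁻¹ • ContinuousLinearMap.id ℝ V +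
    ((1 - dot l y)⁻¹ ^ 2) • ((l.1 • ContinuousLinearMap.fst ℝ ℝ ℝ +
      l.2 • ContinuousLinearMap.snd ℝ ℝ ℝ).smulRight y)

/-- Pull back of `F` under `pj l`. -/
noncomputable def Pull (F : V → V → ℝ) (l : V) : V → V → ℝ := fun y v => F (pj l y) (dpj l y v)

/-- Rescaling at `x`. -/
def Res (F : V → V → ℝ) (x : V) (r : ℝ) : V → V → ℝ := fun y v => F (x + r • y) v

/-- Linear change of variables. -/
def Lin (T : V →L[ℝ] V) (F : V → V → ℝ) : V → V → ℝ := fun y v => F (T y) (T v)

/-- `F` has mean oscillation at most `Θ` on `closedBall x r` in a suitable projective gauge. -/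
def Good (F : V → V → ℝ) (x : V) (r Θ : ℝ) : Prop :=
  ∃ l : V, ‖l‖ ≤ 1 / 100 ∧ OB (Pull (Res F x r) l) 0 1 Θ

/-- The local situation: `F` is `ε`-near the norm `N₀` on the square `closedBall 0 R`, and all
mean oscillations on subsquares are at most `Θ`. -/
structure Loc (N₀ : V → ℝ) (R ε Θ : ℝ) (U : Set V) (F : V → V → ℝ) : Prop where
  rp : RP U F
  sub : closedBall 0 R ⊆ U
  near : ∀ y ∈ closedBall (0 : V) R, ∀ u, |F y u - N₀ u| ≤ ε * ‖u‖
  ob : ∀ x r, 0 < r → closedBall x r ⊆ closedBall 0 R → OB F x r Θ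

@[simp] theorem dpj_apply (l y v : V) :
    dpj l y v = (1 - dot l y)⁻¹ • v + ((1 - dot l y)⁻¹ ^ 2 * dot l v) • y := by
  simp [dpj, dot, mul_smul]

/-! ### Algebra of `dt` and `dot` -/

theorem dt_self (u : V) : dt u u = 0 := by unfold dt; ring
theorem dt_comm (u v : V) : dt u v = -dt v u := by unfold dt; ring
theorem dot_comm (u v : V) : dot u v = dot v u := by unfold dot; ring
theorem dt_add_left (u v w : V) : dt (u + v) w = dt u w + dt v w := by
  simp only [dt, Prod.fst_add, Prod.snd_add]; ring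
theorem dt_add_right (u v w : V) : dt u (v + w) = dt u v + dt u w := by
  simp only [dt, Prod.fst_add, Prod.snd_add]; ring
theorem dt_smul_left (a : ℝ) (u v : V) : dt (a • u) v = a * dt u v := by
  simp only [dt, Prod.smul_fst, Prod.smul_snd, smul_eq_mul]; ring
theorem dt_smul_right (a : ℝ) (u v : V) : dt u (a • v) = a * dt u v := by
  simp only [dt, Prod.smul_fst, Prod.smul_snd, smul_eq_mul]; ring
theorem dot_add_right (u v w : V) : dot u (v + w) = dot u v + dot u w := by
  simp only [dot, Prod.fst_add, Prod.snd_add]; ring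
theorem dot_add_left (u v w : V) : dot (u + v) w = dot u w + dot v w := by
  simp only [dot, Prod.fst_add, Prod.snd_add]; ring
theorem dot_smul_left (a : ℝ) (u v : V) : dot (a • u) v = a * dot u v := by
  simp only [dot, Prod.smul_fst, Prod.smul_snd, smul_eq_mul]; ring
theorem dot_smul_right (a : ℝ) (u v : V) : dot u (a • v) = a * dot u v := by
  simp only [dot, Prod.smul_fst, Prod.smul_snd, smul_eq_mul]; ring

theorem abs_fst_le (u : V) : |u.1| ≤ ‖u‖ := by
  rw [← Real.norm_eq_abs]; exact norm_fst_le u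
theorem abs_snd_le (u : V) : |u.2| ≤ ‖u‖ := by
  rw [← Real.norm_eq_abs]; exact norm_snd_le u

theorem abs_dot_le (u v : V) : |dot u v| ≤ 2 * ‖u‖ * ‖v‖ := by
  have h1 : |u.1 * v.1| ≤ ‖u‖ * ‖v‖ := by
    rw [abs_mul]; exact mul_le_mul (abs_fst_le u) (abs_fst_le v) (abs_nonneg _) (norm_nonneg _)
  have h2 : |u.2 * v.2| ≤ ‖u‖ * ‖v‖ := by
    rw [abs_mul]; exact mul_le_mul (abs_snd_le u) (abs_snd_le v) (abs_nonneg _) (norm_nonneg _)
  have := abs_add_le (u.1 * v.1) (u.2 * v.2)
  unfold dot; linarith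

theorem abs_dt_le (u v : V) : |dt u v| ≤ 2 * ‖u‖ * ‖v‖ := by
  have h1 : |u.1 * v.2| ≤ ‖u‖ * ‖v‖ := by
    rw [abs_mul]; exact mul_le_mul (abs_fst_le u) (abs_snd_le v) (abs_nonneg _) (norm_nonneg _)
  have h2 : |u.2 * v.1| ≤ ‖u‖ * ‖v‖ := by
    rw [abs_mul]; exact mul_le_mul (abs_snd_le u) (abs_fst_le v) (abs_nonneg _) (norm_nonneg _)
  have := abs_sub (u.1 * v.2) (u.2 * v.1)
  unfold dt; linarith

/-- Expansion in the basis `u, w`. -/
theorem expand (u w z : V) : dt u w • z = dt z w • u + dt u z • w := by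
  ext <;> simp only [dt, Prod.smul_fst, Prod.smul_snd, Prod.fst_add, Prod.snd_add, smul_eq_mul] <;>
    ring

theorem vec_eq (z : V) : z = z.1 • ((1, 0) : V) + z.2 • ((0, 1) : V) := by
  ext <;> simp

theorem dt_map (T : V →L[ℝ] V) (u v : V) : dt (T u) (T v) = detT T * dt u v := by
  have hu := vec_eq u
  have hv := vec_eq v
  have e1 : T u = u.1 • T (1, 0) + u.2 • T (0, 1) := by
    conv_lhs => rw [hu]
    rw [map_add, map_smul, map_smul]
  have e2 : T v = v.1 • T (1, 0) + v.2 • T (0, 1) := by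
    conv_lhs => rw [hv]
    rw [map_add, map_smul, map_smul]
  rw [e1, e2]
  simp only [detT, dt, Prod.smul_fst, Prod.smul_snd, Prod.fst_add, Prod.snd_add, smul_eq_mul]
  ring

/-! ### Norms -/

namespace NormV

variable {N : V → ℝ} (h : NormV N)
include h

theorem zero : N 0 = 0 := by
  have := h.smul 0 0
  simpa using this

theorem neg (u : V) : N (-u) = N u := by
  have := h.smul (-1) u
  simpa using this

theorem nonneg (u : V) : 0 ≤ N u := by
  by_cases hu : u = 0
  · rw [hu, h.zero]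
  · exact (h.pos u hu).le

theorem smul_nonneg {r : ℝ} (hr : 0 ≤ r) (u : V) : N (r • u) = r * N u := by
  rw [h.smul, abs_of_nonneg hr]

theorem sub_le (u v : V) : N u - N v ≤ N (u - v) := by
  have := h.add_le (u - v) v
  rw [sub_add_cancel] at this
  linarith

theorem sub_comm (u v : V) : N (u - v) = N (v - u) := by
  rw [← h.neg (u - v), neg_sub]

theorem abs_sub_le (u v : V) : |N u - N v| ≤ N (u - v) := by
  rw [abs_le]
  constructor
  · have := h.sub_le v u
    rw [h.sub_comm] at this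
    linarith
  · exact h.sub_le u v

/-- Upper bound by the sup norm. -/
theorem le_mul_norm (u : V) : N u ≤ (N (1, 0) + N (0, 1)) * ‖u‖ := by
  conv_lhs => rw [vec_eq u]
  refine (h.add_le _ _).trans ?_
  rw [h.smul, h.smul, add_mul]
  have h1 := mul_le_mul_of_nonneg_right (abs_fst_le u) (h.nonneg (1, 0))
  have h2 := mul_le_mul_of_nonneg_right (abs_snd_le u) (h.nonneg (0, 1))
  linarith

theorem continuous : Continuous N := by
  have hC : 0 ≤ N (1, 0) + N (0, 1) := add_nonneg (h.nonneg _) (h.nonneg _)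
  have : LipschitzWith ⟨N (1, 0) + N (0, 1), hC⟩ N := by
    apply LipschitzWith.of_dist_le_mul
    intro u v
    rw [Real.dist_eq, dist_eq_norm]
    exact (h.abs_sub_le u v).trans (h.le_mul_norm _)
  exact this.continuous

/-- Lower bound by the sup norm. -/
theorem exists_lower : ∃ c > 0, ∀ u, c * ‖u‖ ≤ N u := by
  have hK : IsCompact (sphere (0 : V) 1) := isCompact_sphere 0 1
  have hne : (sphere (0 : V) 1).Nonempty := ⟨(1, 0), by simp⟩
  obtain ⟨u₀, hu₀, hmin⟩ := hK.exists_isMinOn hne h.continuous.continuousOn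
  have hu0 : u₀ ≠ 0 := by
    rintro rfl
    simp at hu₀
  refine ⟨N u₀, h.pos _ hu0, fun u => ?_⟩
  by_cases hu : u = 0
  · rw [hu, h.zero, norm_zero, mul_zero]
  have hn : 0 < ‖u‖ := norm_pos_iff.mpr hu
  have h1 : ‖u‖⁻¹ • u ∈ sphere (0 : V) 1 := by
    rw [mem_sphere_zero_iff_norm, norm_smul, norm_inv, norm_norm, inv_mul_cancel₀ hn.ne']
  have h2 : N u₀ ≤ N (‖u‖⁻¹ • u) := hmin h1
  rw [h.smul_nonneg (inv_nonneg.mpr hn.le)] at h2
  rwa [le_inv_mul_iff₀ hn, mul_comm] at h2

theorem convexOn : ConvexOn ℝ univ N := by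
  refine ⟨convex_univ, fun u _ v _ a b ha hb _ => ?_⟩
  refine (h.add_le _ _).trans ?_
  rw [h.smul_nonneg ha, h.smul_nonneg hb, smul_eq_mul, smul_eq_mul]

theorem comp_map {T : V →L[ℝ] V} (hT : detT T ≠ 0) : NormV (fun u => N (T u)) := by
  refine ⟨fun u hu => h.pos _ ?_, fun a u => by rw [map_smul, h.smul], fun u v => by
    rw [map_add]; exact h.add_le _ _⟩
  intro h0
  apply hu
  have h1 : ∀ v, dt u v = 0 := by
    intro v
    have := dt_map T u v
    rw [h0] at this
    have h2 : detT T * dt u v = 0 := by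
      rw [← this]; simp [dt]
    exact (mul_eq_zero.mp h2).resolve_left hT
  have h2 := h1 (0, 1)
  have h3 := h1 (1, 0)
  simp [dt] at h2 h3
  ext
  · simpa using h2
  · simpa using h3

end NormV

namespace HP

variable {U : Set V} {F : V → V → ℝ} (h : HP U F)
include h

theorem continuousOn_left (u : V) : ContinuousOn (fun y => F y u) U := by
  have h1 : ContinuousOn (fun y : V => ((y, u) : V × V)) U := by fun_prop
  exact h.cont.comp h1 (fun y hy => ⟨hy, mem_univ _⟩)

theorem continuousAt {x : V} (hx : x ∈ U) (u : V) :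
    ContinuousAt (fun p : V × V => F p.1 p.2) (x, u) :=
  h.cont.continuousAt ((h.isOpen.prod isOpen_univ).mem_nhds ⟨hx, mem_univ _⟩)

/-- Uniform bounds on compact sets. -/
theorem bounds {K : Set V} (hK : IsCompact K) (hKU : K ⊆ U) :
    ∃ c > 0, ∃ C > 0, ∀ x ∈ K, ∀ u, c * ‖u‖ ≤ F x u ∧ F x u ≤ C * ‖u‖ := by
  by_cases hne : K.Nonempty
  swap
  · refine ⟨1, one_pos, 1, one_pos, fun x hx => ?_⟩
    exact absurd ⟨x, hx⟩ hne
  have hS : IsCompact (K ×ˢ sphere (0 : V) 1) := hK.prod (isCompact_sphere 0 1)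
  have hSne : (K ×ˢ sphere (0 : V) 1).Nonempty := hne.prod ⟨(1, 0), by simp⟩
  have hc : ContinuousOn (fun p : V × V => F p.1 p.2) (K ×ˢ sphere (0 : V) 1) :=
    h.cont.mono (prod_mono hKU (subset_univ _))
  obtain ⟨p, hp, hmin⟩ := hS.exists_isMinOn hSne hc
  obtain ⟨q, hq, hmax⟩ := hS.exists_isMaxOn hSne hc
  have hpos : ∀ p ∈ K ×ˢ sphere (0 : V) 1, 0 < F p.1 p.2 := by
    intro p hp
    refine (h.norm p.1 (hKU hp.1)).pos _ ?_
    intro h0
    have := hp.2
    rw [h0] at this
    simp at this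
  refine ⟨F p.1 p.2, hpos p hp, F q.1 q.2, hpos q hq, fun x hx u => ?_⟩
  have hN := h.norm x (hKU hx)
  by_cases hu : u = 0
  · rw [hu, hN.zero, norm_zero, mul_zero, mul_zero]; exact ⟨le_rfl, le_rfl⟩
  have hn : 0 < ‖u‖ := norm_pos_iff.mpr hu
  have h1 : (x, ‖u‖⁻¹ • u) ∈ K ×ˢ sphere (0 : V) 1 := by
    refine ⟨hx, ?_⟩
    rw [mem_sphere_zero_iff_norm, norm_smul, norm_inv, norm_norm, inv_mul_cancel₀ hn.ne']
  have h2 : F p.1 p.2 ≤ F x (‖u‖⁻¹ • u) := hmin h1
  have h3 : F x (‖u‖⁻¹ • u) ≤ F q.1 q.2 := hmax h1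
  rw [hN.smul_nonneg (inv_nonneg.mpr hn.le)] at h2 h3
  constructor
  · rwa [le_inv_mul_iff₀ hn, mul_comm] at h2
  · rwa [inv_mul_le_iff₀ hn, mul_comm] at h3

end HP

end Pool.Agent.L1de93c
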