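import Pool.Agent.Lib_MP_1de93e_cont.PjB

/-!
# PIECE PJ2: projective invariance of the class `HP`

## PJ2
* `HP.pull`. The set `U_l = {y | l y < 1 ∧ pj l y ∈ U}` is open (`pj l` is continuous where `l y < 1`).
  Convex: for `A, B ∈ U_l`, `t ∈ [0,1]`, `Y = A + t (B - A)`, `l Y < 1` and
  `pj l Y = pj l A + σ t (pj l B - pj l A)`, `σ t = t (1 - l B)/(1 - l Y) ∈ [0,1]`.
  `DD (Pull F l) A B = DD F (pj l A) (pj l B)`: `dpj l Y (B - A) = σ' t (pj l B - pj l A)` with
  `σ' t = (1 - l A)(1 - l B)/(1 - l Y)² > 0`, so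
  `∫₀¹ F (pj l A + σ (pj l B - pj l A)) (pj l B - pj l A) σ' dt`, substitution `s = σ t`. So the triangle
  inequality is inherited. Norms: `NormV.comp_map` and `detT_dpj`. `RP.pull`: `SB.comp`.
* `lc_pull`: `rc_comp`, `detT_dpj`.
-/

namespace Pool.Agent.L1de93c

open MeasureTheory Metric Set

theorem PjP_dot_lin (l A B : V) (t : ℝ) :
    1 - dot l (A + t • (B - A)) = (1 - t) * (1 - dot l A) + t * (1 - dot l B) := by
  simp only [dot, Prod.fst_add, Prod.snd_add, Prod.smul_fst, Prod.smul_snd, Prod.fst_sub,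
    Prod.snd_sub, smul_eq_mul]
  ring

theorem PjP_pos {l A B : V} (hA : dot l A < 1) (hB : dot l B < 1) {t : ℝ} (ht : t ∈ Icc (0 : ℝ) 1) :
    0 < (1 - t) * (1 - dot l A) + t * (1 - dot l B) := by
  have ha : 0 < 1 - dot l A := by linarith
  have hb : 0 < 1 - dot l B := by linarith
  rcases ht.1.eq_or_lt with h0 | h0
  · rw [← h0]
    linarith
  · have h1 : 0 ≤ (1 - t) * (1 - dot l A) := mul_nonneg (by linarith [ht.2]) ha.le
    have h2 : 0 < t * (1 - dot l B) := mul_pos h0 hb
    linarith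

/-- The projective map along a segment. -/
theorem PjP_seg {l A B : V} (hA : dot l A < 1) (hB : dot l B < 1) {t : ℝ}
    (ht : t ∈ Icc (0 : ℝ) 1) : pj l (A + t • (B - A)) = pj l A +
      (t * (1 - dot l B) / ((1 - t) * (1 - dot l A) + t * (1 - dot l B))) • (pj l B - pj l A) := by
  have hc := (PjP_pos hA hB ht).ne'
  have ha : 1 - dot l A ≠ 0 := by
    have : 0 < 1 - dot l A := by linarith
    exact this.ne'
  have hb : 1 - dot l B ≠ 0 := by
    have : 0 < 1 - dot l B := by linarith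
    exact this.ne'
  unfold pj
  rw [PjP_dot_lin]
  generalize 1 - dot l A = a at *
  generalize 1 - dot l B = b at *
  ext <;>
  simp only [Prod.fst_add, Prod.snd_add, Prod.smul_fst, Prod.smul_snd, Prod.fst_sub,
    Prod.snd_sub, smul_eq_mul] <;>
  field_simp <;> ring

theorem PjP_dseg {l A B : V} (hA : dot l A < 1) (hB : dot l B < 1) {t : ℝ}
    (ht : t ∈ Icc (0 : ℝ) 1) : dpj l (A + t • (B - A)) (B - A) =
      ((1 - dot l A) * (1 - dot l B) / ((1 - t) * (1 - dot l A) + t * (1 - dot l B)) ^ 2) •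
        (pj l B - pj l A) := by
  have hc := (PjP_pos hA hB ht).ne'
  have ha : 1 - dot l A ≠ 0 := by
    have : 0 < 1 - dot l A := by linarith
    exact this.ne'
  have hb : 1 - dot l B ≠ 0 := by
    have : 0 < 1 - dot l B := by linarith
    exact this.ne'
  have hd : dot l (B - A) = (1 - dot l A) - (1 - dot l B) := by
    simp only [dot, Prod.fst_sub, Prod.snd_sub]
    ring
  rw [dpj_apply, PjP_dot_lin, hd]
  unfold pj
  generalize 1 - dot l A = a at *
  generalize 1 - dot l B = b at *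
  ext <;>
  simp only [Prod.fst_add, Prod.snd_add, Prod.smul_fst, Prod.smul_snd, Prod.fst_sub,
    Prod.snd_sub, smul_eq_mul] <;>
  field_simp <;> ring

theorem PjP_sigma {a b : ℝ} (ha : 0 < a) (hb : 0 < b) {t : ℝ} (ht : t ∈ Icc (0 : ℝ) 1) :
    0 < (1 - t) * a + t * b := by
  rcases ht.1.eq_or_lt with h0 | h0
  · rw [← h0]
    linarith
  · have h1 : 0 ≤ (1 - t) * a := mul_nonneg (by linarith [ht.2]) ha.le
    have h2 : 0 < t * b := mul_pos h0 hb
    linarith

theorem PjP_mem {a b : ℝ} (ha : 0 < a) (hb : 0 < b) {t : ℝ} (ht : t ∈ Icc (0 : ℝ) 1) :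
    t * b / ((1 - t) * a + t * b) ∈ Icc (0 : ℝ) 1 := by
  have hc := PjP_sigma ha hb ht
  have h1 : 0 ≤ (1 - t) * a := mul_nonneg (by linarith [ht.2]) ha.le
  have h2 : 0 ≤ t * b := mul_nonneg ht.1 hb.le
  refine ⟨div_nonneg h2 hc.le, ?_⟩
  rw [div_le_one hc]
  linarith

theorem PjP_hasDeriv {a b : ℝ} (ha : 0 < a) (hb : 0 < b) {t : ℝ} (ht : t ∈ Icc (0 : ℝ) 1) :
    HasDerivAt (fun t : ℝ => t * b / ((1 - t) * a + t * b)) (a * b / ((1 - t) * a + t * b) ^ 2)
      t := by
  have hc := (PjP_sigma ha hb ht).ne'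
  have h1 : HasDerivAt (fun t : ℝ => t * b) b t := by
    simpa using (hasDerivAt_id t).mul_const b
  have h2 : HasDerivAt (fun t : ℝ => (1 - t) * a + t * b) (-1 * a + b) t :=
    (((hasDerivAt_id t).const_sub 1).mul_const a).add h1
  refine (h1.div h2 hc).congr_deriv ?_
  congr 1
  ring

/-- PJ2 -/
theorem DD_pull {U : Set V} {F : V → V → ℝ} (h : HP U F) {l A B : V} (hA : dot l A < 1)
    (hB : dot l B < 1) (hAU : pj l A ∈ U) (hBU : pj l B ∈ U) :
    DD (Pull F l) A B = DD F (pj l A) (pj l B) := by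
  have ha : 0 < 1 - dot l A := by linarith
  have hb : 0 < 1 - dot l B := by linarith
  have hseg : ∀ s ∈ Icc (0 : ℝ) 1, pj l A + s • (pj l B - pj l A) ∈ U := fun s hs =>
    h.convex.add_smul_sub_mem hAU hBU hs
  have key := intervalIntegral.integral_comp_mul_deriv'' (a := 0) (b := 1)
    (f := fun t : ℝ => t * (1 - dot l B) / ((1 - t) * (1 - dot l A) + t * (1 - dot l B)))
    (f' := fun t : ℝ => (1 - dot l A) * (1 - dot l B) /
      ((1 - t) * (1 - dot l A) + t * (1 - dot l B)) ^ 2)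
    (g := fun s => F (pj l A + s • (pj l B - pj l A)) (pj l B - pj l A)) ?_ ?_ ?_ ?_
  · have h0 : (0 : ℝ) * (1 - dot l B) / ((1 - 0) * (1 - dot l A) + 0 * (1 - dot l B)) = 0 := by
      simp
    have h1 : (1 : ℝ) * (1 - dot l B) / ((1 - 1) * (1 - dot l A) + 1 * (1 - dot l B)) = 1 := by
      rw [sub_self, zero_mul, zero_add]
      exact div_self (by rw [one_mul]; exact hb.ne')
    rw [h0, h1] at key
    unfold DD
    rw [← key]
    refine intervalIntegral.integral_congr fun t ht => ?_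
    rw [uIcc_of_le zero_le_one] at ht
    simp only [Pull, Function.comp_apply]
    rw [PjP_dseg hA hB ht, PjP_seg hA hB ht,
      (h.norm _ (hseg _ (PjP_mem ha hb ht))).smul_nonneg (by
        have := PjP_sigma ha hb ht
        positivity)]
    ring
  · intro t ht
    rw [uIcc_of_le zero_le_one] at ht
    exact (PjP_hasDeriv ha hb ht).continuousAt.continuousWithinAt
  · intro t ht
    rw [min_eq_left zero_le_one, max_eq_right zero_le_one] at ht
    exact (PjP_hasDeriv ha hb ⟨ht.1.le, ht.2.le⟩).hasDerivWithinAt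
  · intro t ht
    rw [uIcc_of_le zero_le_one] at ht
    have hc := (PjP_sigma ha hb ht).ne'
    refine ContinuousAt.continuousWithinAt ?_
    exact ContinuousAt.div (by fun_prop) (by fun_prop) (pow_ne_zero 2 hc)
  · have hsub : (fun t : ℝ => t * (1 - dot l B) /
        ((1 - t) * (1 - dot l A) + t * (1 - dot l B))) '' uIcc 0 1 ⊆ Icc 0 1 := by
      rintro _ ⟨t, ht, rfl⟩
      rw [uIcc_of_le zero_le_one] at ht
      exact PjP_mem ha hb ht
    refine ContinuousOn.mono ?_ hsub
    have h1 : ContinuousOn (fun s : ℝ => pj l A + s • (pj l B - pj l A)) (Icc 0 1) := by fun_prop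
    exact (h.continuousOn_left (pj l B - pj l A)).comp h1 hseg

theorem PjP_continuousOn (l : V) : ContinuousOn (pj l) {y | dot l y < 1} := by
  intro y hy
  have hy' : 1 - dot l y ≠ 0 := by
    have : 0 < 1 - dot l y := by
      have : dot l y < 1 := hy
      linarith
    exact this.ne'
  refine ContinuousAt.continuousWithinAt ?_
  have h1 : ContinuousAt (fun y : V => 1 - dot l y) y := by
    unfold dot
    fun_prop
  exact (h1.inv₀ hy').smul continuousAt_id

theorem PjP_isOpen (l : V) : IsOpen {y : V | dot l y < 1} := by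
  have h1 : Continuous fun y : V => dot l y := by
    unfold dot
    fun_prop
  exact isOpen_lt h1 continuous_const

theorem PjP_ne {l y : V} (hy : dot l y < 1) : 1 - dot l y ≠ 0 := by
  have : 0 < 1 - dot l y := by linarith
  exact this.ne'

theorem PjP_det_ne {l y : V} (hy : dot l y < 1) : detT (dpj l y) ≠ 0 := by
  rw [detT_dpj (PjP_ne hy)]
  exact pow_ne_zero 3 (inv_ne_zero (PjP_ne hy))

/-- PJ2 -/
theorem HP.pull {U : Set V} {F : V → V → ℝ} (h : HP U F) (l : V) :
    HP {y | dot l y < 1 ∧ pj l y ∈ U} (Pull F l) := by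
  refine ⟨?_, ?_, ?_, ?_, ?_⟩
  · exact (PjP_continuousOn l).isOpen_inter_preimage (PjP_isOpen l) h.isOpen
  · rw [convex_iff_add_mem]
    intro A hA B hB s t hs ht hst
    obtain rfl : s = 1 - t := by linarith
    have ht' : t ∈ Icc (0 : ℝ) 1 := ⟨ht, by linarith⟩
    have h1 : (1 - t) • A + t • B = A + t • (B - A) := by
      module
    rw [h1]
    refine ⟨?_, ?_⟩
    · have h2 := PjP_pos hA.1 hB.1 ht'
      rw [← PjP_dot_lin] at h2
      linarith
    · rw [PjP_seg hA.1 hB.1 ht']
      exact h.convex.add_smul_sub_mem hA.2 hB.2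
        (PjP_mem (by linarith [hA.1]) (by linarith [hB.1]) ht')
  · have hc : ContinuousOn (fun p : V × V => ((pj l p.1, dpj l p.1 p.2) : V × V))
        ({y | dot l y < 1 ∧ pj l y ∈ U} ×ˢ univ) := by
      have h1 : ContinuousOn (fun p : V × V => pj l p.1)
          ({y | dot l y < 1 ∧ pj l y ∈ U} ×ˢ univ) :=
        (PjP_continuousOn l).comp continuousOn_fst fun p hp => hp.1.1
      have h2 : ContinuousOn (fun p : V × V => dpj l p.1 p.2)
          ({y | dot l y < 1 ∧ pj l y ∈ U} ×ˢ univ) := by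
        intro p hp
        have hp' : 1 - dot l p.1 ≠ 0 := PjP_ne hp.1.1
        simp only [dpj_apply]
        have h3 : ContinuousAt (fun p : V × V => 1 - dot l p.1) p := by
          unfold dot
          fun_prop
        have h4 : ContinuousAt (fun p : V × V => dot l p.2) p := by
          unfold dot
          fun_prop
        have h5 := h3.inv₀ hp'
        exact ((h5.smul continuousAt_snd).add
          (((h5.pow 2).mul h4).smul continuousAt_fst)).continuousWithinAt
      exact h1.prodMk h2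
    exact h.cont.comp hc fun p hp => ⟨hp.1.2, mem_univ _⟩
  · intro x hx
    exact (h.norm _ hx.2).comp_map (PjP_det_ne hx.1)
  · intro A hA B hB C hC
    rw [DD_pull h hA.1 hC.1 hA.2 hC.2, DD_pull h hA.1 hB.1 hA.2 hB.2,
      DD_pull h hB.1 hC.1 hB.2 hC.2]
    exact h.tri _ hA.2 _ hB.2 _ hC.2

/-- PJ2 -/
theorem RP.pull {U : Set V} {F : V → V → ℝ} (h : RP U F) (l : V) :
    RP {y | dot l y < 1 ∧ pj l y ∈ U} (Pull F l) :=
  ⟨h.toHP.pull l, fun _ hx => SB.comp (h.sb _ hx.2) (PjP_det_ne hx.1)⟩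

/-- PJ2 -/
theorem lc_pull {F : V → V → ℝ} {l y : V} (h : dot l y < 1) (hN : NormV (F (pj l y))) :
    lc (Pull F l) y = -3 * Real.log (1 - dot l y) + lc F (pj l y) := by
  have h1 : Pull F l y = fun u => F (pj l y) (dpj l y u) := rfl
  have h2 : 0 < 1 - dot l y := by linarith
  rw [lc, h1, rc_comp hN (PjP_det_ne h), detT_dpj (PjP_ne h), abs_of_pos (by positivity),
    Real.log_mul (by positivity) (rc_pos hN).ne', Real.log_pow, Real.log_inv, lc]
  push_cast
  ring

end Pool.Agent.L1de93c
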