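import Pool.Agent.Lib_MP_1de93e_cont.Chg
import Pool.Agent.Lib_MP_1de93e_cont.PjP

/-!
# PIECE PLA: changing the gauge

## PLA `plain`
`A` with `c ‖v‖ ≤ A y v ≤ C ‖v‖` on `closedBall 0 1`. For `‖u‖ = 1`, `y ∈ closedBall 0 (1/2)`,
`Pull A d y u = A (pj d y) (dpj d y u)`, `‖dpj d y u - u‖ ≤ 10 ‖d‖`, so it differs from `A (pj d y) u` by at most
`10 C ‖d‖`; `mo (A (pj d ·) u) 0 (1/2) ≤ 16 Θ` by `mo_pj`. `lc`: `lc_pull`,
`|3 log (1 - d y)| ≤ 10 ‖d‖`.
(Continuity of `y ↦ Pull A d y u` on the square and of `lc`: `HP.pull`, `lc_continuousOn`.)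
-/

namespace Pool.Agent.L1de93c

open MeasureTheory Metric Set

theorem PLA_mo_congr {f g : V → ℝ} {x : V} {r : ℝ} (hr : 0 ≤ r)
    (h : ∀ y ∈ closedBall x r, f y = g y) : mo f x r = mo g x r := by
  have hmem : ∀ y ∈ closedBall (0 : V) 1, x + r • y ∈ closedBall x r := by
    intro y hy
    rw [mem_closedBall_zero_iff] at hy
    rw [mem_closedBall, dist_eq_norm, add_sub_cancel_left, norm_smul, Real.norm_of_nonneg hr]
    calc r * ‖y‖ ≤ r * 1 := mul_le_mul_of_nonneg_left hy hr
      _ = r := mul_one r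
  have hav : av f x r = av g x r := by
    unfold av
    congr 1
    exact setIntegral_congr_fun measurableSet_closedBall fun y hy => h _ (hmem y hy)
  unfold mo
  congr 1
  refine setIntegral_congr_fun measurableSet_closedBall fun y hy => ?_
  simp only [h _ (hmem y hy), hav]

/-- PLA -/
theorem plain {c C : ℝ} (hc : 0 < c) (hC : 0 < C) : ∃ K > 0, ∀ (U : Set V) (A : V → V → ℝ) (d : V)
    (Θ : ℝ), HP U A → closedBall 0 1 ⊆ U →
    (∀ y ∈ closedBall (0 : V) 1, ∀ v, c * ‖v‖ ≤ A y v ∧ A y v ≤ C * ‖v‖) → ‖d‖ ≤ 1 / 20 →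
    OB A 0 1 Θ → OB (Pull A d) 0 (1 / 2) (K * (Θ + ‖d‖)) := by
  refine ⟨24 + 6 * C, by positivity, ?_⟩
  intro U A d Θ hA hsub hb hd hOB
  have hΘ : 0 ≤ Θ := (mo_nonneg _ _ _).trans hOB.2
  have hd0 : 0 ≤ ‖d‖ := norm_nonneg d
  have hdy : ∀ y ∈ closedBall (0 : V) (1 / 2), |dot d y| ≤ ‖d‖ := by
    intro y hy
    rw [mem_closedBall_zero_iff] at hy
    have h1 := abs_dot_le d y
    nlinarith [norm_nonneg y]
  have hlt : ∀ y ∈ closedBall (0 : V) (1 / 2), dot d y < 1 := by
    intro y hy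
    have := (abs_le.1 (hdy y hy)).2
    linarith
  have hpos : ∀ y ∈ closedBall (0 : V) (1 / 2), 19 / 20 ≤ 1 - dot d y := by
    intro y hy
    have := (abs_le.1 (hdy y hy)).2
    linarith
  have hk : ∀ y ∈ closedBall (0 : V) (1 / 2), 0 < (1 - dot d y)⁻¹ ∧ (1 - dot d y)⁻¹ ≤ 20 / 19 := by
    intro y hy
    have h1 := hpos y hy
    refine ⟨inv_pos.2 (by linarith), ?_⟩
    rw [inv_le_comm₀ (by linarith) (by norm_num)]
    norm_num
    linarith
  have hpj : ∀ y ∈ closedBall (0 : V) (1 / 2), pj d y ∈ closedBall (0 : V) 1 := by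
    intro y hy
    obtain ⟨h1, h2⟩ := hk y hy
    rw [mem_closedBall_zero_iff] at hy ⊢
    rw [pj, norm_smul, Real.norm_of_nonneg h1.le]
    nlinarith [norm_nonneg y]
  have hsubD : closedBall (0 : V) (1 / 2) ⊆ {y | dot d y < 1 ∧ pj d y ∈ U} := fun y hy =>
    ⟨hlt y hy, hsub (hpj y hy)⟩
  have hPull := hA.pull d
  have hpjc : ContinuousOn (pj d) (closedBall (0 : V) (1 / 2)) :=
    (PjP_continuousOn d).mono hlt
  have h2r : (2 : ℝ) * (1 / 2) = 1 := by norm_num
  constructor
  · intro u hu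
    have hg : ContinuousOn (fun y => A (pj d y) u) (closedBall (0 : V) (1 / 2)) :=
      (hA.continuousOn_left u).comp hpjc fun y hy => hsub (hpj y hy)
    have hf : ContinuousOn (fun y => Pull A d y u) (closedBall (0 : V) (1 / 2)) :=
      (hPull.continuousOn_left u).mono hsubD
    have h1 : (fun y => Pull A d y u) =
        fun y => (Pull A d y u - A (pj d y) u) + A (pj d y) u := by
      funext y
      ring
    rw [h1]
    have h2 := mo_add_le (f := fun y => Pull A d y u - A (pj d y) u)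
      (g := fun y => A (pj d y) u) (x := (0 : V)) (r := 1 / 2) (by norm_num) (hf.sub hg) hg
    have h3 : mo (fun y => Pull A d y u - A (pj d y) u) 0 (1 / 2) ≤ 2 * (3 * C * ‖d‖) := by
      refine mo_le_of_sup (c := 0) (by norm_num) (hf.sub hg) fun y hy => ?_
      rw [sub_zero]
      have hN := hA.norm _ (hsub (hpj y hy))
      refine (hN.abs_sub_le _ _).trans ((hb _ (hpj y hy) _).2.trans ?_)
      obtain ⟨h4, h5⟩ := hk y hy
      have h6 : ‖dpj d y u - u‖ ≤ 3 * ‖d‖ := by
        have h7 : dpj d y u - u = ((1 - dot d y)⁻¹ * dot d y) • u +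
            ((1 - dot d y)⁻¹ ^ 2 * dot d u) • y := by
          rw [dpj_apply]
          have h8 : (1 - dot d y)⁻¹ * dot d y = (1 - dot d y)⁻¹ - 1 := by
            have h9 := PjP_ne (hlt y hy)
            field_simp
            ring
          rw [h8, sub_smul, one_smul]
          abel
        rw [h7]
        refine (norm_add_le _ _).trans ?_
        rw [norm_smul, norm_smul, hu, mul_one, Real.norm_eq_abs, Real.norm_eq_abs, abs_mul,
          abs_mul, abs_of_pos h4, abs_of_pos (pow_pos h4 2)]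
        have h9 := hdy y hy
        have h10 := abs_dot_le d u
        rw [hu, mul_one] at h10
        have h11 : ‖y‖ ≤ 1 / 2 := by
          rwa [mem_closedBall_zero_iff] at hy
        have h12 : (1 - dot d y)⁻¹ * |dot d y| ≤ 20 / 19 * ‖d‖ :=
          mul_le_mul h5 h9 (abs_nonneg _) (by norm_num)
        have h13 : (1 - dot d y)⁻¹ ^ 2 ≤ (20 / 19) ^ 2 := pow_le_pow_left₀ h4.le h5 2
        have h14 : (1 - dot d y)⁻¹ ^ 2 * |dot d u| ≤ (20 / 19) ^ 2 * (2 * ‖d‖) :=
          mul_le_mul h13 h10 (abs_nonneg _) (by norm_num)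
        have h15 : (1 - dot d y)⁻¹ ^ 2 * |dot d u| * ‖y‖ ≤ (20 / 19) ^ 2 * (2 * ‖d‖) * (1 / 2) :=
          mul_le_mul h14 h11 (norm_nonneg _) (by positivity)
        nlinarith
      calc C * ‖dpj d y u - u‖ ≤ C * (3 * ‖d‖) := mul_le_mul_of_nonneg_left h6 hC.le
        _ = 3 * C * ‖d‖ := by ring
    have h4 : mo (fun y => A (pj d y) u) 0 (1 / 2) ≤ 16 * mo (fun y => A y u) 0 1 := by
      have := mo_pj (l := d) hd (r := 1 / 2) (by norm_num) (by norm_num) (h := fun y => A y u)
        (by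
          rw [h2r]
          exact (hA.continuousOn_left u).mono hsub)
      rwa [h2r] at this
    have h5 := hOB.1 u hu
    have h6 : 0 ≤ C * Θ := mul_nonneg hC.le hΘ
    nlinarith
  · have hcongr : mo (lc (Pull A d)) 0 (1 / 2) =
        mo (fun y => -3 * Real.log (1 - dot d y) + lc A (pj d y)) 0 (1 / 2) :=
      PLA_mo_congr (by norm_num) fun y hy =>
        lc_pull (hlt y hy) (hA.norm _ (hsub (hpj y hy)))
    rw [hcongr]
    have hf : ContinuousOn (fun y => -3 * Real.log (1 - dot d y)) (closedBall (0 : V) (1 / 2)) := by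
      have h1 : ContinuousOn (fun y : V => 1 - dot d y) (closedBall (0 : V) (1 / 2)) := by
        unfold dot
        fun_prop
      exact (h1.log fun y hy => PjP_ne (hlt y hy)).const_mul (-3) |>.congr fun y _ => rfl
    have hlcA : ContinuousOn (lc A) (closedBall (0 : V) 1) := (lc_continuousOn hA).mono hsub
    have hg : ContinuousOn (fun y => lc A (pj d y)) (closedBall (0 : V) (1 / 2)) :=
      hlcA.comp hpjc hpj
    have h2 := mo_add_le (f := fun y => -3 * Real.log (1 - dot d y))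
      (g := fun y => lc A (pj d y)) (x := (0 : V)) (r := 1 / 2) (by norm_num) hf hg
    have h3 : mo (fun y => -3 * Real.log (1 - dot d y)) 0 (1 / 2) ≤ 2 * (4 * ‖d‖) := by
      refine mo_le_of_sup (c := 0) (by norm_num) hf fun y hy => ?_
      rw [sub_zero, abs_mul, abs_neg, abs_of_pos (by norm_num : (0 : ℝ) < 3)]
      have h4 := hpos y hy
      have h5 := hdy y hy
      have h6 := abs_le.1 h5
      have h7 : |Real.log (1 - dot d y)| ≤ 20 / 19 * ‖d‖ := by
        rw [abs_le]
        constructor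
        · have h8 := Real.one_sub_inv_le_log_of_pos (show 0 < 1 - dot d y by linarith)
          obtain ⟨h9, h10⟩ := hk y hy
          have h11 : 1 - (1 - dot d y)⁻¹ = -((1 - dot d y)⁻¹ * dot d y) := by
            have h9 := PjP_ne (hlt y hy)
            field_simp
            ring
          rw [h11] at h8
          have h12 : (1 - dot d y)⁻¹ * dot d y ≤ 20 / 19 * ‖d‖ := by
            calc (1 - dot d y)⁻¹ * dot d y ≤ (1 - dot d y)⁻¹ * ‖d‖ :=
                  mul_le_mul_of_nonneg_left h6.2 h9.le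
              _ ≤ 20 / 19 * ‖d‖ := mul_le_mul_of_nonneg_right h10 hd0
          linarith
        · have h8 := Real.log_le_sub_one_of_pos (show 0 < 1 - dot d y by linarith)
          linarith
      nlinarith
    have h4 : mo (fun y => lc A (pj d y)) 0 (1 / 2) ≤ 16 * mo (lc A) 0 1 := by
      have := mo_pj (l := d) hd (r := 1 / 2) (by norm_num) (by norm_num) (h := lc A)
        (by
          rw [h2r]
          exact hlcA)
      rwa [h2r] at this
    have h5 := hOB.2
    have h6 : 0 ≤ C * Θ := mul_nonneg hC.le hΘ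
    have h7 : 0 ≤ C * ‖d‖ := mul_nonneg hC.le hd0
    nlinarith

end Pool.Agent.L1de93c
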