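import Pool.Agent.Lib_MP_1de93e_cont.Chn
import Pool.Agent.Lib_MP_1de93e_cont.Pla

/-!
# PIECE BMO: one gauge for all subsquares

Standing: `HP U F`, `closedBall x (5 r) ⊆ U`, `c ‖v‖ ≤ F y v ≤ C ‖v‖` there. If `‖l‖ ≤ 1/100`,
`‖y‖ ≤ 1` then `|l y| ≤ 1/50`, `‖pj l y‖ ≤ 50/49`, and for `G = Res F x' r'` with
`closedBall x' (2 r') ⊆ U` the field `Pull G l` is `HP` on the open convex set
`{y | l y < 1 ∧ x' + r' pj l y ∈ U} ⊇ closedBall 0 1` (`HP.res`, `HP.pull`), with bounds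
`(c/2) ‖v‖ ≤ Pull G l y v ≤ 2 C ‖v‖` (`‖dpj l y v - v‖ ≤ (1/10) ‖v‖`).

## BMO `bmo`: let `closedBall y ρ ⊆ closedBall 0 (1/2)`.
If `ρ ≥ 1/16`: `mo_sub` from `OB _ 0 1 Θ`. Otherwise put `x' = x + r pj l y`, `ρ_n = 2⁻ⁿ`,
`T = dpj l y` (`‖T z - z‖ ≤ (1/10) ‖z‖`), `ν_n = ρ_n (1 - l y)⁻¹ l`, `ν'_n` with `ν'_n (T z) = ν_n z`
(so `‖ν'_n‖ ≤ (3/2) ρ_n ‖l‖`; it exists since `T` is invertible; `ν'_{n+1} = (1/2) ν'_n`). By
`res_pull`, `res_res`, `pull_lin`:
(1) `Res (Pull (Res F x r) l) y ρ_n = Lin T (Pull (Res F x' (r ρ_n)) ν'_n)` on `closedBall 0 1` (for `n ≥ 1`).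
Let `l_n` be the gauge at `(x', r ρ_n)` from `Good`, `μ_n = ν'_n - l_n`.
Base: for `n = 1`, `closedBall y (1/2) ⊆ closedBall 0 1`, so the left side of (1) has `OB _ 0 1 (8Θ)`; by
`mo_lin` for `T⁻¹` (`‖T⁻¹ z - z‖ ≤ (1/4) ‖z‖`), `lc (Pull (Res F x' (r/2)) ν'_1)` has `mo ≤ 16 * 8 Θ` on `0, 1/2`
(`lc_lin` only adds a constant). `slope` with `G = lc (Pull (Res F x' (r/2)) l_1)`, `d = μ_1`: `‖μ_1‖ ≤ K Θ`.
Step: `gauge_half` at `x'`: `‖l_{n+1} - (1/2) l_n‖ ≤ K Θ`, so `‖μ_{n+1}‖ ≤ (1/2) ‖μ_n‖ + K Θ`. Hence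
`‖μ_n‖ ≤ 2 K Θ ≤ 1/20` for all `n ≥ 1` (choice of `θ₀`).
Then `Pull (Res F x' (r ρ_n)) ν'_n = Pull (Pull (Res F x' (r ρ_n)) l_n) μ_n`; `plain`:
`OB _ 0 (1/2) (K (Θ + ‖μ_n‖)) ≤ K' Θ`; by `mo_lin` (with `r = 1/4`) `OB (Lin T _) 0 (1/4) (K'' Θ)`: for a unit
vector `u`, `F (T u) = ‖T u‖ F (T u/‖T u‖)`. By (1) and `mo_scale`:
`OB (Pull (Res F x r) l) y (ρ_n/4) (K'' Θ)`. Given `ρ < 1/16` choose `n ≥ 1` with
`ρ_n/8 < ρ ≤ ρ_n/4` and use `mo_sub`.
-/

namespace Pool.Agent.L1de93c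

open MeasureTheory Metric Set

theorem BMO_dot {l y : V} (hl : ‖l‖ ≤ 1 / 100) (hy : ‖y‖ ≤ 1) : |dot l y| ≤ 1 / 50 := by
  have h1 := abs_dot_le l y
  have h2 : ‖l‖ * ‖y‖ ≤ 1 / 100 * 1 := mul_le_mul hl hy (norm_nonneg _) (by norm_num)
  nlinarith

theorem BMO_dot' {l y : V} (hl : ‖l‖ ≤ 1 / 100) (hy : ‖y‖ ≤ 1 / 2) : |dot l y| ≤ 1 / 100 := by
  have h1 := abs_dot_le l y
  have h2 : ‖l‖ * ‖y‖ ≤ 1 / 100 * (1 / 2) := mul_le_mul hl hy (norm_nonneg _) (by norm_num)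
  nlinarith

theorem BMO_dpj {l y : V} (hl : ‖l‖ ≤ 1 / 100) (hy : ‖y‖ ≤ 1) (v : V) :
    ‖dpj l y v - v‖ ≤ 1 / 10 * ‖v‖ := by
  have h1 := abs_le.1 (BMO_dot hl hy)
  have h0 : 49 / 50 ≤ 1 - dot l y := by linarith
  have hpos : 0 < 1 - dot l y := by linarith
  have hk : (1 - dot l y)⁻¹ ≤ 50 / 49 := by
    rw [inv_le_comm₀ hpos (by norm_num)]
    norm_num
    linarith
  have hk0 : 0 < (1 - dot l y)⁻¹ := inv_pos.2 hpos
  have h7 : dpj l y v - v = ((1 - dot l y)⁻¹ * dot l y) • v +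
      ((1 - dot l y)⁻¹ ^ 2 * dot l v) • y := by
    rw [dpj_apply]
    have h8 : (1 - dot l y)⁻¹ * dot l y = (1 - dot l y)⁻¹ - 1 := by
      field_simp
      ring
    rw [h8, sub_smul, one_smul]
    abel
  rw [h7]
  refine (norm_add_le _ _).trans ?_
  rw [norm_smul, norm_smul, Real.norm_eq_abs, Real.norm_eq_abs, abs_mul, abs_mul, abs_of_pos hk0,
    abs_of_pos (pow_pos hk0 2)]
  have h9 := BMO_dot hl hy
  have h10 := abs_dot_le l v
  have h11 : |dot l v| ≤ 1 / 50 * ‖v‖ := by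
    have : ‖l‖ * ‖v‖ ≤ 1 / 100 * ‖v‖ := mul_le_mul_of_nonneg_right hl (norm_nonneg _)
    nlinarith
  have h12 : (1 - dot l y)⁻¹ * |dot l y| ≤ 50 / 49 * (1 / 50) :=
    mul_le_mul hk h9 (abs_nonneg _) (by norm_num)
  have h13 : (1 - dot l y)⁻¹ ^ 2 ≤ (50 / 49) ^ 2 := pow_le_pow_left₀ hk0.le hk 2
  have h14 : (1 - dot l y)⁻¹ ^ 2 * |dot l v| ≤ (50 / 49) ^ 2 * (1 / 50 * ‖v‖) :=
    mul_le_mul h13 h11 (abs_nonneg _) (by norm_num)
  have h15 : (1 - dot l y)⁻¹ ^ 2 * |dot l v| * ‖y‖ ≤ (50 / 49) ^ 2 * (1 / 50 * ‖v‖) * 1 :=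
    mul_le_mul h14 hy (norm_nonneg _) (by positivity)
  have h16 : (1 - dot l y)⁻¹ * |dot l y| * ‖v‖ ≤ 50 / 49 * (1 / 50) * ‖v‖ :=
    mul_le_mul_of_nonneg_right h12 (norm_nonneg _)
  have h17 := norm_nonneg v
  nlinarith

/-- The inverse of `dpj l y`. -/
noncomputable def bmoI (l y : V) : V →L[ℝ] V :=
  (1 - dot l y) • (ContinuousLinearMap.id ℝ V -
    (l.1 • ContinuousLinearMap.fst ℝ ℝ ℝ + l.2 • ContinuousLinearMap.snd ℝ ℝ ℝ).smulRight y)

theorem bmoI_apply (l y w : V) : bmoI l y w = (1 - dot l y) • (w - dot l w • y) := by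
  simp [bmoI, dot]

theorem bmoI_dpj {l y : V} (h : 1 - dot l y ≠ 0) (w : V) : dpj l y (bmoI l y w) = w := by
  rw [bmoI_apply, map_smul, map_sub, map_smul, dpj_apply, dpj_apply]
  generalize dot l w = b
  have h2 : dot l y = 1 - (1 - dot l y) := by ring
  generalize hk : 1 - dot l y = a at *
  rw [h2]
  ext <;> simp only [Prod.fst_add, Prod.snd_add, Prod.smul_fst, Prod.smul_snd, smul_eq_mul,
    Prod.fst_sub, Prod.snd_sub] <;> field_simp <;> ring

theorem bmoI_near {l y : V} (hl : ‖l‖ ≤ 1 / 100) (hy : ‖y‖ ≤ 1 / 2) (z : V) :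
    ‖bmoI l y z - z‖ ≤ 1 / 4 * ‖z‖ := by
  have h1 := BMO_dot' hl hy
  have h2 : bmoI l y z - z = (-(dot l y)) • z + (-((1 - dot l y) * dot l z)) • y := by
    rw [bmoI_apply]
    ext <;> simp only [Prod.fst_add, Prod.snd_add, Prod.smul_fst, Prod.smul_snd, smul_eq_mul,
      Prod.fst_sub, Prod.snd_sub] <;> ring
  rw [h2]
  refine (norm_add_le _ _).trans ?_
  rw [norm_smul, norm_smul, Real.norm_eq_abs, Real.norm_eq_abs, abs_neg, abs_neg, abs_mul]
  have h3 := abs_dot_le l z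
  have h4 : |dot l z| ≤ 1 / 50 * ‖z‖ := by
    have : ‖l‖ * ‖z‖ ≤ 1 / 100 * ‖z‖ := mul_le_mul_of_nonneg_right hl (norm_nonneg _)
    nlinarith
  have h5 : |1 - dot l y| ≤ 2 := by
    have := abs_le.1 h1
    rw [abs_le]
    constructor <;> linarith
  have h6 : |1 - dot l y| * |dot l z| ≤ 2 * (1 / 50 * ‖z‖) :=
    mul_le_mul h5 h4 (abs_nonneg _) (by norm_num)
  have h7 : |1 - dot l y| * |dot l z| * ‖y‖ ≤ 2 * (1 / 50 * ‖z‖) * (1 / 2) :=
    mul_le_mul h6 hy (norm_nonneg _) (by positivity)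
  have h8 : |dot l y| * ‖z‖ ≤ 1 / 100 * ‖z‖ := mul_le_mul_of_nonneg_right h1 (norm_nonneg _)
  have h9 := norm_nonneg z
  nlinarith

/-- The field near `y` in terms of the field at `x + r pj l y`. -/
theorem BMO_eq {F : V → V → ℝ} {x l y z : V} {r s : ℝ} (hl : ‖l‖ ≤ 1 / 100) (hy : ‖y‖ ≤ 1 / 2)
    (hz : ‖z‖ ≤ 1) (hs : 0 < s) (hs2 : s ≤ 1 / 2) (v : V) :
    Pull (Res F x r) l (y + s • z) v =
      Pull (Res F (x + r • pj l y) (r * s)) ((s * (1 - dot l y)) • l) (dpj l y z) (dpj l y v) := by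
  have h1 := abs_le.1 (BMO_dot' hl hy)
  have hn : ‖y + s • z‖ ≤ 1 := by
    refine (norm_add_le _ _).trans ?_
    rw [norm_smul, Real.norm_of_nonneg hs.le]
    nlinarith [norm_nonneg z]
  have h2 := abs_le.1 (BMO_dot hl hn)
  have h3 : 1 - dot l y ≠ 0 := by
    have : 0 < 1 - dot l y := by linarith
    exact this.ne'
  have h4 : 1 - dot l (y + s • z) ≠ 0 := by
    have : 0 < 1 - dot l (y + s • z) := by linarith
    exact this.ne'
  have h5 := res_pull (G := Res F x r) (l := l) (y := y) (z := z) (ρ := s) h3 h4 v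
  have h6 : ∀ z, dot ((s * (1 - dot l y)) • l) (dpj l y z) =
      dot ((s * (1 - dot l y)⁻¹) • l) z := by
    intro z
    rw [dpj_apply, dot_smul_left, dot_smul_left, dot_add_right, dot_smul_right, dot_smul_right]
    have h2 : dot l y = 1 - (1 - dot l y) := by ring
    generalize hk : 1 - dot l y = a at *
    rw [h2]
    field_simp
    ring
  rw [pull_lin h6, res_res] at h5
  exact h5

/-- Change of the gauge by `pull_pull`. -/
theorem BMO_pp {A : V → V → ℝ} {m d y : V} (hm : ‖m‖ ≤ 1 / 20) (hd : ‖d‖ ≤ 1 / 20)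
    (hy : ‖y‖ ≤ 1) : Pull (Pull A m) d y = Pull A (d + m) y := by
  funext v
  have h1 := CHN_dot hd hy
  have h2 := CHN_dot hm hy
  refine pull_pull ?_ ?_ v
  · have : 0 < 1 - dot d y := by linarith
    exact this.ne'
  · rw [dot_add_left]
    have : 0 < 1 - (dot d y + dot m y) := by linarith
    exact this.ne'

/-- Existence of the dyadic scale. -/
theorem BMO_scale {ρ : ℝ} (h0 : 0 < ρ) (h1 : ρ < 1 / 16) :
    ∃ n : ℕ, (1 / 2 : ℝ) ^ (n + 1) / 8 < ρ ∧ ρ ≤ (1 / 2 : ℝ) ^ (n + 1) / 4 := by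
  have hex : ∃ n : ℕ, (1 / 2 : ℝ) ^ (n + 1) / 8 < ρ := by
    obtain ⟨n, hn⟩ := exists_pow_lt_of_lt_one h0 (by norm_num : (1 / 2 : ℝ) < 1)
    refine ⟨n, ?_⟩
    have : (0 : ℝ) < (1 / 2) ^ n := by positivity
    rw [pow_succ]
    linarith
  classical
  refine ⟨Nat.find hex, Nat.find_spec hex, ?_⟩
  rcases Nat.eq_zero_or_pos (Nat.find hex) with h | h
  · rw [h]
    norm_num
    linarith
  · have h2 := Nat.find_min hex (m := Nat.find hex - 1) (by omega)
    have h3 : Nat.find hex - 1 + 1 = Nat.find hex := by omega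
    rw [h3, not_lt] at h2
    rw [pow_succ]
    linarith

theorem BMO_res_congr {P Q : V → V → ℝ} {y : V} {s ρ : ℝ} (hρ : 0 ≤ ρ)
    (h : ∀ z, ‖z‖ ≤ ρ → P (y + s • z) = Q z) (u : V) :
    mo (fun z => P z u) y (s * ρ) = mo (fun z => Q z u) 0 ρ := by
  have h1 := mo_scale (fun z => P z u) y 0 s ρ
  rw [smul_zero, add_zero] at h1
  rw [← h1]
  refine mo_congr hρ fun z hz => ?_
  rw [mem_closedBall_zero_iff] at hz
  rw [h z hz]

theorem BMO_res_congr_lc {P Q : V → V → ℝ} {y : V} {s ρ : ℝ} (hρ : 0 ≤ ρ)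
    (h : ∀ z, ‖z‖ ≤ ρ → P (y + s • z) = Q z) :
    mo (lc P) y (s * ρ) = mo (lc Q) 0 ρ := by
  have h1 := mo_scale (lc P) y 0 s ρ
  rw [smul_zero, add_zero] at h1
  rw [← h1]
  refine mo_congr hρ fun z hz => ?_
  rw [mem_closedBall_zero_iff] at hz
  unfold lc
  rw [h z hz]

/-- The linear change of variables: from `Q` on `closedBall 0 (1/2)` to `Lin T Q` on
`closedBall 0 (1/4)`. -/
theorem BMO_lin {W : Set V} {Q : V → V → ℝ} (hQ : HP W Q) (hW : closedBall 0 1 ⊆ W)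
    {T : V →L[ℝ] V} (hT : ∀ z, ‖T z - z‖ ≤ 1 / 4 * ‖z‖) (hdet : detT T ≠ 0) {Θ : ℝ}
    (hΘ : 0 ≤ Θ) (hOB : OB Q 0 (1 / 2) Θ) : OB (Lin T Q) 0 (1 / 4) (32 * Θ) := by
  have hTn : ∀ z, ‖T z‖ ≤ 5 / 4 * ‖z‖ := by
    intro z
    have h1 : T z = (T z - z) + z := by abel
    rw [h1]
    refine (norm_add_le _ _).trans ?_
    have := hT z
    linarith
  have hTn' : ∀ z, 3 / 4 * ‖z‖ ≤ ‖T z‖ := by
    intro z
    have h1 : ‖z‖ ≤ ‖T z - z‖ + ‖T z‖ := by
      have := norm_sub_le (T z) (T z - z)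
      rw [sub_sub_cancel] at this
      linarith
    have := hT z
    linarith
  have hhalf : closedBall (0 : V) (2 * (1 / 4)) ⊆ W :=
    (closedBall_subset_closedBall (by norm_num)).trans hW
  have h24 : (2 : ℝ) * (1 / 4) = 1 / 2 := by norm_num
  constructor
  · intro u hu
    have hw : ‖T u‖ ≤ 5 / 4 := by
      have := hTn u
      rw [hu] at this
      linarith
    have hw' : 0 < ‖T u‖ := by
      have := hTn' u
      rw [hu] at this
      linarith
    have h1 : mo (fun y => Lin T Q y u) 0 (1 / 4) ≤ 16 * mo (fun y => Q y (T u)) 0 (2 * (1 / 4)) :=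
      mo_lin (h := fun y => Q y (T u)) hT (by norm_num) ((hQ.continuousOn_left _).mono hhalf)
    rw [h24] at h1
    have h2 : mo (fun y => Q y (T u)) 0 (1 / 2) =
        mo (fun y => ‖T u‖ * Q y (‖T u‖⁻¹ • T u)) 0 (1 / 2) := by
      refine mo_congr (by norm_num) fun y hy => ?_
      have hyW : y ∈ W := hW (closedBall_subset_closedBall (by norm_num) hy)
      rw [(hQ.norm y hyW).smul_nonneg (inv_nonneg.2 hw'.le), ← mul_assoc,
        mul_inv_cancel₀ hw'.ne', one_mul]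
    have h3 := hOB.1 (‖T u‖⁻¹ • T u) (by
      rw [norm_smul, norm_inv, norm_norm, inv_mul_cancel₀ hw'.ne'])
    rw [h2, mo_const_mul, abs_of_pos hw'] at h1
    have h4 : ‖T u‖ * mo (fun y => Q y (‖T u‖⁻¹ • T u)) 0 (1 / 2) ≤ 5 / 4 * Θ :=
      mul_le_mul hw h3 (mo_nonneg _ _ _) (by norm_num)
    linarith
  · have hlc : ContinuousOn (lc Q) (closedBall 0 (2 * (1 / 4))) :=
      (lc_continuousOn hQ).mono hhalf
    have h1 : mo (fun y => lc Q (T y)) 0 (1 / 4) ≤ 16 * mo (lc Q) 0 (2 * (1 / 4)) :=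
      mo_lin (h := lc Q) hT (by norm_num) hlc
    rw [h24] at h1
    have hmap : ∀ y ∈ closedBall (0 : V) (1 / 4), T y ∈ closedBall (0 : V) (2 * (1 / 4)) := by
      intro y hy
      rw [mem_closedBall_zero_iff] at hy ⊢
      have := hTn y
      linarith
    have hc : ContinuousOn (fun y => lc Q (T y)) (closedBall 0 (1 / 4)) :=
      hlc.comp T.continuous.continuousOn hmap
    have h2 : mo (lc (Lin T Q)) 0 (1 / 4) =
        mo (fun y => lc Q (T y) + Real.log |detT T|) 0 (1 / 4) := by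
      refine mo_congr (by norm_num) fun y hy => ?_
      rw [lc_lin hdet (hQ.norm _ (hhalf (hmap y hy)))]
      ring
    rw [h2, mo_add_const (by norm_num) hc]
    have h3 := hOB.2
    linarith

/-- The base estimate: back from `Lin T Q` to `Q`. -/
theorem BMO_back {W : Set V} {Q : V → V → ℝ} (hQ : HP W Q) {T S : V →L[ℝ] V}
    (hS : ∀ z, ‖S z - z‖ ≤ 1 / 4 * ‖z‖) (hdet : detT T ≠ 0) (hTS : ∀ z, T (S z) = z)
    (hTW : ∀ z ∈ closedBall (0 : V) 1, T z ∈ W) {Θ : ℝ} (h : mo (lc (Lin T Q)) 0 1 ≤ Θ) :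
    mo (lc Q) 0 (1 / 2) ≤ 16 * Θ := by
  have h1 : ContinuousOn (fun y => lc Q (T y)) (closedBall 0 (2 * (1 / 2))) := by
    rw [show (2 : ℝ) * (1 / 2) = 1 by norm_num]
    exact (lc_continuousOn hQ).comp T.continuous.continuousOn hTW
  have h2 := mo_lin (h := fun y => lc Q (T y)) hS (r := 1 / 2) (by norm_num) h1
  have h3 : mo (fun y => lc Q (T (S y))) 0 (1 / 2) = mo (lc Q) 0 (1 / 2) := by
    simp only [hTS]
  rw [show (2 : ℝ) * (1 / 2) = 1 by norm_num] at h1 h2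
  have h4 : mo (lc (Lin T Q)) 0 1 = mo (fun y => lc Q (T y) + Real.log |detT T|) 0 1 := by
    refine mo_congr (by norm_num) fun y hy => ?_
    rw [lc_lin hdet (hQ.norm _ (hTW y hy))]
    ring
  rw [h4, mo_add_const (by norm_num) h1] at h
  rw [← h3]
  exact h2.trans (mul_le_mul_of_nonneg_left h (by norm_num))

/-- The gauges at all dyadic scales at `x' = x + r pj l y`. -/
theorem BMO_gauges {K₁ : ℝ} (hK₁ : ∀ (U : Set V) (F : V → V → ℝ) (x : V) (r Θ : ℝ) (l l₁ : V),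
      HP U F → 0 < r → closedBall x (2 * r) ⊆ U → ‖l‖ ≤ 1 / 100 → ‖l₁‖ ≤ 1 / 100 →
      OB (Pull (Res F x r) l) 0 1 Θ → OB (Pull (Res F x (r / 2)) l₁) 0 1 Θ →
      ‖l₁ - (1 / 2 : ℝ) • l‖ ≤ K₁ * Θ)
    {U : Set V} {F : V → V → ℝ} {x : V} {r Θ : ℝ} {l : V} (hF : HP U F) (hr : 0 < r)
    (hU : closedBall x (5 * r) ⊆ U) (hΘ : 0 ≤ Θ)
    (hgood : ∀ x' ∈ closedBall x (2 * r), ∀ r', 0 < r' → r' ≤ 2 * r → Good F x' r' Θ)
    (hl : ‖l‖ ≤ 1 / 100) (hOB : OB (Pull (Res F x r) l) 0 1 Θ) {y : V} (hy : ‖y‖ ≤ 1 / 2)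
    {M : ℝ} (hM1 : 5160 ≤ M) (hM2 : 2 * K₁ ≤ M) (n : ℕ) :
    ∃ m : V, ‖m‖ ≤ 1 / 100 ∧
      OB (Pull (Res F (x + r • pj l y) (r * (1 / 2) ^ (n + 1))) m) 0 1 Θ ∧
      ‖((1 / 2 : ℝ) ^ (n + 1) * (1 - dot l y)) • l - m‖ ≤ M * Θ := by
  have hdy := abs_le.1 (BMO_dot' hl hy)
  have hpos : 0 < 1 - dot l y := by linarith
  have hpj : ‖pj l y‖ ≤ 1 := by
    have := CHN_pj (hl.trans (by norm_num)) (hy.trans (by norm_num))
    linarith
  have hx' : x + r • pj l y ∈ closedBall x (2 * r) := by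
    rw [mem_closedBall, dist_eq_norm, add_sub_cancel_left, norm_smul, Real.norm_of_nonneg hr.le]
    nlinarith
  have hU' : closedBall (x + r • pj l y) (2 * r) ⊆ U := by
    refine (closedBall_subset_closedBall' ?_).trans hU
    have := mem_closedBall.1 hx'
    linarith
  have hN : ∀ s : ℝ, 0 ≤ s → s ≤ 1 / 2 → ‖(s * (1 - dot l y)) • l‖ ≤ 1 / 100 := by
    intro s h1 h2
    rw [norm_smul, Real.norm_of_nonneg (by positivity)]
    have h3 : s * (1 - dot l y) ≤ 1 := by nlinarith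
    calc s * (1 - dot l y) * ‖l‖ ≤ 1 * (1 / 100) :=
          mul_le_mul h3 hl (norm_nonneg _) zero_le_one
      _ = _ := one_mul _
  induction n with
  | zero =>
    obtain ⟨m, hm, hmOB⟩ := hgood _ hx' (r * (1 / 2) ^ (0 + 1)) (by positivity) (by
      rw [zero_add, pow_one]
      linarith)
    refine ⟨m, hm, hmOB, ?_⟩
    rw [zero_add, pow_one] at hmOB ⊢
    have hs : (0 : ℝ) < r * (1 / 2) := by positivity
    have hsr : r * (1 / 2) ≤ r := by linarith
    set ν : V := ((1 / 2 : ℝ) * (1 - dot l y)) • l with hν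
    have hνn : ‖ν‖ ≤ 1 / 100 := hN (1 / 2) (by norm_num) le_rfl
    set A : V → V → ℝ := Res F (x + r • pj l y) (r * (1 / 2)) with hA
    -- the field in the gauge `ν`
    obtain ⟨hQ, hQs⟩ := CHN_HP hF hs hsr hU' (l := ν) (hνn.trans (by norm_num))
    obtain ⟨hP, hPs⟩ := CHN_HP hF hr le_rfl (l := l) (x := x)
      ((closedBall_subset_closedBall (by linarith)).trans hU) (hl.trans (by norm_num))
    obtain ⟨hG, hGs⟩ := CHN_HP hF hs hsr hU' (l := m) (hm.trans (by norm_num))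
    have hT : detT (dpj l y) ≠ 0 := by
      rw [detT_dpj hpos.ne']
      positivity
    have hTn : ∀ z : V, ‖z‖ ≤ 1 → ‖dpj l y z‖ ≤ 11 / 10 := by
      intro z hz
      have h1 := BMO_dpj hl (hy.trans (by norm_num)) z
      have h2 : dpj l y z = (dpj l y z - z) + z := by abel
      rw [h2]
      refine (norm_add_le _ _).trans ?_
      linarith
    have hTW : ∀ z ∈ closedBall (0 : V) 1, dpj l y z ∈
        {y_1 | dot ν y_1 < 1 ∧ pj ν y_1 ∈ {y_2 | (x + r • pj l y) + (r * (1 / 2)) • y_2 ∈ U}} := by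
      intro z hz
      rw [mem_closedBall_zero_iff] at hz
      have h1 := hTn z hz
      have h2 : |dot ν (dpj l y z)| ≤ 1 / 25 := by
        have h3 := abs_dot_le ν (dpj l y z)
        have h4 : ‖ν‖ * ‖dpj l y z‖ ≤ 1 / 100 * (11 / 10) :=
          mul_le_mul hνn h1 (norm_nonneg _) (by norm_num)
        nlinarith
      have h3 := abs_le.1 h2
      refine ⟨by linarith, hU' ?_⟩
      rw [mem_closedBall, dist_eq_norm, add_sub_cancel_left, norm_smul,
        Real.norm_of_nonneg hs.le]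
      have h5 : ‖pj ν (dpj l y z)‖ ≤ 2 := by
        unfold pj
        rw [norm_smul, Real.norm_of_nonneg (inv_nonneg.2 (by linarith))]
        have h6 : (1 - dot ν (dpj l y z))⁻¹ ≤ 25 / 24 := by
          rw [inv_le_comm₀ (by linarith) (by norm_num), show (25 / 24 : ℝ)⁻¹ = 24 / 25 by norm_num]
          linarith
        calc _ ≤ 25 / 24 * (11 / 10) := mul_le_mul h6 h1 (norm_nonneg _) (by norm_num)
          _ ≤ 2 := by norm_num
      calc r * (1 / 2) * ‖pj ν (dpj l y z)‖ ≤ r * (1 / 2) * 2 :=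
            mul_le_mul_of_nonneg_left h5 hs.le
        _ ≤ 2 * r := by linarith
    -- `lc` over `closedBall y (1/2)`
    have h8 : mo (lc (Pull (Res F x r) l)) y (1 / 2) ≤ 8 * Θ := by
      have h1 := mo_sub (h := lc (Pull (Res F x r) l)) (x := 0) (x' := y) (r := 1) (r' := 1 / 2)
        (by norm_num) (closedBall_subset_closedBall' (by
          rw [dist_zero_right]
          linarith)) ((lc_continuousOn hP).mono hPs)
      have h2 : 2 * (1 / (1 / 2 : ℝ)) ^ 2 = 8 := by norm_num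
      rw [h2] at h1
      have := hOB.2
      linarith
    have h9 : mo (lc (Lin (dpj l y) (Pull A ν))) 0 1 ≤ 8 * Θ := by
      have h1 := BMO_res_congr_lc (P := Pull (Res F x r) l) (Q := Lin (dpj l y) (Pull A ν))
        (y := y) (s := 1 / 2) (ρ := 1) zero_le_one (by
          intro z hz
          funext v
          exact BMO_eq hl hy hz (by norm_num) le_rfl v)
      rw [mul_one] at h1
      rw [← h1]
      exact h8
    have h10 := BMO_back hQ (bmoI_near hl hy) hT (bmoI_dpj hpos.ne') hTW h9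
    have hd : ‖ν - m‖ ≤ 1 / 20 := by
      refine (norm_sub_le _ _).trans ?_
      linarith
    have h11 : mo (fun z => -3 * Real.log (1 - dot (ν - m) z) + lc (Pull A m) (pj (ν - m) z)) 0
        (1 / 2) ≤ 16 * (8 * Θ) := by
      refine le_trans (le_of_eq ?_) h10
      refine mo_congr (by norm_num) fun z hz => ?_
      rw [mem_closedBall_zero_iff] at hz
      have hz1 : ‖z‖ ≤ 1 := hz.trans (by norm_num)
      have h12 : lc (Pull A ν) z = lc (Pull (Pull A m) (ν - m)) z := by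
        unfold lc
        rw [BMO_pp (hm.trans (by norm_num)) hd hz1, sub_add_cancel]
      have h13 := CHN_dot hd hz1
      rw [h12, lc_pull (by linarith) (hG.norm _ (hGs ?_))]
      rw [mem_closedBall_zero_iff]
      have := CHN_pj hd hz1
      linarith
    have h14 := slope hd ((lc_continuousOn hG).mono hGs) hmOB.2 h11
    have h15 : 5160 * Θ ≤ M * Θ := mul_le_mul_of_nonneg_right hM1 hΘ
    linarith
  | succ n ih =>
    obtain ⟨m, hm, hmOB, hmb⟩ := ih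
    have hsn : (0 : ℝ) < (1 / 2) ^ (n + 1) := by positivity
    have hs1 : (1 / 2 : ℝ) ^ (n + 1) ≤ 1 / 2 := by
      rw [pow_succ]
      have : (1 / 2 : ℝ) ^ n ≤ 1 := pow_le_one₀ (by norm_num) (by norm_num)
      linarith
    have hhalf : r * (1 / 2 : ℝ) ^ (n + 1 + 1) = r * (1 / 2) ^ (n + 1) / 2 := by
      rw [pow_succ (1 / 2 : ℝ) (n + 1)]
      ring
    obtain ⟨m', hm', hmOB'⟩ := hgood _ hx' (r * (1 / 2) ^ (n + 1 + 1)) (by positivity) (by
      rw [hhalf]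
      nlinarith)
    refine ⟨m', hm', hmOB', ?_⟩
    have h1 := hK₁ U F (x + r • pj l y) (r * (1 / 2) ^ (n + 1)) Θ m m' hF (by positivity)
      ((closedBall_subset_closedBall (by nlinarith)).trans hU') hm hm' hmOB (by
        rw [← hhalf]
        exact hmOB')
    have h2 : ((1 / 2 : ℝ) ^ (n + 1 + 1) * (1 - dot l y)) • l - m' =
        (1 / 2 : ℝ) • (((1 / 2 : ℝ) ^ (n + 1) * (1 - dot l y)) • l - m) -
          (m' - (1 / 2 : ℝ) • m) := by
      rw [pow_succ (1 / 2 : ℝ) (n + 1)]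
      ext <;> simp only [Prod.fst_sub, Prod.snd_sub, Prod.smul_fst, Prod.smul_snd, smul_eq_mul] <;>
        ring
    rw [h2]
    refine (norm_sub_le _ _).trans ?_
    rw [norm_smul, Real.norm_of_nonneg (by norm_num)]
    have h3 : K₁ * Θ ≤ M / 2 * Θ := mul_le_mul_of_nonneg_right (by linarith) hΘ
    linarith

/-- BMO -/
theorem bmo {c C : ℝ} (hc : 0 < c) (hC : 0 < C) : ∃ K > 0, ∃ θ₀ > 0, ∀ (U : Set V) (F : V → V → ℝ)
    (x : V) (r Θ : ℝ) (l : V), HP U F → 0 < r → closedBall x (5 * r) ⊆ U →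
    (∀ y ∈ closedBall x (5 * r), ∀ v, c * ‖v‖ ≤ F y v ∧ F y v ≤ C * ‖v‖) → 0 ≤ Θ → Θ ≤ θ₀ →
    (∀ x' ∈ closedBall x (2 * r), ∀ r', 0 < r' → r' ≤ 2 * r → Good F x' r' Θ) → ‖l‖ ≤ 1 / 100 →
    OB (Pull (Res F x r) l) 0 1 Θ →
    ∀ y ρ, 0 < ρ → closedBall y ρ ⊆ closedBall (0 : V) (1 / 2) →
      OB (Pull (Res F x r) l) y ρ (K * Θ) := by
  obtain ⟨K₁, hK₁0, hK₁⟩ := gauge_half
  obtain ⟨K₂, hK₂0, hK₂⟩ := plain (c := c / 2) (C := 2 * C) (by positivity) (by positivity)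
  set M : ℝ := 5160 + 2 * K₁ with hM
  have hM0 : 0 < M := by positivity
  refine ⟨512 + 8 * (32 * (K₂ * (1 + M))), by positivity, 1 / 20 / M, by positivity,
    fun U F x r Θ l hF hr hU hb hΘ hΘ0 hgood hl hOB y ρ hρ hsub => ?_⟩
  have hMΘ : M * Θ ≤ 1 / 20 := by
    calc M * Θ ≤ M * (1 / 20 / M) := mul_le_mul_of_nonneg_left hΘ0 hM0.le
      _ = 1 / 20 := by field_simp
  obtain ⟨hP, hPs⟩ := CHN_HP hF hr le_rfl (l := l) (x := x)
    ((closedBall_subset_closedBall (by linarith)).trans hU) (hl.trans (by norm_num))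
  have hsub1 : closedBall y ρ ⊆ closedBall (0 : V) 1 :=
    hsub.trans (closedBall_subset_closedBall (by norm_num))
  have hy : ‖y‖ ≤ 1 / 2 := by
    have := hsub (mem_closedBall_self hρ.le)
    rwa [mem_closedBall_zero_iff] at this
  have hPu : ∀ u, ContinuousOn (fun z => Pull (Res F x r) l z u) (closedBall 0 1) := fun u =>
    (hP.continuousOn_left u).mono hPs
  have hPlc : ContinuousOn (lc (Pull (Res F x r) l)) (closedBall 0 1) :=
    (lc_continuousOn hP).mono hPs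
  have hKΘ : 0 ≤ K₂ * (1 + M) * Θ := by positivity
  rcases le_or_gt (1 / 16) ρ with hρ16 | hρ16
  · -- large squares
    have hk : 2 * (1 / ρ) ^ 2 ≤ 512 := by
      have h1 : 1 / ρ ≤ 16 := by
        rw [div_le_iff₀ hρ]
        linarith
      have h2 : 0 ≤ 1 / ρ := by positivity
      nlinarith
    constructor
    · intro u hu
      have h1 := mo_sub hρ hsub1 (hPu u)
      have h2 := hOB.1 u hu
      have h3 : 2 * (1 / ρ) ^ 2 * mo (fun z => Pull (Res F x r) l z u) 0 1 ≤ 512 * Θ :=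
        mul_le_mul hk h2 (mo_nonneg _ _ _) (by norm_num)
      linarith
    · have h1 := mo_sub hρ hsub1 hPlc
      have h2 := hOB.2
      have h3 : 2 * (1 / ρ) ^ 2 * mo (lc (Pull (Res F x r) l)) 0 1 ≤ 512 * Θ :=
        mul_le_mul hk h2 (mo_nonneg _ _ _) (by norm_num)
      linarith
  -- small squares
  obtain ⟨n, hn1, hn2⟩ := BMO_scale hρ hρ16
  obtain ⟨m, hm, hmOB, hmb⟩ := BMO_gauges hK₁ hF hr hU hΘ hgood hl hOB hy (M := M)
    (by linarith) (by linarith) n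
  set s : ℝ := (1 / 2) ^ (n + 1) with hs
  have hs0 : 0 < s := by positivity
  have hs1 : s ≤ 1 / 2 := by
    rw [hs, pow_succ]
    have : (1 / 2 : ℝ) ^ n ≤ 1 := pow_le_one₀ (by norm_num) (by norm_num)
    linarith
  have hdy := abs_le.1 (BMO_dot' hl hy)
  have hpos : 0 < 1 - dot l y := by linarith
  have hpj : ‖pj l y‖ ≤ 1 := by
    have := CHN_pj (hl.trans (by norm_num)) (hy.trans (by norm_num))
    linarith
  have hx' : dist (x + r • pj l y) x ≤ r := by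
    rw [dist_eq_norm, add_sub_cancel_left, norm_smul, Real.norm_of_nonneg hr.le]
    nlinarith
  have h5 : closedBall (x + r • pj l y) (2 * r) ⊆ closedBall x (5 * r) :=
    closedBall_subset_closedBall' (by linarith)
  have hU' : closedBall (x + r • pj l y) (2 * r) ⊆ U := h5.trans hU
  have hrs : 0 < r * s := by positivity
  have hrs1 : r * s ≤ r := by nlinarith
  set ν : V := (s * (1 - dot l y)) • l with hν
  have hνn : ‖ν‖ ≤ 1 / 100 := by
    rw [hν, norm_smul, Real.norm_of_nonneg (by positivity)]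
    have h3 : s * (1 - dot l y) ≤ 1 := by nlinarith
    calc s * (1 - dot l y) * ‖l‖ ≤ 1 * (1 / 100) :=
          mul_le_mul h3 hl (norm_nonneg _) zero_le_one
      _ = _ := one_mul _
  set A : V → V → ℝ := Res F (x + r • pj l y) (r * s) with hA
  obtain ⟨hQ, hQs⟩ := CHN_HP hF hrs hrs1 hU' (l := ν) (hνn.trans (by norm_num))
  obtain ⟨hG, hGs⟩ := CHN_HP hF hrs hrs1 hU' (l := m) (hm.trans (by norm_num))
  have hd : ‖ν - m‖ ≤ 1 / 20 := hmb.trans hMΘ
  -- bounds for the field in the gauge `m`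
  have hGb : ∀ z ∈ closedBall (0 : V) 1, ∀ v, c / 2 * ‖v‖ ≤ Pull A m z v ∧
      Pull A m z v ≤ 2 * C * ‖v‖ := by
    intro z hz v
    rw [mem_closedBall_zero_iff] at hz
    have h1 : (x + r • pj l y) + (r * s) • pj m z ∈ closedBall x (5 * r) := by
      refine h5 ?_
      rw [mem_closedBall, dist_eq_norm, add_sub_cancel_left, norm_smul,
        Real.norm_of_nonneg hrs.le]
      have h6 := CHN_pj (hm.trans (by norm_num)) hz
      have h7 : ‖pj m z‖ ≤ 2 := by linarith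
      calc r * s * ‖pj m z‖ ≤ r * s * 2 := mul_le_mul_of_nonneg_left h7 hrs.le
        _ ≤ 2 * r := by linarith
    have h2 := hb _ h1 (dpj m z v)
    have h3 := BMO_dpj hm hz v
    have h4 : ‖dpj m z v‖ ≤ 11 / 10 * ‖v‖ := by
      have h6 : dpj m z v = (dpj m z v - v) + v := by abel
      rw [h6]
      refine (norm_add_le _ _).trans ?_
      linarith
    have h5 : 9 / 10 * ‖v‖ ≤ ‖dpj m z v‖ := by
      have h6 : ‖v‖ ≤ ‖dpj m z v - v‖ + ‖dpj m z v‖ := by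
        have := norm_sub_le (dpj m z v) (dpj m z v - v)
        rw [sub_sub_cancel] at this
        linarith
      linarith
    have h8 : Pull A m z v = F ((x + r • pj l y) + (r * s) • pj m z) (dpj m z v) := rfl
    rw [h8]
    have h9 := norm_nonneg v
    constructor
    · refine le_trans ?_ h2.1
      nlinarith
    · refine h2.2.trans ?_
      nlinarith
  have h1 := hK₂ _ (Pull A m) (ν - m) Θ hG hGs hGb hd hmOB
  have h2 : OB (Pull A ν) 0 (1 / 2) (K₂ * (1 + M) * Θ) := by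
    have h3 : K₂ * (Θ + ‖ν - m‖) ≤ K₂ * (1 + M) * Θ := by
      have : K₂ * (Θ + ‖ν - m‖) ≤ K₂ * (Θ + M * Θ) :=
        mul_le_mul_of_nonneg_left (by linarith) hK₂0.le
      linarith
    have h4 : ∀ z ∈ closedBall (0 : V) (1 / 2), Pull A ν z = Pull (Pull A m) (ν - m) z := by
      intro z hz
      rw [mem_closedBall_zero_iff] at hz
      rw [BMO_pp (hm.trans (by norm_num)) hd (hz.trans (by norm_num)), sub_add_cancel]
    constructor
    · intro u hu
      refine le_trans (le_of_eq ?_) ((h1.1 u hu).trans h3)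
      refine mo_congr (by norm_num) fun z hz => ?_
      rw [h4 z hz]
    · refine le_trans (le_of_eq ?_) (h1.2.trans h3)
      refine mo_congr (by norm_num) fun z hz => ?_
      unfold lc
      rw [h4 z hz]
  have hT : detT (dpj l y) ≠ 0 := by
    rw [detT_dpj hpos.ne']
    positivity
  have hTnear : ∀ z, ‖dpj l y z - z‖ ≤ 1 / 4 * ‖z‖ := by
    intro z
    refine (BMO_dpj hl (hy.trans (by norm_num)) z).trans ?_
    have := norm_nonneg z
    linarith
  have h3 := BMO_lin hQ hQs hTnear hT hKΘ h2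
  -- back to `closedBall y (s / 4)`
  have hcb : closedBall y (s * (1 / 4)) ⊆ closedBall (0 : V) 1 :=
    closedBall_subset_closedBall' (by
      rw [dist_zero_right]
      linarith)
  have hsubρ : closedBall y ρ ⊆ closedBall y (s * (1 / 4)) :=
    closedBall_subset_closedBall (by linarith)
  have hk : 2 * ((s * (1 / 4)) / ρ) ^ 2 ≤ 8 := by
    have h4 : (s * (1 / 4)) / ρ ≤ 2 := by
      rw [div_le_iff₀ hρ]
      linarith
    have h6 : 0 ≤ (s * (1 / 4)) / ρ := by positivity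
    nlinarith
  have heq : ∀ z, ‖z‖ ≤ 1 / 4 → Pull (Res F x r) l (y + s • z) = Lin (dpj l y) (Pull A ν) z := by
    intro z hz
    funext v
    exact BMO_eq hl hy (hz.trans (by norm_num)) hs0 hs1 v
  constructor
  · intro u hu
    have h4 := mo_sub hρ hsubρ ((hPu u).mono hcb)
    rw [BMO_res_congr (by norm_num) heq u] at h4
    have h6 := h3.1 u hu
    have h7 : 2 * ((s * (1 / 4)) / ρ) ^ 2 * mo (fun z => Lin (dpj l y) (Pull A ν) z u) 0 (1 / 4) ≤
        8 * (32 * (K₂ * (1 + M) * Θ)) := mul_le_mul hk h6 (mo_nonneg _ _ _) (by norm_num)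
    linarith
  · have h4 := mo_sub hρ hsubρ (hPlc.mono hcb)
    rw [BMO_res_congr_lc (by norm_num) heq] at h4
    have h6 := h3.2
    have h7 : 2 * ((s * (1 / 4)) / ρ) ^ 2 * mo (lc (Lin (dpj l y) (Pull A ν))) 0 (1 / 4) ≤
        8 * (32 * (K₂ * (1 + M) * Θ)) := mul_le_mul hk h6 (mo_nonneg _ _ _) (by norm_num)
    linarith

end Pool.Agent.L1de93c
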