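import Pool.Agent.Lib_MP_1de93e_cont.MoB

/-!
# PIECE CAM: Campanato and sup deviation

## CAM `campanato`. `h` continuous on `closedBall x₀ (2 r₀)`, `mo h x r ≤ C r` for `x ∈ closedBall x₀ r₀`,
`0 < r ≤ r₀`. For such `x, r`: `|av h x (r/2) - av h x r| ≤ 4 C r` (`abs_av_sub_av_le`), `av h x (2⁻ⁿ r) → h x`
(continuity), so `|h x - av h x r| ≤ 8 C r`. For `x, y ∈ closedBall x₀ (r₀/4)`, `r = 2 ‖x - y‖ ≤ r₀`
(if `x ≠ y`): `closedBall y (r/2) ⊆ closedBall x r`, so
`|h y - h x| ≤ |h y - av h y (r/2)| + |av h y (r/2) - av h x r| + |av h x r - h x| ≤ (4 + 4 + 8) C r`.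

## SUP `sup_dev`. `g` is `A`-Lipschitz on `closedBall 0 1` and `mo g 0 1 ≤ m`. For
`y ∈ closedBall 0 1` and `0 < s ≤ 1` the set `closedBall y s ∩ closedBall 0 1` contains a square of radius
`s/2`, on which `|g - g y| ≤ 2 A s`; so `|g y - av g 0 1| ≤ 2 A s + |av over that square - av g 0 1| ≤
2 A s + 4 m/s²` (`abs_av_sub_av_le`). So `|g y - g 0| ≤ 8 (A s + m/s²)`.
-/

namespace Pool.Agent.L1de93c

open MeasureTheory Metric Set

private theorem cam_point {h : V → ℝ} {x₀ : V} {r₀ C : ℝ} (hC : 0 ≤ C)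
    (hh : ContinuousOn h (closedBall x₀ (2 * r₀)))
    (hm : ∀ x ∈ closedBall x₀ r₀, ∀ r, 0 < r → r ≤ r₀ → mo h x r ≤ C * r)
    {x : V} (hx : x ∈ closedBall x₀ r₀) {r : ℝ} (hr : 0 < r) (hrr : r ≤ r₀) :
    |h x - av h x r| ≤ 8 * (C * r) := by
  have hsub : ∀ ρ, ρ ≤ r₀ → closedBall x ρ ⊆ closedBall x₀ (2 * r₀) := by
    intro ρ hρ
    apply closedBall_subset_closedBall'
    have := mem_closedBall.1 hx
    linarith
  have hstep : ∀ n : ℕ, |av h x (r / 2 ^ (n + 1)) - av h x (r / 2 ^ n)| ≤ 4 * (C * r) / 2 ^ n := by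
    intro n
    have h2 : (0 : ℝ) < 2 ^ n := by positivity
    have hle : r / 2 ^ n ≤ r₀ := by
      refine le_trans ?_ hrr
      apply div_le_self hr.le
      exact one_le_pow₀ (by norm_num)
    have hpos : 0 < r / 2 ^ n := by positivity
    have hpos' : 0 < r / 2 ^ (n + 1) := by positivity
    have hs : closedBall x (r / 2 ^ (n + 1)) ⊆ closedBall x (r / 2 ^ n) := by
      apply closedBall_subset_closedBall
      apply div_le_div_of_nonneg_left hr.le h2
      exact pow_le_pow_right₀ (by norm_num) (Nat.le_succ n)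
    have h1 := abs_av_sub_av_le hpos' hs (hh.mono (hsub _ hle))
    have h3 : (r / 2 ^ n / (r / 2 ^ (n + 1))) ^ 2 = 4 := by
      rw [pow_succ]
      field_simp
      ring
    rw [h3] at h1
    have h4 := hm x hx _ hpos hle
    calc _ ≤ 4 * mo h x (r / 2 ^ n) := h1
      _ ≤ 4 * (C * (r / 2 ^ n)) := by linarith
      _ = 4 * (C * r) / 2 ^ n := by ring
  have hsum : ∀ n : ℕ, |av h x (r / 2 ^ n) - av h x r| ≤ 8 * (C * r) * (1 - 1 / 2 ^ n) := by
    intro n
    induction n with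
    | zero => simp
    | succ n ih =>
      have h1 := hstep n
      have h2 : |av h x (r / 2 ^ (n + 1)) - av h x r| ≤
          |av h x (r / 2 ^ (n + 1)) - av h x (r / 2 ^ n)| + |av h x (r / 2 ^ n) - av h x r| :=
        abs_sub_le _ _ _
      have h3 : 4 * (C * r) / 2 ^ n + 8 * (C * r) * (1 - 1 / 2 ^ n) =
          8 * (C * r) * (1 - 1 / 2 ^ (n + 1)) := by
        rw [pow_succ]
        field_simp
        ring
      linarith
  have hCr : 0 ≤ C * r := mul_nonneg hC hr.le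
  apply le_of_forall_pos_le_add
  intro ε hε
  have hcx : ContinuousWithinAt h (closedBall x₀ (2 * r₀)) x :=
    hh x (hsub r hrr (mem_closedBall_self hr.le))
  rw [Metric.continuousWithinAt_iff] at hcx
  obtain ⟨δ, hδ, hcd⟩ := hcx ε hε
  obtain ⟨n, hn⟩ : ∃ n : ℕ, r / 2 ^ n < δ := by
    obtain ⟨n, hn⟩ := exists_pow_lt_of_lt_one (show 0 < δ / r by positivity)
      (show (1 / 2 : ℝ) < 1 by norm_num)
    refine ⟨n, ?_⟩
    rw [lt_div_iff₀ hr] at hn
    calc r / 2 ^ n = (1 / 2) ^ n * r := by rw [one_div, inv_pow]; ring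
      _ < δ := hn
  have hle : r / 2 ^ n ≤ r₀ := by
    refine le_trans ?_ hrr
    apply div_le_self hr.le
    exact one_le_pow₀ (by norm_num)
  have hpos : 0 < r / 2 ^ n := by positivity
  have hA : |av h x (r / 2 ^ n) - h x| ≤ ε := by
    apply abs_av_sub_le_of_sup hpos.le (hh.mono (hsub _ hle))
    intro y hy
    have := hcd (hsub _ hle hy) (lt_of_le_of_lt (mem_closedBall.1 hy) hn)
    rw [Real.dist_eq] at this
    exact this.le
  have hB := hsum n
  have hB' : 8 * (C * r) * (1 - 1 / 2 ^ n) ≤ 8 * (C * r) := by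
    have : (0 : ℝ) ≤ 1 / 2 ^ n := by positivity
    nlinarith
  have h5 : |h x - av h x r| ≤ |h x - av h x (r / 2 ^ n)| + |av h x (r / 2 ^ n) - av h x r| :=
    abs_sub_le _ _ _
  rw [abs_sub_comm (h x) (av h x (r / 2 ^ n))] at h5
  linarith

/-- CAM -/
theorem campanato {h : V → ℝ} {x₀ : V} {r₀ C : ℝ} (hr₀ : 0 < r₀) (hC : 0 ≤ C)
    (hh : ContinuousOn h (closedBall x₀ (2 * r₀)))
    (hm : ∀ x ∈ closedBall x₀ r₀, ∀ r, 0 < r → r ≤ r₀ → mo h x r ≤ C * r) :
    ∀ x ∈ closedBall x₀ (r₀ / 4), ∀ y ∈ closedBall x₀ (r₀ / 4), |h x - h y| ≤ 40 * C * ‖x - y‖ := by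
  intro x hx y hy
  rcases eq_or_ne x y with rfl | hxy
  · simp
  have hn : 0 < ‖x - y‖ := norm_pos_iff.2 (sub_ne_zero.2 hxy)
  have hx' := mem_closedBall.1 hx
  have hy' := mem_closedBall.1 hy
  have hd : dist x y ≤ r₀ / 2 := by
    have := dist_triangle_right x y x₀
    linarith
  rw [dist_eq_norm] at hd
  have hxb : x ∈ closedBall x₀ r₀ := closedBall_subset_closedBall (by linarith) hx
  have hyb : y ∈ closedBall x₀ r₀ := closedBall_subset_closedBall (by linarith) hy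
  have hr : 0 < 2 * ‖x - y‖ := by positivity
  have hrr : 2 * ‖x - y‖ ≤ r₀ := by linarith
  have h1 := cam_point hC hh hm hxb hr hrr
  have h2 := cam_point hC hh hm hyb hn (by linarith)
  have hs : closedBall y ‖x - y‖ ⊆ closedBall x (2 * ‖x - y‖) := by
    apply closedBall_subset_closedBall'
    rw [dist_comm, dist_eq_norm]
    linarith
  have hs' : closedBall x (2 * ‖x - y‖) ⊆ closedBall x₀ (2 * r₀) := by
    apply closedBall_subset_closedBall'
    linarith
  have h3 := abs_av_sub_av_le hn hs (hh.mono hs')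
  have h4 : (2 * ‖x - y‖ / ‖x - y‖) ^ 2 = 4 := by
    rw [mul_div_assoc, div_self hn.ne']
    norm_num
  rw [h4] at h3
  have h5 := hm x hxb _ hr hrr
  have hCr : 0 ≤ C * ‖x - y‖ := mul_nonneg hC hn.le
  have h6 : |h x - h y| ≤ |h x - av h x (2 * ‖x - y‖)| +
      (|av h y ‖x - y‖ - av h x (2 * ‖x - y‖)| + |h y - av h y ‖x - y‖|) := by
    have e : h x - h y = (h x - av h x (2 * ‖x - y‖)) +
      (-(av h y ‖x - y‖ - av h x (2 * ‖x - y‖)) + -(h y - av h y ‖x - y‖)) := by ring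
    rw [e]
    refine le_trans (abs_add_le _ _) ?_
    refine add_le_add le_rfl ?_
    refine le_trans (abs_add_le _ _) ?_
    rw [abs_neg, abs_neg]
  nlinarith

private theorem sup_dev_aux {g : V → ℝ} {A m : ℝ} (hA : 0 ≤ A)
    (hg : ∀ y ∈ closedBall (0 : V) 1, ∀ z ∈ closedBall (0 : V) 1, |g y - g z| ≤ A * ‖y - z‖)
    (hgc : ContinuousOn g (closedBall (0 : V) 1))
    (hm : mo g 0 1 ≤ m) {y : V} (hy : y ∈ closedBall (0 : V) 1) {s : ℝ} (hs : 0 < s)
    (hs1 : s ≤ 1) : |g y - av g 0 1| ≤ A * s + 4 * (m / s ^ 2) := by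
  have hy1 : ‖y‖ ≤ 1 := by simpa using hy
  have hsub : closedBall ((1 - s / 2) • y) (s / 2) ⊆ closedBall (0 : V) 1 := by
    apply closedBall_subset_closedBall'
    rw [dist_zero_right, norm_smul, Real.norm_eq_abs, abs_of_nonneg (by linarith)]
    have : (1 - s / 2) * ‖y‖ ≤ (1 - s / 2) * 1 := mul_le_mul_of_nonneg_left hy1 (by linarith)
    linarith
  have h1 : |av g ((1 - s / 2) • y) (s / 2) - g y| ≤ A * s := by
    apply abs_av_sub_le_of_sup (by linarith) (hgc.mono hsub)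
    intro w hw
    refine le_trans (hg w (hsub hw) y hy) ?_
    apply mul_le_mul_of_nonneg_left _ hA
    have h2 : ‖w - y‖ ≤ ‖w - (1 - s / 2) • y‖ + ‖(1 - s / 2) • y - y‖ := by
      have : w - y = (w - (1 - s / 2) • y) + ((1 - s / 2) • y - y) := by abel
      rw [this]
      exact norm_add_le _ _
    have h3 : ‖w - (1 - s / 2) • y‖ ≤ s / 2 := by
      rw [← dist_eq_norm]
      exact mem_closedBall.1 hw
    have h4 : ‖(1 - s / 2) • y - y‖ ≤ s / 2 := by
      have : (1 - s / 2) • y - y = (-(s / 2)) • y := by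
        rw [sub_smul, one_smul, neg_smul]
        abel
      rw [this, norm_smul, Real.norm_eq_abs, abs_neg, abs_of_nonneg (by linarith)]
      nlinarith
    linarith
  have h2 := abs_av_sub_av_le (show 0 < s / 2 by linarith) hsub hgc
  have h3 : (1 / (s / 2)) ^ 2 * mo g 0 1 ≤ 4 * (m / s ^ 2) := by
    have e : (1 / (s / 2)) ^ 2 = 4 / s ^ 2 := by
      field_simp
      norm_num
    rw [e]
    have : 4 / s ^ 2 * mo g 0 1 ≤ 4 / s ^ 2 * m :=
      mul_le_mul_of_nonneg_left hm (by positivity)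
    calc _ ≤ 4 / s ^ 2 * m := this
      _ = 4 * (m / s ^ 2) := by ring
  have h4 : |g y - av g 0 1| ≤ |g y - av g ((1 - s / 2) • y) (s / 2)| +
    |av g ((1 - s / 2) • y) (s / 2) - av g 0 1| := abs_sub_le _ _ _
  rw [abs_sub_comm (g y) (av g ((1 - s / 2) • y) (s / 2))] at h4
  linarith

/-- SUP -/
theorem sup_dev {g : V → ℝ} {A m : ℝ} (hA : 0 ≤ A)
    (hg : ∀ y ∈ closedBall (0 : V) 1, ∀ z ∈ closedBall (0 : V) 1, |g y - g z| ≤ A * ‖y - z‖)
    (hm : mo g 0 1 ≤ m) : ∀ y ∈ closedBall (0 : V) 1, ∀ s, 0 < s → s ≤ 1 →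
      |g y - g 0| ≤ 8 * (A * s + m / s ^ 2) := by
  intro y hy s hs hs1
  have hgc : ContinuousOn g (closedBall (0 : V) 1) := by
    have : LipschitzOnWith (Real.toNNReal A) g (closedBall (0 : V) 1) := by
      apply LipschitzOnWith.of_dist_le_mul
      intro y hy z hz
      rw [Real.dist_eq, dist_eq_norm, Real.coe_toNNReal _ hA]
      exact hg y hy z hz
    exact this.continuousOn
  have h0 : (0 : V) ∈ closedBall (0 : V) 1 := mem_closedBall_self (by norm_num)
  have h1 := sup_dev_aux hA hg hgc hm hy hs hs1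
  have h2 := sup_dev_aux hA hg hgc hm h0 hs hs1
  have hm0 : 0 ≤ m := le_trans (mo_nonneg g 0 1) hm
  have hd : 0 ≤ m / s ^ 2 := by positivity
  have hAs : 0 ≤ A * s := mul_nonneg hA hs.le
  have h3 : |g y - g 0| ≤ |g y - av g 0 1| + |av g 0 1 - g 0| := abs_sub_le _ _ _
  rw [abs_sub_comm (av g 0 1)] at h3
  linarith

end Pool.Agent.L1de93c
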