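import Pool.Agent.Lib_MP_1de93e_cont.Base

/-!
# PIECE CHA: from approximate to exact equivalence

Let `F` be `HP` near `x₀`, and for all `x, x'` in `closedBall x₀ r₀` let there be `T` with
`‖T u - u‖ ≤ C ‖x' - x‖ ‖u‖`, `|F x' (T u) - F x u| ≤ C ‖x' - x‖^{7/6} ‖u‖`. Then for `x ∈ closedBall x₀ r₁`,
`r₁ = min r₀ (1/(2C))`: `F x (T u) = F x₀ u` for some invertible `T`.

Proof. For `n ≥ 1` let `x_j = x₀ + (j/n) (x - x₀)`, `T_j` for the pair `(x_j, x_{j+1})`,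
`S_j = T_{j-1} ∘ ... ∘ T_0`, `S_0 = id`. `‖S_j u‖ ≤ (1 + C r₁/n)^j ‖u‖ ≤ e^{1/2} ‖u‖` and
`‖S_{j+1} u - S_j u‖ ≤ (C r₁/n) ‖S_j u‖`, so `‖S_n u - u‖ ≤ C r₁ e^{1/2} ‖u‖ ≤ (0.83) ‖u‖ ≤ (9/10) ‖u‖`, hence
`‖S_n u‖ ≥ (1/10) ‖u‖`. Telescoping: `|F x_{j+1} (S_{j+1} u) - F x_j (S_j u)| ≤ C (r₁/n)^{7/6} ‖S_j u‖`, so
`|F x (S_n u) - F x₀ u| ≤ 2 C r₁^{7/6} n^{-1/6} ‖u‖ → 0`. The maps `S_n` are bounded; a subsequence
converges to `S` (finite dimension), `‖S u‖ ≥ (1/10) ‖u‖` so `detT S ≠ 0`, and `F x (S u) = F x₀ u` by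
continuity of `F x`.
(`detT S ≠ 0`: otherwise `S (1,0)`, `S (0,1)` are parallel and `S` has a kernel vector.)
-/

namespace Pool.Agent.L1de93c

open MeasureTheory Metric Set

/-- The composed maps. -/
noncomputable def chainS (T : V → V → V →L[ℝ] V) (p : ℕ → V) : ℕ → (V →L[ℝ] V)
  | 0 => ContinuousLinearMap.id ℝ V
  | (j + 1) => (T (p j) (p (j + 1))).comp (chainS T p j)

theorem detT_ne_zero_of_lower {S : V →L[ℝ] V} {c : ℝ} (hc : 0 < c)
    (h : ∀ u, c * ‖u‖ ≤ ‖S u‖) : detT S ≠ 0 := by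
  have hker : ∀ u, S u = 0 → u = 0 := by
    intro u hu
    have := h u
    rw [hu, norm_zero] at this
    have h2 : ‖u‖ ≤ 0 := by
      by_contra h3
      push Not at h3
      have := mul_pos hc h3
      linarith
    exact norm_le_zero_iff.mp h2
  intro hd
  set a := S (1, 0) with ha
  set b := S (0, 1) with hb
  have hS : ∀ s t : ℝ, S (s, t) = s • a + t • b := by
    intro s t
    have : ((s, t) : V) = s • ((1, 0) : V) + t • ((0, 1) : V) := by ext <;> simp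
    rw [this, map_add, map_smul, map_smul]
  have hd' : a.1 * b.2 - a.2 * b.1 = 0 := hd
  have h1 : S (b.2, -a.2) = 0 := by
    rw [hS]
    ext
    · simp only [Prod.fst_add, Prod.smul_fst, smul_eq_mul, Prod.fst_zero]; linarith
    · simp only [Prod.snd_add, Prod.smul_snd, smul_eq_mul, Prod.snd_zero]; ring
  have h2 : S (b.1, -a.1) = 0 := by
    rw [hS]
    ext
    · simp only [Prod.fst_add, Prod.smul_fst, smul_eq_mul, Prod.fst_zero]; ring
    · simp only [Prod.snd_add, Prod.smul_snd, smul_eq_mul, Prod.snd_zero]; linarith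
  have h3 := hker _ h1
  have h4 := hker _ h2
  rw [Prod.ext_iff] at h3 h4
  simp only [Prod.fst_zero, Prod.snd_zero, neg_eq_zero] at h3 h4
  have ha0 : a = 0 := Prod.ext h4.2 h3.2
  have h5 := hker _ ha0
  rw [Prod.ext_iff] at h5
  simp at h5

theorem exp_half_lt : Real.exp (1 / 2) < 19 / 10 := by
  have h1 : Real.exp (1 / 2) * Real.exp (1 / 2) = Real.exp 1 := by
    rw [← Real.exp_add]; norm_num
  have h2 := Real.exp_one_lt_d9
  by_contra h
  push Not at h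
  nlinarith [Real.exp_pos (1 / 2)]

/-- The finite step of the chain argument. -/
theorem chain_step {F : V → V → ℝ} {x₀ : V} {C r₀ : ℝ} (hC : 0 < C)
    (T : V → V → V →L[ℝ] V)
    (hT1 : ∀ x ∈ closedBall x₀ r₀, ∀ x' ∈ closedBall x₀ r₀,
      ∀ u, ‖T x x' u - u‖ ≤ C * ‖x' - x‖ * ‖u‖)
    (hT2 : ∀ x ∈ closedBall x₀ r₀, ∀ x' ∈ closedBall x₀ r₀,
      ∀ u, |F x' (T x x' u) - F x u| ≤ C * ‖x' - x‖ ^ (7 / 6 : ℝ) * ‖u‖)
    {x : V} {r₁ : ℝ} (hr₁ : 0 < r₁) (hr₁₀ : r₁ ≤ r₀) (hr₁C : C * r₁ ≤ 1 / 2)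
    (hx : x ∈ closedBall x₀ r₁) (n : ℕ) (hn : 0 < n) :
    ∃ S : V →L[ℝ] V, (∀ u, ‖S u - u‖ ≤ (9 / 10) * ‖u‖) ∧
      ∀ u, |F x (S u) - F x₀ u| ≤
        (n : ℝ) * (C * (r₁ / n) ^ (7 / 6 : ℝ) * (19 / 10)) * ‖u‖ := by
  have hn' : (0 : ℝ) < n := by exact_mod_cast hn
  set p : ℕ → V := fun j => x₀ + ((j : ℝ) / n) • (x - x₀) with hp
  have hxn : ‖x - x₀‖ ≤ r₁ := by rw [← dist_eq_norm]; exact mem_closedBall.mp hx
  have hpm : ∀ j ≤ n, p j ∈ closedBall x₀ r₀ := by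
    intro j hj
    rw [mem_closedBall, dist_eq_norm]
    have e : p j - x₀ = ((j : ℝ) / n) • (x - x₀) := by simp [hp]
    rw [e, norm_smul, Real.norm_eq_abs, abs_of_nonneg (by positivity)]
    have : (j : ℝ) / n ≤ 1 := by
      rw [div_le_one hn']; exact_mod_cast hj
    calc (j : ℝ) / n * ‖x - x₀‖ ≤ 1 * r₁ :=
          mul_le_mul this hxn (norm_nonneg _) zero_le_one
      _ ≤ r₀ := by linarith
  have hd : ∀ j, ‖p (j + 1) - p j‖ ≤ r₁ / n := by
    intro j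
    have e : p (j + 1) - p j = ((1 : ℝ) / n) • (x - x₀) := by
      simp only [hp]
      rw [add_sub_add_left_eq_sub, ← sub_smul]
      congr 1
      push_cast
      ring
    rw [e, norm_smul, Real.norm_eq_abs, abs_of_nonneg (by positivity)]
    rw [one_div, inv_mul_eq_div]
    gcongr
  set δ : ℝ := 1 / 2 / n with hδ
  have hδ0 : 0 < δ := by positivity
  have hCd : ∀ j, C * ‖p (j + 1) - p j‖ ≤ δ := by
    intro j
    calc C * ‖p (j + 1) - p j‖ ≤ C * (r₁ / n) := by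
          exact mul_le_mul_of_nonneg_left (hd j) hC.le
      _ = C * r₁ / n := by ring
      _ ≤ δ := by rw [hδ]; gcongr
  have hmain : ∀ j ≤ n, ∀ u, ‖chainS T p j u - u‖ ≤ ((1 + δ) ^ j - 1) * ‖u‖ := by
    intro j
    induction j with
    | zero => intro _ u; simp [chainS]
    | succ j ih =>
      intro hj u
      have h1 := ih (by omega) u
      have h2 : ‖chainS T p j u‖ ≤ (1 + δ) ^ j * ‖u‖ := by
        have := norm_add_le (chainS T p j u - u) u
        rw [sub_add_cancel] at this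
        linarith
      have h3 := hT1 (p j) (hpm j (by omega)) (p (j + 1)) (hpm (j + 1) hj) (chainS T p j u)
      have h4 : ‖T (p j) (p (j + 1)) (chainS T p j u) - chainS T p j u‖
          ≤ δ * ((1 + δ) ^ j * ‖u‖) :=
        h3.trans (mul_le_mul (hCd j) h2 (norm_nonneg _) hδ0.le)
      have h5 : chainS T p (j + 1) u = T (p j) (p (j + 1)) (chainS T p j u) := rfl
      rw [h5]
      have h6 := norm_add_le (T (p j) (p (j + 1)) (chainS T p j u) - chainS T p j u)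
        (chainS T p j u - u)
      rw [sub_add_sub_cancel] at h6
      have h7 : ((1 + δ) ^ (j + 1) - 1) * ‖u‖ =
          δ * ((1 + δ) ^ j * ‖u‖) + ((1 + δ) ^ j - 1) * ‖u‖ := by ring
      rw [h7]
      linarith
  have hpow : ∀ j ≤ n, (1 + δ) ^ j ≤ 19 / 10 := by
    intro j hj
    have h1 : (1 + δ) ^ j ≤ (1 + δ) ^ n := pow_le_pow_right₀ (by linarith) hj
    have h2 : (1 + δ) ^ n ≤ Real.exp (1 / 2) := by
      have h3 : 1 + δ ≤ Real.exp δ := by
        have := Real.add_one_le_exp δ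
        linarith
      calc (1 + δ) ^ n ≤ (Real.exp δ) ^ n := pow_le_pow_left₀ (by linarith) h3 n
        _ = Real.exp (n * δ) := by rw [← Real.exp_nat_mul]
        _ = Real.exp (1 / 2) := by
          congr 1
          rw [hδ]
          field_simp
    exact h1.trans (h2.trans exp_half_lt.le)
  have hSj : ∀ j ≤ n, ∀ u, ‖chainS T p j u‖ ≤ (19 / 10) * ‖u‖ := by
    intro j hj u
    have h1 := hmain j hj u
    have h2 := norm_add_le (chainS T p j u - u) u
    rw [sub_add_cancel] at h2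
    have h3 := mul_le_mul_of_nonneg_right (hpow j hj) (norm_nonneg u)
    linarith
  have hq0 : (0:ℝ) ≤ C * (r₁ / n) ^ (7 / 6 : ℝ) * (19 / 10) := by positivity
  have htel : ∀ j ≤ n, ∀ u, |F (p j) (chainS T p j u) - F (p 0) u| ≤
      (j : ℝ) * (C * (r₁ / n) ^ (7 / 6 : ℝ) * (19 / 10)) * ‖u‖ := by
    intro j
    induction j with
    | zero => intro _ u; simp [chainS]
    | succ j ih =>
      intro hj u
      have h1 := ih (by omega) u
      have h2 := hT2 (p j) (hpm j (by omega)) (p (j + 1)) (hpm (j + 1) hj) (chainS T p j u)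
      have h5 : chainS T p (j + 1) u = T (p j) (p (j + 1)) (chainS T p j u) := rfl
      rw [← h5] at h2
      have h3 : C * ‖p (j + 1) - p j‖ ^ (7 / 6 : ℝ) * ‖chainS T p j u‖ ≤
          C * (r₁ / n) ^ (7 / 6 : ℝ) * ((19 / 10) * ‖u‖) := by
        apply mul_le_mul _ (hSj j (by omega) u) (norm_nonneg _) (by positivity)
        apply mul_le_mul_of_nonneg_left _ hC.le
        exact Real.rpow_le_rpow (norm_nonneg _) (hd j) (by norm_num)
      have h6 := abs_add_le (F (p (j + 1)) (chainS T p (j + 1) u) - F (p j) (chainS T p j u))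
        (F (p j) (chainS T p j u) - F (p 0) u)
      rw [sub_add_sub_cancel] at h6
      push_cast
      have h7 : ((j : ℝ) + 1) * (C * (r₁ / n) ^ (7 / 6 : ℝ) * (19 / 10)) * ‖u‖ =
        C * (r₁ / n) ^ (7 / 6 : ℝ) * ((19 / 10) * ‖u‖) +
        (j : ℝ) * (C * (r₁ / n) ^ (7 / 6 : ℝ) * (19 / 10)) * ‖u‖ := by ring
      rw [h7]
      linarith
  refine ⟨chainS T p n, fun u => ?_, fun u => ?_⟩
  · have h1 := hmain n le_rfl u
    have h2 := hpow n le_rfl
    have h3 : ((1 + δ) ^ n - 1) * ‖u‖ ≤ (9 / 10) * ‖u‖ := by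
      apply mul_le_mul_of_nonneg_right _ (norm_nonneg _)
      linarith
    exact h1.trans h3
  · have h1 := htel n le_rfl u
    have h2 : p n = x := by
      simp only [hp]
      rw [div_self hn'.ne', one_smul, add_sub_cancel]
    have h3 : p 0 = x₀ := by simp [hp]
    rw [h2, h3] at h1
    exact h1

/-- CHA -/
theorem chain {U : Set V} {F : V → V → ℝ} (h : HP U F) {x₀ : V} {C r₀ : ℝ} (hC : 0 < C)
    (hr₀ : 0 < r₀) (hU : closedBall x₀ r₀ ⊆ U)
    (hT : ∀ x ∈ closedBall x₀ r₀, ∀ x' ∈ closedBall x₀ r₀,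
      ∃ T : V →L[ℝ] V, (∀ u, ‖T u - u‖ ≤ C * ‖x' - x‖ * ‖u‖) ∧
        ∀ u, |F x' (T u) - F x u| ≤ C * ‖x' - x‖ ^ (7 / 6 : ℝ) * ‖u‖) :
    ∃ r₁ > 0, ∀ x ∈ closedBall x₀ r₁, ∃ T : V →L[ℝ] V, detT T ≠ 0 ∧ ∀ u, F x (T u) = F x₀ u := by
  have hT' : ∀ x x' : V, ∃ T : V →L[ℝ] V, x ∈ closedBall x₀ r₀ → x' ∈ closedBall x₀ r₀ →
      (∀ u, ‖T u - u‖ ≤ C * ‖x' - x‖ * ‖u‖) ∧
        ∀ u, |F x' (T u) - F x u| ≤ C * ‖x' - x‖ ^ (7 / 6 : ℝ) * ‖u‖ := by
    intro x x'
    by_cases hx : x ∈ closedBall x₀ r₀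
    · by_cases hx' : x' ∈ closedBall x₀ r₀
      · obtain ⟨T, hT1⟩ := hT x hx x' hx'
        exact ⟨T, fun _ _ => hT1⟩
      · exact ⟨0, fun _ h => absurd h hx'⟩
    · exact ⟨0, fun h _ => absurd h hx⟩
  choose T hT1 using hT'
  refine ⟨min r₀ (1 / (2 * C)), by positivity, fun x hx => ?_⟩
  set r₁ := min r₀ (1 / (2 * C)) with hr₁
  have hr₁0 : 0 < r₁ := by positivity
  have hr₁₀ : r₁ ≤ r₀ := min_le_left _ _
  have hr₁C : C * r₁ ≤ 1 / 2 := by
    calc C * r₁ ≤ C * (1 / (2 * C)) := mul_le_mul_of_nonneg_left (min_le_right _ _) hC.le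
      _ = 1 / 2 := by field_simp
  have hst := fun n : ℕ => chain_step (F := F) (x₀ := x₀) hC T
    (fun x hx x' hx' => (hT1 x x' hx hx').1) (fun x hx x' hx' => (hT1 x x' hx hx').2)
    hr₁0 hr₁₀ hr₁C hx (n + 1) (Nat.succ_pos n)
  choose S hS1 hS2 using hst
  have hb : ∀ n, S n ∈ closedBall (0 : V →L[ℝ] V) 2 := by
    intro n
    rw [mem_closedBall_zero_iff]
    apply ContinuousLinearMap.opNorm_le_bound _ (by norm_num)
    intro u
    have h1 := hS1 n u
    have h2 := norm_add_le (S n u - u) u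
    rw [sub_add_cancel] at h2
    have := norm_nonneg u
    linarith
  obtain ⟨A, -, φ, hφ, hlim⟩ := (isCompact_closedBall (0 : V →L[ℝ] V) 2).tendsto_subseq hb
  have hpt : ∀ u, Filter.Tendsto (fun n => S (φ n) u) Filter.atTop (nhds (A u)) := by
    intro u
    have hc : Continuous (fun L : V →L[ℝ] V => L u) := by fun_prop
    exact (hc.tendsto A).comp hlim
  refine ⟨A, ?_, ?_⟩
  · apply detT_ne_zero_of_lower (c := 1 / 10) (by norm_num)
    intro u
    have h1 : ∀ n, (1 / 10) * ‖u‖ ≤ ‖S (φ n) u‖ := by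
      intro n
      have h2 := hS1 (φ n) u
      have h3 := norm_sub_norm_le u (S (φ n) u)
      rw [norm_sub_rev] at h3
      linarith
    exact ge_of_tendsto' ((hpt u).norm) h1
  · intro u
    have hxU : x ∈ U := hU (closedBall_subset_closedBall hr₁₀ hx)
    have hcont := (h.norm x hxU).continuous
    have h1 : Filter.Tendsto (fun n => F x (S (φ n) u)) Filter.atTop (nhds (F x (A u))) :=
      (hcont.tendsto _).comp (hpt u)
    have h2 : Filter.Tendsto (fun n : ℕ => ((n + 1 : ℕ) : ℝ) *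
        (C * (r₁ / ((n + 1 : ℕ) : ℝ)) ^ (7 / 6 : ℝ) * (19 / 10)) * ‖u‖) Filter.atTop (nhds 0) := by
      have h3 : Filter.Tendsto (fun n : ℕ => (((n + 1 : ℕ) : ℝ)) ^ (-(1 / 6) : ℝ))
          Filter.atTop (nhds 0) := by
        have h4 := tendsto_rpow_neg_atTop (y := (1 / 6 : ℝ)) (by norm_num)
        exact h4.comp (tendsto_natCast_atTop_atTop.comp (Filter.tendsto_add_atTop_nat 1))
      have h5 := h3.const_mul (C * r₁ ^ (7 / 6 : ℝ) * (19 / 10) * ‖u‖)
      rw [mul_zero] at h5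
      refine h5.congr fun n => ?_
      have hn0 : (0 : ℝ) < ((n + 1 : ℕ) : ℝ) := by positivity
      rw [Real.div_rpow hr₁0.le hn0.le]
      have h6 : (((n + 1 : ℕ) : ℝ)) ^ (-(1 / 6) : ℝ) =
          ((n + 1 : ℕ) : ℝ) / ((n + 1 : ℕ) : ℝ) ^ (7 / 6 : ℝ) := by
        rw [show (-(1 / 6) : ℝ) = 1 - 7 / 6 by norm_num, Real.rpow_sub hn0, Real.rpow_one]
      rw [h6]
      ring
    have h3 : Filter.Tendsto (fun n => F x (S (φ n) u)) Filter.atTop (nhds (F x₀ u)) := by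
      rw [tendsto_iff_norm_sub_tendsto_zero]
      refine squeeze_zero (fun n => norm_nonneg _) (fun n => ?_) (h2.comp hφ.tendsto_atTop)
      rw [Real.norm_eq_abs]
      exact hS2 (φ n) u
    exact tendsto_nhds_unique h1 h3

end Pool.Agent.L1de93c
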