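import Pool.Agent.Lib_MP_1de93e_cont.Base

/-!
# PIECE MOB: averages and mean oscillations

`av h x r = (1/4) ∫_{y ∈ closedBall 0 1} h (x + r y)`; the volume of `closedBall (0:V) 1` is `4`.
All integrands are continuous on compact squares, hence integrable.
* `integral_closedBall_scale`: change of variables `z = x + r y`
  (`MeasureTheory.Measure.setIntegral_comp_smul_of_pos`, translation; `finrank ℝ V = 2`).
* `av_scale`, `mo_scale`: unfold, `x + r (y + ρ z) = (x + r y) + (r ρ) z`.
* `mo_le_two`: `|h - av| ≤ |h - c| + |c - av|` and `|c - av| ≤ (1/4) ∫ |h - c|`.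
* `mo_sub`: with `c = av h x r`: `mo h x' r' ≤ 2 (1/(4 r'²)) ∫_{closedBall x' r'} |h - c| ≤
  2 (1/(4 r'²)) ∫_{closedBall x r} |h - c| = 2 (r/r')² mo h x r`. (`0 < r' ≤ r` follows from the
  inclusion.)
* `mo_comp_lip`: take `c = φ (av h x r)` if `av h x r ∈ S`; in general: `S` is an interval here, and
  `av h x r ∈ S` because it is an average of values in the closed interval `S = Icc a b`.
* `mo_add_le`, `mo_const_mul`, `mo_add_const`, `mo_le_of_sup`, `abs_av_sub_av_le`: immediate.
-/

namespace Pool.Agent.L1de93c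

open MeasureTheory Metric Set
open scoped Pointwise

theorem integral_closedBall_scale {r : ℝ} (hr : 0 < r) (x : V) (f : V → ℝ) :
    ∫ y in closedBall x r, f y = r ^ 2 * ∫ y in closedBall (0 : V) 1, f (x + r • y) := by
  have h1 := Measure.setIntegral_comp_smul_of_pos (volume : Measure V) (fun z => f (x + z))
    (closedBall (0 : V) 1) hr
  have h2 : r • closedBall (0 : V) 1 = closedBall 0 r := by
    rw [smul_closedBall r (0 : V) zero_le_one, smul_zero, Real.norm_eq_abs, abs_of_pos hr, mul_one]
  have h3 : Module.finrank ℝ V = 2 := by simp [V]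
  have h4 := (measurePreserving_add_left (volume : Measure V) x).setIntegral_preimage_emb
    (measurableEmbedding_addLeft x) f (closedBall x r)
  have h5 : (fun z => x + z) ⁻¹' closedBall x r = closedBall (0 : V) r := by
    ext z
    rw [mem_preimage, mem_closedBall, mem_closedBall_zero_iff, dist_eq_norm, add_sub_cancel_left]
  rw [h5] at h4
  rw [h2, h3, smul_eq_mul, h4] at h1
  rw [h1, ← mul_assoc, mul_inv_cancel₀ (pow_ne_zero 2 hr.ne'), one_mul]

theorem volume_closedBall_real (x : V) {r : ℝ} (hr : 0 ≤ r) :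
    (volume (closedBall x r)).toReal = 4 * r ^ 2 := by
  rw [show x = (x.1, x.2) from rfl, ← closedBall_prod_same,
    Measure.volume_eq_prod, Measure.prod_prod, Real.volume_closedBall, Real.volume_closedBall,
    ← ENNReal.ofReal_mul (by linarith), ENNReal.toReal_ofReal (by positivity)]
  ring

/-! auxiliary facts on the unit square -/

theorem mob_mem {x : V} {r : ℝ} (hr : 0 ≤ r) {y : V} (hy : y ∈ closedBall (0 : V) 1) :
    x + r • y ∈ closedBall x r := by
  rw [mem_closedBall_zero_iff] at hy
  rw [mem_closedBall, dist_eq_norm, add_sub_cancel_left, norm_smul, Real.norm_eq_abs,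
    abs_of_nonneg hr]
  nlinarith [norm_nonneg y]

theorem mob_cont {h : V → ℝ} {x : V} {r : ℝ} (hr : 0 ≤ r) (hh : ContinuousOn h (closedBall x r)) :
    ContinuousOn (fun y : V => h (x + r • y)) (closedBall (0 : V) 1) :=
  hh.comp (f := fun y : V => x + r • y) (by fun_prop) fun _ hy => mob_mem hr hy

theorem mob_abs_cont {f : V → ℝ} {s : Set V} (hf : ContinuousOn f s) (c : ℝ) :
    ContinuousOn (fun y : V => |f y - c|) s :=
  (hf.sub continuousOn_const).abs

theorem mob_int {f : V → ℝ} (hf : ContinuousOn f (closedBall (0 : V) 1)) :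
    IntegrableOn f (closedBall (0 : V) 1) volume :=
  hf.integrableOn_compact (isCompact_closedBall 0 1)

theorem mob_const (c : ℝ) : (1 / 4) * ∫ _ in closedBall (0 : V) 1, c = c := by
  rw [setIntegral_const, Measure.real, volume_closedBall_real 0 zero_le_one, smul_eq_mul]
  ring

theorem mob_mono {f g : V → ℝ} (hf : ContinuousOn f (closedBall (0 : V) 1))
    (hg : ContinuousOn g (closedBall (0 : V) 1)) (h : ∀ y ∈ closedBall (0 : V) 1, f y ≤ g y) :
    (1 / 4) * ∫ y in closedBall (0 : V) 1, f y ≤ (1 / 4) * ∫ y in closedBall (0 : V) 1, g y := by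
  have := setIntegral_mono_on (mob_int hf) (mob_int hg) measurableSet_closedBall h
  linarith

theorem mob_sub_const {f : V → ℝ} (hf : ContinuousOn f (closedBall (0 : V) 1)) (c : ℝ) :
    (1 / 4) * ∫ y in closedBall (0 : V) 1, f y - c =
      (1 / 4) * (∫ y in closedBall (0 : V) 1, f y) - c := by
  rw [integral_sub (mob_int hf) (mob_int continuousOn_const), mul_sub, mob_const]

theorem mob_abs {f : V → ℝ} (hf : ContinuousOn f (closedBall (0 : V) 1)) (c : ℝ) :
    |(1 / 4) * (∫ y in closedBall (0 : V) 1, f y) - c| ≤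
      (1 / 4) * ∫ y in closedBall (0 : V) 1, |f y - c| := by
  rw [← mob_sub_const hf, abs_mul, abs_of_pos (by norm_num : (0 : ℝ) < 1 / 4)]
  exact mul_le_mul_of_nonneg_left abs_integral_le_integral_abs (by norm_num)

theorem av_scale (h : V → ℝ) (x y : V) (r ρ : ℝ) :
    av (fun z => h (x + r • z)) y ρ = av h (x + r • y) (r * ρ) := by
  unfold av
  simp only [smul_add, smul_smul, add_assoc]

theorem mo_scale (h : V → ℝ) (x y : V) (r ρ : ℝ) :
    mo (fun z => h (x + r • z)) y ρ = mo h (x + r • y) (r * ρ) := by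
  unfold mo
  rw [av_scale]
  simp only [smul_add, smul_smul, add_assoc]

theorem mo_nonneg (h : V → ℝ) (x : V) (r : ℝ) : 0 ≤ mo h x r := by
  unfold mo
  have : 0 ≤ ∫ y in closedBall (0 : V) 1, |h (x + r • y) - av h x r| :=
    integral_nonneg fun _ => abs_nonneg _
  linarith

theorem mo_le_two {h : V → ℝ} {x : V} {r : ℝ} (hr : 0 ≤ r) (hh : ContinuousOn h (closedBall x r))
    (c : ℝ) : mo h x r ≤ 2 * ((1 / 4) * ∫ y in closedBall (0 : V) 1, |h (x + r • y) - c|) := by
  have hf := mob_cont hr hh
  have h1 : |av h x r - c| ≤ (1 / 4) * ∫ y in closedBall (0 : V) 1, |h (x + r • y) - c| :=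
    mob_abs hf c
  have h2 : mo h x r ≤ (1 / 4) * ∫ y in closedBall (0 : V) 1,
      (|h (x + r • y) - c| + |av h x r - c|) := by
    unfold mo
    refine mob_mono (mob_abs_cont hf _)
      ((mob_abs_cont hf c).add continuousOn_const) fun y _ => ?_
    have h3 : h (x + r • y) - av h x r = (h (x + r • y) - c) - (av h x r - c) := by ring
    rw [h3]
    exact abs_sub _ _
  have h3 : (1 / 4) * ∫ y in closedBall (0 : V) 1, (|h (x + r • y) - c| + |av h x r - c|) =
      (1 / 4) * (∫ y in closedBall (0 : V) 1, |h (x + r • y) - c|) + |av h x r - c| := by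
    rw [integral_add (mob_int (mob_abs_cont hf c)) (mob_int continuousOn_const),
      mul_add, mob_const]
  linarith

theorem mob_radius {x x' : V} {r r' : ℝ} (hr' : 0 < r')
    (hsub : closedBall x' r' ⊆ closedBall x r) : 0 < r := by
  have h1 : x' + r' • ((1, 0) : V) ∈ closedBall x' r' := mob_mem hr'.le (by simp)
  have h2 : x' + r' • ((-1, 0) : V) ∈ closedBall x' r' := mob_mem hr'.le (by simp)
  have h3 := hsub h1
  have h4 := hsub h2
  rw [mem_closedBall] at h3 h4
  have h5 : dist (x' + r' • ((1, 0) : V)) (x' + r' • ((-1, 0) : V)) = 2 * r' := by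
    rw [dist_eq_norm, add_sub_add_left_eq_sub, ← smul_sub, norm_smul, Real.norm_eq_abs,
      abs_of_pos hr']
    have : ‖((1, 0) : V) - (-1, 0)‖ = 2 := by
      simp [Prod.norm_def]
      norm_num
    rw [this]
    ring
  have h6 := dist_triangle_right (x' + r' • ((1, 0) : V)) (x' + r' • ((-1, 0) : V)) x
  rw [h5] at h6
  linarith

theorem mob_inner {h : V → ℝ} {x x' : V} {r r' : ℝ} (hr' : 0 < r')
    (hsub : closedBall x' r' ⊆ closedBall x r) (hh : ContinuousOn h (closedBall x r)) (c : ℝ) :
    (1 / 4) * ∫ y in closedBall (0 : V) 1, |h (x' + r' • y) - c| ≤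
      (r / r') ^ 2 * ((1 / 4) * ∫ y in closedBall (0 : V) 1, |h (x + r • y) - c|) := by
  have hr := mob_radius hr' hsub
  have h1 := integral_closedBall_scale hr' x' (fun z => |h z - c|)
  have h2 := integral_closedBall_scale hr x (fun z => |h z - c|)
  have hint : IntegrableOn (fun z => |h z - c|) (closedBall x r) volume :=
    ((hh.sub continuousOn_const).abs).integrableOn_compact (isCompact_closedBall x r)
  have h3 : ∫ z in closedBall x' r', |h z - c| ≤ ∫ z in closedBall x r, |h z - c| :=
    setIntegral_mono_set hint (Filter.Eventually.of_forall fun _ => abs_nonneg _)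
      (Filter.Eventually.of_forall hsub)
  have hr2 : 0 < r' ^ 2 := by positivity
  have h4 : ∫ y in closedBall (0 : V) 1, |h (x' + r' • y) - c| =
      (∫ z in closedBall x' r', |h z - c|) / r' ^ 2 := by
    rw [h1, mul_comm, mul_div_assoc, div_self hr2.ne', mul_one]
  have h5 : ∫ y in closedBall (0 : V) 1, |h (x + r • y) - c| =
      (∫ z in closedBall x r, |h z - c|) / r ^ 2 := by
    rw [h2, mul_comm, mul_div_assoc, div_self (by positivity), mul_one]
  rw [h4, h5, div_pow]
  have h6 : r ^ 2 / r' ^ 2 * (1 / 4 * ((∫ z in closedBall x r, |h z - c|) / r ^ 2)) =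
      1 / 4 * ((∫ z in closedBall x r, |h z - c|) / r' ^ 2) := by
    field_simp
  rw [h6]
  exact mul_le_mul_of_nonneg_left (div_le_div_of_nonneg_right h3 hr2.le) (by norm_num)

theorem mo_sub {h : V → ℝ} {x x' : V} {r r' : ℝ} (hr' : 0 < r')
    (hsub : closedBall x' r' ⊆ closedBall x r) (hh : ContinuousOn h (closedBall x r)) :
    mo h x' r' ≤ 2 * (r / r') ^ 2 * mo h x r := by
  have h1 := mo_le_two hr'.le (hh.mono hsub) (av h x r)
  have h2 := mob_inner hr' hsub hh (av h x r)
  have h3 : (r / r') ^ 2 * ((1 / 4) * ∫ y in closedBall (0 : V) 1, |h (x + r • y) - av h x r|) =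
      (r / r') ^ 2 * mo h x r := rfl
  rw [h3] at h2
  linarith

theorem mob_av_mem {h : V → ℝ} {x : V} {r a b : ℝ} (hr : 0 ≤ r)
    (hh : ContinuousOn h (closedBall x r)) (hS : ∀ y ∈ closedBall x r, h y ∈ Icc a b) :
    av h x r ∈ Icc a b := by
  have hf := mob_cont hr hh
  constructor
  · have := mob_mono continuousOn_const hf (fun y hy => (hS _ (mob_mem hr hy)).1)
    rwa [mob_const] at this
  · have := mob_mono hf continuousOn_const (fun y hy => (hS _ (mob_mem hr hy)).2)
    rwa [mob_const] at this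

theorem mo_comp_lip {h : V → ℝ} {x : V} {r a b L : ℝ} (hr : 0 ≤ r)
    (hh : ContinuousOn h (closedBall x r)) (hS : ∀ y ∈ closedBall x r, h y ∈ Icc a b) {φ : ℝ → ℝ}
    (hL : 0 ≤ L) (hφ : ∀ s ∈ Icc a b, ∀ t ∈ Icc a b, |φ s - φ t| ≤ L * |s - t|) :
    mo (fun y => φ (h y)) x r ≤ 2 * L * mo h x r := by
  have hf := mob_cont hr hh
  have hav := mob_av_mem hr hh hS
  have hφc : ContinuousOn φ (Icc a b) := by
    have : LipschitzOnWith ⟨L, hL⟩ φ (Icc a b) := by
      apply LipschitzOnWith.of_dist_le_mul
      intro s hs t ht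
      rw [Real.dist_eq, Real.dist_eq]
      exact hφ s hs t ht
    exact this.continuousOn
  have hc : ContinuousOn (fun y => φ (h y)) (closedBall x r) := hφc.comp hh hS
  have h1 := mo_le_two hr hc (φ (av h x r))
  have h2 : (1 / 4) * ∫ y in closedBall (0 : V) 1, |φ (h (x + r • y)) - φ (av h x r)| ≤
      (1 / 4) * ∫ y in closedBall (0 : V) 1, L * |h (x + r • y) - av h x r| := by
    refine mob_mono (mob_abs_cont (mob_cont hr hc) _)
      (continuousOn_const.mul (mob_abs_cont hf _)) fun y hy => ?_
    exact hφ _ (hS _ (mob_mem hr hy)) _ hav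
  rw [integral_const_mul] at h2
  have h3 : (1 / 4) * (L * ∫ y in closedBall (0 : V) 1, |h (x + r • y) - av h x r|) =
      L * mo h x r := by
    unfold mo
    ring
  linarith

theorem mo_add_le {f g : V → ℝ} {x : V} {r : ℝ} (hr : 0 ≤ r)
    (hf : ContinuousOn f (closedBall x r)) (hg : ContinuousOn g (closedBall x r)) :
    mo (fun y => f y + g y) x r ≤ mo f x r + mo g x r := by
  have hf' := mob_cont hr hf
  have hg' := mob_cont hr hg
  have hav : av (fun y => f y + g y) x r = av f x r + av g x r := by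
    unfold av
    rw [integral_add (mob_int hf') (mob_int hg'), mul_add]
  have h1 : mo (fun y => f y + g y) x r ≤ (1 / 4) * ∫ y in closedBall (0 : V) 1,
      (|f (x + r • y) - av f x r| + |g (x + r • y) - av g x r|) := by
    unfold mo
    refine mob_mono (mob_abs_cont (hf'.add hg') _)
      ((mob_abs_cont hf' _).add (mob_abs_cont hg' _)) fun y _ => ?_
    rw [hav]
    have h2 : f (x + r • y) + g (x + r • y) - (av f x r + av g x r) =
        (f (x + r • y) - av f x r) + (g (x + r • y) - av g x r) := by ring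
    rw [h2]
    exact abs_add_le _ _
  rw [integral_add (mob_int (mob_abs_cont hf' _)) (mob_int (mob_abs_cont hg' _)), mul_add] at h1
  exact h1

theorem mo_const_mul (c : ℝ) (f : V → ℝ) (x : V) (r : ℝ) :
    mo (fun y => c * f y) x r = |c| * mo f x r := by
  have hav : av (fun y => c * f y) x r = c * av f x r := by
    unfold av
    rw [integral_const_mul]
    ring
  unfold mo
  rw [hav]
  simp only [← mul_sub, abs_mul]
  rw [integral_const_mul]
  ring

theorem mo_add_const {f : V → ℝ} {x : V} {r : ℝ} (hr : 0 ≤ r)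
    (hf : ContinuousOn f (closedBall x r)) (c : ℝ) : mo (fun y => f y + c) x r = mo f x r := by
  have hf' := mob_cont hr hf
  have hav : av (fun y => f y + c) x r = av f x r + c := by
    unfold av
    rw [integral_add (mob_int hf') (mob_int continuousOn_const), mul_add, mob_const]
  unfold mo
  rw [hav]
  simp only [add_sub_add_right_eq_sub]

theorem mo_le_of_sup {h : V → ℝ} {x : V} {r c ε : ℝ} (hr : 0 ≤ r)
    (hh : ContinuousOn h (closedBall x r)) (hb : ∀ y ∈ closedBall x r, |h y - c| ≤ ε) :
    mo h x r ≤ 2 * ε := by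
  have h1 := mo_le_two hr hh c
  have h2 := mob_mono (mob_abs_cont (mob_cont hr hh) c)
    (continuousOn_const (c := ε)) (fun y hy => hb _ (mob_mem hr hy))
  rw [mob_const] at h2
  linarith

theorem abs_av_sub_le_of_sup {h : V → ℝ} {x : V} {r c ε : ℝ} (hr : 0 ≤ r)
    (hh : ContinuousOn h (closedBall x r)) (hb : ∀ y ∈ closedBall x r, |h y - c| ≤ ε) :
    |av h x r - c| ≤ ε := by
  have h1 : |av h x r - c| ≤ _ := mob_abs (mob_cont hr hh) c
  have h2 := mob_mono (mob_abs_cont (mob_cont hr hh) c)
    (continuousOn_const (c := ε)) (fun y hy => hb _ (mob_mem hr hy))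
  rw [mob_const] at h2
  linarith

theorem abs_av_sub_av_le {h : V → ℝ} {x x' : V} {r r' : ℝ} (hr' : 0 < r')
    (hsub : closedBall x' r' ⊆ closedBall x r) (hh : ContinuousOn h (closedBall x r)) :
    |av h x' r' - av h x r| ≤ (r / r') ^ 2 * mo h x r :=
  (mob_abs (mob_cont hr'.le (hh.mono hsub)) (av h x r)).trans (mob_inner hr' hsub hh (av h x r))

end Pool.Agent.L1de93c
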