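import Pool.Agent.Lib_MP_1de93e_cont.PjB
import Pool.Agent.Lib_MP_1de93e_cont.MoB

/-!
# PIECE CHG: change of variables

## CHG
`‖l‖ ≤ 1/20`, `0 < r ≤ 1`: for `y ∈ closedBall 0 r`, `|l y| ≤ 1/10`, so `pj l y ∈ closedBall 0 (2 r)`; `pj l` is
injective on `closedBall 0 r` (inverse `pj (-l)`, `pj_pj`), with Jacobian determinant
`(1 - l y)⁻³ ≥ (11/10)⁻³ ≥ 1/2`. `integral_pj_le`: the change of variables formula
(`integral_image_eq_integral_abs_det_fderiv_smul`; the determinant of `dpj l y` as a continuous linear map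
equals `detT`, prove this as a lemma: `ContinuousLinearMap.det`, `LinearMap.det` in the basis of
`ℝ × ℝ`) gives `∫_{closedBall 0 r} g (pj l y) (1 - l y)⁻³ dy = ∫_{pj l '' closedBall 0 r} g`.
`mo_pj`: `mo (h ∘ pj l) 0 r ≤ 2 (1/(4 r²)) ∫_{closedBall 0 r} |h (pj l y) - c| ≤
2 * 2 * 4 * (1/(4 (2r)²)) ∫_{closedBall 0 (2 r)} |h - c|`, `c = av h 0 (2 r)`.
`mo_lin`: the same for a linear map `T` with `‖T z - z‖ ≤ (1/4) ‖z‖`: `detT T ≥ 1/2`,
`T (closedBall 0 r) ⊆ closedBall 0 (2 r)`.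
-/

namespace Pool.Agent.L1de93c

open MeasureTheory Metric Set

private theorem det_eq (T : V →L[ℝ] V) : T.det = detT T := by
  have h1 : T.det = LinearMap.det (T : V →ₗ[ℝ] V) := rfl
  rw [h1, ← LinearMap.det_toMatrix (Module.Basis.finTwoProd ℝ), Matrix.det_fin_two]
  simp [LinearMap.toMatrix_apply, detT, dt]
  ring

private theorem chg_le {f : V → V} {f' : V → V →L[ℝ] V} {r : ℝ}
    (hf : ∀ y ∈ closedBall (0 : V) r, HasFDerivAt f (f' y) y)
    (hinj : InjOn f (closedBall 0 r)) (hmap : ∀ y ∈ closedBall (0 : V) r, f y ∈ closedBall (0 : V) (2 * r))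
    (hdet : ∀ y ∈ closedBall (0 : V) r, 1 / 2 ≤ |detT (f' y)|) {g : V → ℝ}
    (hg : ContinuousOn g (closedBall 0 (2 * r))) (hg0 : ∀ y ∈ closedBall (0 : V) (2 * r), 0 ≤ g y) :
    ∫ y in closedBall (0 : V) r, g (f y) ≤ 2 * ∫ y in closedBall (0 : V) (2 * r), g y := by
  have hms : MeasurableSet (closedBall (0 : V) r) := isClosed_closedBall.measurableSet
  have hfw : ∀ y ∈ closedBall (0 : V) r, HasFDerivWithinAt f (f' y) (closedBall 0 r) y :=
    fun y hy => (hf y hy).hasFDerivWithinAt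
  have hfc : ContinuousOn f (closedBall 0 r) := fun y hy => (hf y hy).continuousAt.continuousWithinAt
  have hgi : IntegrableOn g (closedBall (0 : V) (2 * r)) volume :=
    hg.integrableOn_compact (isCompact_closedBall 0 (2 * r))
  have hsub : f '' closedBall 0 r ⊆ closedBall 0 (2 * r) := by
    rintro _ ⟨y, hy, rfl⟩
    exact hmap y hy
  have hgf : IntegrableOn (fun y => g (f y)) (closedBall (0 : V) r) volume :=
    (hg.comp hfc hmap).integrableOn_compact (isCompact_closedBall 0 r)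
  have hJ : IntegrableOn (fun y => |(f' y).det| • g (f y)) (closedBall (0 : V) r) volume :=
    (integrableOn_image_iff_integrableOn_abs_det_fderiv_smul volume hms hfw hinj g).mp
      (hgi.mono_set hsub)
  have h1 : ∫ y in closedBall (0 : V) r, g (f y) ≤
      ∫ y in closedBall (0 : V) r, 2 * (|(f' y).det| • g (f y)) := by
    refine setIntegral_mono_on hgf (hJ.const_mul 2) hms fun y hy => ?_
    have h2 := hdet y hy
    have h3 := hg0 _ (hmap y hy)
    rw [det_eq, smul_eq_mul]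
    nlinarith
  refine h1.trans ?_
  rw [integral_const_mul]
  refine mul_le_mul_of_nonneg_left ?_ (by norm_num)
  rw [← integral_image_eq_integral_abs_det_fderiv_smul volume hms hfw hinj g]
  refine setIntegral_mono_set hgi ?_ hsub.eventuallyLE
  exact (ae_restrict_iff' isClosed_closedBall.measurableSet).mpr (Filter.Eventually.of_forall hg0)

private theorem mo_chg {f : V → V} {r : ℝ} (hr : 0 < r) {h : V → ℝ}
    (hfc : ContinuousOn f (closedBall 0 r))
    (hmap : ∀ y ∈ closedBall (0 : V) r, f y ∈ closedBall (0 : V) (2 * r))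
    (hh : ContinuousOn h (closedBall 0 (2 * r)))
    (hle : ∀ g : V → ℝ, ContinuousOn g (closedBall 0 (2 * r)) →
      (∀ y ∈ closedBall (0 : V) (2 * r), 0 ≤ g y) →
      ∫ y in closedBall (0 : V) r, g (f y) ≤ 2 * ∫ y in closedBall (0 : V) (2 * r), g y) :
    mo (fun y => h (f y)) 0 r ≤ 16 * mo h 0 (2 * r) := by
  set c := av h 0 (2 * r) with hc
  have h1 := mo_le_two (h := fun y => h (f y)) (x := 0) hr.le (hh.comp hfc hmap) c
  refine h1.trans ?_
  have h2 := integral_closedBall_scale hr 0 (fun y => |h (f y) - c|)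
  have h3 := integral_closedBall_scale (by linarith : 0 < 2 * r) 0 (fun y => |h y - c|)
  have h4 := hle (fun y => |h y - c|) ((hh.sub continuousOn_const).abs) (fun y _ => abs_nonneg _)
  rw [h2, h3] at h4
  have hr2 : 0 < r ^ 2 := by positivity
  unfold mo
  rw [← hc]
  have h5 : r ^ 2 * ∫ y in closedBall (0 : V) 1, |h (f (0 + r • y)) - c| ≤
      r ^ 2 * (8 * ∫ y in closedBall (0 : V) 1, |h (0 + (2 * r) • y) - c|) := by
    calc _ ≤ _ := h4
      _ = _ := by ring
  have h6 := le_of_mul_le_mul_left h5 hr2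
  linarith

/-- CHG -/
theorem integral_pj_le {l : V} (hl : ‖l‖ ≤ 1 / 20) {r : ℝ} (hr : 0 < r) (hr1 : r ≤ 1) {g : V → ℝ}
    (hg : ContinuousOn g (closedBall 0 (2 * r))) (hg0 : ∀ y ∈ closedBall (0 : V) (2 * r), 0 ≤ g y) :
    ∫ y in closedBall (0 : V) r, g (pj l y) ≤ 2 * ∫ y in closedBall (0 : V) (2 * r), g y := by
  have hd : ∀ y ∈ closedBall (0 : V) r, |dot l y| ≤ 1 / 10 := by
    intro y hy
    rw [mem_closedBall_zero_iff] at hy
    have h1 := abs_dot_le l y
    have h2 : ‖l‖ * ‖y‖ ≤ 1 / 20 * 1 := mul_le_mul hl (hy.trans hr1) (norm_nonneg _) (by norm_num)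
    linarith
  have hne : ∀ y ∈ closedBall (0 : V) r, 1 - dot l y ≠ 0 := by
    intro y hy
    have h1 := abs_le.mp (hd y hy)
    linarith [h1.2]
  refine chg_le (f' := fun y => dpj l y) (fun y hy => pj_hasFDerivAt (hne y hy)) ?_ ?_ ?_ hg hg0
  · intro y hy z hz hyz
    have h1 := pj_pj (m := -l) (hne y hy)
    have h2 := pj_pj (m := -l) (hne z hz)
    rw [add_neg_cancel, pj_zero_left] at h1 h2
    rw [← h1, ← h2, hyz]
  · intro y hy
    have h1 := abs_le.mp (hd y hy)
    have h2 : 9 / 10 ≤ 1 - dot l y := by linarith [h1.2]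
    rw [mem_closedBall_zero_iff] at hy ⊢
    unfold pj
    rw [norm_smul, norm_inv, Real.norm_eq_abs, abs_of_pos (by linarith : 0 < 1 - dot l y)]
    rw [inv_mul_le_iff₀ (by linarith)]
    nlinarith
  · intro y hy
    have h1 := abs_le.mp (hd y hy)
    have h2 : 9 / 10 ≤ 1 - dot l y := by linarith [h1.2]
    have h3 : 1 - dot l y ≤ 11 / 10 := by linarith [h1.1]
    change 1 / 2 ≤ |detT (dpj l y)|
    rw [detT_dpj (hne y hy), abs_of_nonneg (by positivity)]
    have h4 : (10 / 11 : ℝ) ≤ (1 - dot l y)⁻¹ := by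
      rw [le_inv_comm₀ (by norm_num) (by linarith)]
      norm_num
      linarith
    calc (1 / 2 : ℝ) ≤ (10 / 11) ^ 3 := by norm_num
      _ ≤ _ := pow_le_pow_left₀ (by norm_num) h4 3

/-- CHG -/
theorem mo_pj {l : V} (hl : ‖l‖ ≤ 1 / 20) {r : ℝ} (hr : 0 < r) (hr1 : r ≤ 1) {h : V → ℝ}
    (hh : ContinuousOn h (closedBall 0 (2 * r))) :
    mo (fun y => h (pj l y)) 0 r ≤ 16 * mo h 0 (2 * r) := by
  have hd : ∀ y ∈ closedBall (0 : V) r, |dot l y| ≤ 1 / 10 := by
    intro y hy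
    rw [mem_closedBall_zero_iff] at hy
    have h1 := abs_dot_le l y
    have h2 : ‖l‖ * ‖y‖ ≤ 1 / 20 * 1 := mul_le_mul hl (hy.trans hr1) (norm_nonneg _) (by norm_num)
    linarith
  have hne : ∀ y ∈ closedBall (0 : V) r, 1 - dot l y ≠ 0 := by
    intro y hy
    have h1 := abs_le.mp (hd y hy)
    linarith [h1.2]
  refine mo_chg hr (fun y hy => (pj_hasFDerivAt (hne y hy)).continuousAt.continuousWithinAt) ?_ hh
    (fun g hg hg0 => integral_pj_le hl hr hr1 hg hg0)
  intro y hy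
  have h1 := abs_le.mp (hd y hy)
  have h2 : 9 / 10 ≤ 1 - dot l y := by linarith [h1.2]
  rw [mem_closedBall_zero_iff] at hy ⊢
  unfold pj
  rw [norm_smul, norm_inv, Real.norm_eq_abs, abs_of_pos (by linarith : 0 < 1 - dot l y)]
  rw [inv_mul_le_iff₀ (by linarith)]
  nlinarith

/-- CHG -/
theorem mo_lin {T : V →L[ℝ] V} (hT : ∀ z, ‖T z - z‖ ≤ 1 / 4 * ‖z‖) {r : ℝ} (hr : 0 < r) {h : V → ℝ}
    (hh : ContinuousOn h (closedBall 0 (2 * r))) :
    mo (fun y => h (T y)) 0 r ≤ 16 * mo h 0 (2 * r) := by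
  have hdet : 1 / 2 ≤ detT T := by
    have h1 := hT (1, 0)
    have h2 := hT (0, 1)
    have n1 : ‖((1, 0) : V)‖ = 1 := by simp
    have n2 : ‖((0, 1) : V)‖ = 1 := by simp
    rw [n1, mul_one] at h1
    rw [n2, mul_one] at h2
    have a1 := abs_le.mp ((abs_fst_le (T (1, 0) - (1, 0))).trans h1)
    have a2 := abs_le.mp ((abs_snd_le (T (1, 0) - (1, 0))).trans h1)
    have a3 := abs_le.mp ((abs_fst_le (T (0, 1) - (0, 1))).trans h2)
    have a4 := abs_le.mp ((abs_snd_le (T (0, 1) - (0, 1))).trans h2)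
    simp only [Prod.fst_sub, Prod.snd_sub, sub_zero] at a1 a2 a3 a4
    unfold detT dt
    have b1 : (3 / 4) * (3 / 4) ≤ (T (1, 0)).1 * (T (0, 1)).2 :=
      mul_le_mul (by linarith [a1.1]) (by linarith [a4.1]) (by norm_num) (by linarith [a1.1])
    have b2 : |(T (1, 0)).2 * (T (0, 1)).1| ≤ (1 / 4) * (1 / 4) := by
      rw [abs_mul]
      exact mul_le_mul (abs_le.mpr a2) (abs_le.mpr a3) (abs_nonneg _) (by norm_num)
    have b3 := (abs_le.mp b2).2
    linarith
  have hmap : ∀ y ∈ closedBall (0 : V) r, T y ∈ closedBall (0 : V) (2 * r) := by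
    intro y hy
    rw [mem_closedBall_zero_iff] at hy ⊢
    have h1 : ‖T y‖ ≤ ‖T y - y‖ + ‖y‖ := by
      calc ‖T y‖ = ‖(T y - y) + y‖ := by rw [sub_add_cancel]
        _ ≤ _ := norm_add_le _ _
    have h2 := hT y
    linarith
  refine mo_chg hr T.continuous.continuousOn hmap hh (fun g hg hg0 => ?_)
  refine chg_le (f' := fun _ => T) (fun y _ => T.hasFDerivAt) ?_ hmap ?_ hg hg0
  · intro y _ z _ hyz
    by_contra hne
    have h1 : y - z ≠ 0 := sub_ne_zero.mpr hne
    have h2 : T (y - z) = 0 := by rw [map_sub, hyz, sub_self]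
    have h3 := hT (y - z)
    rw [h2, zero_sub, norm_neg] at h3
    have h4 : 0 < ‖y - z‖ := norm_pos_iff.mpr h1
    linarith
  · intro y _
    exact hdet.trans (le_abs_self _)

end Pool.Agent.L1de93c
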