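import Pool.Agent.Lib_MP_1de93e_cont.Slo
import Pool.Agent.Lib_MP_1de93e_cont.PjP

/-!
# PIECE CHN: comparison of gauges at consecutive scales

Standing: `HP U F`, `closedBall x (5 r) ⊆ U`, `c ‖v‖ ≤ F y v ≤ C ‖v‖` there. If `‖l‖ ≤ 1/100`,
`‖y‖ ≤ 1` then `|l y| ≤ 1/50`, `‖pj l y‖ ≤ 50/49`, and for `G = Res F x' r'` with
`closedBall x' (2 r') ⊆ U` the field `Pull G l` is `HP` on the open convex set
`{y | l y < 1 ∧ x' + r' pj l y ∈ U} ⊇ closedBall 0 1` (`HP.res`, `HP.pull`), with bounds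
`(c/2) ‖v‖ ≤ Pull G l y v ≤ 2 C ‖v‖` (`‖dpj l y v - v‖ ≤ (1/10) ‖v‖`).

## CHN `gauge_half`: if `l`, `l₁` (norm `≤ 1/100`) satisfy `OB (Pull (Res F x r) l) 0 1 Θ` and
`OB (Pull (Res F x (r/2)) l₁) 0 1 Θ` then `‖l₁ - (1/2) l‖ ≤ K Θ`.
Proof: `Res (Pull (Res F x r) l) 0 (1/2) = Pull (Res F x (r/2)) ((1/2) l)` (`res_pull_zero`, `res_res`).
Let `G = lc (Pull (Res F x (r/2)) ((1/2) l))`; `mo G 0 1 ≤ 8 Θ` (`mo_scale`, `mo_sub`). With `d = l₁ - (1/2) l`,
`pull_pull` and `lc_pull`: `lc (Pull (Res F x (r/2)) l₁) y = -3 log (1 - d y) + G (pj d y)` for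
`y ∈ closedBall 0 (1/2)` (`Pull (Pull G' m) d = Pull G' (d + m)`), and its `mo` on `0, 1/2` is at most
`8 Θ`. Now `slope`. (A congruence lemma: `mo` depends only on the values on the ball.)
-/

namespace Pool.Agent.L1de93c

open MeasureTheory Metric Set

/-- `mo` depends only on the values on the square. -/
theorem mo_congr {h g : V → ℝ} {x : V} {r : ℝ} (hr : 0 ≤ r) (e : ∀ y ∈ closedBall x r, h y = g y) :
    mo h x r = mo g x r := by
  have h1 : ∀ y ∈ closedBall (0 : V) 1, x + r • y ∈ closedBall x r := by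
    intro y hy
    rw [mem_closedBall_zero_iff] at hy
    rw [mem_closedBall, dist_eq_norm, add_sub_cancel_left, norm_smul, Real.norm_eq_abs,
      abs_of_nonneg hr]
    nlinarith
  have h2 : av h x r = av g x r := by
    unfold av
    rw [setIntegral_congr_fun measurableSet_closedBall fun y hy => e _ (h1 y hy)]
  unfold mo
  rw [h2]
  rw [setIntegral_congr_fun measurableSet_closedBall fun y hy => ?_]
  show |h (x + r • y) - av g x r| = |g (x + r • y) - av g x r|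
  rw [e _ (h1 y hy)]

theorem CHN_dot {l y : V} (hl : ‖l‖ ≤ 1 / 20) (hy : ‖y‖ ≤ 1) : dot l y ≤ 1 / 10 := by
  have h1 := (le_abs_self _).trans (abs_dot_le l y)
  have h2 : ‖l‖ * ‖y‖ ≤ 1 / 20 * 1 :=
    mul_le_mul hl hy (norm_nonneg _) (by norm_num)
  nlinarith

theorem CHN_pj {l y : V} (hl : ‖l‖ ≤ 1 / 20) (hy : ‖y‖ ≤ 1) : ‖pj l y‖ ≤ 2 * ‖y‖ := by
  have h1 := CHN_dot hl hy
  have h2 : 0 < 1 - dot l y := by linarith
  unfold pj
  rw [norm_smul, Real.norm_eq_abs, abs_of_pos (inv_pos.2 h2)]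
  refine mul_le_mul_of_nonneg_right ?_ (norm_nonneg _)
  rw [inv_le_comm₀ h2 (by norm_num)]
  linarith

/-- the standing situation -/
theorem CHN_HP {U : Set V} {F : V → V → ℝ} (h : HP U F) {x : V} {r s : ℝ} (hs : 0 < s)
    (hsr : s ≤ r) (hU : closedBall x (2 * r) ⊆ U) {l : V} (hl : ‖l‖ ≤ 1 / 20) :
    HP {y | dot l y < 1 ∧ pj l y ∈ {y : V | x + s • y ∈ U}} (Pull (Res F x s) l) ∧
      closedBall 0 1 ⊆ {y | dot l y < 1 ∧ pj l y ∈ {y : V | x + s • y ∈ U}} := by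
  refine ⟨(h.res x hs).pull l, fun y hy => ?_⟩
  rw [mem_closedBall_zero_iff] at hy
  refine ⟨(CHN_dot hl hy).trans_lt (by norm_num), hU ?_⟩
  rw [mem_closedBall, dist_eq_norm, add_sub_cancel_left, norm_smul, Real.norm_eq_abs,
    abs_of_pos hs]
  have h1 := CHN_pj hl hy
  have h2 : ‖pj l y‖ ≤ 2 := by linarith
  calc s * ‖pj l y‖ ≤ s * 2 := mul_le_mul_of_nonneg_left h2 hs.le
    _ ≤ 2 * r := by linarith

theorem CHN_half {h : V → ℝ} (hh : ContinuousOn h (closedBall 0 1)) {Θ : ℝ}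
    (hm : mo h 0 1 ≤ Θ) : mo h 0 (1 / 2) ≤ 8 * Θ := by
  have h1 := mo_sub (h := h) (x := 0) (x' := 0) (r := 1) (r' := 1 / 2) (by norm_num)
    (closedBall_subset_closedBall (by norm_num)) hh
  have h2 : 2 * (1 / (1 / 2 : ℝ)) ^ 2 = 8 := by norm_num
  rw [h2] at h1
  linarith

/-- CHN -/
theorem gauge_half : ∃ K > 0, ∀ (U : Set V) (F : V → V → ℝ) (x : V) (r Θ : ℝ) (l l₁ : V), HP U F →
    0 < r → closedBall x (2 * r) ⊆ U → ‖l‖ ≤ 1 / 100 → ‖l₁‖ ≤ 1 / 100 →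
    OB (Pull (Res F x r) l) 0 1 Θ → OB (Pull (Res F x (r / 2)) l₁) 0 1 Θ →
    ‖l₁ - (1 / 2 : ℝ) • l‖ ≤ K * Θ := by
  refine ⟨640, by norm_num, fun U F x r Θ l l₁ hF hr hU hl hl₁ ho ho₁ => ?_⟩
  have hlc : ∀ (s : ℝ) (m : V), 0 < s → s ≤ r → ‖m‖ ≤ 1 / 20 →
      ContinuousOn (lc (Pull (Res F x s) m)) (closedBall 0 1) := by
    intro s m hs hsr hm
    obtain ⟨h1, h2⟩ := CHN_HP hF hs hsr hU hm
    exact (lc_continuousOn h1).mono h2
  have hm : ‖(1 / 2 : ℝ) • l‖ ≤ 1 / 200 := by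
    rw [norm_smul, Real.norm_eq_abs, abs_of_pos (by norm_num)]
    linarith
  have hd : ‖l₁ - (1 / 2 : ℝ) • l‖ ≤ 1 / 20 := by
    refine (norm_sub_le _ _).trans ?_
    linarith
  have hres : Res (Pull (Res F x r) l) 0 (1 / 2) =
      Pull (Res F x (r / 2)) ((1 / 2 : ℝ) • l) := by
    rw [res_pull_zero, res_res, smul_zero, add_zero]
    congr 2
    ring
  -- the first gauge
  have hG : mo (lc (Pull (Res F x (r / 2)) ((1 / 2 : ℝ) • l))) 0 1 ≤ 8 * Θ := by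
    rw [← hres]
    have h1 := mo_scale (lc (Pull (Res F x r) l)) 0 0 (1 / 2) 1
    rw [smul_zero, add_zero, mul_one] at h1
    have h2 : lc (Res (Pull (Res F x r) l) 0 (1 / 2)) =
        fun z => lc (Pull (Res F x r) l) (0 + (1 / 2 : ℝ) • z) := rfl
    rw [h2, h1]
    exact CHN_half (hlc r l hr le_rfl (hl.trans (by norm_num))) ho.2
  -- the second gauge
  have h2 : mo (fun y => -3 * Real.log (1 - dot (l₁ - (1 / 2 : ℝ) • l) y) +
      lc (Pull (Res F x (r / 2)) ((1 / 2 : ℝ) • l)) (pj (l₁ - (1 / 2 : ℝ) • l) y)) 0 (1 / 2) ≤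
      8 * Θ := by
    rw [← mo_congr (h := lc (Pull (Res F x (r / 2)) l₁)) (by norm_num) fun y hy => ?_]
    · exact CHN_half (hlc (r / 2) l₁ (by linarith) (by linarith) (hl₁.trans (by norm_num))) ho₁.2
    · rw [mem_closedBall_zero_iff] at hy
      have hy1 : ‖y‖ ≤ 1 := hy.trans (by norm_num)
      have hdy := CHN_dot hd hy1
      have hly := CHN_dot (hl₁.trans (by norm_num)) hy1
      have hsum : l₁ - (1 / 2 : ℝ) • l + (1 / 2 : ℝ) • l = l₁ := sub_add_cancel _ _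
      have h3 : Pull (Res F x (r / 2)) l₁ y =
          Pull (Pull (Res F x (r / 2)) ((1 / 2 : ℝ) • l)) (l₁ - (1 / 2 : ℝ) • l) y := by
        funext v
        rw [pull_pull (by
          have : 0 < 1 - dot (l₁ - (1 / 2 : ℝ) • l) y := by linarith
          exact this.ne') (by
          rw [hsum]
          have : 0 < 1 - dot l₁ y := by linarith
          exact this.ne'), hsum]
      have h4 : lc (Pull (Res F x (r / 2)) l₁) y =
          lc (Pull (Pull (Res F x (r / 2)) ((1 / 2 : ℝ) • l)) (l₁ - (1 / 2 : ℝ) • l)) y := by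
        unfold lc
        rw [h3]
      obtain ⟨h5, h6⟩ := CHN_HP hF (s := r / 2) (by linarith) (by linarith) hU
        (hm.trans (by norm_num))
      rw [h4, lc_pull (by linarith) (h5.norm _ (h6 ?_))]
      rw [mem_closedBall_zero_iff]
      have h7 := CHN_pj hd hy1
      linarith
  have h3 := slope hd (hlc (r / 2) ((1 / 2 : ℝ) • l) (by linarith) (by linarith)
    (hm.trans (by norm_num))) hG h2
  linarith

end Pool.Agent.L1de93c
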