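import Pool.Agent.Lib_MP_1de93e_cont.Stk1

/-!
# PIECE STK2: convergence of Steklov averages

## STK2 `stk_tendsto`
Let `K' = ⋃_{x ∈ K} closedBall x ρ ⊆ U` compact (`IsCompact.exists_cthickening_subset_open`); `F` is
uniformly continuous on `K' × closedBall 0 1`: `|F (x + s y) v - F x v| ≤ ε` for `‖v‖ ≤ 1`,
`‖y‖ ≤ 1`, `s ≤ s₀`; average over `y` and use homogeneity in `v`.
-/

namespace Pool.Agent.L1de93c

open MeasureTheory Metric Set

private theorem stk_vol : (volume : Measure V).real (closedBall (0 : V) 1) = 4 := by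
  rw [Measure.real, show (0 : V) = ((0 : ℝ), (0 : ℝ)) from rfl, ← closedBall_prod_same,
    Measure.volume_eq_prod, Measure.prod_prod, Real.volume_closedBall, ← ENNReal.ofReal_mul (by norm_num),
    ENNReal.toReal_ofReal (by norm_num)]
  norm_num

/-- STK2 -/
theorem stk_tendsto {U : Set V} {F : V → V → ℝ} (h : HP U F) {K : Set V} (hK : IsCompact K)
    (hKU : K ⊆ U) {ε : ℝ} (hε : 0 < ε) :
    ∃ s₀ > 0, ∀ s, 0 < s → s ≤ s₀ → ∀ x ∈ K, ∀ v, |Stk F s x v - F x v| ≤ ε * ‖v‖ := by
  obtain ⟨δ, hδ, hsub⟩ := hK.exists_cthickening_subset_open h.isOpen hKU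
  have hK' : IsCompact (cthickening δ K) := hK.cthickening
  have hc : ContinuousOn (fun p : V × V => F p.1 p.2) (cthickening δ K ×ˢ closedBall (0 : V) 1) :=
    h.cont.mono (prod_mono hsub (subset_univ _))
  have hu := (hK'.prod (isCompact_closedBall (0 : V) 1)).uniformContinuousOn_of_continuous hc
  rw [Metric.uniformContinuousOn_iff] at hu
  obtain ⟨δ', hδ', hu⟩ := hu ε hε
  refine ⟨min δ (δ' / 2), lt_min hδ (by linarith), ?_⟩
  intro s hs hs0 x hx v
  have hs1 : s ≤ δ := hs0.trans (min_le_left _ _)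
  have hs2 : s ≤ δ' / 2 := hs0.trans (min_le_right _ _)
  have hmem : ∀ y ∈ closedBall (0 : V) 1, x + s • y ∈ cthickening δ K := by
    intro y hy
    rw [mem_closedBall_zero_iff] at hy
    refine mem_cthickening_of_dist_le _ x _ _ hx ?_
    rw [dist_eq_norm, add_sub_cancel_left, norm_smul, Real.norm_eq_abs, abs_of_pos hs]
    nlinarith
  have hxm : x ∈ cthickening δ K := self_subset_cthickening K hx
  have key : ∀ y ∈ closedBall (0 : V) 1, |F (x + s • y) v - F x v| ≤ ε * ‖v‖ := by
    intro y hy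
    have hN1 := h.norm _ (hsub (hmem y hy))
    have hN2 := h.norm _ (hsub hxm)
    by_cases hv : v = 0
    · rw [hv, hN1.zero, hN2.zero, sub_zero, abs_zero, norm_zero, mul_zero]
    have hn : 0 < ‖v‖ := norm_pos_iff.mpr hv
    have hy' := hy
    rw [mem_closedBall_zero_iff] at hy'
    have h1 : ‖v‖⁻¹ • v ∈ closedBall (0 : V) 1 := by
      rw [mem_closedBall_zero_iff, norm_smul, norm_inv, norm_norm, inv_mul_cancel₀ hn.ne']
    have h2 := hu (x + s • y, ‖v‖⁻¹ • v) ⟨hmem y hy, h1⟩ (x, ‖v‖⁻¹ • v) ⟨hxm, h1⟩ (by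
      rw [Prod.dist_eq, dist_self, dist_eq_norm, add_sub_cancel_left, norm_smul, Real.norm_eq_abs,
        abs_of_pos hs]
      refine max_lt ?_ hδ'
      nlinarith)
    rw [Real.dist_eq] at h2
    change |F (x + s • y) (‖v‖⁻¹ • v) - F x (‖v‖⁻¹ • v)| < ε at h2
    rw [hN1.smul_nonneg (inv_nonneg.mpr hn.le), hN2.smul_nonneg (inv_nonneg.mpr hn.le), ← mul_sub,
      abs_mul, abs_of_pos (inv_pos.mpr hn)] at h2
    have h3 := mul_lt_mul_of_pos_left h2 hn
    rw [← mul_assoc, mul_inv_cancel₀ hn.ne', one_mul, mul_comm ‖v‖ ε] at h3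
    exact h3.le
  have hcont : ContinuousOn (fun y : V => F (x + s • y) v) (closedBall 0 1) := by
    have h1 := h.continuousOn_left v
    refine h1.comp (f := fun y : V => x + s • y) (by fun_prop) (fun y hy => hsub (hmem y hy))
  have hint : IntegrableOn (fun y : V => F (x + s • y) v) (closedBall 0 1) volume :=
    hcont.integrableOn_compact (isCompact_closedBall 0 1)
  have hcint : IntegrableOn (fun _ : V => F x v) (closedBall 0 1) volume :=
    continuousOn_const.integrableOn_compact (isCompact_closedBall 0 1)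
  have h4 : Stk F s x v - F x v = (1 / 4) * ∫ y in closedBall (0 : V) 1, (F (x + s • y) v - F x v) := by
    rw [integral_sub hint hcint, setIntegral_const, stk_vol, smul_eq_mul]
    unfold Stk av
    ring
  have h5 : ‖∫ y in closedBall (0 : V) 1, (F (x + s • y) v - F x v)‖ ≤
      ε * ‖v‖ * (volume : Measure V).real (closedBall (0 : V) 1) := by
    refine norm_setIntegral_le_of_norm_le_const (isCompact_closedBall (0 : V) 1).measure_lt_top ?_
    intro y hy
    rw [Real.norm_eq_abs]
    exact key y hy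
  rw [stk_vol, Real.norm_eq_abs] at h5
  rw [h4, abs_mul, abs_of_pos (by norm_num : (0:ℝ) < 1 / 4)]
  linarith

end Pool.Agent.L1de93c
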