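import Pool.Agent.Lib_MP_1de93e_cont.Ham
import Pool.Agent.Lib_MP_1de93e_cont.Stk

/-!
# PIECE FLA: no flat sectors

## FLA `no_flat_sector`. Suppose `F y (p + q) = F y p + F y q` for all `y ∈ ball x r ⊆ U`, `dt p q ≠ 0`. Then
`F y (a p + b q) = a F y p + b F y q` for `a, b ≥ 0` (convexity and homogeneity: e.g. for `a ≥ b`:
`a (p + q) = (a p + b q) + (a - b) q`, so `a F(p) + a F(q) = F (a p + a q) ≤ F (a p + b q) + (a-b) F q`).
Let `0 < s < r/2`, `H = Stk F s` on `U' = ball x (r - s)`, `HPC U' H H'`. Also `H y (a p + b q) = a H y p + b H y q`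
and `H' y (a p + b q) = a H' y p + b H' y q` for `a, b ≥ 0`. `ham` with `u = p`, `z = q`, `t₁ = 0`, `t₂ = t > 0`:
`H' y (p + t q) (p + t q) - H' y p p = t (H' y p q + H' y q p) + t² H' y q q` equals
`2 ∫₀ᵗ H' y (p + τ q) q dτ = 2 t H' y p q + t² H' y q q`. So `H' y q p = H' y p q`: the 1-form with values
`P = H · p` on `p` and `Q = H · q` on `q` is closed. Its integrals over segments are additive
(`Convex.curveIntegral_segment_add_eq_of_hasFDerivWithinAt_symmetric`), i.e. for
`A`, `B = A + ε p`, `C = A + ε (p + q)` in the ball: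
`DD H A C = DD H A B + DD H B C`. Let `s → 0` (`stk_tendsto`): `DD F A C = DD F A B + DD F B C`. By
`hstrict`, `B ∈ segment A C`, impossible since `dt p q ≠ 0`.
-/

namespace Pool.Agent.L1de93c

open MeasureTheory Metric Set

/-- Additivity on the sector spanned by `p` and `q`. -/
theorem fla_add {N : V → ℝ} (h : NormV N) {p q : V} (hs : N (p + q) = N p + N q) {a b : ℝ}
    (ha : 0 ≤ a) (hb : 0 ≤ b) : N (a • p + b • q) = a * N p + b * N q := by
  apply le_antisymm
  · have h1 := h.add_le (a • p) (b • q)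
    rwa [h.smul_nonneg ha, h.smul_nonneg hb] at h1
  · rcases le_total b a with hab | hab
    · have h1 := h.add_le (a • p + b • q) ((a - b) • q)
      have h2 : a • p + b • q + (a - b) • q = a • (p + q) := by module
      rw [h2, h.smul_nonneg ha, h.smul_nonneg (sub_nonneg.mpr hab), hs] at h1
      linarith
    · have h1 := h.add_le (a • p + b • q) ((b - a) • p)
      have h2 : a • p + b • q + (b - a) • p = b • (p + q) := by module
      rw [h2, h.smul_nonneg hb, h.smul_nonneg (sub_nonneg.mpr hab), hs] at h1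
      linarith

theorem fla_int {U : Set V} {F : V → V → ℝ} (h : HP U F) {s : ℝ} (hs : 0 ≤ s) {y : V}
    (hy : closedBall y s ⊆ U) (v : V) :
    IntegrableOn (fun z : V => F (y + s • z) v) (closedBall 0 1) volume := by
  have hc : ContinuousOn (fun z : V => F (y + s • z) v) (closedBall 0 1) := by
    refine (h.continuousOn_left v).comp (f := fun z : V => y + s • z) (by fun_prop)
      (fun z hz => hy ?_)
    rw [mem_closedBall_zero_iff] at hz
    rw [mem_closedBall, dist_eq_norm, add_sub_cancel_left, norm_smul, Real.norm_eq_abs,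
      abs_of_nonneg hs]
    nlinarith
  exact hc.integrableOn_compact (isCompact_closedBall 0 1)

theorem fla_mem {x y z : V} {r s : ℝ} (hs : 0 ≤ s) (hy : y ∈ ball x (r - s))
    (hz : z ∈ closedBall (0 : V) 1) : y + s • z ∈ ball x r := by
  rw [mem_closedBall_zero_iff] at hz
  rw [mem_ball, dist_eq_norm] at hy ⊢
  have h1 : y + s • z - x = (y - x) + s • z := by abel
  have h2 := norm_add_le (y - x) (s • z)
  rw [norm_smul, Real.norm_eq_abs, abs_of_nonneg hs] at h2
  rw [h1]
  nlinarith

theorem fla_stk {U : Set V} {F : V → V → ℝ} (h : HP U F) {p q x : V} {r : ℝ}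
    (hU : ball x r ⊆ U) (hs : ∀ y ∈ ball x r, F y (p + q) = F y p + F y q) {s : ℝ} (hs0 : 0 ≤ s)
    {y : V} (hy : y ∈ ball x (r - s)) {a b : ℝ} (ha : 0 ≤ a) (hb : 0 ≤ b) :
    Stk F s y (a • p + b • q) = a * Stk F s y p + b * Stk F s y q := by
  have hyU : closedBall y s ⊆ U := by
    intro z hz
    apply hU
    rw [mem_ball] at hy ⊢
    rw [mem_closedBall] at hz
    linarith [dist_triangle z y x]
  unfold Stk av
  have h1 : ∫ z in closedBall (0 : V) 1, F (y + s • z) (a • p + b • q) =
      ∫ z in closedBall (0 : V) 1, (a * F (y + s • z) p + b * F (y + s • z) q) := by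
    refine setIntegral_congr_fun measurableSet_closedBall fun z hz => ?_
    have hm := fla_mem hs0 hy hz
    exact fla_add (h.norm _ (hU hm)) (hs _ hm) ha hb
  rw [h1, integral_add ((fla_int h hs0 hyU p).const_mul a) ((fla_int h hs0 hyU q).const_mul b),
    integral_const_mul, integral_const_mul]
  ring

/-- The 1-form with values `P` on `p` and `Q` on `q`. -/
noncomputable def flaForm (p q : V) (c : ℝ) (P Q : ℝ) : V →L[ℝ] ℝ :=
  (c * (q.2 * P - p.2 * Q)) • ContinuousLinearMap.fst ℝ ℝ ℝ +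
    (c * (p.1 * Q - q.1 * P)) • ContinuousLinearMap.snd ℝ ℝ ℝ

theorem flaForm_apply {p q : V} (hpq : dt p q ≠ 0) (P Q a b : ℝ) :
    flaForm p q (dt p q)⁻¹ P Q (a • p + b • q) = a * P + b * Q := by
  simp only [flaForm, add_apply, smul_apply,
    ContinuousLinearMap.coe_fst', ContinuousLinearMap.coe_snd', smul_eq_mul, Prod.fst_add,
    Prod.snd_add, Prod.smul_fst, Prod.smul_snd]
  have h1 : dt p q = p.1 * q.2 - p.2 * q.1 := rfl
  have h2 : (dt p q)⁻¹ * dt p q = 1 := inv_mul_cancel₀ hpq
  rw [h1] at h2 ⊢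
  linear_combination (a * P + b * Q) * h2

theorem fla_span {p q : V} (hpq : dt p q ≠ 0) (z : V) :
    ∃ a b : ℝ, z = a • p + b • q := by
  refine ⟨(dt p q)⁻¹ * dt z q, (dt p q)⁻¹ * dt p z, ?_⟩
  have h1 := expand p q z
  rw [mul_smul, mul_smul, ← smul_add, ← h1, smul_smul, inv_mul_cancel₀ hpq, one_smul]

/-- The derivative of the 1-form. -/
noncomputable def flaD (p q : V) (c : ℝ) (P' Q' : V →L[ℝ] ℝ) : V →L[ℝ] V →L[ℝ] ℝ :=
  ((c • (q.2 • P' - p.2 • Q')).smulRight (ContinuousLinearMap.fst ℝ ℝ ℝ)) +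
    ((c • (p.1 • Q' - q.1 • P')).smulRight (ContinuousLinearMap.snd ℝ ℝ ℝ))

theorem flaD_apply (p q : V) (c : ℝ) (P' Q' : V →L[ℝ] ℝ) (w : V) :
    flaD p q c P' Q' w = flaForm p q c (P' w) (Q' w) := by
  simp [flaD, flaForm, smul_eq_mul]

theorem fla_hasD {p q : V} {c : ℝ} {P Q : V → ℝ} {P' Q' : V →L[ℝ] ℝ} {y : V}
    (hP : HasFDerivAt P P' y) (hQ : HasFDerivAt Q Q' y) :
    HasFDerivAt (fun y => flaForm p q c (P y) (Q y)) (flaD p q c P' Q') y := by
  unfold flaForm flaD
  have h1 : HasFDerivAt (fun y => c * (q.2 * P y - p.2 * Q y)) (c • (q.2 • P' - p.2 • Q')) y :=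
    ((hP.const_mul q.2).sub (hQ.const_mul p.2)).const_mul c
  have h2 : HasFDerivAt (fun y => c * (p.1 * Q y - q.1 * P y)) (c • (p.1 • Q' - q.1 • P')) y :=
    ((hQ.const_mul p.1).sub (hP.const_mul q.1)).const_mul c
  exact (h1.smul_const (ContinuousLinearMap.fst ℝ ℝ ℝ)).add
    (h2.smul_const (ContinuousLinearMap.snd ℝ ℝ ℝ))

theorem fla_symm {p q : V} (hpq : dt p q ≠ 0) {P' Q' : V →L[ℝ] ℝ} (hPQ : P' q = Q' p) (w z : V) :
    flaD p q (dt p q)⁻¹ P' Q' w z = flaD p q (dt p q)⁻¹ P' Q' z w := by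
  obtain ⟨a, b, rfl⟩ := fla_span hpq w
  obtain ⟨a', b', rfl⟩ := fla_span hpq z
  rw [flaD_apply, flaD_apply, flaForm_apply hpq, flaForm_apply hpq]
  simp only [map_add, map_smul, smul_eq_mul]
  rw [hPQ]
  ring

/-- Hamel's condition gives closedness. -/
theorem fla_closed {U : Set V} {H : V → V → ℝ} {H' : V → V → V →L[ℝ] ℝ} (h : HPC U H H')
    {p q : V} (hadd : ∀ y ∈ U, ∀ a b : ℝ, 0 ≤ a → 0 ≤ b →
      H y (a • p + b • q) = a * H y p + b * H y q) {y : V} (hy : y ∈ U) :
    H' y p q = H' y q p := by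
  have hadd' : ∀ a b : ℝ, 0 ≤ a → 0 ≤ b → H' y (a • p + b • q) = a • H' y p + b • H' y q := by
    intro a b ha hb
    have h1 := h.hasD y hy (a • p + b • q)
    have h2 := ((h.hasD y hy p).const_mul a).add ((h.hasD y hy q).const_mul b)
    have h3 : (fun z => H z (a • p + b • q)) =ᶠ[nhds y] fun z => a * H z p + b * H z q := by
      filter_upwards [h.isOpen.mem_nhds hy] with z hz
      exact hadd z hz a b ha hb
    exact (h1.congr_of_eventuallyEq h3.symm).unique h2
  have hh := ham h hy p q 0 1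
  have e1 : p + (1 : ℝ) • q = (1 : ℝ) • p + (1 : ℝ) • q := by rw [one_smul ℝ p]
  have e0 : p + (0 : ℝ) • q = p := by rw [zero_smul, add_zero]
  rw [e0, e1, hadd' 1 1 zero_le_one zero_le_one] at hh
  have e2 : ∫ t in (0 : ℝ)..1, H' y (p + t • q) q = ∫ t in (0 : ℝ)..1, (H' y p q + t * H' y q q) := by
    refine intervalIntegral.integral_congr fun t ht => ?_
    rw [uIcc_of_le zero_le_one] at ht
    have e3 : p + t • q = (1 : ℝ) • p + t • q := by rw [one_smul]
    change H' y (p + t • q) q = H' y p q + t * H' y q q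
    rw [e3, hadd' 1 t zero_le_one ht.1, one_smul]
    rfl
  have e4 : ∫ t in (0 : ℝ)..1, (H' y p q + t * H' y q q) = H' y p q + (1 / 2) * H' y q q := by
    have c1 : Continuous fun t : ℝ => t * H' y q q := by fun_prop
    rw [intervalIntegral.integral_add (intervalIntegrable_const) (c1.intervalIntegrable _ _),
      intervalIntegral.integral_mul_const, integral_id]
    simp
  rw [e2, e4] at hh
  simp only [one_smul, add_apply, map_add] at hh
  linarith

/-- Additivity of lengths for the regularised metric. -/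
theorem fla_exact {U : Set V} {H : V → V → ℝ} {H' : V → V → V →L[ℝ] ℝ} (h : HPC U H H')
    {p q : V} (hpq : dt p q ≠ 0) (hadd : ∀ y ∈ U, ∀ a b : ℝ, 0 ≤ a → 0 ≤ b →
      H y (a • p + b • q) = a * H y p + b * H y q) {A : V} {a : ℝ} (ha : 0 ≤ a) (hA : A ∈ U)
    (hB : A + a • p ∈ U) (hC : A + a • (p + q) ∈ U) :
    DD H A (A + a • (p + q)) = DD H A (A + a • p) + DD H (A + a • p) (A + a • (p + q)) := by
  have hω : ∀ y ∈ U, HasFDerivWithinAt (fun y => flaForm p q (dt p q)⁻¹ (H y p) (H y q))
      (flaD p q (dt p q)⁻¹ (H' y p) (H' y q)) U y := fun y hy =>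
    (fla_hasD (h.hasD y hy p) (h.hasD y hy q)).hasFDerivWithinAt
  have hd := h.convex.curveIntegral_segment_add_eq_of_hasFDerivWithinAt_symmetric hω
    (fun y hy w _ z _ => fla_symm hpq (fla_closed h hadd hy) w z) hA hB hC
  rw [curveIntegral_segment, curveIntegral_segment, curveIntegral_segment] at hd
  have key : ∀ B C : V, B ∈ U → C ∈ U → (∃ a b : ℝ, 0 ≤ a ∧ 0 ≤ b ∧ C - B = a • p + b • q) →
      DD H B C = ∫ t in (0 : ℝ)..1, flaForm p q (dt p q)⁻¹ (H (AffineMap.lineMap B C t) p)
        (H (AffineMap.lineMap B C t) q) (C - B) := by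
    rintro B C hB hC ⟨a, b, ha, hb, he⟩
    unfold DD
    refine intervalIntegral.integral_congr fun t ht => ?_
    rw [uIcc_of_le zero_le_one] at ht
    have hm : AffineMap.lineMap B C t ∈ U := h.convex.lineMap_mem hB hC ht
    have he2 : AffineMap.lineMap B C t = B + t • (C - B) := by
      rw [AffineMap.lineMap_apply, vsub_eq_sub, vadd_eq_add, add_comm]
    rw [he2] at hm
    change H (B + t • (C - B)) (C - B) = flaForm p q (dt p q)⁻¹ (H (AffineMap.lineMap B C t) p)
        (H (AffineMap.lineMap B C t) q) (C - B)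
    rw [he2, he, flaForm_apply hpq]
    rw [he] at hm
    exact hadd _ hm a b ha hb
  rw [key A _ hA hC ⟨a, a, ha, ha, by module⟩, key A _ hA hB ⟨a, 0, ha, le_rfl, by module⟩,
    key _ _ hB hC ⟨0, a, le_rfl, ha, by module⟩]
  exact hd.symm

/-- FLA -/
theorem no_flat_sector {U : Set V} {F : V → V → ℝ} (h : HP U F)
    (hstrict : ∀ A ∈ U, ∀ B ∈ U, ∀ C ∈ U, DD F A B + DD F B C = DD F A C → B ∈ segment ℝ A C)
    {p q x : V} {r : ℝ} (hpq : dt p q ≠ 0) (hr : 0 < r) (hU : ball x r ⊆ U)
    (hs : ∀ y ∈ ball x r, F y (p + q) = F y p + F y q) : False := by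
  set M : ℝ := ‖p‖ + ‖p + q‖ + 1 with hM
  have hM0 : 0 < M := by positivity
  set a : ℝ := r / (4 * M) with ha
  have ha0 : 0 < a := by positivity
  have haM : a * M = r / 4 := by rw [ha]; field_simp
  have hxK : x ∈ closedBall x (r / 2) := mem_closedBall_self (by positivity)
  have hK : ∀ v : V, ‖v‖ ≤ M → x + a • v ∈ ball x (r / 2) := by
    intro v hv
    rw [mem_ball, dist_eq_norm, add_sub_cancel_left, norm_smul, Real.norm_eq_abs, abs_of_pos ha0]
    have := mul_le_mul_of_nonneg_left hv ha0.le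
    linarith
  have hBK := hK p (by rw [hM]; linarith [norm_nonneg (p + q)])
  have hCK := hK (p + q) (by rw [hM]; linarith [norm_nonneg p])
  have hKU : closedBall x (r / 2) ⊆ U := (closedBall_subset_ball (by linarith)).trans hU
  have hAU : x ∈ U := hKU hxK
  have hBU : x + a • p ∈ U := hKU (ball_subset_closedBall hBK)
  have hCU : x + a • (p + q) ∈ U := hKU (ball_subset_closedBall hCK)
  have hsub : ∀ s : ℝ, ∀ y ∈ ball x (r - s), closedBall y s ⊆ U := by
    intro s y hy z hz
    apply hU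
    rw [mem_ball] at hy ⊢
    rw [mem_closedBall] at hz
    linarith [dist_triangle z y x]
  have hlim : ∀ B C : V, B ∈ closedBall x (r / 2) → C ∈ closedBall x (r / 2) → ∀ ε > 0, ∀ s > 0,
      s < r / 2 → (∀ y ∈ closedBall x (r / 2), ∀ v, |Stk F s y v - F y v| ≤ ε * ‖v‖) →
      |DD (Stk F s) B C - DD F B C| ≤ ε * ‖C - B‖ := by
    intro B C hB hC ε hε s hs0 hsr hst
    have hmem : ∀ t ∈ Icc (0 : ℝ) 1, B + t • (C - B) ∈ closedBall x (r / 2) := by
      intro t ht
      have := (convex_closedBall x (r / 2)).lineMap_mem hB hC ht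
      rwa [AffineMap.lineMap_apply, vsub_eq_sub, vadd_eq_add, add_comm] at this
    have hpath : ContinuousOn (fun t : ℝ => B + t • (C - B)) (Icc 0 1) := by fun_prop
    have hcF : ContinuousOn (fun t : ℝ => F (B + t • (C - B)) (C - B)) (Icc 0 1) :=
      ((h.continuousOn_left (C - B)).mono hKU).comp hpath hmem
    obtain ⟨H', hH⟩ := stk_hpc h hs0 (U' := ball x (r - s)) isOpen_ball (convex_ball _ _) (hsub s)
    have hcS : ContinuousOn (fun t : ℝ => Stk F s (B + t • (C - B)) (C - B)) (Icc 0 1) :=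
      ((hH.continuousOn_left (C - B)).mono (closedBall_subset_ball (by linarith))).comp hpath hmem
    have i1 : IntervalIntegrable (fun t : ℝ => F (B + t • (C - B)) (C - B)) volume 0 1 :=
      (hcF.mono (by rw [uIcc_of_le zero_le_one])).intervalIntegrable
    have i2 : IntervalIntegrable (fun t : ℝ => Stk F s (B + t • (C - B)) (C - B)) volume 0 1 :=
      (hcS.mono (by rw [uIcc_of_le zero_le_one])).intervalIntegrable
    unfold DD
    rw [← intervalIntegral.integral_sub i2 i1]
    have := intervalIntegral.norm_integral_le_of_norm_le_const (a := (0 : ℝ)) (b := 1)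
      (f := fun t => Stk F s (B + t • (C - B)) (C - B) - F (B + t • (C - B)) (C - B))
      (C := ε * ‖C - B‖) (fun t ht => by
        rw [uIoc_of_le zero_le_one] at ht
        rw [Real.norm_eq_abs]
        exact hst _ (hmem t ⟨ht.1.le, ht.2⟩) _)
    rwa [sub_zero, abs_one, mul_one, Real.norm_eq_abs] at this
  set B := x + a • p with hB
  set C := x + a • (p + q) with hC
  have hkey : DD F x B + DD F B C = DD F x C := by
    by_contra hne
    set δ := |DD F x B + DD F B C - DD F x C| with hδ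
    have hδ0 : 0 < δ := abs_pos.mpr (sub_ne_zero.mpr hne)
    set L := ‖C - x‖ + ‖B - x‖ + ‖C - B‖ with hL
    have hL0 : 0 ≤ L := by positivity
    have hε : 0 < δ / (L + 1) := by positivity
    obtain ⟨s₀, hs₀, hst⟩ := stk_tendsto h (isCompact_closedBall x (r / 2)) hKU hε
    set s := min s₀ (r / 4) with hsdef
    have hspos : 0 < s := lt_min hs₀ (by linarith)
    have hs4 : s ≤ r / 4 := min_le_right _ _
    have hst' := hst s hspos (min_le_left _ _)
    obtain ⟨H', hH⟩ := stk_hpc h hspos (U' := ball x (r - s)) isOpen_ball (convex_ball _ _)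
      (hsub s)
    have hin : closedBall x (r / 2) ⊆ ball x (r - s) := closedBall_subset_ball (by linarith)
    have hex := fla_exact hH hpq (fun y hy a b ha hb => fla_stk h hU hs hspos.le hy ha hb) ha0.le
      (hin hxK) (hin (ball_subset_closedBall hBK)) (hin (ball_subset_closedBall hCK))
    have l1 := hlim x C hxK (ball_subset_closedBall hCK) _ hε s hspos (by linarith) hst'
    have l2 := hlim x B hxK (ball_subset_closedBall hBK) _ hε s hspos (by linarith) hst'
    have l3 := hlim B C (ball_subset_closedBall hBK) (ball_subset_closedBall hCK) _ hε s hspos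
      (by linarith) hst'
    have h1 : δ ≤ δ / (L + 1) * L := by
      have e1 : DD F x B + DD F B C - DD F x C = (DD (Stk F s) x C - DD F x C) -
          (DD (Stk F s) x B - DD F x B) - (DD (Stk F s) B C - DD F B C) := by
        rw [hex]
        ring
      rw [hδ, e1]
      have t1 := abs_sub ((DD (Stk F s) x C - DD F x C) - (DD (Stk F s) x B - DD F x B))
        (DD (Stk F s) B C - DD F B C)
      have t2 := abs_sub (DD (Stk F s) x C - DD F x C) (DD (Stk F s) x B - DD F x B)
      rw [← e1, ← hδ]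
      rw [← e1, ← hδ] at t1
      rw [hL, mul_add, mul_add]
      linarith
    have h2 : δ / (L + 1) * L < δ := by
      rw [div_mul_eq_mul_div, div_lt_iff₀ (by linarith)]
      nlinarith
    linarith
  have hseg := hstrict x hAU B hBU C hCU hkey
  rw [segment_eq_image_lineMap] at hseg
  obtain ⟨θ, -, hθ⟩ := hseg
  rw [AffineMap.lineMap_apply, vsub_eq_sub, vadd_eq_add, hB, hC, add_sub_cancel_left,
    add_comm, add_right_inj] at hθ
  have h1 : θ • (p + q) = p := by
    rw [smul_comm] at hθ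
    exact smul_right_injective V ha0.ne' hθ
  have h2 : dt (θ • (p + q)) q = dt p q := by rw [h1]
  have h3 : dt (θ • (p + q)) p = dt p p := by rw [h1]
  rw [dt_smul_left, dt_add_left, dt_self] at h2
  rw [dt_smul_left, dt_add_left, dt_self, dt_comm q p] at h3
  have h4 : (θ - 1) * dt p q = 0 := by linarith
  have h5 : θ * dt p q = 0 := by linarith
  have h6 : θ = 0 := (mul_eq_zero.mp h5).resolve_right hpq
  rw [h6] at h4
  apply hpq
  linarith

end Pool.Agent.L1de93c
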