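import Pool.Agent.Lib_MP_1de93e_cont.Tre
import Pool.Agent.Lib_MP_1de93e_cont.Chain
import Pool.Agent.Lib_MP_1de93e_cont.Bai
import Pool.Agent.Lib_MP_1de93e_cont.Fla

/-!
# PIECE CON: all tangent norms are differentiable, and `F` is locally Lipschitz

By `exists_sector_ball` and `no_flat_sector` there is `x₀ ∈ U` with `F x₀` differentiable off `0`, i.e.
`Nice (F x₀)`. Let `W = {x ∈ U | ∃ T, detT T ≠ 0 ∧ ∀ u, F x (T u) = F x₀ u}`, `x₀ ∈ W`. For `x ∈ W`, `F x` is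
`Nice` (composition with `T⁻¹`), so by `trel` and `chain` near `x`: `F x' (S u) = F x u`, so
`F x' (S (T u)) = F x₀ u`: `W` is open. `W` is closed in `U`: let `x_n → x ∈ U`, `x_n ∈ W` with maps `T_n`; with
the bounds of `F` on a compact neighbourhood of `x`, `c ‖T_n u‖ ≤ F x_n (T_n u) = F x₀ u ≤ C₀ ‖u‖` and
`c₀ ‖u‖ ≤ C ‖T_n u‖`: a subsequence of `T_n` converges to `T` with `‖T u‖ ≥ (c₀/C) ‖u‖`, so `detT T ≠ 0`, and
`F x (T u) = lim F x_n (T_n u) = F x₀ u` (joint continuity). `U` is convex, hence preconnected, so `W = U`.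
All `F x`, `x ∈ U`, are `Nice`; `F_lip` applies at every point.
-/

namespace Pool.Agent.L1de93c

open MeasureTheory Metric Set Filter
open scoped Topology

theorem CON_detT_comp (S T : V →L[ℝ] V) : detT (S.comp T) = detT S * detT T := dt_map S _ _

theorem CON_inv {T : V →L[ℝ] V} (hT : detT T ≠ 0) : ∃ S : V →L[ℝ] V, ∀ z, T (S z) = z := by
  let S : V →L[ℝ] V := (detT T)⁻¹ • (((T (0, 1)).2 • ContinuousLinearMap.fst ℝ ℝ ℝ -
      (T (0, 1)).1 • ContinuousLinearMap.snd ℝ ℝ ℝ).smulRight ((1, 0) : V) +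
    ((T (1, 0)).1 • ContinuousLinearMap.snd ℝ ℝ ℝ -
      (T (1, 0)).2 • ContinuousLinearMap.fst ℝ ℝ ℝ).smulRight ((0, 1) : V))
  have hS : ∀ z, S z = (detT T)⁻¹ • (dt z (T (0, 1)) • ((1, 0) : V) +
      dt (T (1, 0)) z • ((0, 1) : V)) := by
    intro z
    have e1 : dt z (T (0, 1)) = (T (0, 1)).2 * z.1 - (T (0, 1)).1 * z.2 := by
      unfold dt
      ring
    have e2 : dt (T (1, 0)) z = (T (1, 0)).1 * z.2 - (T (1, 0)).2 * z.1 := by
      unfold dt
      ring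
    rw [e1, e2]
    rfl
  refine ⟨S, fun z => ?_⟩
  rw [hS, map_smul, map_add, map_smul, map_smul, ← expand, smul_smul]
  have h : (detT T)⁻¹ * dt (T (1, 0)) (T (0, 1)) = 1 := inv_mul_cancel₀ hT
  rw [h, one_smul]

theorem CON_detT_ne {T : V →L[ℝ] V} (hT : ∀ u, T u = 0 → u = 0) : detT T ≠ 0 := by
  intro hd
  have hlin : ∀ a b : ℝ, T (a, b) = a • T (1, 0) + b • T (0, 1) := by
    intro a b
    have := vec_eq ((a, b) : V)
    conv_lhs => rw [this]
    rw [map_add, map_smul, map_smul]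
  have hd' : (T (1, 0)).1 * (T (0, 1)).2 - (T (1, 0)).2 * (T (0, 1)).1 = 0 := hd
  have h1 : (((T (0, 1)).1, -(T (1, 0)).1) : V) = 0 := by
    apply hT
    rw [hlin]
    ext
    · simp only [Prod.fst_add, Prod.smul_fst, smul_eq_mul, Prod.fst_zero]
      ring
    · simp only [Prod.snd_add, Prod.smul_snd, smul_eq_mul, Prod.snd_zero]
      linarith
  have h2 : (((T (0, 1)).2, -(T (1, 0)).2) : V) = 0 := by
    apply hT
    rw [hlin]
    ext
    · simp only [Prod.fst_add, Prod.smul_fst, smul_eq_mul, Prod.fst_zero]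
      linarith
    · simp only [Prod.snd_add, Prod.smul_snd, smul_eq_mul, Prod.snd_zero]
      ring
  have h3 : T (1, 0) = 0 := by
    ext
    · have := congrArg Prod.snd h1
      simp only [Prod.snd_zero, neg_eq_zero] at this
      exact this
    · have := congrArg Prod.snd h2
      simp only [Prod.snd_zero, neg_eq_zero] at this
      exact this
  have h4 := congrArg Prod.fst (hT _ h3)
  simp at h4

theorem CON_nice {U : Set V} {F : V → V → ℝ} (h : RP U F) {x₀ x : V} (hx : x ∈ U)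
    (h₀ : Nice (F x₀)) {T : V →L[ℝ] V} (hT : detT T ≠ 0) (hF : ∀ u, F x (T u) = F x₀ u) :
    Nice (F x) := by
  obtain ⟨S, hS⟩ := CON_inv hT
  have h1 : F x = fun z => F x₀ (S z) := by
    funext z
    rw [← hF, hS]
  refine ⟨h.norm x hx, fun u hu => ?_, h.sb x hx⟩
  rw [h1]
  have hSu : S u ≠ 0 := by
    intro h2
    apply hu
    rw [← hS u, h2, map_zero]
  exact (h₀.diff _ hSu).comp u S.differentiableAt

theorem CON_exists {U : Set V} {F : V → V → ℝ} (h : RP U F)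
    (hstrict : ∀ A ∈ U, ∀ B ∈ U, ∀ C ∈ U, DD F A B + DD F B C = DD F A C → B ∈ segment ℝ A C)
    (hne : U.Nonempty) : ∃ x₀ ∈ U, Nice (F x₀) := by
  by_contra hcon
  have hnd : ∀ x ∈ U, ¬ ∀ u, u ≠ 0 → DifferentiableAt ℝ (F x) u := fun x hx hd =>
    hcon ⟨x, hx, h.norm x hx, hd, h.sb x hx⟩
  obtain ⟨p, q, x, r, hpq, hr, hU, hs⟩ := exists_sector_ball h hne hnd
  exact no_flat_sector h.toHP hstrict hpq hr hU hs

/-- The set of the points with norm equivalent to that of `x₀`. -/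
def CON_W (U : Set V) (F : V → V → ℝ) (x₀ : V) : Set V :=
  {x | x ∈ U ∧ ∃ T : V →L[ℝ] V, detT T ≠ 0 ∧ ∀ u, F x (T u) = F x₀ u}

theorem CON_open {U : Set V} {F : V → V → ℝ} (h : RP U F) {x₀ : V} (h₀ : Nice (F x₀)) :
    IsOpen (CON_W U F x₀) := by
  rw [isOpen_iff_mem_nhds]
  rintro x ⟨hx, T, hT, hF⟩
  have hn := CON_nice h hx h₀ hT hF
  obtain ⟨C, hC, r₀, hr₀, hU, hT'⟩ := trel h hx hn
  obtain ⟨r₁, hr₁, hch⟩ := chain h.toHP hC hr₀ hU hT'
  filter_upwards [closedBall_mem_nhds x hr₁, h.isOpen.mem_nhds hx] with x' hx' hxU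
  obtain ⟨S, hS, hFS⟩ := hch x' hx'
  refine ⟨hxU, S.comp T, ?_, fun u => ?_⟩
  · rw [CON_detT_comp]
    exact mul_ne_zero hS hT
  · rw [ContinuousLinearMap.comp_apply, hFS, hF]

theorem CON_closed {U : Set V} {F : V → V → ℝ} (h : RP U F) {x₀ : V} (hx₀ : x₀ ∈ U) :
    closure (CON_W U F x₀) ∩ U ⊆ CON_W U F x₀ := by
  rintro x ⟨hcl, hx⟩
  obtain ⟨ρ, hρ, hρU⟩ := Metric.nhds_basis_closedBall.mem_iff.1 (h.isOpen.mem_nhds hx)
  obtain ⟨c, hc, C, hC, hb⟩ := h.toHP.bounds (isCompact_closedBall x ρ) hρU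
  obtain ⟨c₀, hc₀, C₀, hC₀, hb₀⟩ := h.toHP.bounds (isCompact_singleton (x := x₀))
    (singleton_subset_iff.2 hx₀)
  obtain ⟨y, hyW, hy⟩ := mem_closure_iff_seq_limit.1 hcl
  choose T hT hFT using fun n => (hyW n).2
  have hev : ∀ᶠ n in atTop, y n ∈ closedBall x ρ := hy (closedBall_mem_nhds x hρ)
  have hTb : ∀ᶠ n in atTop, T n ∈ closedBall (0 : V →L[ℝ] V) (C₀ / c) := by
    filter_upwards [hev] with n hn
    rw [mem_closedBall_zero_iff]
    refine ContinuousLinearMap.opNorm_le_bound _ (by positivity) fun u => ?_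
    have h1 := (hb (y n) hn (T n u)).1
    rw [hFT n u] at h1
    have h2 := (hb₀ x₀ rfl u).2
    rw [div_mul_eq_mul_div, le_div_iff₀ hc]
    linarith
  obtain ⟨n₀, hn₀⟩ := eventually_atTop.1 hTb
  have : ProperSpace (V →L[ℝ] V) := FiniteDimensional.proper_real (V →L[ℝ] V)
  obtain ⟨S, -, φ, hφ, hS⟩ := (isCompact_closedBall (0 : V →L[ℝ] V) (C₀ / c)).tendsto_subseq
    (x := fun n => T (n + n₀)) (fun n => hn₀ _ (by omega))
  have hyφ : Tendsto (fun n => y (φ n + n₀)) atTop (𝓝 x) :=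
    hy.comp (tendsto_atTop_mono (fun n => Nat.le_add_right _ _) hφ.tendsto_atTop)
  have hFS : ∀ u, F x (S u) = F x₀ u := by
    intro u
    have h1 : Tendsto (fun n => T (φ n + n₀) u) atTop (𝓝 (S u)) :=
      ((ContinuousLinearMap.apply ℝ V u).continuous.tendsto S).comp hS
    have h2 : Tendsto (fun n => F (y (φ n + n₀)) (T (φ n + n₀) u)) atTop (𝓝 (F x (S u))) :=
      (h.toHP.continuousAt hx (S u)).tendsto.comp (hyφ.prodMk_nhds h1)
    have h3 : (fun n => F (y (φ n + n₀)) (T (φ n + n₀) u)) = fun _ => F x₀ u :=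
      funext fun n => hFT _ u
    rw [h3] at h2
    exact (tendsto_nhds_unique h2 tendsto_const_nhds)
  refine ⟨hx, S, CON_detT_ne fun u hu => ?_, hFS⟩
  by_contra hne
  have h1 := hFS u
  rw [hu, (h.norm x hx).zero] at h1
  exact absurd h1 ((h.norm x₀ hx₀).pos u hne).ne

/-- CON -/
theorem all_nice {U : Set V} {F : V → V → ℝ} (h : RP U F)
    (hstrict : ∀ A ∈ U, ∀ B ∈ U, ∀ C ∈ U, DD F A B + DD F B C = DD F A C → B ∈ segment ℝ A C)
    {x : V} (hx : x ∈ U) : Nice (F x) := by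
  obtain ⟨x₀, hx₀, h₀⟩ := CON_exists h hstrict ⟨x, hx⟩
  have hmem : x₀ ∈ CON_W U F x₀ := ⟨hx₀, ContinuousLinearMap.id ℝ V, by simp [detT, dt],
    fun u => rfl⟩
  have hsub : U ⊆ CON_W U F x₀ :=
    h.convex.isPreconnected.subset_of_closure_inter_subset (CON_open h h₀) ⟨x₀, hx₀, hmem⟩
      (CON_closed h hx₀)
  obtain ⟨-, T, hT, hF⟩ := hsub hx
  exact CON_nice h hx h₀ hT hF

end Pool.Agent.L1de93c
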