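import Pool.Agent.Lib_MP_1de93e_cont.PjP
import Pool.Agent.Lib_MP_1de93e_cont.MoB

/-!
# PIECE DE1: initial smallness of the oscillation

## DE1 `good_init`: with `l = 0` (`pull_zero`) and `mo_le_of_sup`: continuity of `F` (uniformly on the
compact `closedBall x₀ ρ × {‖u‖ = 1}`) and of `lc F` at `x₀`.
-/

namespace Pool.Agent.L1de93c

open MeasureTheory Metric Set

/-- DE1 -/
theorem good_init {U : Set V} {F : V → V → ℝ} (h : RP U F) {x₀ : V} (hx₀ : x₀ ∈ U) {θ : ℝ}
    (hθ : 0 < θ) : ∃ r₁ > 0, closedBall x₀ (2 * r₁) ⊆ U ∧ ∀ x ∈ closedBall x₀ r₁, ∀ r, 0 < r →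
      r ≤ r₁ → OB F x r θ := by
  have hU : U ∈ nhds x₀ := h.isOpen.mem_nhds hx₀
  have h1 : ∀ᶠ x in nhds x₀, ∀ u ∈ sphere (0 : V) 1, |F x u - F x₀ u| ≤ θ / 2 := by
    refine (isCompact_sphere (0 : V) 1).eventually_forall_of_forall_eventually
      (P := fun x u => |F x u - F x₀ u| ≤ θ / 2) fun u _ => ?_
    have h2 : ContinuousAt (fun p : V × V => F p.1 p.2) (x₀, u) := h.toHP.continuousAt hx₀ u
    have h3 : ContinuousAt (fun p : V × V => F x₀ p.2) (x₀, u) := by
      have h5 : ContinuousAt (fun p : V × V => F p.1 p.2) ((fun p : V × V => (x₀, p.2)) (x₀, u)) :=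
        h2
      exact ContinuousAt.comp (f := fun p : V × V => ((x₀, p.2) : V × V)) h5 (by fun_prop)
    have h4 : ContinuousAt (fun p : V × V => |F p.1 p.2 - F x₀ p.2|) (x₀, u) := (h2.sub h3).abs
    have h6 : |F x₀ u - F x₀ u| < θ / 2 := by
      rw [sub_self, abs_zero]
      linarith
    exact (h4.eventually_lt continuousAt_const h6).mono fun p hp => hp.le
  have h2 : ∀ᶠ x in nhds x₀, |lc F x - lc F x₀| ≤ θ / 2 := by
    have h3 : ContinuousAt (lc F) x₀ := (lc_continuousOn h.toHP).continuousAt hU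
    have h4 : ContinuousAt (fun x => |lc F x - lc F x₀|) x₀ := (h3.sub continuousAt_const).abs
    have h6 : |lc F x₀ - lc F x₀| < θ / 2 := by
      rw [sub_self, abs_zero]
      linarith
    exact (h4.eventually_lt continuousAt_const h6).mono fun p hp => hp.le
  obtain ⟨ε, hε, hb⟩ := Metric.eventually_nhds_iff_ball.mp (h1.and (h2.and hU))
  have hsub : closedBall x₀ (2 * (ε / 3)) ⊆ ball x₀ ε := closedBall_subset_ball (by linarith)
  refine ⟨ε / 3, by positivity, fun y hy => (hb y (hsub hy)).2.2, fun x hx r hr hr1 => ?_⟩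
  have hs : closedBall x r ⊆ closedBall x₀ (2 * (ε / 3)) := by
    refine closedBall_subset_closedBall' ?_
    have := mem_closedBall.mp hx
    linarith
  have hsU : closedBall x r ⊆ U := fun y hy => (hb y (hsub (hs hy))).2.2
  refine ⟨fun u hu => ?_, ?_⟩
  · have := mo_le_of_sup (h := fun y => F y u) (c := F x₀ u) (ε := θ / 2) hr.le
      ((h.toHP.continuousOn_left u).mono hsU)
      (fun y hy => (hb y (hsub (hs hy))).1 u (mem_sphere_zero_iff_norm.mpr hu))
    linarith
  · have := mo_le_of_sup (h := lc F) (c := lc F x₀) (ε := θ / 2) hr.le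
      ((lc_continuousOn h.toHP).mono hsU) (fun y hy => (hb y (hsub (hs hy))).2.1)
    linarith

end Pool.Agent.L1de93c
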