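import Pool.Agent.Lib_MP_1de93e_cont.Tay1

/-!
# PIECE TAY2: Taylor and quadratic polynomials

## TAY2 `taylor2`: if all third derivatives are `≤ ς` on `closedBall 0 s`, `s ≤ 1`, then `G` differs from
its second Taylor polynomial at `0` by at most `C ς` and the gradients by at most `C ς` on the ball.
`quad_coeff`: for a quadratic polynomial `P` the coefficients are bounded by `C ∫_{closedBall 0 (1/8)} |P|`
(moments: multiply `P` by `1`, `y_i`, `y₁ y₂`, `y_i² - s²/3` with `s = 1/8` and integrate; or finite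
dimensionality of the space of quadratic polynomials).
-/

namespace Pool.Agent.L1de93c

open MeasureTheory Metric Set
open scoped ContDiff

theorem TAY2_seg {H : V → ℝ} (hH : ContDiff ℝ ∞ H) {y : V} {φ φ' : ℝ → ℝ} {K : ℝ}
    (hφ : ∀ t, HasDerivAt φ (φ' t) t)
    (hK : ∀ t, 0 ≤ t → t ≤ 1 → |Dv y H (t • y) - φ' t| ≤ K) :
    |(H y - φ 1) - (H 0 - φ 0)| ≤ K := by
  have hd : ∀ t : ℝ, HasDerivAt (fun t : ℝ => H (t • y) - φ t) (Dv y H (t • y) - φ' t) t := by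
    intro t
    have h1 : HasFDerivAt H (fderiv ℝ H (t • y)) (t • y) :=
      (hH.differentiable (by norm_num) (t • y)).hasFDerivAt
    have h2 : HasDerivAt (fun t : ℝ => t • y) ((1 : ℝ) • y) t := (hasDerivAt_id t).smul_const y
    rw [one_smul] at h2
    exact (h1.comp_hasDerivAt t h2).sub (hφ t)
  have h3 := norm_image_sub_le_of_norm_deriv_le_segment_01' (f := fun t : ℝ => H (t • y) - φ t)
    (C := K) (fun t _ => (hd t).hasDerivWithinAt) (fun t ht => hK t ht.1 ht.2.le)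
  simp only [one_smul, zero_smul] at h3
  exact h3

theorem TAY2_lin {f : V → ℝ} (x z : V) :
    fderiv ℝ f x z = z.1 * fderiv ℝ f x (1, 0) + z.2 * fderiv ℝ f x (0, 1) := by
  conv_lhs => rw [vec_eq z]
  rw [map_add, map_smul, map_smul, smul_eq_mul, smul_eq_mul]

theorem TAY2_Dv_expand {G : V → ℝ} (_hG : ContDiff ℝ ∞ G) (v : V) :
    Dv v G = fun x => v.1 * Dv (1, 0) G x + v.2 * Dv (0, 1) G x := by
  funext x
  exact TAY2_lin x v

theorem TAY2_Dv2 {G : V → ℝ} (hG : ContDiff ℝ ∞ G) (y v : V) : Dv y (Dv v G) 0 =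
    Dv (1, 0) (Dv (1, 0) G) 0 * (y.1 * v.1) + Dv (1, 0) (Dv (0, 1) G) 0 * (y.1 * v.2 + y.2 * v.1) +
      Dv (0, 1) (Dv (0, 1) G) 0 * (y.2 * v.2) := by
  have h1 : ∀ a x : V, DifferentiableAt ℝ (Dv a G) x := fun a x =>
    (Dv_contDiff hG a).differentiable (by norm_num) x
  have h2 : ∀ w : V, Dv w (Dv v G) 0 = v.1 * Dv w (Dv (1, 0) G) 0 + v.2 * Dv w (Dv (0, 1) G) 0 := by
    intro w
    rw [TAY2_Dv_expand hG v]
    have h3 : HasFDerivAt (fun x => v.1 * Dv (1, 0) G x + v.2 * Dv (0, 1) G x)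
        (v.1 • fderiv ℝ (Dv (1, 0) G) 0 + v.2 • fderiv ℝ (Dv (0, 1) G) 0) 0 :=
      ((h1 (1, 0) 0).hasFDerivAt.const_mul v.1).add ((h1 (0, 1) 0).hasFDerivAt.const_mul v.2)
    show fderiv ℝ _ 0 w = _
    rw [h3.fderiv]
    rfl
  have h4 : Dv (0, 1) (Dv (1, 0) G) = Dv (1, 0) (Dv (0, 1) G) := Dv_comm hG _ _
  have h5 : Dv y (Dv v G) 0 = y.1 * Dv (1, 0) (Dv v G) 0 + y.2 * Dv (0, 1) (Dv v G) 0 :=
    TAY2_lin 0 y
  rw [h5, h2, h2, h4]
  ring

/-- TAY2 -/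
theorem taylor2 : ∃ C > 0, ∀ (G : V → ℝ) (s ς : ℝ), ContDiff ℝ ∞ G → 0 ≤ ς → 0 < s → s ≤ 1 →
    (∀ x ∈ closedBall (0 : V) s, ∀ a b c : V, |Dv a (Dv b (Dv c G)) x| ≤ ς * ‖a‖ * ‖b‖ * ‖c‖) →
    ∃ (g : ℝ) (l : V) (q₁ q₂ q₃ : ℝ), ∀ y ∈ closedBall (0 : V) s,
      |G y - (g + dot l y + (q₁ * y.1 ^ 2 + q₂ * (y.1 * y.2) + q₃ * y.2 ^ 2))| ≤ C * ς ∧
      ∀ v, |fderiv ℝ G y v - (dot l v + (2 * q₁ * y.1 * v.1 + q₂ * (y.1 * v.2 + y.2 * v.1) +
        2 * q₃ * y.2 * v.2))| ≤ C * ς * ‖v‖ := by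
  refine ⟨1, one_pos, fun G s ς hG hς hs hs1 hb => ?_⟩
  refine ⟨G 0, (Dv (1, 0) G 0, Dv (0, 1) G 0), Dv (1, 0) (Dv (1, 0) G) 0 / 2,
    Dv (1, 0) (Dv (0, 1) G) 0, Dv (0, 1) (Dv (0, 1) G) 0 / 2, ?_⟩
  have hmem : ∀ y ∈ closedBall (0 : V) s, ∀ t : ℝ, 0 ≤ t → t ≤ 1 → t • y ∈ closedBall (0 : V) s := by
    intro y hy t ht ht1
    rw [mem_closedBall_zero_iff] at hy ⊢
    rw [norm_smul, Real.norm_of_nonneg ht]
    nlinarith [norm_nonneg y]
  -- second derivatives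
  have h1 : ∀ y ∈ closedBall (0 : V) s, ∀ w v : V,
      |Dv w (Dv v G) y - Dv w (Dv v G) 0| ≤ ς * ‖w‖ * ‖v‖ := by
    intro y hy w v
    have hy1 : ‖y‖ ≤ 1 := (mem_closedBall_zero_iff.1 hy).trans hs1
    have h2 := TAY2_seg (Dv_contDiff (Dv_contDiff hG v) w) (y := y) (φ := fun _ => 0)
      (φ' := fun _ => 0) (K := ς * ‖w‖ * ‖v‖) (fun t => hasDerivAt_const t 0) (fun t ht ht1 => by
        rw [sub_zero]
        refine (hb _ (hmem y hy t ht ht1) y w v).trans ?_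
        have h3 : 0 ≤ ς * ‖w‖ * ‖v‖ := by positivity
        calc ς * ‖y‖ * ‖w‖ * ‖v‖ = ‖y‖ * (ς * ‖w‖ * ‖v‖) := by ring
          _ ≤ 1 * (ς * ‖w‖ * ‖v‖) := mul_le_mul_of_nonneg_right hy1 h3
          _ = ς * ‖w‖ * ‖v‖ := one_mul _)
    simpa using h2
  -- first derivatives
  have h2 : ∀ y ∈ closedBall (0 : V) s, ∀ v : V,
      |Dv v G y - (Dv v G 0 + Dv y (Dv v G) 0)| ≤ ς * ‖v‖ := by
    intro y hy v
    have hy1 : ‖y‖ ≤ 1 := (mem_closedBall_zero_iff.1 hy).trans hs1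
    have h3 := TAY2_seg (Dv_contDiff hG v) (y := y) (φ := fun t => t * Dv y (Dv v G) 0)
      (φ' := fun _ => Dv y (Dv v G) 0) (K := ς * ‖v‖)
      (fun t => by simpa using (hasDerivAt_id t).mul_const (Dv y (Dv v G) 0)) (fun t ht ht1 => by
        refine (h1 _ (hmem y hy t ht ht1) y v).trans ?_
        have h3 : 0 ≤ ς * ‖v‖ := by positivity
        calc ς * ‖y‖ * ‖v‖ = ‖y‖ * (ς * ‖v‖) := by ring
          _ ≤ 1 * (ς * ‖v‖) := mul_le_mul_of_nonneg_right hy1 h3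
          _ = ς * ‖v‖ := one_mul _)
    have h4 : Dv v G y - (Dv v G 0 + Dv y (Dv v G) 0) =
        (Dv v G y - 1 * Dv y (Dv v G) 0) - (Dv v G 0 - 0 * Dv y (Dv v G) 0) := by ring
    rw [h4]
    exact h3
  have hgrad : ∀ y ∈ closedBall (0 : V) s, ∀ v : V, |fderiv ℝ G y v -
      (dot (Dv (1, 0) G 0, Dv (0, 1) G 0) v + (2 * (Dv (1, 0) (Dv (1, 0) G) 0 / 2) * y.1 * v.1 +
        Dv (1, 0) (Dv (0, 1) G) 0 * (y.1 * v.2 + y.2 * v.1) +
        2 * (Dv (0, 1) (Dv (0, 1) G) 0 / 2) * y.2 * v.2))| ≤ ς * ‖v‖ := by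
    intro y hy v
    have h3 := h2 y hy v
    have h4 : Dv v G 0 = dot (Dv (1, 0) G 0, Dv (0, 1) G 0) v := by
      rw [TAY2_Dv_expand hG v]
      simp only [dot]
      ring
    rw [TAY2_Dv2 hG y v, h4] at h3
    have h5 : Dv v G y = fderiv ℝ G y v := rfl
    rw [h5] at h3
    refine le_trans (le_of_eq ?_) h3
    congr 1
    ring
  intro y hy
  have hy1 : ‖y‖ ≤ 1 := (mem_closedBall_zero_iff.1 hy).trans hs1
  refine ⟨?_, fun v => by rw [one_mul]; exact hgrad y hy v⟩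
  set l : V := (Dv (1, 0) G 0, Dv (0, 1) G 0) with hl
  set q₁ := Dv (1, 0) (Dv (1, 0) G) 0 / 2 with hq₁
  set q₂ := Dv (1, 0) (Dv (0, 1) G) 0 with hq₂
  set q₃ := Dv (0, 1) (Dv (0, 1) G) 0 / 2 with hq₃
  set Q := q₁ * y.1 ^ 2 + q₂ * (y.1 * y.2) + q₃ * y.2 ^ 2 with hQ
  have h3 := TAY2_seg hG (y := y) (φ := fun t => t * dot l y + t ^ 2 * Q)
    (φ' := fun t => dot l y + 2 * t * Q) (K := ς)
    (fun t => by
      have h4 : HasDerivAt (fun t : ℝ => t * dot l y) (dot l y) t := by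
        simpa using (hasDerivAt_id t).mul_const (dot l y)
      have h5 : HasDerivAt (fun t : ℝ => t ^ 2 * Q) (2 * t * Q) t := by
        simpa using (hasDerivAt_pow 2 t).mul_const Q
      exact h4.add h5) (fun t ht ht1 => by
      have h6 := hgrad _ (hmem y hy t ht ht1) y
      have h7 : ς * ‖y‖ ≤ ς := by nlinarith
      refine le_trans (le_of_eq ?_) (h6.trans h7)
      show |fderiv ℝ G (t • y) y - (dot l y + 2 * t * Q)| = _
      congr 1
      simp only [Prod.smul_fst, Prod.smul_snd, smul_eq_mul, hQ]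
      ring)
  rw [one_mul]
  refine le_trans (le_of_eq ?_) h3
  congr 1
  simp only [hQ]
  ring

/-- The quadratic polynomial with the given coefficients. -/
def TAY2_P (c : ℝ × V × ℝ × ℝ × ℝ) (y : V) : ℝ :=
  c.1 + dot c.2.1 y + (c.2.2.1 * y.1 ^ 2 + c.2.2.2.1 * (y.1 * y.2) + c.2.2.2.2 * y.2 ^ 2)

theorem TAY2_P_smul (a : ℝ) (c : ℝ × V × ℝ × ℝ × ℝ) (y : V) :
    TAY2_P (a • c) y = a * TAY2_P c y := by
  simp only [TAY2_P, dot, Prod.smul_fst, Prod.smul_snd, smul_eq_mul]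
  ring

theorem TAY2_P_zero {c : ℝ × V × ℝ × ℝ × ℝ} (h : ∀ y ∈ ball (0 : V) (1 / 8), TAY2_P c y = 0) :
    c = 0 := by
  have hm : ∀ a b : ℝ, |a| ≤ 1 / 16 → |b| ≤ 1 / 16 → TAY2_P c (a, b) = 0 := by
    intro a b ha hb
    apply h
    rw [mem_ball_zero_iff, Prod.norm_def, Real.norm_eq_abs, Real.norm_eq_abs]
    exact (max_le ha hb).trans_lt (by norm_num)
  obtain ⟨g, l, q₁, q₂, q₃⟩ := c
  have e0 := hm 0 0 (by norm_num) (by norm_num)
  have e1 := hm (1 / 16) 0 (by norm_num [abs_of_pos]) (by norm_num)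
  have e2 := hm (-(1 / 16)) 0 (by norm_num [abs_of_pos]) (by norm_num)
  have e3 := hm 0 (1 / 16) (by norm_num) (by norm_num [abs_of_pos])
  have e4 := hm 0 (-(1 / 16)) (by norm_num) (by norm_num [abs_of_pos])
  have e5 := hm (1 / 16) (1 / 16) (by norm_num [abs_of_pos]) (by norm_num [abs_of_pos])
  simp only [TAY2_P, dot] at e0 e1 e2 e3 e4 e5
  have hg : g = 0 := by linarith
  have hl1 : l.1 = 0 := by linarith
  have hl2 : l.2 = 0 := by linarith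
  have hq1 : q₁ = 0 := by linarith
  have hq3 : q₃ = 0 := by linarith
  have hq2 : q₂ = 0 := by
    rw [hg, hl1, hl2, hq1, hq3] at e5
    linarith
  rw [hg, hq1, hq2, hq3, show l = 0 from Prod.ext hl1 hl2]
  rfl

/-- TAY2 -/
theorem quad_coeff : ∃ C > 0, ∀ (g : ℝ) (l : V) (q₁ q₂ q₃ : ℝ),
    |g| ≤ C * (∫ y in closedBall (0 : V) (1 / 8),
        |g + dot l y + (q₁ * y.1 ^ 2 + q₂ * (y.1 * y.2) + q₃ * y.2 ^ 2)|) ∧
    ‖l‖ ≤ C * (∫ y in closedBall (0 : V) (1 / 8),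
        |g + dot l y + (q₁ * y.1 ^ 2 + q₂ * (y.1 * y.2) + q₃ * y.2 ^ 2)|) ∧
    |q₁| ≤ C * (∫ y in closedBall (0 : V) (1 / 8),
        |g + dot l y + (q₁ * y.1 ^ 2 + q₂ * (y.1 * y.2) + q₃ * y.2 ^ 2)|) ∧
    |q₂| ≤ C * (∫ y in closedBall (0 : V) (1 / 8),
        |g + dot l y + (q₁ * y.1 ^ 2 + q₂ * (y.1 * y.2) + q₃ * y.2 ^ 2)|) ∧
    |q₃| ≤ C * (∫ y in closedBall (0 : V) (1 / 8),
        |g + dot l y + (q₁ * y.1 ^ 2 + q₂ * (y.1 * y.2) + q₃ * y.2 ^ 2)|) := by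
  have hPc : Continuous (Function.uncurry fun (c : ℝ × V × ℝ × ℝ × ℝ) (y : V) => |TAY2_P c y|) := by
    unfold Function.uncurry TAY2_P dot
    fun_prop
  set N : (ℝ × V × ℝ × ℝ × ℝ) → ℝ := fun c => ∫ y in closedBall (0 : V) (1 / 8), |TAY2_P c y|
    with hN
  have hNc : Continuous N :=
    continuous_parametric_integral_of_continuous hPc (isCompact_closedBall (0 : V) (1 / 8))
  have hNs : ∀ (a : ℝ) c, N (a • c) = |a| * N c := by
    intro a c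
    simp only [hN, TAY2_P_smul, abs_mul]
    exact integral_const_mul _ _
  have hN0 : ∀ c, 0 ≤ N c := fun c => integral_nonneg fun y => abs_nonneg _
  have hcy : ∀ c, Continuous fun y => |TAY2_P c y| := fun c =>
    hPc.comp (Continuous.prodMk_right c)
  have hNp : ∀ c, c ≠ 0 → 0 < N c := by
    intro c hc
    refine lt_of_le_of_ne (hN0 c) fun h0 => hc ?_
    have hint : IntegrableOn (fun y => |TAY2_P c y|) (closedBall (0 : V) (1 / 8)) :=
      (hcy c).continuousOn.integrableOn_compact (isCompact_closedBall _ _)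
    have h1 := (integral_eq_zero_iff_of_nonneg_ae
      (ae_of_all _ fun y => abs_nonneg (TAY2_P c y)) hint).1 h0.symm
    have h2 : (fun y => |TAY2_P c y|) =ᵐ[volume.restrict (ball (0 : V) (1 / 8))] 0 :=
      ae_restrict_of_ae_restrict_of_subset ball_subset_closedBall h1
    have h3 := Measure.eqOn_open_of_ae_eq h2 isOpen_ball (hcy c).continuousOn
      continuous_const.continuousOn
    refine TAY2_P_zero fun y hy => ?_
    have h4 := h3 hy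
    simpa using h4
  have hK : IsCompact (sphere (0 : ℝ × V × ℝ × ℝ × ℝ) 1) := isCompact_sphere 0 1
  have hne : (sphere (0 : ℝ × V × ℝ × ℝ × ℝ) 1).Nonempty := ⟨(1, 0), by simp [Prod.norm_def]⟩
  obtain ⟨c₀, hc₀, hmin⟩ := hK.exists_isMinOn hne hNc.continuousOn
  have hc0 : c₀ ≠ 0 := by
    rintro rfl
    simp at hc₀
  have hm := hNp c₀ hc0
  have hlow : ∀ c, ‖c‖ ≤ (N c₀)⁻¹ * N c := by
    intro c
    by_cases hc : c = 0
    · rw [hc, norm_zero]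
      exact mul_nonneg (inv_nonneg.2 hm.le) (hN0 _)
    have hn : 0 < ‖c‖ := norm_pos_iff.mpr hc
    have h1 : ‖c‖⁻¹ • c ∈ sphere (0 : ℝ × V × ℝ × ℝ × ℝ) 1 := by
      rw [mem_sphere_zero_iff_norm, norm_smul, norm_inv, norm_norm, inv_mul_cancel₀ hn.ne']
    have h2 : N c₀ ≤ N (‖c‖⁻¹ • c) := hmin h1
    rw [hNs, abs_of_pos (inv_pos.2 hn), le_inv_mul_iff₀ hn] at h2
    rw [le_inv_mul_iff₀ hm]
    linarith
  refine ⟨(N c₀)⁻¹, inv_pos.2 hm, fun g l q₁ q₂ q₃ => ?_⟩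
  have h := hlow (g, l, q₁, q₂, q₃)
  have h1 := norm_fst_le (g, l, q₁, q₂, q₃)
  have h2 := norm_snd_le (g, l, q₁, q₂, q₃)
  have h3 := norm_fst_le (l, q₁, q₂, q₃)
  have h4 := norm_snd_le (l, q₁, q₂, q₃)
  have h5 := norm_fst_le (q₁, q₂, q₃)
  have h6 := norm_snd_le (q₁, q₂, q₃)
  have h7 := norm_fst_le (q₂, q₃)
  have h8 := norm_snd_le (q₂, q₃)
  simp only [Real.norm_eq_abs] at h1 h5 h7 h8
  exact ⟨h1.trans h, (h3.trans h2).trans h, ((h5.trans h4).trans h2).trans h,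
    (((h7.trans h6).trans h4).trans h2).trans h, (((h8.trans h6).trans h4).trans h2).trans h⟩

end Pool.Agent.L1de93c
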