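import Pool.Agent.Lib_MP_1de93e_cont.NiceB

/-!
# PIECE TWO: two pairs of conjugate directions

Take any unit `u₁`, `w₁ = cj u₁`, and a unit `u₂` with `dt u₂ u₁ ≠ 0`, `dt u₂ w₁ ≠ 0`; `w₂ = cj u₂ ∥ u₁` would give
(`cj (a u) = ± cj u`, `cj_cj`) `u₂ ∥ cj w₂ ∥ w₁`, and `w₂ ∥ w₁` gives `u₂ ∥ cj w₂ ∥ cj w₁ ∥ u₁`.
-/

namespace Pool.Agent.L1de93c

open MeasureTheory Metric Set

private theorem two_par {a b : V} (ha : a ≠ 0) (h : dt a b = 0) : ∃ c : ℝ, b = c • a := by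
  unfold dt at h
  by_cases h1 : a.1 = 0
  · have h2 : a.2 ≠ 0 := fun h2 => ha (Prod.ext h1 h2)
    refine ⟨b.2 / a.2, Prod.ext ?_ ?_⟩
    · rw [h1, zero_mul, zero_sub, neg_eq_zero] at h
      show b.1 = b.2 / a.2 * a.1
      rcases mul_eq_zero.1 h with h3 | h3
      · exact absurd h3 h2
      · rw [h3, h1, mul_zero]
    · show b.2 = b.2 / a.2 * a.2
      field_simp
  · refine ⟨b.1 / a.1, Prod.ext ?_ ?_⟩
    · show b.1 = b.1 / a.1 * a.1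
      field_simp
    · show b.2 = b.1 / a.1 * a.2
      field_simp
      linarith

private theorem two_cj {N : V → ℝ} (h : Nice N) {c : ℝ} (hc : c ≠ 0) (u : V) :
    cj N (c • u) = cj N u ∨ cj N (c • u) = -cj N u := by
  rcases lt_or_gt_of_ne hc with h1 | h1
  · right
    have e : c • u = -((-c) • u) := by rw [neg_smul, neg_neg]
    rw [e, h.cj_neg, h.cj_smul_pos (by linarith)]
  · left
    exact h.cj_smul_pos h1 u

private theorem two_dt {N : V → ℝ} (h : Nice N) {a b : V} (ha : a ≠ 0) (hb : b ≠ 0)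
    (hab : dt a b = 0) : dt (cj N a) (cj N b) = 0 := by
  obtain ⟨c, rfl⟩ := two_par ha hab
  have hc : c ≠ 0 := by
    rintro rfl
    exact hb (zero_smul ℝ a)
  rcases two_cj h hc a with h1 | h1
  · rw [h1]
    unfold dt
    ring
  · rw [h1]
    unfold dt
    show (cj N a).1 * -(cj N a).2 - (cj N a).2 * -(cj N a).1 = 0
    ring

private theorem two_smul (k l : ℝ) (a b : V) : dt (k • a) (l • b) = k * l * dt a b := by
  unfold dt
  show k * a.1 * (l * b.2) - k * a.2 * (l * b.1) = k * l * (a.1 * b.2 - a.2 * b.1)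
  ring

/-- Two pairs of conjugate directions without common direction. -/
theorem exists_two_pairs {N₀ : V → ℝ} (h₀ : Nice N₀) :
    ∃ u₁ u₂ : V, ‖u₁‖ = 1 ∧ ‖u₂‖ = 1 ∧ dt u₁ u₂ ≠ 0 ∧ dt u₁ (cj N₀ u₁) ≠ 0 ∧
      dt u₁ (cj N₀ u₂) ≠ 0 ∧ dt (cj N₀ u₁) u₂ ≠ 0 ∧ dt (cj N₀ u₁) (cj N₀ u₂) ≠ 0 ∧
      dt u₂ (cj N₀ u₂) ≠ 0 := by
  obtain ⟨u₁, hu₁⟩ : ∃ u₁ : V, u₁ = (1, 0) := ⟨_, rfl⟩
  have hn1 : ‖u₁‖ = 1 := by rw [hu₁, Prod.norm_def]; simp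
  have h10 : u₁ ≠ 0 := by
    rintro h
    rw [h, norm_zero] at hn1
    exact zero_ne_one hn1
  have hd1 : dt u₁ (cj N₀ u₁) ≠ 0 := by
    rw [h₀.dt_cj h10]
    exact (h₀.pos u₁ h10).ne'
  obtain ⟨u₂, hn2, hd12, hdw⟩ : ∃ u₂ : V, ‖u₂‖ = 1 ∧ dt u₁ u₂ ≠ 0 ∧ dt (cj N₀ u₁) u₂ ≠ 0 := by
    by_cases ha : (cj N₀ u₁).1 = 0
    · refine ⟨(1, 1), ?_, ?_, ?_⟩
      · rw [Prod.norm_def]; simp
      · rw [hu₁]
        unfold dt
        norm_num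
      · have hb : (cj N₀ u₁).2 ≠ 0 := fun hb =>
          h₀.cj_ne_zero h10 (Prod.ext ha hb)
        unfold dt
        show (cj N₀ u₁).1 * 1 - (cj N₀ u₁).2 * 1 ≠ 0
        rw [ha]
        intro h
        apply hb
        linarith
    · refine ⟨(0, 1), ?_, ?_, ?_⟩
      · rw [Prod.norm_def]; simp
      · rw [hu₁]
        unfold dt
        norm_num
      · unfold dt
        show (cj N₀ u₁).1 * 1 - (cj N₀ u₁).2 * 0 ≠ 0
        intro h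
        apply ha
        linarith
  have h20 : u₂ ≠ 0 := by
    rintro h
    rw [h, norm_zero] at hn2
    exact zero_ne_one hn2
  have hd2 : dt u₂ (cj N₀ u₂) ≠ 0 := by
    rw [h₀.dt_cj h20]
    exact (h₀.pos u₂ h20).ne'
  have hrc : rc N₀ ≠ 0 := by
    rw [← h₀.N_cj h10]
    exact (h₀.pos _ (h₀.cj_ne_zero h10)).ne'
  have hk : ∀ u : V, u ≠ 0 → -(rc N₀ / N₀ u) ≠ 0 := fun u hu =>
    neg_ne_zero.2 (div_ne_zero hrc (h₀.pos u hu).ne')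
  refine ⟨u₁, u₂, hn1, hn2, hd12, hd1, ?_, hdw, ?_, hd2⟩
  · intro h
    have h1 := two_dt h₀ h10 (h₀.cj_ne_zero h20) h
    rw [h₀.cj_cj h20, ← one_smul ℝ (cj N₀ u₁), two_smul, one_mul] at h1
    exact (mul_ne_zero (hk u₂ h20) hdw) h1
  · intro h
    have h1 := two_dt h₀ (h₀.cj_ne_zero h10) (h₀.cj_ne_zero h20) h
    rw [h₀.cj_cj h20, h₀.cj_cj h10, two_smul] at h1
    exact (mul_ne_zero (mul_ne_zero (hk u₁ h10) (hk u₂ h20)) hd12) h1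

end Pool.Agent.L1de93c
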