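import Pool.Agent.Lib_MP_1de93e_cont.LCS
import Pool.Agent.Lib_MP_1de93e_cont.Tay2
import Pool.Agent.Lib_MP_1de93e_cont.TwoP
import Pool.Agent.Lib_MP_1de93e_cont.MoB

/-!
# PIECE LCA: approximate solutions of the linear system are almost projective

LCS is `lc_smooth` (the first three bullets and the estimate of `Dv j (Dv u (Dv w G))`), LCA is `lc_core`
(deduce it from `lc_smooth` applied with a small `ς`, `ς` plays the role of `D` and of `κ M`).

By linearity assume `Θ = 1` (divide `a`, `Γ` by `Θ`; or carry `Θ` along). Let `C` denote constants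
depending on `N₀` only. Given `τ, δ`, choose in this order `R` large, `ρ ≤ 1/16` small, `κ` small.
* `hf_all` and `tr`: for `‖h‖ ≤ ρ`, `∫_{closedBall 0 (3/16)} |g (y+h) - g y|² ≤ D²`,
  `D = C (κ + 1/R + R ρ)`, for `g = Γ` and `g = a u`.
* Let `k` be a kernel of radius `ρ` (`exists_kernel`), `G = mol k Γ`, `A = mol k (a u)`:
  `∫_{closedBall 0 (1/8)} |Γ - G| ≤ D`, `∫_{closedBall 0 (1/8)} |a u - A| ≤ D` (`mol_close`).
* `mol_contDiff`, `fderiv_mol` (iterated) and `mol_wk` applied to the kernels `k`, `Dv i k`,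
  `Dv i (Dv j k)` (`C^∞`, support of radius `ρ`) and to the functions `a u - (2/3) Γ`, `a u - (1/3) Γ` (`mol` is
  linear in `g`): on `closedBall 0 (1/8)` the functions `Dv u (A - (2/3) G)` and
  `Dv w (A - (1/3) G)`, `w = cj N₀ u`, and their first and second directional derivatives are at most
  `κ M` in absolute value, `M = M(ρ)` = maximum of the `L²` norms of the gradients of these kernels
  (times `‖w‖` etc.; `Dv` commute, `Dv_comm`; a general unit direction is a combination of the two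
  basis directions).
* `(1/3) Dv u (Dv w G) = Dv w (Dv u (A - (1/3) G)) - ...`: precisely
  `Dv w (Dv u (A - (2/3) G)) - Dv u (Dv w (A - (1/3) G)) = -(1/3) Dv u (Dv w G)`. So
  `|Dv j (Dv u (Dv w G))| ≤ C κ M` for every unit `j` and every unit `u`, in particular for the two
  pairs of `exists_two_pairs`; `third_small` and `taylor2` with `s = 1/8`:
  `G = P + O(C κ M)` on `closedBall 0 (1/8)`, also for the gradients, `P y = g + l y + q y`.
* `∫_{closedBall 0 (1/8)} |P| ≤ ∫ |G - Γ| + ∫ |Γ| + C κ M ≤ C` so `|l|, |q_i| ≤ C` (`quad_coeff`) when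
  `D + κ M ≤ 1`.
* Conclusion for `Γ`: with `b = g`, `(1/4) ∫_{closedBall 0 1} |Γ (τ y) - b - l (τ y)| ≤
  (1/(4 τ²)) ∫_{closedBall 0 τ} |Γ - G| + C κ M + C τ² ≤ D/(4 τ²) + C κ M + C τ²`.
* For `a u`: let `λ y = (1/3) (l y + l u * fderiv N₀ u y / N₀ u)`; `λ u = (2/3) l u` and `λ w = (1/3) l w`
  (`fderiv N₀ u u = N₀ u`, `fderiv N₀ u w = 0`). On `closedBall 0 τ`, `|fderiv G y v - l v| ≤ C (τ + κ M) ‖v‖`,
  so `|fderiv A y u - λ u|, |fderiv A y w - λ w| ≤ C (τ + κ M)`, hence `‖fderiv A y - λ‖ ≤ C (τ + κ M)`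
  (`dt u w = N₀ u ≥ c₀`), and `|A y - A 0 - λ y| ≤ C τ (τ + κ M)`. With `b = A 0` as before.
Finally choose `R` with `C/(R τ²) ≤ δ/8`, then `ρ` with `C R ρ/τ² ≤ δ/8`, then `κ`.
-/

namespace Pool.Agent.L1de93c

open MeasureTheory Metric Set
open scoped ContDiff

private theorem lca_int {f F P : V → ℝ} {τ ε₁ ε₂ : ℝ} (hτ : 0 < τ) (hτ8 : τ ≤ 1 / 8)
    (hf : ContinuousOn f (closedBall 0 (1 / 8))) (hF : Continuous F) (hP : Continuous P)
    (h1 : ∫ x in closedBall (0 : V) (1 / 8), |f x - F x| ≤ ε₁)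
    (h2 : ∀ x ∈ closedBall (0 : V) τ, |F x - P x| ≤ ε₂) :
    (1 / 4) * ∫ y in closedBall (0 : V) 1, |f (τ • y) - P (τ • y)| ≤ ε₁ / (4 * τ ^ 2) + ε₂ := by
  have hsub : closedBall (0 : V) τ ⊆ closedBall 0 (1 / 8) := closedBall_subset_closedBall hτ8
  have hc8 : IsCompact (closedBall (0 : V) (1 / 8)) := isCompact_closedBall _ _
  have hcτ : IsCompact (closedBall (0 : V) τ) := isCompact_closedBall _ _
  have e1 := integral_closedBall_scale hτ (0 : V) (fun x => |f x - P x|)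
  simp only [zero_add] at e1
  have i1 : IntegrableOn (fun x => |f x - F x|) (closedBall (0 : V) (1 / 8)) :=
    ((hf.sub hF.continuousOn).abs).integrableOn_compact hc8
  have i1' : IntegrableOn (fun x => |f x - F x|) (closedBall (0 : V) τ) := i1.mono_set hsub
  have i2 : IntegrableOn (fun x => |F x - P x|) (closedBall (0 : V) τ) :=
    ((hF.sub hP).abs).continuousOn.integrableOn_compact hcτ
  have i3 : IntegrableOn (fun x => |f x - P x|) (closedBall (0 : V) τ) :=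
    (((hf.mono hsub).sub hP.continuousOn).abs).integrableOn_compact hcτ
  have b1 : ∫ x in closedBall (0 : V) τ, |f x - F x| ≤ ε₁ := by
    refine le_trans ?_ h1
    exact setIntegral_mono_set i1 (Filter.Eventually.of_forall fun x => abs_nonneg _)
      (Filter.Eventually.of_forall hsub)
  have b2 : ∫ x in closedBall (0 : V) τ, |F x - P x| ≤ 4 * τ ^ 2 * ε₂ := by
    have := setIntegral_mono_on i2 (integrableOn_const (C := ε₂) (hs := by
      exact hcτ.measure_lt_top.ne)) measurableSet_closedBall h2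
    rw [setIntegral_const, smul_eq_mul] at this
    rw [← volume_closedBall_real (0 : V) hτ.le]
    exact this
  have b3 : ∫ x in closedBall (0 : V) τ, |f x - P x| ≤
      (∫ x in closedBall (0 : V) τ, |f x - F x|) + ∫ x in closedBall (0 : V) τ, |F x - P x| := by
    rw [← integral_add i1' i2]
    exact setIntegral_mono_on i3 (i1'.add i2) measurableSet_closedBall
      (fun x _ => abs_sub_le _ _ _)
  have h4 : 0 < 4 * τ ^ 2 := by positivity
  have e2 : (1 / 4) * ∫ y in closedBall (0 : V) 1, |f (τ • y) - P (τ • y)| =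
      (∫ x in closedBall (0 : V) τ, |f x - P x|) / (4 * τ ^ 2) := by
    rw [e1]
    field_simp
  rw [e2, div_add' _ _ _ h4.ne']
  apply div_le_div_of_nonneg_right _ h4.le
  nlinarith [b1, b2, b3]


/-- `L¹` bound from an `L²` bound. -/
private theorem lca_l1 {Γ : V → ℝ} {Θ : ℝ} (hΘ : 0 < Θ) (hc : ContinuousOn Γ (closedBall 0 (1 / 2)))
    (h : ∫ y in closedBall (0 : V) (1 / 2), (Γ y) ^ 2 ≤ Θ ^ 2) :
    ∫ y in closedBall (0 : V) (1 / 8), |Γ y| ≤ Θ := by
  have hsub : closedBall (0 : V) (1 / 8) ⊆ closedBall 0 (1 / 2) :=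
    closedBall_subset_closedBall (by norm_num)
  have hc2 : IsCompact (closedBall (0 : V) (1 / 2)) := isCompact_closedBall _ _
  have hc8 : IsCompact (closedBall (0 : V) (1 / 8)) := isCompact_closedBall _ _
  have i1 : IntegrableOn (fun y => (Γ y) ^ 2) (closedBall (0 : V) (1 / 2)) :=
    (hc.pow 2).integrableOn_compact hc2
  have i2 : IntegrableOn (fun y => |Γ y|) (closedBall (0 : V) (1 / 8)) :=
    ((hc.mono hsub).abs).integrableOn_compact hc8
  have i1' : IntegrableOn (fun y => (Γ y) ^ 2) (closedBall (0 : V) (1 / 8)) := i1.mono_set hsub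
  have b1 : ∫ y in closedBall (0 : V) (1 / 8), (Γ y) ^ 2 ≤ Θ ^ 2 := by
    refine le_trans ?_ h
    exact setIntegral_mono_set i1 (Filter.Eventually.of_forall fun x => sq_nonneg _)
      (Filter.Eventually.of_forall hsub)
  have i3 : IntegrableOn (fun _ : V => Θ ^ 2) (closedBall (0 : V) (1 / 8)) :=
    integrableOn_const (hs := hc8.measure_lt_top.ne)
  have b2 : ∫ y in closedBall (0 : V) (1 / 8), 2 * Θ * |Γ y| ≤
      ∫ y in closedBall (0 : V) (1 / 8), (Θ ^ 2 + (Γ y) ^ 2) := by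
    apply setIntegral_mono_on (i2.const_mul _) (i3.add i1') measurableSet_closedBall
    intro x _
    show 2 * Θ * |Γ x| ≤ Θ ^ 2 + (Γ x) ^ 2
    nlinarith [sq_nonneg (Θ - |Γ x|), sq_abs (Γ x)]
  rw [integral_const_mul, integral_add i3 i1', setIntegral_const, smul_eq_mul] at b2
  have hv := volume_closedBall_real (0 : V) (r := 1 / 8) (by norm_num)
  have hv' : (volume : Measure V).real (closedBall 0 (1 / 8)) = 1 / 16 := by
    rw [Measure.real, hv]; norm_num
  rw [hv'] at b2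
  have hpos : 0 < Θ ^ 2 := by positivity
  have b3 : 2 * Θ * ∫ y in closedBall (0 : V) (1 / 8), |Γ y| ≤ 2 * Θ * Θ := by
    nlinarith
  exact le_of_mul_le_mul_left b3 (by positivity)


/-- A linear map small on a basis. -/
private theorem lca_basis {L : V →L[ℝ] ℝ} {u w : V} {c CN η : ℝ} (hc : 0 < c) (hu : ‖u‖ = 1)
    (hw : ‖w‖ ≤ CN) (hd : c ≤ dt u w) (h1 : |L u| ≤ η) (h2 : |L w| ≤ (1 + CN) * η) :
    ‖L‖ ≤ (4 * CN + 2) / c * η := by
  have hCN : 0 ≤ CN := (norm_nonneg w).trans hw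
  have hη : 0 ≤ η := (abs_nonneg _).trans h1
  apply ContinuousLinearMap.opNorm_le_bound _ (by positivity)
  intro y
  have hdp : 0 < dt u w := hc.trans_le hd
  have e1 : dt u w * L y = dt y w * L u + dt u y * L w := by
    have := congrArg L (expand u w y)
    rw [map_smul, map_add, map_smul, map_smul] at this
    simpa using this
  have b1 : |dt y w| ≤ 2 * ‖y‖ * CN :=
    (abs_dt_le y w).trans (mul_le_mul_of_nonneg_left hw (by positivity))
  have b2 : |dt u y| ≤ 2 * ‖y‖ := by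
    have := abs_dt_le u y
    rwa [hu, mul_one] at this
  have b3 : |dt y w * L u| ≤ 2 * ‖y‖ * CN * η := by
    rw [abs_mul]; exact mul_le_mul b1 h1 (abs_nonneg _) (by positivity)
  have b4 : |dt u y * L w| ≤ 2 * ‖y‖ * ((1 + CN) * η) := by
    rw [abs_mul]; exact mul_le_mul b2 h2 (abs_nonneg _) (by positivity)
  have b5 : dt u w * |L y| ≤ (4 * CN + 2) * η * ‖y‖ := by
    have : dt u w * |L y| = |dt y w * L u + dt u y * L w| := by
      rw [← e1, abs_mul, abs_of_pos hdp]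
    rw [this]
    have := abs_add_le (dt y w * L u) (dt u y * L w)
    nlinarith
  have b6 : c * |L y| ≤ (4 * CN + 2) * η * ‖y‖ :=
    (mul_le_mul_of_nonneg_right hd (abs_nonneg _)).trans b5
  rw [Real.norm_eq_abs]
  have : (4 * CN + 2) / c * η * ‖y‖ = ((4 * CN + 2) * η * ‖y‖) / c := by ring
  rw [this, le_div_iff₀ hc]
  linarith

private theorem lca_prod {q a b Q s t : ℝ} (h1 : |q| ≤ Q) (h2 : |a| ≤ s) (h3 : |b| ≤ t) :
    |q * (a * b)| ≤ Q * (s * t) := by
  rw [abs_mul, abs_mul]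
  exact mul_le_mul h1 (mul_le_mul h2 h3 (abs_nonneg _) ((abs_nonneg _).trans h2))
    (mul_nonneg (abs_nonneg _) (abs_nonneg _)) ((abs_nonneg _).trans h1)

/-- LCA -/
theorem lc_core {N₀ : V → ℝ} (h₀ : Nice N₀) :
    ∃ C > 0, ∀ τ : ℝ, 0 < τ → τ ≤ 1 / 16 → ∀ δ > 0, ∃ κ > 0, ∀ Θ > 0, ∀ (a : V → V → ℝ) (Γ : V → ℝ),
      WS N₀ (κ * Θ) Θ a Γ → ∃ l : V, ‖l‖ ≤ C * Θ ∧
        (∃ b : ℝ, (1 / 4) * ∫ y in closedBall (0 : V) 1, |Γ (τ • y) - b - dot l (τ • y)| ≤
          (C * τ ^ 2 + δ) * Θ) ∧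
        ∀ u, ‖u‖ = 1 → ∃ b : ℝ, (1 / 4) * ∫ y in closedBall (0 : V) 1,
          |a u (τ • y) - b - (1 / 3) * (dot l (τ • y) + dot l u * fderiv ℝ N₀ u (τ • y) / N₀ u)| ≤
          (C * τ ^ 2 + δ) * Θ := by
  obtain ⟨u₁, u₂, hu₁, hu₂, hd12, hd11, hd1w, hdw1, hdww, -⟩ := exists_two_pairs h₀
  obtain ⟨C₃, hC₃, H3⟩ := third_small hd11 hd12 hd1w hdw1 hdww
  obtain ⟨C₂, hC₂, H2⟩ := taylor2
  obtain ⟨C₁, hC₁, H1⟩ := quad_coeff
  obtain ⟨c, hc, hcl⟩ := h₀.toNormV.exists_lower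
  set CN : ℝ := N₀ (1, 0) + N₀ (0, 1) with hCN
  have hn1 : 0 ≤ N₀ (1, 0) := h₀.nonneg _
  have hn2 : 0 ≤ N₀ (0, 1) := h₀.nonneg _
  have hCN0 : 0 ≤ CN := add_nonneg hn1 hn2
  have hcj : ∀ u, ‖u‖ = 1 → ‖cj N₀ u‖ ≤ CN := by
    intro u hu
    have hu0 : u ≠ 0 := by
      rintro rfl
      rw [norm_zero] at hu
      exact zero_ne_one hu
    rw [Prod.norm_def]
    apply max_le
    · show ‖-(fderiv ℝ N₀ u (0, 1))‖ ≤ CN
      rw [norm_neg, Real.norm_eq_abs]
      have := h₀.abs_fderiv_le hu0 (0, 1)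
      linarith
    · show ‖fderiv ℝ N₀ u (1, 0)‖ ≤ CN
      rw [Real.norm_eq_abs]
      have := h₀.abs_fderiv_le hu0 (1, 0)
      linarith
  set K : ℝ := (4 * CN + 2) / c with hK
  have hK0 : 0 < K := by positivity
  set C : ℝ := 8 * C₁ + 12 * K * C₁ with hC
  have hC0 : 0 < C := by positivity
  refine ⟨C, hC0, fun τ hτ hτ16 δ hδ => ?_⟩
  -- the small parameter
  obtain ⟨μ, hμ, hμ1, hμδ⟩ : ∃ μ : ℝ, 0 < μ ∧ μ ≤ 1 ∧ μ ≤ δ :=
    ⟨min 1 δ, lt_min one_pos hδ, min_le_left _ _, min_le_right _ _⟩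
  set M : ℝ := 1 + C₂ * C₃ with hM
  have hM1 : 1 ≤ M := by
    have : 0 < C₂ * C₃ := mul_pos hC₂ hC₃
    linarith
  have hK1 : 1 ≤ K + 1 := by linarith
  obtain ⟨ς, hς⟩ : ∃ ς : ℝ, ς = μ * τ ^ 2 / (4 * M * (K + 1)) := ⟨_, rfl⟩
  have hden : 0 < 4 * M * (K + 1) := by positivity
  have hς0 : 0 < ς := by rw [hς]; positivity
  have hςe : ς * (4 * M * (K + 1)) = μ * τ ^ 2 := by
    rw [hς]; field_simp
  have hτ2 : τ ^ 2 ≤ 1 := by nlinarith
  have hτ2' : 0 < τ ^ 2 := by positivity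
  have hMς : 4 * (M * ς) * (K + 1) = μ * τ ^ 2 := by rw [← hςe]; ring
  have hςM : ς ≤ M * ς := by nlinarith
  have heM : C₂ * (C₃ * ς) ≤ M * ς := by nlinarith
  have hMς0 : 0 < M * ς := by positivity
  have hMς1 : 4 * (M * ς) ≤ μ * τ ^ 2 := by
    rw [← hMς]
    nlinarith
  have hKMς : 4 * K * (M * ς) ≤ μ * τ ^ 2 := by
    rw [← hMς]
    nlinarith
  have hμτ : μ * τ ^ 2 ≤ μ := by nlinarith
  obtain ⟨κ, hκ, Hκ⟩ := lc_smooth h₀ ς hς0
  refine ⟨κ, hκ, fun Θ hΘ a Γ hW => ?_⟩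
  obtain ⟨G, A, hG, hA, hGi, hAi, hD⟩ := Hκ Θ hΘ a Γ hW
  have hςΘ : 0 ≤ ς * Θ := by positivity
  -- third derivatives
  have h3 : ∀ x ∈ closedBall (0 : V) (1 / 8), ∀ a b c : V,
      |Dv a (Dv b (Dv c G)) x| ≤ (C₃ * (ς * Θ)) * ‖a‖ * ‖b‖ * ‖c‖ := by
    intro x hx
    exact H3 G x (ς * Θ) hG hςΘ fun j hj =>
      ⟨(hD x hx u₁ hu₁).2.2 j hj, (hD x hx u₂ hu₂).2.2 j hj⟩
  obtain ⟨g, l, q₁, q₂, q₃, hT⟩ := H2 G (1 / 8) (C₃ * (ς * Θ)) hG (by positivity) (by norm_num)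
    (by norm_num) h3
  obtain ⟨E, hE⟩ : ∃ E : ℝ, E = C₂ * (C₃ * (ς * Θ)) := ⟨_, rfl⟩
  rw [← hE] at hT
  have hE0 : 0 ≤ E := by rw [hE]; positivity
  have hEe : E = (C₂ * (C₃ * ς)) * Θ := by rw [hE]; ring
  have hE1 : E ≤ M * ς * Θ := by
    rw [hEe]; exact mul_le_mul_of_nonneg_right heM hΘ.le
  obtain ⟨P, hP⟩ : ∃ P : V → ℝ, P = fun y => g + dot l y +
      (q₁ * y.1 ^ 2 + q₂ * (y.1 * y.2) + q₃ * y.2 ^ 2) := ⟨_, rfl⟩
  have hPc : Continuous P := by
    rw [hP]; unfold dot; fun_prop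
  have hGc : Continuous G := hG.continuous
  have hΓ8 : ContinuousOn Γ (closedBall 0 (1 / 8)) :=
    hW.cΓ.mono (closedBall_subset_closedBall (by norm_num))
  have hc8 : IsCompact (closedBall (0 : V) (1 / 8)) := isCompact_closedBall _ _
  have hv := volume_closedBall_real (0 : V) (r := 1 / 8) (by norm_num)
  have hv' : (volume : Measure V).real (closedBall 0 (1 / 8)) = 1 / 16 := by
    rw [Measure.real, hv]; norm_num
  have hPi : ∫ y in closedBall (0 : V) (1 / 8), |P y| ≤ 2 * Θ := by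
    have i0 : IntegrableOn (fun y => |P y|) (closedBall (0 : V) (1 / 8)) :=
      hPc.abs.continuousOn.integrableOn_compact hc8
    have i1 : IntegrableOn (fun y => |Γ y - G y|) (closedBall (0 : V) (1 / 8)) :=
      ((hΓ8.sub hGc.continuousOn).abs).integrableOn_compact hc8
    have i2 : IntegrableOn (fun y => |Γ y|) (closedBall (0 : V) (1 / 8)) :=
      hΓ8.abs.integrableOn_compact hc8
    have i3 : IntegrableOn (fun _ : V => E) (closedBall (0 : V) (1 / 8)) :=
      integrableOn_const (hs := hc8.measure_lt_top.ne)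
    have i12 : IntegrableOn (fun y => |Γ y - G y| + |Γ y|) (closedBall (0 : V) (1 / 8)) := i1.add i2
    have b1 : ∫ y in closedBall (0 : V) (1 / 8), |P y| ≤
        ∫ y in closedBall (0 : V) (1 / 8), ((|Γ y - G y| + |Γ y|) + E) := by
      apply setIntegral_mono_on i0 (i12.add i3) measurableSet_closedBall
      intro y hy
      show |P y| ≤ (|Γ y - G y| + |Γ y|) + E
      have h4 := (hT y hy).1
      have h5 : |G y - P y| ≤ E := by rw [hP]; exact h4
      have h6 : |P y| ≤ |G y - P y| + |G y| := by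
        have := abs_sub_abs_le_abs_sub (P y) (G y)
        rw [abs_sub_comm (P y)] at this
        linarith
      have h7 : |G y| ≤ |Γ y - G y| + |Γ y| := by
        have := abs_sub_abs_le_abs_sub (G y) (Γ y)
        rw [abs_sub_comm (G y)] at this
        linarith
      linarith
    rw [integral_add i12 i3, integral_add i1 i2, setIntegral_const, smul_eq_mul, hv'] at b1
    have b2 := lca_l1 hΘ hW.cΓ hW.lΓ
    have b3 : ς ≤ 1 / 4 := by linarith
    have b4 : M * ς ≤ 1 / 4 := by linarith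
    have b5 : ς * Θ ≤ 1 / 4 * Θ := mul_le_mul_of_nonneg_right b3 hΘ.le
    have b6 : M * ς * Θ ≤ 1 / 4 * Θ := mul_le_mul_of_nonneg_right b4 hΘ.le
    linarith
  have hPi' := hPi
  rw [hP] at hPi'
  obtain ⟨-, hl, hq₁, hq₂, hq₃⟩ := H1 g l q₁ q₂ q₃
  have hCP : C₁ * (∫ y in closedBall (0 : V) (1 / 8),
        |g + dot l y + (q₁ * y.1 ^ 2 + q₂ * (y.1 * y.2) + q₃ * y.2 ^ 2)|) ≤ 2 * C₁ * Θ := by
    have := mul_le_mul_of_nonneg_left hPi' hC₁.le
    linarith
  have hl := hl.trans hCP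
  have hq₁ := hq₁.trans hCP
  have hq₂ := hq₂.trans hCP
  have hq₃ := hq₃.trans hCP
  have hτ8 : τ ≤ 1 / 8 := by linarith
  have hsub : closedBall (0 : V) τ ⊆ closedBall 0 (1 / 8) := closedBall_subset_closedBall hτ8
  have hςδ : ς * Θ / (4 * τ ^ 2) ≤ δ / 2 * Θ := by
    rw [div_le_iff₀ (by positivity)]
    have b1 : ς ≤ δ / 2 * (4 * τ ^ 2) := by
      have : μ * τ ^ 2 ≤ δ * τ ^ 2 := mul_le_mul_of_nonneg_right hμδ hτ2'.le
      nlinarith
    have := mul_le_mul_of_nonneg_right b1 hΘ.le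
    linarith
  refine ⟨l, ?_, ⟨g, ?_⟩, fun u hu => ⟨A u 0, ?_⟩⟩
  · refine hl.trans (mul_le_mul_of_nonneg_right ?_ hΘ.le)
    have : 0 < K * C₁ := mul_pos hK0 hC₁
    rw [hC]; linarith
  · have h4 := lca_int (f := Γ) (F := G) (P := fun y => g + dot l y) (ε₁ := ς * Θ)
      (ε₂ := E + 6 * C₁ * Θ * τ ^ 2) hτ hτ8 hΓ8 hGc (by unfold dot; fun_prop) hGi ?_
    · simp only [← sub_sub] at h4
      refine h4.trans ?_
      have b1 : M * ς * Θ ≤ δ / 2 * Θ := by
        apply mul_le_mul_of_nonneg_right _ hΘ.le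
        linarith
      have b2 : 6 * C₁ * Θ * τ ^ 2 ≤ C * τ ^ 2 * Θ := by
        have : 6 * C₁ ≤ C := by
          have : 0 < K * C₁ := mul_pos hK0 hC₁
          rw [hC]; linarith
        have := mul_le_mul_of_nonneg_right this (mul_pos hτ2' hΘ).le
        linarith
      linarith
    · intro x hx
      have h5 := (hT x (hsub hx)).1
      have hx' : ‖x‖ ≤ τ := by simpa using hx
      have hx1 : |x.1| ≤ τ := (abs_fst_le x).trans hx'
      have hx2 : |x.2| ≤ τ := (abs_snd_le x).trans hx'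
      have p1 := lca_prod hq₁ hx1 hx1
      have p2 := lca_prod hq₂ hx1 hx2
      have p3 := lca_prod hq₃ hx2 hx2
      have e1 : G x - (g + dot l x) = (G x - (g + dot l x + (q₁ * x.1 ^ 2 + q₂ * (x.1 * x.2) +
          q₃ * x.2 ^ 2))) + (q₁ * (x.1 * x.1) + q₂ * (x.1 * x.2) + q₃ * (x.2 * x.2)) := by ring
      rw [e1]
      refine (abs_add_le _ _).trans ?_
      have h6 := abs_add_three (q₁ * (x.1 * x.1)) (q₂ * (x.1 * x.2)) (q₃ * (x.2 * x.2))
      have e2 : 2 * C₁ * Θ * (τ * τ) + 2 * C₁ * Θ * (τ * τ) + 2 * C₁ * Θ * (τ * τ) =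
          6 * C₁ * Θ * τ ^ 2 := by ring
      linarith
  · have hu0 : u ≠ 0 := by
      rintro rfl
      rw [norm_zero] at hu
      exact zero_ne_one hu
    have hNu : 0 < N₀ u := h₀.pos u hu0
    have hcu : c ≤ N₀ u := by
      have := hcl u
      rwa [hu, mul_one] at this
    obtain ⟨w, hw⟩ : ∃ w, w = cj N₀ u := ⟨_, rfl⟩
    have hwn : ‖w‖ ≤ CN := by rw [hw]; exact hcj u hu
    have hdt : dt u w = N₀ u := by rw [hw]; exact h₀.dt_cj hu0
    -- the linear form `dot l`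
    obtain ⟨dl, hdl⟩ : ∃ dl : V →L[ℝ] ℝ, ∀ y, dl y = dot l y :=
      ⟨l.1 • ContinuousLinearMap.fst ℝ ℝ ℝ + l.2 • ContinuousLinearMap.snd ℝ ℝ ℝ, fun y => by
        simp [dot]⟩
    obtain ⟨lam, hlam⟩ : ∃ lam : V →L[ℝ] ℝ, ∀ y, lam y =
        (1 / 3) * (dot l y + dot l u * fderiv ℝ N₀ u y / N₀ u) :=
      ⟨(1 / 3 : ℝ) • (dl + (dot l u / N₀ u) • fderiv ℝ N₀ u), fun y => by
        simp only [_root_.smul_apply, _root_.add_apply, hdl, smul_eq_mul]
        ring⟩
    have hlu : lam u = (2 / 3) * dot l u := by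
      rw [hlam, h₀.fderiv_self hu0]
      field_simp
      ring
    have hlw : lam w = (1 / 3) * dot l w := by
      rw [hlam, hw, Nice.fderiv_cj]
      ring
    have hAu := hA u hu
    have hAc : Continuous (A u) := hAu.continuous
    obtain ⟨η, hη⟩ : ∃ η : ℝ, η = ς * Θ + E + 12 * C₁ * Θ * τ := ⟨_, rfl⟩
    have hη0 : 0 ≤ η := by rw [hη]; positivity
    have hgrad : ∀ x ∈ closedBall (0 : V) τ, ∀ v : V,
        |fderiv ℝ G x v - dot l v| ≤ (E + 12 * C₁ * Θ * τ) * ‖v‖ := by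
      intro x hx v
      have h5 := (hT x (hsub hx)).2 v
      have hx' : ‖x‖ ≤ τ := by simpa using hx
      have hx1 : |x.1| ≤ τ := (abs_fst_le x).trans hx'
      have hx2 : |x.2| ≤ τ := (abs_snd_le x).trans hx'
      have hv1 : |v.1| ≤ ‖v‖ := abs_fst_le v
      have hv2 : |v.2| ≤ ‖v‖ := abs_snd_le v
      have p1 := lca_prod hq₁ hx1 hv1
      have p2 := lca_prod hq₂ hx1 hv2
      have p3 := lca_prod hq₂ hx2 hv1
      have p4 := lca_prod hq₃ hx2 hv2
      have e1 : fderiv ℝ G x v - dot l v = (fderiv ℝ G x v - (dot l v + (2 * q₁ * x.1 * v.1 +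
          q₂ * (x.1 * v.2 + x.2 * v.1) + 2 * q₃ * x.2 * v.2))) +
          (2 * (q₁ * (x.1 * v.1)) + (q₂ * (x.1 * v.2) + q₂ * (x.2 * v.1)) +
            2 * (q₃ * (x.2 * v.2))) := by ring
      rw [e1]
      refine (abs_add_le _ _).trans ?_
      have h6 := abs_add_three (2 * (q₁ * (x.1 * v.1))) (q₂ * (x.1 * v.2) + q₂ * (x.2 * v.1))
        (2 * (q₃ * (x.2 * v.2)))
      have h7 := abs_add_le (q₂ * (x.1 * v.2)) (q₂ * (x.2 * v.1))
      rw [abs_mul 2, abs_mul 2, abs_two] at h6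
      have e2 : 2 * C₁ * Θ * (τ * ‖v‖) = 2 * (C₁ * Θ * τ * ‖v‖) := by ring
      have e3 : (E + 12 * C₁ * Θ * τ) * ‖v‖ = E * ‖v‖ + 12 * (C₁ * Θ * τ * ‖v‖) := by ring
      rw [e2] at p1 p2 p3 p4
      rw [e3]
      have hnn : 0 ≤ C₁ * Θ * τ * ‖v‖ := by positivity
      linarith
    have hη1 : E + 12 * C₁ * Θ * τ ≤ η := by rw [hη]; linarith
    have hη2 : 0 ≤ E + 12 * C₁ * Θ * τ := by positivity
    have hLn : ∀ x ∈ closedBall (0 : V) τ, ‖fderiv ℝ (A u) x - lam‖ ≤ K * η := by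
      intro x hx
      obtain ⟨hd1, hd2, -⟩ := hD x (hsub hx) u hu
      rw [← hw] at hd2
      apply lca_basis (w := w) (CN := CN) hc hu hwn (by rw [hdt]; exact hcu)
      · rw [_root_.sub_apply, hlu]
        have g1 := hgrad x hx u
        rw [hu, mul_one] at g1
        have e1 : fderiv ℝ (A u) x u - 2 / 3 * dot l u = (fderiv ℝ (A u) x u -
            (2 / 3) * fderiv ℝ G x u) + (2 / 3) * (fderiv ℝ G x u - dot l u) := by ring
        rw [e1]
        refine (abs_add_le _ _).trans ?_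
        rw [abs_mul, abs_of_nonneg (by norm_num : (0:ℝ) ≤ 2 / 3)]
        rw [hη]
        linarith
      · rw [_root_.sub_apply, hlw]
        have g1 := hgrad x hx w
        have g2 : (E + 12 * C₁ * Θ * τ) * ‖w‖ ≤ (E + 12 * C₁ * Θ * τ) * CN :=
          mul_le_mul_of_nonneg_left hwn hη2
        have g3 : (E + 12 * C₁ * Θ * τ) * CN ≤ η * CN := mul_le_mul_of_nonneg_right hη1 hCN0
        have e1 : fderiv ℝ (A u) x w - 1 / 3 * dot l w = (fderiv ℝ (A u) x w -
            (1 / 3) * fderiv ℝ G x w) + (1 / 3) * (fderiv ℝ G x w - dot l w) := by ring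
        rw [e1]
        refine (abs_add_le _ _).trans ?_
        rw [abs_mul, abs_of_nonneg (by norm_num : (0:ℝ) ≤ 1 / 3)]
        have g4 : 0 ≤ η * CN := mul_nonneg hη0 hCN0
        have g5 : ς * Θ ≤ η := by rw [hη]; linarith
        have g6 : 0 ≤ |fderiv ℝ G x w - dot l w| := abs_nonneg _
        linarith
    have hMV : ∀ x ∈ closedBall (0 : V) τ, |A u x - (A u 0 + lam x)| ≤ K * η * τ := by
      intro x hx
      have hdiff : ∀ y, HasFDerivAt (fun y => A u y - lam y) (fderiv ℝ (A u) y - lam) y := by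
        intro y
        exact ((hAu.differentiable (by norm_num)) y).hasFDerivAt.sub lam.hasFDerivAt
      have h0 : (0 : V) ∈ closedBall (0 : V) τ := mem_closedBall_self hτ.le
      have := (convex_closedBall (0 : V) τ).norm_image_sub_le_of_norm_hasFDerivWithin_le
        (fun y _ => (hdiff y).hasFDerivWithinAt) hLn h0 hx
      rw [map_zero, sub_zero, sub_zero, Real.norm_eq_abs] at this
      have hx' : ‖x‖ ≤ τ := by simpa using hx
      have e1 : A u x - (A u 0 + lam x) = A u x - lam x - A u 0 := by ring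
      rw [e1]
      exact this.trans (mul_le_mul_of_nonneg_left hx' (mul_nonneg hK0.le hη0))
    have h4 := lca_int (f := a u) (F := A u) (P := fun y => A u 0 + lam y) (ε₁ := ς * Θ)
      (ε₂ := K * η * τ) hτ hτ8 ((hW.ca u hu).mono (closedBall_subset_closedBall (by norm_num))) hAc
      (by fun_prop) (hAi u hu) hMV
    simp only [← sub_sub, hlam] at h4
    refine h4.trans ?_
    have b0 : η ≤ 2 * (M * ς) * Θ + 12 * C₁ * Θ * τ := by
      rw [hη]
      have := mul_le_mul_of_nonneg_right hςM hΘ.le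
      linarith
    have b1 : K * η * τ ≤ K * (2 * (M * ς) * Θ + 12 * C₁ * Θ * τ) * τ :=
      mul_le_mul_of_nonneg_right (mul_le_mul_of_nonneg_left b0 hK0.le) hτ.le
    have b2 : K * (2 * (M * ς) * Θ) * τ ≤ δ / 2 * Θ := by
      have b3 : K * (2 * (M * ς) * Θ) * τ ≤ K * (2 * (M * ς) * Θ) :=
        mul_le_of_le_one_right (by positivity) (by linarith)
      have b4 : 2 * K * (M * ς) ≤ δ / 2 := by linarith
      have b5 := mul_le_mul_of_nonneg_right b4 hΘ.le
      linarith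
    have b6 : K * (12 * C₁ * Θ * τ) * τ ≤ C * τ ^ 2 * Θ := by
      have : 12 * K * C₁ ≤ C := by rw [hC]; linarith
      have := mul_le_mul_of_nonneg_right this (mul_pos hτ2' hΘ).le
      linarith
    linarith

end Pool.Agent.L1de93c
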