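import Pool.Agent.Lib_MP_1de93e_cont.RDual

/-!
# PIECE NIC: differentiable Radon norms and the conjugate vector

All statements for `h : Nice N`, `u ≠ 0`.
* `fderiv_eq`: `fderiv N u z = dt z (cj N u)` by definition of `cj` and linearity (true for all `u`).
* `fderiv_self`: differentiate `N (u + t u) = (1 + t) N u`. `dt_cj` follows from `fderiv_eq`.
* `subgrad`: convexity. `abs_fderiv_le`: `N u + fderiv N u (± z) ≤ N (u ± z) ≤ N u + N z`.
* `fderiv_smul_pos`, `fderiv_neg`: homogeneity (`N (a • v) = a N v`, chain rule).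
* `bk`: `subgrad` with `z = s • cj N u` and `fderiv N u (cj N u) = dt (cj N u) (cj N u) = 0`.
* `N_cj`: `radon_eq` and `dt_cj`.
* `fderiv_cj_self`: `Bk N (cj N u) u` by `SB`, so `s ↦ N (cj N u + s u)` has a minimum at `0`.
* `cj_cj`: both `u` and `cj (cj u)` are in the kernel of the nonzero form `fderiv N (cj u)`, so
  `cj (cj u) = λ u`; `dt (cj u) (cj (cj u)) = N (cj u) = rc N` and `dt (cj u) u = -N u`.
* `continuousOn_fderiv`: let `u_n → u ≠ 0`, `p_n = fderiv N u_n`; `‖p_n‖` is bounded by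
  `abs_fderiv_le`, any limit point `p` satisfies `N u + p z ≤ N (u + z)`, so `p = fderiv N u` (the
  function `z ↦ N (u + z) - N u - p z` has a minimum at `0` and is differentiable). Or directly:
  for small `t > 0`, `fderiv N v z ≤ (N (v + t z) - N v) / t`, the right side is continuous in `v`
  and close to `fderiv N u z` at `v = u`; the same for `-z` (two basis vectors `z` suffice).
-/

namespace Pool.Agent.L1de93c

open MeasureTheory Metric Set

namespace Nice

variable {N : V → ℝ}

private theorem nic_dir (h : Nice N) {u : V} (hu : u ≠ 0) (z : V) :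
    HasDerivAt (fun t : ℝ => N (u + t • z)) (fderiv ℝ N u z) 0 := by
  have h1 : HasDerivAt (fun t : ℝ => u + t • z) z 0 := by
    have h2 : HasDerivAt (fun t : ℝ => t • z) ((1 : ℝ) • z) 0 := (hasDerivAt_id (0 : ℝ)).smul_const z
    rw [one_smul] at h2
    exact h2.const_add u
  have h3 : HasFDerivAt N (fderiv ℝ N u) (u + (0 : ℝ) • z) := by
    rw [zero_smul, add_zero]
    exact (h.diff u hu).hasFDerivAt
  exact h3.comp_hasDerivAt (0 : ℝ) h1

private theorem nic_slope (h : Nice N) {u : V} (hu : u ≠ 0) (z : V) :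
    Filter.Tendsto (fun t : ℝ => (N (u + t • z) - N u) / t) (nhdsWithin 0 (Ioi 0))
      (nhds (fderiv ℝ N u z)) := by
  have h1 := (hasDerivAt_iff_tendsto_slope.1 (nic_dir h hu z)).mono_left
    (nhdsWithin_mono 0 fun t (ht : 0 < t) => ne_of_gt ht)
  refine h1.congr fun t => ?_
  rw [slope_def_field, zero_smul, add_zero, sub_zero]

theorem fderiv_eq (N : V → ℝ) (u z : V) : fderiv ℝ N u z = dt z (cj N u) := by
  conv_lhs => rw [vec_eq z]
  rw [map_add, map_smul, map_smul]
  simp only [dt, cj, smul_eq_mul]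
  ring

theorem fderiv_self (h : Nice N) {u : V} (hu : u ≠ 0) : fderiv ℝ N u u = N u := by
  have h1 := nic_dir h hu u
  have h2 : HasDerivAt (fun t : ℝ => (1 + t) * N u) (N u) 0 := by
    have := ((hasDerivAt_id (0 : ℝ)).const_add 1).mul_const (N u)
    rw [one_mul] at this
    exact this
  refine h1.unique (h2.congr_of_eventuallyEq ?_)
  have h3 : ∀ᶠ t : ℝ in nhds 0, (-1 : ℝ) < t := lt_mem_nhds (by norm_num)
  filter_upwards [h3] with t ht
  have e : u + t • u = (1 + t) • u := by rw [add_smul, one_smul]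
  rw [e, h.toNormV.smul_nonneg (by linarith)]

theorem dt_cj (h : Nice N) {u : V} (hu : u ≠ 0) : dt u (cj N u) = N u := by
  rw [← fderiv_eq, fderiv_self h hu]

theorem fderiv_cj (N : V → ℝ) (u : V) : fderiv ℝ N u (cj N u) = 0 := by
  rw [fderiv_eq, dt_self]

theorem cj_ne_zero (h : Nice N) {u : V} (hu : u ≠ 0) : cj N u ≠ 0 := by
  intro h0
  have h1 := dt_cj h hu
  rw [h0] at h1
  have h2 := h.pos u hu
  rw [← h1] at h2
  simp [dt] at h2

theorem subgrad (h : Nice N) {u : V} (hu : u ≠ 0) (z : V) : N u + fderiv ℝ N u z ≤ N (u + z) := by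
  have h1 := nic_slope h hu z
  have h2 : fderiv ℝ N u z ≤ N (u + z) - N u := by
    refine le_of_tendsto h1 ?_
    have h3 : ∀ᶠ t : ℝ in nhdsWithin 0 (Ioi 0), t ∈ Ioo (0 : ℝ) 1 :=
      Ioo_mem_nhdsGT (by norm_num)
    filter_upwards [h3] with t ht
    rw [div_le_iff₀ ht.1]
    have e : u + t • z = (1 - t) • u + t • (u + z) := by
      rw [sub_smul, one_smul, smul_add]
      abel
    have h4 := h.add_le ((1 - t) • u) (t • (u + z))
    rw [← e, h.toNormV.smul_nonneg (by linarith [ht.2]), h.toNormV.smul_nonneg ht.1.le] at h4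
    linarith
  linarith

theorem abs_fderiv_le (h : Nice N) {u : V} (hu : u ≠ 0) (z : V) : |fderiv ℝ N u z| ≤ N z := by
  have h1 := subgrad h hu z
  have h2 := subgrad h hu (-z)
  have h3 := h.add_le u z
  have h4 := h.add_le u (-z)
  rw [h.toNormV.neg] at h4
  rw [map_neg] at h2
  rw [abs_le]
  constructor <;> linarith

theorem fderiv_smul_pos (h : Nice N) {a : ℝ} (ha : 0 < a) (u : V) :
    fderiv ℝ N (a • u) = fderiv ℝ N u := by
  by_cases hu : u = 0
  · rw [hu, smul_zero]
  have hau : a • u ≠ 0 := smul_ne_zero ha.ne' hu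
  have h1 : HasFDerivAt (fun v : V => a • v) (a • ContinuousLinearMap.id ℝ V) u :=
    (hasFDerivAt_id u).const_smul a
  have h2 : HasFDerivAt (fun v : V => N (a • v))
      ((fderiv ℝ N (a • u)).comp (a • ContinuousLinearMap.id ℝ V)) u :=
    HasFDerivAt.comp u (h.diff (a • u) hau).hasFDerivAt h1
  have h3 : HasFDerivAt (fun v : V => N (a • v)) (a • fderiv ℝ N u) u := by
    have h4 : (fun v : V => N (a • v)) = fun v => a • N v := by
      funext v
      rw [h.toNormV.smul_nonneg ha.le, smul_eq_mul]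
    rw [h4]
    exact (h.diff u hu).hasFDerivAt.const_smul a
  have h5 := h2.unique h3
  ext
  · have h6 := congrArg (fun L : V →L[ℝ] ℝ => L (1, 0)) h5
    simp only [ContinuousLinearMap.comp_apply, smul_apply, ContinuousLinearMap.id_apply,
      map_smul, smul_eq_mul] at h6
    simpa using mul_left_cancel₀ ha.ne' h6
  · have h6 := congrArg (fun L : V →L[ℝ] ℝ => L (0, 1)) h5
    simp only [ContinuousLinearMap.comp_apply, smul_apply, ContinuousLinearMap.id_apply,
      map_smul, smul_eq_mul] at h6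
    simpa using mul_left_cancel₀ ha.ne' h6

theorem fderiv_neg (h : Nice N) (u : V) : fderiv ℝ N (-u) = -fderiv ℝ N u := by
  have h1 : (fun v : V => N (-v)) = N := funext fun v => h.toNormV.neg v
  have key : ∀ w : V, DifferentiableAt ℝ N w → HasFDerivAt N (-fderiv ℝ N w) (-w) := by
    intro w hw
    have h2 : HasFDerivAt (fun v : V => -v) (-ContinuousLinearMap.id ℝ V) (-w) :=
      (hasFDerivAt_id (-w)).neg
    have h3 : HasFDerivAt N (fderiv ℝ N w) (-(-w)) := by
      rw [neg_neg]
      exact hw.hasFDerivAt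
    have h4 : HasFDerivAt (fun v : V => N (-v))
        ((fderiv ℝ N w).comp (-ContinuousLinearMap.id ℝ V)) (-w) := HasFDerivAt.comp (-w) h3 h2
    rw [h1] at h4
    have h5 : (fderiv ℝ N w).comp (-ContinuousLinearMap.id ℝ V) = -fderiv ℝ N w := by
      ext <;> simp
    rwa [h5] at h4
  by_cases hd : DifferentiableAt ℝ N u
  · exact (key u hd).fderiv
  · have hd' : ¬ DifferentiableAt ℝ N (-u) := by
      intro h2
      have h3 := (key (-u) h2).differentiableAt
      rw [neg_neg] at h3
      exact hd h3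
    rw [fderiv_zero_of_not_differentiableAt hd, fderiv_zero_of_not_differentiableAt hd', neg_zero]

theorem cj_smul_pos (h : Nice N) {a : ℝ} (ha : 0 < a) (u : V) : cj N (a • u) = cj N u := by
  unfold cj
  rw [fderiv_smul_pos h ha]

theorem cj_neg (h : Nice N) (u : V) : cj N (-u) = -cj N u := by
  unfold cj
  rw [fderiv_neg h]
  ext <;> simp

theorem bk (h : Nice N) {u : V} (hu : u ≠ 0) : Bk N u (cj N u) := by
  intro s
  have h1 := subgrad h hu (s • cj N u)
  rw [map_smul, fderiv_cj, smul_zero, add_zero] at h1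
  exact h1

theorem N_cj (h : Nice N) {u : V} (hu : u ≠ 0) : N (cj N u) = rc N := by
  have h1 := radon_eq h.toNormV h.sb (bk h hu)
  rw [dt_cj h hu, abs_of_pos (h.pos u hu), mul_comm (rc N)] at h1
  exact mul_left_cancel₀ (h.pos u hu).ne' h1

theorem fderiv_cj_self (h : Nice N) {u : V} (hu : u ≠ 0) : fderiv ℝ N (cj N u) u = 0 := by
  have h1 : Bk N (cj N u) u := h.sb u (cj N u) (bk h hu)
  have h2 := nic_dir h (cj_ne_zero h hu) u
  have h3 : IsLocalMin (fun t : ℝ => N (cj N u + t • u)) 0 := by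
    refine Filter.Eventually.of_forall fun t => ?_
    show N (cj N u + (0 : ℝ) • u) ≤ N (cj N u + t • u)
    rw [zero_smul, add_zero]
    exact h1 t
  exact h3.hasDerivAt_eq_zero h2

theorem cj_cj (h : Nice N) {u : V} (hu : u ≠ 0) : cj N (cj N u) = (-(rc N / N u)) • u := by
  have hw := cj_ne_zero h hu
  have h1 : dt u (cj N (cj N u)) = 0 := by
    rw [← fderiv_eq, fderiv_cj_self h hu]
  have h2 : dt (cj N u) (cj N (cj N u)) = rc N := by
    rw [dt_cj h hw, N_cj h hu]
  have h3 := expand u (cj N u) (cj N (cj N u))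
  rw [h1, zero_smul, add_zero, dt_comm (cj N (cj N u)), h2, dt_cj h hu] at h3
  have hN := (h.pos u hu).ne'
  have h4 : cj N (cj N u) = (N u)⁻¹ • (N u • cj N (cj N u)) := by
    rw [smul_smul, inv_mul_cancel₀ hN, one_smul]
  rw [h4, h3, smul_smul]
  congr 1
  field_simp

theorem continuousOn_fderiv (h : Nice N) : ContinuousOn (fderiv ℝ N) {0}ᶜ := by
  have key : ∀ u : V, u ≠ 0 → ∀ z : V, ∀ b : ℝ, fderiv ℝ N u z < b →
      ∀ᶠ v in nhds u, fderiv ℝ N v z < b := by
    intro u hu z b hb
    have h1 := (nic_slope h hu z).eventually (gt_mem_nhds hb)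
    have h2 : ∀ᶠ t : ℝ in nhdsWithin 0 (Ioi 0), t ∈ Ioi (0 : ℝ) := self_mem_nhdsWithin
    obtain ⟨t, ht, ht0⟩ := (h1.and h2).exists
    have ht0' : (0 : ℝ) < t := ht0
    have hc : Continuous fun v : V => (N (v + t • z) - N v) / t := by
      have hN := h.toNormV.continuous
      have h3 : Continuous fun v : V => N (v + t • z) := hN.comp (by fun_prop)
      exact (h3.sub hN).div_const t
    have h4 : ∀ᶠ v in nhds u, (N (v + t • z) - N v) / t < b :=
      hc.continuousAt.eventually (gt_mem_nhds ht)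
    have h5 : ∀ᶠ v in nhds u, v ≠ 0 := isOpen_ne.mem_nhds hu
    filter_upwards [h4, h5] with v hv hv0
    refine lt_of_le_of_lt ?_ hv
    rw [le_div_iff₀ ht0']
    have h6 := subgrad h hv0 (t • z)
    rw [map_smul, smul_eq_mul] at h6
    linarith
  have key2 : ∀ u : V, u ≠ 0 → ∀ z : V, ContinuousAt (fun v => fderiv ℝ N v z) u := by
    intro u hu z
    refine tendsto_order.2 ⟨fun a ha => ?_, fun b hb => key u hu z b hb⟩
    have h1 := key u hu (-z) (-a) (by rw [map_neg]; linarith)
    filter_upwards [h1] with v hv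
    rw [map_neg] at hv
    linarith
  have hrep : fderiv ℝ N = fun v => fderiv ℝ N v (1, 0) • ContinuousLinearMap.fst ℝ ℝ ℝ +
      fderiv ℝ N v (0, 1) • ContinuousLinearMap.snd ℝ ℝ ℝ := by
    funext v
    ext <;> simp
  intro u hu
  have hu0 : u ≠ 0 := hu
  rw [hrep]
  have h1 := (key2 u hu0 (1, 0)).smul
    (continuousAt_const (y := ContinuousLinearMap.fst ℝ ℝ ℝ))
  have h2 := (key2 u hu0 (0, 1)).smul
    (continuousAt_const (y := ContinuousLinearMap.snd ℝ ℝ ℝ))
  exact (h1.add h2).continuousWithinAt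

theorem continuousOn_cj (h : Nice N) : ContinuousOn (cj N) {0}ᶜ := by
  have h1 := continuousOn_fderiv h
  have h2 : ∀ z : V, ContinuousOn (fun u => fderiv ℝ N u z) {0}ᶜ := fun z =>
    h1.clm_apply continuousOn_const
  exact (h2 (0, 1)).neg.prodMk (h2 (1, 0))

end Nice

end Pool.Agent.L1de93c
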