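import Pool.Agent.Lib_MP_1de93e_cont.JN
import Pool.Agent.Lib_MP_1de93e_cont.NiceB

/-!
# PIECE OSC: fourth moments of `log F` and `lc F` in the local situation

Let `c₀ ‖u‖ ≤ N₀ u ≤ C₀ ‖u‖` (`exists_lower`, `le_mul_norm`), `ε₁ = min (c₀/2) 1`. For `‖u‖ = 1` and `y`
in the square, `F y u ≥ c₀/2` and `|log (F y u) - log (N₀ u)| ≤ (2/c₀) |F y u - N₀ u| ≤ (2/c₀) ε`. `log` is
`2/c₀`-Lipschitz on `[c₀/2, C₀ + 1]`, so by `mo_comp_lip` the function `y ↦ log (F y u)` has mean
oscillation at most `(4/c₀) Θ` on all subsquares of `closedBall 0 1 ⊆ closedBall 0 R`; `jn4` with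
`a = av (log F · u) 0 1`. `|a - log N₀ u| ≤ (2/c₀) ε` (`abs_av_sub_le_of_sup`). For `lc F` use `jn4` directly
(`lc_continuousOn`) and `lrc_near` for the pointwise bound. Second moments: Cauchy-Schwarz,
`(∫_Q g²)² ≤ 4 ∫_Q g⁴` on the square `Q = closedBall 0 1` of area `4`; or
`g² ≤ (Θ'² + g⁴/Θ'²)/2`.
-/

namespace Pool.Agent.L1de93c

open MeasureTheory Metric Set

/-- The logarithm is Lipschitz away from zero. -/
private theorem osc_log_lip {m x y : ℝ} (hm : 0 < m) (hx : m ≤ x) (hy : m ≤ y) :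
    |Real.log x - Real.log y| ≤ 1 / m * |x - y| := by
  have aux : ∀ x y : ℝ, m ≤ x → m ≤ y → Real.log x - Real.log y ≤ 1 / m * |x - y| := by
    intro x y hx hy
    have hx0 : 0 < x := hm.trans_le hx
    have hy0 : 0 < y := hm.trans_le hy
    rw [← Real.log_div hx0.ne' hy0.ne']
    have h1 := Real.log_le_sub_one_of_pos (div_pos hx0 hy0)
    have h2 : x / y - 1 = (x - y) / y := by field_simp
    have h3 : (x - y) / y ≤ |x - y| / y := div_le_div_of_nonneg_right (le_abs_self _) hy0.le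
    have h4 : |x - y| / y ≤ |x - y| / m := div_le_div_of_nonneg_left (abs_nonneg _) hm hy
    have h5 : |x - y| / m = 1 / m * |x - y| := by ring
    linarith
  rw [abs_le]
  constructor
  · have := aux y x hy hx
    rw [abs_sub_comm] at this
    linarith
  · exact aux x y hx hy

/-- Second moments from fourth moments on the square. -/
private theorem osc_l2 {g : V → ℝ} (hg : ContinuousOn g (closedBall (0 : V) 1)) {C Θ : ℝ}
    (hΘ : 0 ≤ Θ) (h4 : ∫ y in closedBall (0 : V) 1, g y ^ 4 ≤ C * Θ ^ 4) :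
    ∫ y in closedBall (0 : V) 1, g y ^ 2 ≤ (2 + C / 2) * Θ ^ 2 := by
  have hK : IsCompact (closedBall (0 : V) 1) := isCompact_closedBall 0 1
  have i2 : IntegrableOn (fun y => g y ^ 2) (closedBall (0 : V) 1) :=
    (hg.pow 2).integrableOn_compact hK
  have i4 : IntegrableOn (fun y => g y ^ 4) (closedBall (0 : V) 1) :=
    (hg.pow 4).integrableOn_compact hK
  have key : ∀ t > 0, ∫ y in closedBall (0 : V) 1, g y ^ 2 ≤ 2 * t + C * Θ ^ 4 / (2 * t) := by
    intro t ht
    have h1 : ∫ y in closedBall (0 : V) 1, g y ^ 2 ≤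
        ∫ y in closedBall (0 : V) 1, (t / 2 + 1 / (2 * t) * g y ^ 4) := by
      refine setIntegral_mono_on i2 ?_ measurableSet_closedBall fun y _ => ?_
      · exact (continuousOn_const.add (continuousOn_const.mul (hg.pow 4))).integrableOn_compact hK
      · have h2 : 0 ≤ (t - g y ^ 2) ^ 2 / (2 * t) := by positivity
        have h3 : t / 2 + 1 / (2 * t) * g y ^ 4 - g y ^ 2 = (t - g y ^ 2) ^ 2 / (2 * t) := by
          field_simp; ring
        linarith
    have h2 : ∫ y in closedBall (0 : V) 1, (t / 2 + 1 / (2 * t) * g y ^ 4) =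
        2 * t + 1 / (2 * t) * ∫ y in closedBall (0 : V) 1, g y ^ 4 := by
      rw [integral_add ((continuousOn_const (c := t / 2)).integrableOn_compact hK)
        (i4.const_mul _), integral_const_mul, setIntegral_const, smul_eq_mul]
      have h3 : volume.real (closedBall (0 : V) 1) = 4 := by
        have := volume_closedBall_real (0 : V) (zero_le_one (α := ℝ))
        rw [Measure.real, this]; norm_num
      rw [h3]; ring
    have h3 : 1 / (2 * t) * ∫ y in closedBall (0 : V) 1, g y ^ 4 ≤ 1 / (2 * t) * (C * Θ ^ 4) :=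
      mul_le_mul_of_nonneg_left h4 (by positivity)
    have h4' : 1 / (2 * t) * (C * Θ ^ 4) = C * Θ ^ 4 / (2 * t) := by ring
    linarith
  rcases hΘ.eq_or_lt with h0 | hpos
  · subst h0
    refine le_of_forall_pos_le_add fun e he => ?_
    have := key (e / 2) (half_pos he)
    simp at this ⊢
    linarith
  · have h1 := key (Θ ^ 2) (by positivity)
    have h2 : 2 * Θ ^ 2 + C * Θ ^ 4 / (2 * Θ ^ 2) = (2 + C / 2) * Θ ^ 2 := by
      field_simp
    linarith

theorem osc4 {N₀ : V → ℝ} (h₀ : Nice N₀) :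
    ∃ ε₁ > 0, ∃ C > 0, ∀ (R ε Θ : ℝ), 1 ≤ R → ε ≤ ε₁ → 0 ≤ Θ → ∀ (U : Set V) (F : V → V → ℝ),
      Loc N₀ R ε Θ U F →
      (∀ u, ‖u‖ = 1 → (∀ y ∈ closedBall (0 : V) R, 0 < F y u ∧
          |Real.log (F y u) - Real.log (N₀ u)| ≤ C * ε) ∧
        ∃ a, |a - Real.log (N₀ u)| ≤ C * ε ∧
          ∫ y in closedBall (0 : V) 1, (Real.log (F y u) - a) ^ 4 ≤ C * Θ ^ 4 ∧
          ∫ y in closedBall (0 : V) 1, (Real.log (F y u) - a) ^ 2 ≤ C * Θ ^ 2) ∧
      (∀ y ∈ closedBall (0 : V) R, |lc F y - Real.log (rc N₀)| ≤ C * ε) ∧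
      ∃ b, |b - Real.log (rc N₀)| ≤ C * ε ∧
        ∫ y in closedBall (0 : V) 1, (lc F y - b) ^ 4 ≤ C * Θ ^ 4 ∧
        ∫ y in closedBall (0 : V) 1, (lc F y - b) ^ 2 ≤ C * Θ ^ 2 := by
  obtain ⟨c₀, hc₀, hlow⟩ := h₀.toNormV.exists_lower
  obtain ⟨C4, hC4, hjn⟩ := jn4
  set C₀ : ℝ := N₀ (1, 0) + N₀ (0, 1) with hC₀
  have hup : ∀ u, N₀ u ≤ C₀ * ‖u‖ := fun u => h₀.toNormV.le_mul_norm u
  set K1 : ℝ := C4 * (4 / c₀) ^ 4 with hK1
  have hK1pos : 0 < K1 := by positivity
  set C : ℝ := 4 / c₀ + K1 + (2 + K1 / 2) + C4 + (2 + C4 / 2) with hC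
  have h4c : 0 < 4 / c₀ := by positivity
  have hCa : 4 / c₀ ≤ C := by rw [hC]; linarith
  have hCb : K1 ≤ C := by rw [hC]; linarith
  have hCc : 2 + K1 / 2 ≤ C := by rw [hC]; linarith
  have hCd : C4 ≤ C := by rw [hC]; linarith
  have hCe : 2 + C4 / 2 ≤ C := by rw [hC]; linarith
  have hCpos : 0 < C := h4c.trans_le hCa
  refine ⟨min (c₀ / 2) 1, lt_min (half_pos hc₀) one_pos, C, hCpos, ?_⟩
  intro R ε Θ hR hε hΘ U F L
  have hε1 : ε ≤ c₀ / 2 := hε.trans (min_le_left _ _)
  have hε2 : ε ≤ 1 := hε.trans (min_le_right _ _)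
  have hR0 : 0 ≤ R := zero_le_one.trans hR
  have hε0 : 0 ≤ ε := by
    have := L.near 0 (by rw [mem_closedBall_zero_iff, norm_zero]; exact hR0) (1, 0)
    have h1 : ‖((1, 0) : V)‖ = 1 := by simp
    rw [h1, mul_one] at this
    exact (abs_nonneg _).trans this
  have hUR : ∀ y ∈ closedBall (0 : V) R, y ∈ U := fun y hy => L.sub hy
  have h1R : closedBall (0 : V) 1 ⊆ closedBall 0 R := closedBall_subset_closedBall hR
  have lower : ∀ y ∈ closedBall (0 : V) R, ∀ u, c₀ / 2 * ‖u‖ ≤ F y u := by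
    intro y hy u
    have h1 := (abs_le.mp (L.near y hy u)).1
    have h2 := hlow u
    have h3 : ε * ‖u‖ ≤ c₀ / 2 * ‖u‖ := mul_le_mul_of_nonneg_right hε1 (norm_nonneg _)
    have h4 : c₀ * ‖u‖ = c₀ / 2 * ‖u‖ + c₀ / 2 * ‖u‖ := by ring
    linarith
  have upper : ∀ y ∈ closedBall (0 : V) R, ∀ u, ‖u‖ = 1 → F y u ≤ C₀ + 1 := by
    intro y hy u hu
    have h1 := (abs_le.mp (L.near y hy u)).2
    have h2 := hup u
    rw [hu, mul_one] at h1 h2
    linarith
  have hlow' : ∀ u, c₀ / 2 * ‖u‖ ≤ N₀ u := by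
    intro u
    have h1 := hlow u
    have h2 : 0 ≤ c₀ / 2 * ‖u‖ := by positivity
    have h4 : c₀ * ‖u‖ = c₀ / 2 * ‖u‖ + c₀ / 2 * ‖u‖ := by ring
    linarith
  have hm : 0 < c₀ / 2 := half_pos hc₀
  have hinv : 1 / (c₀ / 2) = 2 / c₀ := by field_simp
  have h24 : (2 / c₀) * ε ≤ C * ε := by
    have h1 : 2 / c₀ ≤ 4 / c₀ := by
      have : 4 / c₀ = 2 / c₀ + 2 / c₀ := by ring
      have h2 : 0 < 2 / c₀ := by positivity
      linarith
    exact mul_le_mul_of_nonneg_right (h1.trans hCa) hε0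
  refine ⟨fun u hu => ?_, ?_, ?_⟩
  · -- the functions `log F`
    have hpos : ∀ y ∈ closedBall (0 : V) R, c₀ / 2 ≤ F y u := by
      intro y hy
      have := lower y hy u
      rwa [hu, mul_one] at this
    have hN0 : c₀ / 2 ≤ N₀ u := by
      have := hlow' u
      rwa [hu, mul_one] at this
    have hlog : ∀ y ∈ closedBall (0 : V) R,
        |Real.log (F y u) - Real.log (N₀ u)| ≤ (2 / c₀) * ε := by
      intro y hy
      refine (osc_log_lip hm (hpos y hy) hN0).trans ?_
      rw [hinv]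
      have h1 := L.near y hy u
      rw [hu, mul_one] at h1
      exact mul_le_mul_of_nonneg_left h1 (by positivity)
    have hFc : ContinuousOn (fun y => F y u) U := L.rp.toHP.continuousOn_left u
    have hlc : ContinuousOn (fun y => Real.log (F y u)) (closedBall (0 : V) R) :=
      (hFc.mono L.sub).log fun y hy => (hm.trans_le (hpos y hy)).ne'
    have hlc1 : ContinuousOn (fun y => Real.log (F y u)) (closedBall (0 : V) 1) := hlc.mono h1R
    refine ⟨fun y hy => ⟨hm.trans_le (hpos y hy), (hlog y hy).trans h24⟩, ?_⟩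
    have hmo : ∀ x r, 0 < r → closedBall x r ⊆ closedBall (0 : V) 1 →
        mo (fun y => Real.log (F y u)) x r ≤ (4 / c₀) * Θ := by
      intro x r hr hsub
      have hsubR : closedBall x r ⊆ closedBall (0 : V) R := hsub.trans h1R
      have h1 := mo_comp_lip (h := fun y => F y u) (a := c₀ / 2) (b := C₀ + 1) (L := 2 / c₀)
        hr.le (hFc.mono (hsubR.trans L.sub))
        (fun y hy => ⟨hpos y (hsubR hy), upper y (hsubR hy) u hu⟩) (φ := Real.log)
        (by positivity) (fun s hs t ht => by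
          have := osc_log_lip hm hs.1 ht.1
          rwa [hinv] at this)
      have h2 : mo (fun y => F y u) x r ≤ Θ := (L.ob x r hr hsubR).1 u hu
      have h3 : 2 * (2 / c₀) * mo (fun y => F y u) x r ≤ 2 * (2 / c₀) * Θ :=
        mul_le_mul_of_nonneg_left h2 (by positivity)
      have h4 : 2 * (2 / c₀) * Θ = (4 / c₀) * Θ := by ring
      linarith
    have hj := hjn (fun y => Real.log (F y u)) ((4 / c₀) * Θ) hlc1 (by positivity) hmo
    have hj' : ∫ y in closedBall (0 : V) 1, (Real.log (F y u) -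
        av (fun y => Real.log (F y u)) 0 1) ^ 4 ≤ K1 * Θ ^ 4 := by
      refine hj.trans (le_of_eq ?_)
      rw [hK1, mul_pow]; ring
    refine ⟨av (fun y => Real.log (F y u)) 0 1, ?_, ?_, ?_⟩
    · exact (abs_av_sub_le_of_sup zero_le_one hlc1 fun y hy => hlog y (h1R hy)).trans h24
    · exact hj'.trans (mul_le_mul_of_nonneg_right hCb (by positivity))
    · exact (osc_l2 (hlc1.sub continuousOn_const) hΘ hj').trans
        (mul_le_mul_of_nonneg_right hCc (by positivity))
  · -- the pointwise bound for `lc F`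
    intro y hy
    have h1 := lrc_near (L.rp.norm y (hUR y hy)) h₀.toNormV hm hε0 (lower y hy) hlow'
      (L.near y hy)
    refine h1.trans ?_
    have h2 : 2 * ε / (c₀ / 2) = (4 / c₀) * ε := by field_simp; ring
    rw [h2]
    exact mul_le_mul_of_nonneg_right hCa hε0
  · have hlc : ContinuousOn (lc F) (closedBall (0 : V) 1) :=
      (lc_continuousOn L.rp.toHP).mono (h1R.trans L.sub)
    have hj := hjn (lc F) Θ hlc hΘ fun x r hr hsub => (L.ob x r hr (hsub.trans h1R)).2
    refine ⟨av (lc F) 0 1, ?_, ?_, ?_⟩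
    · refine abs_av_sub_le_of_sup zero_le_one hlc fun y hy => ?_
      have h1 := lrc_near (L.rp.norm y (hUR y (h1R hy))) h₀.toNormV hm hε0 (lower y (h1R hy))
        hlow' (L.near y (h1R hy))
      refine h1.trans ?_
      have h2 : 2 * ε / (c₀ / 2) = (4 / c₀) * ε := by field_simp; ring
      rw [h2]
      exact mul_le_mul_of_nonneg_right hCa hε0
    · exact hj.trans (mul_le_mul_of_nonneg_right hCd (by positivity))
    · exact (osc_l2 (hlc.sub continuousOn_const) hΘ hj).trans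
        (mul_le_mul_of_nonneg_right hCe (by positivity))

end Pool.Agent.L1de93c
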