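import Pool.Agent.Lib_MP_1de93e_cont.EL
import Pool.Agent.Lib_MP_1de93e_cont.Osc

/-!
# PIECE E2: the logarithmic defect is small in `L²`

Let `η > 0` be small (chosen at the end), `el` gives `R, ε, w`; `‖w‖` is between `c₀/2`
(`N₀ u = dt u w ≤ 2 ‖w‖`) and `K₀ + 1`. Let
`E y = log (F y u) + log (F y w) - lc F y - log (dt u w)` on `Q = closedBall 0 (1/2)`; `E ≥ 0` by
`rc_mul_le`, and `log (1 + x) ≤ x` gives `E ≤ (F y u F y w - rc dt u w)/(rc dt u w) ≤ C (F y u F y w - rc dt u w)`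
(lower bound for `rc (F y)`: `osc4`, or `rc_mono`). So `∫_Q E ≤ C η Θ`.
By `osc4` (for `u` and for `w/‖w‖`, and for `lc F`) there is a constant `e` with `∫_Q (E - e)⁴ ≤ C Θ⁴`;
`|e| ≤ C (∫_Q |E| + ∫_Q |E - e|) ≤ C (η + 1) Θ`, so `∫_Q E⁴ ≤ C Θ⁴`. For every `λ > 0`, pointwise
`E² ≤ λ Θ E + E⁴ / (λ Θ)²` (distinguish `E ≤ λ Θ` or not). So
`∫_Q E² ≤ (C λ η + C λ⁻²) Θ²`; choose `λ` large and then `η` small (`η ≤ κ`).
-/

namespace Pool.Agent.L1de93c

open MeasureTheory Metric Set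

private theorem e2_vol : volume.real (closedBall (0 : V) (1 / 2)) = 1 := by
  have h := volume_closedBall_real (0 : V) (r := 1 / 2) (by norm_num)
  rw [Measure.real, h]; norm_num

private theorem e2_add4 (a b : ℝ) : (a + b) ^ 4 ≤ 8 * a ^ 4 + 8 * b ^ 4 := by
  have h1 : (a + b) ^ 2 ≤ 2 * (a ^ 2 + b ^ 2) := by nlinarith [sq_nonneg (a - b)]
  have h2 : ((a + b) ^ 2) ^ 2 ≤ (2 * (a ^ 2 + b ^ 2)) ^ 2 := pow_le_pow_left₀ (sq_nonneg _) h1 2
  nlinarith [sq_nonneg (a ^ 2 - b ^ 2)]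

private theorem e2_add34 (a b c : ℝ) : (a + b - c) ^ 4 ≤ 27 * a ^ 4 + 27 * b ^ 4 + 27 * c ^ 4 := by
  have h1 : (a + b - c) ^ 2 ≤ 3 * (a ^ 2 + b ^ 2 + c ^ 2) := by
    nlinarith [sq_nonneg (a - b), sq_nonneg (a + c), sq_nonneg (b + c)]
  have h2 : ((a + b - c) ^ 2) ^ 2 ≤ (3 * (a ^ 2 + b ^ 2 + c ^ 2)) ^ 2 :=
    pow_le_pow_left₀ (sq_nonneg _) h1 2
  nlinarith [sq_nonneg (a ^ 2 - b ^ 2), sq_nonneg (a ^ 2 - c ^ 2), sq_nonneg (b ^ 2 - c ^ 2)]

private theorem e2_abs {Θ : ℝ} (hΘ : 0 < Θ) (x : ℝ) : |x| ≤ Θ + 1 / Θ ^ 3 * x ^ 4 := by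
  set t := |x| / Θ with ht
  have hx : |x| = t * Θ := by rw [ht]; field_simp
  have hx4 : x ^ 4 = t ^ 4 * Θ ^ 4 := by
    rw [← mul_pow, ← hx, pow_abs, abs_of_nonneg (by positivity)]
  have h1 : 1 / Θ ^ 3 * x ^ 4 = t ^ 4 * Θ := by rw [hx4]; field_simp
  have h2 : t ≤ 1 + t ^ 4 := by nlinarith [sq_nonneg (t ^ 2 - 1 / 2), sq_nonneg (t - 1 / 2)]
  rw [h1, hx]
  nlinarith

private theorem e2_core {E : V → ℝ} {A B Θ e : ℝ}
    (hE : ContinuousOn E (closedBall (0 : V) (1 / 2)))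
    (h0 : ∀ y ∈ closedBall (0 : V) (1 / 2), 0 ≤ E y) (hΘ : 0 < Θ)
    (h1 : ∫ y in closedBall (0 : V) (1 / 2), E y ≤ A * Θ)
    (h4 : ∫ y in closedBall (0 : V) (1 / 2), (E y - e) ^ 4 ≤ B * Θ ^ 4) {l : ℝ} (hl : 0 < l) :
    ∫ y in closedBall (0 : V) (1 / 2), E y ^ 2 ≤
      (l * A + 8 * (B + (A + B + 1) ^ 4) / l ^ 2) * Θ ^ 2 := by
  have hK : IsCompact (closedBall (0 : V) (1 / 2)) := isCompact_closedBall _ _
  have iE : IntegrableOn E (closedBall (0 : V) (1 / 2)) := hE.integrableOn_compact hK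
  have iE4 : IntegrableOn (fun y => E y ^ 4) (closedBall (0 : V) (1 / 2)) :=
    (hE.pow 4).integrableOn_compact hK
  have iE2 : IntegrableOn (fun y => E y ^ 2) (closedBall (0 : V) (1 / 2)) :=
    (hE.pow 2).integrableOn_compact hK
  have id1 : IntegrableOn (fun y => E y - e) (closedBall (0 : V) (1 / 2)) :=
    (hE.sub continuousOn_const).integrableOn_compact hK
  have id4 : IntegrableOn (fun y => (E y - e) ^ 4) (closedBall (0 : V) (1 / 2)) :=
    ((hE.sub continuousOn_const).pow 4).integrableOn_compact hK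
  have ic : ∀ c : ℝ, IntegrableOn (fun _ : V => c) (closedBall (0 : V) (1 / 2)) := fun c =>
    continuousOn_const.integrableOn_compact hK
  have vc : ∀ c : ℝ, ∫ _ in closedBall (0 : V) (1 / 2), c = c := by
    intro c; rw [setIntegral_const, e2_vol, smul_eq_mul, one_mul]
  have b1 : ∫ y in closedBall (0 : V) (1 / 2), |E y - e| ≤ (B + 1) * Θ := by
    have h : ∫ y in closedBall (0 : V) (1 / 2), |E y - e| ≤
        ∫ y in closedBall (0 : V) (1 / 2), (Θ + (1 / Θ ^ 3) * (E y - e) ^ 4) :=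
      setIntegral_mono_on id1.abs ((ic Θ).add (id4.const_mul _)) measurableSet_closedBall
        fun y _ => e2_abs hΘ _
    have h' : ∫ y in closedBall (0 : V) (1 / 2), (Θ + (1 / Θ ^ 3) * (E y - e) ^ 4) =
        Θ + 1 / Θ ^ 3 * ∫ y in closedBall (0 : V) (1 / 2), (E y - e) ^ 4 := by
      rw [integral_add (ic Θ) (id4.const_mul _), vc, integral_const_mul]
    have h'' : 1 / Θ ^ 3 * ∫ y in closedBall (0 : V) (1 / 2), (E y - e) ^ 4 ≤
        1 / Θ ^ 3 * (B * Θ ^ 4) := mul_le_mul_of_nonneg_left h4 (by positivity)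
    have h3 : 1 / Θ ^ 3 * (B * Θ ^ 4) = B * Θ := by field_simp
    linarith
  have b2 : |e| ≤ (A + B + 1) * Θ := by
    have h : e = (∫ y in closedBall (0 : V) (1 / 2), E y) -
        ∫ y in closedBall (0 : V) (1 / 2), (E y - e) := by
      rw [integral_sub iE (ic e), vc]; ring
    have h2 : |∫ y in closedBall (0 : V) (1 / 2), (E y - e)| ≤
        ∫ y in closedBall (0 : V) (1 / 2), |E y - e| := abs_integral_le_integral_abs
    have h3 : 0 ≤ ∫ y in closedBall (0 : V) (1 / 2), E y :=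
      setIntegral_nonneg measurableSet_closedBall h0
    have h5 := (abs_le.mp (h2.trans b1))
    rw [abs_le]
    constructor
    · linarith [h5.2]
    · linarith [h5.1]
  have b3 : ∫ y in closedBall (0 : V) (1 / 2), E y ^ 4 ≤ 8 * (B + (A + B + 1) ^ 4) * Θ ^ 4 := by
    have h : ∫ y in closedBall (0 : V) (1 / 2), E y ^ 4 ≤
        ∫ y in closedBall (0 : V) (1 / 2), (8 * (E y - e) ^ 4 + 8 * e ^ 4) :=
      setIntegral_mono_on iE4 ((id4.const_mul _).add (ic _)) measurableSet_closedBall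
        fun y _ => by
          have := e2_add4 (E y - e) e
          rwa [sub_add_cancel] at this
    have h' : ∫ y in closedBall (0 : V) (1 / 2), (8 * (E y - e) ^ 4 + 8 * e ^ 4) =
        8 * (∫ y in closedBall (0 : V) (1 / 2), (E y - e) ^ 4) + 8 * e ^ 4 := by
      rw [integral_add (id4.const_mul _) (ic _), vc, integral_const_mul]
    have h2 : e ^ 4 ≤ (A + B + 1) ^ 4 * Θ ^ 4 := by
      rw [← mul_pow]
      have : |e| ^ 4 ≤ ((A + B + 1) * Θ) ^ 4 := pow_le_pow_left₀ (abs_nonneg _) b2 4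
      rwa [pow_abs, abs_of_nonneg (by positivity)] at this
    nlinarith
  have h : ∫ y in closedBall (0 : V) (1 / 2), E y ^ 2 ≤
      ∫ y in closedBall (0 : V) (1 / 2), (l * Θ * E y + 1 / (l * Θ) ^ 2 * E y ^ 4) := by
    refine setIntegral_mono_on iE2 ((iE.const_mul _).add (iE4.const_mul _))
      measurableSet_closedBall fun y hy => ?_
    have ht : 0 < l * Θ := mul_pos hl hΘ
    have hy0 := h0 y hy
    rcases le_total (E y) (l * Θ) with h5 | h5
    · have h6 : E y ^ 2 ≤ l * Θ * E y := by nlinarith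
      have h7 : 0 ≤ 1 / (l * Θ) ^ 2 * E y ^ 4 := by positivity
      linarith
    · have h6 : 0 ≤ l * Θ * E y := by positivity
      have h7 : E y ^ 2 ≤ 1 / (l * Θ) ^ 2 * E y ^ 4 := by
        rw [one_div, inv_mul_eq_div, le_div_iff₀ (by positivity)]
        have h8 : (l * Θ) ^ 2 ≤ E y ^ 2 := pow_le_pow_left₀ ht.le h5 2
        nlinarith [sq_nonneg (E y)]
      linarith
  have h' : ∫ y in closedBall (0 : V) (1 / 2), (l * Θ * E y + 1 / (l * Θ) ^ 2 * E y ^ 4) =
      l * Θ * (∫ y in closedBall (0 : V) (1 / 2), E y) +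
        1 / (l * Θ) ^ 2 * ∫ y in closedBall (0 : V) (1 / 2), E y ^ 4 := by
    rw [integral_add (iE.const_mul _) (iE4.const_mul _), integral_const_mul, integral_const_mul]
  have h2 : l * Θ * (∫ y in closedBall (0 : V) (1 / 2), E y) ≤ l * Θ * (A * Θ) :=
    mul_le_mul_of_nonneg_left h1 (by positivity)
  have h3 : 1 / (l * Θ) ^ 2 * ∫ y in closedBall (0 : V) (1 / 2), E y ^ 4 ≤
      1 / (l * Θ) ^ 2 * (8 * (B + (A + B + 1) ^ 4) * Θ ^ 4) :=
    mul_le_mul_of_nonneg_left b3 (by positivity)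
  have h5 : l * Θ * (A * Θ) + 1 / (l * Θ) ^ 2 * (8 * (B + (A + B + 1) ^ 4) * Θ ^ 4) =
      (l * A + 8 * (B + (A + B + 1) ^ 4) / l ^ 2) * Θ ^ 2 := by
    field_simp
  linarith

theorem e2 {N₀ : V → ℝ} (h₀ : Nice N₀) :
    ∃ R : ℝ, 1 ≤ R ∧ ∀ κ > 0, ∃ ε > 0, ∀ Θ > 0, ∀ (U : Set V) (F : V → V → ℝ), Loc N₀ R ε Θ U F →
      ∀ u, ‖u‖ = 1 → ∃ w, ‖w - cj N₀ u‖ ≤ κ ∧ dt u w = N₀ u ∧
        ∫ y in closedBall (0 : V) (1 / 2),
          (Real.log (F y u) + Real.log (F y w) - lc F y - Real.log (dt u w)) ^ 2 ≤ (κ * Θ) ^ 2 := by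
  obtain ⟨R, hR, hel⟩ := el h₀
  obtain ⟨ε₁, hε₁, C, hC, hosc⟩ := osc4 h₀
  obtain ⟨c₀, hc₀, hlow⟩ := h₀.toNormV.exists_lower
  have hm : 0 < rc N₀ := rc_pos h₀.toNormV
  refine ⟨R, hR, fun κ hκ => ?_⟩
  -- constants
  obtain ⟨K, hK⟩ : ∃ K, K = Real.exp 1 / (rc N₀ * c₀) := ⟨_, rfl⟩
  have hK0 : 0 < K := by rw [hK]; positivity
  obtain ⟨B, hB⟩ : ∃ B, B = 81 * C := ⟨_, rfl⟩
  have hB0 : 0 < B := by rw [hB]; positivity
  obtain ⟨D, hD⟩ : ∃ D, D = 8 * (B + (K + B + 1) ^ 4) := ⟨_, rfl⟩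
  have hD0 : 0 < D := by rw [hD]; positivity
  obtain ⟨l, hl⟩ : ∃ l, l = 2 * D / κ ^ 2 + 1 := ⟨_, rfl⟩
  have hl1 : 1 ≤ l := by
    have : 0 < 2 * D / κ ^ 2 := by positivity
    linarith
  have hl0 : 0 < l := by linarith
  have hDl : D / l ^ 2 ≤ κ ^ 2 / 2 := by
    rw [div_le_iff₀ (by positivity)]
    have h1 : l ≤ l ^ 2 := by nlinarith
    have h2 : κ ^ 2 * (2 * D / κ ^ 2) = 2 * D := by field_simp
    have h3 : κ ^ 2 * l = 2 * D + κ ^ 2 := by rw [hl, mul_add, h2, mul_one]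
    have h4 : κ ^ 2 * l ≤ κ ^ 2 * l ^ 2 := mul_le_mul_of_nonneg_left h1 (by positivity)
    nlinarith [sq_nonneg κ]
  obtain ⟨η, hη⟩ : ∃ η, η = min (min κ 1) (κ ^ 2 / (2 * l * K)) := ⟨_, rfl⟩
  have hη0 : 0 < η := by
    rw [hη]; exact lt_min (lt_min hκ one_pos) (by positivity)
  have hηκ : η ≤ κ := by rw [hη]; exact (min_le_left _ _).trans (min_le_left _ _)
  have hη1 : η ≤ 1 := by rw [hη]; exact (min_le_left _ _).trans (min_le_right _ _)
  have hηl : l * (K * η) ≤ κ ^ 2 / 2 := by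
    have h1 : η ≤ κ ^ 2 / (2 * l * K) := by rw [hη]; exact min_le_right _ _
    have h2 : l * (K * η) ≤ l * (K * (κ ^ 2 / (2 * l * K))) := by gcongr
    have h3 : l * (K * (κ ^ 2 / (2 * l * K))) = κ ^ 2 / 2 := by field_simp
    linarith
  obtain ⟨ε₂, hε₂, hel2⟩ := hel η hη0
  obtain ⟨ε, hε⟩ : ∃ ε, ε = min (min ε₂ ε₁) (1 / C) := ⟨_, rfl⟩
  have hε0 : 0 < ε := by
    rw [hε]; exact lt_min (lt_min hε₂ hε₁) (by positivity)
  have hεa : ε ≤ ε₂ := by rw [hε]; exact (min_le_left _ _).trans (min_le_left _ _)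
  have hεb : ε ≤ ε₁ := by rw [hε]; exact (min_le_left _ _).trans (min_le_right _ _)
  have hεc : C * ε ≤ 1 := by
    have h1 : ε ≤ 1 / C := by rw [hε]; exact min_le_right _ _
    rw [le_div_iff₀ hC] at h1
    linarith
  refine ⟨ε, hε0, fun Θ hΘ U F L u hu => ?_⟩
  have L2 : Loc N₀ R ε₂ Θ U F := ⟨L.rp, L.sub, fun y hy v =>
    (L.near y hy v).trans (mul_le_mul_of_nonneg_right hεa (norm_nonneg _)), L.ob⟩
  obtain ⟨w, hw, hdw, hint⟩ := hel2 Θ hΘ U F L2 u hu
  refine ⟨w, hw.trans hηκ, hdw, ?_⟩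
  obtain ⟨hoscu, hlcp, b, -, hb4, -⟩ := hosc R ε Θ hR hεb hΘ.le U F L
  have hu0 : u ≠ 0 := by
    rintro rfl
    simp at hu
  have hNu : c₀ ≤ N₀ u := by
    have := hlow u
    rwa [hu, mul_one] at this
  have hd0 : 0 < dt u w := by rw [hdw]; linarith
  have hw0 : w ≠ 0 := by
    rintro rfl
    simp [dt] at hd0
  have hwn : 0 < ‖w‖ := norm_pos_iff.mpr hw0
  have hw1 : ‖(‖w‖⁻¹ • w)‖ = 1 := by
    rw [norm_smul, norm_inv, norm_norm, inv_mul_cancel₀ hwn.ne']
  obtain ⟨-, a₁, -, ha₁, -⟩ := hoscu u hu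
  obtain ⟨-, a₂, -, ha₂, -⟩ := hoscu _ hw1
  -- the sets
  have hQ1 : closedBall (0 : V) (1 / 2) ⊆ closedBall 0 1 :=
    closedBall_subset_closedBall (by norm_num)
  have hQR : closedBall (0 : V) (1 / 2) ⊆ closedBall 0 R :=
    hQ1.trans (closedBall_subset_closedBall hR)
  have hQU : closedBall (0 : V) (1 / 2) ⊆ U := hQR.trans L.sub
  have hQc : IsCompact (closedBall (0 : V) (1 / 2)) := isCompact_closedBall _ _
  have h1c : IsCompact (closedBall (0 : V) 1) := isCompact_closedBall _ _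
  have h1U : closedBall (0 : V) 1 ⊆ U := (closedBall_subset_closedBall hR).trans L.sub
  have hN : ∀ y ∈ U, NormV (F y) := L.rp.norm
  have hFp : ∀ y ∈ U, ∀ v, v ≠ 0 → 0 < F y v := fun y hy v hv => (hN y hy).pos v hv
  have hFc : ∀ v, ContinuousOn (fun y => F y v) U := fun v => L.rp.toHP.continuousOn_left v
  have hlF : ∀ v, v ≠ 0 → ContinuousOn (fun y => Real.log (F y v)) U := fun v hv =>
    (hFc v).log fun y hy => (hFp y hy v hv).ne'
  have hlc : ContinuousOn (lc F) U := lc_continuousOn L.rp.toHP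
  have hrp : ∀ y ∈ U, 0 < rc (F y) := fun y hy => rc_pos (hN y hy)
  have hrc : ContinuousOn (fun y => rc (F y)) U := by
    refine (Real.continuous_exp.comp_continuousOn hlc).congr fun y hy => ?_
    simp only [Function.comp, lc]
    rw [Real.exp_log (hrp y hy)]
  have hEc : ContinuousOn (fun y => Real.log (F y u) + Real.log (F y w) - lc F y -
      Real.log (dt u w)) (closedBall (0 : V) (1 / 2)) :=
    ((((hlF u hu0).add (hlF w hw0)).sub hlc).sub continuousOn_const).mono hQU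
  have hgc : ContinuousOn (fun y => F y u * F y w - rc (F y) * dt u w)
      (closedBall (0 : V) (1 / 2)) :=
    (((hFc u).mul (hFc w)).sub (hrc.mul continuousOn_const)).mono hQU
  -- the key pointwise facts
  have hE0 : ∀ y ∈ closedBall (0 : V) (1 / 2),
      0 ≤ Real.log (F y u) + Real.log (F y w) - lc F y - Real.log (dt u w) := by
    intro y hy
    have hyU := hQU hy
    have h1 := rc_mul_le (hN y hyU) u w
    rw [abs_of_pos hd0] at h1
    have h2 : Real.log (rc (F y) * dt u w) ≤ Real.log (F y u * F y w) :=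
      Real.log_le_log (mul_pos (hrp y hyU) hd0) h1
    rw [Real.log_mul (hrp y hyU).ne' hd0.ne', Real.log_mul (hFp y hyU u hu0).ne'
      (hFp y hyU w hw0).ne'] at h2
    unfold lc
    linarith
  have hEle : ∀ y ∈ closedBall (0 : V) (1 / 2),
      Real.log (F y u) + Real.log (F y w) - lc F y - Real.log (dt u w) ≤
        K * (F y u * F y w - rc (F y) * dt u w) := by
    intro y hy
    have hyU := hQU hy
    have hr := hrp y hyU
    have hP : 0 < F y u * F y w := mul_pos (hFp y hyU u hu0) (hFp y hyU w hw0)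
    have hrd : 0 < rc (F y) * dt u w := mul_pos hr hd0
    have h1 := rc_mul_le (hN y hyU) u w
    rw [abs_of_pos hd0] at h1
    have h2 := Real.log_le_sub_one_of_pos (div_pos hP hrd)
    rw [Real.log_div hP.ne' hrd.ne', Real.log_mul hr.ne' hd0.ne',
      Real.log_mul (hFp y hyU u hu0).ne' (hFp y hyU w hw0).ne'] at h2
    have h3 : F y u * F y w / (rc (F y) * dt u w) - 1 =
        (F y u * F y w - rc (F y) * dt u w) / (rc (F y) * dt u w) := by
      field_simp
    -- lower bound for the Radon constant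
    have h4 : rc N₀ / Real.exp 1 ≤ rc (F y) := by
      have h5 := (abs_le.mp (hlcp y (hQR hy))).1
      have h6 : Real.log (rc N₀) - 1 ≤ lc F y := by linarith
      have h7 := Real.exp_le_exp.mpr h6
      rw [Real.exp_sub, Real.exp_log hm] at h7
      unfold lc at h7
      rwa [Real.exp_log hr] at h7
    have h5 : rc N₀ / Real.exp 1 * c₀ ≤ rc (F y) * dt u w := by
      rw [hdw]
      exact mul_le_mul h4 hNu hc₀.le hr.le
    have h6 : (F y u * F y w - rc (F y) * dt u w) / (rc (F y) * dt u w) ≤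
        (F y u * F y w - rc (F y) * dt u w) / (rc N₀ / Real.exp 1 * c₀) :=
      div_le_div_of_nonneg_left (by linarith) (by positivity) h5
    have h7 : (F y u * F y w - rc (F y) * dt u w) / (rc N₀ / Real.exp 1 * c₀) =
        K * (F y u * F y w - rc (F y) * dt u w) := by
      rw [hK]; field_simp
    unfold lc
    linarith
  -- the integral of the defect
  have hI1 : ∫ y in closedBall (0 : V) (1 / 2),
      (Real.log (F y u) + Real.log (F y w) - lc F y - Real.log (dt u w)) ≤ K * η * Θ := by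
    have h1 : ∫ y in closedBall (0 : V) (1 / 2),
        (Real.log (F y u) + Real.log (F y w) - lc F y - Real.log (dt u w)) ≤
        ∫ y in closedBall (0 : V) (1 / 2), K * (F y u * F y w - rc (F y) * dt u w) :=
      setIntegral_mono_on (hEc.integrableOn_compact hQc)
        ((hgc.integrableOn_compact hQc).const_mul K) measurableSet_closedBall hEle
    rw [integral_const_mul] at h1
    have h2 := mul_le_mul_of_nonneg_left hint hK0.le
    linarith
  -- the fourth moment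
  have hlog : ∀ y ∈ closedBall (0 : V) (1 / 2),
      Real.log (F y w) = Real.log ‖w‖ + Real.log (F y (‖w‖⁻¹ • w)) := by
    intro y hy
    have hyU := hQU hy
    rw [(hN y hyU).smul_nonneg (inv_nonneg.mpr hwn.le), Real.log_mul (inv_pos.mpr hwn).ne'
      (hFp y hyU w hw0).ne', Real.log_inv]
    ring
  have hw0' : ‖w‖⁻¹ • w ≠ 0 := by
    intro h
    rw [h, norm_zero] at hw1
    exact zero_ne_one hw1
  obtain ⟨f₁, hf₁⟩ : ∃ f : V → ℝ, f = fun y => (Real.log (F y u) - a₁) ^ 4 := ⟨_, rfl⟩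
  obtain ⟨f₂, hf₂⟩ : ∃ f : V → ℝ, f = fun y => (Real.log (F y (‖w‖⁻¹ • w)) - a₂) ^ 4 := ⟨_, rfl⟩
  obtain ⟨f₃, hf₃⟩ : ∃ f : V → ℝ, f = fun y => (lc F y - b) ^ 4 := ⟨_, rfl⟩
  have c₁ : ContinuousOn f₁ U := by rw [hf₁]; exact ((hlF u hu0).sub continuousOn_const).pow 4
  have c₂ : ContinuousOn f₂ U := by rw [hf₂]; exact ((hlF _ hw0').sub continuousOn_const).pow 4
  have c₃ : ContinuousOn f₃ U := by rw [hf₃]; exact (hlc.sub continuousOn_const).pow 4
  have small : ∀ f : V → ℝ, ContinuousOn f U → (∀ y, 0 ≤ f y) →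
      ∫ y in closedBall (0 : V) 1, f y ≤ C * Θ ^ 4 →
      ∫ y in closedBall (0 : V) (1 / 2), f y ≤ C * Θ ^ 4 := by
    intro f hf hf0 hf1
    refine (setIntegral_mono_set ((hf.mono h1U).integrableOn_compact h1c) ?_ ?_).trans hf1
    · exact Filter.Eventually.of_forall hf0
    · exact Filter.Eventually.of_forall hQ1
  have s₁ := small f₁ c₁ (fun y => by rw [hf₁]; positivity) (by rw [hf₁]; exact ha₁)
  have s₂ := small f₂ c₂ (fun y => by rw [hf₂]; positivity) (by rw [hf₂]; exact ha₂)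
  have s₃ := small f₃ c₃ (fun y => by rw [hf₃]; positivity) (by rw [hf₃]; exact hb4)
  have i₁ : IntegrableOn f₁ (closedBall (0 : V) (1 / 2)) := (c₁.mono hQU).integrableOn_compact hQc
  have i₂ : IntegrableOn f₂ (closedBall (0 : V) (1 / 2)) := (c₂.mono hQU).integrableOn_compact hQc
  have i₃ : IntegrableOn f₃ (closedBall (0 : V) (1 / 2)) := (c₃.mono hQU).integrableOn_compact hQc
  have hI4 : ∫ y in closedBall (0 : V) (1 / 2),
      ((Real.log (F y u) + Real.log (F y w) - lc F y - Real.log (dt u w)) -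
        (a₁ + a₂ + Real.log ‖w‖ - b - Real.log (dt u w))) ^ 4 ≤ B * Θ ^ 4 := by
    have h1 : ∫ y in closedBall (0 : V) (1 / 2),
        ((Real.log (F y u) + Real.log (F y w) - lc F y - Real.log (dt u w)) -
          (a₁ + a₂ + Real.log ‖w‖ - b - Real.log (dt u w))) ^ 4 ≤
        ∫ y in closedBall (0 : V) (1 / 2), (27 * f₁ y + 27 * f₂ y + 27 * f₃ y) := by
      refine setIntegral_mono_on
        (((hEc.sub continuousOn_const).pow 4).integrableOn_compact hQc)
        (((i₁.const_mul _).add (i₂.const_mul _)).add (i₃.const_mul _))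
        measurableSet_closedBall fun y hy => ?_
      have h2 := e2_add34 (Real.log (F y u) - a₁) (Real.log (F y (‖w‖⁻¹ • w)) - a₂) (lc F y - b)
      rw [hf₁, hf₂, hf₃, hlog y hy]
      have h3 : (Real.log (F y u) + (Real.log ‖w‖ + Real.log (F y (‖w‖⁻¹ • w))) - lc F y -
          Real.log (dt u w)) - (a₁ + a₂ + Real.log ‖w‖ - b - Real.log (dt u w)) =
          (Real.log (F y u) - a₁) + (Real.log (F y (‖w‖⁻¹ • w)) - a₂) - (lc F y - b) := by ring
      rw [h3]
      exact h2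
    have h2 : ∫ y in closedBall (0 : V) (1 / 2), (27 * f₁ y + 27 * f₂ y + 27 * f₃ y) =
        27 * (∫ y in closedBall (0 : V) (1 / 2), f₁ y) +
          27 * (∫ y in closedBall (0 : V) (1 / 2), f₂ y) +
          27 * ∫ y in closedBall (0 : V) (1 / 2), f₃ y := by
      have j₁ : IntegrableOn (fun y => 27 * f₁ y) (closedBall (0 : V) (1 / 2)) := i₁.const_mul _
      have j₂ : IntegrableOn (fun y => 27 * f₂ y) (closedBall (0 : V) (1 / 2)) := i₂.const_mul _
      have j₃ : IntegrableOn (fun y => 27 * f₃ y) (closedBall (0 : V) (1 / 2)) := i₃.const_mul _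
      have j₄ : IntegrableOn (fun y => 27 * f₁ y + 27 * f₂ y) (closedBall (0 : V) (1 / 2)) :=
        j₁.add j₂
      rw [integral_add j₄ j₃, integral_add j₁ j₂, integral_const_mul, integral_const_mul,
        integral_const_mul]
    rw [hB]
    linarith
  have hfin := e2_core hEc hE0 hΘ hI1 hI4 hl0
  refine hfin.trans ?_
  rw [mul_pow]
  refine mul_le_mul_of_nonneg_right ?_ (by positivity)
  have hKη : K * η ≤ K := by nlinarith
  have h1 : 8 * (B + (K * η + B + 1) ^ 4) ≤ D := by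
    rw [hD]
    gcongr
  have h2 : 8 * (B + (K * η + B + 1) ^ 4) / l ^ 2 ≤ D / l ^ 2 :=
    div_le_div_of_nonneg_right h1 (by positivity)
  linarith

end Pool.Agent.L1de93c
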