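import Pool.Agent.Lib_MP_1de93e_cont.Ham
import Pool.Agent.Lib_MP_1de93e_cont.Stk

/-!
# PIECE HWE: the weak form of Hamel's condition

`K = closedBall 0 (1/2) ⊆ U`, `ψ` is `C¹` with topological support in `K`. Let
`Λ u = ∫_K F y u * fderiv ψ y u` and `A u z = ∫_K F y u * fderiv ψ y z`. Claim: `Λ` is differentiable
off `0` with derivative `2 • A u`, and `A` is continuous.

Proof. `A u` is linear in `z` and continuous in `u` because `F` is continuous on the compact `K × V`.
Choose `ρ > 0` with `closedBall 0 (1/2 + 2 ρ) ⊆ U`, `U' = ball 0 (1/2 + ρ)` (convex), and for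
`0 < s ≤ ρ` let `H = Stk F s`, `HPC U' H H'` (`stk_hpc`). Integration by parts in the direction `v`
(the function `y ↦ ψ y * H y v`, extended by `0`, is `C¹` with compact support in `U'`):
`∫_K ψ y * H' y v v = - ∫_K H y v * fderiv ψ y v`, and with `z` in the direction slot
`∫_K ψ y * H' y v z = - ∫_K H y v * fderiv ψ y z`. Multiply `ham` (for `v = u + t z`) by `ψ y`,
integrate over `y` (Fubini): with `Λ_s`, `A_s` defined by `H`,
`Λ_s (u + t z) - Λ_s u = 2 ∫₀ᵗ A_s (u + τ z) z dτ`. Let `s → 0` (`stk_tendsto` on `K`):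
`Λ (u + t z) - Λ u = 2 ∫₀ᵗ A (u + τ z) z dτ` for all `u, z, t`. So
`|Λ (u + z) - Λ u - 2 A u z| ≤ 2 sup_{0 ≤ τ ≤ 1} ‖A (u + τ z) - A u‖ ‖z‖ = o(‖z‖)`.
-/

namespace Pool.Agent.L1de93c

open MeasureTheory Metric Set

private theorem hwe_zero {ψ : V → ℝ} (hs : tsupport ψ ⊆ closedBall 0 (1 / 2)) {y : V}
    (hy : y ∉ closedBall (0 : V) (1 / 2)) : ψ y = 0 ∧ fderiv ℝ ψ y = 0 :=
  ⟨image_eq_zero_of_notMem_tsupport fun h => hy (hs h),
    fderiv_of_notMem_tsupport ℝ fun h => hy (hs h)⟩

private theorem hwe_int {f : V → ℝ} (hf : ContinuousOn f (closedBall (0 : V) (1 / 2)))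
    (h0 : ∀ y, y ∉ closedBall (0 : V) (1 / 2) → f y = 0) : Integrable f := by
  have h1 : IntegrableOn f (closedBall (0 : V) (1 / 2)) :=
    hf.integrableOn_compact (isCompact_closedBall _ _)
  rwa [integrableOn_iff_integrable_of_support_subset] at h1
  intro y hy
  by_contra h2
  exact hy (h0 y h2)

private theorem hwe_ibp {U' : Set V} {H : V → V → ℝ} {H' : V → V → V →L[ℝ] ℝ}
    (hH : HPC U' H H') (hK : closedBall (0 : V) (1 / 2) ⊆ U') {ψ : V → ℝ} (hψ : ContDiff ℝ 1 ψ)
    (hs : tsupport ψ ⊆ closedBall 0 (1 / 2)) (v z : V) :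
    ∫ y in closedBall (0 : V) (1 / 2), ψ y * H' y v z =
      -∫ y in closedBall (0 : V) (1 / 2), H y v * fderiv ℝ ψ y z := by
  have hD : Continuous (fderiv ℝ ψ) := hψ.continuous_fderiv one_ne_zero
  have hDz : Continuous (fun y => fderiv ℝ ψ y z) := hD.clm_apply continuous_const
  have hHc : ContinuousOn (fun y => H y v) (closedBall (0 : V) (1 / 2)) :=
    (hH.toHP.continuousOn_left v).mono hK
  have hH'c : ContinuousOn (fun y => H' y v z) (closedBall (0 : V) (1 / 2)) := by
    have h1 : ContinuousOn (fun y : V => H' y v) (closedBall (0 : V) (1 / 2)) := by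
      have h2 : ContinuousOn (fun y : V => ((y, v) : V × V)) (closedBall (0 : V) (1 / 2)) := by
        fun_prop
      exact hH.contD.comp h2 fun y hy => ⟨hK hy, mem_univ _⟩
    exact h1.clm_apply continuousOn_const
  have hfd : ∀ y ∈ closedBall (0 : V) (1 / 2), fderiv ℝ (fun y => H y v) y = H' y v :=
    fun y hy => (hH.hasD y (hK hy) v).fderiv
  have key := integral_mul_fderiv_eq_neg_fderiv_mul_of_integrable (μ := (volume : Measure V))
    (f := ψ) (g := fun y => H y v) (v := z) ?_ ?_ ?_ ?_ ?_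
  · rw [← setIntegral_eq_integral_of_forall_compl_eq_zero (s := closedBall (0 : V) (1 / 2))
      (f := fun y => ψ y * fderiv ℝ (fun y => H y v) y z) (fun y hy => by
        rw [(hwe_zero hs hy).1, zero_mul]),
      ← setIntegral_eq_integral_of_forall_compl_eq_zero (s := closedBall (0 : V) (1 / 2))
      (f := fun y => fderiv ℝ ψ y z * H y v) (fun y hy => by
        rw [(hwe_zero hs hy).2, zero_apply, zero_mul])] at key
    rw [setIntegral_congr_fun (measurableSet_closedBall)
      (g := fun y => ψ y * fderiv ℝ (fun y => H y v) y z) (fun y hy => by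
        simp only [hfd y hy]), key]
    congr 1
    exact setIntegral_congr_fun measurableSet_closedBall fun y _ => mul_comm _ _
  · refine hwe_int (hDz.continuousOn.mul hHc) fun y hy => ?_
    rw [(hwe_zero hs hy).2, zero_apply, zero_mul]
  · refine hwe_int ((hψ.continuous.continuousOn.mul hH'c).congr fun y hy => ?_) fun y hy => ?_
    · simp only [hfd y hy]
      rfl
    · rw [(hwe_zero hs hy).1, zero_mul]
  · refine hwe_int (hψ.continuous.continuousOn.mul hHc) fun y hy => ?_
    rw [(hwe_zero hs hy).1, zero_mul]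
  · intro y _
    exact hψ.differentiable one_ne_zero y
  · intro y hy
    exact (hH.hasD y (hK (hs hy)) v).differentiableAt

private theorem hwe_step {U' : Set V} {H : V → V → ℝ} {H' : V → V → V →L[ℝ] ℝ}
    (hH : HPC U' H H') (hK : closedBall (0 : V) (1 / 2) ⊆ U') {ψ : V → ℝ} (hψ : ContDiff ℝ 1 ψ)
    (hs : tsupport ψ ⊆ closedBall 0 (1 / 2)) (u z : V) :
    (∫ y in closedBall (0 : V) (1 / 2), H y (u + z) * fderiv ℝ ψ y (u + z)) -
      ∫ y in closedBall (0 : V) (1 / 2), H y u * fderiv ℝ ψ y u =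
      2 * ∫ t in (0 : ℝ)..1, ∫ y in closedBall (0 : V) (1 / 2),
        H y (u + t • z) * fderiv ℝ ψ y z := by
  have hH'v : ∀ v z : V, ContinuousOn (fun y => H' y v z) (closedBall (0 : V) (1 / 2)) := by
    intro v z
    have h1 : ContinuousOn (fun y : V => H' y v) (closedBall (0 : V) (1 / 2)) := by
      have h2 : ContinuousOn (fun y : V => ((y, v) : V × V)) (closedBall (0 : V) (1 / 2)) := by
        fun_prop
      exact hH.contD.comp h2 fun y hy => ⟨hK hy, mem_univ _⟩
    exact h1.clm_apply continuousOn_const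
  have hint : ∀ v z : V, IntegrableOn (fun y => ψ y * H' y v z) (closedBall (0 : V) (1 / 2)) :=
    fun v z => (hψ.continuous.continuousOn.mul (hH'v v z)).integrableOn_compact
      (isCompact_closedBall _ _)
  have hc2 : ContinuousOn (fun q : V × ℝ => ψ q.1 * H' q.1 (u + q.2 • z) z)
      (closedBall (0 : V) (1 / 2) ×ˢ Icc (0 : ℝ) 1) := by
    have h1 : ContinuousOn (fun q : V × ℝ => H' q.1 (u + q.2 • z))
        (closedBall (0 : V) (1 / 2) ×ˢ Icc (0 : ℝ) 1) := by
      have h2 : ContinuousOn (fun q : V × ℝ => ((q.1, u + q.2 • z) : V × V))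
          (closedBall (0 : V) (1 / 2) ×ˢ Icc (0 : ℝ) 1) := by fun_prop
      exact hH.contD.comp h2 fun q hq => ⟨hK hq.1, mem_univ _⟩
    exact ((hψ.continuous.comp continuous_fst).continuousOn).mul (h1.clm_apply continuousOn_const)
  have hI2 : Integrable (Function.uncurry fun (y : V) (t : ℝ) => ψ y * H' y (u + t • z) z)
      ((volume.restrict (closedBall (0 : V) (1 / 2))).prod (volume.restrict (Ioc (0 : ℝ) 1))) := by
    rw [Measure.prod_restrict]
    have h1 : IntegrableOn (fun q : V × ℝ => ψ q.1 * H' q.1 (u + q.2 • z) z)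
        (closedBall (0 : V) (1 / 2) ×ˢ Icc (0 : ℝ) 1) :=
      hc2.integrableOn_compact ((isCompact_closedBall _ _).prod isCompact_Icc)
    exact h1.mono_set (prod_mono_right Ioc_subset_Icc_self)
  have hsw := integral_integral_swap hI2
  have h1 : ∀ y ∈ closedBall (0 : V) (1 / 2), ψ y * H' y (u + z) (u + z) - ψ y * H' y u u =
      2 * ∫ t in Ioc (0 : ℝ) 1, ψ y * H' y (u + t • z) z := by
    intro y hy
    have h2 := ham hH (hK hy) u z 0 1
    rw [one_smul, zero_smul, add_zero, intervalIntegral.integral_of_le zero_le_one] at h2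
    rw [integral_const_mul, ← mul_sub, h2]
    ring
  have h3 : ∫ y in closedBall (0 : V) (1 / 2), (ψ y * H' y (u + z) (u + z) - ψ y * H' y u u) =
      2 * ∫ t in Ioc (0 : ℝ) 1, ∫ y in closedBall (0 : V) (1 / 2), ψ y * H' y (u + t • z) z := by
    rw [setIntegral_congr_fun measurableSet_closedBall h1, integral_const_mul, hsw]
  rw [integral_sub (hint _ _) (hint _ _), hwe_ibp hH hK hψ hs, hwe_ibp hH hK hψ hs] at h3
  have h4 : ∀ t : ℝ, ∫ y in closedBall (0 : V) (1 / 2), ψ y * H' y (u + t • z) z =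
      -∫ y in closedBall (0 : V) (1 / 2), H y (u + t • z) * fderiv ℝ ψ y z :=
    fun t => hwe_ibp hH hK hψ hs _ _
  simp only [h4] at h3
  rw [integral_neg] at h3
  rw [intervalIntegral.integral_of_le zero_le_one]
  linarith

theorem hw {U : Set V} {F : V → V → ℝ} (h : HP U F) (hK : closedBall (0 : V) (1 / 2) ⊆ U)
    {ψ : V → ℝ} (hψ : ContDiff ℝ 1 ψ) (hs : tsupport ψ ⊆ closedBall 0 (1 / 2)) :
    ∃ A : V → V →L[ℝ] ℝ, Continuous A ∧
      (∀ u z, A u z = ∫ y in closedBall (0 : V) (1 / 2), F y u * fderiv ℝ ψ y z) ∧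
      ∀ u, HasFDerivAt (fun u => ∫ y in closedBall (0 : V) (1 / 2), F y u * fderiv ℝ ψ y u)
        ((2 : ℝ) • A u) u := by
  have hD : Continuous (fderiv ℝ ψ) := hψ.continuous_fderiv one_ne_zero
  have hKc : IsCompact (closedBall (0 : V) (1 / 2)) := isCompact_closedBall _ _
  obtain ⟨M, hM⟩ := hKc.exists_bound_of_continuousOn hD.continuousOn
  have hM0 : 0 ≤ M := (norm_nonneg _).trans (hM 0 (mem_closedBall_self (by norm_num)))
  set W : ℝ := (volume : Measure V).real (closedBall (0 : V) (1 / 2)) with hW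
  have hW0 : 0 ≤ W := measureReal_nonneg
  have hvol : (volume : Measure V) (closedBall (0 : V) (1 / 2)) < ⊤ := measure_closedBall_lt_top
  -- the functional of a field
  have hint : ∀ G : V → V → ℝ, ∀ v, ContinuousOn (fun y => G y v) (closedBall (0 : V) (1 / 2)) →
      IntegrableOn (fun y => G y v • fderiv ℝ ψ y) (closedBall (0 : V) (1 / 2)) :=
    fun G v hG => (hG.smul hD.continuousOn).integrableOn_compact hKc
  have happ : ∀ G : V → V → ℝ, ∀ v z, ContinuousOn (fun y => G y v) (closedBall (0 : V) (1 / 2)) →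
      (∫ y in closedBall (0 : V) (1 / 2), G y v • fderiv ℝ ψ y) z =
        ∫ y in closedBall (0 : V) (1 / 2), G y v * fderiv ℝ ψ y z := by
    intro G v z hG
    rw [ContinuousLinearMap.integral_apply (hint G v hG)]
    rfl
  have hdiff : ∀ G G' : V → V → ℝ, ∀ v v' : V, ∀ e : ℝ,
      ContinuousOn (fun y => G y v) (closedBall (0 : V) (1 / 2)) →
      ContinuousOn (fun y => G' y v') (closedBall (0 : V) (1 / 2)) →
      (∀ y ∈ closedBall (0 : V) (1 / 2), |G y v - G' y v'| ≤ e) →
      ‖(∫ y in closedBall (0 : V) (1 / 2), G y v • fderiv ℝ ψ y) -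
        ∫ y in closedBall (0 : V) (1 / 2), G' y v' • fderiv ℝ ψ y‖ ≤ e * M * W := by
    intro G G' v v' e hG hG' he
    rw [← integral_sub (hint G v hG) (hint G' v' hG')]
    refine norm_setIntegral_le_of_norm_le_const hvol fun y hy => ?_
    have e0 : G y v • fderiv ℝ ψ y - G' y v' • fderiv ℝ ψ y = (G y v - G' y v') • fderiv ℝ ψ y :=
      (sub_smul _ _ _).symm
    rw [e0, norm_smul, Real.norm_eq_abs]
    exact mul_le_mul (he y hy) (hM y hy) (norm_nonneg _) ((abs_nonneg _).trans (he y hy))
  have hFc : ∀ v, ContinuousOn (fun y => F y v) (closedBall (0 : V) (1 / 2)) :=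
    fun v => (h.continuousOn_left v).mono hK
  obtain ⟨c, hc, C, hC, hbd⟩ := h.bounds hKc hK
  set A : V → V →L[ℝ] ℝ := fun v => ∫ y in closedBall (0 : V) (1 / 2), F y v • fderiv ℝ ψ y
    with hA
  set L : ℝ := C * M * W with hL
  have hL0 : 0 ≤ L := by positivity
  have hlip : ∀ v v' : V, ‖A v - A v'‖ ≤ L * ‖v - v'‖ := by
    intro v v'
    have h1 := hdiff F F v v' (C * ‖v - v'‖) (hFc v) (hFc v') fun y hy => by
      exact ((h.norm y (hK hy)).abs_sub_le v v').trans (hbd y hy (v - v')).2
    rw [hL]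
    refine h1.trans (le_of_eq ?_)
    ring
  have hAcont : Continuous A := by
    have : LipschitzWith ⟨L, hL0⟩ A := by
      apply LipschitzWith.of_dist_le_mul
      intro v v'
      rw [dist_eq_norm, dist_eq_norm]
      exact hlip v v'
    exact this.continuous
  have hAapp : ∀ u z, A u z = ∫ y in closedBall (0 : V) (1 / 2), F y u * fderiv ℝ ψ y z :=
    fun u z => happ F u z (hFc u)
  refine ⟨A, hAcont, hAapp, ?_⟩
  -- the neighbourhood
  obtain ⟨δ, hδ, hδU⟩ := hKc.exists_cthickening_subset_open h.isOpen hK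
  have hcth : cthickening δ (closedBall (0 : V) (1 / 2)) = closedBall (0 : V) (δ + 1 / 2) :=
    cthickening_closedBall hδ.le (by norm_num) 0
  rw [hcth] at hδU
  have hρ : 0 < δ / 2 := by positivity
  have hsub : ∀ s, s ≤ δ / 2 → ∀ x ∈ ball (0 : V) (1 / 2 + δ / 2), closedBall x s ⊆ U := by
    intro s hsδ x hx y hy
    apply hδU
    rw [mem_closedBall, dist_zero_right]
    rw [mem_ball, dist_zero_right] at hx
    rw [mem_closedBall, dist_eq_norm] at hy
    have h1 : ‖y‖ ≤ ‖y - x‖ + ‖x‖ := by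
      have := norm_add_le (y - x) x
      rwa [sub_add_cancel] at this
    linarith
  have hKU' : closedBall (0 : V) (1 / 2) ⊆ ball (0 : V) (1 / 2 + δ / 2) :=
    closedBall_subset_ball (by linarith)
  -- the identity
  have hid : ∀ u z : V, A (u + z) (u + z) - A u u = 2 * ∫ t in (0 : ℝ)..1, A (u + t • z) z := by
    intro u z
    set K0 : ℝ := M * W * (‖u + z‖ * ‖u + z‖ + ‖u‖ * ‖u‖ + 2 * ((‖u‖ + ‖z‖) * ‖z‖)) with hK0
    have hK00 : 0 ≤ K0 := by positivity
    have hAi : IntervalIntegrable (fun t : ℝ => A (u + t • z) z) volume 0 1 := by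
      apply Continuous.intervalIntegrable
      exact (hAcont.comp (by fun_prop)).clm_apply continuous_const
    have key : ∀ ε > 0, |(A (u + z) (u + z) - A u u) -
        2 * ∫ t in (0 : ℝ)..1, A (u + t • z) z| ≤ ε * K0 := by
      intro ε hε
      obtain ⟨s₀, hs₀, hst⟩ := stk_tendsto h hKc hK hε
      have hs1 : 0 < min s₀ (δ / 2) := lt_min hs₀ hρ
      obtain ⟨H', hH'⟩ := stk_hpc h hs1 (isOpen_ball (x := (0 : V)) (ε := 1 / 2 + δ / 2))
        (convex_ball _ _) (hsub _ (min_le_right _ _))
      have hst' := hst (min s₀ (δ / 2)) hs1 (min_le_left _ _)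
      set H := Stk F (min s₀ (δ / 2)) with hH
      have hHc : ∀ v, ContinuousOn (fun y => H y v) (closedBall (0 : V) (1 / 2)) :=
        fun v => (hH'.toHP.continuousOn_left v).mono hKU'
      have hstep := hwe_step hH' hKU' hψ hs u z
      set B : V → V →L[ℝ] ℝ := fun v => ∫ y in closedBall (0 : V) (1 / 2), H y v • fderiv ℝ ψ y
        with hB
      have hBapp : ∀ v z, B v z = ∫ y in closedBall (0 : V) (1 / 2), H y v * fderiv ℝ ψ y z :=
        fun v z => happ H v z (hHc v)
      have hstep' : B (u + z) (u + z) - B u u = 2 * ∫ t in (0 : ℝ)..1, B (u + t • z) z := by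
        rw [hBapp, hBapp, hstep]
        congr 1
        refine intervalIntegral.integral_congr fun t _ => ?_
        exact (hBapp _ _).symm
      have hBA : ∀ v, ‖B v - A v‖ ≤ ε * ‖v‖ * M * W := fun v =>
        hdiff H F v v (ε * ‖v‖) (hHc v) (hFc v) fun y hy => hst' y hy v
      have hBAz : ∀ v z, |B v z - A v z| ≤ ε * ‖v‖ * M * W * ‖z‖ := by
        intro v z
        have h1 := (B v - A v).le_opNorm z
        rw [Real.norm_eq_abs] at h1
        exact h1.trans (mul_le_mul_of_nonneg_right (hBA v) (norm_nonneg _))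
      have hBcont : Continuous B := by
        have hbdH : ∃ C' : ℝ, 0 ≤ C' ∧ ∀ v v', ‖B v - B v'‖ ≤ C' * ‖v - v'‖ := by
          obtain ⟨c', _, C', hC', hbd'⟩ := hH'.toHP.bounds hKc hKU'
          refine ⟨C' * M * W, by positivity, fun v v' => ?_⟩
          have h1 := hdiff H H v v' (C' * ‖v - v'‖) (hHc v) (hHc v') fun y hy => by
            exact ((hH'.toHP.norm y (hKU' hy)).abs_sub_le v v').trans (hbd' y hy (v - v')).2
          refine h1.trans (le_of_eq ?_)
          ring
        obtain ⟨C', hC', hB'⟩ := hbdH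
        have : LipschitzWith ⟨C', hC'⟩ B := by
          apply LipschitzWith.of_dist_le_mul
          intro v v'
          rw [dist_eq_norm, dist_eq_norm]
          exact hB' v v'
        exact this.continuous
      have hBi : IntervalIntegrable (fun t : ℝ => B (u + t • z) z) volume 0 1 := by
        apply Continuous.intervalIntegrable
        exact (hBcont.comp (by fun_prop)).clm_apply continuous_const
      have hI : |(∫ t in (0 : ℝ)..1, B (u + t • z) z) - ∫ t in (0 : ℝ)..1, A (u + t • z) z| ≤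
          ε * (‖u‖ + ‖z‖) * M * W * ‖z‖ := by
        rw [← intervalIntegral.integral_sub hBi hAi, ← Real.norm_eq_abs]
        have h1 := intervalIntegral.norm_integral_le_of_norm_le_const (a := (0 : ℝ)) (b := 1)
          (f := fun t => B (u + t • z) z - A (u + t • z) z)
          (C := ε * (‖u‖ + ‖z‖) * M * W * ‖z‖) (fun t ht => by
            rw [uIoc_of_le zero_le_one] at ht
            rw [Real.norm_eq_abs]
            refine (hBAz _ _).trans ?_
            have h2 : ‖u + t • z‖ ≤ ‖u‖ + ‖z‖ := by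
              refine (norm_add_le _ _).trans ?_
              rw [norm_smul, Real.norm_eq_abs, abs_of_pos ht.1]
              have h3 := mul_le_mul_of_nonneg_right ht.2 (norm_nonneg z)
              linarith
            gcongr)
        simpa using h1
      have e1 := hBAz (u + z) (u + z)
      have e2 := hBAz u u
      have e3 : (A (u + z) (u + z) - A u u) - 2 * ∫ t in (0 : ℝ)..1, A (u + t • z) z =
          -(B (u + z) (u + z) - A (u + z) (u + z)) + (B u u - A u u) +
          2 * ((∫ t in (0 : ℝ)..1, B (u + t • z) z) - ∫ t in (0 : ℝ)..1, A (u + t • z) z) := by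
        linarith
      rw [e3]
      refine (abs_add_le _ _).trans ?_
      have e4 := abs_add_le (-(B (u + z) (u + z) - A (u + z) (u + z))) (B u u - A u u)
      rw [abs_neg] at e4
      have e5 : |2 * ((∫ t in (0 : ℝ)..1, B (u + t • z) z) -
          ∫ t in (0 : ℝ)..1, A (u + t • z) z)| ≤ 2 * (ε * (‖u‖ + ‖z‖) * M * W * ‖z‖) := by
        rw [abs_mul, abs_of_pos (two_pos : (0 : ℝ) < 2)]
        exact mul_le_mul_of_nonneg_left hI (by norm_num)
      rw [hK0]
      linarith
    have h0 : |(A (u + z) (u + z) - A u u) - 2 * ∫ t in (0 : ℝ)..1, A (u + t • z) z| ≤ 0 := by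
      refine le_of_forall_pos_le_add fun ε hε => ?_
      have h1 := key (ε / (K0 + 1)) (by positivity)
      rw [zero_add]
      refine h1.trans ?_
      rw [div_mul_eq_mul_div, div_le_iff₀ (by positivity)]
      nlinarith
    exact sub_eq_zero.1 (abs_eq_zero.1 (le_antisymm h0 (abs_nonneg _)))
  intro u
  rw [hasFDerivAt_iff_isLittleO_nhds_zero]
  refine Asymptotics.IsBigO.trans_isLittleO ?_
    (Asymptotics.isLittleO_norm_pow_id (E' := V) (n := 2) (by norm_num))
  refine Asymptotics.IsBigO.of_bound (2 * L) (Filter.Eventually.of_forall fun z => ?_)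
  rw [← hAapp, ← hAapp, hid u z]
  have hAi : IntervalIntegrable (fun t : ℝ => A (u + t • z) z) volume 0 1 := by
    apply Continuous.intervalIntegrable
    exact (hAcont.comp (by fun_prop)).clm_apply continuous_const
  have h1 : ((2 : ℝ) • A u) z = 2 * ∫ _t in (0 : ℝ)..1, A u z := by
    rw [intervalIntegral.integral_const]
    simp
  rw [h1, ← mul_sub, ← intervalIntegral.integral_sub hAi intervalIntegrable_const, norm_mul,
    Real.norm_ofNat, norm_pow, norm_norm, mul_assoc]
  refine mul_le_mul_of_nonneg_left ?_ (by norm_num)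
  have h2 := intervalIntegral.norm_integral_le_of_norm_le_const (a := (0 : ℝ)) (b := 1)
    (f := fun t => A (u + t • z) z - A u z) (C := L * ‖z‖ ^ 2) (fun t ht => by
      rw [uIoc_of_le zero_le_one] at ht
      have h3 := (A (u + t • z) - A u).le_opNorm z
      refine h3.trans ?_
      have h4 := hlip (u + t • z) u
      rw [add_sub_cancel_left, norm_smul, Real.norm_eq_abs, abs_of_pos ht.1] at h4
      have h5 : t * ‖z‖ ≤ ‖z‖ := by
        have := mul_le_mul_of_nonneg_right ht.2 (norm_nonneg z)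
        linarith
      calc ‖A (u + t • z) - A u‖ * ‖z‖ ≤ (L * (t * ‖z‖)) * ‖z‖ :=
            mul_le_mul_of_nonneg_right h4 (norm_nonneg _)
        _ ≤ (L * ‖z‖) * ‖z‖ := by gcongr
        _ = L * ‖z‖ ^ 2 := by ring)
  simpa using h2

end Pool.Agent.L1de93c
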