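import Pool.Agent.Lib_MP_1de93e_cont.RigE

/-!
# PIECE RIG2: quantitative rigidity

(b) Quantitative version by contradiction: if false there are `ε_n ≥ 0`, `Q_n` (`C¹` off `0`,
homogeneous) with `|fderiv Q_n u (cj u) + 2 Q_n (cj u)| ≤ ε_n` on the unit sphere and
`M_n := max_{‖u‖=1} |Q_n u| > n ε_n`; dividing by `M_n > 0` we may assume `M_n = 1`,
`ε_n < 1/n → 0`. As `fderiv Q_n u u = Q_n u` (homogeneity), `u, cj u` is a basis
(`dt u (cj u) = N u`), and `|Q_n (cj u)| ≤ ‖cj u‖ M_n`, the norms `‖fderiv Q_n u‖` are bounded on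
`‖u‖ = 1` uniformly in `n` (use `dt u w • z = dt z w • u + dt u z • w`, `w = cj u`), also off zero
since `fderiv Q_n` is homogeneous of degree `0` (`Q_n (a u) = a Q_n u`). So the `Q_n` are uniformly
Lipschitz on compact segments avoiding `0`, hence on the sphere. By Arzela-Ascoli (or a diagonal
argument over a countable dense set) a subsequence converges uniformly on compact sets to a
continuous `Q`, `Q (a u) = a Q u`, `max_{‖u‖ = 1} |Q| = 1`.
`Q` is `C¹` off `0` with the exact equation: let `G_n u` = the linear form with `G_n u (u) = Q_n u`,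
`G_n u (cj u) = -2 Q_n (cj u)`; `‖fderiv Q_n u - G_n u‖ ≤ C ε_n` (for `‖u‖ = 1`, hence for all
`u ≠ 0` by homogeneity of degree 0 of both), and `G_n → G` locally uniformly off `0`, `G`
continuous. So `fderiv Q_n → G` locally uniformly off `0`, and `Q_n → Q`: by
`hasFDerivAt_of_tendstoUniformlyOn` `Q` has derivative `G` off `0`. By (a) `Q = 0`, contradiction.
((a) is `rig_exact`.)
-/

namespace Pool.Agent.L1de93c

open MeasureTheory Metric Set

private theorem rig_cj_bound {N : V → ℝ} (h : Nice N) :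
    ∃ K > 0, ∀ u : V, u ≠ 0 → ‖cj N u‖ ≤ K := by
  refine ⟨N (1, 0) + N (0, 1) + 1, ?_, fun u hu => ?_⟩
  · have h1 := h.toNormV.nonneg (1, 0)
    have h2 := h.toNormV.nonneg (0, 1)
    linarith
  · have h1 := h.toNormV.nonneg (1, 0)
    have h2 := h.toNormV.nonneg (0, 1)
    have h3 := h.abs_fderiv_le hu (1, 0)
    have h4 := h.abs_fderiv_le hu (0, 1)
    unfold cj
    rw [Prod.norm_mk, Real.norm_eq_abs, Real.norm_eq_abs, abs_neg]
    exact max_le (by linarith) (by linarith)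

private theorem rig_fderiv_smul {Q : V → ℝ} (hQ : ∀ (a : ℝ) u, Q (a • u) = a * Q u)
    (hd : ∀ u, u ≠ 0 → DifferentiableAt ℝ Q u) {u : V} (hu : u ≠ 0) {a : ℝ} (ha : a ≠ 0) :
    fderiv ℝ Q (a • u) = fderiv ℝ Q u := by
  have h1 : HasFDerivAt Q (fderiv ℝ Q (a • u)) (a • u) := (hd _ (smul_ne_zero ha hu)).hasFDerivAt
  have h2 : HasFDerivAt (fun x : V => a • x) (a • ContinuousLinearMap.id ℝ V) u :=
    (hasFDerivAt_id u).const_smul a
  have h3 := h1.comp u h2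
  have h4 : (Q ∘ fun x : V => a • x) = fun x => a * Q x := funext fun x => hQ a x
  rw [h4] at h3
  have h5 : HasFDerivAt (fun x => a * Q x) (a • fderiv ℝ Q u) u :=
    (hd u hu).hasFDerivAt.const_mul a
  have h6 := h3.unique h5
  refine ContinuousLinearMap.ext fun z => ?_
  have h7 : fderiv ℝ Q (a • u) (a • z) = a • fderiv ℝ Q u z := congrArg (fun L => L z) h6
  rw [map_smul, smul_eq_mul, smul_eq_mul] at h7
  exact mul_left_cancel₀ ha h7

private theorem rig_fderiv_self {Q : V → ℝ} (hQ : ∀ (a : ℝ) u, Q (a • u) = a * Q u) {u : V}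
    (hd : DifferentiableAt ℝ Q u) : fderiv ℝ Q u u = Q u := by
  have h1 : HasFDerivAt Q (fderiv ℝ Q u) ((1 : ℝ) • u) := by
    rw [one_smul]
    exact hd.hasFDerivAt
  have h2 : HasDerivAt (fun t : ℝ => t • u) ((1 : ℝ) • u) 1 := (hasDerivAt_id (1 : ℝ)).smul_const u
  have h3 := h1.comp_hasDerivAt (1 : ℝ) h2
  have h4 : (Q ∘ fun t : ℝ => t • u) = fun t => t * Q u := funext fun t => hQ t u
  rw [h4, one_smul] at h3
  have h5 : HasDerivAt (fun t : ℝ => t * Q u) (1 * Q u) 1 := (hasDerivAt_id (1 : ℝ)).mul_const (Q u)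
  rw [h3.unique h5, one_mul]

/-- Normalisation of a counterexample. -/
private theorem rig_scale {N : V → ℝ} (h : Nice N) {ε C : ℝ} (hC : 0 < C) (hε : 0 ≤ ε) {Q : V → ℝ}
    (hQ : ∀ (a : ℝ) u, Q (a • u) = a * Q u) (hQ1 : ContDiffOn ℝ 1 Q {0}ᶜ)
    (he : ∀ u, ‖u‖ = 1 → |fderiv ℝ Q u (cj N u) + 2 * Q (cj N u)| ≤ ε) {u₀ : V} (hu₀ : ‖u₀‖ = 1)
    (hbig : C * ε < |Q u₀|) :
    ∃ P : V → ℝ, (∀ (a : ℝ) u, P (a • u) = a * P u) ∧ ContDiffOn ℝ 1 P {0}ᶜ ∧
      (∀ u, u ≠ 0 → |fderiv ℝ P u (cj N u) + 2 * P (cj N u)| ≤ 1 / C) ∧ (∀ u, |P u| ≤ ‖u‖) ∧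
      ∃ v, ‖v‖ = 1 ∧ |P v| = 1 := by
  have hS : IsCompact (sphere (0 : V) 1) := isCompact_sphere 0 1
  have hSs : sphere (0 : V) 1 ⊆ {0}ᶜ := by
    rintro v hv (rfl : v = 0)
    simp at hv
  have hd : ∀ u, u ≠ 0 → DifferentiableAt ℝ Q u := fun u hu =>
    (hQ1.differentiableOn one_ne_zero).differentiableAt (isOpen_compl_singleton.mem_nhds hu)
  obtain ⟨v, hv, hmax⟩ := hS.exists_isMaxOn ⟨u₀, mem_sphere_zero_iff_norm.mpr hu₀⟩
    ((hQ1.continuousOn.mono hSs).abs)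
  have hM1 : |Q u₀| ≤ |Q v| := hmax (mem_sphere_zero_iff_norm.mpr hu₀)
  obtain ⟨M, hM⟩ : ∃ M : ℝ, M = |Q v| := ⟨_, rfl⟩
  rw [← hM] at hM1
  have hM2 : C * ε < M := hbig.trans_le hM1
  have hM0 : 0 < M := (mul_nonneg hC.le hε).trans_lt hM2
  have hv1 : ‖v‖ = 1 := mem_sphere_zero_iff_norm.mp hv
  have hP : ∀ u, u ≠ 0 → HasFDerivAt (fun x => M⁻¹ * Q x) (M⁻¹ • fderiv ℝ Q u) u := fun u hu =>
    (hd u hu).hasFDerivAt.const_mul M⁻¹
  refine ⟨fun u => M⁻¹ * Q u, fun a u => ?_, contDiffOn_const.mul hQ1, fun u hu => ?_,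
    fun u => ?_, v, hv1, ?_⟩
  · beta_reduce
    rw [hQ]
    ring
  · rw [(hP u hu).fderiv]
    have hn : 0 < ‖u‖ := norm_pos_iff.mpr hu
    have h1 := he (‖u‖⁻¹ • u) (by
      rw [norm_smul, norm_inv, norm_norm, inv_mul_cancel₀ hn.ne'])
    rw [rig_fderiv_smul hQ hd hu (inv_ne_zero hn.ne'), h.cj_smul_pos (inv_pos.mpr hn)] at h1
    have h2 : (M⁻¹ • fderiv ℝ Q u) (cj N u) + 2 * (M⁻¹ * Q (cj N u)) =
        M⁻¹ * (fderiv ℝ Q u (cj N u) + 2 * Q (cj N u)) := by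
      rw [smul_apply, smul_eq_mul]
      ring
    rw [h2, abs_mul, abs_of_pos (inv_pos.mpr hM0), inv_mul_le_iff₀ hM0, mul_one_div,
      le_div_iff₀ hC]
    nlinarith
  · beta_reduce
    rw [abs_mul, abs_of_pos (inv_pos.mpr hM0), inv_mul_le_iff₀ hM0]
    by_cases hu : u = 0
    · have h0 : Q u = 0 := by
        have := hQ 0 u
        rw [zero_smul, zero_mul] at this
        rw [hu, this]
      rw [h0, hu, norm_zero, mul_zero, abs_zero]
    · have hn : 0 < ‖u‖ := norm_pos_iff.mpr hu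
      have h1 : |Q (‖u‖⁻¹ • u)| ≤ |Q v| := hmax (mem_sphere_zero_iff_norm.mpr (by
        rw [norm_smul, norm_inv, norm_norm, inv_mul_cancel₀ hn.ne']))
      rw [hQ, abs_mul, abs_of_pos (inv_pos.mpr hn), ← hM, inv_mul_le_iff₀ hn] at h1
      linarith
  · rw [abs_mul, abs_of_pos (inv_pos.mpr hM0), ← hM, inv_mul_cancel₀ hM0.ne']

/-- The linear form `z ↦ dt z w`. -/
private noncomputable def rigForm (w : V) : V →L[ℝ] ℝ :=
  w.2 • ContinuousLinearMap.fst ℝ ℝ ℝ - w.1 • ContinuousLinearMap.snd ℝ ℝ ℝ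

private theorem rigForm_apply (w z : V) : rigForm w z = dt z w := by
  simp [rigForm, dt]
  ring

theorem rig {N : V → ℝ} (h : Nice N) :
    ∃ C > 0, ∀ ε : ℝ, 0 ≤ ε → ∀ Q : V → ℝ, (∀ (a : ℝ) u, Q (a • u) = a * Q u) →
      ContDiffOn ℝ 1 Q {0}ᶜ →
      (∀ u, ‖u‖ = 1 → |fderiv ℝ Q u (cj N u) + 2 * Q (cj N u)| ≤ ε) →
      ∀ u, ‖u‖ = 1 → |Q u| ≤ C * ε := by
  by_contra hcon
  push Not at hcon
  have hseq : ∀ n : ℕ, ∃ P : V → ℝ, (∀ (a : ℝ) u, P (a • u) = a * P u) ∧ ContDiffOn ℝ 1 P {0}ᶜ ∧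
      (∀ u, u ≠ 0 → |fderiv ℝ P u (cj N u) + 2 * P (cj N u)| ≤ 1 / ((n : ℝ) + 1)) ∧
      (∀ u, |P u| ≤ ‖u‖) ∧ ∃ v, ‖v‖ = 1 ∧ |P v| = 1 := by
    intro n
    have hC : (0 : ℝ) < (n : ℝ) + 1 := by positivity
    obtain ⟨ε, hε, Q, hQ, hQ1, he, u₀, hu₀, hbig⟩ := hcon ((n : ℝ) + 1) hC
    exact rig_scale h hC hε hQ hQ1 he hu₀ hbig
  choose P hPh hPc hPe hPb hPv using hseq
  have hPd : ∀ n u, u ≠ 0 → DifferentiableAt ℝ (P n) u := fun n u hu =>
    ((hPc n).differentiableOn one_ne_zero).differentiableAt (isOpen_compl_singleton.mem_nhds hu)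
  obtain ⟨K, hK, hKb⟩ := rig_cj_bound h
  obtain ⟨c, hc, hcb⟩ := h.toNormV.exists_lower
  -- the derivatives
  have hder : ∀ n u, u ≠ 0 → ∀ z, N u * fderiv ℝ (P n) u z =
      dt z (cj N u) * P n u + dt u z * fderiv ℝ (P n) u (cj N u) := by
    intro n u hu z
    have h1 := congrArg (fderiv ℝ (P n) u) (expand u (cj N u) z)
    rw [map_add, map_smul, map_smul, map_smul, h.dt_cj hu, rig_fderiv_self (hPh n) (hPd n u hu),
      smul_eq_mul, smul_eq_mul, smul_eq_mul] at h1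
    exact h1
  obtain ⟨L, hL⟩ : ∃ L : ℝ, L = (2 * K + 2 * (1 + 2 * K)) / c := ⟨_, rfl⟩
  have hL0 : 0 < L := by
    rw [hL]
    positivity
  have hbd : ∀ n u, u ≠ 0 → ‖fderiv ℝ (P n) u‖ ≤ L := by
    intro n u hu
    refine ContinuousLinearMap.opNorm_le_bound _ hL0.le fun z => ?_
    have hn : 0 < ‖u‖ := norm_pos_iff.mpr hu
    have h1 := hder n u hu z
    have h2 : |dt z (cj N u) * P n u| ≤ 2 * ‖z‖ * K * ‖u‖ := by
      rw [abs_mul]
      refine mul_le_mul ((abs_dt_le _ _).trans ?_) (hPb n u) (abs_nonneg _) (by positivity)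
      exact mul_le_mul_of_nonneg_left (hKb u hu) (by positivity)
    have h3 : |fderiv ℝ (P n) u (cj N u)| ≤ 1 + 2 * K := by
      have h4 := abs_le.1 (hPe n u hu)
      have h5 := abs_le.1 ((hPb n (cj N u)).trans (hKb u hu))
      have h6 : 1 / ((n : ℝ) + 1) ≤ 1 := by
        rw [div_le_one (by positivity)]
        have : (0 : ℝ) ≤ n := Nat.cast_nonneg n
        linarith
      rw [abs_le]
      constructor <;> linarith
    have h4 : |dt u z * fderiv ℝ (P n) u (cj N u)| ≤ 2 * ‖u‖ * ‖z‖ * (1 + 2 * K) := by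
      rw [abs_mul]
      exact mul_le_mul (abs_dt_le _ _) h3 (abs_nonneg _) (by positivity)
    have h5 : N u * |fderiv ℝ (P n) u z| ≤ 2 * ‖z‖ * K * ‖u‖ + 2 * ‖u‖ * ‖z‖ * (1 + 2 * K) := by
      rw [← abs_of_pos (h.toNormV.pos u hu), ← abs_mul, h1]
      exact (abs_add_le _ _).trans (add_le_add h2 h4)
    have h6 : c * ‖u‖ * |fderiv ℝ (P n) u z| ≤ N u * |fderiv ℝ (P n) u z| :=
      mul_le_mul_of_nonneg_right (hcb u) (abs_nonneg _)
    have h7 : ‖u‖ * (c * |fderiv ℝ (P n) u z|) ≤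
        ‖u‖ * ((2 * K + 2 * (1 + 2 * K)) * ‖z‖) := by
      nlinarith
    have h8 := le_of_mul_le_mul_left h7 hn
    rw [Real.norm_eq_abs, hL, div_mul_eq_mul_div, le_div_iff₀ hc]
    linarith
  have hlip : ∀ n (u v : V), ‖u‖ = 1 → ‖v - u‖ ≤ 1 / 2 → |P n v - P n u| ≤ L * ‖v - u‖ := by
    intro n u v hu hv
    have hne : ∀ x ∈ closedBall u (1 / 2 : ℝ), x ≠ 0 := by
      rintro x hx rfl
      rw [mem_closedBall, dist_eq_norm, zero_sub, norm_neg, hu] at hx
      norm_num at hx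
    have h1 := Convex.norm_image_sub_le_of_norm_fderiv_le (𝕜 := ℝ) (f := P n) (C := L)
      (s := closedBall u (1 / 2)) (x := u) (y := v) (fun x hx => hPd n x (hne x hx))
      (fun x hx => hbd n x (hne x hx)) (convex_closedBall u _) (mem_closedBall_self (by norm_num))
      (by rw [mem_closedBall, dist_eq_norm]; exact hv)
    exact h1
  -- the limit along an ultrafilter
  obtain ⟨𝒰, h𝒰⟩ : ∃ 𝒰 : Ultrafilter ℕ, 𝒰 = Filter.hyperfilter ℕ := ⟨_, rfl⟩
  have hle : (𝒰 : Filter ℕ) ≤ Filter.atTop := by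
    rw [h𝒰]
    exact Nat.hyperfilter_le_atTop
  have hlim : ∀ u : V, ∃ q : ℝ, Filter.Tendsto (fun n => P n u) 𝒰 (nhds q) := by
    intro u
    obtain ⟨q, _, hq⟩ := (isCompact_Icc (a := -‖u‖) (b := ‖u‖)).ultrafilter_le_nhds'
      (𝒰.map fun n => P n u) (Filter.mem_map.mpr (Filter.univ_mem' fun n => by
        have := abs_le.1 (hPb n u)
        exact ⟨this.1, this.2⟩))
    exact ⟨q, hq⟩
  choose Q hQ using hlim
  have hQh : ∀ (a : ℝ) u, Q (a • u) = a * Q u := by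
    intro a u
    refine tendsto_nhds_unique (hQ (a • u)) ?_
    have h1 := (hQ u).const_mul a
    refine h1.congr fun n => ?_
    rw [hPh]
  have hQlip : ∀ (u v : V), ‖u‖ = 1 → ‖v - u‖ ≤ 1 / 2 → |Q v - Q u| ≤ L * ‖v - u‖ := by
    intro u v hu hv
    refine le_of_tendsto ((hQ v).sub (hQ u)).abs (Filter.Eventually.of_forall fun n => ?_)
    exact hlip n u v hu hv
  -- uniform convergence
  have hunif : ∀ η : ℝ, 0 < η → ∀ᶠ n in (𝒰 : Filter ℕ), ∀ u : V, |P n u - Q u| ≤ η * ‖u‖ := by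
    intro η hη
    obtain ⟨ρ, hρ0, hρ1, hρ2⟩ : ∃ ρ : ℝ, 0 < ρ ∧ ρ ≤ 1 / 2 ∧ L * ρ ≤ η / 3 := by
      refine ⟨min (1 / 2) (η / (3 * L)), lt_min (by norm_num) (by positivity), min_le_left _ _, ?_⟩
      have h1 := mul_le_mul_of_nonneg_left (min_le_right (1 / 2) (η / (3 * L))) hL0.le
      refine h1.trans (le_of_eq ?_)
      field_simp
    obtain ⟨t, ht1, ht2, ht3⟩ := (isCompact_sphere (0 : V) 1).finite_cover_balls hρ0
    have h1 : ∀ᶠ n in (𝒰 : Filter ℕ), ∀ x ∈ t, |P n x - Q x| ≤ η / 3 := by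
      rw [Filter.eventually_all_finite ht2]
      intro x _
      have h2 := (hQ x).sub_const (Q x)
      rw [sub_self] at h2
      have h3 := h2.abs
      rw [abs_zero] at h3
      exact (h3.eventually_lt_const (by positivity : (0 : ℝ) < η / 3)).mono fun n hn => hn.le
    refine h1.mono fun n hn => ?_
    have h4 : ∀ u : V, ‖u‖ = 1 → |P n u - Q u| ≤ η := by
      intro u hu
      obtain ⟨x, hx, hux⟩ := Set.mem_iUnion₂.mp (ht3 (mem_sphere_zero_iff_norm.mpr hu))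
      have hx1 : ‖x‖ = 1 := mem_sphere_zero_iff_norm.mp (ht1 hx)
      have hux' : ‖u - x‖ ≤ ρ := by
        rw [mem_ball, dist_eq_norm] at hux
        exact hux.le
      have e1 := abs_le.1 (hn x hx)
      have e2 := abs_le.1 (hlip n x u hx1 (hux'.trans hρ1))
      have e3 := abs_le.1 (hQlip x u hx1 (hux'.trans hρ1))
      have e4 : L * ‖u - x‖ ≤ η / 3 :=
        (mul_le_mul_of_nonneg_left hux' hL0.le).trans hρ2
      rw [abs_le]
      constructor <;> linarith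
    intro u
    by_cases hu : u = 0
    · have e1 : P n u = 0 := by
        have := hPh n 0 u
        rw [zero_smul, zero_mul] at this
        rw [hu, this]
      have e2 : Q u = 0 := by
        have := hQh 0 u
        rw [zero_smul, zero_mul] at this
        rw [hu, this]
      rw [e1, e2, sub_self, abs_zero]
      positivity
    · have hn0 : 0 < ‖u‖ := norm_pos_iff.mpr hu
      have e1 := h4 (‖u‖⁻¹ • u) (by
        rw [norm_smul, norm_inv, norm_norm, inv_mul_cancel₀ hn0.ne'])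
      rw [hPh, hQh, ← mul_sub, abs_mul, abs_of_pos (inv_pos.mpr hn0), inv_mul_le_iff₀ hn0] at e1
      linarith
  -- the limit of the derivatives
  obtain ⟨G, hG⟩ : ∃ G : V → (V →L[ℝ] ℝ), ∀ u, G u =
      (N u)⁻¹ • (Q u • rigForm (cj N u) + (2 * Q (cj N u)) • rigForm u) := ⟨_, fun _ => rfl⟩
  have hGa : ∀ u, u ≠ 0 → ∀ z, N u * G u z = dt z (cj N u) * Q u - 2 * (dt u z * Q (cj N u)) := by
    intro u hu z
    have h1 : N u ≠ 0 := (h.toNormV.pos u hu).ne'
    rw [hG, smul_apply, add_apply, smul_apply, smul_apply, rigForm_apply, rigForm_apply,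
      smul_eq_mul, smul_eq_mul, smul_eq_mul, mul_inv_cancel_left₀ h1, dt_comm z u]
    ring
  have hGu : TendstoUniformlyOn (fun n => fderiv ℝ (P n)) G 𝒰 {0}ᶜ := by
    rw [Metric.tendstoUniformlyOn_iff]
    intro ε hε
    obtain ⟨η, hη0, hη1⟩ : ∃ η : ℝ, 0 < η ∧ (6 * K + 2) * η / c < ε := by
      refine ⟨ε * c / (2 * (6 * K + 2)), by positivity, ?_⟩
      have h1 : (6 * K + 2) * (ε * c / (2 * (6 * K + 2))) / c = ε / 2 := by
        field_simp
      rw [h1]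
      linarith
    have h1 : ∀ᶠ n : ℕ in (𝒰 : Filter ℕ), 1 / ((n : ℝ) + 1) < η :=
      hle (tendsto_one_div_add_atTop_nhds_zero_nat.eventually_lt_const hη0)
    filter_upwards [h1, hunif η hη0] with n h2 h3
    intro u hu
    have hu : u ≠ 0 := hu
    have hn : 0 < ‖u‖ := norm_pos_iff.mpr hu
    rw [dist_comm, dist_eq_norm]
    refine lt_of_le_of_lt ?_ hη1
    refine ContinuousLinearMap.opNorm_le_bound _ (by positivity) fun z => ?_
    have e1 : N u * (fderiv ℝ (P n) u - G u) z = dt z (cj N u) * (P n u - Q u) +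
        dt u z * ((fderiv ℝ (P n) u (cj N u) + 2 * P n (cj N u)) -
          2 * (P n (cj N u) - Q (cj N u))) := by
      rw [sub_apply, mul_sub, hder n u hu, hGa u hu]
      ring
    have e2 : |dt z (cj N u) * (P n u - Q u)| ≤ 2 * ‖z‖ * K * (η * ‖u‖) := by
      rw [abs_mul]
      refine mul_le_mul ((abs_dt_le _ _).trans ?_) (h3 u) (abs_nonneg _) (by positivity)
      exact mul_le_mul_of_nonneg_left (hKb u hu) (by positivity)
    have e3 : |(fderiv ℝ (P n) u (cj N u) + 2 * P n (cj N u)) -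
        2 * (P n (cj N u) - Q (cj N u))| ≤ η + 2 * (η * K) := by
      have h4 := abs_le.1 ((hPe n u hu).trans h2.le)
      have h5 := abs_le.1 ((h3 (cj N u)).trans (mul_le_mul_of_nonneg_left (hKb u hu) hη0.le))
      rw [abs_le]
      constructor <;> linarith
    have e4 : |dt u z * ((fderiv ℝ (P n) u (cj N u) + 2 * P n (cj N u)) -
        2 * (P n (cj N u) - Q (cj N u)))| ≤ 2 * ‖u‖ * ‖z‖ * (η + 2 * (η * K)) := by
      rw [abs_mul]
      exact mul_le_mul (abs_dt_le _ _) e3 (abs_nonneg _) (by positivity)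
    have e5 : N u * |(fderiv ℝ (P n) u - G u) z| ≤
        2 * ‖z‖ * K * (η * ‖u‖) + 2 * ‖u‖ * ‖z‖ * (η + 2 * (η * K)) := by
      rw [← abs_of_pos (h.toNormV.pos u hu), ← abs_mul, e1]
      exact (abs_add_le _ _).trans (add_le_add e2 e4)
    have e6 : c * ‖u‖ * |(fderiv ℝ (P n) u - G u) z| ≤ N u * |(fderiv ℝ (P n) u - G u) z| :=
      mul_le_mul_of_nonneg_right (hcb u) (abs_nonneg _)
    have e7 : ‖u‖ * (c * |(fderiv ℝ (P n) u - G u) z|) ≤ ‖u‖ * ((6 * K + 2) * η * ‖z‖) := by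
      nlinarith
    have e8 := le_of_mul_le_mul_left e7 hn
    rw [Real.norm_eq_abs, div_mul_eq_mul_div, le_div_iff₀ hc]
    linarith
  have hGd : ∀ u, u ≠ 0 → HasFDerivAt Q (G u) u := by
    intro u hu
    exact hasFDerivAt_of_tendstoUniformlyOn (f := P) (f' := fun n => fderiv ℝ (P n)) (g := Q)
      (g' := G) (l := (𝒰 : Filter ℕ)) isOpen_compl_singleton hGu
      (fun n x hx => (hPd n x hx).hasFDerivAt) (fun x _ => hQ x) hu
  have hGc : ContinuousOn G {0}ᶜ := by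
    refine hGu.continuousOn (Filter.Eventually.frequently (Filter.Eventually.of_forall fun n => ?_))
    exact (hPc n).continuousOn_fderiv_of_isOpen isOpen_compl_singleton le_rfl
  have hQ1 : ContDiffOn ℝ 1 Q {0}ᶜ := by
    have h1 : (1 : WithTop ℕ∞) = 0 + 1 := (zero_add 1).symm
    rw [h1, contDiffOn_succ_iff_fderiv_of_isOpen isOpen_compl_singleton]
    refine ⟨fun u hu => (hGd u hu).differentiableAt.differentiableWithinAt, by simp, ?_⟩
    rw [contDiffOn_zero]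
    exact hGc.congr fun u hu => (hGd u hu).fderiv
  have hQe : ∀ u, u ≠ 0 → fderiv ℝ Q u (cj N u) + 2 * Q (cj N u) = 0 := by
    intro u hu
    have h1 : N u ≠ 0 := (h.toNormV.pos u hu).ne'
    have h2 := hGa u hu (cj N u)
    rw [dt_self, h.dt_cj hu, zero_mul, zero_sub] at h2
    rw [(hGd u hu).fderiv]
    refine mul_left_cancel₀ h1 ?_
    rw [mul_add, h2]
    ring
  have hQ0 := rig_exact h hQh hQ1 hQe
  obtain ⟨n, hn⟩ := (hunif (1 / 2) (by norm_num)).exists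
  obtain ⟨v, hv, hv1⟩ := hPv n
  have h1 := hn v
  rw [hQ0 v, sub_zero, hv1, hv] at h1
  norm_num at h1

end Pool.Agent.L1de93c
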