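import Pool.Agent.Lib_MP_1de93e_cont.P1A
import Pool.Agent.Lib_MP_1de93e_cont.E2
import Pool.Agent.Lib_MP_1de93e_cont.HW
import Pool.Agent.Lib_MP_1de93e_cont.Rig

/-!
# PIECE P1B: the linearised first order equations

`Q = closedBall 0 (1/2)`.
## P1B `p1`.
Fix `ψ`, `M` with `∫_Q ‖fderiv ψ‖² ≤ M²`; `w = w(u)` from `e2` with a small `κ₁`. `hw` gives `A` and
`Λ u = A u u`, `C¹` with derivative `2 A u`. Let `γ v = - ∫_Q lc F y * fderiv ψ y v` (linear) and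
`Q u = -(1/2) Λ u / N₀ u - γ u / 3` (`Q 0 = 0`). `Λ (a u) = a |a| Λ u`, so `Q (a u) = a Q u`; `Q` is `C¹` off `0`.
Let `q u = -(1/2) Λ u / N₀ u`. All `O` are uniform in `‖u‖ = 1`, with `M = 1` (or times `M`):
* `p1_lin`: `A v z = N₀ v ∫ log (F y v) dψ z + O((ε+Θ) Θ) ‖z‖` for `‖v‖ = 1`, so for `v` of norm in
  `[c₀/2, K₁]` too (`A (a v) z = a A v z`, `∫ log (F y (a v)) dψ = ∫ log (F y v) dψ` for `a > 0`).
* `2 q w = - A w w / N₀ w = - ∫ log (F y w) dψ w + O((ε+Θ) Θ)`.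
* `fderiv q u w = - A u w / N₀ u + (1/2) Λ u fderiv N₀ u w / (N₀ u)²`, where
  `|fderiv N₀ u w| = |fderiv N₀ u (w - cj u)| ≤ C κ₁` and `|Λ u| ≤ C Θ`; so
  `fderiv q u w = - ∫ log (F y u) dψ w + O((ε + Θ + κ₁) Θ)`.
* Sum: `fderiv q u w + 2 q w = - ∫ (log (F y u) + log (F y w)) dψ w + O = γ w - ∫ E dψ w + O`
  where `E` is the defect of `e2` (constants integrate to `0`), `|∫ E dψ w| ≤ κ₁ Θ ‖w‖`.
* So `fderiv Q u w + 2 Q w = fderiv q u w + 2 q w - γ w/3 - 2 γ w/3 = O((ε + Θ + κ₁) Θ)`. Replace `w` by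
  `cj u`: `‖fderiv q v‖ ≤ C Θ` for `v` off `0` (homogeneous of degree `0`), `|γ v| ≤ C Θ ‖v‖`, and
  `‖w - cj u‖ ≤ κ₁`: the error is `C κ₁ Θ` (the segment from `w` to `cj u` avoids `0` since
  `dt u · ≥ c₀` on it).
`rig` gives `|Q u| ≤ C (ε + Θ + κ₁) Θ` for `‖u‖ = 1`, i.e.
`|∫ (log (F y u) - (2/3) lc F y) dψ u| ≤ C (ε + Θ + κ₁) Θ` (first claim), and applied to `w/‖w‖`:
`∫ log (F y w) dψ w = (2/3) ∫ lc dψ w + O`. Subtract this from
`∫ (log (F y u) + log (F y w) - lc) dψ w = O(κ₁ Θ)`: `∫ (log (F y u) - (1/3) lc) dψ w = O`, and again replace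
`w` by `cj u` (`|∫ (log F · u - a) dψ (w - cj u)| ≤ C Θ κ₁`). Finally choose `ε, κ₁` small
(`Θ ≤ ε`).
-/

namespace Pool.Agent.L1de93c

open MeasureTheory Metric Set
open scoped ContDiff

theorem p1_cj_norm {N₀ : V → ℝ} (h₀ : Nice N₀) {u : V} (hu0 : u ≠ 0) :
    ‖cj N₀ u‖ ≤ N₀ (1, 0) + N₀ (0, 1) := by
  have h1 := h₀.abs_fderiv_le hu0 (0, 1)
  have h2 := h₀.abs_fderiv_le hu0 (1, 0)
  have h3 := h₀.toNormV.nonneg (0, 1)
  have h4 := h₀.toNormV.nonneg (1, 0)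
  rw [Prod.norm_def]
  refine max_le ?_ ?_
  · show ‖-(fderiv ℝ N₀ u (0, 1))‖ ≤ _
    rw [norm_neg, Real.norm_eq_abs]
    linarith
  · show ‖fderiv ℝ N₀ u (1, 0)‖ ≤ _
    rw [Real.norm_eq_abs]
    linarith

/-- The algebra of P1B: `A u z / N₀ u` stands for `∫ log (F y u) dψ z`, `γ` for `- ∫ lc F dψ`. -/
theorem p1_abstract {N₀ : V → ℝ} (h₀ : Nice N₀) : ∃ C > 0, ∀ (A : V → V →L[ℝ] ℝ) (γ : V →L[ℝ] ℝ)
    (B D κ₁ : ℝ), 0 ≤ B → 0 ≤ D → 0 ≤ κ₁ → Continuous A →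
    (∀ (a : ℝ) u, A (a • u) = |a| • A u) →
    (∀ u, HasFDerivAt (fun u => A u u) ((2 : ℝ) • A u) u) →
    (∀ u, ‖u‖ = 1 → ∀ z, |A u z| ≤ B * N₀ u * ‖z‖) → (∀ z, |γ z| ≤ B * ‖z‖) →
    (∀ u, ‖u‖ = 1 → ∃ w, ‖w - cj N₀ u‖ ≤ κ₁ ∧ dt u w = N₀ u ∧
      |A u w / N₀ u + A w w / N₀ w + γ w| ≤ D) →
    ∀ u, ‖u‖ = 1 → |A u u / N₀ u + (2 / 3) * γ u| ≤ C * (D + κ₁ * B) ∧
      |A u (cj N₀ u) / N₀ u + (1 / 3) * γ (cj N₀ u)| ≤ C * (D + κ₁ * B) := by
  obtain ⟨Cr, hCr, hrig⟩ := rig h₀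
  obtain ⟨c₀, hc₀, hlow⟩ := h₀.toNormV.exists_lower
  have hN := h₀.toNormV
  set C₀ : ℝ := N₀ (1, 0) + N₀ (0, 1) with hC₀
  have hC₀0 : 0 ≤ C₀ := add_nonneg (hN.nonneg _) (hN.nonneg _)
  set m : ℝ := 4 + C₀ / c₀ with hm
  have hm0 : 0 ≤ m := by positivity
  refine ⟨(m + 1) * (1 + 2 * Cr + 2 * C₀ * Cr), by positivity, ?_⟩
  intro A γ B D κ₁ hB hD hκ₁ hAc hAh hAd hAb hγb hw
  -- bounds off the sphere
  have hAb' : ∀ u, u ≠ 0 → ∀ z, |A u z| ≤ B * N₀ u * ‖z‖ := by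
    intro u hu z
    have hn : 0 < ‖u‖ := norm_pos_iff.mpr hu
    have h1 := hAb (‖u‖⁻¹ • u) (by
      rw [norm_smul, norm_inv, norm_norm, inv_mul_cancel₀ hn.ne']) z
    rw [hAh, hN.smul, abs_of_pos (inv_pos.mpr hn)] at h1
    have h2 : |(‖u‖⁻¹ • A u) z| = ‖u‖⁻¹ * |A u z| := by
      rw [_root_.smul_apply, smul_eq_mul, abs_mul, abs_of_pos (inv_pos.mpr hn)]
    rw [h2, inv_mul_le_iff₀ hn] at h1
    refine h1.trans (le_of_eq ?_)
    field_simp
  have hpos : ∀ u, u ≠ 0 → 0 < N₀ u := hN.pos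
  -- the function `q`
  set Λ : V → ℝ := fun u => A u u with hΛ
  set q : V → ℝ := fun u => -(1 / 2) * (Λ u * (N₀ u)⁻¹) with hq
  set q' : V → V →L[ℝ] ℝ := fun u => (-(1 / 2 : ℝ)) • (Λ u • (-(N₀ u ^ 2)⁻¹ • fderiv ℝ N₀ u) +
    (N₀ u)⁻¹ • ((2 : ℝ) • A u)) with hq'
  have hNd : ∀ u, u ≠ 0 → HasFDerivAt N₀ (fderiv ℝ N₀ u) u :=
    fun u hu => (h₀.diff u hu).hasFDerivAt
  have hqd : ∀ u, u ≠ 0 → HasFDerivAt q (q' u) u := by
    intro u hu
    have h1 : HasFDerivAt (Inv.inv ∘ N₀) (-(N₀ u ^ 2)⁻¹ • fderiv ℝ N₀ u) u :=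
      (hasDerivAt_inv (hpos u hu).ne').comp_hasFDerivAt u (hNd u hu)
    exact ((hAd u).mul h1).const_mul _
  have hq'z : ∀ u z, q' u z = (1 / 2) * (Λ u * (N₀ u ^ 2)⁻¹ * fderiv ℝ N₀ u z) - A u z / N₀ u := by
    intro u z
    have h1 : q' u z = -(1 / 2) * (Λ u * (-(N₀ u ^ 2)⁻¹ * fderiv ℝ N₀ u z) +
      (N₀ u)⁻¹ * (2 * A u z)) := rfl
    rw [h1, div_eq_mul_inv]
    ring
  have hq'b : ∀ u, u ≠ 0 → ‖q' u‖ ≤ B * (1 + C₀ / (2 * c₀)) := by
    intro u hu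
    have hu0 : 0 < ‖u‖ := norm_pos_iff.mpr hu
    have hNu := hpos u hu
    refine ContinuousLinearMap.opNorm_le_bound _ (by positivity) (fun z => ?_)
    rw [hq'z, Real.norm_eq_abs]
    have h1 : |A u z / N₀ u| ≤ B * ‖z‖ := by
      rw [abs_div, abs_of_pos hNu, div_le_iff₀ hNu]
      refine (hAb' u hu z).trans (le_of_eq (by ring))
    have h2 : |Λ u| ≤ B * N₀ u * ‖u‖ := hAb' u hu u
    have h3 : |fderiv ℝ N₀ u z| ≤ C₀ * ‖z‖ := (h₀.abs_fderiv_le hu z).trans (hN.le_mul_norm z)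
    have h4 : c₀ * ‖u‖ ≤ N₀ u := hlow u
    have h5 : |(1 / 2) * (Λ u * (N₀ u ^ 2)⁻¹ * fderiv ℝ N₀ u z)| ≤ B * (C₀ / (2 * c₀)) * ‖z‖ := by
      rw [abs_mul, abs_mul, abs_mul, abs_of_pos (show (0 : ℝ) < 1 / 2 by norm_num),
        abs_of_pos (show 0 < (N₀ u ^ 2)⁻¹ by positivity)]
      have h6 : |Λ u| * (N₀ u ^ 2)⁻¹ ≤ B / c₀ := by
        rw [← div_eq_mul_inv, div_le_div_iff₀ (by positivity) hc₀]
        calc |Λ u| * c₀ ≤ B * N₀ u * ‖u‖ * c₀ := mul_le_mul_of_nonneg_right h2 hc₀.le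
          _ = B * N₀ u * (c₀ * ‖u‖) := by ring
          _ ≤ B * N₀ u * N₀ u := mul_le_mul_of_nonneg_left h4 (by positivity)
          _ = B * N₀ u ^ 2 := by ring
      calc 1 / 2 * (|Λ u| * (N₀ u ^ 2)⁻¹ * |fderiv ℝ N₀ u z|) ≤ 1 / 2 * (B / c₀ * (C₀ * ‖z‖)) := by
            refine mul_le_mul_of_nonneg_left ?_ (by norm_num)
            exact mul_le_mul h6 h3 (abs_nonneg _) (by positivity)
        _ = B * (C₀ / (2 * c₀)) * ‖z‖ := by field_simp
    calc |1 / 2 * (Λ u * (N₀ u ^ 2)⁻¹ * fderiv ℝ N₀ u z) - A u z / N₀ u| ≤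
        |1 / 2 * (Λ u * (N₀ u ^ 2)⁻¹ * fderiv ℝ N₀ u z)| + |A u z / N₀ u| := abs_sub _ _
      _ ≤ B * (C₀ / (2 * c₀)) * ‖z‖ + B * ‖z‖ := add_le_add h5 h1
      _ = B * (1 + C₀ / (2 * c₀)) * ‖z‖ := by ring
  -- the function `Q`
  set Q : V → ℝ := fun u => q u - (1 / 3) * γ u with hQ
  have hΛh : ∀ (a : ℝ) u, Λ (a • u) = a * |a| * Λ u := by
    intro a u
    show A (a • u) (a • u) = _
    rw [hAh, map_smul]
    show a * (|a| * A u u) = _
    ring
  have hqh : ∀ (a : ℝ) u, q (a • u) = a * q u := by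
    intro a u
    show -(1 / 2) * (Λ (a • u) * (N₀ (a • u))⁻¹) = a * (-(1 / 2) * (Λ u * (N₀ u)⁻¹))
    rw [hΛh, hN.smul]
    by_cases ha : a = 0
    · subst ha
      simp
    · have ha' : |a| ≠ 0 := abs_ne_zero.mpr ha
      rw [mul_inv]
      field_simp
  have hQh : ∀ (a : ℝ) u, Q (a • u) = a * Q u := by
    intro a u
    show q (a • u) - (1 / 3) * γ (a • u) = a * (q u - (1 / 3) * γ u)
    rw [hqh, map_smul, smul_eq_mul]
    ring
  have hQd : ∀ u, u ≠ 0 → HasFDerivAt Q (q' u - (1 / 3 : ℝ) • γ) u := by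
    intro u hu
    exact (hqd u hu).sub (γ.hasFDerivAt.const_mul _)
  have hQC : ContDiffOn ℝ 1 Q {0}ᶜ := by
    have h1 : IsOpen ({0}ᶜ : Set V) := isOpen_compl_singleton
    have h2 : ContinuousOn (fderiv ℝ Q) {0}ᶜ := by
      have h3 : ContinuousOn (fun u => q' u - (1 / 3 : ℝ) • γ) {0}ᶜ := by
        refine ContinuousOn.sub ?_ continuousOn_const
        have hΛc : Continuous Λ := hAc.clm_apply continuous_id
        have hNc : Continuous N₀ := hN.continuous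
        have h4 : ContinuousOn (fun u => (N₀ u)⁻¹) {0}ᶜ :=
          hNc.continuousOn.inv₀ (fun u hu => (hpos u hu).ne')
        have h5 : ContinuousOn (fun u => (N₀ u ^ 2)⁻¹) {0}ᶜ :=
          (hNc.pow 2).continuousOn.inv₀ (fun u hu => (pow_pos (hpos u hu) 2).ne')
        have h6 : ContinuousOn (fun u => (2 : ℝ) • A u) {0}ᶜ := (hAc.const_smul (2 : ℝ)).continuousOn
        have h7 : ContinuousOn (fun u => -(N₀ u ^ 2)⁻¹ • fderiv ℝ N₀ u) {0}ᶜ :=
          h5.neg.smul h₀.continuousOn_fderiv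
        have h8 : ContinuousOn (fun u => Λ u • (-(N₀ u ^ 2)⁻¹ • fderiv ℝ N₀ u) +
          (N₀ u)⁻¹ • ((2 : ℝ) • A u)) {0}ᶜ := (hΛc.continuousOn.smul h7).add (h4.smul h6)
        exact h8.const_smul (-(1 / 2 : ℝ))
      exact h3.congr (fun u hu => (hQd u hu).fderiv)
    have h3 : ContDiffOn ℝ (0 + 1) Q {0}ᶜ := by
      rw [contDiffOn_succ_iff_fderiv_of_isOpen h1]
      refine ⟨fun u hu => (hQd u hu).differentiableAt.differentiableWithinAt, ?_, ?_⟩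
      · intro h
        simp at h
      · exact contDiffOn_zero.mpr h2
    simpa using h3
  -- the estimate
  set E : ℝ := D + m * (κ₁ * B) with hE
  have hEn : 0 ≤ E := by positivity
  have hcjn : ∀ u, ‖u‖ = 1 → ‖cj N₀ u‖ ≤ C₀ := by
    intro u hu
    have hu0 : u ≠ 0 := by
      rintro rfl
      simp at hu
    exact p1_cj_norm h₀ hu0
  have hkey : ∀ u, ‖u‖ = 1 → |A u (cj N₀ u) / N₀ u - 2 * q (cj N₀ u) + γ (cj N₀ u)| ≤ E := by
    intro u hu
    have hu0 : u ≠ 0 := by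
      rintro rfl
      simp at hu
    obtain ⟨w, hw1, hw2, hw3⟩ := hw u hu
    have hNu := hpos u hu0
    set c := cj N₀ u with hc
    have hw0 : w ≠ 0 := by
      rintro rfl
      have : dt u (0 : V) = 0 := by simp [dt]
      rw [this] at hw2
      exact hNu.ne hw2
    have h1 : |A u (w - c) / N₀ u| ≤ κ₁ * B := by
      rw [abs_div, abs_of_pos hNu, div_le_iff₀ hNu]
      calc |A u (w - c)| ≤ B * N₀ u * ‖w - c‖ := hAb' u hu0 _
        _ ≤ B * N₀ u * κ₁ := mul_le_mul_of_nonneg_left hw1 (by positivity)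
        _ = κ₁ * B * N₀ u := by ring
    have h2 : |γ (w - c)| ≤ κ₁ * B := by
      calc |γ (w - c)| ≤ B * ‖w - c‖ := hγb _
        _ ≤ B * κ₁ := mul_le_mul_of_nonneg_left hw1 hB
        _ = κ₁ * B := by ring
    have h3 : |q c - q w| ≤ B * (1 + C₀ / (2 * c₀)) * κ₁ := by
      have h4 : ∀ v ∈ segment ℝ w c, v ≠ 0 := by
        intro v hv
        obtain ⟨a, b, ha, hb, hab, rfl⟩ := hv
        intro h5
        have h6 : dt u (a • w + b • c) = N₀ u := by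
          rw [dt_add_right, dt_smul_right, dt_smul_right, hw2, h₀.dt_cj hu0, ← add_mul, hab,
            one_mul]
        rw [h5] at h6
        have : dt u (0 : V) = 0 := by simp [dt]
        rw [this] at h6
        exact hNu.ne h6
      have h5 := Convex.norm_image_sub_le_of_norm_hasFDerivWithin_le (𝕜 := ℝ) (f := q) (f' := q')
        (C := B * (1 + C₀ / (2 * c₀))) (s := segment ℝ w c) (x := w) (y := c)
        (fun v hv => (hqd v (h4 v hv)).hasFDerivWithinAt) (fun v hv => hq'b v (h4 v hv))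
        (convex_segment _ _) (left_mem_segment ℝ w c) (right_mem_segment ℝ w c)
      rw [Real.norm_eq_abs, norm_sub_rev c w] at h5
      exact h5.trans (mul_le_mul_of_nonneg_left hw1 (by positivity))
    have h4 : A w w / N₀ w = -2 * q w := by
      show Λ w / N₀ w = -2 * (-(1 / 2) * (Λ w * (N₀ w)⁻¹))
      rw [div_eq_mul_inv]
      ring
    have h5 : A u c / N₀ u - 2 * q c + γ c = (A u w / N₀ u + A w w / N₀ w + γ w) -
        A u (w - c) / N₀ u - γ (w - c) - 2 * (q c - q w) := by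
      rw [h4, map_sub, map_sub]
      ring
    rw [h5]
    have h6 : |2 * (q c - q w)| ≤ (2 + C₀ / c₀) * (κ₁ * B) := by
      rw [abs_mul, abs_of_pos (show (0 : ℝ) < 2 by norm_num)]
      refine (mul_le_mul_of_nonneg_left h3 (by norm_num)).trans (le_of_eq ?_)
      field_simp
    have h7 := abs_sub (A u w / N₀ u + A w w / N₀ w + γ w) (A u (w - c) / N₀ u)
    have h8 := abs_sub (A u w / N₀ u + A w w / N₀ w + γ w - A u (w - c) / N₀ u) (γ (w - c))
    have h9 := abs_sub (A u w / N₀ u + A w w / N₀ w + γ w - A u (w - c) / N₀ u - γ (w - c))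
      (2 * (q c - q w))
    have h10 : E = D + κ₁ * B + κ₁ * B + (2 + C₀ / c₀) * (κ₁ * B) := by
      rw [hE, hm]
      ring
    rw [h10]
    linarith
  have hQE : ∀ u, ‖u‖ = 1 → |fderiv ℝ Q u (cj N₀ u) + 2 * Q (cj N₀ u)| ≤ E := by
    intro u hu
    have hu0 : u ≠ 0 := by
      rintro rfl
      simp at hu
    rw [(hQd u hu0).fderiv]
    have h1 : (q' u - (1 / 3 : ℝ) • γ) (cj N₀ u) = -(A u (cj N₀ u) / N₀ u) -
        (1 / 3) * γ (cj N₀ u) := by
      show q' u (cj N₀ u) - (1 / 3) * γ (cj N₀ u) = _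
      rw [hq'z, Nice.fderiv_cj]
      ring
    rw [h1, ← abs_neg]
    refine le_trans (le_of_eq ?_) (hkey u hu)
    congr 1
    show -(-(A u (cj N₀ u) / N₀ u) - (1 / 3) * γ (cj N₀ u) +
      2 * (q (cj N₀ u) - (1 / 3) * γ (cj N₀ u))) = _
    ring
  have hQb := hrig E hEn Q hQh hQC hQE
  have hfin : E ≤ (m + 1) * (D + κ₁ * B) := by
    have : 0 ≤ κ₁ * B := mul_nonneg hκ₁ hB
    rw [hE]
    nlinarith [mul_nonneg hm0 hD]
  intro u hu
  have hu0 : u ≠ 0 := by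
    rintro rfl
    simp at hu
  have hQu := hQb u hu
  have e1 : A u u / N₀ u + (2 / 3) * γ u = -2 * Q u := by
    show Λ u / N₀ u + (2 / 3) * γ u = -2 * (-(1 / 2) * (Λ u * (N₀ u)⁻¹) - (1 / 3) * γ u)
    rw [div_eq_mul_inv]
    ring
  have hc0 : cj N₀ u ≠ 0 := h₀.cj_ne_zero hu0
  have hcn : 0 < ‖cj N₀ u‖ := norm_pos_iff.mpr hc0
  have hQc : |Q (cj N₀ u)| ≤ C₀ * (Cr * E) := by
    have h1 := hQb (‖cj N₀ u‖⁻¹ • cj N₀ u) (by
      rw [norm_smul, norm_inv, norm_norm, inv_mul_cancel₀ hcn.ne'])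
    rw [hQh, abs_mul, abs_of_pos (inv_pos.mpr hcn), inv_mul_le_iff₀ hcn] at h1
    exact h1.trans (mul_le_mul_of_nonneg_right (hcjn u hu) (by positivity))
  have e2 : A u (cj N₀ u) / N₀ u + (1 / 3) * γ (cj N₀ u) =
      (A u (cj N₀ u) / N₀ u - 2 * q (cj N₀ u) + γ (cj N₀ u)) + 2 * Q (cj N₀ u) := by
    show _ = (A u (cj N₀ u) / N₀ u - 2 * q (cj N₀ u) + γ (cj N₀ u)) +
      2 * (q (cj N₀ u) - (1 / 3) * γ (cj N₀ u))
    ring
  have hCE : (1 + 2 * Cr + 2 * C₀ * Cr) * E ≤ (m + 1) * (1 + 2 * Cr + 2 * C₀ * Cr) *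
      (D + κ₁ * B) := by
    have h1 := mul_le_mul_of_nonneg_left hfin (show 0 ≤ 1 + 2 * Cr + 2 * C₀ * Cr by positivity)
    refine h1.trans (le_of_eq (by ring))
  have hCr' : 0 ≤ Cr * E := by positivity
  have hCr2 : 0 ≤ C₀ * Cr * E := by positivity
  constructor
  · rw [e1, abs_mul, abs_neg, abs_of_pos (show (0 : ℝ) < 2 by norm_num)]
    refine le_trans ?_ hCE
    nlinarith
  · rw [e2]
    refine (abs_add_le _ _).trans ?_
    rw [abs_mul, abs_of_pos (show (0 : ℝ) < 2 by norm_num)]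
    refine le_trans ?_ hCE
    have := hkey u hu
    nlinarith

/-! ### the concrete part -/

theorem p1_cont {ψ : V → ℝ} (hψ : ContDiff ℝ 1 ψ) (z : V) : Continuous (fun y => fderiv ℝ ψ y z) :=
  (hψ.continuous_fderiv (by norm_num)).clm_apply continuous_const

theorem p1_int {ψ g : V → ℝ} (hψ : ContDiff ℝ 1 ψ)
    (hg : ContinuousOn g (closedBall (0 : V) (1 / 2))) (z : V) :
    IntegrableOn (fun y => g y * fderiv ℝ ψ y z) (closedBall (0 : V) (1 / 2)) :=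
  (hg.mul (p1_cont hψ z).continuousOn).integrableOn_compact (isCompact_closedBall _ _)

/-- the integral of a derivative is `0` -/
theorem p1_zero {ψ : V → ℝ} (hψ : ContDiff ℝ 1 ψ) (hs : tsupport ψ ⊆ closedBall 0 (1 / 2)) (z : V) :
    ∫ y in closedBall (0 : V) (1 / 2), fderiv ℝ ψ y z = 0 := by
  have hc : HasCompactSupport ψ := HasCompactSupport.of_support_subset_isCompact
    (isCompact_closedBall (0 : V) (1 / 2)) ((subset_tsupport ψ).trans hs)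
  have h1 : ∀ y ∉ closedBall (0 : V) (1 / 2), fderiv ℝ ψ y z = 0 := by
    intro y hy
    have h2 : y ∉ tsupport ψ := fun h => hy (hs h)
    have h3 : fderiv ℝ ψ y = 0 := by
      by_contra h4
      exact h2 (support_fderiv_subset ℝ (f := ψ) h4)
    rw [h3]
    rfl
  rw [setIntegral_eq_integral_of_forall_compl_eq_zero h1]
  have h2 : Continuous (fun y => fderiv ℝ ψ y z) := p1_cont hψ z
  have h3 : HasCompactSupport (fun y => fderiv ℝ ψ y z) := hc.fderiv_apply ℝ z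
  have h4 := integral_mul_fderiv_eq_neg_fderiv_mul_of_integrable (μ := volume) (𝕜 := ℝ)
    (f := fun _ : V => (1 : ℝ)) (g := ψ) (v := z)
    (by simp) (by simpa using h2.integrable_of_hasCompactSupport h3)
    (by simpa using hψ.continuous.integrable_of_hasCompactSupport hc)
    (fun _ _ => differentiableAt_const _)
    (fun x _ => (hψ.differentiable (by norm_num)) x)
  simpa using h4

/-- Cauchy-Schwarz on the square -/
theorem p1_cs {g k : V → ℝ} (hg : ContinuousOn g (closedBall (0 : V) (1 / 2)))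
    (hk : ContinuousOn k (closedBall (0 : V) (1 / 2))) {S T : ℝ} (hS : 0 ≤ S) (hT : 0 ≤ T)
    (h1 : ∫ y in closedBall (0 : V) (1 / 2), (g y) ^ 2 ≤ S ^ 2)
    (h2 : ∫ y in closedBall (0 : V) (1 / 2), (k y) ^ 2 ≤ T ^ 2) :
    |∫ y in closedBall (0 : V) (1 / 2), g y * k y| ≤ S * T := by
  have hK : IsCompact (closedBall (0 : V) (1 / 2)) := isCompact_closedBall _ _
  have i1 : IntegrableOn (fun y => (g y) ^ 2) (closedBall (0 : V) (1 / 2)) :=
    (hg.pow 2).integrableOn_compact hK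
  have i2 : IntegrableOn (fun y => (k y) ^ 2) (closedBall (0 : V) (1 / 2)) :=
    (hk.pow 2).integrableOn_compact hK
  have i3 : IntegrableOn (fun y => g y * k y) (closedBall (0 : V) (1 / 2)) :=
    (hg.mul hk).integrableOn_compact hK
  set a := ∫ y in closedBall (0 : V) (1 / 2), (g y) ^ 2 with ha
  set b := ∫ y in closedBall (0 : V) (1 / 2), g y * k y with hb
  set c := ∫ y in closedBall (0 : V) (1 / 2), (k y) ^ 2 with hc
  have h3 : ∀ t : ℝ, 0 ≤ a * (t * t) + (2 * b) * t + c := by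
    intro t
    have h4 : a * (t * t) + (2 * b) * t + c =
        ∫ y in closedBall (0 : V) (1 / 2), (t * g y + k y) ^ 2 := by
      have h5 : ∀ y, (t * g y + k y) ^ 2 = (t * t) * (g y) ^ 2 + (2 * t) * (g y * k y) +
          (k y) ^ 2 := fun y => by ring
      have j1 : IntegrableOn (fun y => (t * t) * (g y) ^ 2) (closedBall (0 : V) (1 / 2)) :=
        i1.const_mul _
      have j3 : IntegrableOn (fun y => (2 * t) * (g y * k y)) (closedBall (0 : V) (1 / 2)) :=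
        i3.const_mul _
      have j4 : IntegrableOn (fun y => (t * t) * (g y) ^ 2 + (2 * t) * (g y * k y))
        (closedBall (0 : V) (1 / 2)) := j1.add j3
      simp only [h5]
      rw [integral_add j4 i2, integral_add j1 j3, integral_const_mul, integral_const_mul]
      ring
    rw [h4]
    exact integral_nonneg (fun y => sq_nonneg _)
  have h4 := discrim_le_zero h3
  have h5 : b ^ 2 ≤ (S * T) ^ 2 := by
    have h6 : 0 ≤ c := integral_nonneg (fun y => sq_nonneg _)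
    have h7 : a * c ≤ S ^ 2 * T ^ 2 := mul_le_mul h1 h2 h6 (sq_nonneg _)
    unfold discrim at h4
    nlinarith
  exact abs_le_of_sq_le_sq h5 (mul_nonneg hS hT)

/-- Cauchy-Schwarz with a derivative of `ψ` -/
theorem p1_csψ {ψ g : V → ℝ} (hψ : ContDiff ℝ 1 ψ) {M : ℝ} (hM : 0 ≤ M)
    (hMψ : ∫ y in closedBall (0 : V) (1 / 2), ‖fderiv ℝ ψ y‖ ^ 2 ≤ M ^ 2)
    (hg : ContinuousOn g (closedBall (0 : V) (1 / 2))) {S : ℝ} (hS : 0 ≤ S)
    (h1 : ∫ y in closedBall (0 : V) (1 / 2), (g y) ^ 2 ≤ S ^ 2) (z : V) :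
    |∫ y in closedBall (0 : V) (1 / 2), g y * fderiv ℝ ψ y z| ≤ S * (M * ‖z‖) := by
  refine p1_cs hg (p1_cont hψ z).continuousOn hS (by positivity) h1 ?_
  have hK : IsCompact (closedBall (0 : V) (1 / 2)) := isCompact_closedBall _ _
  have hf : Continuous (fun y => fderiv ℝ ψ y) := hψ.continuous_fderiv (by norm_num)
  calc ∫ y in closedBall (0 : V) (1 / 2), (fderiv ℝ ψ y z) ^ 2 ≤
      ∫ y in closedBall (0 : V) (1 / 2), ‖fderiv ℝ ψ y‖ ^ 2 * ‖z‖ ^ 2 := by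
        refine setIntegral_mono_on
          (((p1_cont hψ z).pow 2).continuousOn.integrableOn_compact hK)
          (((hf.norm.pow 2).mul continuous_const).continuousOn.integrableOn_compact hK)
          measurableSet_closedBall (fun y _ => ?_)
        have h2 := (fderiv ℝ ψ y).le_opNorm z
        rw [Real.norm_eq_abs] at h2
        rw [← sq_abs, ← mul_pow]
        exact pow_le_pow_left₀ (abs_nonneg _) h2 2
    _ = (∫ y in closedBall (0 : V) (1 / 2), ‖fderiv ℝ ψ y‖ ^ 2) * ‖z‖ ^ 2 := by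
        rw [integral_mul_const]
    _ ≤ M ^ 2 * ‖z‖ ^ 2 := mul_le_mul_of_nonneg_right hMψ (sq_nonneg _)
    _ = (M * ‖z‖) ^ 2 := by ring

theorem p1_loc_mono {N₀ : V → ℝ} {R ε ε' Θ : ℝ} {U : Set V} {F : V → V → ℝ}
    (h : Loc N₀ R ε Θ U F) (hε : ε ≤ ε') : Loc N₀ R ε' Θ U F :=
  ⟨h.rp, h.sub, fun y hy u => (h.near y hy u).trans
    (mul_le_mul_of_nonneg_right hε (norm_nonneg _)), h.ob⟩

/-- P1B -/
theorem p1 {N₀ : V → ℝ} (h₀ : Nice N₀) :
    ∃ R : ℝ, 1 ≤ R ∧ ∀ κ > 0, ∃ ε > 0, ∀ Θ, 0 < Θ → Θ ≤ ε → ∀ (U : Set V) (F : V → V → ℝ),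
      Loc N₀ R ε Θ U F → ∀ ψ : V → ℝ, ContDiff ℝ 1 ψ → tsupport ψ ⊆ closedBall 0 (1 / 2) →
      ∀ M : ℝ, 0 ≤ M → ∫ y in closedBall (0 : V) (1 / 2), ‖fderiv ℝ ψ y‖ ^ 2 ≤ M ^ 2 →
      ∀ u, ‖u‖ = 1 →
        |∫ y in closedBall (0 : V) (1 / 2),
            (Real.log (F y u) - (2 / 3) * lc F y) * fderiv ℝ ψ y u| ≤ κ * Θ * M ∧
        |∫ y in closedBall (0 : V) (1 / 2),
            (Real.log (F y u) - (1 / 3) * lc F y) * fderiv ℝ ψ y (cj N₀ u)| ≤ κ * Θ * M := by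
  obtain ⟨Ca, hCa, habs⟩ := p1_abstract h₀
  obtain ⟨R, hR, he2⟩ := e2 h₀
  obtain ⟨ε₁, hε₁, C₁, hC₁, hlin⟩ := p1_lin h₀
  obtain ⟨ε₂, hε₂, C₂, hC₂, hosc⟩ := osc4 h₀
  obtain ⟨c₀, hc₀, hlow⟩ := h₀.toNormV.exists_lower
  have hN := h₀.toNormV
  obtain ⟨C₀, hC₀⟩ : ∃ C₀ : ℝ, C₀ = N₀ (1, 0) + N₀ (0, 1) := ⟨_, rfl⟩
  have hC₀0 : 0 ≤ C₀ := by rw [hC₀]; exact add_nonneg (hN.nonneg _) (hN.nonneg _)
  obtain ⟨S, hS0, hS⟩ : ∃ S : ℝ, 0 ≤ S ∧ S ^ 2 = C₂ :=
    ⟨Real.sqrt C₂, Real.sqrt_nonneg _, Real.sq_sqrt hC₂.le⟩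
  obtain ⟨Cb, hCb⟩ : ∃ Cb : ℝ, Cb = S + 2 * C₁ / c₀ := ⟨_, rfl⟩
  have hCb0 : 0 ≤ Cb := by rw [hCb]; positivity
  obtain ⟨X, hX⟩ : ∃ X : ℝ, X = Ca * ((C₀ + 1) + Cb) := ⟨_, rfl⟩
  have hX0 : 0 ≤ X := by rw [hX]; positivity
  obtain ⟨Y, hY⟩ : ∃ Y : ℝ, Y = Ca * ((C₀ + 1) * (4 * (C₁ / c₀))) + C₁ / c₀ * 2 * (C₀ + 1) :=
    ⟨_, rfl⟩
  have hY0 : 0 ≤ Y := by rw [hY]; positivity
  refine ⟨R, hR, ?_⟩
  intro κ hκ
  obtain ⟨κ₁, hκ₁⟩ : ∃ κ₁ : ℝ, κ₁ = min 1 (κ / (2 * (X + 1))) := ⟨_, rfl⟩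
  have hκ₁0 : 0 < κ₁ := by rw [hκ₁]; exact lt_min one_pos (by positivity)
  have hκ₁1 : κ₁ ≤ 1 := by rw [hκ₁]; exact min_le_left _ _
  have hκ₁X : X * κ₁ ≤ κ / 2 := by
    have h1 : κ₁ ≤ κ / (2 * (X + 1)) := by rw [hκ₁]; exact min_le_right _ _
    rw [le_div_iff₀ (by positivity)] at h1
    nlinarith
  obtain ⟨ε₃, hε₃, he2'⟩ := he2 κ₁ hκ₁0
  obtain ⟨ε, hε⟩ : ∃ ε : ℝ, ε = min (min ε₁ (min ε₂ ε₃)) (min 1 (κ / (2 * (Y + 1)))) := ⟨_, rfl⟩
  have hε0 : 0 < ε := by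
    rw [hε]
    exact lt_min (lt_min hε₁ (lt_min hε₂ hε₃)) (lt_min one_pos (by positivity))
  have hεε₁ : ε ≤ ε₁ := by rw [hε]; exact (min_le_left _ _).trans (min_le_left _ _)
  have hεε₂ : ε ≤ ε₂ := by
    rw [hε]; exact (min_le_left _ _).trans ((min_le_right _ _).trans (min_le_left _ _))
  have hεε₃ : ε ≤ ε₃ := by
    rw [hε]; exact (min_le_left _ _).trans ((min_le_right _ _).trans (min_le_right _ _))
  have hε1 : ε ≤ 1 := by rw [hε]; exact (min_le_right _ _).trans (min_le_left _ _)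
  have hεY : Y * ε ≤ κ / 2 := by
    have h1 : ε ≤ κ / (2 * (Y + 1)) := by
      rw [hε]; exact (min_le_right _ _).trans (min_le_right _ _)
    rw [le_div_iff₀ (by positivity)] at h1
    nlinarith
  refine ⟨ε, hε0, ?_⟩
  intro Θ hΘ hΘε U F hF ψ hψ hsψ M hM hMψ
  have hΘM : 0 ≤ Θ * M := mul_nonneg hΘ.le hM
  -- the domain
  have hQ1 : closedBall (0 : V) (1 / 2) ⊆ closedBall 0 1 := closedBall_subset_closedBall (by norm_num)
  have hQR : closedBall (0 : V) (1 / 2) ⊆ closedBall 0 R :=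
    closedBall_subset_closedBall (by linarith)
  have h1R : closedBall (0 : V) 1 ⊆ closedBall 0 R := closedBall_subset_closedBall hR
  have hQU : closedBall (0 : V) (1 / 2) ⊆ U := hQR.trans hF.sub
  have hHP : HP U F := hF.rp.toHP
  obtain ⟨A, hAc, hAi, hAd⟩ := hw hHP hQU hψ hsψ
  obtain ⟨ho1, ho2, b, hb1, hb2, hb3⟩ := hosc R ε Θ hR hεε₂ hΘ.le U F hF
  have hzero := p1_zero hψ hsψ
  have hlog : ∀ u, u ≠ 0 → ContinuousOn (fun y => Real.log (F y u)) (closedBall (0 : V) 1) := by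
    intro u hu
    exact ((hHP.continuousOn_left u).mono (h1R.trans hF.sub)).log
      (fun y hy => ((hHP.norm y (hF.sub (h1R hy))).pos u hu).ne')
  have hlcc : ContinuousOn (lc F) (closedBall (0 : V) 1) :=
    (lc_continuousOn hHP).mono (h1R.trans hF.sub)
  -- second moments on the small square
  have hmom : ∀ (g : V → ℝ) (a : ℝ), ContinuousOn g (closedBall (0 : V) 1) →
      ∫ y in closedBall (0 : V) 1, (g y - a) ^ 2 ≤ C₂ * Θ ^ 2 → ∀ z,
      |∫ y in closedBall (0 : V) (1 / 2), g y * fderiv ℝ ψ y z| ≤ S * (Θ * M) * ‖z‖ := by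
    intro g a hg h1 z
    have hga : ContinuousOn (fun y => g y - a) (closedBall (0 : V) 1) := hg.sub continuousOn_const
    have h2 : ∫ y in closedBall (0 : V) (1 / 2), (g y - a) ^ 2 ≤ (S * Θ) ^ 2 := by
      rw [mul_pow, hS]
      refine le_trans ?_ h1
      exact setIntegral_mono_set ((hga.pow 2).integrableOn_compact (isCompact_closedBall _ _))
        (Filter.Eventually.of_forall (fun y => sq_nonneg _)) (LE.le.eventuallyLE hQ1)
    have h3 := p1_csψ hψ hM hMψ (hga.mono hQ1) (mul_nonneg hS0 hΘ.le) h2 z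
    have h4 : ∫ y in closedBall (0 : V) (1 / 2), (g y - a) * fderiv ℝ ψ y z =
        ∫ y in closedBall (0 : V) (1 / 2), g y * fderiv ℝ ψ y z := by
      have h5 : ∀ y, (g y - a) * fderiv ℝ ψ y z = g y * fderiv ℝ ψ y z - a * fderiv ℝ ψ y z :=
        fun y => by ring
      simp only [h5]
      rw [integral_sub (p1_int hψ (hg.mono hQ1) z) (p1_int hψ continuousOn_const z),
        integral_const_mul, hzero, mul_zero, sub_zero]
    rw [h4] at h3
    refine h3.trans (le_of_eq (by ring))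
  -- the functional `γ`
  have hlQ : ContinuousOn (lc F) (closedBall (0 : V) (1 / 2)) := hlcc.mono hQ1
  have hγi : Integrable (fun y => lc F y • fderiv ℝ ψ y)
      (volume.restrict (closedBall (0 : V) (1 / 2))) :=
    ContinuousOn.integrableOn_compact (isCompact_closedBall _ _)
      (hlQ.smul (hψ.continuous_fderiv (by norm_num)).continuousOn)
  obtain ⟨γ, hγ⟩ : ∃ γ : V →L[ℝ] ℝ, γ = -∫ y in closedBall (0 : V) (1 / 2),
      lc F y • fderiv ℝ ψ y := ⟨_, rfl⟩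
  have hγz : ∀ z, γ z = -∫ y in closedBall (0 : V) (1 / 2), lc F y * fderiv ℝ ψ y z := by
    intro z
    rw [hγ]
    show -((∫ y in closedBall (0 : V) (1 / 2), lc F y • fderiv ℝ ψ y) z) = _
    rw [ContinuousLinearMap.integral_apply hγi]
    rfl
  obtain ⟨L, hL⟩ : ∃ L : V → V → ℝ, ∀ u z, L u z =
      ∫ y in closedBall (0 : V) (1 / 2), Real.log (F y u) * fderiv ℝ ψ y z :=
    ⟨_, fun _ _ => rfl⟩
  have hAh : ∀ (a : ℝ) u, A (a • u) = |a| • A u := by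
    intro a u
    refine ContinuousLinearMap.ext (fun z => ?_)
    show A (a • u) z = |a| * A u z
    rw [hAi, hAi, ← integral_const_mul]
    refine setIntegral_congr_fun measurableSet_closedBall (fun y hy => ?_)
    show F y (a • u) * fderiv ℝ ψ y z = |a| * (F y u * fderiv ℝ ψ y z)
    rw [(hHP.norm y (hQU hy)).smul]
    ring
  have hLh : ∀ (a : ℝ) u, 0 < a → u ≠ 0 → ∀ z, L (a • u) z = L u z := by
    intro a u ha hu z
    rw [hL, hL]
    have h1 : ∫ y in closedBall (0 : V) (1 / 2), Real.log (F y (a • u)) * fderiv ℝ ψ y z =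
        ∫ y in closedBall (0 : V) (1 / 2), (Real.log a * fderiv ℝ ψ y z +
          Real.log (F y u) * fderiv ℝ ψ y z) := by
      refine setIntegral_congr_fun measurableSet_closedBall (fun y hy => ?_)
      show Real.log (F y (a • u)) * fderiv ℝ ψ y z = Real.log a * fderiv ℝ ψ y z +
          Real.log (F y u) * fderiv ℝ ψ y z
      rw [(hHP.norm y (hQU hy)).smul_nonneg ha.le,
        Real.log_mul ha.ne' ((hHP.norm y (hQU hy)).pos u hu).ne']
      ring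
    rw [h1, integral_add (p1_int hψ continuousOn_const z) (p1_int hψ ((hlog u hu).mono hQ1) z),
      integral_const_mul, hzero, mul_zero, zero_add]
  have hgen0 : ∀ (a : ℝ) v, 0 < a → ‖v‖ = 1 → ∀ z,
      |A (a • v) z / N₀ (a • v) - L (a • v) z| ≤ C₁ / c₀ * (2 * ε) * (Θ * M) * ‖z‖ := by
    intro a v ha hv1 z
    have hv0 : v ≠ 0 := by
      rintro rfl
      simp at hv1
    have hNv : c₀ ≤ N₀ v := by
      have := hlow v
      rwa [hv1, mul_one] at this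
    have hNv0 : 0 < N₀ v := lt_of_lt_of_le hc₀ hNv
    have h1 : A (a • v) z / N₀ (a • v) - L (a • v) z = (A v z - N₀ v * L v z) / N₀ v := by
      rw [hAh, hN.smul, hLh a v ha hv0, abs_of_pos ha]
      show a * A v z / (a * N₀ v) - L v z = _
      rw [mul_div_mul_left _ _ ha.ne', sub_div, mul_div_cancel_left₀ _ hNv0.ne']
    have h2 := hlin R ε Θ hR hεε₁ hΘ.le U F hF ψ hψ hsψ M hM hMψ v z hv1
    rw [← hAi, ← hL] at h2
    rw [h1, abs_div, abs_of_pos hNv0, div_le_iff₀ hNv0]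
    have h3 : C₁ * (ε + Θ) * Θ * M * ‖z‖ ≤ C₁ * (2 * ε) * (Θ * M) * ‖z‖ := by
      have h4 : C₁ * (ε + Θ) ≤ C₁ * (2 * ε) := mul_le_mul_of_nonneg_left (by linarith) hC₁.le
      have h5 := mul_le_mul_of_nonneg_right h4 (mul_nonneg hΘM (norm_nonneg z))
      calc C₁ * (ε + Θ) * Θ * M * ‖z‖ = C₁ * (ε + Θ) * (Θ * M * ‖z‖) := by ring
        _ ≤ C₁ * (2 * ε) * (Θ * M * ‖z‖) := h5
        _ = C₁ * (2 * ε) * (Θ * M) * ‖z‖ := by ring
    refine h2.trans (h3.trans ?_)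
    have h6 : C₁ * (2 * ε) * (Θ * M) * ‖z‖ = C₁ / c₀ * (2 * ε) * (Θ * M) * ‖z‖ * c₀ := by
      field_simp
    rw [h6]
    exact mul_le_mul_of_nonneg_left hNv (by positivity)
  have hgen : ∀ u, u ≠ 0 → ∀ z, |A u z / N₀ u - L u z| ≤ C₁ / c₀ * (2 * ε) * (Θ * M) * ‖z‖ := by
    intro u hu z
    have hn : 0 < ‖u‖ := norm_pos_iff.mpr hu
    have h1 := hgen0 ‖u‖ (‖u‖⁻¹ • u) hn (by
      rw [norm_smul, norm_inv, norm_norm, inv_mul_cancel₀ hn.ne']) z
    rwa [smul_smul, mul_inv_cancel₀ hn.ne', one_smul] at h1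
  have hγb : ∀ z, |γ z| ≤ S * (Θ * M) * ‖z‖ := by
    intro z
    rw [hγz, abs_neg]
    exact hmom (lc F) b hlcc hb3 z
  have hLb : ∀ u, ‖u‖ = 1 → ∀ z, |L u z| ≤ S * (Θ * M) * ‖z‖ := by
    intro u hu z
    have hu0 : u ≠ 0 := by
      rintro rfl
      simp at hu
    obtain ⟨_, a, _, _, ha⟩ := ho1 u hu
    rw [hL]
    exact hmom (fun y => Real.log (F y u)) a (hlog u hu0) ha z
  have hSB : S * (Θ * M) ≤ Cb * (Θ * M) := by
    refine mul_le_mul_of_nonneg_right ?_ hΘM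
    rw [hCb]
    have : 0 ≤ 2 * C₁ / c₀ := by positivity
    linarith
  have hAb : ∀ u, ‖u‖ = 1 → ∀ z, |A u z| ≤ Cb * (Θ * M) * N₀ u * ‖z‖ := by
    intro u hu z
    have hu0 : u ≠ 0 := by
      rintro rfl
      simp at hu
    have hNu : 0 < N₀ u := hN.pos u hu0
    have h1 := hgen u hu0 z
    have h2 := hLb u hu z
    have h3 : |A u z / N₀ u| ≤ Cb * (Θ * M) * ‖z‖ := by
      have h4 : |A u z / N₀ u| ≤ |A u z / N₀ u - L u z| + |L u z| := by
        have := abs_add_le (A u z / N₀ u - L u z) (L u z)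
        rwa [sub_add_cancel] at this
      have h5 : C₁ / c₀ * (2 * ε) * (Θ * M) * ‖z‖ ≤ 2 * C₁ / c₀ * (Θ * M) * ‖z‖ := by
        have h6 : C₁ / c₀ * (2 * ε) ≤ 2 * C₁ / c₀ := by
          have h7 : C₁ / c₀ * (2 * ε) ≤ C₁ / c₀ * (2 * 1) :=
            mul_le_mul_of_nonneg_left (by linarith) (by positivity)
          refine h7.trans (le_of_eq (by ring))
        exact mul_le_mul_of_nonneg_right (mul_le_mul_of_nonneg_right h6 hΘM) (norm_nonneg z)
      have h8 : Cb * (Θ * M) * ‖z‖ = 2 * C₁ / c₀ * (Θ * M) * ‖z‖ + S * (Θ * M) * ‖z‖ := by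
        rw [hCb]
        ring
      rw [h8]
      linarith
    rw [abs_div, abs_of_pos hNu, div_le_iff₀ hNu] at h3
    refine h3.trans (le_of_eq (by ring))
  -- the defect
  obtain ⟨D, hD⟩ : ∃ D : ℝ, D = (C₀ + 1) * (C₁ / c₀ * (4 * ε) + κ₁) * (Θ * M) := ⟨_, rfl⟩
  have hD0 : 0 ≤ D := by rw [hD]; positivity
  have hdef : ∀ u, ‖u‖ = 1 → ∃ w, ‖w - cj N₀ u‖ ≤ κ₁ ∧ dt u w = N₀ u ∧
      |A u w / N₀ u + A w w / N₀ w + γ w| ≤ D := by
    intro u hu
    have hu0 : u ≠ 0 := by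
      rintro rfl
      simp at hu
    have hNu : 0 < N₀ u := hN.pos u hu0
    obtain ⟨w, hw1, hw2, hw3⟩ := he2' Θ hΘ U F (p1_loc_mono hF hεε₃) u hu
    have hw0 : w ≠ 0 := by
      rintro rfl
      have : dt u (0 : V) = 0 := by simp [dt]
      rw [this] at hw2
      exact hNu.ne hw2
    refine ⟨w, hw1, hw2, ?_⟩
    have hwn : ‖w‖ ≤ C₀ + 1 := by
      have h1 : ‖w‖ ≤ ‖w - cj N₀ u‖ + ‖cj N₀ u‖ := by
        have := norm_add_le (w - cj N₀ u) (cj N₀ u)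
        rwa [sub_add_cancel] at this
      have h2 := p1_cj_norm h₀ hu0
      rw [← hC₀] at h2
      linarith
    have c1 : ContinuousOn (fun y => Real.log (F y u)) (closedBall (0 : V) (1 / 2)) :=
      (hlog u hu0).mono hQ1
    have c2 : ContinuousOn (fun y => Real.log (F y w)) (closedBall (0 : V) (1 / 2)) :=
      (hlog w hw0).mono hQ1
    have c3 : ContinuousOn (fun y => Real.log (F y u) + Real.log (F y w) - lc F y -
        Real.log (dt u w)) (closedBall (0 : V) (1 / 2)) :=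
      ((c1.add c2).sub hlQ).sub continuousOn_const
    have h1 := p1_csψ hψ hM hMψ c3 (mul_nonneg hκ₁0.le hΘ.le) hw3 w
    have h2 : ∫ y in closedBall (0 : V) (1 / 2), (Real.log (F y u) + Real.log (F y w) - lc F y -
        Real.log (dt u w)) * fderiv ℝ ψ y w = L u w + L w w + γ w := by
      have h3 : ∀ y, (Real.log (F y u) + Real.log (F y w) - lc F y -
        Real.log (dt u w)) * fderiv ℝ ψ y w = ((Real.log (F y u) * fderiv ℝ ψ y w +
          Real.log (F y w) * fderiv ℝ ψ y w) - lc F y * fderiv ℝ ψ y w) -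
          Real.log (dt u w) * fderiv ℝ ψ y w := fun y => by ring
      simp only [h3]
      have i1 := p1_int hψ c1 w
      have i2 := p1_int hψ c2 w
      have i3 := p1_int hψ hlQ w
      have i4 := p1_int (g := fun _ => Real.log (dt u w)) hψ continuousOn_const w
      have i12 : IntegrableOn (fun y => Real.log (F y u) * fderiv ℝ ψ y w +
          Real.log (F y w) * fderiv ℝ ψ y w) (closedBall (0 : V) (1 / 2)) := i1.add i2
      have i123 : IntegrableOn (fun y => (Real.log (F y u) * fderiv ℝ ψ y w +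
          Real.log (F y w) * fderiv ℝ ψ y w) - lc F y * fderiv ℝ ψ y w)
          (closedBall (0 : V) (1 / 2)) := i12.sub i3
      rw [integral_sub i123 i4, integral_sub i12 i3, integral_add i1 i2, integral_const_mul,
        hzero, mul_zero, sub_zero, ← hL, ← hL, hγz]
      ring
    rw [h2] at h1
    have h3 := hgen u hu0 w
    have h4 := hgen w hw0 w
    have h5 : A u w / N₀ u + A w w / N₀ w + γ w = (A u w / N₀ u - L u w) +
        (A w w / N₀ w - L w w) + (L u w + L w w + γ w) := by ring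
    rw [h5]
    have h6 := abs_add_le ((A u w / N₀ u - L u w) + (A w w / N₀ w - L w w))
      (L u w + L w w + γ w)
    have h7 := abs_add_le (A u w / N₀ u - L u w) (A w w / N₀ w - L w w)
    have h8 : C₁ / c₀ * (2 * ε) * (Θ * M) * ‖w‖ + C₁ / c₀ * (2 * ε) * (Θ * M) * ‖w‖ +
        κ₁ * Θ * (M * ‖w‖) ≤ D := by
      have h9 : C₁ / c₀ * (2 * ε) * (Θ * M) * ‖w‖ + C₁ / c₀ * (2 * ε) * (Θ * M) * ‖w‖ +
        κ₁ * Θ * (M * ‖w‖) = ‖w‖ * ((C₁ / c₀ * (4 * ε) + κ₁) * (Θ * M)) := by ring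
      rw [h9, hD, mul_assoc]
      exact mul_le_mul_of_nonneg_right hwn (by positivity)
    linarith
  have hB0 : 0 ≤ Cb * (Θ * M) := mul_nonneg hCb0 hΘM
  have hmain := habs A γ (Cb * (Θ * M)) D κ₁ hB0 hD0 hκ₁0.le hAc hAh
    (fun u => by
      have h1 := hAd u
      have h2 : (fun u => ∫ y in closedBall (0 : V) (1 / 2), F y u * fderiv ℝ ψ y u) =
        fun u => A u u := funext (fun u => (hAi u u).symm)
      rwa [h2] at h1)
    hAb (fun z => (hγb z).trans (mul_le_mul_of_nonneg_right hSB (norm_nonneg z))) hdef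
  have hfinal : Ca * (D + κ₁ * (Cb * (Θ * M))) + C₁ / c₀ * (2 * ε) * (Θ * M) * (C₀ + 1) ≤
      κ * Θ * M := by
    have h1 : Ca * (D + κ₁ * (Cb * (Θ * M))) + C₁ / c₀ * (2 * ε) * (Θ * M) * (C₀ + 1) =
        (X * κ₁ + Y * ε) * (Θ * M) := by
      rw [hD, hX, hY]
      ring
    rw [h1, mul_assoc κ]
    exact mul_le_mul_of_nonneg_right (by linarith) hΘM
  intro u hu
  have hu0 : u ≠ 0 := by
    rintro rfl
    simp at hu
  obtain ⟨m1, m2⟩ := hmain u hu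
  have hlin2 : ∀ (c : ℝ) z, ∫ y in closedBall (0 : V) (1 / 2),
      (Real.log (F y u) - c * lc F y) * fderiv ℝ ψ y z = L u z + c * γ z := by
    intro c z
    have h3 : ∀ y, (Real.log (F y u) - c * lc F y) * fderiv ℝ ψ y z =
        Real.log (F y u) * fderiv ℝ ψ y z - c * (lc F y * fderiv ℝ ψ y z) := fun y => by ring
    simp only [h3]
    have i1 := p1_int hψ ((hlog u hu0).mono hQ1) z
    have i3 : IntegrableOn (fun y => c * (lc F y * fderiv ℝ ψ y z))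
      (closedBall (0 : V) (1 / 2)) := (p1_int hψ hlQ z).const_mul c
    rw [integral_sub i1 i3, integral_const_mul, ← hL, hγz]
    ring
  constructor
  · rw [hlin2]
    have h1 : L u u + 2 / 3 * γ u = (A u u / N₀ u + 2 / 3 * γ u) - (A u u / N₀ u - L u u) := by
      ring
    rw [h1]
    refine (abs_sub _ _).trans (le_trans (add_le_add m1 (hgen u hu0 u)) (le_trans ?_ hfinal))
    rw [hu, mul_one]
    have h2 : C₁ / c₀ * (2 * ε) * (Θ * M) * 1 ≤ C₁ / c₀ * (2 * ε) * (Θ * M) * (C₀ + 1) :=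
      mul_le_mul_of_nonneg_left (by linarith) (by positivity)
    linarith
  · rw [hlin2]
    have h1 : L u (cj N₀ u) + 1 / 3 * γ (cj N₀ u) = (A u (cj N₀ u) / N₀ u +
        1 / 3 * γ (cj N₀ u)) - (A u (cj N₀ u) / N₀ u - L u (cj N₀ u)) := by
      ring
    rw [h1]
    refine (abs_sub _ _).trans (le_trans (add_le_add m2 (hgen u hu0 (cj N₀ u)))
      (le_trans ?_ hfinal))
    have h3 := p1_cj_norm h₀ hu0
    rw [← hC₀] at h3
    have h2 : C₁ / c₀ * (2 * ε) * (Θ * M) * ‖cj N₀ u‖ ≤ C₁ / c₀ * (2 * ε) * (Θ * M) * (C₀ + 1) :=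
      mul_le_mul_of_nonneg_left (by linarith) (by positivity)
    linarith

end Pool.Agent.L1de93c
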