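import Pool.Agent.Lib_MP_1de93e_cont.ILF
import Pool.Agent.Lib_MP_1de93e_cont.LC
import Pool.Agent.Lib_MP_1de93e_cont.P1

/-!
# PIECE ILM: the improvement lemma

## ILM `il`. Take `R` from `p1`. `osc4` (`C` constant) gives `a_u`, `b` with
`∫_{closedBall 0 (1/2)} (log (F y u) - a_u)² ≤ Θ'²`, `Θ' = √C Θ`, same for `lc F - b`. With `p1` (for a small
`κ`), `WS N₀ (κ' Θ') Θ' (fun u y => log (F y u) - a_u) (lc F - b)` (constants do not matter in `WK`, the
integral of `fderiv ψ y v` is zero). `lc_core` with `2 τ ≤ 1/16`, then `il_final`.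
-/

namespace Pool.Agent.L1de93c

open MeasureTheory Metric Set
open scoped ContDiff

theorem ilm_mono {N₀ : V → ℝ} {R ε ε' Θ : ℝ} {U : Set V} {F : V → V → ℝ}
    (h : Loc N₀ R ε Θ U F) (hε : ε ≤ ε') : Loc N₀ R ε' Θ U F :=
  ⟨h.rp, h.sub, fun y hy u =>
    (h.near y hy u).trans (mul_le_mul_of_nonneg_right hε (norm_nonneg _)), h.ob⟩

theorem ilm_int_zero {ψ : V → ℝ} (hψ : ContDiff ℝ 1 ψ) (hs : tsupport ψ ⊆ closedBall 0 (1 / 2))
    (v : V) : ∫ y in closedBall (0 : V) (1 / 2), fderiv ℝ ψ y v = 0 := by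
  have hcs : HasCompactSupport ψ :=
    (isCompact_closedBall (0 : V) (1 / 2)).of_isClosed_subset (isClosed_tsupport _) hs
  have h1 : ∫ y in closedBall (0 : V) (1 / 2), fderiv ℝ ψ y v = ∫ y, fderiv ℝ ψ y v := by
    refine setIntegral_eq_integral_of_forall_compl_eq_zero fun y hy => ?_
    have hy' : y ∉ tsupport ψ := fun h => hy (hs h)
    rw [fderiv_of_notMem_tsupport ℝ hy']
    rfl
  rw [h1]
  have hcd : Continuous (fun y => fderiv ℝ ψ y v) :=
    (hψ.continuous_fderiv one_ne_zero).clm_apply continuous_const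
  have hcs' : HasCompactSupport (fun y => fderiv ℝ ψ y v) := by
    refine hcs.mono' fun y hy => ?_
    by_contra h
    exact hy (by
      change fderiv ℝ ψ y v = 0
      rw [fderiv_of_notMem_tsupport ℝ h]
      rfl)
  have h2 := integral_mul_fderiv_eq_neg_fderiv_mul_of_integrable (μ := (volume : Measure V))
    (f := fun _ : V => (1 : ℝ)) (g := ψ) (v := v) (by simp)
    (by simpa using hcd.integrable_of_hasCompactSupport hcs')
    (by simpa using hψ.continuous.integrable_of_hasCompactSupport hcs)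
    (fun x _ => differentiableAt_const _) (fun x _ => (hψ.differentiable one_ne_zero) x)
  simpa using h2

theorem ilm_shift {g ψ : V → ℝ} (hg : ContinuousOn g (closedBall 0 (1 / 2)))
    (hψ : ContDiff ℝ 1 ψ) (hs : tsupport ψ ⊆ closedBall 0 (1 / 2)) (v : V) (c : ℝ) :
    ∫ y in closedBall (0 : V) (1 / 2), (g y - c) * fderiv ℝ ψ y v =
      ∫ y in closedBall (0 : V) (1 / 2), g y * fderiv ℝ ψ y v := by
  have hcd : Continuous (fun y => fderiv ℝ ψ y v) :=
    (hψ.continuous_fderiv one_ne_zero).clm_apply continuous_const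
  have hK := isCompact_closedBall (0 : V) (1 / 2)
  have i1 : IntegrableOn (fun y => g y * fderiv ℝ ψ y v) (closedBall (0 : V) (1 / 2)) :=
    (hg.mul hcd.continuousOn).integrableOn_compact hK
  have i2 : IntegrableOn (fun y => c * fderiv ℝ ψ y v) (closedBall (0 : V) (1 / 2)) :=
    (continuousOn_const.mul hcd.continuousOn).integrableOn_compact hK
  simp only [sub_mul]
  rw [integral_sub i1 i2, integral_const_mul, ilm_int_zero hψ hs, mul_zero, sub_zero]

theorem ilm_ob_mono {F : V → V → ℝ} {x : V} {r Θ Θ' : ℝ} (h : OB F x r Θ) (hΘ : Θ ≤ Θ') :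
    OB F x r Θ' :=
  ⟨fun u hu => (h.1 u hu).trans hΘ, h.2.trans hΘ⟩

/-- ILM -/
theorem il {N₀ : V → ℝ} (h₀ : Nice N₀) :
    ∃ C₀ > 0, ∃ R : ℝ, 1 ≤ R ∧ ∀ τ : ℝ, 0 < τ → τ ≤ 1 / 32 → ∀ δ > 0, ∃ ε > 0, ∀ Θ, 0 < Θ → Θ ≤ ε →
      ∀ (U : Set V) (F : V → V → ℝ), Loc N₀ R ε Θ U F →
      ∃ l : V, ‖l‖ ≤ C₀ * Θ ∧ OB (Pull F l) 0 τ ((C₀ * τ ^ 2 + δ) * Θ) := by
  obtain ⟨R, hR, hp1⟩ := p1 h₀
  obtain ⟨ε₁, hε₁, C, hC, hosc⟩ := osc4 h₀
  obtain ⟨CL, hCL, hlc⟩ := lc_core h₀
  set S := Real.sqrt C with hS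
  have hSpos : 0 < S := Real.sqrt_pos.2 hC
  have hS2 : S ^ 2 = C := Real.sq_sqrt hC.le
  obtain ⟨C₂, hC₂, hfin⟩ := il_final h₀ (C₁ := CL * S) (by positivity)
  refine ⟨max (CL * S) C₂, lt_max_of_lt_right hC₂, R, hR, fun τ hτ hτ' δ hδ => ?_⟩
  obtain ⟨κ, hκ, hlc'⟩ := hlc (2 * τ) (by positivity) (by linarith) (δ / C₂ / S) (by positivity)
  obtain ⟨ε₂, hε₂, hp⟩ := hp1 (κ * S) (by positivity)
  obtain ⟨ε₃, hε₃, hf⟩ := hfin τ hτ hτ' (δ / C₂) (by positivity)
  refine ⟨min ε₁ (min ε₂ ε₃), lt_min hε₁ (lt_min hε₂ hε₃), fun Θ hΘ hΘε U F hL => ?_⟩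
  have he1 : min ε₁ (min ε₂ ε₃) ≤ ε₁ := min_le_left _ _
  have he2 : min ε₁ (min ε₂ ε₃) ≤ ε₂ := (min_le_right _ _).trans (min_le_left _ _)
  have he3 : min ε₁ (min ε₂ ε₃) ≤ ε₃ := (min_le_right _ _).trans (min_le_right _ _)
  obtain ⟨ho1, ho2, b, hb1, hb4, hb2⟩ := hosc R _ Θ hR he1 hΘ.le U F hL
  have hex : ∀ u : V, ∃ a : ℝ, ‖u‖ = 1 →
      ∫ y in closedBall (0 : V) 1, (Real.log (F y u) - a) ^ 2 ≤ C * Θ ^ 2 := by
    intro u
    by_cases hu : ‖u‖ = 1
    · obtain ⟨_, a, _, _, h⟩ := ho1 u hu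
      exact ⟨a, fun _ => h⟩
    · exact ⟨0, fun h => absurd h hu⟩
  choose au hau using hex
  have hsubR : closedBall (0 : V) 1 ⊆ closedBall 0 R := closedBall_subset_closedBall hR
  have hsub : closedBall (0 : V) (1 / 2) ⊆ closedBall 0 1 :=
    closedBall_subset_closedBall (by norm_num)
  have hcF : ∀ u, ‖u‖ = 1 → ContinuousOn (fun y => Real.log (F y u)) (closedBall 0 1) :=
    fun u hu => ((hL.rp.toHP.continuousOn_left u).mono (hsubR.trans hL.sub)).log
      (fun y hy => ((ho1 u hu).1 y (hsubR hy)).1.ne')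
  have hcl : ContinuousOn (lc F) (closedBall 0 1) :=
    (lc_continuousOn hL.rp.toHP).mono (hsubR.trans hL.sub)
  have hmono : ∀ g : V → ℝ, ContinuousOn g (closedBall 0 1) →
      ∫ y in closedBall (0 : V) 1, (g y) ^ 2 ≤ C * Θ ^ 2 →
      ∫ y in closedBall (0 : V) (1 / 2), (g y) ^ 2 ≤ (S * Θ) ^ 2 := by
    intro g hg h
    rw [mul_pow, hS2]
    refine le_trans ?_ h
    refine setIntegral_mono_set ?_ (Filter.Eventually.of_forall fun y => sq_nonneg _)
      hsub.eventuallyLE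
    exact (hg.pow 2).integrableOn_compact (isCompact_closedBall _ _)
  have hWS : WS N₀ (κ * (S * Θ)) (S * Θ) (fun u y => Real.log (F y u) - au u)
      (fun y => lc F y - b) := by
    refine ⟨fun u hu => ?_, ?_, fun u hu => ?_, fun u hu => ?_, fun u hu => ?_, ?_⟩
    · exact ((hcF u hu).mono hsub).sub continuousOn_const
    · exact (hcl.mono hsub).sub continuousOn_const
    · intro ψ hψ hs M hM hint
      have hψ1 : ContDiff ℝ 1 ψ := hψ.of_le (by norm_num)
      have h1 := (hp Θ hΘ (hΘε.trans he2) U F (ilm_mono hL he2) ψ hψ1 hs M hM hint u hu).1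
      have h2 := ilm_shift (g := fun y => Real.log (F y u) - (2 / 3) * lc F y)
        (((hcF u hu).mono hsub).sub ((hcl.mono hsub).const_mul _)) hψ1 hs u
        (au u - (2 / 3) * b)
      rw [← h2] at h1
      refine le_trans (le_of_eq ?_) (h1.trans (le_of_eq (by ring)))
      congr 1
      refine integral_congr_ae (Filter.Eventually.of_forall fun y => ?_)
      simp only
      ring
    · intro ψ hψ hs M hM hint
      have hψ1 : ContDiff ℝ 1 ψ := hψ.of_le (by norm_num)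
      have h1 := (hp Θ hΘ (hΘε.trans he2) U F (ilm_mono hL he2) ψ hψ1 hs M hM hint u hu).2
      have h2 := ilm_shift (g := fun y => Real.log (F y u) - (1 / 3) * lc F y)
        (((hcF u hu).mono hsub).sub ((hcl.mono hsub).const_mul _)) hψ1 hs (cj N₀ u)
        (au u - (1 / 3) * b)
      rw [← h2] at h1
      refine le_trans (le_of_eq ?_) (h1.trans (le_of_eq (by ring)))
      congr 1
      refine integral_congr_ae (Filter.Eventually.of_forall fun y => ?_)
      simp only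
      ring
    · exact hmono _ ((hcF u hu).sub continuousOn_const) (hau u hu)
    · exact hmono _ (hcl.sub continuousOn_const) hb2
  obtain ⟨l, hl, ⟨b', hlΓ⟩, hlu⟩ := hlc' (S * Θ) (by positivity) _ _ hWS
  have hbd : (CL * (2 * τ) ^ 2 + δ / C₂ / S) * (S * Θ) =
      (CL * S * (2 * τ) ^ 2 + δ / C₂) * Θ := by
    field_simp
  have hl' : ‖l‖ ≤ CL * S * Θ := hl.trans (le_of_eq (by ring))
  have hfinal := hf R hR Θ hΘ (hΘε.trans he3) U F (ilm_mono hL he3) l hl'
    ⟨b + b', by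
      rw [← hbd]
      refine le_trans (le_of_eq ?_) hlΓ
      congr 1
      refine integral_congr_ae (Filter.Eventually.of_forall fun y => ?_)
      simp only
      congr 1
      ring⟩
    (fun u hu => by
      obtain ⟨c, hc⟩ := hlu u hu
      refine ⟨au u + c, ?_⟩
      rw [← hbd]
      refine le_trans (le_of_eq ?_) hc
      congr 1
      refine integral_congr_ae (Filter.Eventually.of_forall fun y => ?_)
      simp only
      congr 1
      ring)
  refine ⟨-((1 / 3 : ℝ) • l), ?_, ilm_ob_mono hfinal ?_⟩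
  · rw [norm_neg, norm_smul, Real.norm_of_nonneg (by norm_num)]
    have h1 : CL * S * Θ ≤ max (CL * S) C₂ * Θ :=
      mul_le_mul_of_nonneg_right (le_max_left _ _) hΘ.le
    have h2 := norm_nonneg l
    linarith
  · rw [mul_div_cancel₀ δ hC₂.ne']
    refine mul_le_mul_of_nonneg_right ?_ hΘ.le
    have h1 : C₂ * τ ^ 2 ≤ max (CL * S) C₂ * τ ^ 2 :=
      mul_le_mul_of_nonneg_right (le_max_right _ _) (sq_nonneg τ)
    linarith

end Pool.Agent.L1de93c
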