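import Pool.Agent.Lib_MP_1de93e_cont.Bmo
import Pool.Agent.Lib_MP_1de93e_cont.IL
import Pool.Agent.Lib_MP_1de93e_cont.De1

/-!
# PIECE DE2: improvement at one scale

## DE2 `improve`. `N₀ = F x₀`, `c, C` bounds near `x₀`, `C₀, R` from `il`, `K` from `bmo`. Let `s = 1/(2R)`.
Choose `τ ≤ 1/32` so small that with `μ² = τ/(4R)` (so `s τ = 2 μ²`, `μ³ = (τ/(4R))^{3/2}`) we have
`C₀ τ² K ≤ (1/2) μ³` and `μ ≤ 1/4`, then `δ` with `δ K ≤ (1/2) μ³`, and `ε` from `il`.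
Let `x` be near `x₀`, `r` small, `0 < Θ ≤ θ₁`, all `Good F x' r' Θ`. Let `l` be the gauge at `(x, r)`,
`A = Pull (Res F x r) l`. By `bmo`, `OB A y ρ (K Θ)` on all subsquares of `closedBall 0 (1/2)`.
`l` is small: `lc (Res F x r)` oscillates by at most `ω(r) → 0` on `closedBall 0 2`, so by `slope`
(`G = lc (Res F x r)`, `d = l`): `‖l‖ ≤ 40 (2 ω + 8 Θ)`. So for `y ∈ closedBall 0 (1/2)`:
`|A y u - N₀ u| ≤ |F (x + r pj l y) (dpj l y u) - F (..) u| + |F (..) u - F x₀ u| ≤ ε ‖u‖` for `r`, `|x - x₀|`,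
`Θ` small. Let `A' = Res A 0 s`; then `Loc N₀ R ε (K Θ) U' A'` with
`U' = {y | s y ∈ {l y < 1, x + r pj l y ∈ U}}` (`RP.res`, `RP.pull`; `mo_scale`; `lc (Res ..)`).
`il` gives `l'`, `‖l'‖ ≤ C₀ K Θ` and `OB (Pull A' l') 0 τ ((C₀ τ² + δ) K Θ)`. By `res_pull_zero`,
`res_res`, `pull_pull` (the conditions `1 - l y ≠ 0` hold on the relevant squares)
`Pull A' l' = Pull (Res F x (r s)) (s l + l')`, and rescaling by `τ`:
`Pull (Res F x (r s τ)) (τ (s l + l'))` has `OB _ 0 1 (μ³ Θ)`; `s τ = 2 μ²`;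
`‖τ (s l + l')‖ ≤ 1/100`. That is `Good F x (2 μ² r) (μ³ Θ)`.
-/

namespace Pool.Agent.L1de93c

open MeasureTheory Metric Set

private theorem dot_le_small {l y : V} (hl : ‖l‖ ≤ 1 / 100) (hy : ‖y‖ ≤ 1) :
    |dot l y| ≤ 1 / 50 := by
  have h1 := abs_dot_le l y
  have h2 : 2 * ‖l‖ * ‖y‖ ≤ 2 * (1 / 100) * 1 := by
    have := norm_nonneg l
    have := norm_nonneg y
    gcongr
  linarith

private theorem inv_bounds {l y : V} (hl : ‖l‖ ≤ 1 / 100) (hy : ‖y‖ ≤ 1) :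
    0 < (1 - dot l y)⁻¹ ∧ (1 - dot l y)⁻¹ ≤ 50 / 49 := by
  have h1 := dot_le_small hl hy
  have h2 := (abs_le.mp h1).2
  have h3 : (49 / 50 : ℝ) ≤ 1 - dot l y := by linarith
  refine ⟨inv_pos.mpr (by linarith), ?_⟩
  have := inv_anti₀ (by norm_num : (0 : ℝ) < 49 / 50) h3
  norm_num at this ⊢
  exact this

private theorem norm_pj_le {l y : V} (hl : ‖l‖ ≤ 1 / 100) (hy : ‖y‖ ≤ 1) :
    ‖pj l y‖ ≤ 2 * ‖y‖ := by
  obtain ⟨h1, h2⟩ := inv_bounds hl hy
  unfold pj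
  rw [norm_smul, Real.norm_eq_abs, abs_of_pos h1]
  have := norm_nonneg y
  nlinarith

private theorem dpj_near {l y : V} (hl : ‖l‖ ≤ 1 / 100) (hy : ‖y‖ ≤ 1) (u : V) :
    ‖dpj l y u - u‖ ≤ 5 * ‖l‖ * ‖u‖ := by
  obtain ⟨h1, h2⟩ := inv_bounds hl hy
  set q := (1 - dot l y)⁻¹ with hq
  have hne : 1 - dot l y ≠ 0 := by
    intro h0; rw [h0, inv_zero] at hq; rw [hq] at h1; exact lt_irrefl _ h1
  have e : dpj l y u - u = (q * dot l y) • u + (q ^ 2 * dot l u) • y := by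
    rw [dpj_apply, ← hq]
    have : q = 1 + q * dot l y := by
      have : q * (1 - dot l y) = 1 := by rw [hq]; exact inv_mul_cancel₀ hne
      linarith
    have e2 : q • u = u + (q * dot l y) • u := by
      conv_lhs => rw [this]
      rw [add_smul, one_smul]
    rw [e2]; abel
  rw [e]
  have n1 : ‖(q * dot l y) • u‖ ≤ (50 / 49) * (2 * ‖l‖ * 1) * ‖u‖ := by
    rw [norm_smul, Real.norm_eq_abs, abs_mul, abs_of_pos h1]
    have := abs_dot_le l y
    have h3 : |dot l y| ≤ 2 * ‖l‖ * 1 :=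
      this.trans (mul_le_mul_of_nonneg_left hy (by positivity))
    gcongr
  have n2 : ‖(q ^ 2 * dot l u) • y‖ ≤ (50 / 49) ^ 2 * (2 * ‖l‖ * ‖u‖) * 1 := by
    rw [norm_smul, Real.norm_eq_abs, abs_mul, abs_of_pos (pow_pos h1 2)]
    have := abs_dot_le l u
    gcongr
  have hlu : 0 ≤ ‖l‖ * ‖u‖ := by positivity
  calc ‖(q * dot l y) • u + (q ^ 2 * dot l u) • y‖
      ≤ ‖(q * dot l y) • u‖ + ‖(q ^ 2 * dot l u) • y‖ := norm_add_le _ _
    _ ≤ (50 / 49) * (2 * ‖l‖ * 1) * ‖u‖ + (50 / 49) ^ 2 * (2 * ‖l‖ * ‖u‖) * 1 := add_le_add n1 n2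
    _ ≤ 5 * ‖l‖ * ‖u‖ := by nlinarith

private theorem near_unif {U : Set V} {F : V → V → ℝ} (h : HP U F) {x₀ : V} {ρ₀ : ℝ}
    (hρ₀ : 0 < ρ₀) (hs : closedBall x₀ ρ₀ ⊆ U) {ε : ℝ} (hε : 0 < ε) :
    ∃ ρ > 0, ρ ≤ ρ₀ ∧ ∀ z ∈ closedBall x₀ ρ, ∀ u, |F z u - F x₀ u| ≤ ε * ‖u‖ := by
  have hK : IsCompact (closedBall x₀ ρ₀ ×ˢ sphere (0 : V) 1) :=
    (isCompact_closedBall x₀ ρ₀).prod (isCompact_sphere 0 1)
  have hc : ContinuousOn (fun p : V × V => F p.1 p.2) (closedBall x₀ ρ₀ ×ˢ sphere (0 : V) 1) :=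
    h.cont.mono (prod_mono hs (subset_univ _))
  have hu := hK.uniformContinuousOn_of_continuous hc
  rw [Metric.uniformContinuousOn_iff] at hu
  obtain ⟨δ, hδ, hu⟩ := hu ε hε
  refine ⟨min ρ₀ (δ / 2), lt_min hρ₀ (by linarith), min_le_left _ _, fun z hz u => ?_⟩
  have hz1 : z ∈ closedBall x₀ ρ₀ := closedBall_subset_closedBall (min_le_left _ _) hz
  have hz2 : dist z x₀ < δ := by
    have : dist z x₀ ≤ δ / 2 := (mem_closedBall.mp hz).trans (min_le_right _ _)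
    linarith
  have hx : x₀ ∈ closedBall x₀ ρ₀ := mem_closedBall_self hρ₀.le
  have hNz := h.norm z (hs hz1)
  have hN0 := h.norm x₀ (hs hx)
  by_cases hu0 : u = 0
  · rw [hu0, hNz.zero, hN0.zero]; simp
  have hn : 0 < ‖u‖ := norm_pos_iff.mpr hu0
  have hsph : ‖u‖⁻¹ • u ∈ sphere (0 : V) 1 := by
    rw [mem_sphere_zero_iff_norm, norm_smul, norm_inv, norm_norm, inv_mul_cancel₀ hn.ne']
  have h1 := hu (z, ‖u‖⁻¹ • u) ⟨hz1, hsph⟩ (x₀, ‖u‖⁻¹ • u) ⟨hx, hsph⟩ (by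
    rw [Prod.dist_eq]; simp only [dist_self]
    exact max_lt hz2 hδ)
  simp only [Real.dist_eq] at h1
  rw [hNz.smul_nonneg (inv_nonneg.mpr hn.le), hN0.smul_nonneg (inv_nonneg.mpr hn.le),
    ← mul_sub, abs_mul, abs_of_pos (inv_pos.mpr hn)] at h1
  rw [inv_mul_lt_iff₀ hn, mul_comm] at h1
  exact h1.le

private theorem OB.congr {F G : V → V → ℝ} {x : V} {r Θ : ℝ} (hr : 0 ≤ r)
    (e : ∀ y ∈ closedBall x r, ∀ v, F y v = G y v) (h : OB F x r Θ) : OB G x r Θ := by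
  refine ⟨fun u hu => ?_, ?_⟩
  · rw [← mo_congr hr (fun y hy => e y hy u)]
    exact h.1 u hu
  · rw [← mo_congr (h := lc F) hr (fun y hy => ?_)]
    · exact h.2
    · have : F y = G y := funext (e y hy)
      unfold lc; rw [this]

private theorem OB.res {F : V → V → ℝ} {x y : V} {r ρ Θ : ℝ} (h : OB F (x + r • y) (r * ρ) Θ) :
    OB (Res F x r) y ρ Θ := by
  refine ⟨fun u hu => ?_, ?_⟩
  · have := mo_scale (fun z => F z u) x y r ρ
    unfold Res
    rw [this]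
    exact h.1 u hu
  · have := mo_scale (lc F) x y r ρ
    have e : (fun z => lc F (x + r • z)) = lc (Res F x r) := rfl
    rw [e] at this
    rw [this]
    exact h.2

private theorem OB.mono {F : V → V → ℝ} {x : V} {r Θ Θ' : ℝ} (h : OB F x r Θ) (h' : Θ ≤ Θ') :
    OB F x r Θ' := ⟨fun u hu => (h.1 u hu).trans h', h.2.trans h'⟩

/-- The gauge at a point near `x₀` is small. -/
private theorem gauge_small {U : Set V} {F : V → V → ℝ} (h : HP U F) {x : V} {r ω Θ b : ℝ} {l : V}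
    (hr : 0 < r) (hs : closedBall x (2 * r) ⊆ U)
    (hω : ∀ y ∈ closedBall x r, |lc F y - b| ≤ ω) (hl : ‖l‖ ≤ 1 / 100)
    (hO : OB (Pull (Res F x r) l) 0 1 Θ) : ‖l‖ ≤ 40 * (2 * ω + 8 * Θ) := by
  have hG := h.res x hr
  have hsub : closedBall (0 : V) 1 ⊆ {y | x + r • y ∈ U} := by
    intro y hy
    apply hs
    rw [mem_closedBall_zero_iff] at hy
    rw [mem_closedBall, dist_eq_norm, add_sub_cancel_left, norm_smul, Real.norm_eq_abs,
      abs_of_pos hr]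
    nlinarith
  have hGc : ContinuousOn (lc (Res F x r)) (closedBall 0 1) := (lc_continuousOn hG).mono hsub
  have h1 : mo (lc (Res F x r)) 0 1 ≤ 2 * ω := by
    apply mo_le_of_sup (c := b) zero_le_one hGc
    intro y hy
    apply hω
    rw [mem_closedBall_zero_iff] at hy
    rw [mem_closedBall, dist_eq_norm, add_sub_cancel_left, norm_smul, Real.norm_eq_abs,
      abs_of_pos hr]
    nlinarith
  have hP := hG.pull l
  have hsubP : closedBall (0 : V) 1 ⊆ {y | dot l y < 1 ∧ pj l y ∈ {y | x + r • y ∈ U}} := by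
    intro y hy
    rw [mem_closedBall_zero_iff] at hy
    refine ⟨?_, ?_⟩
    · have := (abs_le.mp (dot_le_small hl hy)).2
      linarith
    · apply hs
      rw [mem_closedBall, dist_eq_norm, add_sub_cancel_left, norm_smul, Real.norm_eq_abs,
        abs_of_pos hr]
      have := norm_pj_le hl hy
      have h3 : ‖pj l y‖ ≤ 2 := by linarith
      calc r * ‖pj l y‖ ≤ r * 2 := mul_le_mul_of_nonneg_left h3 hr.le
        _ = 2 * r := mul_comm _ _
  have hPc : ContinuousOn (lc (Pull (Res F x r) l)) (closedBall 0 1) :=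
    (lc_continuousOn hP).mono hsubP
  have h2 : mo (fun y => -3 * Real.log (1 - dot l y) + lc (Res F x r) (pj l y)) 0 (1 / 2) ≤
      8 * Θ := by
    have e : mo (fun y => -3 * Real.log (1 - dot l y) + lc (Res F x r) (pj l y)) 0 (1 / 2) =
        mo (lc (Pull (Res F x r) l)) 0 (1 / 2) := by
      apply mo_congr (by norm_num)
      intro y hy
      have hy1 : y ∈ closedBall (0 : V) 1 := closedBall_subset_closedBall (by norm_num) hy
      have hy2 := hsubP hy1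
      rw [lc_pull hy2.1 (hG.norm _ hy2.2)]
    rw [e]
    have := mo_sub (h := lc (Pull (Res F x r) l)) (x := 0) (x' := 0) (r := 1) (r' := 1 / 2)
      (by norm_num) (closedBall_subset_closedBall (by norm_num)) hPc
    have h3 := hO.2
    calc mo (lc (Pull (Res F x r) l)) 0 (1 / 2)
        ≤ 2 * (1 / (1 / 2)) ^ 2 * mo (lc (Pull (Res F x r) l)) 0 1 := this
      _ ≤ 2 * (1 / (1 / 2)) ^ 2 * Θ := mul_le_mul_of_nonneg_left h3 (by norm_num)
      _ = 8 * Θ := by norm_num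
  exact slope (hl.trans (by norm_num)) hGc h1 h2

/-- DE2 -/
theorem improve {U : Set V} {F : V → V → ℝ} (h : RP U F) {x₀ : V} (hx₀ : x₀ ∈ U)
    (h₀ : Nice (F x₀)) :
    ∃ μ : ℝ, 0 < μ ∧ μ ≤ 1 / 4 ∧ ∃ θ₁ > 0, ∃ r₂ > 0, ∀ x ∈ closedBall x₀ r₂, ∀ r, 0 < r → r ≤ r₂ →
      ∀ Θ, 0 < Θ → Θ ≤ θ₁ →
      (∀ x' ∈ closedBall x (2 * r), ∀ r', 0 < r' → r' ≤ 2 * r → Good F x' r' Θ) →
      Good F x (2 * μ ^ 2 * r) (μ ^ 3 * Θ) := by
  obtain ⟨ρ₀, hρ₀, hs⟩ := Metric.nhds_basis_closedBall.mem_iff.mp (h.isOpen.mem_nhds hx₀)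
  obtain ⟨c, hc, C, hC, hb⟩ := h.toHP.bounds (isCompact_closedBall x₀ ρ₀) hs
  obtain ⟨K, hK, θ₀, hθ₀, hbmo⟩ := bmo hc hC
  obtain ⟨C₀, hC₀, R, hR, hil⟩ := il h₀
  have hR0 : 0 < R := by linarith
  -- the choice of `μ`
  obtain ⟨μ, hμ, hμ1, hμ2⟩ : ∃ μ : ℝ, 0 < μ ∧ μ ≤ 1 / (32 * C₀ * R ^ 2 * K) ∧ μ ≤ 1 / (16 * R) :=
    ⟨min (1 / (32 * C₀ * R ^ 2 * K)) (1 / (16 * R)), lt_min (by positivity) (by positivity),
      min_le_left _ _, min_le_right _ _⟩
  have hμR : 16 * R * μ ≤ 1 := by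
    rw [le_div_iff₀ (by positivity)] at hμ2
    linarith
  have hμK : 32 * C₀ * R ^ 2 * K * μ ≤ 1 := by
    rw [le_div_iff₀ (by positivity)] at hμ1
    linarith
  have hμ16 : μ ≤ 1 / 16 := by
    have h1 := mul_le_mul_of_nonneg_right hR hμ.le
    linarith only [h1, hμR]
  obtain ⟨τ, hτdef⟩ : ∃ τ : ℝ, τ = 4 * R * μ ^ 2 := ⟨_, rfl⟩
  have hτ : 0 < τ := by rw [hτdef]; positivity
  have hτ32 : τ ≤ 1 / 32 := by
    rw [hτdef]
    have : 16 * R * μ * μ ≤ 1 * (1 / 16) :=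
      mul_le_mul hμR hμ16 hμ.le (by norm_num)
    linarith only [this]
  have hδ : 0 < μ ^ 3 / (2 * K) := by positivity
  obtain ⟨ε, hε, hil⟩ := hil τ hτ hτ32 (μ ^ 3 / (2 * K)) hδ
  -- radii
  obtain ⟨ρ₁, hρ₁, hρ₁0, hnear⟩ := near_unif h.toHP hρ₀ hs (half_pos hε)
  obtain ⟨ω, hωdef⟩ : ∃ ω : ℝ, ω = ε / (1600 * C) := ⟨_, rfl⟩
  have hω : 0 < ω := by rw [hωdef]; positivity
  obtain ⟨ρ₂, hρ₂, hlc⟩ : ∃ ρ₂ > 0, ∀ y ∈ closedBall x₀ ρ₂, |lc F y - lc F x₀| ≤ ω := by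
    have hca : ContinuousAt (lc F) x₀ := (lc_continuousOn h.toHP).continuousAt
      (h.isOpen.mem_nhds hx₀)
    rw [Metric.continuousAt_iff] at hca
    obtain ⟨δ, hδ, hca⟩ := hca ω hω
    refine ⟨δ / 2, by linarith, fun y hy => ?_⟩
    have : dist y x₀ < δ := by
      have := mem_closedBall.mp hy
      linarith
    have := hca this
    rw [Real.dist_eq] at this
    exact this.le
  obtain ⟨ρ, hρ, hρ_1, hρ_2⟩ : ∃ ρ > 0, ρ ≤ ρ₁ ∧ ρ ≤ ρ₂ :=
    ⟨min ρ₁ ρ₂, lt_min hρ₁ hρ₂, min_le_left _ _, min_le_right _ _⟩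
  obtain ⟨θ₁, hθ₁, hθ_a, hθ_b, hθ_c, hθ_d⟩ : ∃ θ₁ > 0, θ₁ ≤ θ₀ ∧ K * θ₁ ≤ ε ∧
      C₀ * (K * θ₁) ≤ 1 / 10 ∧ 6400 * C * θ₁ ≤ ε := by
    refine ⟨min θ₀ (min (ε / K) (min (1 / 10 / (C₀ * K)) (ε / (6400 * C)))), ?_, ?_, ?_, ?_, ?_⟩
    · exact lt_min hθ₀ (lt_min (by positivity) (lt_min (by positivity) (by positivity)))
    · exact min_le_left _ _
    · have : min θ₀ (min (ε / K) (min (1 / 10 / (C₀ * K)) (ε / (6400 * C)))) ≤ ε / K :=
        (min_le_right _ _).trans (min_le_left _ _)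
      rw [le_div_iff₀ hK] at this
      linarith
    · have : min θ₀ (min (ε / K) (min (1 / 10 / (C₀ * K)) (ε / (6400 * C)))) ≤
          1 / 10 / (C₀ * K) :=
        (min_le_right _ _).trans ((min_le_right _ _).trans (min_le_left _ _))
      rw [le_div_iff₀ (by positivity)] at this
      linarith only [this]
    · have : min θ₀ (min (ε / K) (min (1 / 10 / (C₀ * K)) (ε / (6400 * C)))) ≤
          ε / (6400 * C) :=
        (min_le_right _ _).trans ((min_le_right _ _).trans (min_le_right _ _))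
      rw [le_div_iff₀ (by positivity)] at this
      linarith
  refine ⟨μ, hμ, hμ16.trans (by norm_num), θ₁, hθ₁, ρ / 6, by positivity, ?_⟩
  intro x hx r hr hr2 Θ hΘ hΘ1 hgood
  -- inclusions
  have hinc : ∀ t, 0 ≤ t → t ≤ 5 → closedBall x (t * r) ⊆ closedBall x₀ ρ := by
    intro t ht ht5
    apply closedBall_subset_closedBall'
    have h1 := mem_closedBall.mp hx
    have h2 : t * r ≤ 5 * (ρ / 6) := by
      calc t * r ≤ 5 * r := mul_le_mul_of_nonneg_right ht5 hr.le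
        _ ≤ 5 * (ρ / 6) := by linarith
    linarith
  have hρU : closedBall x₀ ρ ⊆ U :=
    (closedBall_subset_closedBall (hρ_1.trans hρ₁0)).trans hs
  have hsub5 : closedBall x (5 * r) ⊆ U := (hinc 5 (by norm_num) le_rfl).trans hρU
  have hsub2 : closedBall x (2 * r) ⊆ U := (hinc 2 (by norm_num) (by norm_num)).trans hρU
  have hsub1 : closedBall x r ⊆ closedBall x₀ ρ := by
    have := hinc 1 (by norm_num) (by norm_num)
    rwa [one_mul] at this
  have hb5 : ∀ y ∈ closedBall x (5 * r), ∀ v, c * ‖v‖ ≤ F y v ∧ F y v ≤ C * ‖v‖ := fun y hy =>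
    hb y (closedBall_subset_closedBall (hρ_1.trans hρ₁0) (hinc 5 (by norm_num) le_rfl hy))
  obtain ⟨l, hl, hO⟩ := hgood x (mem_closedBall_self (by positivity)) r hr (by linarith)
  have hbm := hbmo U F x r Θ l h.toHP hr hsub5 hb5 hΘ.le (hΘ1.trans hθ_a) hgood hl hO
  -- the gauge is small
  have hlsm : ‖l‖ ≤ 40 * (2 * ω + 8 * Θ) :=
    gauge_small (b := lc F x₀) h.toHP hr hsub2
      (fun y hy => hlc y (closedBall_subset_closedBall hρ_2 (hsub1 hy))) hl hO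
  have hlC : C * (5 * ‖l‖) ≤ ε / 2 := by
    have h1 : 1600 * C * ω = ε := by rw [hωdef]; field_simp
    have h2 : 6400 * C * Θ ≤ ε :=
      (mul_le_mul_of_nonneg_left hΘ1 (by positivity)).trans hθ_d
    have h3 : C * ‖l‖ ≤ C * (40 * (2 * ω + 8 * Θ)) := mul_le_mul_of_nonneg_left hlsm hC.le
    linarith only [h1, h2, h3]
  -- the rescaled field
  obtain ⟨s, hsdef⟩ : ∃ s : ℝ, s = 1 / (2 * R) := ⟨_, rfl⟩
  have hs0 : 0 < s := by rw [hsdef]; positivity
  have hsR : s * R = 1 / 2 := by rw [hsdef]; field_simp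
  have hs12 : s ≤ 1 / 2 := by
    have h1 := le_mul_of_one_le_right hs0.le hR
    linarith only [h1, hsR]
  have hsτ : s * τ = 2 * μ ^ 2 := by rw [hsdef, hτdef]; field_simp; ring
  have hRP := ((h.res x hr).pull l).res 0 hs0
  have hsy : ∀ y ∈ closedBall (0 : V) R, ‖(0 : V) + s • y‖ ≤ 1 / 2 := by
    intro y hy
    rw [mem_closedBall_zero_iff] at hy
    rw [zero_add, norm_smul, Real.norm_eq_abs, abs_of_pos hs0, ← hsR]
    exact mul_le_mul_of_nonneg_left hy hs0.le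
  have hpjm : ∀ z : V, ‖z‖ ≤ 1 / 2 → x + r • pj l z ∈ closedBall x r := by
    intro z hz
    rw [mem_closedBall, dist_eq_norm, add_sub_cancel_left, norm_smul, Real.norm_eq_abs,
      abs_of_pos hr]
    have := norm_pj_le hl (hz.trans (by norm_num))
    have h3 : ‖pj l z‖ ≤ 1 := by linarith
    calc r * ‖pj l z‖ ≤ r * 1 := mul_le_mul_of_nonneg_left h3 hr.le
      _ = r := mul_one r
  have hloc : Loc (F x₀) R ε (K * Θ)
      {y | (0 : V) + s • y ∈ {y | dot l y < 1 ∧ pj l y ∈ {y | x + r • y ∈ U}}}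
      (Res (Pull (Res F x r) l) 0 s) := by
    refine ⟨hRP, ?_, ?_, ?_⟩
    · intro y hy
      have h1 := hsy y hy
      refine ⟨?_, ?_⟩
      · have := (abs_le.mp (dot_le_small hl (h1.trans (by norm_num)))).2
        linarith
      · exact hρU (hsub1 (hpjm _ h1))
    · intro y hy u
      have h1 := hsy y hy
      set z := (0 : V) + s • y with hz
      have hm := hpjm z h1
      have hmρ := hsub1 hm
      have hN := h.norm _ (hρU hmρ)
      have e : Res (Pull (Res F x r) l) 0 s y u = F (x + r • pj l z) (dpj l z u) := rfl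
      rw [e]
      have a1 : |F (x + r • pj l z) (dpj l z u) - F (x + r • pj l z) u| ≤ ε / 2 * ‖u‖ := by
        have b1 := hN.abs_sub_le (dpj l z u) u
        have b2 := (hb _ (closedBall_subset_closedBall (hρ_1.trans hρ₁0) hmρ)
          (dpj l z u - u)).2
        have b3 := dpj_near hl (h1.trans (by norm_num)) u
        calc _ ≤ F (x + r • pj l z) (dpj l z u - u) := b1
          _ ≤ C * ‖dpj l z u - u‖ := b2
          _ ≤ C * (5 * ‖l‖ * ‖u‖) := mul_le_mul_of_nonneg_left b3 hC.le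
          _ = C * (5 * ‖l‖) * ‖u‖ := by ring
          _ ≤ ε / 2 * ‖u‖ := mul_le_mul_of_nonneg_right hlC (norm_nonneg _)
      have a2 := hnear _ (closedBall_subset_closedBall hρ_1 hmρ) u
      calc _ ≤ |F (x + r • pj l z) (dpj l z u) - F (x + r • pj l z) u| +
            |F (x + r • pj l z) u - F x₀ u| := abs_sub_le _ _ _
        _ ≤ ε / 2 * ‖u‖ + ε / 2 * ‖u‖ := add_le_add a1 a2
        _ = ε * ‖u‖ := by ring
    · intro z t ht hzt
      apply OB.res
      apply hbm _ _ (by positivity)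
      -- inclusion of the scaled squares
      intro w hw
      have hw' : z + s⁻¹ • (w - ((0 : V) + s • z)) ∈ closedBall z t := by
        rw [mem_closedBall, dist_eq_norm, add_sub_cancel_left, norm_smul, norm_inv,
          Real.norm_eq_abs, abs_of_pos hs0]
        rw [mem_closedBall, dist_eq_norm] at hw
        rw [inv_mul_le_iff₀ hs0]
        exact hw
      have h2 := hzt hw'
      have e : z + s⁻¹ • (w - ((0 : V) + s • z)) = s⁻¹ • w := by
        rw [zero_add, smul_sub, smul_smul, inv_mul_cancel₀ hs0.ne', one_smul]; abel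
      rw [e, mem_closedBall_zero_iff, norm_smul, norm_inv, Real.norm_eq_abs, abs_of_pos hs0,
        inv_mul_le_iff₀ hs0, hsR] at h2
      rw [mem_closedBall_zero_iff]
      exact h2
  have hKΘ : K * Θ ≤ ε := (mul_le_mul_of_nonneg_left hΘ1 hK.le).trans hθ_b
  obtain ⟨l', hl', hO'⟩ := hil (K * Θ) (by positivity) hKΘ _ _ hloc
  have hl'10 : ‖l'‖ ≤ 1 / 10 :=
    hl'.trans ((mul_le_mul_of_nonneg_left (mul_le_mul_of_nonneg_left hΘ1 hK.le) hC₀.le).trans hθ_c)
  have hsl : ‖s • l‖ ≤ 1 / 200 := by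
    rw [norm_smul, Real.norm_eq_abs, abs_of_pos hs0]
    exact (mul_le_mul hs12 hl (norm_nonneg l) (by norm_num)).trans (by norm_num)
  have hsum : ‖l' + s • l‖ ≤ 21 / 200 := by
    refine (norm_add_le _ _).trans ?_
    linarith
  -- the composed gauge
  have e1 : Res (Pull (Res F x r) l) 0 s = Pull (Res F x (r * s)) (s • l) := by
    rw [res_pull_zero, res_res, smul_zero, add_zero]
  have e2 : Pull (Res F x (2 * μ ^ 2 * r)) (τ • (l' + s • l)) =
      Res (Pull (Res F x (r * s)) (l' + s • l)) 0 τ := by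
    rw [res_pull_zero, res_res, smul_zero, add_zero]
    have : r * s * τ = 2 * μ ^ 2 * r := by rw [mul_assoc, hsτ]; ring
    rw [this]
  refine ⟨τ • (l' + s • l), ?_, ?_⟩
  · rw [norm_smul, Real.norm_eq_abs, abs_of_pos hτ]
    exact (mul_le_mul hτ32 hsum (norm_nonneg _) (by norm_num)).trans (by norm_num)
  · rw [e2]
    apply OB.res
    rw [smul_zero, add_zero, mul_one]
    have hO2 : OB (Pull (Res F x (r * s)) (l' + s • l)) 0 τ
        ((C₀ * τ ^ 2 + μ ^ 3 / (2 * K)) * (K * Θ)) := by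
      apply OB.congr hτ.le _ hO'
      intro y hy v
      rw [mem_closedBall_zero_iff] at hy
      rw [e1]
      have d1 : |dot l' y| ≤ 1 / 100 := by
        have h1 := abs_dot_le l' y
        have h2 : 2 * ‖l'‖ * ‖y‖ ≤ 2 * (1 / 10) * (1 / 32) := by
          have := norm_nonneg l'
          have := norm_nonneg y
          have := hy.trans hτ32
          gcongr
        linarith
      have d2 : |dot (l' + s • l) y| ≤ 1 / 100 := by
        have h1 := abs_dot_le (l' + s • l) y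
        have h2 : 2 * ‖l' + s • l‖ * ‖y‖ ≤ 2 * (21 / 200) * (1 / 32) := by
          have := norm_nonneg (l' + s • l)
          have := norm_nonneg y
          have := hy.trans hτ32
          gcongr
        linarith
      apply pull_pull
      · have := (abs_le.mp d1).2
        intro h0; linarith
      · have := (abs_le.mp d2).2
        intro h0; linarith
    apply OB.mono hO2
    have k1 : C₀ * τ ^ 2 * K ≤ μ ^ 3 / 2 := by
      rw [hτdef]
      have : 32 * C₀ * R ^ 2 * K * μ * μ ^ 3 ≤ 1 * μ ^ 3 :=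
        mul_le_mul_of_nonneg_right hμK (by positivity)
      linarith only [this]
    have k2 : μ ^ 3 / (2 * K) * K = μ ^ 3 / 2 := by field_simp
    calc (C₀ * τ ^ 2 + μ ^ 3 / (2 * K)) * (K * Θ)
        = (C₀ * τ ^ 2 * K + μ ^ 3 / (2 * K) * K) * Θ := by ring
      _ ≤ (μ ^ 3 / 2 + μ ^ 3 / 2) * Θ := by
          apply mul_le_mul_of_nonneg_right _ hΘ.le
          rw [k2]; linarith
      _ = μ ^ 3 * Θ := by ring

end Pool.Agent.L1de93c
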