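import Pool.Agent.Lib_MP_1de93e_cont.De2

/-!
# PIECE DE3: iteration

## DE3 `decay_good`. Choose `ρ` with `8 ρ ≤ min r₁ r₂`, (`good_init` for `θ₁`: `OB F x r θ₁` is
`Good F x r θ₁` with `l = 0`: `pull_zero`, `mo_scale`). Claim by induction on `k`:
`Good F x r (μ^{3k} θ₁)` for all `x ∈ closedBall x₀ (8 ρ - S_k)` and `0 < r ≤ 2 ρ μ^{2k}`, where
`S_k = ∑_{j<k} 2 ρ μ^{2j} ≤ 4 ρ`. Step: `improve` at `(x, r')` with `r' = r/(2 μ²) ≤ ρ μ^{2k}` when
`r ≤ 2 ρ μ^{2(k+1)}`; scales `≤ 2 r' ≤ 2 ρ μ^{2k}` and centres in `closedBall x (2 r')`.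
For `x ∈ closedBall x₀ (4 ρ)` and `r ≤ 2 ρ` choose `k` with `2 ρ μ^{2(k+1)} < r ≤ 2 ρ μ^{2k}`:
`μ^{3k} θ₁ = θ₁ μ⁻³ (μ^{2(k+1)})^{3/2} ≤ θ₁ μ⁻³ (r/(2ρ))^{3/2}`.
-/

namespace Pool.Agent.L1de93c

open MeasureTheory Metric Set

/-- `Good` is monotone in the bound. -/
theorem Good.mono {F : V → V → ℝ} {x : V} {r Θ Θ' : ℝ} (h : Good F x r Θ) (hle : Θ ≤ Θ') :
    Good F x r Θ' := by
  obtain ⟨l, hl, h1, h2⟩ := h
  exact ⟨l, hl, fun u hu => (h1 u hu).trans hle, h2.trans hle⟩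

/-- The trivial gauge. -/
theorem OB.good {F : V → V → ℝ} {x : V} {r Θ : ℝ} (h : OB F x r Θ) : Good F x r Θ := by
  refine ⟨0, by rw [norm_zero]; norm_num, ?_⟩
  rw [pull_zero]
  obtain ⟨h1, h2⟩ := h
  constructor
  · intro u hu
    have e := mo_scale (fun z => F z u) x 0 r 1
    rw [smul_zero, add_zero, mul_one] at e
    have e' : (fun y => Res F x r y u) = fun z => (fun z => F z u) (x + r • z) := rfl
    rw [e', e]
    exact h1 u hu
  · have e := mo_scale (lc F) x 0 r 1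
    rw [smul_zero, add_zero, mul_one] at e
    have e' : lc (Res F x r) = fun z => lc F (x + r • z) := rfl
    rw [e', e]
    exact h2

/-- DE3 -/
theorem decay_good {U : Set V} {F : V → V → ℝ} (h : RP U F) {x₀ : V} (hx₀ : x₀ ∈ U)
    (h₀ : Nice (F x₀)) :
    ∃ C > 0, ∃ r₀ > 0, closedBall x₀ (2 * r₀) ⊆ U ∧ ∀ x ∈ closedBall x₀ r₀, ∀ r, 0 < r → r ≤ r₀ →
      Good F x r (C * (r * Real.sqrt r)) := by
  obtain ⟨μ, hμ, hμ4, θ₁, hθ₁, r₂, hr₂, himp⟩ := improve h hx₀ h₀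
  obtain ⟨r₁, hr₁, hsub, hOB⟩ := good_init h hx₀ hθ₁
  have hm : 0 < min r₁ r₂ := lt_min hr₁ hr₂
  set ρ : ℝ := min r₁ r₂ / 8 with hρdef
  have hρ : 0 < ρ := by positivity
  have hρ1 : 8 * ρ ≤ r₁ := by
    have := min_le_left r₁ r₂
    rw [hρdef]; linarith
  have hρ2 : 8 * ρ ≤ r₂ := by
    have := min_le_right r₁ r₂
    rw [hρdef]; linarith
  have hμ2 : 0 < μ ^ 2 := by positivity
  have hμ16 : μ ^ 2 ≤ 1 / 16 := by nlinarith
  have key : ∀ k : ℕ, ∀ x ∈ closedBall x₀ (4 * ρ + 4 * ρ * (μ ^ 2) ^ k), ∀ r, 0 < r →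
      r ≤ 2 * ρ * (μ ^ 2) ^ k → Good F x r ((μ ^ 3) ^ k * θ₁) := by
    intro k
    induction k with
    | zero =>
      intro x hx r hr hr2
      rw [pow_zero] at hx hr2
      rw [pow_zero, one_mul]
      rw [mem_closedBall] at hx
      apply OB.good
      apply hOB x _ r hr (by linarith)
      rw [mem_closedBall]
      linarith
    | succ k ih =>
      intro x hx r hr hr2
      have hpk : 0 < (μ ^ 2) ^ k := by positivity
      have hpk1 : (μ ^ 2) ^ k ≤ 1 := pow_le_one₀ hμ2.le (by linarith)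
      have hρk : ρ * (μ ^ 2) ^ k ≤ ρ := by nlinarith
      have hρk0 : 0 < ρ * (μ ^ 2) ^ k := by positivity
      have e1 : (μ ^ 2) ^ (k + 1) = (μ ^ 2) ^ k * μ ^ 2 := pow_succ _ _
      have hs : ρ * ((μ ^ 2) ^ k * μ ^ 2) ≤ ρ * (μ ^ 2) ^ k * (1 / 16) := by
        rw [← mul_assoc]
        exact mul_le_mul_of_nonneg_left hμ16 hρk0.le
      rw [e1] at hx hr2
      rw [mem_closedBall] at hx
      have hx' : dist x x₀ ≤ 4 * ρ + 4 * (ρ * ((μ ^ 2) ^ k * μ ^ 2)) := by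
        calc dist x x₀ ≤ _ := hx
          _ = _ := by ring
      set r' : ℝ := r / (2 * μ ^ 2) with hr'def
      have hr'0 : 0 < r' := by positivity
      have hr'1 : r' ≤ ρ * (μ ^ 2) ^ k := by
        rw [hr'def, div_le_iff₀ (by positivity)]
        calc r ≤ _ := hr2
          _ = _ := by ring
      have hr'2 : 2 * μ ^ 2 * r' = r := by
        rw [hr'def]; field_simp
      have hΘ0 : 0 < (μ ^ 3) ^ k * θ₁ := by positivity
      have hΘ1 : (μ ^ 3) ^ k * θ₁ ≤ θ₁ := by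
        have : (μ ^ 3) ^ k ≤ 1 := pow_le_one₀ (by positivity) (pow_le_one₀ hμ.le (by linarith))
        nlinarith
      have hg := himp x (by rw [mem_closedBall]; linarith) r' hr'0 (by linarith)
        ((μ ^ 3) ^ k * θ₁) hΘ0 hΘ1 (by
          intro x' hx'' r'' hr'' hr''2
          rw [mem_closedBall] at hx''
          apply ih x' _ r'' hr'' (by linarith)
          rw [mem_closedBall]
          have := dist_triangle x' x x₀
          linarith)
      rw [hr'2] at hg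
      have e2 : μ ^ 3 * ((μ ^ 3) ^ k * θ₁) = (μ ^ 3) ^ (k + 1) * θ₁ := by ring
      rw [e2] at hg
      exact hg
  have hsρ : 0 < Real.sqrt (2 * ρ) := Real.sqrt_pos.mpr (by positivity)
  refine ⟨θ₁ / (μ ^ 3 * (2 * ρ * Real.sqrt (2 * ρ))), by positivity, 2 * ρ, by positivity, ?_, ?_⟩
  · refine (closedBall_subset_closedBall ?_).trans hsub
    linarith
  · intro x hx r hr hr2
    rw [mem_closedBall] at hx
    have ht0 : 0 < r / (2 * ρ) := by positivity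
    have ht1 : r / (2 * ρ) ≤ 1 := by rw [div_le_one (by positivity)]; exact hr2
    obtain ⟨k, hk1, hk2⟩ := exists_nat_pow_near_of_lt_one ht0 ht1 hμ2 (by linarith)
    have hk2' : r ≤ 2 * ρ * (μ ^ 2) ^ k := by
      rw [div_le_iff₀ (by positivity)] at hk2
      linarith
    have hg := key k x (by
      rw [mem_closedBall]
      have : 0 < 4 * ρ * (μ ^ 2) ^ k := by positivity
      linarith) r hr hk2'
    refine hg.mono ?_
    set t : ℝ := r / (2 * ρ) with htdef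
    have hrt : r = 2 * ρ * t := by rw [htdef]; field_simp
    have hst : μ ^ (k + 1) ≤ Real.sqrt t := by
      apply Real.le_sqrt_of_sq_le
      calc (μ ^ (k + 1)) ^ 2 = (μ ^ 2) ^ (k + 1) := by ring
        _ ≤ t := hk1.le
    have htt : (μ ^ 3) ^ (k + 1) ≤ t * Real.sqrt t := by
      calc (μ ^ 3) ^ (k + 1) = (μ ^ 2) ^ (k + 1) * μ ^ (k + 1) := by ring
        _ ≤ t * Real.sqrt t := mul_le_mul hk1.le hst (by positivity) ht0.le
    have e3 : r * Real.sqrt r = (2 * ρ * Real.sqrt (2 * ρ)) * (t * Real.sqrt t) := by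
      rw [hrt, Real.sqrt_mul (by positivity)]
      ring
    rw [e3, div_mul_eq_mul_div, le_div_iff₀ (by positivity)]
    have h5 : 0 < 2 * ρ * Real.sqrt (2 * ρ) := by positivity
    calc (μ ^ 3) ^ k * θ₁ * (μ ^ 3 * (2 * ρ * Real.sqrt (2 * ρ)))
        = θ₁ * (2 * ρ * Real.sqrt (2 * ρ)) * (μ ^ 3) ^ (k + 1) := by ring
      _ ≤ θ₁ * (2 * ρ * Real.sqrt (2 * ρ)) * (t * Real.sqrt t) :=
          mul_le_mul_of_nonneg_left htt (by positivity)
      _ = _ := by ring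

end Pool.Agent.L1de93c
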