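import Pool.Agent.Lib_MP_1de93e_cont.De3

/-!
# PIECE DE4: the gauges are small

## DE4 `decay_slope`. For `x` near `x₀`, `r ≤ r₀` choose `m` with `2^m r ∈ (r₀/2, r₀]`, gauges `l_j` at
`(x, 2^{-j} 2^m r)`, `j = 0..m`, with `Θ_j = C (2^{-j} r₀)^{3/2}`; `gauge_half`:
`‖l_{j+1} - (1/2) l_j‖ ≤ K Θ_j`; so `2^m ‖l_m‖ ≤ ‖l_0‖ + 2 K ∑ 2^j Θ_j ≤ C`. Hence `‖l_m‖ ≤ C r`.
-/

namespace Pool.Agent.L1de93c

open MeasureTheory Metric Set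

private theorem DE4_mono {F : V → V → ℝ} {x : V} {r Θ Θ' : ℝ} (h : OB F x r Θ) (hΘ : Θ ≤ Θ') :
    OB F x r Θ' :=
  ⟨fun u hu => (h.1 u hu).trans hΘ, h.2.trans hΘ⟩

private theorem DE4_sqrt {t : ℝ} (ht : 0 ≤ t) : Real.sqrt (t / 2) ≤ 3 / 4 * Real.sqrt t := by
  have h1 : Real.sqrt (t / 2) ≤ Real.sqrt ((3 / 4) ^ 2 * t) := Real.sqrt_le_sqrt (by linarith)
  rwa [Real.sqrt_mul (by norm_num), Real.sqrt_sq (by norm_num)] at h1

private theorem DE4_chain {F : V → V → ℝ} {x : V} {C K R : ℝ} (hC : 0 < C)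
    (hK : 0 < K) (hKg : ∀ (r Θ : ℝ) (l l₁ : V), 0 < r → r ≤ R → ‖l‖ ≤ 1 / 100 → ‖l₁‖ ≤ 1 / 100 →
      OB (Pull (Res F x r) l) 0 1 Θ → OB (Pull (Res F x (r / 2)) l₁) 0 1 Θ →
      ‖l₁ - (1 / 2 : ℝ) • l‖ ≤ K * Θ)
    (hg : ∀ r, 0 < r → r ≤ R → Good F x r (C * (r * Real.sqrt r))) {ρ : ℝ} (hρ : 0 < ρ)
    (hρR : ρ ≤ R) (n : ℕ) :
    ∃ l : V, ‖l‖ ≤ 1 / 100 ∧
      OB (Pull (Res F x (ρ / 2 ^ n)) l) 0 1 (C * (ρ / 2 ^ n * Real.sqrt (ρ / 2 ^ n))) ∧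
      2 ^ n * ‖l‖ + 8 * K * C * ρ * Real.sqrt (ρ / 2 ^ n) ≤
        1 / 100 + 8 * K * C * ρ * Real.sqrt ρ := by
  induction n with
  | zero =>
    obtain ⟨l, hl, hob⟩ := hg ρ hρ hρR
    refine ⟨l, hl, ?_, ?_⟩
    · rw [pow_zero, div_one]
      exact hob
    · rw [pow_zero, div_one, one_mul]
      linarith
  | succ n ih =>
    obtain ⟨l, hl, hob, hin⟩ := ih
    have h2n : (0 : ℝ) < 2 ^ n := by positivity
    have hρn : 0 < ρ / 2 ^ n := by positivity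
    have hle : ρ / 2 ^ n ≤ R := by
      have h1 : (1 : ℝ) ≤ 2 ^ n := one_le_pow₀ (by norm_num)
      exact (div_le_self hρ.le h1).trans hρR
    have he : ρ / 2 ^ (n + 1) = ρ / 2 ^ n / 2 := by
      rw [pow_succ, div_div]
    have hpos : 0 < ρ / 2 ^ (n + 1) := by positivity
    have hle' : ρ / 2 ^ (n + 1) ≤ ρ / 2 ^ n := by
      rw [he]
      linarith
    obtain ⟨l', hl', hob'⟩ := hg (ρ / 2 ^ (n + 1)) hpos (hle'.trans hle)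
    refine ⟨l', hl', hob', ?_⟩
    have hs := DE4_sqrt hρn.le
    rw [← he] at hs
    have hsq : 0 ≤ Real.sqrt (ρ / 2 ^ n) := Real.sqrt_nonneg _
    have hmono : C * (ρ / 2 ^ (n + 1) * Real.sqrt (ρ / 2 ^ (n + 1))) ≤
        C * (ρ / 2 ^ n * Real.sqrt (ρ / 2 ^ n)) := by
      refine mul_le_mul_of_nonneg_left ?_ hC.le
      exact mul_le_mul hle' (Real.sqrt_le_sqrt hle') (Real.sqrt_nonneg _) hρn.le
    have h3 := hKg (ρ / 2 ^ n) (C * (ρ / 2 ^ n * Real.sqrt (ρ / 2 ^ n))) l l' hρn hle hl hl' hob (by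
      rw [← he]
      exact DE4_mono hob' hmono)
    have h4 : ‖l'‖ ≤ 1 / 2 * ‖l‖ + K * (C * (ρ / 2 ^ n * Real.sqrt (ρ / 2 ^ n))) := by
      have h5 : l' = (1 / 2 : ℝ) • l + (l' - (1 / 2 : ℝ) • l) := by abel
      calc ‖l'‖ = ‖(1 / 2 : ℝ) • l + (l' - (1 / 2 : ℝ) • l)‖ := by rw [← h5]
        _ ≤ ‖(1 / 2 : ℝ) • l‖ + ‖l' - (1 / 2 : ℝ) • l‖ := norm_add_le _ _
        _ ≤ _ := by
          rw [norm_smul, Real.norm_of_nonneg (by norm_num : (0 : ℝ) ≤ 1 / 2)]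
          linarith
    have h6 : 2 ^ (n + 1) * ‖l'‖ ≤ 2 ^ n * ‖l‖ + 2 * K * C * ρ * Real.sqrt (ρ / 2 ^ n) := by
      have h7 := mul_le_mul_of_nonneg_left h4 (by positivity : (0 : ℝ) ≤ 2 ^ (n + 1))
      have h8 : (2 : ℝ) ^ (n + 1) * (1 / 2 * ‖l‖ + K * (C * (ρ / 2 ^ n * Real.sqrt (ρ / 2 ^ n)))) =
          2 ^ n * ‖l‖ + 2 * K * C * ρ * Real.sqrt (ρ / 2 ^ n) := by
        have h9 : (2 : ℝ) ^ (n + 1) * (ρ / 2 ^ n) = 2 * ρ := by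
          rw [pow_succ]
          field_simp
        calc (2 : ℝ) ^ (n + 1) * (1 / 2 * ‖l‖ + K * (C * (ρ / 2 ^ n * Real.sqrt (ρ / 2 ^ n)))) =
            2 ^ n * ‖l‖ + K * C * ((2 : ℝ) ^ (n + 1) * (ρ / 2 ^ n)) * Real.sqrt (ρ / 2 ^ n) := by
              rw [pow_succ]
              ring
          _ = _ := by
              rw [h9]
              ring
      rwa [h8] at h7
    have hKC : 0 ≤ 8 * K * C * ρ := by positivity
    have h10 : 8 * K * C * ρ * Real.sqrt (ρ / 2 ^ (n + 1)) ≤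
        8 * K * C * ρ * (3 / 4 * Real.sqrt (ρ / 2 ^ n)) := mul_le_mul_of_nonneg_left hs hKC
    have h11 : 2 * K * C * ρ * Real.sqrt (ρ / 2 ^ n) + 8 * K * C * ρ *
        (3 / 4 * Real.sqrt (ρ / 2 ^ n)) = 8 * K * C * ρ * Real.sqrt (ρ / 2 ^ n) := by ring
    linarith

/-- DE4 -/
theorem decay_slope {U : Set V} {F : V → V → ℝ} (h : RP U F) {x₀ : V} (hx₀ : x₀ ∈ U)
    (h₀ : Nice (F x₀)) :
    ∃ C > 0, ∃ r₀ > 0, closedBall x₀ (2 * r₀) ⊆ U ∧ ∀ x ∈ closedBall x₀ r₀, ∀ r, 0 < r → r ≤ r₀ →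
      ∃ l : V, ‖l‖ ≤ 1 / 100 ∧ ‖l‖ ≤ C * r ∧ OB (Pull (Res F x r) l) 0 1 (C * (r * Real.sqrt r)) := by
  obtain ⟨C, hC, R, hR, hsub, hg⟩ := decay_good h hx₀ h₀
  obtain ⟨K, hK, hKg⟩ := gauge_half
  have hR2 : 0 < R / 2 := by positivity
  refine ⟨C + (1 / 50 / (R / 2) + 8 * K * C * Real.sqrt (R / 2)), by positivity, R / 2, hR2, ?_, ?_⟩
  · exact (closedBall_subset_closedBall (by linarith)).trans hsub
  intro x hx r hr hrR
  have hx' : x ∈ closedBall x₀ R := closedBall_subset_closedBall (by linarith) hx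
  have hKg' : ∀ (r Θ : ℝ) (l l₁ : V), 0 < r → r ≤ R / 2 → ‖l‖ ≤ 1 / 100 → ‖l₁‖ ≤ 1 / 100 →
      OB (Pull (Res F x r) l) 0 1 Θ → OB (Pull (Res F x (r / 2)) l₁) 0 1 Θ →
      ‖l₁ - (1 / 2 : ℝ) • l‖ ≤ K * Θ := by
    intro r Θ l l₁ hr hrR hl hl₁ h1 h2
    refine hKg U F x r Θ l l₁ h.toHP hr ?_ hl hl₁ h1 h2
    refine Subset.trans ?_ hsub
    refine closedBall_subset_closedBall' ?_
    have := mem_closedBall.mp hx
    linarith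
  have hg' : ∀ r, 0 < r → r ≤ R / 2 → Good F x r (C * (r * Real.sqrt r)) :=
    fun r hr hrR => hg x hx' r hr (by linarith)
  obtain ⟨n, hn1, hn2⟩ := exists_nat_pow_near (x := R / 2 / r) (y := 2)
    ((one_le_div hr).mpr hrR) (by norm_num)
  rw [le_div_iff₀ hr] at hn1
  rw [div_lt_iff₀ hr, pow_succ] at hn2
  have hρ : 0 < 2 ^ n * r := by positivity
  obtain ⟨l, hl, hob, hin⟩ := DE4_chain hC hK hKg' hg' hρ hn1 n
  have h2n : (0 : ℝ) < 2 ^ n := by positivity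
  have he : 2 ^ n * r / 2 ^ n = r := by field_simp
  rw [he] at hob hin
  refine ⟨l, hl, ?_, DE4_mono hob ?_⟩
  · have h1 : 2 ^ n * ‖l‖ ≤ 1 / 100 + 8 * K * C * (2 ^ n * r) * Real.sqrt (R / 2) := by
      have h2 : 8 * K * C * (2 ^ n * r) * Real.sqrt (2 ^ n * r) ≤
          8 * K * C * (2 ^ n * r) * Real.sqrt (R / 2) :=
        mul_le_mul_of_nonneg_left (Real.sqrt_le_sqrt hn1) (by positivity)
      have h3 : 0 ≤ 8 * K * C * (2 ^ n * r) * Real.sqrt r := by positivity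
      linarith
    have h2 : 1 / 100 ≤ 1 / 50 / (R / 2) * (2 ^ n * r) := by
      rw [div_mul_eq_mul_div, le_div_iff₀ hR2]
      linarith
    have h3 : 2 ^ n * ‖l‖ ≤ 2 ^ n * ((1 / 50 / (R / 2) + 8 * K * C * Real.sqrt (R / 2)) * r) := by
      have h4 : 2 ^ n * ((1 / 50 / (R / 2) + 8 * K * C * Real.sqrt (R / 2)) * r) =
        1 / 50 / (R / 2) * (2 ^ n * r) + 8 * K * C * (2 ^ n * r) * Real.sqrt (R / 2) := by ring
      rw [h4]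
      linarith
    have h5 := le_of_mul_le_mul_left h3 h2n
    have h6 : 0 ≤ C * r := by positivity
    linarith
  · refine mul_le_mul_of_nonneg_right ?_ (by positivity)
    have : 0 ≤ 1 / 50 / (R / 2) + 8 * K * C * Real.sqrt (R / 2) := by positivity
    linarith

end Pool.Agent.L1de93c
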