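import Pool.Agent.Lib_MP_1de93e_cont.Base

/-!
# PIECE HAM: the first variation identity (Hamel's condition)

Let `H` be `C¹` in the base point, `x ∈ U`, `u_t = u + t • z`, `t₁ < t₂` (the case `t₁ = t₂` is
trivial and `t₁ > t₂` follows by exchanging the roles). Let `h > 0` be small (all points used lie in
`U`, for `|ε| ≤ h`). By the triangle inequality for `x - h u_t`, `x + ε z`, `x + h u_t`, integrated
over `t ∈ [t₁, t₂]`:
`∫ DD (x - h u_t) (x + h u_t) dt ≤ K₋ ε + K₊ ε`, where (homogeneity and evenness of the norms,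
`x + h u_t - (x + ε z) = h u_{t - ε/h}`, `x + ε z - (x - h u_t) = h u_{t + ε/h}`, and the
substitutions `τ = t ∓ ε/h`)
`K₊ ε = ∫_{t₁ - ε/h}^{t₂ - ε/h} ∫₀¹ h H (x + ε z + s h u_τ) u_τ ds dτ`,
`K₋ ε = ∫_{t₁ + ε/h}^{t₂ + ε/h} ∫₀¹ h H (x + ε z - s h u_τ) u_τ ds dτ`,
with equality for `ε = 0` (the segment `[x - h u_t, x + h u_t]` is cut at `x`). So `K₋ + K₊` has a
minimum at `ε = 0` and its derivative there vanishes:
`0 = - ∫₀¹ H (x + s h u_{t₂}) u_{t₂} ds + ∫₀¹ H (x + s h u_{t₁}) u_{t₁} ds
     + ∫₀¹ H (x - s h u_{t₂}) u_{t₂} ds - ∫₀¹ H (x - s h u_{t₁}) u_{t₁} ds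
     + h ∫_{t₁}^{t₂} ∫₀¹ (H' (x + s h u_τ) u_τ z + H' (x - s h u_τ) u_τ z) ds dτ`.
Divide by `h` and let `h → 0`: `(H (x + s h v) v - H (x - s h v) v) / h → 2 s H' x v v` uniformly in
`s ∈ [0,1]`, so the first two lines tend to `- H' x u_{t₂} u_{t₂} + H' x u_{t₁} u_{t₁}` and the last
one to `2 ∫_{t₁}^{t₂} H' x u_τ z dτ`.
-/

namespace Pool.Agent.L1de93c

open MeasureTheory Metric Set Filter Topology

/-- Clamping to the square `closedBall x r`. -/
def hamCl (x : V) (r : ℝ) (y : V) : V :=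
  (max (x.1 - r) (min y.1 (x.1 + r)), max (x.2 - r) (min y.2 (x.2 + r)))

theorem hamCl_continuous (x : V) (r : ℝ) : Continuous (hamCl x r) := by
  unfold hamCl; fun_prop

theorem hamCl_mem (x : V) {r : ℝ} (hr : 0 ≤ r) (y : V) : hamCl x r y ∈ closedBall x r := by
  rw [mem_closedBall, dist_eq_norm, Prod.norm_def, sup_le_iff]
  constructor
  · rw [Real.norm_eq_abs, abs_le]
    simp only [hamCl, Prod.fst_sub]
    constructor
    · have := le_max_left (x.1 - r) (min y.1 (x.1 + r)); linarith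
    · have : max (x.1 - r) (min y.1 (x.1 + r)) ≤ x.1 + r :=
        max_le (by linarith) (min_le_right _ _)
      linarith
  · rw [Real.norm_eq_abs, abs_le]
    simp only [hamCl, Prod.snd_sub]
    constructor
    · have := le_max_left (x.2 - r) (min y.2 (x.2 + r)); linarith
    · have : max (x.2 - r) (min y.2 (x.2 + r)) ≤ x.2 + r :=
        max_le (by linarith) (min_le_right _ _)
      linarith

theorem hamCl_eq {x : V} {r : ℝ} {y : V} (hy : y ∈ closedBall x r) : hamCl x r y = y := by
  rw [mem_closedBall, dist_eq_norm, Prod.norm_def, sup_le_iff] at hy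
  obtain ⟨h1, h2⟩ := hy
  rw [Real.norm_eq_abs, abs_le] at h1 h2
  simp only [Prod.fst_sub, Prod.snd_sub] at h1 h2
  ext
  · simp only [hamCl]
    rw [min_eq_left (by linarith), max_eq_right (by linarith)]
  · simp only [hamCl]
    rw [min_eq_left (by linarith), max_eq_right (by linarith)]

/-- A globally continuous version of `H` near `x`. -/
theorem ham_extend {U : Set V} {H : V → V → ℝ} {H' : V → V → V →L[ℝ] ℝ} (h : HPC U H H') {x : V}
    {r : ℝ} (hr : 0 < r) (hsub : closedBall x r ⊆ U) :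
    ∃ (K : V → V → ℝ) (K' : V → V → V →L[ℝ] ℝ),
      Continuous (fun p : V × V => K p.1 p.2) ∧ Continuous (fun p : V × V => K' p.1 p.2) ∧
      (∀ y ∈ closedBall x r, K y = H y ∧ K' y = H' y) ∧
      (∀ y (a : ℝ) v, K y (a • v) = |a| * K y v) := by
  refine ⟨fun y v => H (hamCl x r y) v, fun y v => H' (hamCl x r y) v, ?_, ?_, ?_, ?_⟩
  · have h1 : Continuous (fun p : V × V => ((hamCl x r p.1, p.2) : V × V)) :=
      ((hamCl_continuous x r).comp continuous_fst).prodMk continuous_snd
    exact h.cont.comp_continuous h1 (fun p => ⟨hsub (hamCl_mem x hr.le p.1), mem_univ _⟩)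
  · have h1 : Continuous (fun p : V × V => ((hamCl x r p.1, p.2) : V × V)) :=
      ((hamCl_continuous x r).comp continuous_fst).prodMk continuous_snd
    exact h.contD.comp_continuous h1 (fun p => ⟨hsub (hamCl_mem x hr.le p.1), mem_univ _⟩)
  · intro y hy
    simp only [hamCl_eq hy, and_self]
  · intro y a v
    exact (h.norm _ (hsub (hamCl_mem x hr.le y))).smul a v

/-- Leibniz rule with moving limits. -/
theorem ham_leib (G : ℝ → ℝ → ℝ) (G' : ℝ → ℝ) (hG : Continuous (fun p : ℝ × ℝ => G p.1 p.2))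
    (hG' : Continuous G') (a b c : ℝ) (hc : |c| ≤ 1) (hab : a ≤ b)
    (hd : ∀ η > 0, ∀ᶠ κ in 𝓝 (0:ℝ), ∀ τ ∈ Icc (a - 1) (b + 1),
      |G τ κ - G τ 0 - κ * G' τ| ≤ η * |κ|) :
    HasDerivAt (fun κ => ∫ τ in (a + c * κ)..(b + c * κ), G τ κ)
      (c * (G b 0 - G a 0) + ∫ τ in a..b, G' τ) 0 := by
  have hG0 : Continuous (fun τ => G τ 0) :=
    hG.comp (continuous_id.prodMk continuous_const)
  have hGk : ∀ κ, Continuous (fun τ => G τ κ) := fun κ =>
    hG.comp (continuous_id.prodMk continuous_const)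
  -- decomposition
  have key : (fun κ => ∫ τ in (a + c * κ)..(b + c * κ), G τ κ) = fun κ =>
      (∫ τ in (a + c * κ)..(b + c * κ), (G τ κ - G τ 0 - κ * G' τ)) +
      ((∫ τ in (0:ℝ)..(b + c * κ), G τ 0) - ∫ τ in (0:ℝ)..(a + c * κ), G τ 0) +
      κ * ((∫ τ in (0:ℝ)..(b + c * κ), G' τ) - ∫ τ in (0:ℝ)..(a + c * κ), G' τ) := by
    funext κ
    rw [intervalIntegral.integral_interval_sub_left (hG0.intervalIntegrable _ _)
      (hG0.intervalIntegrable _ _), intervalIntegral.integral_interval_sub_left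
      (hG'.intervalIntegrable _ _) (hG'.intervalIntegrable _ _),
      ← intervalIntegral.integral_const_mul, ← intervalIntegral.integral_add,
      ← intervalIntegral.integral_add]
    · congr 1
      funext τ
      ring
    · exact Continuous.intervalIntegrable (((hGk κ).sub hG0).sub (continuous_const.mul hG') |>.add hG0) _ _
    · exact Continuous.intervalIntegrable (continuous_const.mul hG') _ _
    · exact Continuous.intervalIntegrable (((hGk κ).sub hG0).sub (continuous_const.mul hG')) _ _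
    · exact hG0.intervalIntegrable _ _
  have hlin : ∀ d : ℝ, HasDerivAt (fun κ : ℝ => d + c * κ) c 0 := by
    intro d
    simpa using ((hasDerivAt_id (0:ℝ)).const_mul c).const_add d
  have hF : ∀ (f : ℝ → ℝ), Continuous f → ∀ d : ℝ,
      HasDerivAt (fun κ => ∫ τ in (0:ℝ)..(d + c * κ), f τ) (f d * c) 0 := by
    intro f hf d
    have h1 : HasDerivAt (fun y => ∫ τ in (0:ℝ)..y, f τ) (f d) (d + c * 0) := by
      have h2 := intervalIntegral.integral_hasDerivAt_right (hf.intervalIntegrable 0 d)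
        (hf.stronglyMeasurableAtFilter _ _) hf.continuousAt
      simpa using h2
    exact h1.comp (0:ℝ) (hlin d)
  have h1 : HasDerivAt (fun κ => ∫ τ in (a + c * κ)..(b + c * κ), (G τ κ - G τ 0 - κ * G' τ))
      0 0 := by
    rw [hasDerivAt_iff_isLittleO, Asymptotics.isLittleO_iff]
    intro η hη
    have hη' : 0 < η / (b - a + 1) := div_pos hη (by linarith)
    have hsmall : ∀ᶠ κ in 𝓝 (0:ℝ), |κ| < 1 := by
      have : Tendsto (fun κ : ℝ => |κ|) (𝓝 0) (𝓝 |0|) := continuous_abs.tendsto 0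
      rw [abs_zero] at this
      exact this.eventually (gt_mem_nhds one_pos)
    filter_upwards [hd _ hη', hsmall] with κ hκ hκ1
    have hck : |c * κ| ≤ 1 := by
      rw [abs_mul]
      have := mul_le_mul hc hκ1.le (abs_nonneg _) zero_le_one
      linarith
    rw [abs_le] at hck
    have e0 : (∫ τ in (a + c * 0)..(b + c * 0), (G τ 0 - G τ 0 - 0 * G' τ)) = 0 := by
      simp
    rw [e0]
    simp only [smul_zero, sub_zero]
    have h2 : ‖∫ τ in (a + c * κ)..(b + c * κ), (G τ κ - G τ 0 - κ * G' τ)‖ ≤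
        η / (b - a + 1) * |κ| * |b + c * κ - (a + c * κ)| := by
      apply intervalIntegral.norm_integral_le_of_norm_le_const
      intro τ hτ
      rw [uIoc_of_le (by linarith)] at hτ
      rw [Real.norm_eq_abs]
      exact hκ τ ⟨by linarith [hτ.1, hck.1], by linarith [hτ.2, hck.2]⟩
    refine h2.trans ?_
    rw [show b + c * κ - (a + c * κ) = b - a by ring, abs_of_nonneg (by linarith : 0 ≤ b - a),
      Real.norm_eq_abs]
    have h3 : η / (b - a + 1) * (b - a) ≤ η := by
      rw [div_mul_eq_mul_div, div_le_iff₀ (by linarith)]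
      nlinarith
    have := mul_le_mul_of_nonneg_right h3 (abs_nonneg κ)
    linarith
  rw [key]
  have h2 := (hF _ hG0 b).sub (hF _ hG0 a)
  have h3 := (hF _ hG' b).sub (hF _ hG' a)
  have h4 := (hasDerivAt_id (0:ℝ)).mul h3
  have h5 := (h1.add h2).add h4
  refine h5.congr_deriv ?_
  simp only [Pi.sub_apply, id_eq, mul_zero, add_zero, zero_mul, one_mul, zero_add]
  rw [intervalIntegral.integral_interval_sub_left (hG'.intervalIntegrable _ _)
      (hG'.intervalIntegrable _ _)]
  ring

/-- Uniform first order expansion. -/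
theorem ham_umv {H : V → V → ℝ} {H' : V → V → V →L[ℝ] ℝ} {x : V} {r : ℝ} (hr : 0 < r)
    (hc : ContinuousOn (fun p : V × V => H' p.1 p.2) (closedBall x r ×ˢ univ))
    (hD : ∀ y ∈ closedBall x r, ∀ v, HasFDerivAt (fun y => H y v) (H' y v) y) (M : ℝ) {η : ℝ}
    (hη : 0 < η) :
    ∃ δ > 0, δ ≤ r / 2 ∧ ∀ y ∈ closedBall x (r / 2), ∀ v, ‖v‖ ≤ M → ∀ w, ‖w‖ ≤ δ →
      |H (y + w) v - H y v - H' y v w| ≤ η * ‖w‖ ∧ ‖H' (y + w) v - H' y v‖ ≤ η := by
  have hK : IsCompact (closedBall x r ×ˢ closedBall (0 : V) M) :=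
    (isCompact_closedBall x r).prod (isCompact_closedBall 0 M)
  have hu := hK.uniformContinuousOn_of_continuous
    (hc.mono (prod_mono subset_rfl (subset_univ _)))
  rw [Metric.uniformContinuousOn_iff] at hu
  obtain ⟨δ, hδ, hδ2⟩ := hu η hη
  refine ⟨min (δ / 2) (r / 2), lt_min (by linarith) (by linarith), min_le_right _ _, ?_⟩
  intro y hy v hv w hw
  have hw1 : ‖w‖ ≤ δ / 2 := hw.trans (min_le_left _ _)
  have hw2 : ‖w‖ ≤ r / 2 := hw.trans (min_le_right _ _)
  have hv' : v ∈ closedBall (0 : V) M := by rwa [mem_closedBall_zero_iff]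
  have hyr : y ∈ closedBall x r := closedBall_subset_closedBall (by linarith) hy
  have hsub : closedBall y ‖w‖ ⊆ closedBall x r := by
    apply closedBall_subset_closedBall'
    rw [mem_closedBall] at hy
    linarith
  have hclose : ∀ y' ∈ closedBall y ‖w‖, ‖H' y' v - H' y v‖ ≤ η := by
    intro y' hy'
    have h1 := hδ2 (y', v) ⟨hsub hy', hv'⟩ (y, v) ⟨hyr, hv'⟩ (by
      rw [Prod.dist_eq, dist_self]
      rw [mem_closedBall] at hy'
      exact max_lt (by simp only; linarith) hδ)
    rw [dist_eq_norm] at h1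
    exact h1.le
  constructor
  · have := (convex_closedBall y ‖w‖).norm_image_sub_le_of_norm_hasFDerivWithin_le'
      (f := fun y => H y v) (f' := fun y => H' y v) (φ := H' y v)
      (fun y' hy' => (hD y' (hsub hy') v).hasFDerivWithinAt) hclose
      (mem_closedBall_self (norm_nonneg _)) (y := y + w) (by simp)
    simpa [Real.norm_eq_abs] using this
  · exact hclose _ (by simp)

/-- Parametric integrals of continuous functions are continuous. -/
theorem ham_par {E : Type*} [TopologicalSpace E] [FirstCountableTopology E] {f : E → ℝ → ℝ}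
    (hf : Continuous (fun p : E × ℝ => f p.1 p.2)) :
    Continuous (fun e => ∫ s in (0:ℝ)..1, f e s) := by
  exact intervalIntegral.continuous_parametric_intervalIntegral_of_continuous' hf 0 1

/-- The inner integral. -/
noncomputable def hamG (K : V → V → ℝ) (x u z : V) (σ h τ κ : ℝ) : ℝ :=
  ∫ s in (0:ℝ)..1, K (x + (κ * h) • z + (σ * s * h) • (u + τ • z)) (u + τ • z)

theorem hamG_continuous {K : V → V → ℝ} (hK : Continuous (fun p : V × V => K p.1 p.2))
    (x u z : V) (σ h : ℝ) : Continuous (fun p : ℝ × ℝ => hamG K x u z σ h p.1 p.2) := by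
  unfold hamG
  apply ham_par (f := fun (p : ℝ × ℝ) s =>
    K (x + (p.2 * h) • z + (σ * s * h) • (u + p.1 • z)) (u + p.1 • z))
  have : Continuous (fun p : (ℝ × ℝ) × ℝ =>
    ((x + (p.1.2 * h) • z + (σ * p.2 * h) • (u + p.1.1 • z), u + p.1.1 • z) : V × V)) := by
    fun_prop
  exact hK.comp this

theorem ham_deriv {K : V → V → ℝ} {K' : V → V → V →L[ℝ] ℝ}
    (hK : Continuous (fun p : V × V => K p.1 p.2)) (hK' : Continuous (fun p : V × V => K' p.1 p.2))
    {x : V} {r : ℝ} (hr : 0 < r)
    (hU : ∀ M η : ℝ, 0 < η → ∃ δ > 0, δ ≤ r / 2 ∧ ∀ y ∈ closedBall x (r / 2), ∀ v, ‖v‖ ≤ M →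
      ∀ w, ‖w‖ ≤ δ → |K (y + w) v - K y v - K' y v w| ≤ η * ‖w‖ ∧ ‖K' (y + w) v - K' y v‖ ≤ η)
    {u z : V} {t₁ t₂ M : ℝ} (ht : t₁ ≤ t₂)
    (hM : ∀ τ ∈ Icc (t₁ - 1) (t₂ + 1), ‖u + τ • z‖ ≤ M) (hz : ‖z‖ ≤ M) {h : ℝ} (hh : 0 < h)
    (hhM : h * M ≤ r / 2) (σ : ℝ) (hσ : |σ| = 1) (c : ℝ) (hc : |c| ≤ 1) :
    HasDerivAt (fun κ => ∫ τ in (t₁ + c * κ)..(t₂ + c * κ), hamG K x u z σ h τ κ)
      (c * (hamG K x u z σ h t₂ 0 - hamG K x u z σ h t₁ 0) +
        ∫ τ in t₁..t₂, ∫ s in (0:ℝ)..1, K' (x + (σ * s * h) • (u + τ • z)) (u + τ • z) (h • z))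
      0 := by
  have hM0 : 0 ≤ M := (norm_nonneg z).trans hz
  have hc' : Continuous (fun p : ℝ × ℝ => K' (x + (σ * p.2 * h) • (u + p.1 • z)) (u + p.1 • z)
      (h • z)) := by
    have h1 : Continuous (fun p : ℝ × ℝ =>
      ((x + (σ * p.2 * h) • (u + p.1 • z), u + p.1 • z) : V × V)) := by
      fun_prop
    exact (hK'.comp h1).clm_apply continuous_const
  have hcK : ∀ κ : ℝ, Continuous (fun p : ℝ × ℝ => K (x + (κ * h) • z +
      (σ * p.2 * h) • (u + p.1 • z)) (u + p.1 • z)) := by
    intro κ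
    have h1 : Continuous (fun p : ℝ × ℝ =>
      ((x + (κ * h) • z + (σ * p.2 * h) • (u + p.1 • z), u + p.1 • z) : V × V)) := by
      fun_prop
    exact hK.comp h1
  apply ham_leib (hamG K x u z σ h) (fun τ => ∫ s in (0:ℝ)..1,
    K' (x + (σ * s * h) • (u + τ • z)) (u + τ • z) (h • z)) (hamG_continuous hK x u z σ h)
    (ham_par (f := fun τ s => K' (x + (σ * s * h) • (u + τ • z)) (u + τ • z) (h • z)) hc')
    t₁ t₂ c hc ht
  intro η hη
  have hden : 0 < h * M + 1 := by positivity
  obtain ⟨δ, hδ, hδr, hδ2⟩ := hU M (η / (h * M + 1)) (div_pos hη hden)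
  have hsmall : ∀ᶠ κ in 𝓝 (0:ℝ), |κ| < δ / (h * M + 1) := by
    have : Tendsto (fun κ : ℝ => |κ|) (𝓝 0) (𝓝 |0|) := continuous_abs.tendsto 0
    rw [abs_zero] at this
    exact this.eventually (gt_mem_nhds (div_pos hδ hden))
  filter_upwards [hsmall] with κ hκ τ hτ
  have hκ' : |κ| * (h * M + 1) < δ := by rwa [lt_div_iff₀ hden] at hκ
  have hsec : ∀ κ : ℝ, Continuous (fun s : ℝ => K (x + (κ * h) • z +
      (σ * s * h) • (u + τ • z)) (u + τ • z)) := fun κ =>
    (hcK κ).comp (continuous_const.prodMk continuous_id)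
  have hsec' : Continuous (fun s : ℝ => K' (x + (σ * s * h) • (u + τ • z)) (u + τ • z) (h • z)) :=
    hc'.comp (continuous_const.prodMk continuous_id)
  have e : hamG K x u z σ h τ κ - hamG K x u z σ h τ 0 - κ * (∫ s in (0:ℝ)..1,
      K' (x + (σ * s * h) • (u + τ • z)) (u + τ • z) (h • z)) =
      ∫ s in (0:ℝ)..1, (K (x + (κ * h) • z + (σ * s * h) • (u + τ • z)) (u + τ • z) -
        K (x + (0 * h) • z + (σ * s * h) • (u + τ • z)) (u + τ • z) -
        κ * K' (x + (σ * s * h) • (u + τ • z)) (u + τ • z) (h • z)) := by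
    unfold hamG
    rw [intervalIntegral.integral_sub, intervalIntegral.integral_sub,
      intervalIntegral.integral_const_mul]
    · exact (hsec κ).intervalIntegrable _ _
    · exact (hsec 0).intervalIntegrable _ _
    · exact ((hsec κ).sub (hsec 0)).intervalIntegrable _ _
    · exact (continuous_const.mul hsec').intervalIntegrable _ _
  rw [e, ← Real.norm_eq_abs]
  have h2 : ‖∫ s in (0:ℝ)..1, (K (x + (κ * h) • z + (σ * s * h) • (u + τ • z)) (u + τ • z) -
        K (x + (0 * h) • z + (σ * s * h) • (u + τ • z)) (u + τ • z) -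
        κ * K' (x + (σ * s * h) • (u + τ • z)) (u + τ • z) (h • z))‖ ≤ η * |κ| * |1 - 0| := by
    apply intervalIntegral.norm_integral_le_of_norm_le_const
    intro s hs
    rw [uIoc_of_le zero_le_one] at hs
    have hy : x + (σ * s * h) • (u + τ • z) ∈ closedBall x (r / 2) := by
      rw [mem_closedBall, dist_eq_norm, add_sub_cancel_left, norm_smul, Real.norm_eq_abs, abs_mul,
        abs_mul, hσ, abs_of_pos hs.1, abs_of_pos hh, one_mul]
      have h3 : s * h * ‖u + τ • z‖ ≤ 1 * h * M := by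
        apply mul_le_mul (mul_le_mul_of_nonneg_right hs.2 hh.le) (hM τ hτ) (norm_nonneg _)
          (by positivity)
      linarith
    have hw : ‖(κ * h) • z‖ ≤ |κ| * (h * M) := by
      rw [norm_smul, Real.norm_eq_abs, abs_mul, abs_of_pos hh, mul_assoc]
      exact mul_le_mul_of_nonneg_left (mul_le_mul_of_nonneg_left hz hh.le) (abs_nonneg _)
    have hw2 : ‖(κ * h) • z‖ ≤ δ := by
      refine hw.trans ?_
      have := abs_nonneg κ
      nlinarith
    obtain ⟨h4, -⟩ := hδ2 _ hy _ (hM τ hτ) _ hw2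
    rw [Real.norm_eq_abs]
    have e1 : x + (κ * h) • z + (σ * s * h) • (u + τ • z) =
        x + (σ * s * h) • (u + τ • z) + (κ * h) • z := by abel
    have e2 : x + (0 * h) • z + (σ * s * h) • (u + τ • z) = x + (σ * s * h) • (u + τ • z) := by
      rw [zero_mul, zero_smul, add_zero]
    have e3 : κ * K' (x + (σ * s * h) • (u + τ • z)) (u + τ • z) (h • z) =
        K' (x + (σ * s * h) • (u + τ • z)) (u + τ • z) ((κ * h) • z) := by
      rw [show (κ * h) • z = κ • (h • z) from mul_smul _ _ _]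
      exact ((K' (x + (σ * s * h) • (u + τ • z)) (u + τ • z)).map_smul κ (h • z)).symm
    rw [e1, e2, e3]
    refine h4.trans ?_
    calc η / (h * M + 1) * ‖(κ * h) • z‖ ≤ η / (h * M + 1) * (|κ| * (h * M)) :=
          mul_le_mul_of_nonneg_left hw (by positivity)
      _ = η * |κ| * (h * M / (h * M + 1)) := by ring
      _ ≤ η * |κ| * 1 := by
          apply mul_le_mul_of_nonneg_left _ (by positivity)
          rw [div_le_one hden]; linarith
      _ = η * |κ| := mul_one _
  simpa using h2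

/-- Length of a segment in terms of the direction. -/
theorem ham_DD {K : V → V → ℝ} (hom : ∀ y (a : ℝ) v, K y (a • v) = |a| * K y v) (B v : V)
    {σ h : ℝ} (hσ : |σ| = 1) (hh : 0 < h) :
    DD K B (B + (σ * h) • v) = h * ∫ s in (0:ℝ)..1, K (B + (σ * s * h) • v) v := by
  unfold DD
  rw [← intervalIntegral.integral_const_mul]
  congr 1
  funext t
  rw [add_sub_cancel_left, hom, abs_mul, hσ, abs_of_pos hh, one_mul, smul_smul,
    show t * (σ * h) = σ * t * h by ring]

theorem ham_DD_comm {K : V → V → ℝ} (hom : ∀ y (a : ℝ) v, K y (a • v) = |a| * K y v) (A B : V) :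
    DD K A B = DD K B A := by
  unfold DD
  have h1 := intervalIntegral.integral_comp_sub_left (fun t => K (B + t • (A - B)) (A - B)) (1:ℝ)
    (a := 0) (b := 1)
  rw [sub_zero, sub_self] at h1
  rw [← h1]
  congr 1
  funext t
  have e1 : B - A = (-1 : ℝ) • (A - B) := by module
  have e2 : A + t • (B - A) = B + (1 - t) • (A - B) := by module
  rw [e2]
  conv_lhs => rw [e1]
  rw [hom]
  simp

theorem ham_DD_split {K : V → V → ℝ} (hK : Continuous (fun p : V × V => K p.1 p.2))
    (hom : ∀ y (a : ℝ) v, K y (a • v) = |a| * K y v) (x v : V) {h : ℝ} (hh : 0 < h) :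
    DD K (x + ((-1) * h) • v) (x + (1 * h) • v) =
      DD K x (x + ((-1) * h) • v) + DD K x (x + (1 * h) • v) := by
  rw [ham_DD hom x v (by simp) hh, ham_DD hom x v (by simp) hh]
  have hc : Continuous (fun s : ℝ => K (x + (s * h) • v) v) := by
    have h1 : Continuous (fun s : ℝ => ((x + (s * h) • v, v) : V × V)) := by fun_prop
    exact hK.comp h1
  have e1 : DD K (x + ((-1) * h) • v) (x + (1 * h) • v) =
      2 * h * ∫ t in (0:ℝ)..1, K (x + ((2 * t - 1) * h) • v) v := by
    unfold DD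
    rw [← intervalIntegral.integral_const_mul]
    congr 1
    funext t
    have e2 : x + (1 * h) • v - (x + ((-1) * h) • v) = (2 * h) • v := by module
    have e3 : x + ((-1) * h) • v + t • ((2 * h) • v) = x + ((2 * t - 1) * h) • v := by module
    rw [e2, e3, hom, abs_of_pos (by linarith)]
  have e4 : 2 * ∫ t in (0:ℝ)..1, K (x + ((2 * t - 1) * h) • v) v =
      ∫ s in (-1:ℝ)..1, K (x + (s * h) • v) v := by
    have h2 := intervalIntegral.smul_integral_comp_mul_sub (fun s : ℝ => K (x + (s * h) • v) v)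
      (2:ℝ) 1 (a := 0) (b := 1)
    rw [smul_eq_mul] at h2
    rw [h2]
    norm_num
  have e5 : ∫ s in (-1:ℝ)..1, K (x + (s * h) • v) v =
      (∫ s in (-1:ℝ)..0, K (x + (s * h) • v) v) + ∫ s in (0:ℝ)..1, K (x + (s * h) • v) v :=
    (intervalIntegral.integral_add_adjacent_intervals (hc.intervalIntegrable _ _)
      (hc.intervalIntegrable _ _)).symm
  have e6 : ∫ s in (0:ℝ)..1, K (x + ((-1) * s * h) • v) v =
      ∫ s in (-1:ℝ)..0, K (x + (s * h) • v) v := by
    have h3 := intervalIntegral.integral_comp_neg (fun s : ℝ => K (x + (s * h) • v) v)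
      (a := 0) (b := 1)
    rw [neg_zero] at h3
    rw [← h3]
    congr 1
    funext s
    rw [neg_one_mul]
  have e7 : ∫ s in (0:ℝ)..1, K (x + (1 * s * h) • v) v =
      ∫ s in (0:ℝ)..1, K (x + (s * h) • v) v := by
    congr 1
    funext s
    rw [one_mul]
  rw [e1, e6, e7, mul_comm 2 h, mul_assoc, e4, e5]
  ring

/-- Comparison of the inner integrals, from the triangle inequality. -/
theorem ham_ineq {K : V → V → ℝ} (hK : Continuous (fun p : V × V => K p.1 p.2))
    (hom : ∀ y (a : ℝ) v, K y (a • v) = |a| * K y v) {x : V} {r : ℝ}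
    (tri : ∀ A ∈ closedBall x r, ∀ B ∈ closedBall x r, ∀ C ∈ closedBall x r,
      DD K A C ≤ DD K A B + DD K B C) {u z : V} {t M h κ : ℝ} (hM : ‖u + t • z‖ ≤ M)
    (hz : ‖z‖ ≤ M) (hh : 0 < h) (hhM : h * M ≤ r / 2) (hκ : |κ| ≤ 1) (hr : 0 < r) :
    hamG K x u z 1 h t 0 + hamG K x u z (-1) h t 0 ≤
      hamG K x u z 1 h (t - κ) κ + hamG K x u z (-1) h (t + κ) κ := by
  have hmem : ∀ σ : ℝ, |σ| = 1 → x + (σ * h) • (u + t • z) ∈ closedBall x r := by
    intro σ hσ
    rw [mem_closedBall, dist_eq_norm, add_sub_cancel_left, norm_smul, Real.norm_eq_abs, abs_mul,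
      hσ, abs_of_pos hh, one_mul]
    have := mul_le_mul_of_nonneg_left hM hh.le
    linarith
  have hB : x + (κ * h) • z ∈ closedBall x r := by
    rw [mem_closedBall, dist_eq_norm, add_sub_cancel_left, norm_smul, Real.norm_eq_abs, abs_mul,
      abs_of_pos hh]
    have h1 : |κ| * h * ‖z‖ ≤ 1 * h * M :=
      mul_le_mul (mul_le_mul_of_nonneg_right hκ hh.le) hz (norm_nonneg _) (by positivity)
    linarith
  have h1 := tri _ (hmem (-1) (by simp)) _ hB _ (hmem 1 (by simp))
  rw [ham_DD_split hK hom x _ hh, ham_DD hom x _ (by simp) hh, ham_DD hom x _ (by simp) hh,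
    ham_DD_comm hom _ (x + (κ * h) • z)] at h1
  have e1 : x + ((-1) * h) • (u + t • z) =
      (x + (κ * h) • z) + ((-1) * h) • (u + (t + κ) • z) := by module
  have e2 : x + (1 * h) • (u + t • z) =
      (x + (κ * h) • z) + (1 * h) • (u + (t - κ) • z) := by module
  rw [e1, e2, ham_DD hom _ _ (by simp) hh, ham_DD hom _ _ (by simp) hh] at h1
  unfold hamG
  simp only [zero_mul, zero_smul, add_zero]
  have h2 : h * ((∫ s in (0:ℝ)..1, K (x + (1 * s * h) • (u + t • z)) (u + t • z)) +
      ∫ s in (0:ℝ)..1, K (x + ((-1) * s * h) • (u + t • z)) (u + t • z)) ≤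
      h * ((∫ s in (0:ℝ)..1, K (x + (κ * h) • z + (1 * s * h) • (u + (t - κ) • z))
        (u + (t - κ) • z)) + ∫ s in (0:ℝ)..1, K (x + (κ * h) • z +
        ((-1) * s * h) • (u + (t + κ) • z)) (u + (t + κ) • z)) := by
    linarith
  exact le_of_mul_le_mul_left h2 hh

theorem ham_aux {U : Set V} {H : V → V → ℝ} {H' : V → V → V →L[ℝ] ℝ} (h : HPC U H H') {x : V}
    (hx : x ∈ U) (u z : V) (t₁ t₂ : ℝ) (ht : t₁ ≤ t₂) :
    H' x (u + t₂ • z) (u + t₂ • z) - H' x (u + t₁ • z) (u + t₁ • z) =
      2 * ∫ t in t₁..t₂, H' x (u + t • z) z := by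
  obtain ⟨r, hr, hrU⟩ := Metric.nhds_basis_closedBall.mem_iff.mp (h.isOpen.mem_nhds hx)
  obtain ⟨K, K', hK, hK', hKH, hom⟩ := ham_extend h hr hrU
  have hxr : x ∈ closedBall x r := mem_closedBall_self hr.le
  -- triangle inequality for `K`
  have hDD : ∀ A ∈ closedBall x r, ∀ B ∈ closedBall x r, DD H A B = DD K A B := by
    intro A hA B hB
    unfold DD
    apply intervalIntegral.integral_congr
    intro t htt
    rw [uIcc_of_le zero_le_one] at htt
    have hmem : A + t • (B - A) ∈ closedBall x r :=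
      (convex_closedBall x r).add_smul_sub_mem hA hB htt
    simp only [(hKH _ hmem).1]
  have tri : ∀ A ∈ closedBall x r, ∀ B ∈ closedBall x r, ∀ C ∈ closedBall x r,
      DD K A C ≤ DD K A B + DD K B C := by
    intro A hA B hB C hC
    rw [← hDD A hA C hC, ← hDD A hA B hB, ← hDD B hB C hC]
    exact h.tri A (hrU hA) B (hrU hB) C (hrU hC)
  have hU : ∀ M η : ℝ, 0 < η → ∃ δ > 0, δ ≤ r / 2 ∧ ∀ y ∈ closedBall x (r / 2), ∀ v, ‖v‖ ≤ M →
      ∀ w, ‖w‖ ≤ δ → |K (y + w) v - K y v - K' y v w| ≤ η * ‖w‖ ∧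
        ‖K' (y + w) v - K' y v‖ ≤ η := by
    intro M η hη
    obtain ⟨δ, hδ, hδr, hδ2⟩ := ham_umv hr (h.contD.mono (prod_mono hrU subset_rfl))
      (fun y hy v => h.hasD y (hrU hy) v) M hη
    refine ⟨δ, hδ, hδr, fun y hy v hv w hw => ?_⟩
    have hy1 : y ∈ closedBall x r := closedBall_subset_closedBall (by linarith) hy
    have hy2 : y + w ∈ closedBall x r := by
      rw [mem_closedBall, dist_eq_norm] at hy ⊢
      have e : y + w - x = (y - x) + w := by abel
      rw [e]
      exact (norm_add_le _ _).trans (by linarith)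
    rw [(hKH _ hy1).1, (hKH _ hy1).2, (hKH _ hy2).1, (hKH _ hy2).2]
    exact hδ2 y hy v hv w hw
  rw [← (hKH x hxr).2]
  -- the bound `M`
  set T : ℝ := |t₁| + |t₂| + 1 with hT
  set M : ℝ := ‖u‖ + T * ‖z‖ + 1 with hMdef
  have hT1 : 1 ≤ T := by
    have := abs_nonneg t₁
    have := abs_nonneg t₂
    linarith
  have hz : ‖z‖ ≤ M := by
    have := norm_nonneg u
    have := norm_nonneg z
    nlinarith
  have hM1 : 1 ≤ M := by
    have := norm_nonneg u
    have := norm_nonneg z
    nlinarith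
  have hM : ∀ τ ∈ Icc (t₁ - 1) (t₂ + 1), ‖u + τ • z‖ ≤ M := by
    intro τ hτ
    have h1 : |τ| ≤ T := by
      rw [abs_le]
      have := neg_abs_le t₁
      have := le_abs_self t₂
      have := abs_nonneg t₁
      have := abs_nonneg t₂
      constructor <;> linarith [hτ.1, hτ.2]
    refine (norm_add_le _ _).trans ?_
    rw [norm_smul, Real.norm_eq_abs]
    have := mul_le_mul_of_nonneg_right h1 (norm_nonneg z)
    linarith
  -- the estimate with `η`
  have main : ∀ η > 0, |K' x (u + t₂ • z) (u + t₂ • z) - K' x (u + t₁ • z) (u + t₁ • z) -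
      2 * ∫ t in t₁..t₂, K' x (u + t • z) z| ≤ (4 * M + 2 * M * (t₂ - t₁)) * η := by
    intro η hη
    obtain ⟨δ, hδ, hδr, hδ2⟩ := hU M η hη
    obtain ⟨k, hk, hkM⟩ : ∃ k : ℝ, 0 < k ∧ k * M ≤ δ := ⟨δ / M, by positivity, by
      rw [div_mul_cancel₀ _ (by positivity)]⟩
    have hkM2 : k * M ≤ r / 2 := hkM.trans hδr
    have hx2 : x ∈ closedBall x (r / 2) := mem_closedBall_self (by linarith)
    -- derivative at zero
    have hd1 := ham_deriv hK hK' hr hU ht hM hz hk hkM2 1 (by simp) (-1) (by simp)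
    have hd2 := ham_deriv hK hK' hr hU ht hM hz hk hkM2 (-1) (by simp) 1 (by simp)
    have hd := hd1.add hd2
    have hmin : IsLocalMin ((fun κ => ∫ τ in (t₁ + (-1) * κ)..(t₂ + (-1) * κ),
        hamG K x u z 1 k τ κ) + fun κ => ∫ τ in (t₁ + 1 * κ)..(t₂ + 1 * κ),
        hamG K x u z (-1) k τ κ) 0 := by
      have hsmall : ∀ᶠ κ in 𝓝 (0:ℝ), |κ| < 1 := by
        have : Tendsto (fun κ : ℝ => |κ|) (𝓝 0) (𝓝 |0|) := continuous_abs.tendsto 0
        rw [abs_zero] at this
        exact this.eventually (gt_mem_nhds one_pos)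
      filter_upwards [hsmall] with κ hκ
      have hc : ∀ (σ κ : ℝ), Continuous (fun τ => hamG K x u z σ k τ κ) := fun σ κ =>
        (hamG_continuous hK x u z σ k).comp (continuous_id.prodMk continuous_const)
      simp only [Pi.add_apply]
      have e1 : ∫ τ in (t₁ + (-1) * κ)..(t₂ + (-1) * κ), hamG K x u z 1 k τ κ =
          ∫ t in t₁..t₂, hamG K x u z 1 k (t - κ) κ := by
        rw [intervalIntegral.integral_comp_sub_right (fun τ => hamG K x u z 1 k τ κ) κ]
        congr 1 <;> ring
      have e2 : ∫ τ in (t₁ + 1 * κ)..(t₂ + 1 * κ), hamG K x u z (-1) k τ κ =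
          ∫ t in t₁..t₂, hamG K x u z (-1) k (t + κ) κ := by
        rw [intervalIntegral.integral_comp_add_right (fun τ => hamG K x u z (-1) k τ κ) κ]
        congr 1 <;> ring
      have e3 : ∫ τ in (t₁ + (-1) * 0)..(t₂ + (-1) * 0), hamG K x u z 1 k τ 0 =
          ∫ t in t₁..t₂, hamG K x u z 1 k t 0 := by
        congr 1 <;> ring
      have e4 : ∫ τ in (t₁ + 1 * 0)..(t₂ + 1 * 0), hamG K x u z (-1) k τ 0 =
          ∫ t in t₁..t₂, hamG K x u z (-1) k t 0 := by
        congr 1 <;> ring
      have hcs : Continuous (fun t => hamG K x u z 1 k (t - κ) κ) :=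
        (hc 1 κ).comp (continuous_id.sub continuous_const)
      have hca : Continuous (fun t => hamG K x u z (-1) k (t + κ) κ) :=
        (hc (-1) κ).comp (continuous_id.add continuous_const)
      rw [e1, e2, e3, e4, ← intervalIntegral.integral_add ((hc _ _).intervalIntegrable _ _)
        ((hc _ _).intervalIntegrable _ _), ← intervalIntegral.integral_add
        (hcs.intervalIntegrable _ _) (hca.intervalIntegrable _ _)]
      apply intervalIntegral.integral_mono_on ht
        (((hc _ _).add (hc _ _)).intervalIntegrable _ _) ((hcs.add hca).intervalIntegrable _ _)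
      intro t htt
      exact ham_ineq hK hom tri (hM t ⟨by linarith [htt.1], by linarith [htt.2]⟩) hz hk hkM2
        hκ.le hr
    have h0 := hmin.hasDerivAt_eq_zero hd
    -- approximation of the inner integrals
    have hg : ∀ t ∈ Icc t₁ t₂, ∀ σ : ℝ, |σ| = 1 →
        |hamG K x u z σ k t 0 - K x (u + t • z) -
          σ * k / 2 * K' x (u + t • z) (u + t • z)| ≤ η * (k * M) := by
      intro t htt σ hσ
      have htM := hM t ⟨by linarith [htt.1], by linarith [htt.2]⟩
      have hsec : Continuous (fun s : ℝ => K (x + (0 * k) • z +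
          (σ * s * k) • (u + t • z)) (u + t • z)) := by
        have h1 : Continuous (fun s : ℝ =>
          ((x + (0 * k) • z + (σ * s * k) • (u + t • z), u + t • z) : V × V)) := by
          fun_prop
        exact hK.comp h1
      have e : hamG K x u z σ k t 0 - K x (u + t • z) -
          σ * k / 2 * K' x (u + t • z) (u + t • z) =
          ∫ s in (0:ℝ)..1, (K (x + (0 * k) • z + (σ * s * k) • (u + t • z)) (u + t • z) -
            K x (u + t • z) - (σ * k * K' x (u + t • z) (u + t • z)) * s) := by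
        unfold hamG
        rw [intervalIntegral.integral_sub, intervalIntegral.integral_sub,
          intervalIntegral.integral_const_mul, intervalIntegral.integral_const, integral_id]
        · simp only [sub_zero, smul_eq_mul]
          ring
        · exact hsec.intervalIntegrable _ _
        · exact continuous_const.intervalIntegrable _ _
        · exact (hsec.sub continuous_const).intervalIntegrable _ _
        · exact (continuous_const.mul continuous_id).intervalIntegrable _ _
      rw [e, ← Real.norm_eq_abs]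
      have h2 : ‖∫ s in (0:ℝ)..1, (K (x + (0 * k) • z + (σ * s * k) • (u + t • z)) (u + t • z) -
            K x (u + t • z) - (σ * k * K' x (u + t • z) (u + t • z)) * s)‖ ≤
            η * (k * M) * |1 - 0| := by
        apply intervalIntegral.norm_integral_le_of_norm_le_const
        intro s hs
        rw [uIoc_of_le zero_le_one] at hs
        have hw : ‖(σ * s * k) • (u + t • z)‖ ≤ k * M := by
          rw [norm_smul, Real.norm_eq_abs, abs_mul, abs_mul, hσ, abs_of_pos hs.1, abs_of_pos hk,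
            one_mul]
          have h3 : s * k * ‖u + t • z‖ ≤ 1 * k * M :=
            mul_le_mul (mul_le_mul_of_nonneg_right hs.2 hk.le) htM (norm_nonneg _) (by positivity)
          linarith
        obtain ⟨h4, -⟩ := hδ2 x hx2 _ htM _ (hw.trans hkM)
        rw [Real.norm_eq_abs, zero_mul, zero_smul, add_zero]
        have e5 : σ * k * K' x (u + t • z) (u + t • z) * s =
            K' x (u + t • z) ((σ * s * k) • (u + t • z)) := by
          rw [(K' x (u + t • z)).map_smul, smul_eq_mul]; ring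
        rw [e5]
        exact h4.trans (mul_le_mul_of_nonneg_left hw hη.le)
      simpa using h2
    have hI : ∀ σ : ℝ, |σ| = 1 → |(∫ τ in t₁..t₂, ∫ s in (0:ℝ)..1,
        K' (x + (σ * s * k) • (u + τ • z)) (u + τ • z) (k • z)) -
        k * ∫ τ in t₁..t₂, K' x (u + τ • z) z| ≤ η * (k * M) * (t₂ - t₁) := by
      intro σ hσ
      have hc' : Continuous (fun p : ℝ × ℝ => K' (x + (σ * p.2 * k) • (u + p.1 • z))
          (u + p.1 • z) (k • z)) := by
        have h1 : Continuous (fun p : ℝ × ℝ =>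
          ((x + (σ * p.2 * k) • (u + p.1 • z), u + p.1 • z) : V × V)) := by
          fun_prop
        exact (hK'.comp h1).clm_apply continuous_const
      have hc1 : Continuous (fun τ : ℝ => ∫ s in (0:ℝ)..1,
          K' (x + (σ * s * k) • (u + τ • z)) (u + τ • z) (k • z)) :=
        ham_par (f := fun τ s => K' (x + (σ * s * k) • (u + τ • z)) (u + τ • z) (k • z)) hc'
      have hc2 : Continuous (fun τ : ℝ => K' x (u + τ • z) z) := by
        have h1 : Continuous (fun τ : ℝ => ((x, u + τ • z) : V × V)) := by fun_prop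
        exact (hK'.comp h1).clm_apply continuous_const
      have e8 : (∫ τ in t₁..t₂, ∫ s in (0:ℝ)..1,
          K' (x + (σ * s * k) • (u + τ • z)) (u + τ • z) (k • z)) -
          k * ∫ τ in t₁..t₂, K' x (u + τ • z) z =
          ∫ τ in t₁..t₂, ((∫ s in (0:ℝ)..1,
          K' (x + (σ * s * k) • (u + τ • z)) (u + τ • z) (k • z)) -
          k * K' x (u + τ • z) z) := by
        have hc3 : Continuous (fun τ : ℝ => k * K' x (u + τ • z) z) := continuous_const.mul hc2
        rw [intervalIntegral.integral_sub (hc1.intervalIntegrable _ _)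
          (hc3.intervalIntegrable _ _), intervalIntegral.integral_const_mul]
      rw [e8, ← Real.norm_eq_abs]
      have h5 : ‖∫ τ in t₁..t₂, ((∫ s in (0:ℝ)..1,
          K' (x + (σ * s * k) • (u + τ • z)) (u + τ • z) (k • z)) -
          k * K' x (u + τ • z) z)‖ ≤ η * (k * M) * |t₂ - t₁| := by
        apply intervalIntegral.norm_integral_le_of_norm_le_const
        intro τ hτ
        rw [uIoc_of_le ht] at hτ
        have htM := hM τ ⟨by linarith [hτ.1], by linarith [hτ.2]⟩
        have hsec' : Continuous (fun s : ℝ =>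
            K' (x + (σ * s * k) • (u + τ • z)) (u + τ • z) (k • z)) :=
          hc'.comp (continuous_const.prodMk continuous_id)
        have e6 : (∫ s in (0:ℝ)..1, K' (x + (σ * s * k) • (u + τ • z)) (u + τ • z) (k • z)) -
            k * K' x (u + τ • z) z = ∫ s in (0:ℝ)..1,
            (K' (x + (σ * s * k) • (u + τ • z)) (u + τ • z) (k • z) -
              k * K' x (u + τ • z) z) := by
          rw [intervalIntegral.integral_sub (hsec'.intervalIntegrable _ _)
            (continuous_const.intervalIntegrable _ _), intervalIntegral.integral_const]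
          simp
        rw [e6]
        have h6 : ‖∫ s in (0:ℝ)..1,
            (K' (x + (σ * s * k) • (u + τ • z)) (u + τ • z) (k • z) -
              k * K' x (u + τ • z) z)‖ ≤ η * (k * M) * |1 - 0| := by
          apply intervalIntegral.norm_integral_le_of_norm_le_const
          intro s hs
          rw [uIoc_of_le zero_le_one] at hs
          have hw : ‖(σ * s * k) • (u + τ • z)‖ ≤ k * M := by
            rw [norm_smul, Real.norm_eq_abs, abs_mul, abs_mul, hσ, abs_of_pos hs.1,
              abs_of_pos hk, one_mul]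
            have h3 : s * k * ‖u + τ • z‖ ≤ 1 * k * M :=
              mul_le_mul (mul_le_mul_of_nonneg_right hs.2 hk.le) htM (norm_nonneg _)
                (by positivity)
            linarith
          obtain ⟨-, h4⟩ := hδ2 x hx2 _ htM _ (hw.trans hkM)
          have e7 : K' (x + (σ * s * k) • (u + τ • z)) (u + τ • z) (k • z) -
              k * K' x (u + τ • z) z =
              (K' (x + (σ * s * k) • (u + τ • z)) (u + τ • z) - K' x (u + τ • z)) (k • z) := by
            rw [sub_apply, (K' x (u + τ • z)).map_smul, smul_eq_mul]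
          rw [e7]
          refine (ContinuousLinearMap.le_opNorm _ _).trans ?_
          apply mul_le_mul h4 _ (norm_nonneg _) hη.le
          rw [norm_smul, Real.norm_eq_abs, abs_of_pos hk]
          exact mul_le_mul_of_nonneg_left hz hk.le
        simpa using h6
      rwa [abs_of_nonneg (by linarith : 0 ≤ t₂ - t₁)] at h5
    have g1 := hg t₁ ⟨le_rfl, ht⟩ 1 (by simp)
    have g2 := hg t₁ ⟨le_rfl, ht⟩ (-1) (by simp)
    have g3 := hg t₂ ⟨ht, le_rfl⟩ 1 (by simp)
    have g4 := hg t₂ ⟨ht, le_rfl⟩ (-1) (by simp)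
    have i1 := hI 1 (by simp)
    have i2 := hI (-1) (by simp)
    have hfin : k * |K' x (u + t₂ • z) (u + t₂ • z) - K' x (u + t₁ • z) (u + t₁ • z) -
        2 * ∫ t in t₁..t₂, K' x (u + t • z) z| ≤ k * ((4 * M + 2 * M * (t₂ - t₁)) * η) := by
      rw [← abs_of_pos hk, ← abs_mul, abs_of_pos hk]
      rw [abs_le] at g1 g2 g3 g4 i1 i2 ⊢
      constructor <;> linarith [g1.1, g1.2, g2.1, g2.2, g3.1, g3.2, g4.1, g4.2, i1.1, i1.2, i2.1,
        i2.2]
    exact le_of_mul_le_mul_left hfin hk
  -- conclusion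
  have hzero : K' x (u + t₂ • z) (u + t₂ • z) - K' x (u + t₁ • z) (u + t₁ • z) -
      2 * ∫ t in t₁..t₂, K' x (u + t • z) z = 0 := by
    have hC : 0 ≤ 4 * M + 2 * M * (t₂ - t₁) := by
      have : 0 ≤ t₂ - t₁ := by linarith
      positivity
    apply abs_eq_zero.mp
    apply le_antisymm _ (abs_nonneg _)
    apply le_of_forall_pos_le_add
    intro ε hε
    have h1 := main (ε / (4 * M + 2 * M * (t₂ - t₁) + 1)) (by positivity)
    refine h1.trans ?_
    rw [zero_add, mul_div_assoc', div_le_iff₀ (by positivity)]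
    nlinarith
  linarith

theorem ham {U : Set V} {H : V → V → ℝ} {H' : V → V → V →L[ℝ] ℝ} (h : HPC U H H') {x : V}
    (hx : x ∈ U) (u z : V) (t₁ t₂ : ℝ) :
    H' x (u + t₂ • z) (u + t₂ • z) - H' x (u + t₁ • z) (u + t₁ • z) =
      2 * ∫ t in t₁..t₂, H' x (u + t • z) z := by
  rcases le_total t₁ t₂ with ht | ht
  · exact ham_aux h hx u z t₁ t₂ ht
  · have := ham_aux h hx u z t₂ t₁ ht
    rw [intervalIntegral.integral_symm]
    linarith

end Pool.Agent.L1de93c
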