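import Pool.Agent.Lib_MP_1de93e_cont.Pot1
import Pool.Agent.Lib_MP_1de93e_cont.Ham

/-!
# PIECE POT2: the calibrations are closed

## POT2 `pot_contDiff`, `pot_closed`: for `H` as in `HPC`, the functions `y ↦ a1 (H y) δ` etc. are `C¹` on
`U` and `∂₂ a1 = ∂₁ a2`, `∂₁ b2 = ∂₂ b1`.
The derivative of `y ↦ ∫₀^δ H y (1,t) dt` is `∫₀^δ H' y (1,t) dt` (parametric integral with a jointly
continuous derivative). `ham` with `u = (1,0)`, `z = (0,1)`, `t₁ = 0`, `t₂ = δ`:
`H' y (1,δ) (1,δ) - H' y (1,0) (1,0) = 2 ∫₀^δ H' y (1,t) (0,1) dt`; and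
`H' y (1,δ) (1,δ) = H' y (1,δ) (1,0) + δ H' y (1,δ) (0,1)`. So
`∂₂ a1 = (2/δ) ∫₀^δ H' y (1,t) (0,1) dt - H' y (1,δ) (0,1)
 = (1/δ) (H' y (1,δ) (1,0) - H' y (1,0) (1,0)) = ∂₁ a2`.
The same computation with `u = (0,1)`, `z = (1,0)` gives the other identity.
-/

namespace Pool.Agent.L1de93c

open MeasureTheory Metric Set

theorem pot2_c1 {U : Set V} (hU : IsOpen U) {g : V → ℝ} {g' : V → V →L[ℝ] ℝ}
    (h1 : ∀ y ∈ U, HasFDerivAt g (g' y) y) (h2 : ContinuousOn g' U) : ContDiffOn ℝ 1 g U := by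
  have h := (contDiffOn_succ_iff_fderiv_of_isOpen (𝕜 := ℝ) (n := 0) (f := g) hU).2
    ⟨fun y hy => (h1 y hy).differentiableAt.differentiableWithinAt, by simp, ?_⟩
  · simpa using h
  · rw [contDiffOn_zero]
    exact h2.congr fun y hy => (h1 y hy).fderiv

theorem pot2_int {U : Set V} {H : V → V → ℝ} {H' : V → V → V →L[ℝ] ℝ} (h : HPC U H H')
    {w : ℝ → V} (hw : Continuous w) (δ : ℝ) {x : V} (hx : x ∈ U) :
    HasFDerivAt (fun y => ∫ t in (0:ℝ)..δ, H y (w t)) (∫ t in (0:ℝ)..δ, H' x (w t)) x ∧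
      ContinuousAt (fun y => ∫ t in (0:ℝ)..δ, H' y (w t)) x := by
  obtain ⟨ρ, hρ, hball⟩ := nhds_basis_closedBall.mem_iff.1 (h.isOpen.mem_nhds hx)
  have hK : IsCompact (closedBall x ρ ×ˢ (w '' uIcc 0 δ)) :=
    (isCompact_closedBall x ρ).prod (isCompact_uIcc.image hw)
  obtain ⟨C, hC⟩ := hK.exists_bound_of_continuousOn
    (h.contD.mono (prod_mono hball (subset_univ _)))
  have hnb : closedBall x ρ ∈ nhds x := closedBall_mem_nhds x hρ
  have hbd : ∀ t ∈ uIoc (0:ℝ) δ, ∀ y ∈ closedBall x ρ, ‖H' y (w t)‖ ≤ C := fun t ht y hy =>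
    hC (y, w t) ⟨hy, mem_image_of_mem w (uIoc_subset_uIcc ht)⟩
  have hHc : ∀ y ∈ U, Continuous fun t => H y (w t) := fun y hy =>
    (h.norm y hy).continuous.comp hw
  have hH'c : ∀ y ∈ U, Continuous fun t => H' y (w t) := by
    intro y hy
    have h1 : Continuous fun t => ((y, w t) : V × V) := by fun_prop
    exact continuousOn_univ.1 (h.contD.comp h1.continuousOn fun t _ => ⟨hy, mem_univ _⟩)
  have hH'y : ∀ u, ContinuousAt (fun y => H' y u) x := by
    intro u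
    have h1 : ContinuousAt (fun p : V × V => H' p.1 p.2) (x, u) :=
      h.contD.continuousAt ((h.isOpen.prod isOpen_univ).mem_nhds ⟨hx, mem_univ _⟩)
    have h2 : ContinuousAt (fun y : V => ((y, u) : V × V)) x := by fun_prop
    exact ContinuousAt.comp (f := fun y : V => ((y, u) : V × V)) h1 h2
  constructor
  · refine intervalIntegral.hasFDerivAt_integral_of_dominated_of_fderiv_le (bound := fun _ => C)
      (F' := fun y t => H' y (w t)) hnb ?_ ?_ ?_ ?_ ?_ ?_
    · filter_upwards [hnb] with y hy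
      exact (hHc y (hball hy)).aestronglyMeasurable
    · exact (hHc x hx).intervalIntegrable _ _
    · exact (hH'c x hx).aestronglyMeasurable
    · exact Filter.Eventually.of_forall hbd
    · exact continuous_const.intervalIntegrable _ _
    · exact Filter.Eventually.of_forall fun t _ y hy => h.hasD y (hball hy) (w t)
  · refine intervalIntegral.continuousAt_of_dominated_interval (bound := fun _ => C) ?_ ?_ ?_ ?_
    · filter_upwards [hnb] with y hy
      exact (hH'c y (hball hy)).aestronglyMeasurable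
    · filter_upwards [hnb] with y hy
      exact Filter.Eventually.of_forall fun t ht => hbd t ht y hy
    · exact continuous_const.intervalIntegrable _ _
    · exact Filter.Eventually.of_forall fun t _ => hH'y (w t)

/-- The derivative and its continuity for `(2 / δ) * ∫ H y (w t) - H y u`. -/
theorem pot2_a {U : Set V} {H : V → V → ℝ} {H' : V → V → V →L[ℝ] ℝ} (h : HPC U H H')
    {w : ℝ → V} (hw : Continuous w) (δ : ℝ) (u : V) {x : V} (hx : x ∈ U) :
    HasFDerivAt (fun y => (2 / δ) * (∫ t in (0:ℝ)..δ, H y (w t)) - H y u)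
      ((2 / δ) • (∫ t in (0:ℝ)..δ, H' x (w t)) - H' x u) x ∧
      ContinuousAt (fun y => (2 / δ) • (∫ t in (0:ℝ)..δ, H' y (w t)) - H' y u) x := by
  obtain ⟨h1, h2⟩ := pot2_int h hw δ hx
  refine ⟨(h1.const_mul (2 / δ)).sub (h.hasD x hx u), (h2.const_smul (2 / δ)).sub ?_⟩
  have h1 : ContinuousAt (fun p : V × V => H' p.1 p.2) (x, u) :=
    h.contD.continuousAt ((h.isOpen.prod isOpen_univ).mem_nhds ⟨hx, mem_univ _⟩)
  have h2 : ContinuousAt (fun y : V => ((y, u) : V × V)) x := by fun_prop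
  exact ContinuousAt.comp (f := fun y : V => ((y, u) : V × V)) h1 h2

/-- The derivative and its continuity for `(H y u - H y v) / δ`. -/
theorem pot2_b {U : Set V} {H : V → V → ℝ} {H' : V → V → V →L[ℝ] ℝ} (h : HPC U H H')
    (δ : ℝ) (u v : V) {x : V} (hx : x ∈ U) :
    HasFDerivAt (fun y => (H y u - H y v) / δ) (δ⁻¹ • (H' x u - H' x v)) x ∧
      ContinuousAt (fun y => δ⁻¹ • (H' y u - H' y v)) x := by
  have hc : ∀ u, ContinuousAt (fun y => H' y u) x := by
    intro u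
    have h1 : ContinuousAt (fun p : V × V => H' p.1 p.2) (x, u) :=
      h.contD.continuousAt ((h.isOpen.prod isOpen_univ).mem_nhds ⟨hx, mem_univ _⟩)
    have h2 : ContinuousAt (fun y : V => ((y, u) : V × V)) x := by fun_prop
    exact ContinuousAt.comp (f := fun y : V => ((y, u) : V × V)) h1 h2
  refine ⟨?_, ?_⟩
  swap
  · have h3 := ((hc u).sub (hc v)).const_smul δ⁻¹
    exact h3
  have h1 := ((h.hasD x hx u).sub (h.hasD x hx v)).const_mul δ⁻¹
  simpa only [div_eq_inv_mul, Pi.sub_apply] using h1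

theorem pot2_w1 : Continuous fun t : ℝ => (((1:ℝ), t) : V) := by fun_prop
theorem pot2_w2 : Continuous fun t : ℝ => ((t, (1:ℝ)) : V) := by fun_prop

/-- POT2 -/
theorem pot_contDiff {U : Set V} {H : V → V → ℝ} {H' : V → V → V →L[ℝ] ℝ} (h : HPC U H H')
    {δ : ℝ} (hδ : 0 < δ) :
    ContDiffOn ℝ 1 (fun y => a1 (H y) δ) U ∧ ContDiffOn ℝ 1 (fun y => a2 (H y) δ) U ∧
      ContDiffOn ℝ 1 (fun y => b1 (H y) δ) U ∧ ContDiffOn ℝ 1 (fun y => b2 (H y) δ) U := by
  refine ⟨?_, ?_, ?_, ?_⟩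
  · exact pot2_c1 h.isOpen (fun y hy => (pot2_a h pot2_w1 δ (1, δ) hy).1)
      fun y hy => (pot2_a h pot2_w1 δ (1, δ) hy).2.continuousWithinAt
  · exact pot2_c1 h.isOpen (fun y hy => (pot2_b h δ (1, δ) (1, 0) hy).1)
      fun y hy => (pot2_b h δ (1, δ) (1, 0) hy).2.continuousWithinAt
  · exact pot2_c1 h.isOpen (fun y hy => (pot2_b h δ (δ, 1) (0, 1) hy).1)
      fun y hy => (pot2_b h δ (δ, 1) (0, 1) hy).2.continuousWithinAt
  · exact pot2_c1 h.isOpen (fun y hy => (pot2_a h pot2_w2 δ (δ, 1) hy).1)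
      fun y hy => (pot2_a h pot2_w2 δ (δ, 1) hy).2.continuousWithinAt

theorem pot2_app {U : Set V} {H : V → V → ℝ} {H' : V → V → V →L[ℝ] ℝ} (h : HPC U H H')
    {w : ℝ → V} (hw : Continuous w) (δ : ℝ) {y : V} (hy : y ∈ U) (z : V) :
    (∫ t in (0:ℝ)..δ, H' y (w t)) z = ∫ t in (0:ℝ)..δ, H' y (w t) z := by
  refine ContinuousLinearMap.intervalIntegral_apply ?_ z
  have h1 : Continuous fun t => ((y, w t) : V × V) := by fun_prop
  exact (continuousOn_univ.1
    (h.contD.comp h1.continuousOn fun t _ => ⟨hy, mem_univ _⟩)).intervalIntegrable _ _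

/-- POT2 -/
theorem pot_closed {U : Set V} {H : V → V → ℝ} {H' : V → V → V →L[ℝ] ℝ} (h : HPC U H H')
    {δ : ℝ} (hδ : 0 < δ) {y : V} (hy : y ∈ U) :
    fderiv ℝ (fun y => a1 (H y) δ) y (0, 1) = fderiv ℝ (fun y => a2 (H y) δ) y (1, 0) ∧
      fderiv ℝ (fun y => b2 (H y) δ) y (1, 0) = fderiv ℝ (fun y => b1 (H y) δ) y (0, 1) := by
  have ha1 : HasFDerivAt (fun y => a1 (H y) δ) _ y := (pot2_a h pot2_w1 δ (1, δ) hy).1
  have ha2 : HasFDerivAt (fun y => a2 (H y) δ) _ y := (pot2_b h δ (1, δ) (1, 0) hy).1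
  have hb1 : HasFDerivAt (fun y => b1 (H y) δ) _ y := (pot2_b h δ (δ, 1) (0, 1) hy).1
  have hb2 : HasFDerivAt (fun y => b2 (H y) δ) _ y := (pot2_a h pot2_w2 δ (δ, 1) hy).1
  rw [ha1.fderiv, ha2.fderiv, hb1.fderiv, hb2.fderiv]
  constructor
  · have h1 := ham h hy (1, 0) (0, 1) 0 δ
    simp only [Prod.smul_mk, smul_eq_mul, mul_zero, mul_one, Prod.mk_add_mk, add_zero,
      zero_add] at h1
    have h2 : H' y (1, δ) (1, δ) = H' y (1, δ) (1, 0) + δ * H' y (1, δ) (0, 1) := by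
      rw [← smul_eq_mul, ← map_smul, ← map_add]
      congr 1
      ext <;> simp
    simp only [FunLike.coe_sub, FunLike.coe_smul, Pi.sub_apply, Pi.smul_apply, smul_eq_mul,
      pot2_app h pot2_w1 δ hy]
    field_simp
    linarith
  · have h1 := ham h hy (0, 1) (1, 0) 0 δ
    simp only [Prod.smul_mk, smul_eq_mul, mul_zero, mul_one, Prod.mk_add_mk, add_zero,
      zero_add] at h1
    have h2 : H' y (δ, 1) (δ, 1) = H' y (δ, 1) (0, 1) + δ * H' y (δ, 1) (1, 0) := by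
      rw [← smul_eq_mul, ← map_smul, ← map_add]
      congr 1
      ext <;> simp
    simp only [FunLike.coe_sub, FunLike.coe_smul, Pi.sub_apply, Pi.smul_apply, smul_eq_mul,
      pot2_app h pot2_w2 δ hy]
    field_simp
    linarith

end Pool.Agent.L1de93c
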