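import Pool.Agent.Lib_MP_1de93e_cont.Null
import Pool.Agent.Lib_MP_1de93e_cont.Pot

/-!
# PIECE E0: the basic energy estimate

With `G1 = a1 (H ·) δ - m1`, `A2 = a2`, `B1 = b1`, `G2 = b2 - m2` the hypotheses of `null_bound` hold
(`pot_contDiff`, `pot_closed`; constants do not change the derivatives; replace `U` by `U` itself).
Pointwise on the square: `dt (a1,a2) (b1,b2) = a1 b2 - a2 b1 ≤ c y` by `pot_dual` and `hJ`, so with
`χ y = (1 - y.1²)(1 - y.2²) ≥ 0`: `χ (a1 b2 - c) ≤ χ a2 b1`; integrate (all functions are continuous on the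
compact square) and apply `null_bound`.
-/

namespace Pool.Agent.L1de93c

open MeasureTheory Metric Set

theorem e0 {U : Set V} {H : V → V → ℝ} {H' : V → V → V →L[ℝ] ℝ} (h : HPC U H H')
    (hQ : closedBall (0 : V) 1 ⊆ U) {δ : ℝ} (hδ : 0 < δ) {c : V → ℝ}
    (hc : ContinuousOn c (closedBall 0 1))
    (hJ : ∀ y ∈ closedBall (0 : V) 1, ∀ a b : V, (∀ v, dot a v ≤ H y v) →
      (∀ v, dot b v ≤ H y v) → dt a b ≤ c y)
    {p m1 m2 : ℝ} (hp : 0 ≤ p)
    (bd : ∀ y ∈ closedBall (0 : V) 1, |a1 (H y) δ - m1| ≤ p ∧ |a2 (H y) δ| ≤ p ∧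
      |b1 (H y) δ| ≤ p ∧ |b2 (H y) δ - m2| ≤ p)
    (hz : ∫ s in (-1 : ℝ)..1, (1 - s ^ 2) * a2 (H (0, s)) δ = 0) :
    ∫ y in closedBall (0 : V) 1, (1 - y.1 ^ 2) * (1 - y.2 ^ 2) * (a1 (H y) δ * b2 (H y) δ - c y) ≤
      6 * p * ((∫ y in closedBall (0 : V) 1, |a1 (H y) δ - m1|) +
        ∫ y in closedBall (0 : V) 1, |b2 (H y) δ - m2|) := by
  obtain ⟨ca1, ca2, cb1, cb2⟩ := pot_contDiff h hδ
  have hK : IsCompact (closedBall (0 : V) 1) := isCompact_closedBall 0 1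
  have hms : MeasurableSet (closedBall (0 : V) 1) := isClosed_closedBall.measurableSet
  have ka1 := ca1.continuousOn.mono hQ
  have ka2 := ca2.continuousOn.mono hQ
  have kb1 := cb1.continuousOn.mono hQ
  have kb2 := cb2.continuousOn.mono hQ
  have kχ : ContinuousOn (fun y : V => (1 - y.1 ^ 2) * (1 - y.2 ^ 2)) (closedBall 0 1) := by
    fun_prop
  have hχ : ∀ y ∈ closedBall (0 : V) 1, 0 ≤ (1 - y.1 ^ 2) * (1 - y.2 ^ 2) := by
    intro y hy
    have hy' : ‖y‖ ≤ 1 := mem_closedBall_zero_iff.1 hy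
    have h1 := (abs_fst_le y).trans hy'
    have h2 := (abs_snd_le y).trans hy'
    have h3 := sq_le_one_iff_abs_le_one y.1 |>.2 h1
    have h4 := sq_le_one_iff_abs_le_one y.2 |>.2 h2
    exact mul_nonneg (by linarith) (by linarith)
  have i1 : IntegrableOn (fun y : V => (1 - y.1 ^ 2) * (1 - y.2 ^ 2) *
      (a1 (H y) δ * b2 (H y) δ - c y)) (closedBall 0 1) :=
    (kχ.mul ((ka1.mul kb2).sub hc)).integrableOn_compact hK
  have i2 : IntegrableOn (fun y : V => (1 - y.1 ^ 2) * (1 - y.2 ^ 2) *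
      (a2 (H y) δ * b1 (H y) δ)) (closedBall 0 1) :=
    (kχ.mul (ka2.mul kb1)).integrableOn_compact hK
  have step1 : ∫ y in closedBall (0 : V) 1,
      (1 - y.1 ^ 2) * (1 - y.2 ^ 2) * (a1 (H y) δ * b2 (H y) δ - c y) ≤
      ∫ y in closedBall (0 : V) 1, (1 - y.1 ^ 2) * (1 - y.2 ^ 2) *
        (a2 (H y) δ * b1 (H y) δ) := by
    refine setIntegral_mono_on i1 i2 hms fun y hy => ?_
    refine mul_le_mul_of_nonneg_left ?_ (hχ y hy)
    obtain ⟨d1, d2⟩ := pot_dual (h.norm y (hQ hy)) hδ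
    have := hJ y hy _ _ d1 d2
    simp only [dt] at this
    linarith
  have step2 := null_bound h.isOpen hQ (G1 := fun y => a1 (H y) δ - m1)
    (A2 := fun y => a2 (H y) δ) (B1 := fun y => b1 (H y) δ) (G2 := fun y => b2 (H y) δ - m2)
    (ca1.sub contDiffOn_const) ca2 cb1 (cb2.sub contDiffOn_const)
    (fun y hy => by
      rw [fderiv_sub_const]
      exact (pot_closed h hδ hy).1)
    (fun y hy => by
      rw [fderiv_sub_const]
      exact (pot_closed h hδ hy).2)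
    hp (fun y hy => (bd y hy).1) (fun y hy => (bd y hy).2.1) (fun y hy => (bd y hy).2.2.1)
    (fun y hy => (bd y hy).2.2.2) hz
  exact step1.trans ((le_abs_self _).trans step2)

end Pool.Agent.L1de93c
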