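import Pool.Agent.Lib_MP_1de93e_cont.SM

/-!
# PIECE ELN: difference quotients of norms near a Radon norm

## ELN `el_norms`: bounds for difference quotients.
Let `K₁ ≥ sup_{‖u‖=1} ‖cj N₀ u‖ + 1`. `fderiv N₀ (cj N₀ u) u = 0` (`fderiv_cj_self`) and uniform continuity of
`fderiv N₀` on compact sets off `0` (`‖cj N₀ u + t u‖ ≥ c₀/2` for all `t` since
`c₀ ≤ N₀ u = dt u (cj N₀ u + t u) ≤ 2 ‖cj N₀ u + t u‖`) give `η₁` with `|fderiv N₀ (cj N₀ u + t u) u| ≤ ω/2` for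
`|t| ≤ η₁`. Then apply `sm` with `ω' ≤ min (ω/2) (η₁ c₀/(2 K₁))`: for `w = cj N₀ u + t u`, `‖w‖ ≤ K₁`, and
`e = w/K₁`, `s = δ K₁ ≤ s₀`: `|(N' (u + δ w) - N' u)/δ - fderiv N₀ u w| ≤ ω' K₁` and `fderiv N₀ u w = t N₀ u`. For the
second, normalise `w`: `N' (w + δ u) - N' w = ‖w‖ (N' (w' + (δ/‖w‖) u) - N' w')`, `w' = w/‖w‖`, `δ/‖w‖ ≤ 2 δ/c₀ ≤ s₀`,
`fderiv N₀ w' = fderiv N₀ w`.
-/

namespace Pool.Agent.L1de93c

open MeasureTheory Metric Set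

private theorem eln_cj_bound {N₀ : V → ℝ} (h₀ : Nice N₀) :
    ∃ K > 0, ∀ u : V, u ≠ 0 → ‖cj N₀ u‖ ≤ K := by
  refine ⟨N₀ (1, 0) + N₀ (0, 1) + 1, ?_, fun u hu => ?_⟩
  · have h1 := h₀.toNormV.nonneg (1, 0)
    have h2 := h₀.toNormV.nonneg (0, 1)
    linarith
  · have h1 := h₀.toNormV.nonneg (1, 0)
    have h2 := h₀.toNormV.nonneg (0, 1)
    have h3 := h₀.abs_fderiv_le hu (1, 0)
    have h4 := h₀.abs_fderiv_le hu (0, 1)
    unfold cj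
    rw [Prod.norm_mk, Real.norm_eq_abs, Real.norm_eq_abs, abs_neg]
    exact max_le (by linarith) (by linarith)

/-- ELN -/
theorem el_norms {N₀ : V → ℝ} (h₀ : Nice N₀) {c₀ : ℝ} (hc₀ : 0 < c₀) (hb : ∀ v, c₀ * ‖v‖ ≤ N₀ v) :
    ∀ ω > 0, ∃ η₁ > 0, η₁ ≤ ω ∧ η₁ ≤ 1 ∧ ∃ ε₁ > 0, ∃ δ₁ > 0, ∀ N' : V → ℝ, NormV N' →
      (∀ v, |N' v - N₀ v| ≤ ε₁ * ‖v‖) → ∀ (u : V) (t δ : ℝ), ‖u‖ = 1 → |t| ≤ η₁ → 0 < δ → δ ≤ δ₁ →
        |(N' (u + δ • (cj N₀ u + t • u)) - N' u) / δ - t * N₀ u| ≤ η₁ * c₀ / 2 ∧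
        |(N' (cj N₀ u + t • u + δ • u) - N' (cj N₀ u + t • u)) / δ| ≤ ω := by
  intro ω hω
  obtain ⟨K, hK, hKb⟩ := eln_cj_bound h₀
  obtain ⟨K₁, hK₁⟩ : ∃ K₁ : ℝ, K₁ = K + 1 := ⟨_, rfl⟩
  have hK₁0 : 0 < K₁ := by linarith
  have hcomp : IsCompact (closedBall (0 : V) K₁ \ ball (0 : V) (c₀ / 2)) :=
    (isCompact_closedBall 0 K₁).diff isOpen_ball
  have hcs : closedBall (0 : V) K₁ \ ball (0 : V) (c₀ / 2) ⊆ {0}ᶜ := by
    rintro v hv (rfl : v = 0)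
    exact hv.2 (mem_ball_self (by linarith))
  have hU := hcomp.uniformContinuousOn_of_continuous (h₀.continuousOn_fderiv.mono hcs)
  obtain ⟨ρ, hρ, hunif⟩ := Metric.uniformContinuousOn_iff_le.1 hU (ω / 2) (by linarith)
  obtain ⟨η₁, hη0, hηω, hη1, hηρ⟩ : ∃ η₁ : ℝ, 0 < η₁ ∧ η₁ ≤ ω ∧ η₁ ≤ 1 ∧ η₁ ≤ ρ :=
    ⟨min ω (min 1 ρ), lt_min hω (lt_min one_pos hρ), min_le_left _ _,
      (min_le_right _ _).trans (min_le_left _ _), (min_le_right _ _).trans (min_le_right _ _)⟩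
  obtain ⟨ω', hω'0, hω'1, hω'2⟩ : ∃ ω' : ℝ, 0 < ω' ∧ ω' ≤ ω / 2 ∧ ω' ≤ η₁ * c₀ / (2 * K₁) :=
    ⟨min (ω / 2) (η₁ * c₀ / (2 * K₁)), lt_min (by linarith) (by positivity), min_le_left _ _,
      min_le_right _ _⟩
  obtain ⟨s₀, hs₀, ε₀, hε₀, hsm⟩ := sm h₀ hω'0
  refine ⟨η₁, hη0, hηω, hη1, ε₀, hε₀, min (s₀ / K₁) (s₀ * c₀ / 2),
    lt_min (by positivity) (by positivity), ?_⟩
  intro N' hN' hnear u t δ hu ht hδ hδ1
  have hu0 : u ≠ 0 := by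
    rintro rfl
    rw [norm_zero] at hu
    exact zero_ne_one hu
  obtain ⟨w, hw⟩ : ∃ w : V, w = cj N₀ u + t • u := ⟨_, rfl⟩
  rw [← hw]
  have hwc : ‖w - cj N₀ u‖ ≤ η₁ := by
    rw [hw, add_sub_cancel_left, norm_smul, hu, mul_one, Real.norm_eq_abs]
    exact ht
  have hwK : ‖w‖ ≤ K₁ := by
    have h1 : w = cj N₀ u + (w - cj N₀ u) := by abel
    rw [h1]
    refine (norm_add_le _ _).trans ?_
    have h2 := hKb u hu0
    linarith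
  have hlow : ∀ z : V, dt u z = N₀ u → c₀ / 2 ≤ ‖z‖ := by
    intro z hz
    have h1 := abs_dt_le u z
    have h2 := hb u
    rw [hz, hu, mul_one] at h1
    rw [hu, mul_one] at h2
    have h3 := le_abs_self (N₀ u)
    linarith
  have hcl : c₀ / 2 ≤ ‖cj N₀ u‖ := hlow _ (h₀.dt_cj hu0)
  have hwl : c₀ / 2 ≤ ‖w‖ := by
    refine hlow _ ?_
    rw [hw, dt_add_right, dt_smul_right, dt_self, mul_zero, add_zero]
    exact h₀.dt_cj hu0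
  have hcd : |fderiv ℝ N₀ w u| ≤ ω / 2 := by
    have h1 := hunif w ⟨mem_closedBall_zero_iff.2 hwK, fun h => by
      have := mem_ball_zero_iff.1 h
      linarith⟩ (cj N₀ u) ⟨mem_closedBall_zero_iff.2 (by linarith [hKb u hu0]), fun h => by
      have := mem_ball_zero_iff.1 h
      linarith⟩ (by rw [dist_eq_norm]; linarith)
    rw [dist_eq_norm] at h1
    have h2 := (fderiv ℝ N₀ w - fderiv ℝ N₀ (cj N₀ u)).le_opNorm u
    rw [hu, mul_one, sub_apply, h₀.fderiv_cj_self hu0, sub_zero,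
      Real.norm_eq_abs] at h2
    exact h2.trans h1
  constructor
  · have hs : δ * K₁ ≤ s₀ := by
      have h1 := hδ1.trans (min_le_left _ _)
      rwa [le_div_iff₀ hK₁0] at h1
    have he : ‖K₁⁻¹ • w‖ ≤ 1 := by
      rw [norm_smul, norm_inv, Real.norm_eq_abs, abs_of_pos hK₁0, inv_mul_le_iff₀ hK₁0, mul_one]
      exact hwK
    have h1 := hsm N' hN' hnear u (K₁⁻¹ • w) (δ * K₁) hu he (mul_pos hδ hK₁0) hs
    have h2 : (δ * K₁) • K₁⁻¹ • w = δ • w := by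
      rw [smul_smul, mul_assoc, mul_inv_cancel₀ hK₁0.ne', mul_one]
    have h3 : fderiv ℝ N₀ u w = t * N₀ u := by
      rw [hw, map_add, Nice.fderiv_cj, map_smul, h₀.fderiv_self hu0, zero_add, smul_eq_mul]
    have h4 : δ * K₁ * fderiv ℝ N₀ u (K₁⁻¹ • w) = δ * (t * N₀ u) := by
      rw [map_smul, smul_eq_mul, h3]
      field_simp
    rw [h2, h4] at h1
    have h5 : (N' (u + δ • w) - N' u) / δ - t * N₀ u =
        (N' (u + δ • w) - N' u - δ * (t * N₀ u)) / δ := by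
      field_simp
    rw [h5, abs_div, abs_of_pos hδ, div_le_iff₀ hδ]
    refine h1.trans ?_
    have h6 : ω' * K₁ ≤ η₁ * c₀ / 2 := by
      rw [le_div_iff₀ (by positivity)] at hω'2
      linarith
    nlinarith
  · have hwp : 0 < ‖w‖ := by linarith
    have hs : δ / ‖w‖ ≤ s₀ := by
      have h1 := hδ1.trans (min_le_right _ _)
      rw [div_le_iff₀ hwp]
      nlinarith
    have hn : ‖‖w‖⁻¹ • w‖ = 1 := by
      rw [norm_smul, norm_inv, norm_norm, inv_mul_cancel₀ hwp.ne']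
    have h1 := hsm N' hN' hnear (‖w‖⁻¹ • w) u (δ / ‖w‖) hn hu.le (div_pos hδ hwp) hs
    rw [h₀.fderiv_smul_pos (inv_pos.mpr hwp)] at h1
    have h2 : N' (‖w‖⁻¹ • w + (δ / ‖w‖) • u) = ‖w‖⁻¹ * N' (w + δ • u) := by
      rw [← hN'.smul_nonneg (inv_nonneg.mpr hwp.le), smul_add, smul_smul, div_eq_inv_mul]
    rw [h2, hN'.smul_nonneg (inv_nonneg.mpr hwp.le)] at h1
    have h3 : ‖w‖⁻¹ * N' (w + δ • u) - ‖w‖⁻¹ * N' w - δ / ‖w‖ * fderiv ℝ N₀ w u =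
        ((N' (w + δ • u) - N' w) - δ * fderiv ℝ N₀ w u) / ‖w‖ := by
      field_simp
    rw [h3, abs_div, abs_of_pos hwp, ← mul_div_assoc] at h1
    have h4 : |N' (w + δ • u) - N' w - δ * fderiv ℝ N₀ w u| ≤ ω' * δ :=
      (div_le_div_iff_of_pos_right hwp).mp h1
    rw [abs_div, abs_of_pos hδ, div_le_iff₀ hδ]
    have h5 : |N' (w + δ • u) - N' w| ≤
        |N' (w + δ • u) - N' w - δ * fderiv ℝ N₀ w u| + |δ * fderiv ℝ N₀ w u| := by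
      have := abs_add_le (N' (w + δ • u) - N' w - δ * fderiv ℝ N₀ w u) (δ * fderiv ℝ N₀ w u)
      rwa [sub_add_cancel] at this
    have h6 : |δ * fderiv ℝ N₀ w u| ≤ δ * (ω / 2) := by
      rw [abs_mul, abs_of_pos hδ]
      exact mul_le_mul_of_nonneg_left hcd hδ.le
    nlinarith

end Pool.Agent.L1de93c
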