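import Pool.Agent.Lib_MP_1de93e_cont.ELA
import Pool.Agent.Lib_MP_1de93e_cont.ELN

/-!
# PIECE ELB: the energy estimate for conjugate pairs

## ELB `el`: choice of the parameters (use `el_norms` for the first two bullets).
Let `c₀ ‖v‖ ≤ N₀ v ≤ C₀ ‖v‖`, `K₀ = sup_{‖u‖=1} ‖cj N₀ u‖`, `K₁ = K₀ + 1`, `ρ = 2 K₁ / c₀`,
`R = max 1 (ρ (K₁ + 1))`. For `‖u‖ = 1`, `|t| ≤ 1` let `w = cj N₀ u + t u` (`dt u w = N₀ u`) and `T = T_t` the
linear map with `T (1,0) = ρ u`, `T (0,1) = ρ w`. `T y = ρ (y₁ u + y₂ w)`, so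
`T (closedBall 0 1) ⊆ closedBall 0 R`, and `z = T y` with `y = (dt z w, dt u z)/(ρ N₀ u)`, so
`closedBall 0 (1/2) ⊆ T (closedBall 0 (1/2))`. `detT T = ρ² N₀ u`.
Given `η`, fix `0 < η₁ ≤ min η 1` and `ω > 0` small, with `ω K₁ < η₁ c₀` (constants below), then `s₀, ε₀` of
`sm` for `ω`, and let `ε ≤ ε₀/2` small. Let `F` be as in `Loc N₀ R ε Θ U F`, `Θ > 0`. Let `H = Stk F s`, `s` so
small that `|H - F| ≤ ε' ‖v‖` on `closedBall 0 R` where `ε' > 0` is as small as we like (depending on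
`Θ`) ; in particular `H y` is `2 ε`-near `N₀`. For `0 < δ` with `δ K₁ ≤ s₀`, `2 δ / c₀ ≤ s₀`:
* `a2 (G y) δ = ρ (H z (u + δ w) - H z u)/δ`, `z = T y`; by `sm` (`e = w/K₁`, `s = δ K₁`):
  `|a2 - ρ t N₀ u| ≤ ρ ω K₁` (`fderiv N₀ u w = t N₀ u`). So the continuous function
  `t ↦ ∫_{-1}^1 (1 - s²) a2 (G_t (0,s)) δ ds` is positive for `t = η₁` and negative for `t = -η₁`: it
  vanishes for some `|t| ≤ η₁`; fix this `t`. `|a2| ≤ ρ (η₁ C₀ + ω K₁)`.
* `b1 (G y) δ = ρ (H z (w + δ u) - H z w)/δ`; `‖w‖ ≥ c₀/2` since `c₀ ≤ dt u w ≤ 2 ‖w‖`; by `sm` at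
  `w/‖w‖`: `|b1 - ρ fderiv N₀ w u| ≤ ρ ω`; `fderiv N₀ (cj N₀ u) u = 0` (`fderiv_cj_self`) and uniform
  continuity of `fderiv N₀` give `|fderiv N₀ w u| ≤ ω₂ (η₁) → 0` as `η₁ → 0`, uniformly in `u`.
* `|a1 (G y) δ - ρ H z u| ≤ 3 ρ C δ K₁` and `|b2 (G y) δ - ρ H z w| ≤ 3 ρ C δ` (`H z` is `C`-Lipschitz), as small
  as we like (`δ` may depend on `Θ`). Let `m1 = ρ av (F · u) 0 R`, `m2 = ρ av (F · w) 0 R`; then
  `|a1 - m1| ≤ 4 ρ ε + small`, and
  `∫_{closedBall 0 1} |a1 (G y) δ - m1| ≤ ρ ∫ |F (T y) u - av| + small ≤ ρ / (ρ² c₀) ∫_{closedBall 0 R} |F z u - av| dz +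
  small = (4 R² / (ρ c₀)) mo (F · u) 0 R + small ≤ C Θ`; the same for `b2` (`F z w = ‖w‖ F z (w/‖w‖)`).
* So `e0` gives, with `χ ≥ 9/16` on `closedBall 0 (1/2)`, `χ ≤ 1`, and
  `g y := F (T y) u * F (T y) w - rc (F (T y)) dt u w ≥ 0` (`rc_mul_le`), `c y = (1 + k)² ρ² N₀ u rc (F (T y))`
  (`k → 0` as `s → 0`): `(9/16) ρ² ∫_{closedBall 0 (1/2)} g ≤ 6 p * 2 C Θ + small` with
  `p = ρ max (η₁ C₀ + ω K₁) (ω + ω₂) + 4 ρ ε + small`. Finally change variables `z = T y`:
  `∫_{closedBall 0 (1/2)} (F z u F z w - rc (F z) dt u w) dz ≤ ρ² N₀ u ∫_{closedBall 0 (1/2)} g y dy`.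
  Choose `η₁`, `ω`, `ε` small (depending on `N₀, η` only) and the small terms (which may depend on
  `Θ > 0` and `F`) to get `≤ η Θ`; `‖w - cj N₀ u‖ = |t| ≤ η₁ ≤ η`.
-/

namespace Pool.Agent.L1de93c

open MeasureTheory Metric Set

theorem elb_det (T : V →L[ℝ] V) : T.det = detT T := by
  have h1 : T.det = LinearMap.det (T : V →ₗ[ℝ] V) := rfl
  rw [h1, ← LinearMap.det_toMatrix (Module.Basis.finTwoProd ℝ), Matrix.det_fin_two]
  simp only [LinearMap.toMatrix_apply, Module.Basis.finTwoProd_zero, Module.Basis.finTwoProd_one,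
    Module.Basis.coe_finTwoProd_repr, ContinuousLinearMap.coe_coe]
  simp [detT, dt]
  ring

/-- The linear map with columns `ρ u`, `ρ w`. -/
noncomputable def elbT (ρ : ℝ) (u w : V) : V →L[ℝ] V :=
  (ContinuousLinearMap.fst ℝ ℝ ℝ).smulRight (ρ • u) +
    (ContinuousLinearMap.snd ℝ ℝ ℝ).smulRight (ρ • w)

theorem elbT_apply (ρ : ℝ) (u w y : V) : elbT ρ u w y = ρ • (y.1 • u + y.2 • w) := by
  simp only [elbT, add_apply, ContinuousLinearMap.smulRight_apply,
    ContinuousLinearMap.coe_fst', ContinuousLinearMap.coe_snd']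
  rw [smul_comm, smul_comm y.2, smul_add]

theorem elbT_det (ρ : ℝ) (u w : V) : detT (elbT ρ u w) = ρ ^ 2 * dt u w := by
  unfold detT
  rw [elbT_apply, elbT_apply]
  simp only [one_smul, zero_smul, add_zero, zero_add, dt_smul_left, dt_smul_right]
  ring

theorem elb_injective {T : V →L[ℝ] V} (hT : detT T ≠ 0) : Function.Injective T := by
  intro a b hab
  have h0 : T (a - b) = 0 := by rw [map_sub, hab, sub_self]
  by_contra hne
  have h1 : ∀ v, dt (a - b) v = 0 := by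
    intro v
    have := dt_map T (a - b) v
    rw [h0] at this
    have h2 : detT T * dt (a - b) v = 0 := by rw [← this]; simp [dt]
    exact (mul_eq_zero.mp h2).resolve_left hT
  apply hne
  have h2 := h1 (0, 1)
  have h3 := h1 (1, 0)
  simp [dt] at h2 h3
  ext
  · linarith
  · linarith

/-- Change of variables for a linear map. -/
theorem elb_cov {T : V →L[ℝ] V} (hT : 0 < detT T) {S : Set V} (hS : MeasurableSet S) (g : V → ℝ) :
    ∫ z in T '' S, g z = detT T * ∫ y in S, g (T y) := by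
  have h1 := integral_image_eq_integral_abs_det_fderiv_smul volume hS
    (f := T) (f' := fun _ => T) (fun x _ => T.hasFDerivAt.hasFDerivWithinAt)
    ((elb_injective hT.ne').injOn) g
  rw [h1, elb_det, abs_of_pos hT, ← integral_const_mul]
  rfl

/-- Lipschitz estimate for the expression in `a1`. -/
theorem elb_avg {f : ℝ → ℝ} {δ L : ℝ} (hδ : 0 < δ) (hf : ContinuousOn f (Icc 0 δ)) (hL : 0 ≤ L)
    (hb : ∀ τ ∈ Icc 0 δ, |f τ - f 0| ≤ L * τ) :
    |(2 / δ) * (∫ τ in (0:ℝ)..δ, f τ) - f δ - f 0| ≤ 3 * L * δ := by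
  have hint : IntervalIntegrable f volume 0 δ := by
    apply ContinuousOn.intervalIntegrable
    rwa [uIcc_of_le hδ.le]
  have e1 : ∫ τ in (0:ℝ)..δ, (f τ - f 0) = (∫ τ in (0:ℝ)..δ, f τ) - δ * f 0 := by
    rw [intervalIntegral.integral_sub hint intervalIntegrable_const,
      intervalIntegral.integral_const, sub_zero, smul_eq_mul]
  have e2 : |∫ τ in (0:ℝ)..δ, (f τ - f 0)| ≤ L * δ * |δ - 0| := by
    rw [← Real.norm_eq_abs]
    apply intervalIntegral.norm_integral_le_of_norm_le_const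
    intro τ hτ
    rw [uIoc_of_le hδ.le] at hτ
    rw [Real.norm_eq_abs]
    refine (hb τ ⟨hτ.1.le, hτ.2⟩).trans ?_
    exact mul_le_mul_of_nonneg_left hτ.2 hL
  rw [sub_zero, abs_of_pos hδ] at e2
  have e3 := hb δ ⟨hδ.le, le_rfl⟩
  have e4 : (2 / δ) * (∫ τ in (0:ℝ)..δ, f τ) - f δ - f 0 =
      (2 / δ) * (∫ τ in (0:ℝ)..δ, (f τ - f 0)) - (f δ - f 0) := by
    rw [e1]; field_simp; ring
  rw [e4]
  have e5 : |(2 / δ) * ∫ τ in (0:ℝ)..δ, (f τ - f 0)| ≤ 2 * L * δ := by
    rw [abs_mul, abs_of_pos (by positivity)]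
    calc 2 / δ * |∫ τ in (0:ℝ)..δ, (f τ - f 0)| ≤ 2 / δ * (L * δ * δ) := by gcongr
      _ = 2 * L * δ := by field_simp
  have := abs_sub ((2 / δ) * ∫ τ in (0:ℝ)..δ, (f τ - f 0)) (f δ - f 0)
  linarith

theorem elb_a1 {N' : V → ℝ} (hN : NormV N') {L : ℝ} (hL : ∀ v, N' v ≤ L * ‖v‖)
    {ρ δ K : ℝ} (hρ : 0 < ρ) (hδ : 0 < δ) {u w : V} (hw : ‖w‖ ≤ K) (hL0 : 0 ≤ L) :
    |a1 (fun v => N' (elbT ρ u w v)) δ - ρ * N' u| ≤ ρ * (3 * L * K * δ) := by
  have hK : 0 ≤ K := (norm_nonneg _).trans hw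
  have h1 := elb_avg (f := fun τ => N' (u + τ • w)) (L := L * K) hδ
    (hN.continuous.comp (by fun_prop)).continuousOn (by positivity) (by
      intro τ hτ
      rw [zero_smul, add_zero]
      refine (hN.abs_sub_le _ _).trans ?_
      rw [add_sub_cancel_left, hN.smul_nonneg hτ.1]
      have := hL w
      have h3 : N' w ≤ L * K := this.trans (by gcongr)
      calc τ * N' w ≤ τ * (L * K) := by gcongr; exact hτ.1
        _ = L * K * τ := by ring)
  have e : ∀ τ : ℝ, N' (elbT ρ u w (1, τ)) = ρ * N' (u + τ • w) := by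
    intro τ
    rw [elbT_apply, hN.smul_nonneg hρ.le, one_smul]
  unfold a1
  simp only [e]
  rw [intervalIntegral.integral_const_mul]
  simp only [zero_smul, add_zero] at h1
  have e2 : 2 / δ * (ρ * ∫ t in (0:ℝ)..δ, N' (u + t • w)) - ρ * N' (u + δ • w) - ρ * N' u =
      ρ * (2 / δ * (∫ t in (0:ℝ)..δ, N' (u + t • w)) - N' (u + δ • w) - N' u) := by ring
  rw [e2, abs_mul, abs_of_pos hρ]
  gcongr
  linarith

theorem elb_b2 {N' : V → ℝ} (hN : NormV N') {L : ℝ} (hL : ∀ v, N' v ≤ L * ‖v‖)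
    {ρ δ : ℝ} (hρ : 0 < ρ) (hδ : 0 < δ) {u w : V} (hu : ‖u‖ = 1) (hL0 : 0 ≤ L) :
    |b2 (fun v => N' (elbT ρ u w v)) δ - ρ * N' w| ≤ ρ * (3 * L * δ) := by
  have h1 := elb_avg (f := fun τ => N' (τ • u + w)) (L := L) hδ
    (hN.continuous.comp (by fun_prop)).continuousOn hL0 (by
      intro τ hτ
      rw [zero_smul, zero_add]
      refine (hN.abs_sub_le _ _).trans ?_
      rw [add_sub_cancel_right, hN.smul_nonneg hτ.1]
      have := hL u
      rw [hu, mul_one] at this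
      calc τ * N' u ≤ τ * L := by gcongr; exact hτ.1
        _ = L * τ := by ring)
  have e : ∀ τ : ℝ, N' (elbT ρ u w (τ, 1)) = ρ * N' (τ • u + w) := by
    intro τ
    rw [elbT_apply, hN.smul_nonneg hρ.le, one_smul]
  unfold b2
  simp only [e]
  rw [intervalIntegral.integral_const_mul]
  simp only [zero_smul, zero_add] at h1
  have e2 : 2 / δ * (ρ * ∫ t in (0:ℝ)..δ, N' (t • u + w)) - ρ * N' (δ • u + w) - ρ * N' w =
      ρ * (2 / δ * (∫ t in (0:ℝ)..δ, N' (t • u + w)) - N' (δ • u + w) - N' w) := by ring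
  rw [e2, abs_mul, abs_of_pos hρ]
  gcongr

theorem elb_a2 {N' : V → ℝ} (hN : NormV N') {ρ δ : ℝ} (hρ : 0 < ρ) (u w : V) :
    a2 (fun v => N' (elbT ρ u w v)) δ = ρ * ((N' (u + δ • w) - N' u) / δ) := by
  unfold a2
  beta_reduce
  rw [elbT_apply, elbT_apply, hN.smul_nonneg hρ.le, hN.smul_nonneg hρ.le]
  simp only [one_smul, zero_smul, add_zero]
  ring

theorem elb_b1 {N' : V → ℝ} (hN : NormV N') {ρ δ : ℝ} (hρ : 0 < ρ) (u w : V) :
    b1 (fun v => N' (elbT ρ u w v)) δ = ρ * ((N' (w + δ • u) - N' w) / δ) := by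
  unfold b1
  beta_reduce
  rw [elbT_apply, elbT_apply, hN.smul_nonneg hρ.le, hN.smul_nonneg hρ.le]
  simp only [one_smul, zero_smul, zero_add]
  rw [add_comm (δ • u)]
  ring

/-- Upper bound by the integral over the large square. -/
theorem elb_mass {T : V →L[ℝ] V} (hT : 0 < detT T) {R : ℝ} {g : V → ℝ}
    (hg : ContinuousOn g (closedBall 0 R)) (hg0 : ∀ z ∈ closedBall (0 : V) R, 0 ≤ g z)
    (hTR : ∀ y ∈ closedBall (0 : V) 1, T y ∈ closedBall (0 : V) R) :
    detT T * ∫ y in closedBall (0 : V) 1, g (T y) ≤ ∫ z in closedBall (0 : V) R, g z := by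
  rw [← elb_cov hT measurableSet_closedBall g]
  apply setIntegral_mono_set
  · exact hg.integrableOn_compact (isCompact_closedBall _ _)
  · filter_upwards [ae_restrict_mem measurableSet_closedBall] with z hz using hg0 z hz
  · apply Filter.Eventually.of_forall
    rintro z ⟨y, hy, rfl⟩
    exact hTR y hy

/-- Lower bound by the integral over the small square. -/
theorem elb_inner {T : V →L[ℝ] V} (hT : 0 < detT T) {R : ℝ} {g : V → ℝ}
    (hg : ContinuousOn g (closedBall 0 R)) (hg0 : ∀ z ∈ closedBall (0 : V) R, 0 ≤ g z)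
    (hTR : ∀ y ∈ closedBall (0 : V) 1, T y ∈ closedBall (0 : V) R)
    (hin : closedBall (0 : V) (1 / 2) ⊆ T '' closedBall (0 : V) (1 / 2)) :
    ∫ z in closedBall (0 : V) (1 / 2), g z ≤ detT T * ∫ y in closedBall (0 : V) (1 / 2), g (T y) := by
  rw [← elb_cov hT measurableSet_closedBall g]
  have hsub : T '' closedBall (0 : V) (1 / 2) ⊆ closedBall 0 R := by
    rintro z ⟨y, hy, rfl⟩
    exact hTR y (closedBall_subset_closedBall (by norm_num) hy)
  have hcomp : IsCompact (T '' closedBall (0 : V) (1 / 2)) :=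
    (isCompact_closedBall _ _).image T.continuous
  apply setIntegral_mono_set
  · exact (hg.mono hsub).integrableOn_compact hcomp
  · filter_upwards [ae_restrict_mem hcomp.measurableSet] with z hz using hg0 z (hsub hz)
  · exact Filter.Eventually.of_forall hin

theorem elb_vol : (volume (closedBall (0 : V) 1)).toReal = 4 := by
  rw [volume_closedBall_real 0 (by norm_num)]; norm_num

/-- The main inequality, all parameters fixed. -/
theorem elb_main {U : Set V} {F : V → V → ℝ} (h : RP U F) {R : ℝ} (hR : closedBall (0 : V) R ⊆ U)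
    {u w : V} {ρ M ς k p I : ℝ} (hρ : 0 < ρ) (hD : 0 < dt u w) (hς : 0 ≤ ς)
    (hςM : ς ≤ M) (hk : 0 ≤ k) (hk1 : k ≤ 1)
    (hTR : ∀ y ∈ closedBall (0 : V) 1, elbT ρ u w y ∈ closedBall (0 : V) R)
    (hin : closedBall (0 : V) (1 / 2) ⊆ elbT ρ u w '' closedBall (0 : V) (1 / 2))
    (hM : ∀ z ∈ closedBall (0 : V) R, F z u ≤ M ∧ F z w ≤ M)
    {A B : V → ℝ} (hA : ContinuousOn A (closedBall 0 1)) (hB : ContinuousOn B (closedBall 0 1))
    (hA1 : ∀ y ∈ closedBall (0 : V) 1, |A y - ρ * F (elbT ρ u w y) u| ≤ ρ * ς)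
    (hB1 : ∀ y ∈ closedBall (0 : V) 1, |B y - ρ * F (elbT ρ u w y) w| ≤ ρ * ς)
    (hE : ∫ y in closedBall (0 : V) 1, (1 - y.1 ^ 2) * (1 - y.2 ^ 2) *
          (A y * B y - (1 + k) ^ 2 * (detT (elbT ρ u w) * rc (F (elbT ρ u w y)))) ≤ 6 * p * I) :
    ∫ z in closedBall (0 : V) (1 / 2), (F z u * F z w - rc (F z) * dt u w) ≤
      16 / 9 * dt u w * (6 * p * I + 4 * (ρ ^ 2 * (3 * M * ς + 3 * k * M ^ 2))) := by
  set T := elbT ρ u w with hT
  have hdet : detT T = ρ ^ 2 * dt u w := elbT_det ρ u w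
  have hdet0 : 0 < detT T := by rw [hdet]; positivity
  have hM0 : 0 ≤ M := hς.trans hςM
  set g : V → ℝ := fun z => F z u * F z w - rc (F z) * dt u w with hg
  have hg0 : ∀ z ∈ closedBall (0 : V) R, 0 ≤ g z := by
    intro z hz
    have := rc_mul_le (h.norm z (hR hz)) u w
    rw [abs_of_pos hD] at this
    simp only [hg]; linarith
  have hrcc : ContinuousOn (fun z => rc (F z)) (closedBall (0 : V) R) := by
    have h1 : ContinuousOn (lc F) (closedBall (0 : V) R) := (lc_continuousOn h.toHP).mono hR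
    refine (Real.continuous_exp.comp_continuousOn h1).congr fun z hz => ?_
    simp only [lc, Function.comp]
    rw [Real.exp_log (rc_pos (h.norm z (hR hz)))]
  have hFc : ∀ v, ContinuousOn (fun z => F z v) (closedBall (0 : V) R) := fun v =>
    (h.toHP.continuousOn_left v).mono hR
  have hgc : ContinuousOn g (closedBall (0 : V) R) :=
    ((hFc u).mul (hFc w)).sub (hrcc.mul continuousOn_const)
  have hTc : ContinuousOn T (closedBall (0 : V) 1) := T.continuous.continuousOn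
  have hgT : ContinuousOn (fun y => g (T y)) (closedBall (0 : V) 1) :=
    hgc.comp hTc hTR
  set χ : V → ℝ := fun y => (1 - y.1 ^ 2) * (1 - y.2 ^ 2) with hχ
  have hχc : Continuous χ := by simp only [hχ]; fun_prop
  have hχ0 : ∀ y ∈ closedBall (0 : V) 1, 0 ≤ χ y ∧ χ y ≤ 1 := by
    intro y hy
    rw [mem_closedBall_zero_iff] at hy
    have h1 := (abs_le.1 ((abs_fst_le y).trans hy))
    have h2 := (abs_le.1 ((abs_snd_le y).trans hy))
    have h3 : 0 ≤ 1 - y.1 ^ 2 := by nlinarith [h1.1, h1.2]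
    have h4 : 0 ≤ 1 - y.2 ^ 2 := by nlinarith [h2.1, h2.2]
    have h5 : 1 - y.1 ^ 2 ≤ 1 := by nlinarith [sq_nonneg y.1]
    have h6 : 1 - y.2 ^ 2 ≤ 1 := by nlinarith [sq_nonneg y.2]
    exact ⟨mul_nonneg h3 h4, by
      calc χ y = (1 - y.1 ^ 2) * (1 - y.2 ^ 2) := rfl
        _ ≤ 1 * 1 := mul_le_mul h5 h6 h4 (by norm_num)
        _ = 1 := by norm_num⟩
  have hχ1 : ∀ y ∈ closedBall (0 : V) (1 / 2), 9 / 16 ≤ χ y := by
    intro y hy
    rw [mem_closedBall_zero_iff] at hy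
    have h1 := (abs_le.1 ((abs_fst_le y).trans hy))
    have h2 := (abs_le.1 ((abs_snd_le y).trans hy))
    have h3 : 3 / 4 ≤ 1 - y.1 ^ 2 := by nlinarith [h1.1, h1.2]
    have h4 : 3 / 4 ≤ 1 - y.2 ^ 2 := by nlinarith [h2.1, h2.2]
    calc (9 : ℝ) / 16 = 3 / 4 * (3 / 4) := by norm_num
      _ ≤ (1 - y.1 ^ 2) * (1 - y.2 ^ 2) := mul_le_mul h3 h4 (by norm_num) (by linarith)
  -- step 1
  have s1 : ∫ z in closedBall (0 : V) (1 / 2), g z ≤
      detT T * ∫ y in closedBall (0 : V) (1 / 2), g (T y) := elb_inner hdet0 hgc hg0 hTR hin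
  -- step 2
  have hsub : closedBall (0 : V) (1 / 2) ⊆ closedBall 0 1 := closedBall_subset_closedBall (by norm_num)
  have hi1 : IntegrableOn (fun y => χ y * g (T y)) (closedBall (0 : V) 1) :=
    (hχc.continuousOn.mul hgT).integrableOn_compact (isCompact_closedBall _ _)
  have s2 : 9 / 16 * ∫ y in closedBall (0 : V) (1 / 2), g (T y) ≤
      ∫ y in closedBall (0 : V) 1, χ y * g (T y) := by
    rw [← integral_const_mul]
    calc ∫ y in closedBall (0 : V) (1 / 2), 9 / 16 * g (T y) ≤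
        ∫ y in closedBall (0 : V) (1 / 2), χ y * g (T y) := by
          apply setIntegral_mono_on
          · exact ((hgT.mono hsub).const_smul (9 / 16 : ℝ)).integrableOn_compact
              (isCompact_closedBall _ _)
          · exact hi1.mono_set hsub
          · exact measurableSet_closedBall
          · intro y hy
            exact mul_le_mul_of_nonneg_right (hχ1 y hy) (hg0 _ (hTR y (hsub hy)))
      _ ≤ _ := by
          apply setIntegral_mono_set hi1
          · filter_upwards [ae_restrict_mem measurableSet_closedBall] with y hy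
            exact mul_nonneg (hχ0 y hy).1 (hg0 _ (hTR y hy))
          · exact Filter.Eventually.of_forall hsub
  -- step 3
  have hrcT : ContinuousOn (fun y => rc (F (T y))) (closedBall (0 : V) 1) := hrcc.comp hTc hTR
  have s3 : ρ ^ 2 * ∫ y in closedBall (0 : V) 1, χ y * g (T y) ≤
      6 * p * I + 4 * (ρ ^ 2 * (3 * M * ς + 3 * k * M ^ 2)) := by
    rw [← integral_const_mul]
    have hi2 : IntegrableOn (fun y => χ y *
        (A y * B y - (1 + k) ^ 2 * (detT T * rc (F (T y))))) (closedBall (0 : V) 1) :=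
      (hχc.continuousOn.mul ((hA.mul hB).sub (continuousOn_const.mul
        (continuousOn_const.mul hrcT)))).integrableOn_compact (isCompact_closedBall _ _)
    calc ∫ y in closedBall (0 : V) 1, ρ ^ 2 * (χ y * g (T y)) ≤
        ∫ y in closedBall (0 : V) 1, (χ y * (A y * B y - (1 + k) ^ 2 * (detT T * rc (F (T y)))) +
          ρ ^ 2 * (3 * M * ς + 3 * k * M ^ 2)) := by
          apply setIntegral_mono_on
          · exact hi1.const_mul _
          · exact hi2.add (integrableOn_const (by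
              exact (isCompact_closedBall _ _).measure_lt_top.ne))
          · exact measurableSet_closedBall
          · intro y hy
            have hz := hTR y hy
            have hN := h.norm _ (hR hz)
            obtain ⟨m1, m2⟩ := hM _ hz
            have n1 := hN.nonneg u
            have n2 := hN.nonneg w
            have hr := rc_mul_le hN u w
            rw [abs_of_pos hD] at hr
            have hr0 : 0 ≤ rc (F (T y)) * dt u w := mul_nonneg (rc_pos hN).le hD.le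
            have hr1 : rc (F (T y)) * dt u w ≤ M ^ 2 := by
              refine hr.trans ?_
              rw [sq]
              exact mul_le_mul m1 m2 n2 hM0
            obtain ⟨x1, x2⟩ := abs_le.1 (hA1 y hy)
            obtain ⟨y1, y2⟩ := abs_le.1 (hB1 y hy)
            obtain ⟨c0, c1⟩ := hχ0 y hy
            have key : ρ ^ 2 * g (T y) ≤
                (A y * B y - (1 + k) ^ 2 * (detT T * rc (F (T y)))) +
                  ρ ^ 2 * (3 * M * ς + 3 * k * M ^ 2) := by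
              have q1 : ρ ^ 2 * (F (T y) u * F (T y) w) ≤ A y * B y + ρ ^ 2 * (3 * M * ς) := by
                have e : ρ ^ 2 * (F (T y) u * F (T y) w) - A y * B y =
                    (ρ * F (T y) u - A y) * (ρ * F (T y) w) + (ρ * F (T y) w - B y) * (ρ * F (T y) u) -
                    (ρ * F (T y) u - A y) * (ρ * F (T y) w - B y) := by ring
                have b1 : (ρ * F (T y) u - A y) * (ρ * F (T y) w) ≤ ρ * ς * (ρ * M) := by
                  apply mul_le_mul (by linarith) (by gcongr) (by positivity) (by positivity)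
                have b2 : (ρ * F (T y) w - B y) * (ρ * F (T y) u) ≤ ρ * ς * (ρ * M) := by
                  apply mul_le_mul (by linarith) (by gcongr) (by positivity) (by positivity)
                have b3 : |(ρ * F (T y) u - A y) * (ρ * F (T y) w - B y)| ≤ ρ * ς * (ρ * ς) := by
                  rw [abs_mul]
                  apply mul_le_mul _ _ (abs_nonneg _) (by positivity)
                  · rw [abs_sub_comm]; exact hA1 y hy
                  · rw [abs_sub_comm]; exact hB1 y hy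
                have b4 := (abs_le.1 b3).1
                have b5 : ρ * ς * (ρ * ς) ≤ ρ * ς * (ρ * M) := by gcongr
                linarith only [e, b1, b2, b4, b5]
              have q2 : (1 + k) ^ 2 * (detT T * rc (F (T y))) ≤
                  ρ ^ 2 * (rc (F (T y)) * dt u w) + ρ ^ 2 * (3 * k * M ^ 2) := by
                rw [hdet]
                have e : (1 + k) ^ 2 * (ρ ^ 2 * dt u w * rc (F (T y))) =
                    ρ ^ 2 * (rc (F (T y)) * dt u w) +
                      ρ ^ 2 * ((2 * k + k ^ 2) * (rc (F (T y)) * dt u w)) := by ring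
                rw [e]
                have b0 : k ^ 2 ≤ k := by
                  rw [sq]
                  exact mul_le_of_le_one_left hk hk1
                have b1 : 2 * k + k ^ 2 ≤ 3 * k := by linarith only [b0]
                have b2 : (2 * k + k ^ 2) * (rc (F (T y)) * dt u w) ≤ 3 * k * M ^ 2 :=
                  mul_le_mul b1 hr1 hr0 (by positivity)
                gcongr
              have e2 : ρ ^ 2 * g (T y) = ρ ^ 2 * (F (T y) u * F (T y) w) -
                  ρ ^ 2 * (rc (F (T y)) * dt u w) := by simp only [hg]; ring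
              rw [e2]
              linarith only [q1, q2]
            have hc : 0 ≤ ρ ^ 2 * (3 * M * ς + 3 * k * M ^ 2) := by positivity
            calc ρ ^ 2 * (χ y * g (T y)) = χ y * (ρ ^ 2 * g (T y)) := by ring
              _ ≤ χ y * ((A y * B y - (1 + k) ^ 2 * (detT T * rc (F (T y)))) +
                  ρ ^ 2 * (3 * M * ς + 3 * k * M ^ 2)) := mul_le_mul_of_nonneg_left key c0
              _ = χ y * (A y * B y - (1 + k) ^ 2 * (detT T * rc (F (T y)))) +
                  χ y * (ρ ^ 2 * (3 * M * ς + 3 * k * M ^ 2)) := by ring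
              _ ≤ _ := by
                  have := mul_le_mul_of_nonneg_right c1 hc
                  rw [one_mul] at this
                  linarith
      _ = (∫ y in closedBall (0 : V) 1, χ y * (A y * B y - (1 + k) ^ 2 * (detT T * rc (F (T y))))) +
          4 * (ρ ^ 2 * (3 * M * ς + 3 * k * M ^ 2)) := by
          rw [integral_add hi2 (integrableOn_const (by
              exact (isCompact_closedBall _ _).measure_lt_top.ne)), setIntegral_const,
            Measure.real, elb_vol, smul_eq_mul]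
      _ ≤ _ := by
          have := hE
          simp only [hχ]
          linarith
  calc ∫ z in closedBall (0 : V) (1 / 2), g z ≤
      detT T * ∫ y in closedBall (0 : V) (1 / 2), g (T y) := s1
    _ = 16 / 9 * dt u w * (ρ ^ 2 * (9 / 16 * ∫ y in closedBall (0 : V) (1 / 2), g (T y))) := by
        rw [hdet]; ring
    _ ≤ 16 / 9 * dt u w * (ρ ^ 2 * ∫ y in closedBall (0 : V) 1, χ y * g (T y)) := by gcongr
    _ ≤ _ := by gcongr

/-- Intermediate value argument for the parameter `t`. -/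
theorem elb_ivt {H : V → V → ℝ} {U' : Set V}
    (hH : ContinuousOn (fun p : V × V => H p.1 p.2) (U' ×ˢ univ)) {c u : V} {ρ δ η₁ R : ℝ}
    (hη : 0 < η₁) (hRU : closedBall (0 : V) R ⊆ U')
    (hz : ∀ t ∈ Icc (-η₁) η₁, ∀ y ∈ closedBall (0 : V) 1,
      elbT ρ u (c + t • u) y ∈ closedBall (0 : V) R)
    (hpos : ∀ σ ∈ Icc (-1 : ℝ) 1, 0 ≤ a2 (Lin (elbT ρ u (c + η₁ • u)) H (0, σ)) δ)
    (hneg : ∀ σ ∈ Icc (-1 : ℝ) 1, a2 (Lin (elbT ρ u (c + (-η₁) • u)) H (0, σ)) δ ≤ 0) :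
    ∃ t ∈ Icc (-η₁) η₁,
      ∫ σ in (-1 : ℝ)..1, (1 - σ ^ 2) * a2 (Lin (elbT ρ u (c + t • u)) H (0, σ)) δ = 0 := by
  have h1 : -η₁ ≤ η₁ := by linarith
  have h2 : (-1 : ℝ) ≤ 1 := by norm_num
  set f : ℝ → ℝ → ℝ := fun t σ =>
    (1 - (projIcc (-1 : ℝ) 1 h2 σ : ℝ) ^ 2) *
      a2 (Lin (elbT ρ u (c + (projIcc (-η₁) η₁ h1 t : ℝ) • u)) H
        (0, (projIcc (-1 : ℝ) 1 h2 σ : ℝ))) δ with hf
  have hmem : ∀ (t : ℝ) (σ : ℝ), elbT ρ u (c + (projIcc (-η₁) η₁ h1 t : ℝ) • u)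
      (0, (projIcc (-1 : ℝ) 1 h2 σ : ℝ)) ∈ U' := by
    intro t σ
    apply hRU
    apply hz _ (projIcc (-η₁) η₁ h1 t).2
    rw [mem_closedBall_zero_iff, Prod.norm_mk, norm_zero, Real.norm_eq_abs]
    have := (projIcc (-1 : ℝ) 1 h2 σ).2
    exact max_le (by norm_num) (abs_le.2 ⟨this.1, this.2⟩)
  have hcp : Continuous (fun q : ℝ × ℝ => ((projIcc (-η₁) η₁ h1 q.1 : ℝ))) :=
    continuous_subtype_val.comp (continuous_projIcc.comp continuous_fst)
  have hcs : Continuous (fun q : ℝ × ℝ => ((projIcc (-1 : ℝ) 1 h2 q.2 : ℝ))) :=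
    continuous_subtype_val.comp (continuous_projIcc.comp continuous_snd)
  have hHc : ∀ v : ℝ × ℝ, Continuous (fun q : ℝ × ℝ =>
      H (elbT ρ u (c + (projIcc (-η₁) η₁ h1 q.1 : ℝ) • u) (0, (projIcc (-1 : ℝ) 1 h2 q.2 : ℝ)))
        (elbT ρ u (c + (projIcc (-η₁) η₁ h1 q.1 : ℝ) • u) v)) := by
    intro v
    have e1 : Continuous (fun q : ℝ × ℝ =>
        ((elbT ρ u (c + (projIcc (-η₁) η₁ h1 q.1 : ℝ) • u) (0, (projIcc (-1 : ℝ) 1 h2 q.2 : ℝ)),
          elbT ρ u (c + (projIcc (-η₁) η₁ h1 q.1 : ℝ) • u) v) : V × V)) := by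
      simp only [elbT_apply]
      fun_prop
    exact hH.comp_continuous e1 (fun q => ⟨hmem _ _, mem_univ _⟩)
  have hfc : Continuous (Function.uncurry f) := by
    simp only [hf, Function.uncurry_def, a2, Lin]
    exact (continuous_const.sub (hcs.pow 2)).mul (((hHc (1, δ)).sub (hHc (1, 0))).div_const δ)
  have hI : Continuous (fun t => ∫ σ in (-1 : ℝ)..1, f t σ) :=
    intervalIntegral.continuous_parametric_intervalIntegral_of_continuous' hfc _ _
  have hval : ∀ t ∈ Icc (-η₁) η₁, ∫ σ in (-1 : ℝ)..1, f t σ =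
      ∫ σ in (-1 : ℝ)..1, (1 - σ ^ 2) * a2 (Lin (elbT ρ u (c + t • u)) H (0, σ)) δ := by
    intro t ht
    apply intervalIntegral.integral_congr
    intro σ hσ
    rw [uIcc_of_le h2] at hσ
    simp only [hf]
    rw [projIcc_of_mem h1 ht, projIcc_of_mem h2 hσ]
  have hp : 0 ≤ ∫ σ in (-1 : ℝ)..1, f η₁ σ := by
    rw [hval _ ⟨h1, le_rfl⟩]
    apply intervalIntegral.integral_nonneg h2
    intro σ hσ
    exact mul_nonneg (by nlinarith [hσ.1, hσ.2]) (hpos σ hσ)
  have hn : ∫ σ in (-1 : ℝ)..1, f (-η₁) σ ≤ 0 := by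
    rw [hval _ ⟨le_rfl, h1⟩]
    have : 0 ≤ ∫ σ in (-1 : ℝ)..1,
        -((1 - σ ^ 2) * a2 (Lin (elbT ρ u (c + (-η₁) • u)) H (0, σ)) δ) := by
      apply intervalIntegral.integral_nonneg h2
      intro σ hσ
      have q : 0 ≤ 1 - σ ^ 2 := by nlinarith [hσ.1, hσ.2]
      have := hneg σ hσ
      nlinarith
    rw [intervalIntegral.integral_neg] at this
    linarith
  obtain ⟨t, ht, ht0⟩ := intermediate_value_Icc h1 hI.continuousOn ⟨hn, hp⟩
  refine ⟨t, ht, ?_⟩
  rw [← hval t ht]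
  exact ht0

/-- `mo` depends only on the values on the square. -/
theorem elb_mo_congr {h g : V → ℝ} {x : V} {r : ℝ} (hr : 0 ≤ r) (e : ∀ y ∈ closedBall x r, h y = g y) :
    mo h x r = mo g x r := by
  have hm : ∀ y ∈ closedBall (0 : V) 1, x + r • y ∈ closedBall x r := by
    intro y hy
    rw [mem_closedBall_iff_norm, add_sub_cancel_left, norm_smul, Real.norm_of_nonneg hr]
    rw [mem_closedBall_zero_iff] at hy
    nlinarith
  have h1 : av h x r = av g x r := by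
    unfold av
    congr 1
    apply setIntegral_congr_fun measurableSet_closedBall
    intro y hy
    exact e _ (hm y hy)
  unfold mo
  congr 1
  apply setIntegral_congr_fun measurableSet_closedBall
  intro y hy
  simp only [h1, e _ (hm y hy)]

/-- The mass of the oscillation in the parallelogram. -/
theorem elb_osc {U : Set V} {F : V → V → ℝ} (h : RP U F) {R : ℝ} (hR0 : 0 < R)
    (hR : closedBall (0 : V) R ⊆ U)
    {T : V →L[ℝ] V} (hT : 0 < detT T) (hTR : ∀ y ∈ closedBall (0 : V) 1, T y ∈ closedBall (0 : V) R)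
    {v : V} {K Θ : ℝ} (hv : ‖v‖ ≤ K) (hΘ : 0 ≤ Θ)
    (hob : ∀ u : V, ‖u‖ = 1 → mo (fun y => F y u) 0 R ≤ Θ) :
    detT T * ∫ y in closedBall (0 : V) 1, |F (T y) v - av (fun y => F y v) 0 R| ≤ 4 * R ^ 2 * K * Θ := by
  have hFc : ContinuousOn (fun z => F z v) (closedBall (0 : V) R) :=
    (h.toHP.continuousOn_left v).mono hR
  have h1 := elb_mass (g := fun z => |F z v - av (fun y => F y v) 0 R|) hT
    (hFc.sub continuousOn_const).abs (fun z _ => abs_nonneg _) hTR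
  refine h1.trans ?_
  rw [integral_closedBall_scale hR0]
  have h2 : ∫ y in closedBall (0 : V) 1, |F (0 + R • y) v - av (fun y => F y v) 0 R| =
      4 * mo (fun y => F y v) 0 R := by
    unfold mo; ring
  rw [h2]
  have h3 : mo (fun y => F y v) 0 R ≤ K * Θ := by
    have hK : 0 ≤ K := (norm_nonneg _).trans hv
    by_cases hv0 : v = 0
    · have : mo (fun y => F y v) 0 R = mo (fun y => (0:ℝ) * F y v) 0 R := by
        apply elb_mo_congr hR0.le
        intro y hy
        rw [hv0, (h.norm y (hR hy)).zero, mul_zero]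
      rw [this, mo_const_mul, abs_zero, zero_mul]
      positivity
    · have hn : 0 < ‖v‖ := norm_pos_iff.mpr hv0
      have : mo (fun y => F y v) 0 R = mo (fun y => ‖v‖ * F y (‖v‖⁻¹ • v)) 0 R := by
        apply elb_mo_congr hR0.le
        intro y hy
        rw [(h.norm y (hR hy)).smul_nonneg (inv_nonneg.mpr hn.le), ← mul_assoc,
          mul_inv_cancel₀ hn.ne', one_mul]
      rw [this, mo_const_mul, abs_of_pos hn]
      have h4 := hob (‖v‖⁻¹ • v) (by
        rw [norm_smul, norm_inv, norm_norm, inv_mul_cancel₀ hn.ne'])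
      exact mul_le_mul hv h4 (mo_nonneg _ _ _) hK
  have h6 := mul_le_mul_of_nonneg_left h3 (sq_nonneg R)
  linarith only [h6]

theorem elb_thick {U : Set V} (hU : IsOpen U) {R : ℝ} (hR0 : 0 ≤ R)
    (hR : closedBall (0 : V) R ⊆ U) : ∃ σ > 0, closedBall (0 : V) (R + σ) ⊆ U := by
  obtain ⟨δ, hδ, h⟩ := (isCompact_closedBall (0 : V) R).exists_cthickening_subset_open hU hR
  refine ⟨δ, hδ, ?_⟩
  rw [cthickening_closedBall hδ.le hR0, add_comm] at h
  exact h

theorem elb_TR {u w : V} {ρ K : ℝ} (hρ : 0 ≤ ρ) (hu : ‖u‖ = 1) (hw : ‖w‖ ≤ K) :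
    ∀ y ∈ closedBall (0 : V) 1, elbT ρ u w y ∈ closedBall (0 : V) (max 1 (ρ * (K + 1))) := by
  intro y hy
  rw [mem_closedBall_zero_iff] at hy ⊢
  rw [elbT_apply, norm_smul, Real.norm_of_nonneg hρ]
  refine le_trans ?_ (le_max_right _ _)
  have h1 : ‖y.1 • u + y.2 • w‖ ≤ K + 1 := by
    refine (norm_add_le _ _).trans ?_
    rw [norm_smul, norm_smul, hu, mul_one]
    have e1 : ‖y.1‖ ≤ 1 := (norm_fst_le y).trans hy
    have e2 : ‖y.2‖ ≤ 1 := (norm_snd_le y).trans hy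
    have e3 : ‖y.2‖ * ‖w‖ ≤ 1 * K := mul_le_mul e2 hw (norm_nonneg _) (by norm_num)
    linarith
  gcongr

theorem elb_in {u w : V} {ρ K c₀ D : ℝ} (hc₀ : 0 < c₀) (hρ : ρ = 2 * K / c₀) (hK : 0 < K)
    (hu : ‖u‖ = 1) (hw : ‖w‖ ≤ K) (hK1 : 1 ≤ K) (hD : dt u w = D) (hDc : c₀ ≤ D) :
    closedBall (0 : V) (1 / 2) ⊆ elbT ρ u w '' closedBall (0 : V) (1 / 2) := by
  intro z hz
  rw [mem_closedBall_zero_iff] at hz
  have hD0 : 0 < D := hc₀.trans_le hDc
  have hρ0 : 0 < ρ := by rw [hρ]; positivity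
  have hρD : 2 * K ≤ ρ * D := by
    rw [hρ, div_mul_eq_mul_div, le_div_iff₀ hc₀]
    gcongr
  refine ⟨(dt z w / (ρ * D), dt u z / (ρ * D)), ?_, ?_⟩
  · rw [mem_closedBall_zero_iff, Prod.norm_mk]
    have e1 : |dt z w| ≤ K := by
      refine (abs_dt_le z w).trans ?_
      have : 2 * ‖z‖ ≤ 1 := by linarith
      nlinarith [norm_nonneg z, norm_nonneg w]
    have e2 : |dt u z| ≤ K := by
      refine (abs_dt_le u z).trans ?_
      rw [hu]
      linarith
    apply max_le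
    · rw [norm_div, Real.norm_eq_abs, Real.norm_eq_abs, abs_of_pos (by positivity : 0 < ρ * D),
        div_le_iff₀ (by positivity)]
      linarith
    · rw [norm_div, Real.norm_eq_abs, Real.norm_eq_abs, abs_of_pos (by positivity : 0 < ρ * D),
        div_le_iff₀ (by positivity)]
      linarith
  · rw [elbT_apply]
    have h1 := expand u w z
    rw [hD] at h1
    have h2 : z = D⁻¹ • (dt z w • u + dt u z • w) := by
      rw [← h1, smul_smul, inv_mul_cancel₀ hD0.ne', one_smul]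
    conv_rhs => rw [h2]
    rw [smul_add, smul_add, smul_smul, smul_smul, smul_smul, smul_smul]
    congr 2
    · field_simp
    · field_simp

/-- ELB -/
theorem el {N₀ : V → ℝ} (h₀ : Nice N₀) :
    ∃ R : ℝ, 1 ≤ R ∧ ∀ η > 0, ∃ ε > 0, ∀ Θ > 0, ∀ (U : Set V) (F : V → V → ℝ), Loc N₀ R ε Θ U F →
      ∀ u, ‖u‖ = 1 → ∃ w, ‖w - cj N₀ u‖ ≤ η ∧ dt u w = N₀ u ∧
        ∫ y in closedBall (0 : V) (1 / 2), (F y u * F y w - rc (F y) * dt u w) ≤ η * Θ := by
  have hN₀ := h₀.toNormV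
  obtain ⟨c₀, hc₀, hb⟩ := hN₀.exists_lower
  set C₀ : ℝ := N₀ (1, 0) + N₀ (0, 1) with hC₀
  have hC₀0 : 0 < C₀ := by
    have h1 := hN₀.pos (1, 0) (by simp)
    have h2 := hN₀.nonneg (0, 1)
    linarith
  have hup : ∀ v, N₀ v ≤ C₀ * ‖v‖ := hN₀.le_mul_norm
  have hcC : c₀ ≤ C₀ := by
    have h1 := hb (1, 0)
    have h2 := hup (1, 0)
    have h3 : ‖((1, 0) : V)‖ = 1 := by simp
    rw [h3] at h1 h2
    linarith
  obtain ⟨K₀, hK₀⟩ := (isCompact_sphere (0 : V) 1).exists_bound_of_continuousOn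
    (h₀.continuousOn_cj.mono (fun u hu => by
      rw [mem_sphere_zero_iff_norm] at hu
      intro h0
      rw [mem_singleton_iff] at h0
      rw [h0, norm_zero] at hu
      norm_num at hu))
  have hK₀0 : 0 ≤ K₀ := (norm_nonneg _).trans (hK₀ (1, 0) (by simp))
  set K : ℝ := K₀ + 1 with hK
  have hK1 : 1 ≤ K := by linarith
  have hK0 : 0 < K := by linarith
  set ρ : ℝ := 2 * K / c₀ with hρ
  have hρ0 : 0 < ρ := by positivity
  set R : ℝ := max 1 (ρ * (K + 1)) with hR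
  have hR1 : 1 ≤ R := le_max_left _ _
  have hR0 : 0 < R := by linarith
  clear_value C₀ K ρ
  refine ⟨R, hR1, fun η hη => ?_⟩
  set C₅ : ℝ := 2 * C₀ + 1 with hC₅
  have hC₅0 : 0 < C₅ := by positivity
  set C₆ : ℝ := 4 * R ^ 2 * K / (ρ * c₀) + 1 with hC₆
  have hC₆0 : 0 < C₆ := by positivity
  set ω : ℝ := min η (η / (44 * C₀ * ρ * C₅ * C₆)) with hω
  have hω0 : 0 < ω := lt_min hη (by positivity)
  have hωη : ω ≤ η := min_le_left _ _
  have hω2 : 44 * C₀ * ρ * C₅ * C₆ * ω ≤ η := by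
    have : ω ≤ η / (44 * C₀ * ρ * C₅ * C₆) := min_le_right _ _
    rwa [le_div_iff₀ (by positivity), mul_comm] at this
  obtain ⟨η₁, hη₁, hη₁ω, hη₁1, ε₁, hε₁, δ₁, hδ₁, hnorm⟩ := el_norms h₀ hc₀ hb ω hω0
  set ε : ℝ := min (min (ε₁ / 2) (ω / (8 * K))) (min (c₀ / 2) (1 / 2)) with hε
  have hε0 : 0 < ε := by
    apply lt_min (lt_min (by positivity) (by positivity)) (lt_min (by positivity) (by norm_num))
  have hε_1 : ε ≤ ε₁ / 2 := (min_le_left _ _).trans (min_le_left _ _)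
  have hε_2 : ε ≤ ω / (8 * K) := (min_le_left _ _).trans (min_le_right _ _)
  have hε_3 : ε ≤ c₀ / 2 := (min_le_right _ _).trans (min_le_left _ _)
  have hε_4 : ε ≤ 1 / 2 := (min_le_right _ _).trans (min_le_right _ _)
  have hεK : ε * K ≤ ω / 8 := by
    rw [le_div_iff₀ (by positivity)] at hε_2
    linarith
  clear_value C₅ C₆ ω ε
  refine ⟨ε, hε0, fun Θ hΘ U F hL u hu => ?_⟩
  have hrp := hL.rp
  have hsub := hL.sub
  have hu0 : u ≠ 0 := by
    intro h0
    rw [h0, norm_zero] at hu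
    norm_num at hu
  -- bounds for F
  have hFlow : ∀ z ∈ closedBall (0 : V) R, ∀ v, c₀ / 2 * ‖v‖ ≤ F z v := by
    intro z hz v
    have h1 := (abs_le.1 (hL.near z hz v)).1
    have h2 := hb v
    have h3 : ε * ‖v‖ ≤ c₀ / 2 * ‖v‖ := by gcongr
    linarith
  have hFup : ∀ z ∈ closedBall (0 : V) R, ∀ v, F z v ≤ (C₀ + 1 / 2) * ‖v‖ := by
    intro z hz v
    have h1 := (abs_le.1 (hL.near z hz v)).2
    have h2 := hup v
    have h3 : ε * ‖v‖ ≤ 1 / 2 * ‖v‖ := by gcongr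
    linarith
  set M : ℝ := (C₀ + 1) * K with hM
  have hM0 : 0 < M := by positivity
  -- small parameters
  obtain ⟨ς, hς0, hςM, hςω, hςΘ, hς2⟩ : ∃ ς > 0, ς ≤ M ∧ ς ≤ ω / 2 ∧ 4 * ρ * ς ≤ Θ ∧
      16 / 9 * C₀ * (4 * (ρ ^ 2 * (3 * M * ς))) ≤ η / 4 * Θ := by
    refine ⟨min (min M (ω / 2)) (min (Θ / (4 * ρ)) (η / 4 * Θ / (16 / 9 * C₀ * (4 * (ρ ^ 2 * (3 * M)))))),
      ?_, ?_, ?_, ?_, ?_⟩
    · exact lt_min (lt_min hM0 (by positivity)) (lt_min (by positivity) (by positivity))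
    · exact (min_le_left _ _).trans (min_le_left _ _)
    · exact (min_le_left _ _).trans (min_le_right _ _)
    · have h1 := (min_le_right (min M (ω / 2)) (min (Θ / (4 * ρ))
        (η / 4 * Θ / (16 / 9 * C₀ * (4 * (ρ ^ 2 * (3 * M))))))).trans (min_le_left _ _)
      rw [le_div_iff₀ (by positivity)] at h1
      linarith
    · have h1 := (min_le_right (min M (ω / 2)) (min (Θ / (4 * ρ))
        (η / 4 * Θ / (16 / 9 * C₀ * (4 * (ρ ^ 2 * (3 * M))))))).trans (min_le_right _ _)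
      rw [le_div_iff₀ (by positivity)] at h1
      linarith
  obtain ⟨k, hk0, hk1, hk2⟩ : ∃ k > 0, k ≤ 1 ∧
      16 / 9 * C₀ * (4 * (ρ ^ 2 * (3 * k * M ^ 2))) ≤ η / 4 * Θ := by
    refine ⟨min 1 (η / 4 * Θ / (16 / 9 * C₀ * (4 * (ρ ^ 2 * (3 * M ^ 2))))), ?_, min_le_left _ _, ?_⟩
    · exact lt_min one_pos (by positivity)
    · have h1 := min_le_right 1 (η / 4 * Θ / (16 / 9 * C₀ * (4 * (ρ ^ 2 * (3 * M ^ 2)))))
      rw [le_div_iff₀ (by positivity)] at h1
      linarith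
  clear_value M
  -- the Steklov average
  set ε' : ℝ := min ε (min (ς / (2 * K)) (k * c₀ / 2)) with hε'
  have hε'0 : 0 < ε' := lt_min hε0 (lt_min (by positivity) (by positivity))
  have hε'1 : ε' ≤ ε := min_le_left _ _
  have hε'2 : ε' * K ≤ ς / 2 := by
    have h1 := (min_le_right ε (min (ς / (2 * K)) (k * c₀ / 2))).trans (min_le_left _ _)
    rw [le_div_iff₀ (by positivity)] at h1
    linarith
  have hε'3 : ε' ≤ k * c₀ / 2 := (min_le_right _ _).trans (min_le_right _ _)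
  obtain ⟨s₁, hs₁, hone⟩ := el_one hrp hsub
  obtain ⟨s₂, hs₂, hstk⟩ := stk_tendsto hrp.toHP (isCompact_closedBall (0 : V) R) hsub hε'0
  obtain ⟨σ, hσ, hthick⟩ := elb_thick hrp.isOpen hR0.le hsub
  set s : ℝ := min (min s₁ s₂) (σ / 2) with hs
  have hs0 : 0 < s := lt_min (lt_min hs₁ hs₂) (by positivity)
  have hss1 : s ≤ s₁ := (min_le_left _ _).trans (min_le_left _ _)
  have hss2 : s ≤ s₂ := (min_le_left _ _).trans (min_le_right _ _)
  have hss3 : s ≤ σ / 2 := min_le_right _ _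
  set H : V → V → ℝ := Stk F s with hH
  have hHF : ∀ z ∈ closedBall (0 : V) R, ∀ v, |H z v - F z v| ≤ ε' * ‖v‖ := hstk s hs0 hss2
  obtain ⟨H', hHPC⟩ := stk_hpc hrp.toHP hs0 (U' := ball 0 (R + σ / 2)) isOpen_ball
    (convex_ball _ _) (by
      intro x hx
      refine Subset.trans ?_ hthick
      intro y hy
      rw [mem_ball_zero_iff] at hx
      rw [mem_closedBall_iff_norm] at hy
      rw [mem_closedBall_zero_iff]
      have := norm_add_le (y - x) x
      rw [sub_add_cancel] at this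
      linarith)
  have hRU' : closedBall (0 : V) R ⊆ ball 0 (R + σ / 2) := by
    intro y hy
    rw [mem_closedBall_zero_iff] at hy
    rw [mem_ball_zero_iff]
    linarith
  have hHN : ∀ z ∈ closedBall (0 : V) R, NormV (H z) := fun z hz => hHPC.norm z (hRU' hz)
  have hHN₀ : ∀ z ∈ closedBall (0 : V) R, ∀ v, |H z v - N₀ v| ≤ ε₁ * ‖v‖ := by
    intro z hz v
    have h1 := hHF z hz v
    have h2 := hL.near z hz v
    have h3 := abs_sub_le (H z v) (F z v) (N₀ v)
    have h4 : ε' * ‖v‖ ≤ ε * ‖v‖ := by gcongr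
    have h5 : 2 * ε * ‖v‖ ≤ ε₁ * ‖v‖ := by gcongr; linarith
    linarith
  have hHk : ∀ z ∈ closedBall (0 : V) R, ∀ v, H z v ≤ (1 + k) * F z v := by
    intro z hz v
    have h1 := (abs_le.1 (hHF z hz v)).2
    have h2 := hFlow z hz v
    have h3 : ε' * ‖v‖ ≤ k * c₀ / 2 * ‖v‖ := by gcongr
    have h4 : k * (c₀ / 2 * ‖v‖) ≤ k * F z v := by gcongr
    linarith only [h1, h3, h4]
  have hHL : ∀ z ∈ closedBall (0 : V) R, ∀ v, H z v ≤ (C₀ + 1) * ‖v‖ := by
    intro z hz v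
    have h1 := (abs_le.1 (hHF z hz v)).2
    have h2 := hFup z hz v
    have h3 : ε' * ‖v‖ ≤ 1 / 2 * ‖v‖ := by gcongr; linarith
    linarith
  -- the step δ
  set δ : ℝ := min δ₁ (ς / (6 * (C₀ + 1) * K)) with hδ
  have hδ0 : 0 < δ := lt_min hδ₁ (by positivity)
  have hδ1 : δ ≤ δ₁ := min_le_left _ _
  have hδ2 : 3 * (C₀ + 1) * K * δ ≤ ς / 2 := by
    have h1 := min_le_right δ₁ (ς / (6 * (C₀ + 1) * K))
    rw [le_div_iff₀ (by positivity)] at h1
    linarith
  -- facts on w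
  have hcjK : ‖cj N₀ u‖ ≤ K₀ := hK₀ u (by rw [mem_sphere_zero_iff_norm]; exact hu)
  have hwK : ∀ t : ℝ, |t| ≤ η₁ → ‖cj N₀ u + t • u‖ ≤ K := by
    intro t ht
    refine (norm_add_le _ _).trans ?_
    rw [norm_smul, hu, mul_one, Real.norm_eq_abs]
    linarith
  have hwD : ∀ t : ℝ, dt u (cj N₀ u + t • u) = N₀ u := by
    intro t
    rw [dt_add_right, dt_smul_right, dt_self, mul_zero, add_zero, h₀.dt_cj hu0]
  have hTR : ∀ t : ℝ, |t| ≤ η₁ → ∀ y ∈ closedBall (0 : V) 1,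
      elbT ρ u (cj N₀ u + t • u) y ∈ closedBall (0 : V) R := fun t ht =>
    elb_TR hρ0.le hu (hwK t ht)
  have hNu : c₀ ≤ N₀ u := by
    have := hb u
    rwa [hu, mul_one] at this
  have hNu2 : N₀ u ≤ C₀ := by
    have := hup u
    rwa [hu, mul_one] at this
  -- intermediate value
  have ha2 : ∀ t : ℝ, |t| ≤ η₁ → ∀ y ∈ closedBall (0 : V) 1,
      |a2 (Lin (elbT ρ u (cj N₀ u + t • u)) H y) δ - ρ * (t * N₀ u)| ≤ ρ * (η₁ * c₀ / 2) := by
    intro t ht y hy
    have hz := hTR t ht y hy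
    have h1 := (hnorm (H _) (hHN _ hz) (hHN₀ _ hz) u t δ hu ht hδ0 hδ1).1
    have h2 := elb_a2 (N' := H (elbT ρ u (cj N₀ u + t • u) y)) (hHN _ hz) (δ := δ) hρ0 u
      (cj N₀ u + t • u)
    have h3 : a2 (Lin (elbT ρ u (cj N₀ u + t • u)) H y) δ = ρ *
        ((H (elbT ρ u (cj N₀ u + t • u) y) (u + δ • (cj N₀ u + t • u)) -
          H (elbT ρ u (cj N₀ u + t • u) y) u) / δ) := h2
    rw [h3, ← mul_sub, abs_mul, abs_of_pos hρ0]
    gcongr
  have hmemσ : ∀ τ ∈ Icc (-1 : ℝ) 1, ((0, τ) : V) ∈ closedBall (0 : V) 1 := by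
    intro τ hτ
    rw [mem_closedBall_zero_iff, Prod.norm_mk, norm_zero, Real.norm_eq_abs]
    exact max_le (by norm_num) (abs_le.2 ⟨hτ.1, hτ.2⟩)
  have hη₁abs : |η₁| ≤ η₁ := (abs_of_pos hη₁).le
  have hη₁abs' : |-η₁| ≤ η₁ := by rw [abs_neg]; exact hη₁abs
  obtain ⟨t, ht, hzero⟩ := elb_ivt (H := H) (U' := ball 0 (R + σ / 2)) hHPC.cont
    (c := cj N₀ u) (u := u) (ρ := ρ) (δ := δ) hη₁ hRU' (fun t ht => hTR t (abs_le.2 ht))
    (by
      intro τ hτ
      have h1 := (abs_le.1 (ha2 η₁ hη₁abs _ (hmemσ τ hτ))).1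
      have h2 : η₁ * c₀ ≤ η₁ * N₀ u := by gcongr
      have h3 : 0 ≤ ρ * (η₁ * N₀ u - η₁ * c₀ / 2) := by
        apply mul_nonneg hρ0.le
        have h4 : 0 < η₁ * c₀ := by positivity
        linarith only [h4, h2]
      rw [mul_sub] at h3
      linarith only [h1, h3])
    (by
      intro τ hτ
      have h1 := (abs_le.1 (ha2 (-η₁) hη₁abs' _ (hmemσ τ hτ))).2
      have h2 : η₁ * c₀ ≤ η₁ * N₀ u := by gcongr
      have h3 : 0 ≤ ρ * (η₁ * N₀ u - η₁ * c₀ / 2) := by
        apply mul_nonneg hρ0.le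
        have h4 : 0 < η₁ * c₀ := by positivity
        linarith only [h4, h2]
      have h5 : ρ * (-η₁ * N₀ u) = -(ρ * (η₁ * N₀ u)) := by ring
      rw [mul_sub] at h3
      rw [h5] at h1
      linarith only [h1, h3])
  have ht' : |t| ≤ η₁ := abs_le.2 ht
  set w : V := cj N₀ u + t • u with hw
  have hwK' : ‖w‖ ≤ K := hwK t ht'
  have hD : dt u w = N₀ u := hwD t
  have hD0 : 0 < dt u w := by rw [hD]; exact hc₀.trans_le hNu
  have hTR' : ∀ y ∈ closedBall (0 : V) 1, elbT ρ u w y ∈ closedBall (0 : V) R := hTR t ht'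
  have hdet : detT (elbT ρ u w) = ρ ^ 2 * dt u w := elbT_det ρ u w
  have hdet0 : 0 < detT (elbT ρ u w) := by rw [hdet]; positivity
  have hin : closedBall (0 : V) (1 / 2) ⊆ elbT ρ u w '' closedBall (0 : V) (1 / 2) :=
    elb_in hc₀ hρ hK0 hu hwK' hK1 hD hNu
  refine ⟨w, ?_, hD, ?_⟩
  · rw [hw, add_sub_cancel_left, norm_smul, hu, mul_one, Real.norm_eq_abs]
    linarith
  set T := elbT ρ u w with hT
  set A : V → ℝ := fun y => a1 (Lin T H y) δ with hA
  set B : V → ℝ := fun y => b2 (Lin T H y) δ with hB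
  -- continuity
  have hlin := hHPC.lin (T := T) hdet0.ne'
  have hpre : closedBall (0 : V) 1 ⊆ {y | T y ∈ ball (0 : V) (R + σ / 2)} := fun y hy =>
    hRU' (hTR' y hy)
  obtain ⟨hcA, -, -, hcB⟩ := pot_contDiff hlin hδ0
  have hAc : ContinuousOn A (closedBall 0 1) := hcA.continuousOn.mono hpre
  have hBc : ContinuousOn B (closedBall 0 1) := hcB.continuousOn.mono hpre
  -- closeness
  have hA1 : ∀ y ∈ closedBall (0 : V) 1, |A y - ρ * F (T y) u| ≤ ρ * ς := by
    intro y hy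
    have hz := hTR' y hy
    have h1 : |A y - ρ * H (T y) u| ≤ ρ * (3 * (C₀ + 1) * K * δ) :=
      elb_a1 (hHN _ hz) (hHL _ hz) hρ0 hδ0 hwK' (by positivity)
    have h2 := hHF _ hz u
    rw [hu, mul_one] at h2
    have h3 : |ρ * H (T y) u - ρ * F (T y) u| ≤ ρ * ε' := by
      rw [← mul_sub, abs_mul, abs_of_pos hρ0]; gcongr
    have h4 := abs_sub_le (A y) (ρ * H (T y) u) (ρ * F (T y) u)
    have h5 : ε' ≤ ε' * K := le_mul_of_one_le_right hε'0.le hK1
    have h6 : ρ * (3 * (C₀ + 1) * K * δ) + ρ * ε' ≤ ρ * ς := by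
      rw [← mul_add]
      gcongr
      linarith
    linarith
  have hB1 : ∀ y ∈ closedBall (0 : V) 1, |B y - ρ * F (T y) w| ≤ ρ * ς := by
    intro y hy
    have hz := hTR' y hy
    have h1 : |B y - ρ * H (T y) w| ≤ ρ * (3 * (C₀ + 1) * δ) :=
      elb_b2 (hHN _ hz) (hHL _ hz) hρ0 hδ0 hu (by positivity)
    have h2 := hHF _ hz w
    have h3 : |ρ * H (T y) w - ρ * F (T y) w| ≤ ρ * (ε' * K) := by
      rw [← mul_sub, abs_mul, abs_of_pos hρ0]
      have : ε' * ‖w‖ ≤ ε' * K := by gcongr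
      gcongr
      linarith
    have h4 := abs_sub_le (B y) (ρ * H (T y) w) (ρ * F (T y) w)
    have h5 : 3 * (C₀ + 1) * δ ≤ 3 * (C₀ + 1) * K * δ := by
      have : 3 * (C₀ + 1) * δ * 1 ≤ 3 * (C₀ + 1) * δ * K := by gcongr
      linarith
    have h6 : ρ * (3 * (C₀ + 1) * δ) + ρ * (ε' * K) ≤ ρ * ς := by
      rw [← mul_add]
      gcongr
      linarith
    linarith
  set m1 : ℝ := ρ * av (fun y => F y u) 0 R with hm1
  set m2 : ℝ := ρ * av (fun y => F y w) 0 R with hm2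
  have hFcont : ∀ v, ContinuousOn (fun z => F z v) (closedBall (0 : V) R) := fun v =>
    (hrp.toHP.continuousOn_left v).mono hsub
  have hav : ∀ v : V, ‖v‖ ≤ K → |av (fun y => F y v) 0 R - N₀ v| ≤ ω / 8 := by
    intro v hv
    apply abs_av_sub_le_of_sup hR0.le (hFcont v)
    intro y hy
    refine (hL.near y hy v).trans ?_
    have : ε * ‖v‖ ≤ ε * K := by gcongr
    linarith
  have hFN : ∀ v : V, ‖v‖ ≤ K → ∀ z ∈ closedBall (0 : V) R, |F z v - N₀ v| ≤ ω / 8 := by
    intro v hv z hz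
    refine (hL.near z hz v).trans ?_
    have : ε * ‖v‖ ≤ ε * K := by gcongr
    linarith
  have huK : ‖u‖ ≤ K := by rw [hu]; exact hK1
  set p : ℝ := ρ * (ω * C₅) with hp
  have hp0 : 0 ≤ p := by positivity
  have hωC : ω ≤ ω * C₅ := by
    have : 1 ≤ C₅ := by rw [hC₅]; linarith
    exact le_mul_of_one_le_right hω0.le this
  have hbd : ∀ y ∈ closedBall (0 : V) 1, |a1 (Lin T H y) δ - m1| ≤ p ∧
      |a2 (Lin T H y) δ| ≤ p ∧ |b1 (Lin T H y) δ| ≤ p ∧ |b2 (Lin T H y) δ - m2| ≤ p := by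
    intro y hy
    have hz := hTR' y hy
    have key : ∀ (X : ℝ) (v : V), ‖v‖ ≤ K → |X - ρ * F (T y) v| ≤ ρ * ς →
        |X - ρ * av (fun y => F y v) 0 R| ≤ p := by
      intro X v hv hX
      have h1 := hFN v hv _ hz
      have h2 := hav v hv
      have h3 : |ρ * F (T y) v - ρ * av (fun y => F y v) 0 R| ≤ ρ * (ω / 4) := by
        rw [← mul_sub, abs_mul, abs_of_pos hρ0]
        gcongr
        have := abs_sub_le (F (T y) v) (N₀ v) (av (fun y => F y v) 0 R)
        rw [abs_sub_comm (N₀ v)] at this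
        linarith
      have h4 := abs_sub_le X (ρ * F (T y) v) (ρ * av (fun y => F y v) 0 R)
      have h5 : ρ * ς + ρ * (ω / 4) ≤ p := by
        rw [← mul_add, hp]
        gcongr
        linarith
      linarith
    refine ⟨key _ u huK (hA1 y hy), ?_, ?_, key _ w hwK' (hB1 y hy)⟩
    · have h1 := ha2 t ht' y hy
      have h2 : |ρ * (t * N₀ u)| ≤ ρ * (ω * C₀) := by
        rw [abs_mul, abs_of_pos hρ0, abs_mul, abs_of_pos (hc₀.trans_le hNu)]
        have h9 : |t| ≤ ω := ht'.trans hη₁ω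
        have hn0 : 0 ≤ N₀ u := (hc₀.trans_le hNu).le
        exact mul_le_mul_of_nonneg_left (mul_le_mul h9 hNu2 hn0 hω0.le) hρ0.le
      have h3 := abs_sub_abs_le_abs_sub (a2 (Lin T H y) δ) (ρ * (t * N₀ u))
      have h4 : ρ * (η₁ * c₀ / 2) ≤ ρ * (ω * C₀ / 2) := by gcongr
      have h5 : ρ * (ω * C₀) + ρ * (ω * C₀ / 2) ≤ p := by
        rw [← mul_add, hp, hC₅]
        gcongr
        linarith only [mul_pos hω0 hC₀0, hω0]
      have h6 : |a2 (Lin T H y) δ - ρ * (t * N₀ u)| ≤ ρ * (η₁ * c₀ / 2) := h1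
      linarith
    · have h1 := (hnorm (H _) (hHN _ hz) (hHN₀ _ hz) u t δ hu ht' hδ0 hδ1).2
      have h2 : b1 (Lin T H y) δ = ρ * ((H (T y) (w + δ • u) - H (T y) w) / δ) :=
        elb_b1 (N' := H (T y)) (hHN _ hz) (δ := δ) hρ0 u w
      rw [h2, abs_mul, abs_of_pos hρ0, hp]
      have h3 : |(H (T y) (w + δ • u) - H (T y) w) / δ| ≤ ω := h1
      gcongr
      linarith
  -- masses
  have hmass : ∀ (X : V → ℝ) (v : V), ContinuousOn X (closedBall (0 : V) 1) → ‖v‖ ≤ K →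
      (∀ y ∈ closedBall (0 : V) 1, |X y - ρ * F (T y) v| ≤ ρ * ς) →
      ∫ y in closedBall (0 : V) 1, |X y - ρ * av (fun y => F y v) 0 R| ≤ C₆ * Θ := by
    intro X v hX hv hXF
    have hFT : ContinuousOn (fun y => F (T y) v) (closedBall (0 : V) 1) :=
      (hFcont v).comp T.continuous.continuousOn hTR'
    have h1 := elb_osc hrp hR0 hsub hdet0 hTR' hv hΘ.le
      (fun u' hu' => (hL.ob 0 R hR0 Subset.rfl).1 u' hu')
    have h2 : ∫ y in closedBall (0 : V) 1, |X y - ρ * av (fun y => F y v) 0 R| ≤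
        ∫ y in closedBall (0 : V) 1, (ρ * |F (T y) v - av (fun y => F y v) 0 R| + ρ * ς) := by
      apply setIntegral_mono_on
      · exact (hX.sub continuousOn_const).abs.integrableOn_compact (isCompact_closedBall _ _)
      · exact ((continuousOn_const.mul (hFT.sub continuousOn_const).abs).add
          continuousOn_const).integrableOn_compact (isCompact_closedBall _ _)
      · exact measurableSet_closedBall
      · intro y hy
        have h3 := abs_sub_le (X y) (ρ * F (T y) v) (ρ * av (fun y => F y v) 0 R)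
        have h4 : |ρ * F (T y) v - ρ * av (fun y => F y v) 0 R| =
            ρ * |F (T y) v - av (fun y => F y v) 0 R| := by
          rw [← mul_sub, abs_mul, abs_of_pos hρ0]
        have := hXF y hy
        linarith
    refine h2.trans ?_
    have hi : IntegrableOn (fun y => ρ * |F (T y) v - av (fun y => F y v) 0 R|)
        (closedBall (0 : V) 1) :=
      (continuousOn_const.mul (hFT.sub continuousOn_const).abs).integrableOn_compact
        (isCompact_closedBall _ _)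
    rw [integral_add hi (integrableOn_const (by
        exact (isCompact_closedBall _ _).measure_lt_top.ne)), setIntegral_const,
      Measure.real, elb_vol, smul_eq_mul, integral_const_mul]
    set J : ℝ := ∫ y in closedBall (0 : V) 1, |F (T y) v - av (fun y => F y v) 0 R| with hJ
    have hJ0 : 0 ≤ J := integral_nonneg (fun _ => abs_nonneg _)
    have h5 : ρ ^ 2 * c₀ * J ≤ 4 * R ^ 2 * K * Θ := by
      refine le_trans ?_ h1
      rw [hdet, hD]
      gcongr
    have h6 : ρ * J ≤ 4 * R ^ 2 * K / (ρ * c₀) * Θ := by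
      have e6 : 4 * R ^ 2 * K / (ρ * c₀) * Θ = 4 * R ^ 2 * K * Θ / (ρ * c₀) := by ring
      rw [e6, le_div_iff₀ (by positivity)]
      calc ρ * J * (ρ * c₀) = ρ ^ 2 * c₀ * J := by ring
        _ ≤ _ := h5
    calc ρ * J + 4 * (ρ * ς) ≤ 4 * R ^ 2 * K / (ρ * c₀) * Θ + Θ := by linarith
      _ = C₆ * Θ := by rw [hC₆]; ring
  have hI1 := hmass A u hAc huK hA1
  have hI2 := hmass B w hBc hwK' hB1
  have hE := hone T hdet0 hTR' s δ k p m1 m2 hs0 hss1 hδ0 hk0.le hp0 hHk hbd hzero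
  have hfin := elb_main hrp hsub (M := M) (ς := ς) (k := k) (p := p) hρ0 hD0 hς0.le hςM hk0.le hk1
    hTR' hin (by
      intro z hz
      have q1 := hFup z hz u
      have q2 := hFup z hz w
      rw [hu, mul_one] at q1
      constructor
      · have : (C₀ + 1) * 1 ≤ (C₀ + 1) * K := by gcongr
        linarith
      · have : (C₀ + 1 / 2) * ‖w‖ ≤ (C₀ + 1) * K := by
          apply mul_le_mul (by linarith) hwK' (norm_nonneg _) (by positivity)
        linarith) hAc hBc hA1 hB1 hE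
  refine hfin.trans ?_
  rw [hD]
  have g1 : 6 * p * ((∫ y in closedBall (0 : V) 1, |a1 (Lin T H y) δ - m1|) +
      ∫ y in closedBall (0 : V) 1, |b2 (Lin T H y) δ - m2|) ≤ 6 * p * (2 * (C₆ * Θ)) := by
    gcongr
    have e1 : ∫ y in closedBall (0 : V) 1, |a1 (Lin T H y) δ - m1| ≤ C₆ * Θ := hI1
    have e2 : ∫ y in closedBall (0 : V) 1, |b2 (Lin T H y) δ - m2| ≤ C₆ * Θ := hI2
    linarith
  have g0 : 0 ≤ 6 * p * (2 * (C₆ * Θ)) + 4 * (ρ ^ 2 * (3 * M * ς + 3 * k * M ^ 2)) := by positivity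
  calc 16 / 9 * N₀ u * (6 * p * ((∫ y in closedBall (0 : V) 1, |a1 (Lin T H y) δ - m1|) +
      ∫ y in closedBall (0 : V) 1, |b2 (Lin T H y) δ - m2|) +
      4 * (ρ ^ 2 * (3 * M * ς + 3 * k * M ^ 2))) ≤
      16 / 9 * N₀ u * (6 * p * (2 * (C₆ * Θ)) + 4 * (ρ ^ 2 * (3 * M * ς + 3 * k * M ^ 2))) := by
        have : 0 ≤ N₀ u := (hc₀.trans_le hNu).le
        gcongr
    _ ≤ 16 / 9 * C₀ * (6 * p * (2 * (C₆ * Θ)) + 4 * (ρ ^ 2 * (3 * M * ς + 3 * k * M ^ 2))) := by
        gcongr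
    _ = 64 / 3 * (C₀ * ρ * C₅ * C₆ * ω) * Θ + 16 / 9 * C₀ * (4 * (ρ ^ 2 * (3 * M * ς))) +
          16 / 9 * C₀ * (4 * (ρ ^ 2 * (3 * k * M ^ 2))) := by
        rw [hp]; ring
    _ ≤ η / 2 * Θ + η / 4 * Θ + η / 4 * Θ := by
        have q : 64 / 3 * (C₀ * ρ * C₅ * C₆ * ω) ≤ η / 2 := by
          have : 0 ≤ C₀ * ρ * C₅ * C₆ * ω := by positivity
          linarith
        have := mul_le_mul_of_nonneg_right q hΘ.le
        linarith
    _ = η * Θ := by ring

end Pool.Agent.L1de93c
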