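import Pool.Agent.Lib_MP_1de93e_cont.RC

/-!
# PIECE LIN: rescaling and linear changes of variables

* `HP.mono`: restriction to a smaller open convex set.
* `HP.lin`: `{y | T y ∈ U}` is open and convex; norms: `NormV.comp_map`;
  `DD (Lin T F) A B = DD F (T A) (T B)` (linearity). `RP.lin`: `Bk (N ∘ T) u v ↔ Bk N (T u) (T v)`.
  `HPC.lin`: chain rule; the derivative of `y ↦ H (T y) (T v)` is `(H' (T y) (T v)).comp T`.
* `HP.res`: `DD (Res F x r) A B = r⁻¹ * DD F (x + r • A) (x + r • B)` for `r > 0` since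
  `F z (r • v) = r F z v`; so the triangle inequality is inherited.
* `lc_lin`: `rc_comp` and `rc_pos`.
-/

namespace Pool.Agent.L1de93c

open MeasureTheory Metric Set

theorem HP.mono {U U' : Set V} {F : V → V → ℝ} (h : HP U F) (hU' : IsOpen U') (hc : Convex ℝ U')
    (hs : U' ⊆ U) : HP U' F := by
  exact ⟨hU', hc, h.cont.mono (prod_mono hs (subset_refl _)), fun x hx => h.norm x (hs hx),
    fun A hA B hB C hC => h.tri A (hs hA) B (hs hB) C (hs hC)⟩

theorem RP.mono {U U' : Set V} {F : V → V → ℝ} (h : RP U F) (hU' : IsOpen U') (hc : Convex ℝ U')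
    (hs : U' ⊆ U) : RP U' F := by
  exact ⟨h.toHP.mono hU' hc hs, fun x hx => h.sb x (hs hx)⟩

private theorem DD_lin (T : V →L[ℝ] V) (F : V → V → ℝ) (A B : V) :
    DD (Lin T F) A B = DD F (T A) (T B) := by
  unfold DD Lin
  simp only [map_add, map_smul, map_sub]

theorem HP.lin {U : Set V} {F : V → V → ℝ} (h : HP U F) {T : V →L[ℝ] V} (hT : detT T ≠ 0) :
    HP {y | T y ∈ U} (Lin T F) := by
  refine ⟨h.isOpen.preimage T.continuous, ?_, ?_, ?_, ?_⟩
  · intro a ha b hb s t hs ht hst
    change T (s • a + t • b) ∈ U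
    rw [map_add, map_smul, map_smul]
    exact h.convex ha hb hs ht hst
  · have h1 : ContinuousOn (fun p : V × V => ((T p.1, T p.2) : V × V)) ({y | T y ∈ U} ×ˢ univ) := by
      fun_prop
    exact h.cont.comp h1 (fun p hp => ⟨hp.1, mem_univ _⟩)
  · intro x hx
    exact (h.norm (T x) hx).comp_map hT
  · intro A hA B hB C hC
    rw [DD_lin, DD_lin, DD_lin]
    exact h.tri _ hA _ hB _ hC

private theorem Bk_comp {N : V → ℝ} {T : V →L[ℝ] V} {u v : V} :
    Bk (fun u => N (T u)) u v ↔ Bk N (T u) (T v) := by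
  unfold Bk
  simp only [map_add, map_smul]

/-- Symmetric orthogonality is invariant under linear isomorphisms and positive multiples. -/
theorem SB.comp {N : V → ℝ} (hs : SB N) {T : V →L[ℝ] V} (hT : detT T ≠ 0) :
    SB (fun u => N (T u)) := by
  have _ := hT
  intro u v huv
  rw [Bk_comp] at huv ⊢
  exact hs _ _ huv

theorem SB.mul {N : V → ℝ} (hs : SB N) {k : ℝ} (hk : 0 < k) : SB (fun u => k * N u) := by
  intro u v huv s
  have h1 : Bk N u v := fun s => le_of_mul_le_mul_left (huv s) hk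
  exact mul_le_mul_of_nonneg_left (hs u v h1 s) hk.le

theorem RP.lin {U : Set V} {F : V → V → ℝ} (h : RP U F) {T : V →L[ℝ] V} (hT : detT T ≠ 0) :
    RP {y | T y ∈ U} (Lin T F) := by
  exact ⟨h.toHP.lin hT, fun x hx => (h.sb (T x) hx).comp hT⟩

theorem HPC.lin {U : Set V} {H : V → V → ℝ} {H' : V → V → V →L[ℝ] ℝ} (h : HPC U H H')
    {T : V →L[ℝ] V} (hT : detT T ≠ 0) :
    HPC {y | T y ∈ U} (Lin T H) (fun y v => (H' (T y) (T v)).comp T) := by
  refine ⟨h.toHP.lin hT, ?_, ?_⟩
  · intro x hx v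
    exact (h.hasD (T x) hx (T v)).comp x T.hasFDerivAt
  · have h1 : ContinuousOn (fun p : V × V => ((T p.1, T p.2) : V × V)) ({y | T y ∈ U} ×ˢ univ) := by
      fun_prop
    have h2 : ContinuousOn (fun p : V × V => H' (T p.1) (T p.2)) ({y | T y ∈ U} ×ˢ univ) :=
      h.contD.comp h1 (fun p hp => ⟨hp.1, mem_univ _⟩)
    exact h2.clm_comp continuousOn_const

private theorem DD_res {U : Set V} {F : V → V → ℝ} (h : HP U F) (x : V) {r : ℝ} (hr : 0 < r)
    {A B : V} (hA : x + r • A ∈ U) (hB : x + r • B ∈ U) :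
    DD F (x + r • A) (x + r • B) = r * DD (Res F x r) A B := by
  unfold DD Res
  rw [← intervalIntegral.integral_const_mul]
  refine intervalIntegral.integral_congr fun t ht => ?_
  rw [uIcc_of_le zero_le_one] at ht
  have hz : x + r • (A + t • (B - A)) ∈ U := by
    have h1 : x + r • (A + t • (B - A)) = (1 - t) • (x + r • A) + t • (x + r • B) := by
      module
    rw [h1]
    exact h.convex hA hB (by linarith [ht.2]) ht.1 (by ring)
  have e1 : x + r • A + t • (x + r • B - (x + r • A)) = x + r • (A + t • (B - A)) := by module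
  have e2 : x + r • B - (x + r • A) = r • (B - A) := by module
  change F (x + r • A + t • (x + r • B - (x + r • A))) (x + r • B - (x + r • A)) =
    r * F (x + r • (A + t • (B - A))) (B - A)
  rw [e1, e2, (h.norm _ hz).smul_nonneg hr.le]

theorem HP.res {U : Set V} {F : V → V → ℝ} (h : HP U F) (x : V) {r : ℝ} (hr : 0 < r) :
    HP {y | x + r • y ∈ U} (Res F x r) := by
  have hcont : Continuous (fun y : V => x + r • y) := by fun_prop
  refine ⟨h.isOpen.preimage hcont, ?_, ?_, ?_, ?_⟩
  · intro a ha b hb s t hs ht hst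
    change x + r • (s • a + t • b) ∈ U
    have h1 : x + r • (s • a + t • b) = s • (x + r • a) + t • (x + r • b) := by
      have h2 : x = (s + t) • x := by rw [hst, one_smul]
      conv_lhs => rw [h2]
      module
    rw [h1]
    exact h.convex ha hb hs ht hst
  · have h1 : ContinuousOn (fun p : V × V => ((x + r • p.1, p.2) : V × V))
        ({y | x + r • y ∈ U} ×ˢ univ) := by
      fun_prop
    exact h.cont.comp h1 (fun p hp => ⟨hp.1, mem_univ _⟩)
  · intro y hy
    exact h.norm (x + r • y) hy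
  · intro A hA B hB C hC
    have h1 := h.tri _ hA _ hB _ hC
    rw [DD_res h x hr hA hC, DD_res h x hr hA hB, DD_res h x hr hB hC, ← mul_add] at h1
    exact le_of_mul_le_mul_left h1 hr

theorem RP.res {U : Set V} {F : V → V → ℝ} (h : RP U F) (x : V) {r : ℝ} (hr : 0 < r) :
    RP {y | x + r • y ∈ U} (Res F x r) := by
  exact ⟨h.toHP.res x hr, fun y hy => h.sb _ hy⟩

theorem lc_lin {F : V → V → ℝ} {T : V →L[ℝ] V} (hT : detT T ≠ 0) {y : V} (hN : NormV (F (T y))) :
    lc (Lin T F) y = Real.log |detT T| + lc F (T y) := by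
  unfold lc Lin
  rw [rc_comp hN hT, Real.log_mul (abs_ne_zero.mpr hT) (rc_pos hN).ne']

end Pool.Agent.L1de93c
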