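import Pool.Agent.Lib_MP_1de93e_cont.RDual1

/-!
# PIECE RDU2: Radon norms: the dual bound

(5) `dual_le_rc`: `K = {a | ∀ v, dot a v ≤ N v}` is compact, symmetric. Let `(a, b) ∈ K × K`
maximise `dt a b =: m`; `m > 0` (small multiples of the basis vectors are in `K` by `exists_lower`).
Let `e = (b.2, -b.1)/m`, `f = (-a.2, a.1)/m`: `dot a e = 1`, `dot b e = 0`, `dot a f = 0`,
`dot b f = 1`, `dt e f = 1/m`. For `c ∈ K`: `dt c b = m dot c e ≤ m` and `dt a c = m dot c f ≤ m`,
so `dot c e ≤ 1`, `dot c f ≤ 1` for all `c ∈ K`, hence `N e ≤ 1`, `N f ≤ 1` (for every `e` there is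
`c ∈ K` with `dot c e = N e`: Hahn-Banach, e.g. `exists_extension_of_le_sublinear`). As
`dot a (e + s f) = 1 ≥ N e`, we get `N e ≤ N (e + s f)`: `Bk N e f`; `N e = N f = 1`. By
`radon_eq`: `1 = N e N f = rc N dt e f = rc N / m`, so `m = rc N`.
-/

namespace Pool.Agent.L1de93c

open MeasureTheory Metric Set

/-- Hahn-Banach: a supporting functional. -/
private theorem RDU2_support {N : V → ℝ} (hN : NormV N) {e : V} (he : e ≠ 0) :
    ∃ c : V, (∀ v, dot c v ≤ N v) ∧ dot c e = N e := by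
  obtain ⟨g, hg, hgN⟩ := exists_extension_of_le_sublinear
    (LinearPMap.mkSpanSingleton e (N e) he : V →ₗ.[ℝ] ℝ) N
    (fun c hc x => by rw [hN.smul, abs_of_pos hc]) hN.add_le (by
      rintro ⟨x, hx⟩
      obtain ⟨t, rfl⟩ := Submodule.mem_span_singleton.mp hx
      have h0 : (LinearPMap.mkSpanSingleton e (N e) he : V →ₗ.[ℝ] ℝ) ⟨t • e, hx⟩ = t * N e :=
        LinearPMap.mkSpanSingleton'_apply _ _ _ _ _
      rw [h0]
      show t * N e ≤ N (t • e)
      rw [hN.smul]
      exact mul_le_mul_of_nonneg_right (le_abs_self t) (hN.nonneg e))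
  have hdot : ∀ v, dot (g (1, 0), g (0, 1)) v = g v := by
    intro v
    conv_rhs => rw [vec_eq v]
    rw [map_add, map_smul, map_smul]
    simp only [dot, smul_eq_mul]
    ring
  refine ⟨(g (1, 0), g (0, 1)), fun v => ?_, ?_⟩
  · rw [hdot]
    exact hgN v
  · rw [hdot]
    have h1 := hg ⟨e, Submodule.mem_span_singleton_self e⟩
    have h2 : (LinearPMap.mkSpanSingleton e (N e) he : V →ₗ.[ℝ] ℝ)
        ⟨e, Submodule.mem_span_singleton_self e⟩ = N e :=
      LinearPMap.mkSpanSingleton'_apply_self _ _ _ _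
    rw [h2] at h1
    exact h1

private theorem RDU2_compact {N : V → ℝ} (hN : NormV N) :
    IsCompact {a : V | ∀ v, dot a v ≤ N v} := by
  have hsub : {a : V | ∀ v, dot a v ≤ N v} ⊆
      Icc (-N (1, 0), -N (0, 1)) (N (1, 0), N (0, 1)) := by
    intro a ha
    have h1 := ha (1, 0)
    have h2 := ha (0, 1)
    have h3 := ha (-(1, 0))
    have h4 := ha (-(0, 1))
    rw [hN.neg] at h3 h4
    simp only [dot, Prod.fst_neg, Prod.snd_neg] at h1 h2 h3 h4
    refine ⟨⟨?_, ?_⟩, ⟨?_, ?_⟩⟩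
    · show -N (1, 0) ≤ a.1
      linarith
    · show -N (0, 1) ≤ a.2
      linarith
    · show a.1 ≤ N (1, 0)
      linarith
    · show a.2 ≤ N (0, 1)
      linarith
  have hcl : IsClosed {a : V | ∀ v, dot a v ≤ N v} := by
    have : {a : V | ∀ v, dot a v ≤ N v} = ⋂ v : V, {a : V | dot a v ≤ N v} := by
      ext a
      simp only [mem_ofPred_eq, mem_iInter]
    rw [this]
    refine isClosed_iInter fun v => isClosed_le ?_ continuous_const
    unfold dot
    fun_prop
  exact isCompact_Icc.of_isClosed_subset hcl hsub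

theorem dual_le_rc {N : V → ℝ} (hN : NormV N) (hs : SB N) {a b : V} (ha : ∀ v, dot a v ≤ N v)
    (hb : ∀ v, dot b v ≤ N v) : dt a b ≤ rc N := by
  have hK := RDU2_compact hN
  set K : Set V := {a : V | ∀ v, dot a v ≤ N v} with hKdef
  have hKK : IsCompact (K ×ˢ K) := hK.prod hK
  have hcont : ContinuousOn (fun q : V × V => dt q.1 q.2) (K ×ˢ K) := by
    unfold dt
    fun_prop
  obtain ⟨q, hq, hmax⟩ := hKK.exists_isMaxOn ⟨(a, b), ha, hb⟩ hcont
  obtain ⟨a0, b0⟩ := q
  have hab : dt a b ≤ dt a0 b0 := hmax (show (a, b) ∈ K ×ˢ K from ⟨ha, hb⟩)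
  refine hab.trans ?_
  have ha0 : ∀ v, dot a0 v ≤ N v := hq.1
  have hb0 : ∀ v, dot b0 v ≤ N v := hq.2
  rcases le_or_gt (dt a0 b0) 0 with hm | hm
  · refine hm.trans (Real.sInf_nonneg ?_)
    rintro _ ⟨u, w, _, rfl⟩
    exact mul_nonneg (hN.nonneg u) (hN.nonneg w)
  obtain ⟨m, hmdef⟩ : ∃ m, m = dt a0 b0 := ⟨_, rfl⟩
  rw [← hmdef] at hm ⊢
  have hm0 : m ≠ 0 := hm.ne'
  obtain ⟨e, he⟩ : ∃ e : V, e = (b0.2 / m, -b0.1 / m) := ⟨_, rfl⟩
  obtain ⟨f, hf⟩ : ∃ f : V, f = (-a0.2 / m, a0.1 / m) := ⟨_, rfl⟩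
  have hmd : a0.1 * b0.2 - a0.2 * b0.1 = m := hmdef.symm
  have ae : dot a0 e = 1 := by
    rw [he]
    simp only [dot]
    field_simp
    linear_combination hmd
  have af : dot a0 f = 0 := by
    rw [hf]
    simp only [dot]
    field_simp
    ring
  have bf : dot b0 f = 1 := by
    rw [hf]
    simp only [dot]
    field_simp
    linear_combination hmd
  have def' : dt e f = 1 / m := by
    rw [he, hf]
    simp only [dt]
    field_simp
    linear_combination hmd
  have ce : ∀ c : V, dt c b0 = m * dot c e := by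
    intro c
    rw [he]
    simp only [dot, dt]
    field_simp
    ring
  have cf : ∀ c : V, dt a0 c = m * dot c f := by
    intro c
    rw [hf]
    simp only [dot, dt]
    field_simp
    ring
  have he0 : e ≠ 0 := by
    rintro rfl
    simp [dot] at ae
  have hf0 : f ≠ 0 := by
    rintro rfl
    simp [dot] at bf
  have Ne1 : N e ≤ 1 := by
    obtain ⟨c, hc, hce⟩ := RDU2_support hN he0
    have h1 : dt c b0 ≤ m := by
      rw [hmdef]
      exact hmax (show (c, b0) ∈ K ×ˢ K from ⟨hc, hb0⟩)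
    rw [ce, hce] at h1
    exact le_of_mul_le_mul_left (by rw [mul_one]; exact h1) hm
  have Nf1 : N f ≤ 1 := by
    obtain ⟨c, hc, hcf⟩ := RDU2_support hN hf0
    have h1 : dt a0 c ≤ m := by
      rw [hmdef]
      exact hmax (show (a0, c) ∈ K ×ˢ K from ⟨ha0, hc⟩)
    rw [cf, hcf] at h1
    exact le_of_mul_le_mul_left (by rw [mul_one]; exact h1) hm
  have Ne : N e = 1 := le_antisymm Ne1 (by rw [← ae]; exact ha0 e)
  have Nf : N f = 1 := le_antisymm Nf1 (by rw [← bf]; exact hb0 f)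
  have hBk : Bk N e f := by
    intro s
    rw [Ne]
    have h1 := ha0 (e + s • f)
    rwa [dot_add_right, dot_smul_right, ae, af, mul_zero, add_zero] at h1
  have h1 := radon_eq hN hs hBk
  rw [Ne, Nf, def', abs_of_pos (one_div_pos.mpr hm)] at h1
  have h2 : m = rc N := by
    field_simp at h1
    exact h1
  exact h2.le

end Pool.Agent.L1de93c
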