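import Pool.Agent.Lib_MP_1de93e_cont.E0
import Pool.Agent.Lib_MP_1de93e_cont.Stk
import Pool.Agent.Lib_MP_1de93e_cont.LinB
import Pool.Agent.Lib_MP_1de93e_cont.MoB
import Pool.Agent.Lib_MP_1de93e_cont.RDual

/-!
# PIECE ELA: the energy estimate for one linear map

## ELA `el_one`: the estimate for one linear map.
Data: a norm field `F` (`RP U F`), `R ≥ 1`, `closedBall 0 R ⊆ U`, a linear map `T` with `D = detT T > 0`,
`T (closedBall 0 1) ⊆ closedBall 0 R`. For `s > 0` small let `H = Stk F s` and `G = Lin T H`, i.e.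
`G y v = H (T y) (T v)`; `HPC (T⁻¹ U') G _` with `U' = ball 0 (R + ρ)`, `closedBall 0 (R + 2 ρ) ⊆ U`.
Suppose (for the chosen `s, δ`) the bounds `|a2 (G y) δ|, |b1 (G y) δ| ≤ p`,
`|a1 (G y) δ - m1|, |b2 (G y) δ - m2| ≤ p` on `closedBall 0 1`, the zero condition `hz`, and
`H y v ≤ (1 + k) F y v` on `closedBall 0 R`. Then `e0` with `c y = (1 + k)² D rc (F (T y))`:
`hJ`: if `dot a v ≤ G y v` for all `v` then `dot a v ≤ (1 + k) F (T y) (T v)`, and
`N v = (1 + k) F (T y) (T v)` is a Radon norm with `rc N = (1 + k)² D rc (F (T y))` (`rc_comp`,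
`rc_mulN`), so `dual_le_rc` applies.
-/

namespace Pool.Agent.L1de93c

open MeasureTheory Metric Set

/-- ELA -/
theorem el_one {U : Set V} {F : V → V → ℝ} (h : RP U F) {R : ℝ} (hR : closedBall (0 : V) R ⊆ U) :
    ∃ s₁ > 0, ∀ T : V →L[ℝ] V, 0 < detT T → (∀ y ∈ closedBall (0 : V) 1, T y ∈ closedBall (0 : V) R) →
      ∀ (s δ k p m1 m2 : ℝ), 0 < s → s ≤ s₁ → 0 < δ → 0 ≤ k → 0 ≤ p →
      (∀ y ∈ closedBall (0 : V) R, ∀ v, Stk F s y v ≤ (1 + k) * F y v) →
      (∀ y ∈ closedBall (0 : V) 1, |a1 (Lin T (Stk F s) y) δ - m1| ≤ p ∧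
        |a2 (Lin T (Stk F s) y) δ| ≤ p ∧ |b1 (Lin T (Stk F s) y) δ| ≤ p ∧
        |b2 (Lin T (Stk F s) y) δ - m2| ≤ p) →
      (∫ σ in (-1 : ℝ)..1, (1 - σ ^ 2) * a2 (Lin T (Stk F s) (0, σ)) δ = 0) →
      ∫ y in closedBall (0 : V) 1, (1 - y.1 ^ 2) * (1 - y.2 ^ 2) *
          (a1 (Lin T (Stk F s) y) δ * b2 (Lin T (Stk F s) y) δ -
            (1 + k) ^ 2 * (detT T * rc (F (T y)))) ≤
        6 * p * ((∫ y in closedBall (0 : V) 1, |a1 (Lin T (Stk F s) y) δ - m1|) +
          ∫ y in closedBall (0 : V) 1, |b2 (Lin T (Stk F s) y) δ - m2|) := by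
  by_cases hR0 : 0 ≤ R
  swap
  · refine ⟨1, one_pos, fun T _ hTR => ?_⟩
    exfalso
    have h1 := hTR 0 (by simp)
    rw [mem_closedBall_zero_iff] at h1
    exact hR0 ((norm_nonneg _).trans h1)
  obtain ⟨δ₀, hδ₀, hsub⟩ := (isCompact_closedBall (0 : V) R).exists_cthickening_subset_open
    h.isOpen hR
  rw [cthickening_closedBall hδ₀.le hR0] at hsub
  refine ⟨δ₀ / 2, half_pos hδ₀, ?_⟩
  intro T hT hTR s δ k p m1 m2 hs hs1 hδ hk hp hkF bd hz
  -- the Steklov average is `C¹` in the base point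
  have hU' : ∀ x ∈ ball (0 : V) (R + δ₀ / 2), closedBall x s ⊆ U := by
    intro x hx z hz'
    apply hsub
    rw [mem_ball_zero_iff] at hx
    rw [mem_closedBall, dist_eq_norm] at hz'
    rw [mem_closedBall_zero_iff]
    have h1 : ‖z‖ ≤ ‖z - x‖ + ‖x‖ := by
      simpa using norm_add_le (z - x) x
    linarith
  obtain ⟨H', hH'⟩ := stk_hpc h.toHP hs isOpen_ball (convex_ball (0 : V) (R + δ₀ / 2)) hU'
  have hG := hH'.lin hT.ne'
  have hQ : closedBall (0 : V) 1 ⊆ {y | T y ∈ ball (0 : V) (R + δ₀ / 2)} := by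
    intro y hy
    have h1 := hTR y hy
    rw [mem_closedBall_zero_iff] at h1
    show T y ∈ ball (0 : V) (R + δ₀ / 2)
    rw [mem_ball_zero_iff]
    linarith
  have hTU : ∀ y ∈ closedBall (0 : V) 1, T y ∈ U := fun y hy => hR (hTR y hy)
  have hNT : ∀ y ∈ closedBall (0 : V) 1, NormV (fun v => F (T y) (T v)) := fun y hy =>
    (h.norm _ (hTU y hy)).comp_map hT.ne'
  have hk1 : 0 < 1 + k := by linarith
  have hNN : ∀ y ∈ closedBall (0 : V) 1, NormV (fun v => (1 + k) * F (T y) (T v)) := by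
    intro y hy
    have h1 := hNT y hy
    refine ⟨fun u hu => mul_pos hk1 (h1.pos u hu), fun a u => ?_, fun u v => ?_⟩
    · have h2 : F (T y) (T (a • u)) = |a| * F (T y) (T u) := h1.smul a u
      show (1 + k) * F (T y) (T (a • u)) = |a| * ((1 + k) * F (T y) (T u))
      rw [h2]; ring
    · have h2 : F (T y) (T (u + v)) ≤ F (T y) (T u) + F (T y) (T v) := h1.add_le u v
      show (1 + k) * F (T y) (T (u + v)) ≤ (1 + k) * F (T y) (T u) + (1 + k) * F (T y) (T v)
      rw [← mul_add]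
      exact mul_le_mul_of_nonneg_left h2 hk1.le
  have hrc : ∀ y ∈ closedBall (0 : V) 1, rc (fun v => (1 + k) * F (T y) (T v)) =
      (1 + k) ^ 2 * (detT T * rc (F (T y))) := by
    intro y hy
    rw [rc_mulN (hNT y hy) hk1.le, rc_comp (h.norm _ (hTU y hy)) hT.ne', abs_of_pos hT]
  -- continuity of the constant
  have hc : ContinuousOn (fun y => (1 + k) ^ 2 * (detT T * rc (F (T y)))) (closedBall 0 1) := by
    have h1 : ContinuousOn (fun y => Real.exp (lc F (T y))) (closedBall (0 : V) 1) := by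
      refine Real.continuous_exp.comp_continuousOn ?_
      exact (lc_continuousOn h.toHP).comp T.continuous.continuousOn hTU
    have h2 : ContinuousOn (fun y => rc (F (T y))) (closedBall (0 : V) 1) := by
      refine h1.congr fun y hy => ?_
      show rc (F (T y)) = Real.exp (Real.log (rc (F (T y))))
      rw [Real.exp_log (rc_pos (h.norm _ (hTU y hy)))]
    exact continuousOn_const.mul (continuousOn_const.mul h2)
  have key := e0 hG hQ hδ hc (fun y hy a b ha hb => ?_) hp bd hz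
  · exact key
  · rw [← hrc y hy]
    have hy' := hTR y hy
    refine dual_le_rc (hNN y hy) ?_ (fun v => ?_) (fun v => ?_)
    · exact ((h.sb _ (hTU y hy)).comp hT.ne').mul hk1
    · exact (ha v).trans (hkF _ hy' _)
    · exact (hb v).trans (hkF _ hy' _)

end Pool.Agent.L1de93c
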