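import Pool.Agent.Lib_MP_1de93e_cont.Transf
import Pool.Agent.Lib_1de93e.Final2

/-!
# Assembly: merely continuous Finsler functions with symmetric orthogonality in the tangent planes
-/

namespace Pool.Agent.L1de93c

open Set Pool.Agent.Lib_1de93e

theorem affine_full {M : Set Pl} {F d : Pl → Pl → ℝ} (hd : IsProjectiveMetric M d)
    (hF : IsFinsler M F) (hL : IsLengthMetric M F d) (hsym : ∀ x ∈ M, SymmBirkhoff (F x)) :
    (∀ P ∈ M, IsEuclidean (F P)) ∨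
      ∃ N : Pl → ℝ, IsNorm N ∧ SymmBirkhoff N ∧
        (∃ x₀ ∈ M, ∃ m : Pl →L[ℝ] ℝ, (∀ x ∈ M, 0 < 1 + m (x - x₀)) ∧
          ∀ P ∈ M, ∀ Q ∈ M, d P Q = N (prj x₀ m Q - prj x₀ m P)) ∧
        (IsCompleteMetric M d → M = univ ∧ ∀ P Q : Pl, d P Q = N (Q - P)) := by
  obtain ⟨h1, h2⟩ := FPlane_regular ⟨hd, hF, hL⟩ hsym
  exact (LPlane.of_tangent ⟨hd, hF, hL⟩ h1 h2 hsym).main

theorem elliptic_full {F D : E3 → E3 → ℝ} {ℓ : ℝ} (hD : IsEllipticMetric D ℓ) (hF : IsFinslerP2 F)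
    (hL : IsLengthMetricP2 F D)
    (hsym : ∀ x : E3, x ≠ 0 → ∀ u v : E3, (∀ s : ℝ, F x u ≤ F x (u + s • v)) →
      ∀ s : ℝ, F x v ≤ F x (v + s • u)) : ∀ x : E3, x ≠ 0 → IsEuclideanP2 (F x) := by
  apply elliptic_of_local hF
  intro T p
  obtain ⟨ρ, hρ, hsmall⟩ := exists_small_DT T hD p
  have hfp := fplane_ball T hF hL hD hρ hsmall
  have hs : ∀ x ∈ Metric.ball p ρ, SymmBirkhoff (FT T F x) := by
    intro x _ u v huv s
    have h1 := hsym (ptT T x) (ptT_ne_zero T x) (vecT T u) (vecT T v) (fun s => by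
      have := huv s
      unfold FT at this
      rwa [vecT_add, vecT_smul] at this) s
    unfold FT
    rwa [vecT_add, vecT_smul]
  obtain ⟨h1, h2⟩ := FPlane_regular hfp hs
  exact ⟨ρ, hρ, DT T D, kapT (FT T F), LPlane.of_tangent hfp h1 h2 hs⟩

end Pool.Agent.L1de93c
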