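import Pool.Agent.Lib_MP_1de93e_cont.LCdef

/-!
# PIECE HFE: high frequencies

`e_n y = exp (2 π i (n.1 y.1 + n.2 y.2))`, `Q = closedBall 0 (1/2) = [-1/2,1/2]²` (area `1`).
## HFE `hf`: high frequencies of `cut * g` in the direction `v`.
Let `S` be a finite set of frequencies with `nn n ≥ R`, `ĝ n = fc (cut * g) n`, `q n = v.1 n.1 + v.2 n.2`,
`D = ∑_{n ∈ S} q(n)²/nn(n)² |ĝ n|²`, `d n = q n conj(ĝ n)/nn(n)²`, `Ψ = ∑_{n ∈ S} d n e_{-n}` (complex, smooth).
`∂_v Ψ = ∑ d n (-2 π i q n) e_{-n}`, so `∫_Q cut g ∂_v Ψ = -2 π i D`. On the other hand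
`cut ∂_v Ψ = ∂_v (cut Ψ) - (∂_v cut) Ψ`, so `2 π D ≤ |∫_Q g ∂_v (cut Ψ)| + |∫_Q g (∂_v cut) Ψ|`
(only the imaginary part of `Ψ` is needed).
First term: apply `WK` to `cut Ψ` (support in `closedBall 0 (3/8)`):
`≤ 2 κ ‖∇(cut Ψ)‖_{L²(Q)}`, and `‖∇(cut Ψ)‖ ≤ C (‖∇Ψ‖ + ‖Ψ‖)`; by orthogonality of the `e_n` on `Q`
`‖Ψ‖² = ∑ |d n|² ≤ D / R²` and `‖∂_j Ψ‖² = ∑ (2π)² n_j² |d n|² ≤ (2π)² D`. Second term:
`≤ C ‖v‖ Θ ‖Ψ‖ ≤ C ‖v‖ Θ √D / R`. So `√D ≤ C (κ + ‖v‖ Θ / R)`. (All `L²` norms on `Q`; Cauchy-Schwarz.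
The constant depends only on `cut`.)
-/

namespace Pool.Agent.L1de93c

open MeasureTheory Metric Set
open scoped ContDiff

/-- The exponential `e_{-n}`. -/
noncomputable def hfeE (n : ℤ × ℤ) (y : V) : ℂ :=
  Complex.exp (-(2 * Real.pi * ((n.1 : ℝ) * y.1 + (n.2 : ℝ) * y.2) : ℝ) * Complex.I)

/-- The phase. -/
noncomputable def hfeL (n : ℤ × ℤ) : V →L[ℝ] ℝ :=
  (2 * Real.pi * (n.1 : ℝ)) • ContinuousLinearMap.fst ℝ ℝ ℝ +
    (2 * Real.pi * (n.2 : ℝ)) • ContinuousLinearMap.snd ℝ ℝ ℝ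

theorem hfeL_apply (n : ℤ × ℤ) (y : V) :
    hfeL n y = 2 * Real.pi * ((n.1 : ℝ) * y.1 + (n.2 : ℝ) * y.2) := by
  simp only [hfeL, add_apply, smul_apply,
    ContinuousLinearMap.coe_fst', ContinuousLinearMap.coe_snd', smul_eq_mul]
  ring

theorem hfeE_eq (n : ℤ × ℤ) (y : V) :
    hfeE n y = Complex.exp (((-(hfeL n y) : ℝ) : ℂ) * Complex.I) := by
  rw [hfeL_apply, hfeE]
  push_cast
  ring_nf

theorem hfeE_re (n : ℤ × ℤ) (y : V) : (hfeE n y).re = Real.cos (hfeL n y) := by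
  rw [hfeE_eq, Complex.exp_ofReal_mul_I_re, Real.cos_neg]

theorem hfeE_im (n : ℤ × ℤ) (y : V) : (hfeE n y).im = -Real.sin (hfeL n y) := by
  rw [hfeE_eq, Complex.exp_ofReal_mul_I_im, Real.sin_neg]

theorem hfe_cont (n : ℤ × ℤ) : Continuous (hfeE n) := by
  unfold hfeE
  fun_prop

theorem hfe_one (k : ℤ) :
    ∫ t in closedBall (0 : ℝ) (1 / 2), Complex.exp (-(2 * Real.pi * ((k : ℝ) * t) : ℝ) * Complex.I) =
      if k = 0 then 1 else 0 := by
  rw [Real.closedBall_eq_Icc, integral_Icc_eq_integral_Ioc,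
    ← intervalIntegral.integral_of_le (by norm_num)]
  split_ifs with hk
  · subst hk
    simp
    norm_num
  · have hk' : (k : ℂ) ≠ 0 := by exact_mod_cast hk
    have hc : -(2 * (Real.pi : ℂ) * (k : ℂ)) * Complex.I ≠ 0 := by
      simp [hk, Real.pi_ne_zero, Complex.I_ne_zero]
    have h1 : ∀ t : ℝ, Complex.exp (-(2 * Real.pi * ((k : ℝ) * t) : ℝ) * Complex.I) =
        Complex.exp (-(2 * (Real.pi : ℂ) * (k : ℂ)) * Complex.I * (t : ℂ)) := by
      intro t
      congr 1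
      push_cast
      ring
    simp only [h1]
    rw [integral_exp_mul_complex hc]
    have h2 : Complex.exp (-(2 * (Real.pi : ℂ) * (k : ℂ)) * Complex.I * ((0 - 1 / 2 : ℝ) : ℂ)) =
        Complex.exp (-(2 * (Real.pi : ℂ) * (k : ℂ)) * Complex.I * ((0 + 1 / 2 : ℝ) : ℂ)) := by
      have h3 := Complex.exp_int_mul_two_pi_mul_I k
      have h4 : -(2 * (Real.pi : ℂ) * (k : ℂ)) * Complex.I * ((0 - 1 / 2 : ℝ) : ℂ) =
          -(2 * (Real.pi : ℂ) * (k : ℂ)) * Complex.I * ((0 + 1 / 2 : ℝ) : ℂ) +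
            (k : ℂ) * (2 * (Real.pi : ℂ) * Complex.I) := by
        push_cast
        ring
      rw [h4, Complex.exp_add, h3, mul_one]
    rw [h2, sub_self, zero_div]

theorem hfe_two (n : ℤ × ℤ) :
    ∫ y in closedBall (0 : V) (1 / 2), hfeE n y = if n = 0 then 1 else 0 := by
  have h1 : ∀ y : V, hfeE n y =
      Complex.exp (-(2 * Real.pi * ((n.1 : ℝ) * y.1) : ℝ) * Complex.I) *
        Complex.exp (-(2 * Real.pi * ((n.2 : ℝ) * y.2) : ℝ) * Complex.I) := by
    intro y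
    rw [hfeE, ← Complex.exp_add]
    congr 1
    push_cast
    ring
  simp only [h1]
  have h2 := setIntegral_prod_mul (μ := (volume : Measure ℝ)) (ν := (volume : Measure ℝ))
    (fun t : ℝ => Complex.exp (-(2 * Real.pi * ((n.1 : ℝ) * t) : ℝ) * Complex.I))
    (fun t : ℝ => Complex.exp (-(2 * Real.pi * ((n.2 : ℝ) * t) : ℝ) * Complex.I))
    (closedBall 0 (1 / 2)) (closedBall 0 (1 / 2))
  rw [closedBall_prod_same, ← Measure.volume_eq_prod, hfe_one, hfe_one] at h2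
  rw [show ((0 : ℝ), (0 : ℝ)) = (0 : V) from rfl] at h2
  rw [h2]
  by_cases a : n.1 = 0
  · by_cases b : n.2 = 0
    · have : n = 0 := Prod.ext a b
      simp [this]
    · have : n ≠ 0 := fun h => b (by rw [h]; rfl)
      simp [b, this]
  · have : n ≠ 0 := fun h => a (by rw [h]; rfl)
    simp [a, this]

theorem hfe_mul_conj (n m : ℤ × ℤ) (y : V) :
    hfeE n y * (starRingEnd ℂ) (hfeE m y) = hfeE (n - m) y := by
  unfold hfeE
  rw [← Complex.exp_conj, ← Complex.exp_add]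
  congr 1
  rw [map_mul, Complex.conj_I, map_neg, Complex.conj_ofReal, Prod.fst_sub, Prod.snd_sub]
  push_cast
  ring

theorem hfe_intC {f : V → ℂ} (hf : ContinuousOn f (closedBall (0 : V) (1 / 2))) :
    IntegrableOn f (closedBall (0 : V) (1 / 2)) volume :=
  hf.integrableOn_compact (isCompact_closedBall 0 (1 / 2))

theorem hfe_int {f : V → ℝ} (hf : ContinuousOn f (closedBall (0 : V) (1 / 2))) :
    IntegrableOn f (closedBall (0 : V) (1 / 2)) volume :=
  hf.integrableOn_compact (isCompact_closedBall 0 (1 / 2))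

theorem hfe_orth (S : Finset (ℤ × ℤ)) (c : ℤ × ℤ → ℂ) :
    ∫ y in closedBall (0 : V) (1 / 2), ‖∑ n ∈ S, c n * hfeE n y‖ ^ 2 = ∑ n ∈ S, ‖c n‖ ^ 2 := by
  have h0 : ∀ y : V, ((‖∑ n ∈ S, c n * hfeE n y‖ ^ 2 : ℝ) : ℂ) =
      ∑ n ∈ S, ∑ m ∈ S, c n * (starRingEnd ℂ) (c m) * hfeE (n - m) y := by
    intro y
    have h1 := Complex.mul_conj' (∑ n ∈ S, c n * hfeE n y)
    push_cast
    rw [← h1, map_sum, Finset.sum_mul_sum]
    refine Finset.sum_congr rfl fun n _ => Finset.sum_congr rfl fun m _ => ?_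
    rw [map_mul, ← hfe_mul_conj]
    ring
  have h1 : ((∫ y in closedBall (0 : V) (1 / 2), ‖∑ n ∈ S, c n * hfeE n y‖ ^ 2 : ℝ) : ℂ) =
      ((∑ n ∈ S, ‖c n‖ ^ 2 : ℝ) : ℂ) := by
    rw [← integral_complex_ofReal]
    simp only [h0]
    have hc : ∀ n m : ℤ × ℤ, Continuous fun y : V =>
        c n * (starRingEnd ℂ) (c m) * hfeE (n - m) y := fun n m =>
      continuous_const.mul (hfe_cont _)
    rw [integral_finsetSum _ fun n _ => hfe_intC
      ((continuous_finsetSum _ fun m _ => hc n m).continuousOn)]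
    have h2 : ∀ n ∈ S, ∫ y in closedBall (0 : V) (1 / 2),
        ∑ m ∈ S, c n * (starRingEnd ℂ) (c m) * hfeE (n - m) y = ((‖c n‖ ^ 2 : ℝ) : ℂ) := by
      intro n hn
      rw [integral_finsetSum _ fun m _ => hfe_intC (hc n m).continuousOn]
      rw [Finset.sum_eq_single n]
      · rw [integral_const_mul, hfe_two, sub_self, if_pos rfl, mul_one, Complex.mul_conj']
        push_cast
        rfl
      · intro m _ hm
        rw [integral_const_mul, hfe_two, if_neg (sub_ne_zero.mpr hm.symm), mul_zero]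
      · intro h
        exact absurd hn h
    rw [Finset.sum_congr rfl h2]
    push_cast
    rfl
  exact_mod_cast h1

theorem hfe_re (S : Finset (ℤ × ℤ)) (c : ℤ × ℤ → ℂ) :
    ∫ y in closedBall (0 : V) (1 / 2), (∑ n ∈ S, (c n * hfeE n y).re) ^ 2 ≤ ∑ n ∈ S, ‖c n‖ ^ 2 := by
  rw [← hfe_orth]
  have hc : ∀ n, Continuous fun y : V => c n * hfeE n y := fun n =>
    continuous_const.mul (hfe_cont n)
  refine setIntegral_mono_on (hfe_int ?_) (hfe_int ?_) measurableSet_closedBall fun y _ => ?_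
  · exact ((continuous_finsetSum _ fun n _ => Complex.continuous_re.comp (hc n)).pow 2).continuousOn
  · exact ((continuous_finsetSum _ fun n _ => hc n).norm.pow 2).continuousOn
  · rw [← Complex.re_sum, ← sq_abs]
    exact pow_le_pow_left₀ (abs_nonneg _) (Complex.abs_re_le_norm _) 2

theorem hfe_im (S : Finset (ℤ × ℤ)) (c : ℤ × ℤ → ℂ) :
    ∫ y in closedBall (0 : V) (1 / 2), (∑ n ∈ S, (c n * hfeE n y).im) ^ 2 ≤ ∑ n ∈ S, ‖c n‖ ^ 2 := by
  rw [← hfe_orth]
  have hc : ∀ n, Continuous fun y : V => c n * hfeE n y := fun n =>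
    continuous_const.mul (hfe_cont n)
  refine setIntegral_mono_on (hfe_int ?_) (hfe_int ?_) measurableSet_closedBall fun y _ => ?_
  · exact ((continuous_finsetSum _ fun n _ => Complex.continuous_im.comp (hc n)).pow 2).continuousOn
  · exact ((continuous_finsetSum _ fun n _ => hc n).norm.pow 2).continuousOn
  · rw [← Complex.im_sum, ← sq_abs]
    exact pow_le_pow_left₀ (abs_nonneg _) (Complex.abs_im_le_norm _) 2

/-- Cauchy-Schwarz. -/
theorem hfe_cs {f g : V → ℝ} (hf : ContinuousOn f (closedBall (0 : V) (1 / 2)))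
    (hg : ContinuousOn g (closedBall (0 : V) (1 / 2))) :
    (∫ y in closedBall (0 : V) (1 / 2), f y * g y) ^ 2 ≤
      (∫ y in closedBall (0 : V) (1 / 2), (f y) ^ 2) *
        ∫ y in closedBall (0 : V) (1 / 2), (g y) ^ 2 := by
  set A := ∫ y in closedBall (0 : V) (1 / 2), (f y) ^ 2
  set B := ∫ y in closedBall (0 : V) (1 / 2), f y * g y
  set G := ∫ y in closedBall (0 : V) (1 / 2), (g y) ^ 2
  have h1 : ∀ t : ℝ, 0 ≤ A * (t * t) + (-2 * B) * t + G := by
    intro t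
    have e : A * (t * t) + (-2 * B) * t + G =
        ∫ y in closedBall (0 : V) (1 / 2), (t * f y - g y) ^ 2 := by
      have e1 : ∀ y : V, (t * f y - g y) ^ 2 =
          t * t * (f y) ^ 2 + (-2 * t) * (f y * g y) + (g y) ^ 2 := fun y => by ring
      simp only [e1]
      have i1 : IntegrableOn (fun y => t * t * (f y) ^ 2) (closedBall (0 : V) (1 / 2)) volume :=
        hfe_int (continuousOn_const.mul (hf.pow 2))
      have i2 : IntegrableOn (fun y => (-2 * t) * (f y * g y)) (closedBall (0 : V) (1 / 2)) volume :=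
        hfe_int (continuousOn_const.mul (hf.mul hg))
      have i3 : IntegrableOn (fun y => (g y) ^ 2) (closedBall (0 : V) (1 / 2)) volume :=
        hfe_int (hg.pow 2)
      have i12 : IntegrableOn (fun y => t * t * (f y) ^ 2 + (-2 * t) * (f y * g y))
        (closedBall (0 : V) (1 / 2)) volume := i1.add i2
      rw [integral_add i12 i3, integral_add i1 i2, integral_const_mul, integral_const_mul]
      ring
    rw [e]
    exact integral_nonneg fun y => sq_nonneg _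
  have h2 := discrim_le_zero h1
  unfold discrim at h2
  nlinarith

/-- The test function. -/
noncomputable def hfeP (S : Finset (ℤ × ℤ)) (c : ℤ × ℤ → ℂ) (y : V) : ℝ :=
  ∑ n ∈ S, (c n * hfeE n y).im

theorem hfeP_term (c : ℂ) (n : ℤ × ℤ) (y : V) :
    (c * hfeE n y).im = c.im * Real.cos (hfeL n y) - c.re * Real.sin (hfeL n y) := by
  rw [Complex.mul_im, hfeE_re, hfeE_im]
  ring

theorem hfeP_hasFDerivAt (S : Finset (ℤ × ℤ)) (c : ℤ × ℤ → ℂ) (y : V) :
    HasFDerivAt (hfeP S c) (∑ n ∈ S, (-(c n * hfeE n y).re) • hfeL n) y := by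
  unfold hfeP
  refine HasFDerivAt.fun_sum fun n _ => ?_
  have h0 := (hfeL n).hasFDerivAt (x := y)
  have h1 : HasFDerivAt (fun y : V => (c n).im * Real.cos (hfeL n y) - (c n).re * Real.sin (hfeL n y))
      ((c n).im • (-Real.sin (hfeL n y)) • hfeL n - (c n).re • Real.cos (hfeL n y) • hfeL n) y :=
    (h0.cos.const_mul _).sub (h0.sin.const_mul _)
  have h2 : (fun y : V => (c n * hfeE n y).im) =
      fun y => (c n).im * Real.cos (hfeL n y) - (c n).re * Real.sin (hfeL n y) := by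
    funext y
    exact hfeP_term _ _ _
  rw [h2]
  refine h1.congr_fderiv ?_
  rw [Complex.mul_re, hfeE_re, hfeE_im]
  module

theorem hfeP_contDiff (S : Finset (ℤ × ℤ)) (c : ℤ × ℤ → ℂ) : ContDiff ℝ ∞ (hfeP S c) := by
  unfold hfeP
  simp only [hfeP_term]
  fun_prop

theorem hfe_norm_le (L : V →L[ℝ] ℝ) : ‖L‖ ^ 2 ≤ 2 * ((L (1, 0)) ^ 2 + (L (0, 1)) ^ 2) := by
  have h1 : ‖L‖ ≤ |L (1, 0)| + |L (0, 1)| := by
    refine L.opNorm_le_bound (by positivity) fun z => ?_
    have h2 : L z = z.1 * L (1, 0) + z.2 * L (0, 1) := by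
      conv_lhs => rw [vec_eq z]
      rw [map_add, map_smul, map_smul, smul_eq_mul, smul_eq_mul]
    rw [h2, Real.norm_eq_abs]
    have h3 := abs_add_le (z.1 * L (1, 0)) (z.2 * L (0, 1))
    rw [abs_mul, abs_mul] at h3
    have h4 := mul_le_mul_of_nonneg_right (abs_fst_le z) (abs_nonneg (L (1, 0)))
    have h5 := mul_le_mul_of_nonneg_right (abs_snd_le z) (abs_nonneg (L (0, 1)))
    nlinarith
  have h2 := pow_le_pow_left₀ (norm_nonneg _) h1 2
  have h3 := sq_abs (L (1, 0))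
  have h4 := sq_abs (L (0, 1))
  nlinarith [sq_nonneg (|L (1, 0)| - |L (0, 1)|)]

theorem hfe_grad (S : Finset (ℤ × ℤ)) (c : ℤ × ℤ → ℂ) (w : V) :
    ∫ y in closedBall (0 : V) (1 / 2), (fderiv ℝ (hfeP S c) y w) ^ 2 ≤
      ∑ n ∈ S, (hfeL n w) ^ 2 * ‖c n‖ ^ 2 := by
  have h1 : ∀ y : V, fderiv ℝ (hfeP S c) y w =
      ∑ n ∈ S, (((-(hfeL n w) : ℝ) : ℂ) * c n * hfeE n y).re := by
    intro y
    rw [(hfeP_hasFDerivAt S c y).fderiv, sum_apply]
    refine Finset.sum_congr rfl fun n _ => ?_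
    rw [smul_apply, smul_eq_mul, mul_assoc, Complex.re_ofReal_mul]
    ring
  simp only [h1]
  refine (hfe_re S _).trans (le_of_eq ?_)
  refine Finset.sum_congr rfl fun n _ => ?_
  rw [norm_mul, mul_pow, Complex.norm_real, Real.norm_eq_abs, sq_abs, neg_sq]

theorem hfe_bound : ∃ K > 0, ∀ y ∈ closedBall (0 : V) (1 / 2), ‖fderiv ℝ cut y‖ ≤ K := by
  obtain ⟨K, hK⟩ := (isCompact_closedBall (0 : V) (1 / 2)).exists_bound_of_continuousOn
    (f := fun y => fderiv ℝ cut y) (cut_contDiff.continuous_fderiv (by simp)).continuousOn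
  exact ⟨max K 1, by positivity, fun y hy => (hK y hy).trans (le_max_left _ _)⟩

theorem hfe_coeff {w : V → ℝ} (hw : ContinuousOn w (closedBall 0 (1 / 2))) (c : ℂ) (n : ℤ × ℤ) :
    ∫ y in closedBall (0 : V) (1 / 2), w y * (c * hfeE n y).re = (c * fc w n).re := by
  have h1 : fc w n = ∫ y in closedBall (0 : V) (1 / 2), (w y : ℂ) * hfeE n y := rfl
  rw [h1, ← integral_const_mul]
  have hi : IntegrableOn (fun y => c * ((w y : ℂ) * hfeE n y)) (closedBall (0 : V) (1 / 2))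
      volume := hfe_intC (continuousOn_const.mul
        ((Complex.continuous_ofReal.comp_continuousOn hw).mul (hfe_cont n).continuousOn))
  have h2 := Complex.reCLM.integral_comp_comm hi
  simp only [Complex.reCLM_apply] at h2
  rw [← h2]
  refine setIntegral_congr_fun measurableSet_closedBall fun y _ => ?_
  rw [show c * ((w y : ℂ) * hfeE n y) = (w y : ℂ) * (c * hfeE n y) by ring, Complex.re_ofReal_mul]

theorem hfe_pair {w : V → ℝ} (hw : ContinuousOn w (closedBall 0 (1 / 2))) (S : Finset (ℤ × ℤ))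
    (c : ℤ × ℤ → ℂ) (v : V) :
    ∫ y in closedBall (0 : V) (1 / 2), w y * fderiv ℝ (hfeP S c) y v =
      -∑ n ∈ S, hfeL n v * (c n * fc w n).re := by
  have h1 : ∀ y : V, w y * fderiv ℝ (hfeP S c) y v =
      ∑ n ∈ S, (-(hfeL n v)) * (w y * (c n * hfeE n y).re) := by
    intro y
    rw [(hfeP_hasFDerivAt S c y).fderiv, sum_apply, Finset.mul_sum]
    refine Finset.sum_congr rfl fun n _ => ?_
    rw [smul_apply, smul_eq_mul]
    ring
  simp only [h1]
  rw [integral_finsetSum _ fun n _ => ?_, ← Finset.sum_neg_distrib]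
  · refine Finset.sum_congr rfl fun n _ => ?_
    rw [integral_const_mul, hfe_coeff hw]
    ring
  · have hc : Continuous fun y : V => (c n * hfeE n y).re :=
      Complex.continuous_re.comp (continuous_const.mul (hfe_cont n))
    exact hfe_int (continuousOn_const.mul (hw.mul hc.continuousOn))

theorem hfeL_sq_le (n : ℤ × ℤ) {w : V} (hw : w = (1, 0) ∨ w = (0, 1)) :
    (hfeL n w) ^ 2 ≤ (2 * Real.pi) ^ 2 * (nn n) ^ 2 := by
  have h1 : |(n.1 : ℝ)| ≤ nn n := le_max_left _ _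
  have h2 : |(n.2 : ℝ)| ≤ nn n := le_max_right _ _
  rw [hfeL_apply, mul_pow]
  refine mul_le_mul_of_nonneg_left ?_ (by positivity)
  rcases hw with rfl | rfl
  · simp only [mul_one, mul_zero, add_zero]
    rw [← sq_abs]
    exact pow_le_pow_left₀ (abs_nonneg _) h1 2
  · simp only [mul_one, mul_zero, zero_add]
    rw [← sq_abs]
    exact pow_le_pow_left₀ (abs_nonneg _) h2 2

/-- HFE -/
theorem hf : ∃ C > 0, ∀ (g : V → ℝ) (v : V) (κ Θ R : ℝ), ContinuousOn g (closedBall 0 (1 / 2)) →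
    WK g v κ → ∫ y in closedBall (0 : V) (1 / 2), (g y) ^ 2 ≤ Θ ^ 2 → 0 ≤ Θ → 0 ≤ κ → 1 ≤ R →
    ∀ S : Finset (ℤ × ℤ), (∀ n ∈ S, R ≤ nn n) →
      ∑ n ∈ S, (v.1 * (n.1 : ℝ) + v.2 * (n.2 : ℝ)) ^ 2 / (nn n) ^ 2 * ‖fc (fun y => cut y * g y) n‖ ^ 2
        ≤ (C * (κ + ‖v‖ * Θ / R)) ^ 2 := by
  obtain ⟨K, hK0, hK⟩ := hfe_bound
  have hpi := Real.pi_pos
  have hpi3 := Real.pi_gt_three
  refine ⟨6 * Real.pi + 2 * K, by positivity, ?_⟩
  intro g v κ Θ R hg hWK hΘ hΘ0 hκ hR S hS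
  set w : V → ℝ := fun y => cut y * g y with hwdef
  set q : ℤ × ℤ → ℝ := fun n => v.1 * (n.1 : ℝ) + v.2 * (n.2 : ℝ) with hq
  set D : ℝ := ∑ n ∈ S, (q n) ^ 2 / (nn n) ^ 2 * ‖fc w n‖ ^ 2 with hD
  have hR0 : 0 < R := by linarith
  have hnn : ∀ n ∈ S, 0 < nn n := fun n hn => hR0.trans_le (hS n hn)
  have hcutc : Continuous cut := cut_contDiff.continuous
  have hw : ContinuousOn w (closedBall 0 (1 / 2)) := hcutc.continuousOn.mul hg
  set c : ℤ × ℤ → ℂ := fun n => ((q n / (nn n) ^ 2 : ℝ) : ℂ) * (starRingEnd ℂ) (fc w n) with hc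
  have hcn : ∀ n, ‖c n‖ ^ 2 = (q n / (nn n) ^ 2) ^ 2 * ‖fc w n‖ ^ 2 := by
    intro n
    rw [hc]
    simp only
    rw [norm_mul, mul_pow, Complex.norm_real, Real.norm_eq_abs, sq_abs, Complex.norm_conj]
  have hcn' : ∀ n ∈ S, (nn n) ^ 2 * ‖c n‖ ^ 2 = (q n) ^ 2 / (nn n) ^ 2 * ‖fc w n‖ ^ 2 := by
    intro n hn
    have := hnn n hn
    rw [hcn]
    field_simp
  have hD0 : 0 ≤ D := Finset.sum_nonneg fun n _ => by positivity
  have hc1 : ∑ n ∈ S, ‖c n‖ ^ 2 ≤ D / R ^ 2 := by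
    rw [le_div_iff₀ (by positivity), Finset.sum_mul]
    refine Finset.sum_le_sum fun n hn => ?_
    rw [← hcn' n hn, mul_comm]
    exact mul_le_mul_of_nonneg_right (pow_le_pow_left₀ hR0.le (hS n hn) 2) (by positivity)
  have hc2 : ∀ u : V, (u = (1, 0) ∨ u = (0, 1)) →
      ∑ n ∈ S, (hfeL n u) ^ 2 * ‖c n‖ ^ 2 ≤ (2 * Real.pi) ^ 2 * D := by
    intro u hu
    rw [hD, Finset.mul_sum]
    refine Finset.sum_le_sum fun n hn => ?_
    rw [← hcn' n hn, ← mul_assoc]
    exact mul_le_mul_of_nonneg_right (hfeL_sq_le n hu) (by positivity)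
  set ψ : V → ℝ := hfeP S c with hψ
  have hψs : ContDiff ℝ ∞ ψ := hfeP_contDiff S c
  have hψc : Continuous ψ := hψs.continuous
  have hψdc : Continuous (fun y => fderiv ℝ ψ y) := hψs.continuous_fderiv (by simp)
  have hcdc : Continuous (fun y => fderiv ℝ cut y) := cut_contDiff.continuous_fderiv (by simp)
  set φ : V → ℝ := fun y => cut y * ψ y with hφ
  have hφs : ContDiff ℝ ∞ φ := cut_contDiff.mul hψs
  have hφt : tsupport φ ⊆ closedBall 0 (1 / 2) :=
    (tsupport_mul_subset_left).trans (tsupport_cut.trans (closedBall_subset_closedBall (by norm_num)))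
  have hφd : ∀ y, fderiv ℝ φ y = cut y • fderiv ℝ ψ y + ψ y • fderiv ℝ cut y := by
    intro y
    exact fderiv_fun_mul (cut_contDiff.differentiable (by simp) y) (hψs.differentiable (by simp) y)
  have hψ2 : ∫ y in closedBall (0 : V) (1 / 2), (ψ y) ^ 2 ≤ D / R ^ 2 :=
    (hfe_im S c).trans hc1
  have hψ2' : ∫ y in closedBall (0 : V) (1 / 2), (ψ y) ^ 2 ≤ D := by
    refine hψ2.trans ?_
    rw [div_le_iff₀ (by positivity)]
    exact le_mul_of_one_le_right hD0 (one_le_pow₀ hR)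
  have hψg : ∫ y in closedBall (0 : V) (1 / 2), ‖fderiv ℝ ψ y‖ ^ 2 ≤ 16 * Real.pi ^ 2 * D := by
    have c1 : Continuous fun y : V => (fderiv ℝ ψ y (1, 0)) ^ 2 :=
      (hψdc.clm_apply continuous_const).pow 2
    have c2 : Continuous fun y : V => (fderiv ℝ ψ y (0, 1)) ^ 2 :=
      (hψdc.clm_apply continuous_const).pow 2
    have h1 : ∫ y in closedBall (0 : V) (1 / 2), ‖fderiv ℝ ψ y‖ ^ 2 ≤
        ∫ y in closedBall (0 : V) (1 / 2),
          2 * ((fderiv ℝ ψ y (1, 0)) ^ 2 + (fderiv ℝ ψ y (0, 1)) ^ 2) :=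
      setIntegral_mono_on (hfe_int (hψdc.norm.pow 2).continuousOn)
        (hfe_int (continuous_const.mul (c1.add c2)).continuousOn) measurableSet_closedBall
        fun y _ => hfe_norm_le _
    rw [integral_const_mul, integral_add (hfe_int c1.continuousOn) (hfe_int c2.continuousOn)] at h1
    have h2 := (hfe_grad S c (1, 0)).trans (hc2 _ (Or.inl rfl))
    have h3 := (hfe_grad S c (0, 1)).trans (hc2 _ (Or.inr rfl))
    linarith
  have hφg : ∫ y in closedBall (0 : V) (1 / 2), ‖fderiv ℝ φ y‖ ^ 2 ≤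
      ((6 * Real.pi + 2 * K) * √D) ^ 2 := by
    have h1 : ∫ y in closedBall (0 : V) (1 / 2), ‖fderiv ℝ φ y‖ ^ 2 ≤
        ∫ y in closedBall (0 : V) (1 / 2), (2 * ‖fderiv ℝ ψ y‖ ^ 2 + 2 * K ^ 2 * (ψ y) ^ 2) := by
      refine setIntegral_mono_on
        (hfe_int ((hφs.continuous_fderiv (by simp)).norm.pow 2).continuousOn)
        (hfe_int ((continuous_const.mul (hψdc.norm.pow 2)).add
          (continuous_const.mul (hψc.pow 2))).continuousOn) measurableSet_closedBall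
        fun y hy => ?_
      rw [hφd]
      have e1 : ‖cut y • fderiv ℝ ψ y + ψ y • fderiv ℝ cut y‖ ≤ ‖fderiv ℝ ψ y‖ + K * |ψ y| := by
        refine (norm_add_le _ _).trans ?_
        rw [norm_smul, norm_smul, Real.norm_eq_abs, Real.norm_eq_abs, abs_of_nonneg (cut_nonneg y)]
        have f1 := mul_le_mul_of_nonneg_right (cut_le_one y) (norm_nonneg (fderiv ℝ ψ y))
        have f2 := mul_le_mul_of_nonneg_left (hK y hy) (abs_nonneg (ψ y))
        linarith
      have e2 := pow_le_pow_left₀ (norm_nonneg _) e1 2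
      have e3 := sq_abs (ψ y)
      nlinarith [sq_nonneg (‖fderiv ℝ ψ y‖ - K * |ψ y|)]
    have i1 : IntegrableOn (fun y => 2 * ‖fderiv ℝ ψ y‖ ^ 2) (closedBall (0 : V) (1 / 2)) volume :=
      hfe_int (continuous_const.mul (hψdc.norm.pow 2)).continuousOn
    have i2 : IntegrableOn (fun y => 2 * K ^ 2 * (ψ y) ^ 2) (closedBall (0 : V) (1 / 2)) volume :=
      hfe_int (continuous_const.mul (hψc.pow 2)).continuousOn
    rw [integral_add i1 i2, integral_const_mul, integral_const_mul] at h1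
    rw [mul_pow, Real.sq_sqrt hD0]
    have h2 : 2 * K ^ 2 * ∫ y in closedBall (0 : V) (1 / 2), (ψ y) ^ 2 ≤ 2 * K ^ 2 * D :=
      mul_le_mul_of_nonneg_left hψ2' (by positivity)
    have h3 : (2 * (16 * Real.pi ^ 2) + 2 * K ^ 2) * D ≤ (6 * Real.pi + 2 * K) ^ 2 * D := by
      refine mul_le_mul_of_nonneg_right ?_ hD0
      nlinarith [mul_pos hpi hK0]
    nlinarith
  have hmain := hWK φ hφs hφt ((6 * Real.pi + 2 * K) * √D) (by positivity) hφg
  have hpair : ∫ y in closedBall (0 : V) (1 / 2), w y * fderiv ℝ ψ y v = -(2 * Real.pi * D) := by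
    rw [hψ, hfe_pair hw, hD, Finset.mul_sum]
    congr 1
    refine Finset.sum_congr rfl fun n hn => ?_
    have e1 : (c n * fc w n).re = q n / (nn n) ^ 2 * ‖fc w n‖ ^ 2 := by
      rw [hc]
      simp only
      rw [mul_assoc, Complex.re_ofReal_mul, Complex.conj_mul', ← Complex.ofReal_pow,
        Complex.ofReal_re]
    have e2 : hfeL n v = 2 * Real.pi * q n := by
      rw [hfeL_apply, hq]
      ring
    rw [e1, e2]
    ring
  set T : ℝ := ∫ y in closedBall (0 : V) (1 / 2), g y * (ψ y * fderiv ℝ cut y v) with hT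
  have hg1 : ContinuousOn (fun y => ψ y * fderiv ℝ cut y v) (closedBall (0 : V) (1 / 2)) :=
    (hψc.mul (hcdc.clm_apply continuous_const)).continuousOn
  have hsplit : ∫ y in closedBall (0 : V) (1 / 2), g y * fderiv ℝ φ y v =
      -(2 * Real.pi * D) + T := by
    rw [← hpair, hT, ← integral_add]
    · refine setIntegral_congr_fun measurableSet_closedBall fun y _ => ?_
      change g y * fderiv ℝ φ y v = cut y * g y * fderiv ℝ ψ y v + g y * (ψ y * fderiv ℝ cut y v)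
      rw [hφd, add_apply, smul_apply, smul_apply, smul_eq_mul, smul_eq_mul]
      ring
    · exact hfe_int (hw.mul (hψdc.clm_apply continuous_const).continuousOn)
    · exact hfe_int (hg.mul hg1)
  have hTb : |T| ≤ K * ‖v‖ * Θ * √D / R := by
    refine abs_le_of_sq_le_sq ?_ (by positivity)
    have h1 := hfe_cs hg hg1
    have h2 : ∫ y in closedBall (0 : V) (1 / 2), (ψ y * fderiv ℝ cut y v) ^ 2 ≤
        (K * ‖v‖) ^ 2 * (D / R ^ 2) := by
      have h3 : ∫ y in closedBall (0 : V) (1 / 2), (ψ y * fderiv ℝ cut y v) ^ 2 ≤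
          ∫ y in closedBall (0 : V) (1 / 2), (K * ‖v‖) ^ 2 * (ψ y) ^ 2 := by
        refine setIntegral_mono_on (hfe_int (hg1.pow 2))
          (hfe_int (continuous_const.mul (hψc.pow 2)).continuousOn) measurableSet_closedBall
          fun y hy => ?_
        rw [mul_pow, mul_comm]
        refine mul_le_mul_of_nonneg_right ?_ (sq_nonneg _)
        rw [← sq_abs]
        refine pow_le_pow_left₀ (abs_nonneg _) ?_ 2
        rw [← Real.norm_eq_abs]
        exact (ContinuousLinearMap.le_opNorm _ _).trans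
          (mul_le_mul_of_nonneg_right (hK y hy) (norm_nonneg _))
      rw [integral_const_mul] at h3
      exact h3.trans (mul_le_mul_of_nonneg_left hψ2 (by positivity))
    have h4 : (K * ‖v‖ * Θ * √D / R) ^ 2 = Θ ^ 2 * ((K * ‖v‖) ^ 2 * (D / R ^ 2)) := by
      rw [div_pow, mul_pow, Real.sq_sqrt hD0]
      ring
    rw [h4]
    refine h1.trans (mul_le_mul hΘ h2 (integral_nonneg fun y => sq_nonneg _) (by positivity))
  rw [hsplit] at hmain
  have hX : √D * √D = D := Real.mul_self_sqrt hD0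
  set X := √D with hXdef
  have hX0 : 0 ≤ X := Real.sqrt_nonneg _
  have h5 : 2 * Real.pi * D ≤ κ * ((6 * Real.pi + 2 * K) * X) + K * ‖v‖ * Θ * X / R := by
    have e1 := (abs_le.mp hmain).1
    have e2 := (abs_le.mp hTb).2
    linarith
  have h6 : X ≤ (6 * Real.pi + 2 * K) * (κ + ‖v‖ * Θ / R) := by
    rcases hX0.eq_or_lt with h0 | h0
    · rw [← h0]
      positivity
    have e1 : X * (2 * Real.pi * X) ≤
        X * ((6 * Real.pi + 2 * K) * κ + K * (‖v‖ * Θ / R)) := by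
      have : K * ‖v‖ * Θ * X / R = X * (K * (‖v‖ * Θ / R)) := by ring
      rw [this] at h5
      nlinarith
    have e2 := le_of_mul_le_mul_left e1 h0
    have e3 : 0 ≤ ‖v‖ * Θ / R := by positivity
    nlinarith [mul_nonneg hpi.le e3, mul_nonneg hK0.le e3]
  rw [← hX, ← sq]
  exact pow_le_pow_left₀ hX0 h6 2

end Pool.Agent.L1de93c
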