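import Pool.Agent.Lib_MP_1de93e_cont.HF
import Pool.Agent.Lib_MP_1de93e_cont.TwoP

/-!
# PIECE HFA: high frequencies of approximate solutions

For `‖u‖ = 1` let `w = cj N₀ u`; `Â, Γ̂` the coefficients of `cut * a u`, `cut * Γ` (linear in the function).
`hf` for `a u - (2/3) Γ`, direction `u`, and for `a u - (1/3) Γ`, direction `w` (`L²` norms `≤ 2 Θ`; `‖w‖`
bounded): with `B = C (κ + Θ/R)` and `|n| = nn n`,
(A) `∑_S (u·n)²/|n|² |Â - (2/3) Γ̂|² ≤ B²`, (B) `∑_S (w·n)²/|n|² |Â - (1/3) Γ̂|² ≤ B²`.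
For `Γ`: `(u·n)(w·n)/|n|² * (1/3) Γ̂ = (u·n)(w·n)/|n|² * ((Â - Γ̂/3) - (Â - 2Γ̂/3))`, so (using
`|u·n| ≤ 2 |n|`, `|w·n| ≤ 2 ‖w‖ |n|`) `∑_S ((u·n)(w·n)/|n|²)² |Γ̂|² ≤ C B²`. Do this for two unit vectors
`u₁, u₂` such that `u₁, w₁, u₂, w₂` are pairwise non parallel: `q₁ n = (u₁·n)(w₁·n)` and
`q₂ n = (u₂·n)(w₂·n)` have no common zero on `‖n‖ = 1` (real `n`), so `q₁² + q₂² ≥ c |n|⁴` (compactness and
homogeneity). Existence of such `u₁, u₂`: take any unit `u₁`, and a unit `u₂` with `dt u₂ u₁ ≠ 0`,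
`dt u₂ w₁ ≠ 0`; `w₂ ∥ u₁` would give (`cj (a u) ∥ cj u`, `cj (cj u) ∥ u`) `u₂ ∥ cj w₂ ∥ w₁`, and `w₂ ∥ w₁` gives
`u₂ ∥ u₁`.
For `a u`: `(u·n)² + (w·n)² ≥ c |n|²` with `c > 0` uniform in `u` (since `|dt u w| = N₀ u ≥ c₀` and `‖u‖, ‖w‖` are
bounded), `|Â|² ≤ 2 |Â - t Γ̂|² + 2 |Γ̂|²`, so `∑_S |Â|² ≤ C (B² + ∑_S |Γ̂|²)`.
-/

namespace Pool.Agent.L1de93c

open MeasureTheory Metric Set
open scoped ContDiff

/-- the frequency as a vector -/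
def hfa_z (n : ℤ × ℤ) : V := ((n.1 : ℝ), (n.2 : ℝ))

theorem hfa_norm (n : ℤ × ℤ) : ‖hfa_z n‖ = nn n := by
  rw [Prod.norm_def]
  rfl

theorem hfa_int {f : V → ℝ} (hf : ContinuousOn f (closedBall 0 (1 / 2))) (n : ℤ × ℤ) :
    IntegrableOn (fun y : V => ((cut y * f y : ℝ) : ℂ) *
      Complex.exp (-(2 * Real.pi * ((n.1 : ℝ) * y.1 + (n.2 : ℝ) * y.2) : ℝ) * Complex.I))
      (closedBall (0 : V) (1 / 2)) := by
  refine ContinuousOn.integrableOn_compact (isCompact_closedBall (0 : V) (1 / 2)) ?_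
  have h1 : ContinuousOn (fun y : V => cut y * f y) (closedBall 0 (1 / 2)) :=
    cut_contDiff.continuous.continuousOn.mul hf
  refine ContinuousOn.mul (Complex.continuous_ofReal.comp_continuousOn h1) ?_
  refine Continuous.continuousOn ?_
  fun_prop

theorem hfa_fc {f g : V → ℝ} (hf : ContinuousOn f (closedBall 0 (1 / 2)))
    (hg : ContinuousOn g (closedBall 0 (1 / 2))) (t : ℝ) (n : ℤ × ℤ) :
    fc (fun y => cut y * (f y - t * g y)) n =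
      fc (fun y => cut y * f y) n - (t : ℂ) * fc (fun y => cut y * g y) n := by
  unfold fc
  rw [← integral_const_mul, ← integral_sub (hfa_int hf n) ((hfa_int hg n).const_mul _)]
  refine integral_congr_ae (Filter.Eventually.of_forall fun y => ?_)
  simp only
  push_cast
  ring

theorem hfa_sq {f g : V → ℝ} {Θ t : ℝ} (hf : ContinuousOn f (closedBall 0 (1 / 2)))
    (hg : ContinuousOn g (closedBall 0 (1 / 2)))
    (h1 : ∫ y in closedBall (0 : V) (1 / 2), (f y) ^ 2 ≤ Θ ^ 2)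
    (h2 : ∫ y in closedBall (0 : V) (1 / 2), (g y) ^ 2 ≤ Θ ^ 2) (ht : t ^ 2 ≤ 1) :
    ∫ y in closedBall (0 : V) (1 / 2), (f y - t * g y) ^ 2 ≤ (2 * Θ) ^ 2 := by
  have hK : IsCompact (closedBall (0 : V) (1 / 2)) := isCompact_closedBall _ _
  have i1 : IntegrableOn (fun y => (f y) ^ 2) (closedBall (0 : V) (1 / 2)) :=
    (hf.pow 2).integrableOn_compact hK
  have i2 : IntegrableOn (fun y => (g y) ^ 2) (closedBall (0 : V) (1 / 2)) :=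
    (hg.pow 2).integrableOn_compact hK
  have i3 : IntegrableOn (fun y => (f y - t * g y) ^ 2) (closedBall (0 : V) (1 / 2)) :=
    ((hf.sub (continuousOn_const.mul hg)).pow 2).integrableOn_compact hK
  have h3 : ∫ y in closedBall (0 : V) (1 / 2), (f y - t * g y) ^ 2 ≤
      ∫ y in closedBall (0 : V) (1 / 2), (2 * (f y) ^ 2 + 2 * (g y) ^ 2) := by
    refine integral_mono i3 ((i1.const_mul 2).add (i2.const_mul 2)) (fun y => ?_)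
    show (f y - t * g y) ^ 2 ≤ 2 * (f y) ^ 2 + 2 * (g y) ^ 2
    have e1 : (f y - t * g y) ^ 2 ≤ 2 * (f y) ^ 2 + 2 * (t ^ 2 * (g y) ^ 2) := by
      linarith [sq_nonneg (f y + t * g y)]
    have e2 : t ^ 2 * (g y) ^ 2 ≤ 1 * (g y) ^ 2 := mul_le_mul_of_nonneg_right ht (sq_nonneg _)
    linarith
  rw [integral_add (i1.const_mul 2) (i2.const_mul 2), integral_const_mul, integral_const_mul] at h3
  linarith

/-- lower bound for one conjugate pair -/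
theorem hfa_pair {x y z : V} {W c : ℝ} (hx : ‖x‖ = 1) (hy : ‖y‖ ≤ W) (hc : 0 ≤ c)
    (h : c ≤ |dt x y|) :
    c ^ 2 * ‖z‖ ^ 2 ≤ 2 * (1 + W ^ 2) * ((dot x z) ^ 2 + (dot y z) ^ 2) := by
  have hW : 0 ≤ W := (norm_nonneg y).trans hy
  have h1 : |dt x y| * |z.1| ≤ W * |dot x z| + |dot y z| := by
    rw [← abs_mul]
    have e : dt x y * z.1 = y.2 * dot x z - x.2 * dot y z := by
      unfold dt dot; ring
    rw [e]
    refine (abs_sub _ _).trans ?_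
    rw [abs_mul, abs_mul]
    have a1 : |y.2| ≤ W := (abs_snd_le y).trans hy
    have a2 : |x.2| ≤ 1 := by
      rw [← hx]; exact abs_snd_le x
    have b1 := mul_le_mul_of_nonneg_right a1 (abs_nonneg (dot x z))
    have b2 := mul_le_mul_of_nonneg_right a2 (abs_nonneg (dot y z))
    linarith
  have h2 : |dt x y| * |z.2| ≤ W * |dot x z| + |dot y z| := by
    rw [← abs_mul]
    have e : dt x y * z.2 = x.1 * dot y z - y.1 * dot x z := by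
      unfold dt dot; ring
    rw [e]
    refine (abs_sub _ _).trans ?_
    rw [abs_mul, abs_mul]
    have a1 : |y.1| ≤ W := (abs_fst_le y).trans hy
    have a2 : |x.1| ≤ 1 := by
      rw [← hx]; exact abs_fst_le x
    have b1 := mul_le_mul_of_nonneg_right a1 (abs_nonneg (dot x z))
    have b2 := mul_le_mul_of_nonneg_right a2 (abs_nonneg (dot y z))
    linarith
  have h3 : |dt x y| * ‖z‖ ≤ W * |dot x z| + |dot y z| := by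
    rw [Prod.norm_def]
    rcases max_choice ‖z.1‖ ‖z.2‖ with h | h
    · rw [h]; exact h1
    · rw [h]; exact h2
  have h4 : c * ‖z‖ ≤ W * |dot x z| + |dot y z| :=
    (mul_le_mul_of_nonneg_right h (norm_nonneg z)).trans h3
  have h5 : 0 ≤ c * ‖z‖ := mul_nonneg hc (norm_nonneg z)
  have h6 : (c * ‖z‖) ^ 2 ≤ (W * |dot x z| + |dot y z|) ^ 2 := pow_le_pow_left₀ h5 h4 2
  have h7 : (W * |dot x z| + |dot y z|) ^ 2 ≤ 2 * (W ^ 2 * |dot x z| ^ 2) + 2 * |dot y z| ^ 2 := by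
    linarith [sq_nonneg (W * |dot x z| - |dot y z|)]
  rw [sq_abs, sq_abs] at h7
  have h8 : 0 ≤ W ^ 2 * (dot y z) ^ 2 := mul_nonneg (sq_nonneg _) (sq_nonneg _)
  have h9 : 0 ≤ (dot x z) ^ 2 := sq_nonneg _
  linarith

/-- lower bound for two conjugate pairs -/
theorem hfa_two {u₁ w₁ u₂ w₂ : V} (h12 : dt u₁ u₂ ≠ 0) (h14 : dt u₁ w₂ ≠ 0) (h32 : dt w₁ u₂ ≠ 0)
    (h34 : dt w₁ w₂ ≠ 0) :
    ∃ c > 0, ∀ z : V, c * ‖z‖ ^ 4 ≤ (dot u₁ z * dot w₁ z) ^ 2 + (dot u₂ z * dot w₂ z) ^ 2 := by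
  have hcd : ∀ x : V, Continuous (fun z : V => dot x z) := by
    intro x
    unfold dot
    fun_prop
  have key : ∀ x y z : V, dt x y ≠ 0 → dot x z = 0 → dot y z = 0 → z = 0 := by
    intro x y z h hx hy
    have e1 : dt x y * z.1 = y.2 * dot x z - x.2 * dot y z := by
      unfold dt dot; ring
    have e2 : dt x y * z.2 = x.1 * dot y z - y.1 * dot x z := by
      unfold dt dot; ring
    rw [hx, hy, mul_zero, mul_zero, sub_zero] at e1 e2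
    ext
    · exact (mul_eq_zero.1 e1).resolve_left h
    · exact (mul_eq_zero.1 e2).resolve_left h
  have hK : IsCompact (sphere (0 : V) 1) := isCompact_sphere 0 1
  have hne : (sphere (0 : V) 1).Nonempty := ⟨(1, 0), by simp⟩
  have hcont : Continuous (fun z : V => (dot u₁ z * dot w₁ z) ^ 2 + (dot u₂ z * dot w₂ z) ^ 2) :=
    (((hcd u₁).mul (hcd w₁)).pow 2).add (((hcd u₂).mul (hcd w₂)).pow 2)
  obtain ⟨z₀, hz₀, hmin⟩ := hK.exists_isMinOn hne hcont.continuousOn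
  have hz0 : z₀ ≠ 0 := by
    rintro rfl
    simp at hz₀
  refine ⟨(dot u₁ z₀ * dot w₁ z₀) ^ 2 + (dot u₂ z₀ * dot w₂ z₀) ^ 2, ?_, ?_⟩
  · by_contra hcon
    have h1 : 0 ≤ (dot u₁ z₀ * dot w₁ z₀) ^ 2 := sq_nonneg _
    have h2 : 0 ≤ (dot u₂ z₀ * dot w₂ z₀) ^ 2 := sq_nonneg _
    have h3 : (dot u₁ z₀ * dot w₁ z₀) ^ 2 = 0 := by linarith [not_lt.1 hcon]
    have h4 : (dot u₂ z₀ * dot w₂ z₀) ^ 2 = 0 := by linarith [not_lt.1 hcon]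
    rcases mul_eq_zero.1 (pow_eq_zero_iff (two_ne_zero)|>.1 h3) with h5 | h5 <;>
      rcases mul_eq_zero.1 (pow_eq_zero_iff (two_ne_zero)|>.1 h4) with h6 | h6
    · exact hz0 (key _ _ _ h12 h5 h6)
    · exact hz0 (key _ _ _ h14 h5 h6)
    · exact hz0 (key _ _ _ h32 h5 h6)
    · exact hz0 (key _ _ _ h34 h5 h6)
  · intro z
    by_cases hz : z = 0
    · rw [hz, norm_zero]
      have h1 : 0 ≤ (dot u₁ 0 * dot w₁ 0) ^ 2 := sq_nonneg _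
      have h2 : 0 ≤ (dot u₂ 0 * dot w₂ 0) ^ 2 := sq_nonneg _
      have h3 : (0 : ℝ) ^ 4 = 0 := by norm_num
      rw [h3, mul_zero]
      linarith
    have hn : 0 < ‖z‖ := norm_pos_iff.mpr hz
    have h1 : ‖z‖⁻¹ • z ∈ sphere (0 : V) 1 := by
      rw [mem_sphere_zero_iff_norm, norm_smul, norm_inv, norm_norm, inv_mul_cancel₀ hn.ne']
    have h2 := hmin h1
    simp only [Set.mem_ofPred_eq, dot_smul_right] at h2
    have h3 : (‖z‖⁻¹ * dot u₁ z * (‖z‖⁻¹ * dot w₁ z)) ^ 2 +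
        (‖z‖⁻¹ * dot u₂ z * (‖z‖⁻¹ * dot w₂ z)) ^ 2 =
        ((dot u₁ z * dot w₁ z) ^ 2 + (dot u₂ z * dot w₂ z) ^ 2) / ‖z‖ ^ 4 := by
      field_simp
    rw [h3, le_div_iff₀ (pow_pos hn 4)] at h2
    exact h2

/-- the pointwise estimates used below -/
theorem hfa_pt {p q r W : ℝ} {X Y G A : ℂ} (hr : 0 < r) (hp : |p| ≤ 2 * r) (hq : |q| ≤ 2 * W * r)
    (hX : X = A - (1 / 3 : ℝ) * G) (hY : Y = A - (2 / 3 : ℝ) * G) :
    (p * q / r ^ 2) ^ 2 * ‖G‖ ^ 2 ≤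
      72 * (q ^ 2 / r ^ 2 * ‖X‖ ^ 2) + 72 * W ^ 2 * (p ^ 2 / r ^ 2 * ‖Y‖ ^ 2) := by
  have hp2 : p ^ 2 / r ^ 2 ≤ 4 := by
    rw [div_le_iff₀ (pow_pos hr 2), ← sq_abs]
    have := pow_le_pow_left₀ (abs_nonneg p) hp 2
    linarith
  have hq2 : q ^ 2 / r ^ 2 ≤ 4 * W ^ 2 := by
    rw [div_le_iff₀ (pow_pos hr 2), ← sq_abs]
    have := pow_le_pow_left₀ (abs_nonneg q) hq 2
    linarith
  have hG : G = 3 * (X - Y) := by
    rw [hX, hY]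
    push_cast
    ring
  have hn : ‖G‖ ^ 2 ≤ 18 * ‖X‖ ^ 2 + 18 * ‖Y‖ ^ 2 := by
    have h1 : ‖G‖ ≤ 3 * (‖X‖ + ‖Y‖) := by
      rw [hG, norm_mul]
      have : ‖(3 : ℂ)‖ = 3 := by simp
      rw [this]
      exact mul_le_mul_of_nonneg_left (norm_sub_le X Y) (by norm_num)
    have h2 := pow_le_pow_left₀ (norm_nonneg G) h1 2
    linarith [sq_nonneg (‖X‖ - ‖Y‖)]
  have e : (p * q / r ^ 2) ^ 2 = (p ^ 2 / r ^ 2) * (q ^ 2 / r ^ 2) := by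
    field_simp
  have hP : 0 ≤ p ^ 2 / r ^ 2 := by positivity
  have hQ : 0 ≤ q ^ 2 / r ^ 2 := by positivity
  rw [e]
  have s1 : (p ^ 2 / r ^ 2) * (q ^ 2 / r ^ 2) * ‖G‖ ^ 2 ≤
      (p ^ 2 / r ^ 2) * (q ^ 2 / r ^ 2) * (18 * ‖X‖ ^ 2 + 18 * ‖Y‖ ^ 2) :=
    mul_le_mul_of_nonneg_left hn (mul_nonneg hP hQ)
  have s2 : (p ^ 2 / r ^ 2) * (q ^ 2 / r ^ 2 * ‖X‖ ^ 2) ≤ 4 * (q ^ 2 / r ^ 2 * ‖X‖ ^ 2) :=
    mul_le_mul_of_nonneg_right hp2 (by positivity)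
  have s3 : (q ^ 2 / r ^ 2) * (p ^ 2 / r ^ 2 * ‖Y‖ ^ 2) ≤
      4 * W ^ 2 * (p ^ 2 / r ^ 2 * ‖Y‖ ^ 2) :=
    mul_le_mul_of_nonneg_right hq2 (by positivity)
  linarith

theorem hfa_pt2 {p q r W c : ℝ} {X Y G A : ℂ} (hr : 0 < r) (hc : 0 < c)
    (hp : |p| ≤ 2 * r) (hq : |q| ≤ 2 * W * r)
    (hX : X = A - (1 / 3 : ℝ) * G) (hY : Y = A - (2 / 3 : ℝ) * G)
    (h : c ^ 2 * r ^ 2 ≤ 2 * (1 + W ^ 2) * (p ^ 2 + q ^ 2)) :
    ‖A‖ ^ 2 ≤ 2 * (1 + W ^ 2) / c ^ 2 * (2 * (q ^ 2 / r ^ 2 * ‖X‖ ^ 2) +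
      2 * (p ^ 2 / r ^ 2 * ‖Y‖ ^ 2) + 8 * (1 + W ^ 2) * ‖G‖ ^ 2) := by
  have hp2 : p ^ 2 / r ^ 2 ≤ 4 := by
    rw [div_le_iff₀ (pow_pos hr 2), ← sq_abs]
    have := pow_le_pow_left₀ (abs_nonneg p) hp 2
    linarith
  have hq2 : q ^ 2 / r ^ 2 ≤ 4 * W ^ 2 := by
    rw [div_le_iff₀ (pow_pos hr 2), ← sq_abs]
    have := pow_le_pow_left₀ (abs_nonneg q) hq 2
    linarith
  have hP : 0 ≤ p ^ 2 / r ^ 2 := by positivity
  have hQ : 0 ≤ q ^ 2 / r ^ 2 := by positivity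
  have hA : ∀ (t : ℝ) (Z : ℂ), t ^ 2 ≤ 1 → Z = A - (t : ℂ) * G →
      ‖A‖ ^ 2 ≤ 2 * ‖Z‖ ^ 2 + 2 * ‖G‖ ^ 2 := by
    intro t Z ht hZ
    have h1 : ‖A‖ ≤ ‖Z‖ + |t| * ‖G‖ := by
      have : A = Z + (t : ℂ) * G := by rw [hZ]; ring
      rw [this]
      refine (norm_add_le _ _).trans ?_
      rw [norm_mul, Complex.norm_real, Real.norm_eq_abs]
    have h2 := pow_le_pow_left₀ (norm_nonneg A) h1 2
    have h3 : (‖Z‖ + |t| * ‖G‖) ^ 2 ≤ 2 * ‖Z‖ ^ 2 + 2 * (|t| ^ 2 * ‖G‖ ^ 2) := by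
      linarith [sq_nonneg (‖Z‖ - |t| * ‖G‖)]
    rw [sq_abs] at h3
    have h4 : t ^ 2 * ‖G‖ ^ 2 ≤ 1 * ‖G‖ ^ 2 := mul_le_mul_of_nonneg_right ht (sq_nonneg _)
    linarith
  have hAX := hA (1 / 3) X (by norm_num) hX
  have hAY := hA (2 / 3) Y (by norm_num) hY
  have h1 : 1 ≤ 2 * (1 + W ^ 2) / c ^ 2 * (p ^ 2 / r ^ 2 + q ^ 2 / r ^ 2) := by
    rw [← add_div, div_mul_div_comm, le_div_iff₀ (by positivity), one_mul]
    exact h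
  have h2 : (p ^ 2 / r ^ 2 + q ^ 2 / r ^ 2) * ‖A‖ ^ 2 ≤ 2 * (q ^ 2 / r ^ 2 * ‖X‖ ^ 2) +
      2 * (p ^ 2 / r ^ 2 * ‖Y‖ ^ 2) + 8 * (1 + W ^ 2) * ‖G‖ ^ 2 := by
    have s1 := mul_le_mul_of_nonneg_left hAX hQ
    have s2 := mul_le_mul_of_nonneg_left hAY hP
    have s3 := mul_le_mul_of_nonneg_right hp2 (sq_nonneg ‖G‖)
    have s4 := mul_le_mul_of_nonneg_right hq2 (sq_nonneg ‖G‖)
    linarith
  have hc0 : 0 ≤ 2 * (1 + W ^ 2) / c ^ 2 := by positivity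
  calc ‖A‖ ^ 2 = 1 * ‖A‖ ^ 2 := (one_mul _).symm
    _ ≤ 2 * (1 + W ^ 2) / c ^ 2 * (p ^ 2 / r ^ 2 + q ^ 2 / r ^ 2) * ‖A‖ ^ 2 :=
        mul_le_mul_of_nonneg_right h1 (sq_nonneg _)
    _ = 2 * (1 + W ^ 2) / c ^ 2 * ((p ^ 2 / r ^ 2 + q ^ 2 / r ^ 2) * ‖A‖ ^ 2) := by ring
    _ ≤ _ := mul_le_mul_of_nonneg_left h2 hc0

/-- HFA -/
theorem hf_all {N₀ : V → ℝ} (h₀ : Nice N₀) :
    ∃ C > 0, ∀ (κ Θ R : ℝ), 0 ≤ κ → 0 ≤ Θ → 1 ≤ R → ∀ (a : V → V → ℝ) (Γ : V → ℝ),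
      WS N₀ κ Θ a Γ → ∀ S : Finset (ℤ × ℤ), (∀ n ∈ S, R ≤ nn n) →
        ∑ n ∈ S, ‖fc (fun y => cut y * Γ y) n‖ ^ 2 ≤ (C * (κ + Θ / R)) ^ 2 ∧
        ∀ u, ‖u‖ = 1 → ∑ n ∈ S, ‖fc (fun y => cut y * a u y) n‖ ^ 2 ≤ (C * (κ + Θ / R)) ^ 2 := by
  obtain ⟨C₀, hC₀, hhf⟩ := hf
  obtain ⟨c, hc, hlow⟩ := h₀.toNormV.exists_lower
  obtain ⟨u₁, u₂, hu₁, hu₂, h12, -, h14, h32, h34, -⟩ := exists_two_pairs h₀
  obtain ⟨c₁, hc₁, htwo⟩ := hfa_two h12 h14 h32 h34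
  -- bound for the conjugate vectors
  have hne : ∀ u : V, ‖u‖ = 1 → u ≠ 0 := by
    rintro u hu rfl
    simp at hu
  have hrc : 0 ≤ rc N₀ := by
    rw [← h₀.N_cj (hne u₁ hu₁)]
    exact h₀.toNormV.nonneg _
  set W : ℝ := rc N₀ / c with hWdef
  have hW0 : 0 ≤ W := div_nonneg hrc hc.le
  have hcj : ∀ u : V, ‖u‖ = 1 → ‖cj N₀ u‖ ≤ W := by
    intro u hu
    rw [hWdef, le_div_iff₀ hc, mul_comm, ← h₀.N_cj (hne u hu)]
    exact hlow _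
  have hdt : ∀ u : V, ‖u‖ = 1 → c ≤ |dt u (cj N₀ u)| := by
    intro u hu
    rw [h₀.dt_cj (hne u hu)]
    have := hlow u
    rw [hu, mul_one] at this
    exact this.trans (le_abs_self _)
  set C₁ : ℝ := C₀ * (2 + 2 * W) with hC₁
  have hC₁0 : 0 < C₁ := by positivity
  set C₂ : ℝ := 144 * (1 + W ^ 2) / c₁ with hC₂
  have hC₂0 : 0 ≤ C₂ := by positivity
  set C₃ : ℝ := 2 * (1 + W ^ 2) / c ^ 2 * (4 + 8 * (1 + W ^ 2) * C₂) with hC₃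
  have hC₃0 : 0 ≤ C₃ := by positivity
  refine ⟨C₁ * (1 + C₂ + C₃), by positivity, ?_⟩
  intro κ Θ R hκ hΘ hR a Γ hWS S hS
  have hR0 : 0 < R := by linarith
  set B : ℝ := C₁ * (κ + Θ / R) with hB
  have hΘR : 0 ≤ Θ / R := div_nonneg hΘ hR0.le
  have hB0 : 0 ≤ B := by positivity
  have hr : ∀ n ∈ S, 0 < nn n := fun n hn => lt_of_lt_of_le hR0 (hS n hn)
  have hdot : ∀ (v : V) (n : ℤ × ℤ), v.1 * (n.1 : ℝ) + v.2 * (n.2 : ℝ) = dot v (hfa_z n) :=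
    fun v n => rfl
  -- the two basic estimates
  have hAB : ∀ u : V, ‖u‖ = 1 →
      ∑ n ∈ S, (dot u (hfa_z n)) ^ 2 / (nn n) ^ 2 *
        ‖fc (fun y => cut y * (a u y - (2 / 3) * Γ y)) n‖ ^ 2 ≤ B ^ 2 ∧
      ∑ n ∈ S, (dot (cj N₀ u) (hfa_z n)) ^ 2 / (nn n) ^ 2 *
        ‖fc (fun y => cut y * (a u y - (1 / 3) * Γ y)) n‖ ^ 2 ≤ B ^ 2 := by
    intro u hu
    have hg : ∀ t : ℝ, ContinuousOn (fun y => a u y - t * Γ y) (closedBall 0 (1 / 2)) :=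
      fun t => (hWS.ca u hu).sub (continuousOn_const.mul hWS.cΓ)
    constructor
    · have h1 := hhf (fun y => a u y - (2 / 3) * Γ y) u κ (2 * Θ) R (hg _) (hWS.wu u hu)
        (hfa_sq (hWS.ca u hu) hWS.cΓ (hWS.la u hu) hWS.lΓ (by norm_num)) (by positivity) hκ hR S hS
      refine h1.trans ?_
      refine pow_le_pow_left₀ (by positivity) ?_ 2
      rw [hB, hC₁, hu, one_mul, mul_assoc]
      refine mul_le_mul_of_nonneg_left ?_ hC₀.le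
      have e : 2 * Θ / R = 2 * (Θ / R) := by ring
      rw [e]
      linarith [mul_nonneg hW0 hκ, mul_nonneg hW0 hΘR]
    · have h1 := hhf (fun y => a u y - (1 / 3) * Γ y) (cj N₀ u) κ (2 * Θ) R (hg _) (hWS.ww u hu)
        (hfa_sq (hWS.ca u hu) hWS.cΓ (hWS.la u hu) hWS.lΓ (by norm_num)) (by positivity) hκ hR S hS
      refine h1.trans ?_
      refine pow_le_pow_left₀ (by positivity) ?_ 2
      rw [hB, hC₁, mul_assoc]
      refine mul_le_mul_of_nonneg_left ?_ hC₀.le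
      have e : ‖cj N₀ u‖ * (2 * Θ) / R = 2 * (‖cj N₀ u‖ * (Θ / R)) := by ring
      rw [e]
      have h2 := mul_le_mul_of_nonneg_right (hcj u hu) hΘR
      linarith [mul_nonneg hW0 hκ, mul_nonneg hW0 hΘR]
  have hpb : ∀ (u : V) (n : ℤ × ℤ), ‖u‖ = 1 → |dot u (hfa_z n)| ≤ 2 * nn n := by
    intro u n hu
    have := abs_dot_le u (hfa_z n)
    rw [hu, hfa_norm] at this
    linarith
  have hqb : ∀ (u : V) (n : ℤ × ℤ), ‖u‖ = 1 → |dot (cj N₀ u) (hfa_z n)| ≤ 2 * W * nn n := by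
    intro u n hu
    have := abs_dot_le (cj N₀ u) (hfa_z n)
    rw [hfa_norm] at this
    refine this.trans ?_
    refine mul_le_mul_of_nonneg_right ?_ ?_
    · have := hcj u hu
      linarith
    · rw [← hfa_norm]; exact norm_nonneg _
  -- one pair
  have hone : ∀ u : V, ‖u‖ = 1 →
      ∑ n ∈ S, (dot u (hfa_z n) * dot (cj N₀ u) (hfa_z n) / (nn n) ^ 2) ^ 2 *
        ‖fc (fun y => cut y * Γ y) n‖ ^ 2 ≤ 72 * (1 + W ^ 2) * B ^ 2 := by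
    intro u hu
    obtain ⟨hA, hBB⟩ := hAB u hu
    have h1 : ∑ n ∈ S, (dot u (hfa_z n) * dot (cj N₀ u) (hfa_z n) / (nn n) ^ 2) ^ 2 *
        ‖fc (fun y => cut y * Γ y) n‖ ^ 2 ≤
        ∑ n ∈ S, (72 * ((dot (cj N₀ u) (hfa_z n)) ^ 2 / (nn n) ^ 2 *
          ‖fc (fun y => cut y * (a u y - (1 / 3) * Γ y)) n‖ ^ 2) +
          72 * W ^ 2 * ((dot u (hfa_z n)) ^ 2 / (nn n) ^ 2 *
          ‖fc (fun y => cut y * (a u y - (2 / 3) * Γ y)) n‖ ^ 2)) := by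
      refine Finset.sum_le_sum fun n hn => ?_
      exact hfa_pt (A := fc (fun y => cut y * a u y) n) (hr n hn) (hpb u n hu) (hqb u n hu)
        (hfa_fc (hWS.ca u hu) hWS.cΓ _ n) (hfa_fc (hWS.ca u hu) hWS.cΓ _ n)
    refine h1.trans ?_
    rw [Finset.sum_add_distrib, ← Finset.mul_sum, ← Finset.mul_sum]
    have h2 := mul_le_mul_of_nonneg_left hA (show 0 ≤ 72 * W ^ 2 by positivity)
    linarith
  have hΓ : ∑ n ∈ S, ‖fc (fun y => cut y * Γ y) n‖ ^ 2 ≤ C₂ * B ^ 2 := by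
    have h1 : c₁ * ∑ n ∈ S, ‖fc (fun y => cut y * Γ y) n‖ ^ 2 ≤
        ∑ n ∈ S, ((dot u₁ (hfa_z n) * dot (cj N₀ u₁) (hfa_z n) / (nn n) ^ 2) ^ 2 *
          ‖fc (fun y => cut y * Γ y) n‖ ^ 2 +
          (dot u₂ (hfa_z n) * dot (cj N₀ u₂) (hfa_z n) / (nn n) ^ 2) ^ 2 *
          ‖fc (fun y => cut y * Γ y) n‖ ^ 2) := by
      rw [Finset.mul_sum]
      refine Finset.sum_le_sum fun n hn => ?_
      rw [← add_mul]
      refine mul_le_mul_of_nonneg_right ?_ (sq_nonneg _)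
      have h2 := htwo (hfa_z n)
      rw [hfa_norm] at h2
      rw [div_pow, div_pow, ← add_div, ← pow_mul, le_div_iff₀ (pow_pos (hr n hn) _)]
      exact h2
    rw [Finset.sum_add_distrib] at h1
    have h3 := hone u₁ hu₁
    have h4 := hone u₂ hu₂
    rw [hC₂, div_mul_eq_mul_div, le_div_iff₀ hc₁]
    linarith
  have hAu : ∀ u : V, ‖u‖ = 1 → ∑ n ∈ S, ‖fc (fun y => cut y * a u y) n‖ ^ 2 ≤ C₃ * B ^ 2 := by
    intro u hu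
    obtain ⟨hA, hBB⟩ := hAB u hu
    have h1 : ∑ n ∈ S, ‖fc (fun y => cut y * a u y) n‖ ^ 2 ≤
        ∑ n ∈ S, 2 * (1 + W ^ 2) / c ^ 2 * (2 * ((dot (cj N₀ u) (hfa_z n)) ^ 2 / (nn n) ^ 2 *
          ‖fc (fun y => cut y * (a u y - (1 / 3) * Γ y)) n‖ ^ 2) +
          2 * ((dot u (hfa_z n)) ^ 2 / (nn n) ^ 2 *
          ‖fc (fun y => cut y * (a u y - (2 / 3) * Γ y)) n‖ ^ 2) +
          8 * (1 + W ^ 2) * ‖fc (fun y => cut y * Γ y) n‖ ^ 2) := by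
      refine Finset.sum_le_sum fun n hn => ?_
      refine hfa_pt2 (hr n hn) hc (hpb u n hu) (hqb u n hu)
        (hfa_fc (hWS.ca u hu) hWS.cΓ _ n) (hfa_fc (hWS.ca u hu) hWS.cΓ _ n) ?_
      have h2 := hfa_pair (z := hfa_z n) hu (hcj u hu) hc.le (hdt u hu)
      rw [hfa_norm] at h2
      exact h2
    refine h1.trans ?_
    rw [← Finset.mul_sum, Finset.sum_add_distrib, Finset.sum_add_distrib, ← Finset.mul_sum,
      ← Finset.mul_sum, ← Finset.mul_sum]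
    have h3 := mul_le_mul_of_nonneg_left hΓ (show (0 : ℝ) ≤ 8 * (1 + W ^ 2) by positivity)
    have e : C₃ * B ^ 2 = 2 * (1 + W ^ 2) / c ^ 2 * ((4 + 8 * (1 + W ^ 2) * C₂) * B ^ 2) := by
      rw [hC₃]; ring
    rw [e]
    refine mul_le_mul_of_nonneg_left ?_ (by positivity)
    linarith
  have hfin : ∀ D : ℝ, 0 ≤ D → D ≤ C₂ + C₃ → D * B ^ 2 ≤ (C₁ * (1 + C₂ + C₃) * (κ + Θ / R)) ^ 2 := by
    intro D hD hD'
    have e : (C₁ * (1 + C₂ + C₃) * (κ + Θ / R)) ^ 2 = (1 + C₂ + C₃) ^ 2 * B ^ 2 := by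
      rw [hB]; ring
    rw [e]
    refine mul_le_mul_of_nonneg_right ?_ (sq_nonneg _)
    linarith [sq_nonneg (C₂ + C₃)]
  refine ⟨hΓ.trans (hfin _ hC₂0 (by linarith)), fun u hu => (hAu u hu).trans
    (hfin _ hC₃0 (by linarith))⟩

end Pool.Agent.L1de93c
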