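import Pool.Agent.Lib_MP_1de93e_cont.NiceB

/-!
# PIECE SMO: difference quotients of norms near a differentiable norm

Let `K = {v | 1/2 ≤ ‖v‖ ≤ 2}`, `fderiv N` is uniformly continuous on `K`. Choose `s₀ ≤ 1/2` with
`‖fderiv N v - fderiv N u‖ ≤ ω/4` for `u, v ∈ K`, `‖v - u‖ ≤ s₀`. For `‖u‖ = 1`, `‖e‖ ≤ 1`:
`|N (u ± s₀ e) - N u ∓ s₀ fderiv N u e| ≤ (ω/4) s₀` (mean value). Let `ε₀ = ω s₀ / 16` and `N'` be
`ε₀`-near `N`: then `|N' (u ± s₀ e) - N' u ∓ s₀ fderiv N u e| ≤ (ω/4) s₀ + ε₀ (1 + 2) ≤ (ω/2) s₀`.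
For `0 < s ≤ s₀`, `N'` is convex along the line, so
`(N' (u + s e) - N' u)/s ≤ (N' (u + s₀ e) - N' u)/s₀ ≤ fderiv N u e + ω` and
`(N' (u + s e) - N' u)/s ≥ (N' u - N' (u - s₀ e))/s₀ ≥ fderiv N u e - ω`.
-/

namespace Pool.Agent.L1de93c

open MeasureTheory Metric Set

theorem sm {N : V → ℝ} (h : Nice N) {ω : ℝ} (hω : 0 < ω) :
    ∃ s₀ > 0, ∃ ε₀ > 0, ∀ N' : V → ℝ, NormV N' → (∀ v, |N' v - N v| ≤ ε₀ * ‖v‖) →
      ∀ (u e : V) (s : ℝ), ‖u‖ = 1 → ‖e‖ ≤ 1 → 0 < s → s ≤ s₀ →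
        |N' (u + s • e) - N' u - s * fderiv ℝ N u e| ≤ ω * s := by
  have hK : IsCompact (closedBall (0 : V) 2 \ ball (0 : V) (1 / 2)) :=
    (isCompact_closedBall 0 2).diff isOpen_ball
  have hKs : closedBall (0 : V) 2 \ ball (0 : V) (1 / 2) ⊆ {0}ᶜ := by
    rintro v hv (rfl : v = 0)
    exact hv.2 (mem_ball_self (by norm_num))
  have hU := hK.uniformContinuousOn_of_continuous (h.continuousOn_fderiv.mono hKs)
  obtain ⟨δ, hδ, hunif⟩ := Metric.uniformContinuousOn_iff_le.1 hU (ω / 4) (by linarith)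
  have hmem : ∀ v : V, 1 / 2 ≤ ‖v‖ → ‖v‖ ≤ 2 →
      v ∈ closedBall (0 : V) 2 \ ball (0 : V) (1 / 2) := by
    intro v h1 h2
    refine ⟨mem_closedBall_zero_iff.2 h2, fun hv => ?_⟩
    have := mem_ball_zero_iff.1 hv
    linarith
  obtain ⟨s₀, hs₀, hs₀δ, hs₀h⟩ : ∃ s₀ : ℝ, 0 < s₀ ∧ s₀ ≤ δ ∧ s₀ ≤ 1 / 2 :=
    ⟨min δ (1 / 2), lt_min hδ (by norm_num), min_le_left _ _, min_le_right _ _⟩
  refine ⟨s₀, hs₀, ω * s₀ / 16, by positivity, ?_⟩
  intro N' hN' hnear u e s hu he hs hss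
  have hc : ∀ v : V, ‖v - u‖ ≤ s₀ → 1 / 2 ≤ ‖v‖ ∧ ‖v‖ ≤ 2 := by
    intro v hv
    have h1 : ‖u‖ ≤ ‖v‖ + ‖v - u‖ := by
      have := norm_sub_norm_le u v
      rw [norm_sub_rev] at this
      linarith
    have h2 : ‖v‖ ≤ ‖u‖ + ‖v - u‖ := by
      have := norm_sub_norm_le v u
      linarith
    rw [hu] at h1 h2
    constructor <;> linarith
  have hmv : ∀ e' : V, ‖e'‖ ≤ 1 →
      |N (u + s₀ • e') - N u - s₀ * fderiv ℝ N u e'| ≤ ω / 4 * s₀ := by
    intro e' he'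
    have hnorm : ‖s₀ • e'‖ ≤ s₀ := by
      rw [norm_smul, Real.norm_eq_abs, abs_of_pos hs₀]
      nlinarith [norm_nonneg e']
    have key := Convex.norm_image_sub_le_of_norm_fderiv_le' (𝕜 := ℝ) (f := N) (C := ω / 4)
      (s := closedBall u s₀) (x := u) (y := u + s₀ • e') (φ := fderiv ℝ N u)
      (fun v hv => h.diff v (by
        rintro rfl
        have := hc 0 (by rw [← dist_eq_norm]; exact hv)
        rw [norm_zero] at this
        linarith [this.1]))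
      (fun v hv => by
        have hv' : dist v u ≤ s₀ := hv
        have h1 := hc v (by rw [← dist_eq_norm]; exact hv')
        have h2 := hunif v (hmem v h1.1 h1.2) u (hmem u (by rw [hu]; norm_num)
          (by rw [hu]; norm_num)) (hv'.trans hs₀δ)
        rwa [dist_eq_norm] at h2)
      (convex_closedBall u s₀) (mem_closedBall_self hs₀.le)
      (by rw [mem_closedBall, dist_eq_norm, add_sub_cancel_left]; exact hnorm)
    rw [add_sub_cancel_left, map_smul, smul_eq_mul, Real.norm_eq_abs] at key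
    refine key.trans ?_
    exact mul_le_mul_of_nonneg_left hnorm (by linarith)
  have hmv' : ∀ e' : V, ‖e'‖ ≤ 1 →
      |N' (u + s₀ • e') - N' u - s₀ * fderiv ℝ N u e'| ≤ ω / 2 * s₀ := by
    intro e' he'
    have hnorm : ‖s₀ • e'‖ ≤ s₀ := by
      rw [norm_smul, Real.norm_eq_abs, abs_of_pos hs₀]
      nlinarith [norm_nonneg e']
    have h1 := abs_le.1 (hmv e' he')
    have h2 := abs_le.1 (hnear (u + s₀ • e'))
    have h3 := abs_le.1 (hnear u)
    have h4 : ‖u + s₀ • e'‖ ≤ 2 := (hc _ (by rw [add_sub_cancel_left]; exact hnorm)).2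
    have h5 : ω * s₀ / 16 * ‖u + s₀ • e'‖ ≤ ω * s₀ / 16 * 2 :=
      mul_le_mul_of_nonneg_left h4 (by positivity)
    rw [hu] at h3
    rw [abs_le]
    have h6 : 0 < ω * s₀ := mul_pos hω hs₀
    constructor <;> nlinarith
  have hup := abs_le.1 (hmv' e he)
  have hdn := abs_le.1 (hmv' (-e) (by rw [norm_neg]; exact he))
  rw [map_neg] at hdn
  have c1 : s₀ * N' (u + s • e) ≤ (s₀ - s) * N' u + s * N' (u + s₀ • e) := by
    have e1 : s₀ • (u + s • e) = (s₀ - s) • u + s • (u + s₀ • e) := by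
      rw [sub_smul, smul_add, smul_add, smul_smul, smul_smul, mul_comm s₀ s]
      abel
    have e2 := hN'.add_le ((s₀ - s) • u) (s • (u + s₀ • e))
    rw [← e1, hN'.smul_nonneg hs₀.le, hN'.smul_nonneg (by linarith), hN'.smul_nonneg hs.le] at e2
    exact e2
  have c2 : (s + s₀) * N' u ≤ s₀ * N' (u + s • e) + s * N' (u + s₀ • -e) := by
    have e1 : (s + s₀) • u = s₀ • (u + s • e) + s • (u + s₀ • -e) := by
      rw [add_smul, smul_add, smul_add, smul_neg, smul_neg, smul_smul, smul_smul, mul_comm s₀ s]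
      abel
    have e2 := hN'.add_le (s₀ • (u + s • e)) (s • (u + s₀ • -e))
    rw [← e1, hN'.smul_nonneg (by linarith), hN'.smul_nonneg hs₀.le, hN'.smul_nonneg hs.le] at e2
    exact e2
  have g1 : s * (N' (u + s₀ • e) - N' u - s₀ * fderiv ℝ N u e) ≤ s * (ω / 2 * s₀) :=
    mul_le_mul_of_nonneg_left hup.2 hs.le
  have g2 : s * (N' (u + s₀ • -e) - N' u - s₀ * -fderiv ℝ N u e) ≤ s * (ω / 2 * s₀) :=
    mul_le_mul_of_nonneg_left hdn.2 hs.le
  have g3 : 0 < s * (ω * s₀) := by positivity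
  rw [abs_le]
  constructor
  · refine le_of_mul_le_mul_left ?_ hs₀
    nlinarith
  · refine le_of_mul_le_mul_left ?_ hs₀
    nlinarith

end Pool.Agent.L1de93c
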