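import Pool.Agent.Lib_MP_1de93e_cont.Osc
import Pool.Agent.Lib_MP_1de93e_cont.SM
import Pool.Agent.Lib_MP_1de93e_cont.Chg
import Pool.Agent.Lib_MP_1de93e_cont.PjP

/-!
# PIECE ILF: from the linear theory to the gauge

## ILF `il_final`. Put `l' = -(1/3) l`, `‖l'‖ ≤ C₁ Θ`, small; `y ∈ closedBall 0 τ`, `z = pj l' y`,
`z = y + O(Θ ‖y‖)`. All constants depend on `N₀, C₁`; `O` uniform.
* `lc`: let `E z = lc F z - b - l z`. `lc (Pull F l') y = -3 log (1 - l' y) + lc F z` (`lc_pull`)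
  `= 3 l' y + b + l z + E z + O(Θ²) = b + E (pj l' y) + O(Θ²)` since `3 l' = -l`. So
  `mo (lc (Pull F l')) 0 τ ≤ 2 ((1/(4τ²)) ∫_{closedBall 0 τ} |E (pj l' y)| + C Θ²) ≤
   2 (2 (1/(4 τ²)) ∫_{closedBall 0 (2τ)} |E| + C Θ²)` (`integral_pj_le`, `mo_le_two`,
  `integral_closedBall_scale`) `≤ 16 (4 C₁ τ² + δ) Θ + C Θ²`.
* `u`, `‖u‖ = 1`: `Pull F l' y u = F z (dpj l' y u)`, `dpj l' y u = (1 - l' y)⁻¹ (u + k y)`,
  `k = (1 - l' y)⁻¹ l' u = O(Θ)`. By `sm` (`e = ± y`, `s = |k| ≤ s₀`):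
  `F z (u + k y) = F z u + k fderiv N₀ u y + O(ω |k|)`; `F z u = N₀ u + O(ε)`. Hence
  `log (Pull F l' y u) = log (F z u) + l' y + (l' u) fderiv N₀ u y / N₀ u + O((ω + ε + Θ) Θ)`, and with
  `E_u z = log (F z u) - b_u - (1/3) (l z + l u fderiv N₀ u z / N₀ u)` and `l = -3 l'`, the linear terms
  cancel up to `O(Θ²)`: `log (Pull F l' y u) = b_u + E_u (pj l' y) + O((ω + ε + Θ) Θ)`. So
  `mo (log (Pull F l' · u)) 0 τ ≤ 16 (4 C₁ τ² + δ) Θ + C (ω + ε + Θ) Θ` as before. Finally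
  `Pull F l' · u = exp (log ...)`, `exp` is Lipschitz on the range (`mo_comp_lip`).
Choose `ω` and then `ε` (and `Θ ≤ ε`) so that `C (ω + ε + Θ) ≤ δ`.
-/

namespace Pool.Agent.L1de93c

open MeasureTheory Metric Set
open scoped ContDiff

theorem ILF_log1 {t : ℝ} (ht : |t| ≤ 1 / 2) :
    |Real.log (1 - t) + t * (1 - t)⁻¹| ≤ 2 * t ^ 2 := by
  have h0 := abs_le.1 ht
  have h1 : 0 < 1 - t := by linarith [h0.2]
  have h2 := Real.log_le_sub_one_of_pos h1
  have h3 := Real.one_sub_inv_le_log_of_pos h1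
  have h4 : t * (1 - t)⁻¹ = (1 - t)⁻¹ - 1 := by
    field_simp
    ring
  have h5 : (1 - t)⁻¹ ≤ 2 := by
    rw [inv_le_comm₀ h1 (by norm_num)]
    linarith [h0.2]
  have h6 : t * (1 - t)⁻¹ - t = t ^ 2 * (1 - t)⁻¹ := by
    field_simp
    ring
  have h7 : t ^ 2 * (1 - t)⁻¹ ≤ t ^ 2 * 2 := mul_le_mul_of_nonneg_left h5 (sq_nonneg t)
  have h8 : 0 ≤ t ^ 2 * (1 - t)⁻¹ := mul_nonneg (sq_nonneg t) (inv_pos.2 h1).le
  rw [abs_le]
  constructor <;> linarith

theorem ILF_log2 {x : ℝ} (hx : |x| ≤ 1 / 2) : |Real.log (1 + x) - x| ≤ 2 * x ^ 2 := by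
  have h0 := abs_le.1 hx
  have h1 : 0 < 1 + x := by linarith [h0.1]
  have h2 := Real.log_le_sub_one_of_pos h1
  have h3 := Real.one_sub_inv_le_log_of_pos h1
  have h5 : (1 + x)⁻¹ ≤ 2 := by
    rw [inv_le_comm₀ h1 (by norm_num)]
    linarith [h0.1]
  have h6 : 1 - (1 + x)⁻¹ = x - x ^ 2 * (1 + x)⁻¹ := by
    field_simp
    ring
  have h7 : x ^ 2 * (1 + x)⁻¹ ≤ x ^ 2 * 2 := mul_le_mul_of_nonneg_left h5 (sq_nonneg x)
  have h8 : 0 ≤ x ^ 2 := sq_nonneg x
  rw [abs_le]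
  constructor <;> linarith

theorem ILF_real {m a a' n D k q η ε C₀ : ℝ} (hm : 0 < m) (ha : m ≤ a) (hn : m ≤ n)
    (han : |a - n| ≤ ε) (hC₀ : 0 ≤ C₀) (hD : |D| ≤ C₀) (hη1 : η ≤ 1) (hη : 0 ≤ η)
    (hk : |k| ≤ q) (hd : |a' - a - k * D| ≤ η * |k|) (hq : (C₀ + 1) * q / m ≤ 1 / 2) :
    |Real.log a' - Real.log a - k * D / n| ≤
      2 * ((C₀ + 1) * q / m) ^ 2 + η * q / m + q * C₀ * ε / m ^ 2 := by
  have ha0 : 0 < a := hm.trans_le ha
  have hn0 : 0 < n := hm.trans_le hn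
  have hq0 : 0 ≤ q := (abs_nonneg _).trans hk
  have hε0 : 0 ≤ ε := (abs_nonneg _).trans han
  have h1 : |a' - a| ≤ (C₀ + 1) * q := by
    have e1 : a' - a = (a' - a - k * D) + k * D := by ring
    rw [e1]
    refine (abs_add_le _ _).trans ?_
    rw [abs_mul k D]
    have e2 : |k| * |D| ≤ q * C₀ := mul_le_mul hk hD (abs_nonneg _) hq0
    have e3 : η * |k| ≤ 1 * q := mul_le_mul hη1 hk (abs_nonneg _) (by norm_num)
    linarith
  have h2 : |(a' - a) / a| ≤ (C₀ + 1) * q / m := by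
    rw [abs_div, abs_of_pos ha0]
    exact div_le_div₀ (by positivity) h1 hm ha
  have h3 := ILF_log2 (h2.trans hq)
  have h4 : 1 + (a' - a) / a = a' / a := by
    field_simp
    ring
  have h5 : 0 < 1 + (a' - a) / a := by
    have := abs_le.1 (h2.trans hq)
    linarith [this.1]
  have h6 : 0 < a' := by
    rw [h4] at h5
    have := mul_pos h5 ha0
    rwa [div_mul_cancel₀ _ ha0.ne'] at this
  rw [h4, Real.log_div h6.ne' ha0.ne'] at h3
  have h7 : ((a' - a) / a) ^ 2 ≤ ((C₀ + 1) * q / m) ^ 2 := by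
    rw [← sq_abs ((a' - a) / a)]
    exact pow_le_pow_left₀ (abs_nonneg _) h2 2
  have h8 : |(a' - a) / a - k * D / n| ≤ η * q / m + q * C₀ * ε / m ^ 2 := by
    have e1 : (a' - a) / a - k * D / n = (a' - a - k * D) / a + k * D * (n - a) / (a * n) := by
      field_simp
      ring
    rw [e1]
    refine (abs_add_le _ _).trans (add_le_add ?_ ?_)
    · rw [abs_div, abs_of_pos ha0]
      exact div_le_div₀ (by positivity) (hd.trans (mul_le_mul_of_nonneg_left hk hη)) hm ha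
    · rw [abs_div, abs_mul, abs_mul, abs_of_pos (mul_pos ha0 hn0), abs_sub_comm n a]
      refine div_le_div₀ (by positivity) ?_ (by positivity) ?_
      · exact mul_le_mul (mul_le_mul hk hD (abs_nonneg _) hq0) han (abs_nonneg _) (by positivity)
      · rw [sq]
        exact mul_le_mul ha hn hm.le ha0.le
  have h9 : Real.log a' - Real.log a - k * D / n =
      (Real.log a' - Real.log a - (a' - a) / a) + ((a' - a) / a - k * D / n) := by ring
  rw [h9]
  refine (abs_add_le _ _).trans ?_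
  linarith

theorem ILF_exp {b s t : ℝ} (hs : s ≤ b) (ht : t ≤ b) :
    |Real.exp s - Real.exp t| ≤ Real.exp b * |s - t| := by
  have aux : ∀ s t : ℝ, s ≤ b → Real.exp s - Real.exp t ≤ Real.exp b * |s - t| := by
    intro s t hs
    have h1 := Real.add_one_le_exp (t - s)
    have h2 : Real.exp t = Real.exp s * Real.exp (t - s) := by
      rw [← Real.exp_add]
      congr 1
      ring
    have h3 : Real.exp s * (t - s + 1) ≤ Real.exp s * Real.exp (t - s) :=
      mul_le_mul_of_nonneg_left h1 (Real.exp_pos s).le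
    have h4 : Real.exp s * (s - t) ≤ Real.exp s * |s - t| :=
      mul_le_mul_of_nonneg_left (le_abs_self _) (Real.exp_pos s).le
    have h5 : Real.exp s * |s - t| ≤ Real.exp b * |s - t| :=
      mul_le_mul_of_nonneg_right (Real.exp_le_exp.2 hs) (abs_nonneg _)
    have h6 : Real.exp s * (t - s + 1) = Real.exp s - Real.exp s * (s - t) := by ring
    linarith
  rw [abs_le]
  constructor
  · have := aux t s ht
    rw [abs_sub_comm] at this
    linarith
  · exact aux s t hs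

theorem ILF_ev (c : ℝ) {d : ℝ} (hd : 0 < d) :
    ∀ᶠ ε : ℝ in nhdsWithin 0 (Ioi 0), c * ε ≤ d := by
  have h1 : ContinuousAt (fun ε : ℝ => c * ε) 0 := by fun_prop
  have h2 : ∀ᶠ ε : ℝ in nhds 0, c * ε < d := h1.eventually (gt_mem_nhds (by simpa using hd))
  exact (h2.filter_mono nhdsWithin_le_nhds).mono fun _ h => h.le

theorem ILF_t {l' : V} (hl : ‖l'‖ ≤ 1 / 20) {y : V} (hy : ‖y‖ ≤ 1) :
    |dot l' y| ≤ 1 / 10 ∧ 0 < 1 - dot l' y ∧ 0 < (1 - dot l' y)⁻¹ ∧ (1 - dot l' y)⁻¹ ≤ 10 / 9 := by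
  have h1 := abs_dot_le l' y
  have h2 : ‖l'‖ * ‖y‖ ≤ 1 / 20 * 1 := mul_le_mul hl hy (norm_nonneg _) (by norm_num)
  have h3 : |dot l' y| ≤ 1 / 10 := by linarith
  have h4 := abs_le.1 h3
  have h5 : 0 < 1 - dot l' y := by linarith [h4.2]
  refine ⟨h3, h5, inv_pos.2 h5, ?_⟩
  rw [inv_le_comm₀ h5 (by norm_num)]
  linarith [h4.2]

theorem ILF_pj {l' : V} (hl : ‖l'‖ ≤ 1 / 20) {τ : ℝ} (hτ1 : τ ≤ 1) {y : V}
    (hy : y ∈ closedBall (0 : V) τ) : pj l' y ∈ closedBall (0 : V) (2 * τ) := by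
  rw [mem_closedBall_zero_iff] at hy ⊢
  obtain ⟨_, _, h3, h4⟩ := ILF_t hl (hy.trans hτ1)
  unfold pj
  rw [norm_smul, Real.norm_eq_abs, abs_of_pos h3]
  have := norm_nonneg y
  nlinarith

theorem ILF_core {l' : V} (hl : ‖l'‖ ≤ 1 / 20) {τ : ℝ} (hτ : 0 < τ) (hτ1 : τ ≤ 1) {h E : V → ℝ}
    (hh : ContinuousOn h (closedBall 0 τ)) (hE : ContinuousOn E (closedBall 0 (2 * τ)))
    {A K c : ℝ} (hA : (1 / 4) * ∫ y in closedBall (0 : V) 1, |E ((2 * τ) • y)| ≤ A)
    (hK : ∀ y ∈ closedBall (0 : V) τ, |h y - c - E (pj l' y)| ≤ K) :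
    mo h 0 τ ≤ 16 * A + 2 * K := by
  have hpc : ContinuousOn (fun y => pj l' y) (closedBall 0 τ) := by
    refine (PjP_continuousOn l').mono fun y hy => ?_
    rw [mem_closedBall_zero_iff] at hy
    have := (ILF_t hl (hy.trans hτ1)).2.1
    change dot l' y < 1
    linarith
  have hEc : ContinuousOn (fun y => |E (pj l' y)|) (closedBall 0 τ) :=
    (hE.comp hpc fun y hy => ILF_pj hl hτ1 hy).abs
  have h1 := mo_le_two (h := h) (x := 0) hτ.le hh c
  have h2 : (1 / 4) * ∫ y in closedBall (0 : V) 1, |h (0 + τ • y) - c| ≤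
      (1 / 4) * ∫ y in closedBall (0 : V) 1, (|E (pj l' (0 + τ • y))| + K) := by
    refine mob_mono (mob_abs_cont (mob_cont hτ.le hh) c)
      ((mob_cont hτ.le hEc).add continuousOn_const) fun y hy => ?_
    have h3 := hK _ (mob_mem hτ.le hy)
    have h4 : h (0 + τ • y) - c = (h (0 + τ • y) - c - E (pj l' (0 + τ • y))) +
        E (pj l' (0 + τ • y)) := by ring
    rw [h4]
    refine (abs_add_le _ _).trans ?_
    linarith
  rw [integral_add (mob_int (mob_cont hτ.le hEc)) (mob_int continuousOn_const), mul_add,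
    mob_const] at h2
  have h5 := integral_closedBall_scale hτ 0 (fun y => |E (pj l' y)|)
  have h6 := integral_closedBall_scale (by linarith : 0 < 2 * τ) 0 (fun y => |E y|)
  have h7 := integral_pj_le hl hτ hτ1 (g := fun y => |E y|) hE.abs (fun y _ => abs_nonneg _)
  rw [h5, h6] at h7
  have h8 : τ ^ 2 * ∫ y in closedBall (0 : V) 1, |E (pj l' (0 + τ • y))| ≤
      τ ^ 2 * (8 * ∫ y in closedBall (0 : V) 1, |E (0 + (2 * τ) • y)|) := by
    refine h7.trans (le_of_eq ?_)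
    ring
  have h9 := le_of_mul_le_mul_left h8 (by positivity)
  have h10 : ∫ y in closedBall (0 : V) 1, |E (0 + (2 * τ) • y)| =
      ∫ y in closedBall (0 : V) 1, |E ((2 * τ) • y)| := by
    simp only [zero_add]
  rw [h10] at h9
  linarith

/-- ILF -/
theorem il_final {N₀ : V → ℝ} (h₀ : Nice N₀) {C₁ : ℝ} (hC₁ : 0 < C₁) :
    ∃ C₂ > 0, ∀ τ : ℝ, 0 < τ → τ ≤ 1 / 32 → ∀ δ > 0, ∃ ε > 0, ∀ R : ℝ, 1 ≤ R → ∀ Θ, 0 < Θ → Θ ≤ ε →
      ∀ (U : Set V) (F : V → V → ℝ), Loc N₀ R ε Θ U F → ∀ l : V, ‖l‖ ≤ C₁ * Θ →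
      (∃ b : ℝ, (1 / 4) * ∫ y in closedBall (0 : V) 1,
          |lc F ((2 * τ) • y) - b - dot l ((2 * τ) • y)| ≤ (C₁ * (2 * τ) ^ 2 + δ) * Θ) →
      (∀ u, ‖u‖ = 1 → ∃ b : ℝ, (1 / 4) * ∫ y in closedBall (0 : V) 1,
          |Real.log (F ((2 * τ) • y) u) - b - (1 / 3) * (dot l ((2 * τ) • y) +
            dot l u * fderiv ℝ N₀ u ((2 * τ) • y) / N₀ u)| ≤ (C₁ * (2 * τ) ^ 2 + δ) * Θ) →
      OB (Pull F (-((1 / 3 : ℝ) • l))) 0 τ ((C₂ * τ ^ 2 + C₂ * δ) * Θ) := by
  obtain ⟨c₀, hc₀, hlow⟩ := h₀.toNormV.exists_lower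
  obtain ⟨C₀, hC₀, hup⟩ : ∃ C₀ : ℝ, 0 < C₀ ∧ ∀ u, N₀ u ≤ C₀ * ‖u‖ := by
    refine ⟨N₀ (1, 0) + N₀ (0, 1), ?_, fun u => h₀.toNormV.le_mul_norm u⟩
    have h1 := h₀.pos (1, 0) (by simp)
    have h2 := h₀.pos (0, 1) (by simp)
    linarith
  obtain ⟨m, hm, hmc⟩ : ∃ m : ℝ, 0 < m ∧ c₀ = 2 * m := ⟨c₀ / 2, by positivity, by ring⟩
  refine ⟨(8 * (C₀ + 1) + 1) * (64 * C₁ + 18), by positivity, ?_⟩
  intro τ hτ hτ1 δ hδ
  obtain ⟨η, hη, hη1, hη2⟩ : ∃ η : ℝ, 0 < η ∧ η ≤ 1 ∧ (C₁ / m) * η ≤ δ / 2 := by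
    have h1 := ILF_ev (C₁ / m) (half_pos hδ)
    have h2 := ILF_ev 1 (d := 1) one_pos
    have h3 : ∀ᶠ ε : ℝ in nhdsWithin 0 (Ioi 0), ε ∈ Ioi (0 : ℝ) := self_mem_nhdsWithin
    obtain ⟨η, g1, g2, g3⟩ := (h1.and (h2.and h3)).exists
    exact ⟨η, g3, by linarith, g1⟩
  obtain ⟨s₀, hs₀, ε₀, hε₀, hsm⟩ := sm h₀ hη
  set B : ℝ := 2 * C₁ ^ 2 + 2 * ((C₀ + 1) * C₁ / m) ^ 2 + C₁ * C₀ / m ^ 2 with hB
  obtain ⟨ε, hε, hε1, hε2, hε3, hε4, hε5, hε6, hε7, hε8⟩ : ∃ ε : ℝ, 0 < ε ∧ ε ≤ ε₀ ∧ ε ≤ m ∧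
      ε ≤ 1 ∧ C₁ * ε ≤ s₀ ∧ C₁ * ε ≤ 1 / 20 ∧ ((C₀ + 1) * C₁ / m) * ε ≤ 1 / 2 ∧ B * ε ≤ δ / 2 ∧
      (6 * C₁ ^ 2) * ε ≤ δ := by
    have h0 : ∀ᶠ ε : ℝ in nhdsWithin 0 (Ioi 0), ε ∈ Ioi (0 : ℝ) := self_mem_nhdsWithin
    have h1 := ILF_ev 1 hε₀
    have h2 := ILF_ev 1 hm
    have h3 := ILF_ev 1 (d := 1) one_pos
    have h4 := ILF_ev C₁ hs₀
    have h5 := ILF_ev C₁ (d := 1 / 20) (by norm_num)
    have h6 := ILF_ev ((C₀ + 1) * C₁ / m) (d := 1 / 2) (by norm_num)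
    have h7 := ILF_ev B (half_pos hδ)
    have h8 := ILF_ev (6 * C₁ ^ 2) hδ
    obtain ⟨ε, g0, g1, g2, g3, g4, g5, g6, g7, g8⟩ :=
      (h0.and (h1.and (h2.and (h3.and (h4.and (h5.and (h6.and (h7.and h8)))))))).exists
    exact ⟨ε, g0, by linarith, by linarith, by linarith, g4, g5, g6, g7, g8⟩
  refine ⟨ε, hε, ?_⟩
  intro R hR Θ hΘ hΘε U F L l hl hlcF hlogF
  set l' : V := -((1 / 3 : ℝ) • l) with hl'
  have hll : ∀ v, dot l v = -3 * dot l' v := by
    intro v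
    rw [hl']
    simp only [dot, Prod.fst_neg, Prod.snd_neg, Prod.smul_fst, Prod.smul_snd, smul_eq_mul]
    ring
  have hln : ‖l'‖ ≤ C₁ * Θ / 3 := by
    rw [hl', norm_neg, norm_smul]
    norm_num
    linarith
  have hCΘ : C₁ * Θ ≤ C₁ * ε := mul_le_mul_of_nonneg_left hΘε hC₁.le
  have hCΘ0 : 0 < C₁ * Θ := mul_pos hC₁ hΘ
  have hl20 : ‖l'‖ ≤ 1 / 20 := by linarith
  have hτ2 : τ ≤ 1 := by linarith
  have hsub : closedBall (0 : V) (2 * τ) ⊆ closedBall 0 R :=
    closedBall_subset_closedBall (by linarith)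
  have hyn : ∀ y ∈ closedBall (0 : V) τ, ‖y‖ ≤ 1 := by
    intro y hy
    rw [mem_closedBall_zero_iff] at hy
    linarith
  have ht : ∀ y ∈ closedBall (0 : V) τ, |dot l' y| ≤ C₁ * Θ := by
    intro y hy
    have h1 := abs_dot_le l' y
    have h2 : ‖l'‖ * ‖y‖ ≤ C₁ * Θ / 3 * 1 :=
      mul_le_mul hln (hyn y hy) (norm_nonneg _) (by positivity)
    linarith
  have hA : 16 * ((C₁ * (2 * τ) ^ 2 + δ) * Θ) + 2 * (δ * Θ) ≤ (64 * C₁ * τ ^ 2 + 18 * δ) * Θ := by
    refine le_of_eq ?_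
    ring
  have hlog1 : ∀ y ∈ closedBall (0 : V) τ,
      |Real.log (1 - dot l' y) + dot l' y * (1 - dot l' y)⁻¹| ≤ 2 * C₁ ^ 2 * Θ ^ 2 := by
    intro y hy
    have h1 := ILF_log1 (t := dot l' y) ((ILF_t hl20 (hyn y hy)).1.trans (by norm_num))
    have h2 : dot l' y ^ 2 ≤ (C₁ * Θ) ^ 2 := by
      rw [← sq_abs]
      exact pow_le_pow_left₀ (abs_nonneg _) (ht y hy) 2
    calc _ ≤ _ := h1
      _ ≤ 2 * (C₁ * Θ) ^ 2 := by linarith
      _ = _ := by ring
  have hRP := L.rp.pull l'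
  have hdom : closedBall (0 : V) τ ⊆ {y | dot l' y < 1 ∧ pj l' y ∈ U} := by
    intro y hy
    refine ⟨?_, L.sub (hsub (ILF_pj hl20 hτ2 hy))⟩
    have := (ILF_t hl20 (hyn y hy)).2.1
    linarith
  have hdot : Continuous fun z : V => dot l z := by
    unfold dot
    fun_prop
  have hΘ2 : Θ ^ 2 ≤ ε * Θ := by
    rw [sq]
    exact mul_le_mul_of_nonneg_right hΘε hΘ.le
  refine ⟨fun u hu => ?_, ?_⟩
  · obtain ⟨b, hb⟩ := hlogF u hu
    set E : V → ℝ := fun z => Real.log (F z u) - b - (1 / 3) * (dot l z +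
      dot l u * fderiv ℝ N₀ u z / N₀ u) with hE
    have hu0 : u ≠ 0 := by
      intro h
      rw [h, norm_zero] at hu
      exact zero_ne_one hu
    have hFlow : ∀ z ∈ closedBall (0 : V) R, ∀ v, m * ‖v‖ ≤ F z v := by
      intro z hz v
      have h1 := (abs_le.mp (L.near z hz v)).1
      have h2 := hlow v
      have h3 : ε * ‖v‖ ≤ m * ‖v‖ := mul_le_mul_of_nonneg_right hε2 (norm_nonneg _)
      rw [hmc] at h2
      linarith
    have hFup : ∀ z ∈ closedBall (0 : V) R, ∀ v, F z v ≤ (C₀ + 1) * ‖v‖ := by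
      intro z hz v
      have h1 := (abs_le.mp (L.near z hz v)).2
      have h2 := hup v
      have h3 : ε * ‖v‖ ≤ 1 * ‖v‖ := mul_le_mul_of_nonneg_right hε3 (norm_nonneg _)
      linarith
    have hEc : ContinuousOn E (closedBall 0 (2 * τ)) := by
      have h1 : ContinuousOn (fun z => Real.log (F z u)) (closedBall 0 (2 * τ)) := by
        refine ((L.rp.toHP.continuousOn_left u).mono (hsub.trans L.sub)).log fun z hz => ?_
        have := hFlow z (hsub hz) u
        rw [hu, mul_one] at this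
        exact (hm.trans_le this).ne'
      have h2 : Continuous fun z : V => (1 / 3 : ℝ) * (dot l z +
          dot l u * fderiv ℝ N₀ u z / N₀ u) := by
        have h3 : Continuous fun z : V => fderiv ℝ N₀ u z := (fderiv ℝ N₀ u).continuous
        exact continuous_const.mul (hdot.add ((continuous_const.mul h3).div_const _))
      exact (h1.sub continuousOn_const).sub h2.continuousOn
    -- the pointwise description of the pull back
    have hpt : ∀ y ∈ closedBall (0 : V) τ, 0 < Pull F l' y u ∧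
        Pull F l' y u ≤ 4 * (C₀ + 1) ∧ m / 4 ≤ Pull F l' y u ∧
        |Real.log (Pull F l' y u) - b - E (pj l' y)| ≤ δ * Θ := by
      intro y hy
      obtain ⟨t1, t2, t3, t4⟩ := ILF_t hl20 (hyn y hy)
      have hz : pj l' y ∈ closedBall (0 : V) R := hsub (ILF_pj hl20 hτ2 hy)
      have hN := L.rp.toHP.norm _ (L.sub hz)
      set z : V := pj l' y with hzdef
      set k : ℝ := (1 - dot l' y)⁻¹ * dot l' u with hk
      have hkq : |k| ≤ C₁ * Θ := by
        rw [hk, abs_mul, abs_of_pos t3]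
        have h1 := abs_dot_le l' u
        rw [hu, mul_one] at h1
        have h2 : (1 - dot l' y)⁻¹ * |dot l' u| ≤ 10 / 9 * (2 * ‖l'‖) :=
          mul_le_mul t4 h1 (abs_nonneg _) (by norm_num)
        linarith
      have hks : |k| ≤ s₀ := by linarith
      have hPull : Pull F l' y u = (1 - dot l' y)⁻¹ * F z (u + k • y) := by
        have e1 : dpj l' y u = (1 - dot l' y)⁻¹ • (u + k • y) := by
          rw [dpj_apply, smul_add, smul_smul, hk, ← mul_assoc, ← sq]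
        unfold Pull
        rw [e1, hN.smul_nonneg t3.le]
      -- the first order expansion
      have hexp : |F z (u + k • y) - F z u - k * fderiv ℝ N₀ u y| ≤ η * |k| := by
        have hnear : ∀ v, |F z v - N₀ v| ≤ ε₀ * ‖v‖ := fun v =>
          (L.near z hz v).trans (mul_le_mul_of_nonneg_right hε1 (norm_nonneg _))
        rcases lt_trichotomy k 0 with hk0 | hk0 | hk0
        · have h1 := hsm (F z) hN hnear u (-y) (-k) hu (by rw [norm_neg]; exact hyn y hy)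
            (by linarith) (by rw [abs_of_neg hk0] at hks; exact hks)
          rw [smul_neg, neg_smul, neg_neg, map_neg, neg_mul_neg] at h1
          rwa [abs_of_neg hk0]
        · rw [hk0]
          simp
        · have h1 := hsm (F z) hN hnear u y k hu (hyn y hy) hk0
            (by rw [abs_of_pos hk0] at hks; exact hks)
          rwa [abs_of_pos hk0]
      have ha : m ≤ F z u := by
        have := hFlow z hz u
        rwa [hu, mul_one] at this
      have hn : m ≤ N₀ u := by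
        have := hlow u
        rw [hu, mul_one, hmc] at this
        linarith
      have han : |F z u - N₀ u| ≤ ε := by
        have := L.near z hz u
        rwa [hu, mul_one] at this
      have hD : |fderiv ℝ N₀ u y| ≤ C₀ := by
        refine (h₀.abs_fderiv_le hu0 y).trans ((hup y).trans ?_)
        calc C₀ * ‖y‖ ≤ C₀ * 1 := mul_le_mul_of_nonneg_left (hyn y hy) hC₀.le
          _ = C₀ := mul_one _
      have hreal := ILF_real hm ha hn han hC₀.le hD hη1 hη.le hkq hexp (by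
        calc (C₀ + 1) * (C₁ * Θ) / m = ((C₀ + 1) * C₁ / m) * Θ := by ring
          _ ≤ ((C₀ + 1) * C₁ / m) * ε := mul_le_mul_of_nonneg_left hΘε (by positivity)
          _ ≤ 1 / 2 := hε6)
      have hvn : ‖u + k • y‖ ≤ 2 := by
        refine (norm_add_le _ _).trans ?_
        rw [norm_smul, hu, Real.norm_eq_abs]
        have h1 : |k| * ‖y‖ ≤ 1 * 1 :=
          mul_le_mul (by linarith) (hyn y hy) (norm_nonneg _) (by norm_num)
        linarith
      have hvn2 : 1 / 2 ≤ ‖u + k • y‖ := by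
        have h1 : ‖u‖ ≤ ‖u + k • y‖ + ‖k • y‖ := by
          have := norm_sub_le (u + k • y) (k • y)
          rwa [add_sub_cancel_right] at this
        rw [norm_smul, hu, Real.norm_eq_abs] at h1
        have h2 : |k| * ‖y‖ ≤ 1 / 20 * 1 :=
          mul_le_mul (by linarith) (hyn y hy) (norm_nonneg _) (by norm_num)
        linarith
      have hF1 := hFlow z hz (u + k • y)
      have hF2 := hFup z hz (u + k • y)
      have hF3 : m / 2 ≤ F z (u + k • y) := by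
        have : m * (1 / 2) ≤ m * ‖u + k • y‖ := mul_le_mul_of_nonneg_left hvn2 hm.le
        linarith only [this, hF1]
      have hF4 : F z (u + k • y) ≤ (C₀ + 1) * 2 :=
        hF2.trans (mul_le_mul_of_nonneg_left hvn (by positivity))
      have hF0 : 0 < F z (u + k • y) := by linarith
      have t5 : 1 / 2 ≤ (1 - dot l' y)⁻¹ := by
        rw [le_inv_comm₀ (by norm_num) t2]
        have := (abs_le.1 t1).1
        linarith
      refine ⟨?_, ?_, ?_, ?_⟩
      · rw [hPull]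
        exact mul_pos t3 hF0
      · rw [hPull]
        calc (1 - dot l' y)⁻¹ * F z (u + k • y) ≤ 10 / 9 * ((C₀ + 1) * 2) :=
              mul_le_mul t4 hF4 hF0.le (by norm_num)
          _ ≤ 4 * (C₀ + 1) := by linarith only [hC₀]
      · rw [hPull]
        calc m / 4 = 1 / 2 * (m / 2) := by ring
          _ ≤ (1 - dot l' y)⁻¹ * F z (u + k • y) := mul_le_mul t5 hF3 (by positivity) t3.le
      · have e1 : Real.log (Pull F l' y u) - b - E z =
            -(Real.log (1 - dot l' y) + dot l' y * (1 - dot l' y)⁻¹) +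
            (Real.log (F z (u + k • y)) - Real.log (F z u) - k * fderiv ℝ N₀ u y / N₀ u) := by
          rw [hPull, Real.log_mul t3.ne' hF0.ne', Real.log_inv, hE]
          simp only
          have e2 : dot l z = -3 * ((1 - dot l' y)⁻¹ * dot l' y) := by
            rw [hll, hzdef, pj, dot_smul_right]
          have e3 : dot l u * fderiv ℝ N₀ u z = -3 * (k * fderiv ℝ N₀ u y) := by
            rw [hll, hzdef, pj, map_smul, smul_eq_mul, hk]
            ring
          rw [e2, e3]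
          ring
        rw [e1]
        refine (abs_add_le _ _).trans ?_
        rw [abs_neg]
        have g1 := hlog1 y hy
        have g2 : 2 * ((C₀ + 1) * (C₁ * Θ) / m) ^ 2 = 2 * ((C₀ + 1) * C₁ / m) ^ 2 * Θ ^ 2 := by ring
        have g3 : η * (C₁ * Θ) / m = (C₁ / m) * η * Θ := by ring
        have g4 : C₁ * Θ * C₀ * ε / m ^ 2 = C₁ * C₀ / m ^ 2 * (ε * Θ) := by ring
        rw [g2, g3, g4] at hreal
        have g5 : 2 * C₁ ^ 2 * Θ ^ 2 ≤ 2 * C₁ ^ 2 * (ε * Θ) :=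
          mul_le_mul_of_nonneg_left hΘ2 (by positivity)
        have g6 : 2 * ((C₀ + 1) * C₁ / m) ^ 2 * Θ ^ 2 ≤ 2 * ((C₀ + 1) * C₁ / m) ^ 2 * (ε * Θ) :=
          mul_le_mul_of_nonneg_left hΘ2 (by positivity)
        have g7 : (C₁ / m) * η * Θ ≤ δ / 2 * Θ := mul_le_mul_of_nonneg_right hη2 hΘ.le
        have g8 : B * ε * Θ ≤ δ / 2 * Θ := mul_le_mul_of_nonneg_right hε7 hΘ.le
        have g9 : B * ε * Θ = 2 * C₁ ^ 2 * (ε * Θ) + 2 * ((C₀ + 1) * C₁ / m) ^ 2 * (ε * Θ) +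
            C₁ * C₀ / m ^ 2 * (ε * Θ) := by
          rw [hB]
          ring
        linarith
    have hPc : ContinuousOn (fun y => Pull F l' y u) (closedBall 0 τ) :=
      (hRP.toHP.continuousOn_left u).mono hdom
    have hLc : ContinuousOn (fun y => Real.log (Pull F l' y u)) (closedBall 0 τ) :=
      hPc.log fun y hy => (hpt y hy).1.ne'
    have hmo := ILF_core hl20 hτ hτ2 hLc hEc hb (fun y hy => (hpt y hy).2.2.2)
    have hmo2 := mo_comp_lip (h := fun y => Real.log (Pull F l' y u)) (a := Real.log (m / 4))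
      (b := Real.log (4 * (C₀ + 1))) (L := 4 * (C₀ + 1)) hτ.le hLc
      (fun y hy => ⟨Real.log_le_log (by positivity) (hpt y hy).2.2.1,
        Real.log_le_log (hpt y hy).1 (hpt y hy).2.1⟩) (φ := Real.exp) (by positivity)
      (fun s hs t ht => by
        have h1 := ILF_exp hs.2 ht.2
        rwa [Real.exp_log (by positivity)] at h1)
    have hmo3 : mo (fun y => Pull F l' y u) 0 τ =
        mo (fun y => Real.exp (Real.log (Pull F l' y u))) 0 τ := by
      have h1 : ∀ y ∈ closedBall (0 : V) 1, Pull F l' (0 + τ • y) u =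
          Real.exp (Real.log (Pull F l' (0 + τ • y) u)) := fun y hy =>
        (Real.exp_log (hpt _ (mob_mem hτ.le hy)).1).symm
      have h2 : av (fun y => Pull F l' y u) 0 τ =
          av (fun y => Real.exp (Real.log (Pull F l' y u))) 0 τ := by
        unfold av
        congr 1
        exact setIntegral_congr_fun measurableSet_closedBall h1
      unfold mo
      rw [h2]
      congr 1
      refine setIntegral_congr_fun measurableSet_closedBall fun y hy => ?_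
      simp only
      rw [← h1 y hy]
    rw [hmo3]
    have h1 : 2 * (4 * (C₀ + 1)) * mo (fun y => Real.log (Pull F l' y u)) 0 τ ≤
        2 * (4 * (C₀ + 1)) * ((64 * C₁ * τ ^ 2 + 18 * δ) * Θ) :=
      mul_le_mul_of_nonneg_left (hmo.trans hA) (by positivity)
    refine hmo2.trans (h1.trans ?_)
    have h2 : 2 * (4 * (C₀ + 1)) * ((64 * C₁ * τ ^ 2 + 18 * δ) * Θ) =
        8 * (C₀ + 1) * (64 * C₁ * τ ^ 2 + 18 * δ) * Θ := by ring
    rw [h2]
    refine mul_le_mul_of_nonneg_right ?_ hΘ.le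
    have h3 : 0 ≤ τ ^ 2 := sq_nonneg τ
    have h4 : 64 * C₁ * τ ^ 2 + 18 * δ ≤ (64 * C₁ + 18) * τ ^ 2 + (64 * C₁ + 18) * δ := by
      have h5 : 0 ≤ 64 * C₁ * δ := by positivity
      linarith only [h3, h5]
    calc 8 * (C₀ + 1) * (64 * C₁ * τ ^ 2 + 18 * δ)
        ≤ (8 * (C₀ + 1) + 1) * ((64 * C₁ + 18) * τ ^ 2 + (64 * C₁ + 18) * δ) :=
          mul_le_mul (by linarith) h4 (by positivity) (by positivity)
      _ = _ := by ring
  · obtain ⟨b, hb⟩ := hlcF
    have hEc : ContinuousOn (fun z => lc F z - b - dot l z) (closedBall 0 (2 * τ)) :=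
      (((lc_continuousOn L.rp.toHP).mono (hsub.trans L.sub)).sub continuousOn_const).sub
        hdot.continuousOn
    have hLc : ContinuousOn (lc (Pull F l')) (closedBall 0 τ) :=
      (lc_continuousOn hRP.toHP).mono hdom
    have hmo := ILF_core (K := δ * Θ) (c := b) hl20 hτ hτ2 hLc hEc hb (fun y hy => by
      have hz : pj l' y ∈ U := (hdom hy).2
      rw [lc_pull (hdom hy).1 (L.rp.toHP.norm _ hz)]
      have e1 : dot l (pj l' y) = -3 * (dot l' y * (1 - dot l' y)⁻¹) := by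
        rw [hll, pj, dot_smul_right]
        ring
      have e2 : -3 * Real.log (1 - dot l' y) + lc F (pj l' y) - b -
          (lc F (pj l' y) - b - dot l (pj l' y)) =
          -3 * (Real.log (1 - dot l' y) + dot l' y * (1 - dot l' y)⁻¹) := by
        rw [e1]
        ring
      rw [e2, abs_mul]
      have g1 := hlog1 y hy
      have g2 : |(-3 : ℝ)| = 3 := by norm_num
      rw [g2]
      have g3 : 6 * C₁ ^ 2 * Θ ^ 2 ≤ 6 * C₁ ^ 2 * (ε * Θ) :=
        mul_le_mul_of_nonneg_left hΘ2 (by positivity)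
      have g4 : 6 * C₁ ^ 2 * ε * Θ ≤ δ * Θ := mul_le_mul_of_nonneg_right hε8 hΘ.le
      linarith)
    refine (hmo.trans hA).trans (mul_le_mul_of_nonneg_right ?_ hΘ.le)
    have h3 : 0 ≤ τ ^ 2 := sq_nonneg τ
    have h4 : 64 * C₁ * τ ^ 2 + 18 * δ ≤ (64 * C₁ + 18) * τ ^ 2 + (64 * C₁ + 18) * δ := by
      have h5 : 0 ≤ 64 * C₁ * δ := by positivity
      linarith only [h3, h5]
    calc 64 * C₁ * τ ^ 2 + 18 * δ
        ≤ 1 * ((64 * C₁ + 18) * τ ^ 2 + (64 * C₁ + 18) * δ) := by linarith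
      _ ≤ (8 * (C₀ + 1) + 1) * ((64 * C₁ + 18) * τ ^ 2 + (64 * C₁ + 18) * δ) :=
          mul_le_mul_of_nonneg_right (by linarith) (by positivity)
      _ = _ := by ring

end Pool.Agent.L1de93c
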