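import Pool.Agent.Lib_MP_1de93e_cont.MoB

/-!
# PIECE JN4: the John-Nirenberg inequality in `L⁴`

Let `h` be continuous on `Q = closedBall 0 1` with `mo h x r ≤ Θ` on all subsquares. Dyadic proof, no
measure theory beyond splitting a square into four.
Notation: the children of the square `(x, r)` are `(x + (r/2) s, r/2)`, `s ∈ {±1}²`;
`av h x r = (1/4) ∑_s av h (x + (r/2) s) (r/2)` (split `[-1,1]²` into four squares).
For a subsquare `P = (x, r)` and `a : ℝ` define recursively
`T 0 P a = (av h P - a)⁴`, `T (n+1) P a = (1/4) ∑_{children} T n P_i a` and with `λ = 16 Θ`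
`w 0 P a = 1` if `|av h P - a| > λ`, else `0`; `w (n+1) P a = 1` if `|av h P - a| > λ`, else
`(1/4) ∑ w n P_i a`.
(i) `|av h P_i - av h P| ≤ 4 Θ` for a child `P_i` (`abs_av_sub_av_le`).
(ii) `λ * w n P a ≤ (1/4) ∫_{closedBall 0 1} |h (x + r y) - a| dy`: induction (if stopped, the right side is
`≥ |av h P - a| > λ`; otherwise average over the children). So
`w n P (av h P) ≤ Θ / λ = 1/16` (if `Θ > 0`).
(iii) Claim `E n P := T n P (av h P) ≤ B := 2 λ⁴ + (λ + 4 Θ)⁴` for all subsquares `P` and `n`, by strong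
induction on `n`. Assume it for all `k < n`. Then for `k < n` and every subsquare `P'`, `a` with
`|av h P' - a| ≤ λ + 4 Θ`: `T k P' a ≤ λ⁴ + w k P' a * 8 (B + (λ + 4 Θ)⁴)`, by induction on `k`: if
`|av h P' - a| > λ`, `w = 1` and `T k P' a ≤ 8 (T k P' (av h P') + (av h P' - a)⁴)` (convexity
`(p + q)⁴ ≤ 8 (p⁴ + q⁴)` on each leaf) `≤ 8 (B + (λ + 4Θ)⁴)`. If `|av h P' - a| ≤ λ`: for `k = 0`
`T 0 ≤ λ⁴`; for `k + 1` the children satisfy `|av h P'_i - a| ≤ λ + 4 Θ`, use induction and average.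
Now for `P` and `a = av h P`, `n ≥ 1`: average the claim (for `k = n - 1`) over the children:
`E n P ≤ λ⁴ + w n P a * 8 (B + (λ+4Θ)⁴) ≤ λ⁴ + (1/2) (B + (λ + 4Θ)⁴) ≤ B`. (`n = 0`: `E 0 P = 0`.)
(iv) Conclusion. Let `ε > 0` and `n` so large that `h` oscillates at most `ε` on squares of radius
`2⁻ⁿ` in `Q` (uniform continuity). By induction on `n`,
`(1/4) ∫_{closedBall 0 1} (h (x + r y) - a)⁴ dy ≤ 8 (T n P a + ε⁴)` when `h` oscillates at most `ε` on
the squares of generation `n` of `P` (`|h - a| ≤ |av h leaf - a| + ε`). With `P = Q`, `a = av h 0 1`,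
`ε → 0`: `∫_Q (h - a)⁴ ≤ 32 B = 32 (2 * 16⁴ + 20⁴) Θ⁴`. If `Θ = 0` apply this with all small `Θ' > 0`.
-/

namespace Pool.Agent.L1de93c

open MeasureTheory Metric Set

/-- The four corners. -/
def jnCor : Fin 4 → V := ![(1, 1), (1, -1), (-1, 1), (-1, -1)]

theorem jn_norm_cor (i : Fin 4) : ‖jnCor i‖ = 1 := by
  fin_cases i <;> simp [jnCor, Prod.norm_def]

theorem jn_child_sub {x : V} {r : ℝ} (hr : 0 < r) (i : Fin 4) :
    closedBall (x + (r / 2) • jnCor i) (r / 2) ⊆ closedBall x r := by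
  apply closedBall_subset_closedBall'
  rw [dist_eq_norm, add_sub_cancel_left, norm_smul, jn_norm_cor, Real.norm_eq_abs,
    abs_of_pos (by linarith)]
  linarith

theorem jn_volume_fst_zero : volume {y : V | y.1 = 0} = 0 := by
  have : {y : V | y.1 = 0} = ({0} : Set ℝ) ×ˢ (univ : Set ℝ) := by
    ext y; simp
  rw [this, Measure.volume_eq_prod, Measure.prod_prod]
  simp

theorem jn_volume_snd_zero : volume {y : V | y.2 = 0} = 0 := by
  have : {y : V | y.2 = 0} = (univ : Set ℝ) ×ˢ ({0} : Set ℝ) := by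
    ext y; simp
  rw [this, Measure.volume_eq_prod, Measure.prod_prod]
  simp

theorem jn_mem_cb (x : V) (r : ℝ) (y : V) :
    y ∈ closedBall x r ↔ |y.1 - x.1| ≤ r ∧ |y.2 - x.2| ≤ r := by
  rw [mem_closedBall, Prod.dist_eq, max_le_iff, Real.dist_eq, Real.dist_eq]

theorem jn_ae : ∀ᵐ y : V, y.1 ≠ 0 ∧ y.2 ≠ 0 := by
  have h1 : ∀ᵐ y : V, y.1 ≠ 0 := by
    rw [ae_iff]; simpa using jn_volume_fst_zero
  have h2 : ∀ᵐ y : V, y.2 ≠ 0 := by
    rw [ae_iff]; simpa using jn_volume_snd_zero
  filter_upwards [h1, h2] with y a b using ⟨a, b⟩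

/-- Splitting the unit square into four squares. -/
theorem jn_split_unit {f : V → ℝ} (hf : IntegrableOn f (closedBall (0 : V) 1)) :
    ∫ y in closedBall (0 : V) 1, f y =
      ∑ i : Fin 4, ∫ y in closedBall ((1 / 2 : ℝ) • jnCor i) (1 / 2), f y := by
  have hA : MeasurableSet {y : V | 0 < y.1} := measurableSet_lt measurable_const measurable_fst
  have hB : MeasurableSet {y : V | 0 < y.2} := measurableSet_lt measurable_const measurable_snd
  have e1 := (integral_inter_add_sdiff hA hf).symm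
  have f1 : IntegrableOn f (closedBall (0 : V) 1 ∩ {y : V | 0 < y.1}) :=
    hf.mono_set inter_subset_left
  have f2 : IntegrableOn f (closedBall (0 : V) 1 \ {y : V | 0 < y.1}) :=
    hf.mono_set sdiff_subset
  have e2 := (integral_inter_add_sdiff hB f1).symm
  have e3 := (integral_inter_add_sdiff hB f2).symm
  rw [e1, e2, e3, Fin.sum_univ_four]
  have g0 : ((closedBall (0 : V) 1 ∩ {y : V | 0 < y.1}) ∩ {y : V | 0 < y.2} : Set V) =ᵐ[volume]
      closedBall ((1 / 2 : ℝ) • jnCor 0) (1 / 2) := by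
    filter_upwards [jn_ae] with y hy
    apply propext
    change ((y ∈ closedBall (0 : V) 1 ∧ 0 < y.1) ∧ 0 < y.2) ↔ y ∈ closedBall _ _
    rw [jn_mem_cb, jn_mem_cb]
    simp only [jnCor, Matrix.cons_val_zero, Prod.smul_mk, smul_eq_mul, Prod.fst_zero,
      Prod.snd_zero, abs_le]
    obtain ⟨h1, h2⟩ := hy
    constructor
    · rintro ⟨⟨⟨⟨a1, a2⟩, a3, a4⟩, a5⟩, a6⟩
      exact ⟨⟨by linarith, by linarith⟩, by linarith, by linarith⟩
    · rintro ⟨⟨a1, a2⟩, a3, a4⟩
      exact ⟨⟨⟨⟨by linarith, by linarith⟩, by linarith, by linarith⟩,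
        lt_of_le_of_ne (by linarith) (Ne.symm h1)⟩, lt_of_le_of_ne (by linarith) (Ne.symm h2)⟩
  have g1 : ((closedBall (0 : V) 1 ∩ {y : V | 0 < y.1}) \ {y : V | 0 < y.2} : Set V) =ᵐ[volume]
      closedBall ((1 / 2 : ℝ) • jnCor 1) (1 / 2) := by
    filter_upwards [jn_ae] with y hy
    apply propext
    change ((y ∈ closedBall (0 : V) 1 ∧ 0 < y.1) ∧ ¬ 0 < y.2) ↔ y ∈ closedBall _ _
    rw [jn_mem_cb, jn_mem_cb]
    simp only [jnCor, Matrix.cons_val_one, Matrix.cons_val_zero, Prod.smul_mk, smul_eq_mul, Prod.fst_zero,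
      Prod.snd_zero, abs_le]
    obtain ⟨h1, h2⟩ := hy
    constructor
    · rintro ⟨⟨⟨⟨a1, a2⟩, a3, a4⟩, a5⟩, a6⟩
      exact ⟨⟨by linarith, by linarith⟩, by linarith, by linarith⟩
    · rintro ⟨⟨a1, a2⟩, a3, a4⟩
      exact ⟨⟨⟨⟨by linarith, by linarith⟩, by linarith, by linarith⟩,
        lt_of_le_of_ne (by linarith) (Ne.symm h1)⟩, by linarith⟩
  have g2 : ((closedBall (0 : V) 1 \ {y : V | 0 < y.1}) ∩ {y : V | 0 < y.2} : Set V) =ᵐ[volume]
      closedBall ((1 / 2 : ℝ) • jnCor 2) (1 / 2) := by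
    filter_upwards [jn_ae] with y hy
    apply propext
    change ((y ∈ closedBall (0 : V) 1 ∧ ¬ 0 < y.1) ∧ 0 < y.2) ↔ y ∈ closedBall _ _
    rw [jn_mem_cb, jn_mem_cb]
    simp only [jnCor, Prod.smul_mk, smul_eq_mul, Prod.fst_zero,
      Prod.snd_zero, abs_le, Matrix.cons_val]
    obtain ⟨h1, h2⟩ := hy
    constructor
    · rintro ⟨⟨⟨⟨a1, a2⟩, a3, a4⟩, a5⟩, a6⟩
      exact ⟨⟨by linarith, by linarith⟩, by linarith, by linarith⟩
    · rintro ⟨⟨a1, a2⟩, a3, a4⟩
      exact ⟨⟨⟨⟨by linarith, by linarith⟩, by linarith, by linarith⟩,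
        by linarith⟩, lt_of_le_of_ne (by linarith) (Ne.symm h2)⟩
  have g3 : ((closedBall (0 : V) 1 \ {y : V | 0 < y.1}) \ {y : V | 0 < y.2} : Set V) =ᵐ[volume]
      closedBall ((1 / 2 : ℝ) • jnCor 3) (1 / 2) := by
    filter_upwards [jn_ae] with y hy
    apply propext
    change ((y ∈ closedBall (0 : V) 1 ∧ ¬ 0 < y.1) ∧ ¬ 0 < y.2) ↔ y ∈ closedBall _ _
    rw [jn_mem_cb, jn_mem_cb]
    simp only [jnCor, Prod.smul_mk, smul_eq_mul, Prod.fst_zero,
      Prod.snd_zero, abs_le, Matrix.cons_val]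
    obtain ⟨h1, h2⟩ := hy
    constructor
    · rintro ⟨⟨⟨⟨a1, a2⟩, a3, a4⟩, a5⟩, a6⟩
      exact ⟨⟨by linarith, by linarith⟩, by linarith, by linarith⟩
    · rintro ⟨⟨a1, a2⟩, a3, a4⟩
      exact ⟨⟨⟨⟨by linarith, by linarith⟩, by linarith, by linarith⟩,
        by linarith⟩, by linarith⟩
  rw [setIntegral_congr_set g0, setIntegral_congr_set g1, setIntegral_congr_set g2,
    setIntegral_congr_set g3]
  ring

theorem jn_cont_scale {g : V → ℝ} {x : V} {r : ℝ} (hr : 0 < r)
    (hg : ContinuousOn g (closedBall x r)) :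
    ContinuousOn (fun y : V => g (x + r • y)) (closedBall (0 : V) 1) := by
  apply hg.comp (by fun_prop)
  intro y hy
  rw [mem_closedBall, dist_zero_right] at hy
  rw [mem_closedBall, dist_eq_norm, add_sub_cancel_left, norm_smul, Real.norm_eq_abs,
    abs_of_pos hr]
  nlinarith

theorem jn_intble {g : V → ℝ} {x : V} {r : ℝ} (hr : 0 < r)
    (hg : ContinuousOn g (closedBall x r)) :
    IntegrableOn (fun y : V => g (x + r • y)) (closedBall (0 : V) 1) :=
  (jn_cont_scale hr hg).integrableOn_compact (isCompact_closedBall _ _)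

/-- The average is the average of the four averages. -/
theorem jn_split {g : V → ℝ} {x : V} {r : ℝ} (hr : 0 < r)
    (hg : ContinuousOn g (closedBall x r)) :
    av g x r = (1 / 4) * ∑ i : Fin 4, av g (x + (r / 2) • jnCor i) (r / 2) := by
  unfold av
  rw [jn_split_unit (jn_intble hr hg)]
  congr 1
  apply Finset.sum_congr rfl
  intro i _
  rw [integral_closedBall_scale (by norm_num : (0:ℝ) < 1 / 2)]
  have : ∀ y : V, x + r • ((1 / 2 : ℝ) • jnCor i + (1 / 2 : ℝ) • y) =
      x + (r / 2) • jnCor i + (r / 2) • y := by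
    intro y
    rw [smul_add, smul_smul, smul_smul, add_assoc]
    congr 2 <;> ring_nf
  simp only [this]
  norm_num

theorem jn_av_mono {f g : V → ℝ} {x : V} {r : ℝ} (hr : 0 < r)
    (hf : ContinuousOn f (closedBall x r)) (hg : ContinuousOn g (closedBall x r))
    (h : ∀ y ∈ closedBall x r, f y ≤ g y) : av f x r ≤ av g x r := by
  unfold av
  apply mul_le_mul_of_nonneg_left _ (by norm_num)
  apply setIntegral_mono_on (jn_intble hr hf) (jn_intble hr hg) measurableSet_closedBall
  intro y hy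
  apply h
  rw [mem_closedBall, dist_zero_right] at hy
  rw [mem_closedBall, dist_eq_norm, add_sub_cancel_left, norm_smul, Real.norm_eq_abs,
    abs_of_pos hr]
  nlinarith

theorem jn_av_const (c : ℝ) (x : V) (r : ℝ) : av (fun _ => c) x r = c := by
  unfold av
  have h4 : (volume : Measure V).real (closedBall (0 : V) 1) = 4 := by
    have := volume_closedBall_real (0 : V) (zero_le_one)
    rw [Measure.real, this]; norm_num
  rw [setIntegral_const, h4, smul_eq_mul]
  ring

theorem jn_av_nonneg {f : V → ℝ} {x : V} {r : ℝ} (hr : 0 < r)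
    (h : ∀ y ∈ closedBall x r, 0 ≤ f y) : 0 ≤ av f x r := by
  unfold av
  apply mul_nonneg (by norm_num)
  apply setIntegral_nonneg measurableSet_closedBall
  intro y hy
  apply h
  rw [mem_closedBall, dist_zero_right] at hy
  rw [mem_closedBall, dist_eq_norm, add_sub_cancel_left, norm_smul, Real.norm_eq_abs,
    abs_of_pos hr]
  nlinarith

theorem jn_abs_av_sub {h : V → ℝ} {x : V} {r : ℝ} (hr : 0 < r)
    (hh : ContinuousOn h (closedBall x r)) (a : ℝ) :
    |av h x r - a| ≤ av (fun y => |h y - a|) x r := by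
  have c1 : ContinuousOn (fun y => |h y - a|) (closedBall x r) :=
    (hh.sub continuousOn_const).abs
  have key : ∀ s : ℝ, av (fun y => s) x r = s := fun s => jn_av_const s x r
  have hadd : av h x r - a = av (fun y => h y - a) x r := by
    unfold av
    rw [integral_sub (jn_intble hr hh) (integrableOn_const (by
      exact (isCompact_closedBall (0 : V) 1).measure_lt_top.ne))]
    have := key a
    unfold av at this
    rw [mul_sub, this]
  rw [hadd]
  unfold av
  rw [abs_mul, abs_of_pos (by norm_num : (0:ℝ) < 1 / 4)]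
  apply mul_le_mul_of_nonneg_left _ (by norm_num)
  exact abs_integral_le_integral_abs

/-- Dyadic approximations of the fourth moment. -/
noncomputable def jnT (h : V → ℝ) : ℕ → V → ℝ → ℝ → ℝ
  | 0, x, r, a => (av h x r - a) ^ 4
  | n + 1, x, r, a => (1 / 4) * ∑ i : Fin 4, jnT h n (x + (r / 2) • jnCor i) (r / 2) a

/-- Stopping probabilities. -/
noncomputable def jnW (h : V → ℝ) (l : ℝ) : ℕ → V → ℝ → ℝ → ℝ
  | 0, x, r, a => if l < |av h x r - a| then 1 else 0
  | n + 1, x, r, a => if l < |av h x r - a| then 1 else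
      (1 / 4) * ∑ i : Fin 4, jnW h l n (x + (r / 2) • jnCor i) (r / 2) a

theorem jnW_of_lt (h : V → ℝ) (l : ℝ) (n : ℕ) (x : V) (r a : ℝ) (hl : l < |av h x r - a|) :
    jnW h l n x r a = 1 := by
  cases n <;> simp [jnW, hl]

theorem jnW_zero_of_le (h : V → ℝ) (l : ℝ) (x : V) (r a : ℝ) (hl : |av h x r - a| ≤ l) :
    jnW h l 0 x r a = 0 := by
  simp [jnW, not_lt.2 hl]

theorem jnW_succ_of_le (h : V → ℝ) (l : ℝ) (n : ℕ) (x : V) (r a : ℝ)
    (hl : |av h x r - a| ≤ l) :
    jnW h l (n + 1) x r a =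
      (1 / 4) * ∑ i : Fin 4, jnW h l n (x + (r / 2) • jnCor i) (r / 2) a := by
  simp [jnW, not_lt.2 hl]

theorem jnW_le {h : V → ℝ} {l : ℝ} (n : ℕ) : ∀ {x : V} {r : ℝ} (a : ℝ), 0 < r →
    ContinuousOn h (closedBall x r) →
    l * jnW h l n x r a ≤ av (fun y => |h y - a|) x r := by
  induction n with
  | zero =>
    intro x r a hr hh
    rcases lt_or_ge l (|av h x r - a|) with hl | hl
    · rw [jnW_of_lt _ _ _ _ _ _ hl, mul_one]
      exact hl.le.trans (jn_abs_av_sub hr hh a)
    · rw [jnW_zero_of_le _ _ _ _ _ hl, mul_zero]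
      exact jn_av_nonneg hr (fun _ _ => abs_nonneg _)
  | succ n ih =>
    intro x r a hr hh
    rcases lt_or_ge l (|av h x r - a|) with hl | hl
    · rw [jnW_of_lt _ _ _ _ _ _ hl, mul_one]
      exact hl.le.trans (jn_abs_av_sub hr hh a)
    · rw [jnW_succ_of_le _ _ _ _ _ _ hl]
      have c1 : ContinuousOn (fun y => |h y - a|) (closedBall x r) :=
        (hh.sub continuousOn_const).abs
      rw [jn_split hr c1]
      have : l * ((1 / 4) * ∑ i : Fin 4, jnW h l n (x + (r / 2) • jnCor i) (r / 2) a) =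
          (1 / 4) * ∑ i : Fin 4, l * jnW h l n (x + (r / 2) • jnCor i) (r / 2) a := by
        rw [← Finset.mul_sum]; ring
      rw [this]
      apply mul_le_mul_of_nonneg_left _ (by norm_num)
      apply Finset.sum_le_sum
      intro i _
      exact ih a (by linarith) (hh.mono (jn_child_sub hr i))

theorem jn_conv4 (p q : ℝ) : (p + q) ^ 4 ≤ 8 * (p ^ 4 + q ^ 4) := by
  nlinarith [sq_nonneg (p ^ 2 - q ^ 2), sq_nonneg (p - q), sq_nonneg (p + q),
    mul_nonneg (sq_nonneg (p - q)) (sq_nonneg (p + q)), sq_nonneg ((p - q) ^ 2),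
    mul_nonneg (sq_nonneg (p - q)) (sq_nonneg p), mul_nonneg (sq_nonneg (p - q)) (sq_nonneg q)]

theorem jnT_shift (h : V → ℝ) (n : ℕ) : ∀ (x : V) (r a b : ℝ),
    jnT h n x r a ≤ 8 * (jnT h n x r b + (b - a) ^ 4) := by
  induction n with
  | zero =>
    intro x r a b
    have := jn_conv4 (av h x r - b) (b - a)
    simp only [jnT]
    have e : av h x r - b + (b - a) = av h x r - a := by ring
    rw [e] at this
    exact this
  | succ n ih =>
    intro x r a b
    simp only [jnT]
    have hs : ∑ i : Fin 4, jnT h n (x + (r / 2) • jnCor i) (r / 2) a ≤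
        ∑ i : Fin 4, 8 * (jnT h n (x + (r / 2) • jnCor i) (r / 2) b + (b - a) ^ 4) :=
      Finset.sum_le_sum fun i _ => ih _ _ _ _
    have he : ∑ i : Fin 4, 8 * (jnT h n (x + (r / 2) • jnCor i) (r / 2) b + (b - a) ^ 4) =
        8 * (∑ i : Fin 4, jnT h n (x + (r / 2) • jnCor i) (r / 2) b) + 32 * (b - a) ^ 4 := by
      rw [← Finset.mul_sum, Finset.sum_add_distrib, Finset.sum_const, Finset.card_univ,
        Fintype.card_fin]
      simp only [nsmul_eq_mul]
      push_cast
      ring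
    rw [he] at hs
    linarith

theorem jn_pow4_le {p q : ℝ} (h : |p| ≤ q) : p ^ 4 ≤ q ^ 4 := by
  have h1 : p ^ 4 = |p| ^ 4 := by
    rw [← abs_pow, abs_of_nonneg]
    positivity
  rw [h1]
  exact pow_le_pow_left₀ (abs_nonneg _) h 4

theorem jn_sub_claim {h : V → ℝ} {Θ l B : ℝ} (hh : ContinuousOn h (closedBall 0 1))
    (hmo : ∀ x r, 0 < r → closedBall x r ⊆ closedBall (0 : V) 1 → mo h x r ≤ Θ) (m : ℕ)
    (hE : ∀ k ≤ m, ∀ x r, 0 < r → closedBall x r ⊆ closedBall (0 : V) 1 →
      jnT h k x r (av h x r) ≤ B) :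
    ∀ k ≤ m, ∀ x r a, 0 < r → closedBall x r ⊆ closedBall (0 : V) 1 →
      |av h x r - a| ≤ l + 4 * Θ →
      jnT h k x r a ≤ l ^ 4 + jnW h l k x r a * (8 * (B + (l + 4 * Θ) ^ 4)) := by
  intro k
  have hl4 : 0 ≤ l ^ 4 := by positivity
  have hstop : ∀ k ≤ m, ∀ x r a, 0 < r → closedBall x r ⊆ closedBall (0 : V) 1 →
      |av h x r - a| ≤ l + 4 * Θ → l < |av h x r - a| →
      jnT h k x r a ≤ l ^ 4 + jnW h l k x r a * (8 * (B + (l + 4 * Θ) ^ 4)) := by
    intro k hk x r a hr hs ha hlt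
    rw [jnW_of_lt _ _ _ _ _ _ hlt, one_mul]
    have h1 := jnT_shift h k x r a (av h x r)
    have h2 := hE k hk x r hr hs
    have h3 := jn_pow4_le ha
    linarith
  induction k with
  | zero =>
    intro hk x r a hr hs ha
    rcases lt_or_ge l (|av h x r - a|) with hlt | hle
    · exact hstop 0 hk x r a hr hs ha hlt
    · rw [jnW_zero_of_le _ _ _ _ _ hle, zero_mul, add_zero]
      exact jn_pow4_le hle
  | succ k ih =>
    intro hk x r a hr hs ha
    rcases lt_or_ge l (|av h x r - a|) with hlt | hle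
    · exact hstop _ hk x r a hr hs ha hlt
    · rw [jnW_succ_of_le _ _ _ _ _ _ hle]
      simp only [jnT]
      have hc : ∀ i : Fin 4, jnT h k (x + (r / 2) • jnCor i) (r / 2) a ≤
          l ^ 4 + jnW h l k (x + (r / 2) • jnCor i) (r / 2) a *
            (8 * (B + (l + 4 * Θ) ^ 4)) := by
        intro i
        have hsub := jn_child_sub (x := x) hr i
        apply ih (by omega) _ _ _ (by linarith) (hsub.trans hs)
        have h1 := abs_av_sub_av_le (by linarith : 0 < r / 2) hsub (hh.mono hs)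
        have h2 : (r / (r / 2)) ^ 2 = 4 := by field_simp; norm_num
        rw [h2] at h1
        have h3 := hmo x r hr hs
        calc |av h (x + (r / 2) • jnCor i) (r / 2) - a| =
            |(av h (x + (r / 2) • jnCor i) (r / 2) - av h x r) + (av h x r - a)| := by
              congr 1; ring
          _ ≤ |av h (x + (r / 2) • jnCor i) (r / 2) - av h x r| + |av h x r - a| :=
              abs_add_le _ _
          _ ≤ l + 4 * Θ := by linarith
      have hsum := Finset.sum_le_sum (s := Finset.univ) fun i _ => hc i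
      rw [Finset.sum_add_distrib, ← Finset.sum_mul, Finset.sum_const, Finset.card_univ,
        Fintype.card_fin] at hsum
      simp only [nsmul_eq_mul] at hsum
      push_cast at hsum
      linarith

theorem jn_main {h : V → ℝ} {Θ l B : ℝ} (hh : ContinuousOn h (closedBall 0 1))
    (hΘ : 0 < Θ) (hl : l = 16 * Θ) (hB : B = 2 * l ^ 4 + (l + 4 * Θ) ^ 4)
    (hmo : ∀ x r, 0 < r → closedBall x r ⊆ closedBall (0 : V) 1 → mo h x r ≤ Θ) (n : ℕ) :
    ∀ x r, 0 < r → closedBall x r ⊆ closedBall (0 : V) 1 →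
      jnT h n x r (av h x r) ≤ B := by
  have hB0 : 0 ≤ B := by rw [hB]; positivity
  induction n using Nat.strong_induction_on with
  | _ n IH =>
    intro x r hr hs
    rcases n with _ | m
    · simp only [jnT, sub_self]
      simpa using hB0
    · have hE : ∀ k ≤ m, ∀ x r, 0 < r → closedBall x r ⊆ closedBall (0 : V) 1 →
          jnT h k x r (av h x r) ≤ B := fun k hk => IH k (by omega)
      have hsc := jn_sub_claim (l := l) hh hmo m hE m le_rfl
      have hself : |av h x r - av h x r| ≤ l := by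
        rw [sub_self, abs_zero, hl]; linarith
      have hw := jnW_le (l := l) (m + 1) (av h x r) hr (hh.mono hs)
      have hmo' : av (fun y => |h y - av h x r|) x r ≤ Θ := hmo x r hr hs
      rw [jnW_succ_of_le _ _ _ _ _ _ hself] at hw
      simp only [jnT]
      have hc : ∀ i : Fin 4, jnT h m (x + (r / 2) • jnCor i) (r / 2) (av h x r) ≤
          l ^ 4 + jnW h l m (x + (r / 2) • jnCor i) (r / 2) (av h x r) *
            (8 * (B + (l + 4 * Θ) ^ 4)) := by
        intro i
        have hsub := jn_child_sub (x := x) hr i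
        apply hsc _ _ _ (by linarith) (hsub.trans hs)
        have h1 := abs_av_sub_av_le (by linarith : 0 < r / 2) hsub (hh.mono hs)
        have h2 : (r / (r / 2)) ^ 2 = 4 := by field_simp; norm_num
        rw [h2] at h1
        have h3 := hmo x r hr hs
        have : 0 < l := by rw [hl]; linarith
        linarith
      have hsum := Finset.sum_le_sum (s := Finset.univ) fun i _ => hc i
      rw [Finset.sum_add_distrib, ← Finset.sum_mul, Finset.sum_const, Finset.card_univ,
        Fintype.card_fin] at hsum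
      simp only [nsmul_eq_mul] at hsum
      push_cast at hsum
      set W := ∑ i : Fin 4, jnW h l m (x + (r / 2) • jnCor i) (r / 2) (av h x r) with hWdef
      have hW : W ≤ 1 / 4 := by
        have h1 : l * ((1 / 4) * W) ≤ Θ := hw.trans hmo'
        rw [hl] at h1
        have h2 : Θ * (4 * W) ≤ Θ * 1 := by linarith
        have h3 := le_of_mul_le_mul_left h2 hΘ
        linarith
      have hK : 0 ≤ 8 * (B + (l + 4 * Θ) ^ 4) := by
        have : 0 ≤ (l + 4 * Θ) ^ 4 := by positivity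
        linarith
      have h5 : W * (8 * (B + (l + 4 * Θ) ^ 4)) ≤ (1 / 4) * (8 * (B + (l + 4 * Θ) ^ 4)) :=
        mul_le_mul_of_nonneg_right hW hK
      have h6 : (1 / 4) * (∑ i : Fin 4,
          jnT h m (x + (r / 2) • jnCor i) (r / 2) (av h x r)) ≤
          l ^ 4 + (1 / 2) * (B + (l + 4 * Θ) ^ 4) := by linarith
      refine h6.trans ?_
      rw [hB]
      linarith

theorem jn_approx {h : V → ℝ} {δ ε : ℝ} (hh : ContinuousOn h (closedBall 0 1))
    (hosc : ∀ y ∈ closedBall (0 : V) 1, ∀ z ∈ closedBall (0 : V) 1, dist y z ≤ δ →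
      |h y - h z| ≤ ε) (n : ℕ) :
    ∀ x r a, 0 < r → closedBall x r ⊆ closedBall (0 : V) 1 → 2 * r / 2 ^ n ≤ δ →
      av (fun y => (h y - a) ^ 4) x r ≤ 8 * (jnT h n x r a + ε ^ 4) := by
  induction n with
  | zero =>
    intro x r a hr hs hδ
    rw [pow_zero, div_one] at hδ
    have hc : ContinuousOn h (closedBall x r) := hh.mono hs
    have h1 : ∀ y ∈ closedBall x r, (h y - a) ^ 4 ≤ 8 * ((av h x r - a) ^ 4 + ε ^ 4) := by
      intro y hy
      have h2 : |av h x r - h y| ≤ ε := by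
        apply abs_av_sub_le_of_sup hr.le hc
        intro z hz
        apply hosc z (hs hz) y (hs hy)
        calc dist z y ≤ dist z x + dist x y := dist_triangle _ _ _
          _ ≤ r + r := add_le_add hz (by rw [dist_comm]; exact hy)
          _ ≤ δ := by linarith
      have h3 := jn_conv4 (av h x r - a) (h y - av h x r)
      have e : av h x r - a + (h y - av h x r) = h y - a := by ring
      rw [e] at h3
      have h4 : (h y - av h x r) ^ 4 ≤ ε ^ 4 := jn_pow4_le (by rwa [abs_sub_comm])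
      linarith
    simp only [jnT]
    calc av (fun y => (h y - a) ^ 4) x r ≤
        av (fun _ => 8 * ((av h x r - a) ^ 4 + ε ^ 4)) x r :=
          jn_av_mono hr ((hc.sub continuousOn_const).pow 4) continuousOn_const h1
      _ = _ := jn_av_const _ _ _
  | succ n ih =>
    intro x r a hr hs hδ
    have hc : ContinuousOn h (closedBall x r) := hh.mono hs
    have hc4 : ContinuousOn (fun y => (h y - a) ^ 4) (closedBall x r) :=
      (hc.sub continuousOn_const).pow 4
    rw [jn_split hr hc4]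
    simp only [jnT]
    have hch : ∀ i : Fin 4, av (fun y => (h y - a) ^ 4) (x + (r / 2) • jnCor i) (r / 2) ≤
        8 * (jnT h n (x + (r / 2) • jnCor i) (r / 2) a + ε ^ 4) := by
      intro i
      apply ih _ _ _ (by linarith) ((jn_child_sub hr i).trans hs)
      rw [pow_succ] at hδ
      have : 2 * (r / 2) / 2 ^ n = 2 * r / (2 ^ n * 2) := by
        field_simp
      rw [this]; exact hδ
    have hsum := Finset.sum_le_sum (s := Finset.univ) fun i _ => hch i
    have he : ∑ i : Fin 4, 8 * (jnT h n (x + (r / 2) • jnCor i) (r / 2) a + ε ^ 4) =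
        8 * (∑ i : Fin 4, jnT h n (x + (r / 2) • jnCor i) (r / 2) a) + 32 * ε ^ 4 := by
      rw [← Finset.mul_sum, Finset.sum_add_distrib, Finset.sum_const, Finset.card_univ,
        Fintype.card_fin]
      simp only [nsmul_eq_mul]
      push_cast
      ring
    rw [he] at hsum
    linarith

theorem jn4_pos (h : V → ℝ) (Θ : ℝ) (hh : ContinuousOn h (closedBall 0 1)) (hΘ : 0 < Θ)
    (hmo : ∀ x r, 0 < r → closedBall x r ⊆ closedBall (0 : V) 1 → mo h x r ≤ Θ) :
    ∫ y in closedBall (0 : V) 1, (h y - av h 0 1) ^ 4 ≤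
      (32 * (2 * 16 ^ 4 + 20 ^ 4)) * Θ ^ 4 := by
  have hmain := jn_main hh hΘ (l := 16 * Θ) rfl rfl hmo
  have hav : ∫ y in closedBall (0 : V) 1, (h y - av h 0 1) ^ 4 =
      4 * av (fun y => (h y - av h 0 1) ^ 4) 0 1 := by
    conv_rhs => unfold av
    simp only [zero_add, one_smul]
    unfold av
    simp only [zero_add, one_smul]
    ring
  have hε : ∀ ε > 0, av (fun y => (h y - av h 0 1) ^ 4) 0 1 ≤
      8 * ((2 * 16 ^ 4 + 20 ^ 4) * Θ ^ 4 + ε ^ 4) := by
    intro ε hε
    have huc := (isCompact_closedBall (0 : V) 1).uniformContinuousOn_of_continuous hh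
    rw [Metric.uniformContinuousOn_iff_le] at huc
    obtain ⟨δ, hδ, hosc⟩ := huc ε hε
    obtain ⟨n, hn⟩ := exists_pow_lt_of_lt_one (div_pos hδ (by norm_num : (0:ℝ) < 2))
      (by norm_num : (1 / 2 : ℝ) < 1)
    have h1 := jn_approx hh (δ := δ) (ε := ε) (fun y hy z hz hd => by
      have := hosc y hy z hz hd
      rwa [Real.dist_eq] at this) n 0 1 (av h 0 1) one_pos le_rfl (by
        have : 2 * (1:ℝ) / 2 ^ n = 2 * (1 / 2) ^ n := by
          rw [div_pow, one_pow]; ring
        rw [this]; linarith)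
    have h2 := hmain n 0 1 one_pos le_rfl
    refine h1.trans ?_
    apply mul_le_mul_of_nonneg_left _ (by norm_num)
    apply add_le_add_left
    refine h2.trans (le_of_eq ?_)
    ring
  rw [hav]
  have hlim : av (fun y => (h y - av h 0 1) ^ 4) 0 1 ≤
      8 * ((2 * 16 ^ 4 + 20 ^ 4) * Θ ^ 4) := by
    apply le_of_forall_pos_le_add
    intro η hη
    have := hε (min 1 (η / 8)) (by positivity)
    have h1 : (min 1 (η / 8)) ^ 4 ≤ η / 8 := by
      have ha : (0:ℝ) ≤ min 1 (η / 8) := by positivity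
      calc (min 1 (η / 8)) ^ 4 ≤ (min 1 (η / 8)) ^ 1 :=
            pow_le_pow_of_le_one ha (min_le_left _ _) (by norm_num)
        _ = min 1 (η / 8) := pow_one _
        _ ≤ η / 8 := min_le_right _ _
    linarith
  linarith

theorem jn4 : ∃ C > 0, ∀ (h : V → ℝ) (Θ : ℝ), ContinuousOn h (closedBall 0 1) → 0 ≤ Θ →
    (∀ x r, 0 < r → closedBall x r ⊆ closedBall (0 : V) 1 → mo h x r ≤ Θ) →
    ∫ y in closedBall (0 : V) 1, (h y - av h 0 1) ^ 4 ≤ C * Θ ^ 4 := by
  refine ⟨32 * (2 * 16 ^ 4 + 20 ^ 4), by norm_num, ?_⟩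
  intro h Θ hh hΘ hmo
  have hpos : ∀ η : ℝ, Θ < η → ∫ y in closedBall (0 : V) 1, (h y - av h 0 1) ^ 4 ≤
      (32 * (2 * 16 ^ 4 + 20 ^ 4)) * η ^ 4 := by
    intro η hη
    exact jn4_pos h η hh (lt_of_le_of_lt hΘ hη)
      (fun x r hr hs => (hmo x r hr hs).trans hη.le)
  have hcont : Filter.Tendsto (fun η : ℝ => ((32 * (2 * 16 ^ 4 + 20 ^ 4)) * η ^ 4 : ℝ))
      (nhdsWithin Θ (Ioi Θ)) (nhds ((32 * (2 * 16 ^ 4 + 20 ^ 4)) * Θ ^ 4)) := by
    apply Filter.Tendsto.mono_left _ nhdsWithin_le_nhds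
    apply Continuous.tendsto
    fun_prop
  refine ge_of_tendsto hcont ?_
  filter_upwards [self_mem_nhdsWithin] with η hη using hpos η hη

end Pool.Agent.L1de93c
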