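import Pool.Agent.Lib_MP_1de93e_cont.LCdef

/-!
# PIECE MOL1: derivatives of mollifications

`mol k g x = ∫_{y ∈ Q} g y * k (y - x)`, `Q = closedBall 0 (1/2)`, `g` continuous on `Q`.
## MOL1
* `mol_contDiff`: `mol k g = (Q.indicator g) ⋆ (k ∘ neg)`; `HasCompactSupport.contDiff_convolution_right`.
* `fderiv_mol`: differentiation under the integral sign (the kernel is `C¹` with bounded derivative, `Q`
  compact).
* `mol_wk`: for `‖x‖ + ρ ≤ 1/2` the test function `ψ y = k (y - x)` has support in `Q` and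
  `∫_Q ‖fderiv ψ‖² ≤ ∫_V ‖fderiv k‖² ≤ M²`.
-/

namespace Pool.Agent.L1de93c

open MeasureTheory Metric Set
open scoped ContDiff Convolution

private theorem MOL1_eq (k g : V → ℝ) : mol k g =
    ((closedBall (0 : V) (1 / 2)).indicator g) ⋆[ContinuousLinearMap.mul ℝ ℝ, volume]
      (fun z => k (-z)) := by
  funext x
  rw [convolution_def, mol, ← integral_indicator measurableSet_closedBall]
  refine integral_congr_ae (Filter.Eventually.of_forall fun y => ?_)
  by_cases hy : y ∈ closedBall (0 : V) (1 / 2)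
  · simp only [indicator_of_mem hy, ContinuousLinearMap.mul_apply', neg_sub]
  · simp only [indicator_of_notMem hy, ContinuousLinearMap.mul_apply', zero_mul]

private theorem MOL1_loc {g : V → ℝ} (hg : ContinuousOn g (closedBall 0 (1 / 2))) :
    LocallyIntegrable ((closedBall (0 : V) (1 / 2)).indicator g) volume := by
  refine Integrable.locallyIntegrable ?_
  rw [integrable_indicator_iff measurableSet_closedBall]
  exact hg.integrableOn_compact (isCompact_closedBall _ _)

private theorem MOL1_neg {k : V → ℝ} (hc : HasCompactSupport k) :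
    HasCompactSupport (fun z : V => k (-z)) :=
  hc.comp_homeomorph (Homeomorph.neg V)

/-- MOL1 -/
theorem mol_contDiff {k g : V → ℝ} (hk : ContDiff ℝ ∞ k) (hc : HasCompactSupport k)
    (hg : ContinuousOn g (closedBall 0 (1 / 2))) : ContDiff ℝ ∞ (mol k g) := by
  rw [MOL1_eq]
  exact (MOL1_neg hc).contDiff_convolution_right _ (MOL1_loc hg) (hk.comp contDiff_neg)

/-- MOL1 -/
theorem fderiv_mol {k g : V → ℝ} (hk : ContDiff ℝ ∞ k) (hc : HasCompactSupport k)
    (hg : ContinuousOn g (closedBall 0 (1 / 2))) (x v : V) :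
    fderiv ℝ (mol k g) x v = -mol (fun z => fderiv ℝ k z v) g x := by
  have hk1 : ContDiff ℝ 1 (fun z : V => k (-z)) := (hk.comp contDiff_neg).of_le (by simp)
  have h1 := (MOL1_neg hc).hasFDerivAt_convolution_right (ContinuousLinearMap.mul ℝ ℝ)
    (MOL1_loc hg) hk1 x
  rw [← MOL1_eq] at h1
  rw [h1.fderiv, convolution_precompR_apply _ (MOL1_loc hg) ?_ ?_]
  · rw [convolution_def, mol, ← integral_indicator measurableSet_closedBall, ← integral_neg]
    refine integral_congr_ae (Filter.Eventually.of_forall fun y => ?_)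
    have h2 : fderiv ℝ (fun z : V => k (-z)) (x - y) v = - fderiv ℝ k (y - x) v := by
      have h3 : HasFDerivAt k (fderiv ℝ k (-(x - y))) (-(x - y)) :=
        ((hk.differentiable (by simp)) _).hasFDerivAt
      have h4 := h3.comp (x - y) (hasFDerivAt_id (𝕜 := ℝ) (x - y)).neg
      have h5 : fderiv ℝ (fun z : V => k (-z)) (x - y) =
          (fderiv ℝ k (-(x - y))).comp (-ContinuousLinearMap.id ℝ V) := h4.fderiv
      rw [h5, neg_sub]
      simp
    by_cases hy : y ∈ closedBall (0 : V) (1 / 2)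
    · simp only [indicator_of_mem hy, ContinuousLinearMap.mul_apply', h2]
      ring
    · simp only [indicator_of_notMem hy, ContinuousLinearMap.mul_apply', zero_mul, neg_zero]
  · exact (MOL1_neg hc).fderiv ℝ
  · exact hk1.continuous_fderiv one_ne_zero

/-- MOL1 -/
theorem mol_wk {k g : V → ℝ} (hk : ContDiff ℝ ∞ k) {ρ : ℝ} (hsupp : ∀ z, k z ≠ 0 → ‖z‖ ≤ ρ)
    {v : V} {κ : ℝ} (hw : WK g v κ) {M : ℝ} (hM : 0 ≤ M)
    (hkM : ∫ z, ‖fderiv ℝ k z‖ ^ 2 ≤ M ^ 2) {x : V} (hx : ‖x‖ + ρ ≤ 1 / 2) :
    |mol (fun z => fderiv ℝ k z v) g x| ≤ κ * M := by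
  have hfd : ∀ y, fderiv ℝ (fun y => k (y - x)) y = fderiv ℝ k (y - x) := fun y => by
    rw [fderiv_comp_sub]
  have hc : HasCompactSupport k := by
    refine HasCompactSupport.of_support_subset_isCompact (isCompact_closedBall (0 : V) ρ) ?_
    intro z hz
    rw [mem_closedBall, dist_zero_right]
    exact hsupp z hz
  have hcont : Continuous (fun z => ‖fderiv ℝ k z‖ ^ 2) :=
    ((hk.continuous_fderiv (by simp)).norm).pow 2
  have hint : Integrable (fun z => ‖fderiv ℝ k z‖ ^ 2) volume := by
    refine hcont.integrable_of_hasCompactSupport ?_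
    exact ((hc.fderiv ℝ).norm).comp_left (g := fun t : ℝ => t ^ 2) (by norm_num)
  have key := hw (fun y => k (y - x)) (hk.comp (contDiff_id.sub contDiff_const)) ?_ M hM ?_
  · simp only [hfd] at key
    exact key
  · refine closure_minimal ?_ isClosed_closedBall
    intro y hy
    have h1 := hsupp (y - x) hy
    rw [mem_closedBall, dist_zero_right]
    have h2 : ‖y‖ ≤ ‖y - x‖ + ‖x‖ := by
      have := norm_add_le (y - x) x
      rwa [sub_add_cancel] at this
    linarith
  · simp only [hfd]
    refine le_trans ?_ hkM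
    have h2 : ∫ z, ‖fderiv ℝ k z‖ ^ 2 = ∫ y, ‖fderiv ℝ k (y - x)‖ ^ 2 :=
      (integral_sub_right_eq_self (fun z => ‖fderiv ℝ k z‖ ^ 2) x).symm
    rw [h2]
    exact setIntegral_le_integral (hint.comp_sub_right x)
      (Filter.Eventually.of_forall fun y => by positivity)

end Pool.Agent.L1de93c
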