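import Pool.Agent.Lib_MP_1de93e_cont.LCdef

/-!
# PIECE MOL2: approximation by mollifications

`mol k g x = ∫_{y ∈ Q} g y * k (y - x)`, `Q = closedBall 0 (1/2)`, `g` continuous on `Q`.
## MOL2
* `exists_kernel`: a normalised bump function rescaled.
* `mol_close`: for `x ∈ closedBall 0 (1/8)`, `ρ ≤ 1/16` and a kernel `k ≥ 0` with `∫ k = 1` and support in
  `closedBall 0 ρ`: `mol k g x - g x = ∫_{‖z‖ ≤ ρ} (g (x + z) - g x) k z dz`, so by Fubini
  `∫_{closedBall 0 (1/8)} |mol k g x - g x| dx ≤ sup_{‖z‖ ≤ ρ} ∫_{closedBall 0 (1/8)} |g (x + z) - g x| dx ≤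
  (area)^{1/2} D ≤ D`.
-/

namespace Pool.Agent.L1de93c

open MeasureTheory Metric Set
open scoped ContDiff

/-- MOL2 -/
theorem exists_kernel {ρ : ℝ} (hρ : 0 < ρ) :
    ∃ k : V → ℝ, ContDiff ℝ ∞ k ∧ HasCompactSupport k ∧ (∀ z, 0 ≤ k z) ∧
      (∀ z, k z ≠ 0 → ‖z‖ ≤ ρ) ∧ ∫ z, k z = 1 := by
  let b : ContDiffBump (0 : V) := ⟨ρ / 2, ρ, by positivity, by linarith⟩
  refine ⟨b.normed volume, b.contDiff_normed, b.hasCompactSupport_normed,
    fun z => b.nonneg_normed z, fun z hz => ?_, b.integral_normed⟩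
  have h1 : z ∈ Function.support (b.normed volume) := hz
  rw [b.support_normed_eq] at h1
  rw [mem_ball_zero_iff] at h1
  exact h1.le

theorem MOL2_area : (volume (closedBall (0 : V) (1 / 8))).toReal = 1 / 16 := by
  have e : closedBall (0 : V) (1 / 8) = closedBall (0 : ℝ) (1 / 8) ×ˢ closedBall (0 : ℝ) (1 / 8) :=
    (closedBall_prod_same (0 : ℝ) (0 : ℝ) (1 / 8)).symm
  rw [e]
  show ((volume : Measure ℝ).prod volume _).toReal = _
  rw [Measure.prod_prod, Real.volume_closedBall, ENNReal.toReal_mul,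
    ENNReal.toReal_ofReal (by norm_num)]
  norm_num

/-- the inner integral -/
theorem MOL2_inner {g : V → ℝ} {ρ D : ℝ} (hρ1 : ρ ≤ 1 / 16)
    (hg : ContinuousOn g (closedBall 0 (1 / 2))) (hD : 0 < D) {z : V} (hz : ‖z‖ ≤ ρ)
    (h : ∫ y in closedBall (0 : V) (3 / 16), (g (y + z) - g y) ^ 2 ≤ D ^ 2) :
    ∫ x in closedBall (0 : V) (1 / 8), |g (x + z) - g x| ≤ D := by
  have hc : ContinuousOn (fun y => g (y + z) - g y) (closedBall 0 (3 / 16)) := by
    refine ContinuousOn.sub (hg.comp (by fun_prop) fun y hy => ?_)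
      (hg.mono (closedBall_subset_closedBall (by norm_num)))
    rw [mem_closedBall_zero_iff] at hy ⊢
    exact (norm_add_le _ _).trans (by linarith)
  have hi : IntegrableOn (fun y => (g (y + z) - g y) ^ 2) (closedBall 0 (3 / 16)) :=
    (hc.pow 2).integrableOn_compact (isCompact_closedBall _ _)
  have hsub : closedBall (0 : V) (1 / 8) ⊆ closedBall 0 (3 / 16) :=
    closedBall_subset_closedBall (by norm_num)
  have h1 : ∫ y in closedBall (0 : V) (1 / 8), (g (y + z) - g y) ^ 2 ≤ D ^ 2 :=
    (setIntegral_mono_set hi (Filter.Eventually.of_forall fun y => sq_nonneg _)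
      hsub.eventuallyLE).trans h
  have hi1 : IntegrableOn (fun y => (g (y + z) - g y) ^ 2) (closedBall 0 (1 / 8)) :=
    hi.mono_set hsub
  have h2 : ∫ x in closedBall (0 : V) (1 / 8), |g (x + z) - g x| ≤
      ∫ x in closedBall (0 : V) (1 / 8), ((2 * D)⁻¹ * (g (x + z) - g x) ^ 2 + D / 2) := by
    refine integral_mono_of_nonneg (Filter.Eventually.of_forall fun _ => abs_nonneg _)
      ((hi1.const_mul _).add (integrableOn_const
        (isCompact_closedBall (0 : V) (1 / 8)).measure_ne_top))
      (Filter.Eventually.of_forall fun x => ?_)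
    show |g (x + z) - g x| ≤ (2 * D)⁻¹ * (g (x + z) - g x) ^ 2 + D / 2
    rw [← sq_abs (g (x + z) - g x)]
    have h3 : 0 ≤ (|g (x + z) - g x| - D) ^ 2 := sq_nonneg _
    rw [inv_mul_eq_div, div_add_div _ _ (by positivity) (by norm_num), le_div_iff₀ (by positivity)]
    nlinarith
  refine h2.trans ?_
  rw [integral_add (hi1.const_mul _) (integrableOn_const
    (isCompact_closedBall (0 : V) (1 / 8)).measure_ne_top), integral_const_mul,
    setIntegral_const, measureReal_def, MOL2_area, smul_eq_mul]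
  have h3 : (2 * D)⁻¹ * ∫ y in closedBall (0 : V) (1 / 8), (g (y + z) - g y) ^ 2 ≤
      (2 * D)⁻¹ * D ^ 2 := mul_le_mul_of_nonneg_left h1 (by positivity)
  have h4 : (2 * D)⁻¹ * D ^ 2 = D / 2 := by
    field_simp
  rw [h4] at h3
  linarith

theorem MOL2_pos {k g : V → ℝ} {ρ D : ℝ} (hρ1 : ρ ≤ 1 / 16)
    (hk : ContDiff ℝ ∞ k) (hk0 : ∀ z, 0 ≤ k z) (hsupp : ∀ z, k z ≠ 0 → ‖z‖ ≤ ρ)
    (hk1 : ∫ z, k z = 1) (hg : ContinuousOn g (closedBall 0 (1 / 2))) (hD : 0 < D)
    (h : ∀ z : V, ‖z‖ ≤ ρ → ∫ y in closedBall (0 : V) (3 / 16), (g (y + z) - g y) ^ 2 ≤ D ^ 2) :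
    ∫ x in closedBall (0 : V) (1 / 8), |mol k g x - g x| ≤ D := by
  have hkc : Continuous k := hk.continuous
  have hB : ∀ z : V, z ∉ closedBall (0 : V) ρ → k z = 0 := by
    intro z hz
    by_contra h0
    exact hz (mem_closedBall_zero_iff.2 (hsupp z h0))
  have hBi : IntegrableOn k (closedBall 0 ρ) :=
    hkc.continuousOn.integrableOn_compact (isCompact_closedBall _ _)
  have hBk : ∫ z in closedBall (0 : V) ρ, k z = 1 := by
    rw [setIntegral_eq_integral_of_forall_compl_eq_zero hB, hk1]
  -- the kernel on the product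
  have hΦ : ContinuousOn (fun p : V × V => |g (p.1 + p.2) - g p.1| * k p.2)
      (closedBall 0 (1 / 8) ×ˢ closedBall 0 ρ) := by
    refine ContinuousOn.mul (ContinuousOn.abs (ContinuousOn.sub (hg.comp (by fun_prop) ?_)
      (hg.comp (by fun_prop) ?_))) (hkc.comp continuous_snd).continuousOn
    · intro p hp
      have h1 := mem_closedBall_zero_iff.1 hp.1
      have h2 := mem_closedBall_zero_iff.1 hp.2
      rw [mem_closedBall_zero_iff]
      exact (norm_add_le _ _).trans (by linarith)
    · intro p hp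
      exact closedBall_subset_closedBall (by norm_num) hp.1
  have hΦi : Integrable (Function.uncurry fun x z : V => |g (x + z) - g x| * k z)
      ((volume.restrict (closedBall (0 : V) (1 / 8))).prod
        (volume.restrict (closedBall (0 : V) ρ))) := by
    rw [Measure.prod_restrict]
    exact hΦ.integrableOn_compact ((isCompact_closedBall _ _).prod (isCompact_closedBall _ _))
  -- the pointwise estimate
  have hpt : ∀ x ∈ closedBall (0 : V) (1 / 8),
      |mol k g x - g x| ≤ ∫ z in closedBall (0 : V) ρ, |g (x + z) - g x| * k z := by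
    intro x hx
    rw [mem_closedBall_zero_iff] at hx
    have hxz : ∀ z ∈ closedBall (0 : V) ρ, x + z ∈ closedBall (0 : V) (1 / 2) := by
      intro z hz
      rw [mem_closedBall_zero_iff] at hz ⊢
      exact (norm_add_le _ _).trans (by linarith)
    have h1 : mol k g x = ∫ z in closedBall (0 : V) ρ, g (x + z) * k z := by
      unfold mol
      rw [← integral_indicator measurableSet_closedBall,
        ← integral_indicator measurableSet_closedBall,
        ← integral_add_left_eq_self _ x]
      congr 1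
      funext z
      by_cases hz : z ∈ closedBall (0 : V) ρ
      · rw [indicator_of_mem (hxz z hz), indicator_of_mem hz, add_sub_cancel_left]
      · rw [indicator_of_notMem hz]
        by_cases hz2 : x + z ∈ closedBall (0 : V) (1 / 2)
        · rw [indicator_of_mem hz2, add_sub_cancel_left, hB z hz, mul_zero]
        · rw [indicator_of_notMem hz2]
    have h2 : g x = ∫ z in closedBall (0 : V) ρ, g x * k z := by
      rw [integral_const_mul, hBk, mul_one]
    have hi1 : IntegrableOn (fun z => g (x + z) * k z) (closedBall 0 ρ) := by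
      refine ContinuousOn.integrableOn_compact (isCompact_closedBall _ _)
        (ContinuousOn.mul (hg.comp (by fun_prop) fun z hz => hxz z hz) hkc.continuousOn)
    have h3 : mol k g x - g x = ∫ z in closedBall (0 : V) ρ, (g (x + z) - g x) * k z := by
      conv_lhs => rw [h1, h2]
      rw [← integral_sub hi1 (hBi.const_mul _)]
      congr 1
      funext z
      ring
    rw [h3]
    refine (abs_integral_le_integral_abs).trans (le_of_eq ?_)
    congr 1
    funext z
    rw [abs_mul, abs_of_nonneg (hk0 z)]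
  calc ∫ x in closedBall (0 : V) (1 / 8), |mol k g x - g x|
      ≤ ∫ x in closedBall (0 : V) (1 / 8), ∫ z in closedBall (0 : V) ρ,
          |g (x + z) - g x| * k z := by
        refine integral_mono_of_nonneg (Filter.Eventually.of_forall fun _ => abs_nonneg _)
          hΦi.integral_prod_left ?_
        exact (ae_restrict_iff' measurableSet_closedBall).2
          (Filter.Eventually.of_forall fun x hx => hpt x hx)
    _ = ∫ z in closedBall (0 : V) ρ, ∫ x in closedBall (0 : V) (1 / 8),
          |g (x + z) - g x| * k z := integral_integral_swap hΦi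
    _ ≤ ∫ z in closedBall (0 : V) ρ, D * k z := by
        refine integral_mono_of_nonneg (Filter.Eventually.of_forall fun z =>
          integral_nonneg fun x => mul_nonneg (abs_nonneg _) (hk0 z)) (hBi.const_mul _) ?_
        refine (ae_restrict_iff' measurableSet_closedBall).2
          (Filter.Eventually.of_forall fun z hz => ?_)
        show ∫ x in closedBall (0 : V) (1 / 8), |g (x + z) - g x| * k z ≤ D * k z
        rw [integral_mul_const]
        have hz' := mem_closedBall_zero_iff.1 hz
        exact mul_le_mul_of_nonneg_right (MOL2_inner hρ1 hg hD hz' (h z hz')) (hk0 z)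
    _ = D := by rw [integral_const_mul, hBk, mul_one]

/-- MOL2 -/
theorem mol_close {k g : V → ℝ} {ρ D : ℝ} (hρ1 : ρ ≤ 1 / 16)
    (hk : ContDiff ℝ ∞ k) (hk0 : ∀ z, 0 ≤ k z) (hsupp : ∀ z, k z ≠ 0 → ‖z‖ ≤ ρ)
    (hk1 : ∫ z, k z = 1) (hg : ContinuousOn g (closedBall 0 (1 / 2))) (hD : 0 ≤ D)
    (h : ∀ z : V, ‖z‖ ≤ ρ → ∫ y in closedBall (0 : V) (3 / 16), (g (y + z) - g y) ^ 2 ≤ D ^ 2) :
    ∫ x in closedBall (0 : V) (1 / 8), |mol k g x - g x| ≤ D := by
  refine le_of_forall_pos_le_add fun ε hε => ?_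
  refine MOL2_pos hρ1 hk hk0 hsupp hk1 hg (by linarith) fun z hz => (h z hz).trans ?_
  exact pow_le_pow_left₀ hD (by linarith) 2

end Pool.Agent.L1de93c
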