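import Pool.Agent.Lib_MP_1de93e_cont.Pars

/-!
# PIECE TRA: translation estimate

`e_n y = exp (2 π i (n.1 y.1 + n.2 y.2))`, `Q = closedBall 0 (1/2) = [-1/2,1/2]²` (area `1`).
## TRA `tr`: translation estimate.
Let `w = cut * g` on `Q`, extended by `0` to `V` (continuous, supported in `closedBall 0 (3/8)`).
For `‖h‖ ≤ 1/16`, `w (· + h)` is supported in `closedBall 0 (7/16) ⊆ Q`, and
`∫_Q w (y + h) e_{-n} y dy = e_n h * fc w n` (integrals over the whole plane). By `pars` for
`w (· + h) - w`: `∫_Q |w (y + h) - w y|² = ∑ |e_n h - 1|² |fc w n|² ≤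
(4 π R ‖h‖)² ∑_{nn n < R} |fc w n|² + 4 ∑_{nn n ≥ R} |fc w n|² ≤ C R² ‖h‖² Θ² + 4 B²`
(`|e_n h - 1| ≤ 2 π |n · h| ≤ 4 π nn(n) ‖h‖`; `∑ |fc w n|² = ∫ w² ≤ Θ²`; the tail sum is the supremum of the
finite sums). For `y ∈ closedBall 0 (3/16)`, `y, y + h ∈ closedBall 0 (1/4)` where `cut = 1`.
-/

namespace Pool.Agent.L1de93c

open MeasureTheory Metric Set
open scoped ContDiff

theorem tra_cont {g : V → ℝ} (hg : ContinuousOn g (closedBall 0 (1 / 2))) :
    Continuous fun y => cut y * g y := by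
  rw [continuous_iff_continuousAt]
  intro y
  by_cases hy : y ∈ closedBall (0 : V) (3 / 8)
  · have hy2 : closedBall (0 : V) (1 / 2) ∈ nhds y := by
      refine Filter.mem_of_superset (isOpen_ball.mem_nhds ?_) ball_subset_closedBall
      exact closedBall_subset_ball (by norm_num) hy
    exact (cut_contDiff.continuous.continuousAt).mul (hg.continuousAt hy2)
  · have hev : (fun y => cut y * g y) =ᶠ[nhds y] fun _ => 0 := by
      filter_upwards [isClosed_closedBall.isOpen_compl.mem_nhds hy] with z hz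
      rw [cut_zero hz, zero_mul]
    exact continuousAt_const.congr hev.symm

theorem tra_zero {g : V → ℝ} {y : V} (hy : y ∉ closedBall (0 : V) (3 / 8)) :
    cut y * g y = 0 := by
  rw [cut_zero hy, zero_mul]

/-- The exponential `e_{-n}`. -/
noncomputable def traE (n : ℤ × ℤ) (y : V) : ℂ :=
  Complex.exp (-(2 * Real.pi * ((n.1 : ℝ) * y.1 + (n.2 : ℝ) * y.2) : ℝ) * Complex.I)

theorem traE_cont (n : ℤ × ℤ) : Continuous (traE n) := by
  unfold traE
  fun_prop

theorem traE_add (n : ℤ × ℤ) (y z : V) : traE n (y + z) = traE n y * traE n z := by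
  unfold traE
  rw [← Complex.exp_add]
  congr 1
  simp only [Prod.fst_add, Prod.snd_add]
  push_cast
  ring

theorem traE_norm (n : ℤ × ℤ) (y : V) : ‖traE n y‖ = 1 := by
  unfold traE
  rw [← Complex.ofReal_neg]
  exact Complex.norm_exp_ofReal_mul_I _

theorem traE_sub_one (n : ℤ × ℤ) (y : V) : ‖traE n y - 1‖ ≤ 4 * Real.pi * nn n * ‖y‖ := by
  have h1 : traE n y =
      Complex.exp (Complex.I * ((-(2 * Real.pi * ((n.1 : ℝ) * y.1 + (n.2 : ℝ) * y.2)) : ℝ) : ℂ)) := by
    unfold traE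
    congr 1
    push_cast
    ring
  rw [h1]
  refine Real.norm_exp_I_mul_ofReal_sub_one_le.trans ?_
  rw [Real.norm_eq_abs, abs_neg, abs_mul, abs_of_pos (by positivity)]
  have h2 : |(n.1 : ℝ)| ≤ nn n := le_max_left _ _
  have h3 : |(n.2 : ℝ)| ≤ nn n := le_max_right _ _
  have h4 : |(n.1 : ℝ) * y.1| ≤ nn n * ‖y‖ := by
    rw [abs_mul]
    exact mul_le_mul h2 (abs_fst_le y) (abs_nonneg _) ((abs_nonneg _).trans h2)
  have h5 : |(n.2 : ℝ) * y.2| ≤ nn n * ‖y‖ := by
    rw [abs_mul]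
    exact mul_le_mul h3 (abs_snd_le y) (abs_nonneg _) ((abs_nonneg _).trans h2)
  have h6 := abs_add_le ((n.1 : ℝ) * y.1) ((n.2 : ℝ) * y.2)
  have h7 := Real.pi_pos
  have h8 : 2 * Real.pi * |(n.1 : ℝ) * y.1 + (n.2 : ℝ) * y.2| ≤
      2 * Real.pi * (nn n * ‖y‖ + nn n * ‖y‖) :=
    mul_le_mul_of_nonneg_left (by linarith) (by positivity)
  linarith

theorem tra_fc {w : V → ℝ} (hw0 : ∀ y, y ∉ closedBall (0 : V) (1 / 2) → w y = 0) (n : ℤ × ℤ) :
    fc w n = ∫ y : V, (w y : ℂ) * traE n y := by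
  have h1 : fc w n = ∫ y in closedBall (0 : V) (1 / 2), (w y : ℂ) * traE n y := rfl
  rw [h1]
  refine setIntegral_eq_integral_of_forall_compl_eq_zero fun y hy => ?_
  rw [hw0 y hy, Complex.ofReal_zero, zero_mul]

theorem tra_shift {w : V → ℝ} (hw0 : ∀ y, y ∉ closedBall (0 : V) (3 / 8) → w y = 0) {h : V}
    (hh : ‖h‖ ≤ 1 / 16) (n : ℤ × ℤ) :
    fc (fun y => w (y + h)) n = traE n (-h) * fc w n := by
  have h1 : ∀ y, y ∉ closedBall (0 : V) (1 / 2) → w y = 0 := fun y hy =>
    hw0 y fun h' => hy (closedBall_subset_closedBall (by norm_num) h')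
  have h2 : ∀ y, y ∉ closedBall (0 : V) (1 / 2) → w (y + h) = 0 := by
    intro y hy
    refine hw0 _ fun h' => hy ?_
    rw [mem_closedBall_zero_iff] at h' ⊢
    have := norm_sub_le (y + h) h
    rw [add_sub_cancel_right] at this
    linarith
  rw [tra_fc h2, tra_fc h1, ← integral_const_mul]
  have h3 := integral_add_right_eq_self (μ := (volume : Measure V))
    (fun y : V => (w y : ℂ) * traE n (y - h)) h
  simp only [add_sub_cancel_right] at h3
  rw [h3]
  refine integral_congr_ae (Filter.Eventually.of_forall fun y => ?_)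
  change (w y : ℂ) * traE n (y - h) = traE n (-h) * ((w y : ℂ) * traE n y)
  rw [sub_eq_add_neg, traE_add]
  ring

theorem tra_int {f : V → ℂ} (hf : Continuous f) :
    IntegrableOn f (closedBall (0 : V) (1 / 2)) volume :=
  hf.continuousOn.integrableOn_compact (isCompact_closedBall 0 (1 / 2))

theorem tra_fc_sub {u w : V → ℝ} (hu : Continuous u) (hw : Continuous w) (n : ℤ × ℤ) :
    fc (fun y => u y - w y) n = fc u n - fc w n := by
  have h1 : fc (fun y => u y - w y) n =
      ∫ y in closedBall (0 : V) (1 / 2), ((u y : ℂ) * traE n y - (w y : ℂ) * traE n y) := by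
    refine setIntegral_congr_fun measurableSet_closedBall fun y _ => ?_
    change ((u y - w y : ℝ) : ℂ) * traE n y = _
    push_cast
    ring
  rw [h1]
  exact integral_sub (tra_int ((Complex.continuous_ofReal.comp hu).mul (traE_cont n)))
    (tra_int ((Complex.continuous_ofReal.comp hw).mul (traE_cont n)))

/-- TRA -/
theorem tr : ∃ C > 0, ∀ (g : V → ℝ) (B Θ R : ℝ), ContinuousOn g (closedBall 0 (1 / 2)) →
    ∫ y in closedBall (0 : V) (1 / 2), (g y) ^ 2 ≤ Θ ^ 2 → 0 ≤ Θ → 0 ≤ B → 1 ≤ R →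
    (∀ S : Finset (ℤ × ℤ), (∀ n ∈ S, R ≤ nn n) →
      ∑ n ∈ S, ‖fc (fun y => cut y * g y) n‖ ^ 2 ≤ B ^ 2) →
    ∀ h : V, ‖h‖ ≤ 1 / 16 →
      ∫ y in closedBall (0 : V) (3 / 16), (g (y + h) - g y) ^ 2 ≤
        C * (B ^ 2 + R ^ 2 * ‖h‖ ^ 2 * Θ ^ 2) := by
  have hpi := Real.pi_pos
  refine ⟨16 * Real.pi ^ 2 + 4, by positivity, ?_⟩
  intro g B Θ R hg hΘ hΘ0 hB hR hS h hh
  set w : V → ℝ := fun y => cut y * g y with hwdef
  have hwc : Continuous w := tra_cont hg
  have hw0 : ∀ y, y ∉ closedBall (0 : V) (3 / 8) → w y = 0 := fun y hy => tra_zero hy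
  have hwhc : Continuous fun y => w (y + h) := hwc.comp (continuous_id.add continuous_const)
  have hfc : ∀ n, fc (fun y => w (y + h) - w y) n = (traE n (-h) - 1) * fc w n := by
    intro n
    rw [tra_fc_sub hwhc hwc, tra_shift hw0 hh]
    ring
  have p1 := pars hwc.continuousOn
  have p2 := pars (hwhc.sub hwc).continuousOn
  have hw2 : ∫ y in closedBall (0 : V) (1 / 2), (w y) ^ 2 ≤ Θ ^ 2 := by
    refine le_trans ?_ hΘ
    refine setIntegral_mono_on
      ((hwc.pow 2).continuousOn.integrableOn_compact (isCompact_closedBall 0 (1 / 2)))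
      ((hg.pow 2).integrableOn_compact (isCompact_closedBall 0 (1 / 2)))
      measurableSet_closedBall fun y _ => ?_
    rw [hwdef]
    simp only [mul_pow]
    have h1 : cut y ^ 2 ≤ 1 := pow_le_one₀ (cut_nonneg y) (cut_le_one y)
    have h2 := sq_nonneg (g y)
    nlinarith
  have hbd : ∫ y in closedBall (0 : V) (1 / 2), (w (y + h) - w y) ^ 2 ≤
      (4 * Real.pi * R * ‖h‖) ^ 2 * Θ ^ 2 + 4 * B ^ 2 := by
    refine hasSum_le_of_sum_le p2 fun s => ?_
    have e1 : ∀ n ∈ s, ‖fc (fun y => w (y + h) - w y) n‖ ^ 2 ≤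
        (4 * Real.pi * R * ‖h‖) ^ 2 * ‖fc w n‖ ^ 2 +
          (if R ≤ nn n then 4 * ‖fc w n‖ ^ 2 else 0) := by
      intro n _
      rw [hfc, norm_mul, mul_pow]
      split_ifs with hn
      · have f1 : ‖traE n (-h) - 1‖ ≤ 2 := by
          refine (norm_sub_le _ _).trans ?_
          rw [traE_norm, norm_one]
          norm_num
        have f2 := pow_le_pow_left₀ (norm_nonneg _) f1 2
        have f3 := mul_le_mul_of_nonneg_right f2 (sq_nonneg ‖fc w n‖)
        have f4 : 0 ≤ (4 * Real.pi * R * ‖h‖) ^ 2 * ‖fc w n‖ ^ 2 := by positivity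
        linarith
      · rw [add_zero]
        refine mul_le_mul_of_nonneg_right ?_ (sq_nonneg _)
        refine pow_le_pow_left₀ (norm_nonneg _) ?_ 2
        refine (traE_sub_one n (-h)).trans ?_
        rw [norm_neg]
        refine mul_le_mul_of_nonneg_right ?_ (norm_nonneg _)
        exact mul_le_mul_of_nonneg_left (not_le.mp hn).le (by positivity)
    refine (Finset.sum_le_sum e1).trans ?_
    rw [Finset.sum_add_distrib, ← Finset.mul_sum, ← Finset.sum_filter, ← Finset.mul_sum]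
    have e2 : ∑ n ∈ s, ‖fc w n‖ ^ 2 ≤ Θ ^ 2 :=
      (sum_le_hasSum s (fun _ _ => sq_nonneg _) p1).trans hw2
    have e3 := hS (s.filter fun n => R ≤ nn n) fun n hn => (Finset.mem_filter.mp hn).2
    have e4 := mul_le_mul_of_nonneg_left e2 (sq_nonneg (4 * Real.pi * R * ‖h‖))
    linarith
  have hloc : ∫ y in closedBall (0 : V) (3 / 16), (g (y + h) - g y) ^ 2 =
      ∫ y in closedBall (0 : V) (3 / 16), (w (y + h) - w y) ^ 2 := by
    refine setIntegral_congr_fun measurableSet_closedBall fun y hy => ?_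
    rw [mem_closedBall_zero_iff] at hy
    have h1 : y ∈ closedBall (0 : V) (1 / 4) := by
      rw [mem_closedBall_zero_iff]
      linarith
    have h2 : y + h ∈ closedBall (0 : V) (1 / 4) := by
      rw [mem_closedBall_zero_iff]
      linarith [norm_add_le y h]
    change (g (y + h) - g y) ^ 2 = (cut (y + h) * g (y + h) - cut y * g y) ^ 2
    rw [cut_one h1, cut_one h2, one_mul, one_mul]
  rw [hloc]
  have hmono : ∫ y in closedBall (0 : V) (3 / 16), (w (y + h) - w y) ^ 2 ≤
      ∫ y in closedBall (0 : V) (1 / 2), (w (y + h) - w y) ^ 2 := by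
    refine setIntegral_mono_set
      (((hwhc.sub hwc).pow 2).continuousOn.integrableOn_compact (isCompact_closedBall 0 (1 / 2)))
      (Filter.Eventually.of_forall fun _ => sq_nonneg _)
      (Filter.Eventually.of_forall (closedBall_subset_closedBall (by norm_num)))
  refine hmono.trans (hbd.trans ?_)
  have h1 : 0 ≤ B ^ 2 := sq_nonneg _
  have h2 : 0 ≤ R ^ 2 * ‖h‖ ^ 2 * Θ ^ 2 := by positivity
  have h3 : 0 ≤ Real.pi ^ 2 * B ^ 2 := by positivity
  nlinarith

end Pool.Agent.L1de93c
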