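import Pool.Agent.Lib_MP_1de93e_cont.LCdef

/-!
# PIECE TAY1: third derivatives

For `f : V → ℝ` smooth write `Dv v f x = fderiv ℝ f x v`.
## TAY1 `third_small`: Let `u₁, w₁, u₂, w₂` be pairwise non parallel (as in the hypotheses). If
`|D_j D_{u_i} D_{w_i} G| ≤ ς` on `B` for `i = 1,2` and all unit `j`, then `|D_a D_b D_c G| ≤ C ς ‖a‖ ‖b‖ ‖c‖` on
`B`. Indeed the third derivative is a symmetric trilinear form `t`. In the basis `u₁, w₁` write
`u₂ = a u₁ + b w₁`, `w₂ = c u₁ + d w₁`, all of `a, b, c, d` nonzero. `t(u₁,u₁,w₁)`, `t(w₁,u₁,w₁)` are small;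
`t(u₁,u₂,w₂) = a c t(u₁,u₁,u₁) + (a d + b c) t(u₁,u₁,w₁) + b d t(u₁,w₁,w₁)` gives `t(u₁,u₁,u₁)`, and
`t(w₁,u₂,w₂)` gives `t(w₁,w₁,w₁)`. The constant depends only on the four vectors.
(Symmetry of iterated derivatives of a smooth function: `second_derivative_symmetric` or
`ContDiffAt.isSymmSndFDerivAt`.)
-/

namespace Pool.Agent.L1de93c

open MeasureTheory Metric Set
open scoped ContDiff

/-- Directional derivative. -/
noncomputable def Dv (v : V) (f : V → ℝ) : V → ℝ := fun x => fderiv ℝ f x v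

theorem Dv_contDiff {f : V → ℝ} (hf : ContDiff ℝ ∞ f) (v : V) : ContDiff ℝ ∞ (Dv v f) := by
  unfold Dv
  have h1 : ContDiff ℝ ∞ (fderiv ℝ f) := hf.fderiv_right (by norm_num)
  exact h1.clm_apply contDiff_const

private theorem dapp {E : Type*} [NormedAddCommGroup E] [NormedSpace ℝ E] {f : V → V →L[ℝ] E}
    {x : V} (hf : DifferentiableAt ℝ f x) (c a : V) :
    fderiv ℝ (fun y => f y c) x a = fderiv ℝ f x a c := by
  rw [fderiv_clm_apply hf (differentiableAt_const c)]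
  simp

/-- TAY1 -/
theorem Dv_comm {f : V → ℝ} (hf : ContDiff ℝ ∞ f) (u v : V) : Dv u (Dv v f) = Dv v (Dv u f) := by
  funext x
  have h1 : ContDiff ℝ ∞ (fderiv ℝ f) := hf.fderiv_right (by norm_num)
  have h2 : DifferentiableAt ℝ (fderiv ℝ f) x := (h1.differentiable (by norm_num)) x
  have h3 : IsSymmSndFDerivAt ℝ f x :=
    (hf.contDiffAt (x := x)).isSymmSndFDerivAt (by simp; norm_cast)
  unfold Dv
  rw [dapp h2, dapp h2]
  exact h3 u v

private theorem basis_bound {u w : V} (h : dt u w ≠ 0) (φ : V →L[ℝ] ℝ) {K : ℝ} (h1 : |φ u| ≤ K)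
    (h2 : |φ w| ≤ K) (a : V) : |φ a| ≤ 2 * (‖u‖ + ‖w‖) / |dt u w| * ‖a‖ * K := by
  have hD : 0 < |dt u w| := abs_pos.mpr h
  have h3 : dt u w * φ a = dt a w * φ u + dt u a * φ w := by
    have := congrArg φ (expand u w a)
    simpa using this
  have h4 : |dt u w| * |φ a| ≤ 2 * ‖a‖ * ‖w‖ * K + 2 * ‖u‖ * ‖a‖ * K := by
    rw [← abs_mul, h3]
    refine (abs_add_le _ _).trans (add_le_add ?_ ?_)
    · rw [abs_mul]
      exact mul_le_mul (abs_dt_le a w) h1 (abs_nonneg _) (by positivity)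
    · rw [abs_mul]
      exact mul_le_mul (abs_dt_le u a) h2 (abs_nonneg _) (by positivity)
  rw [div_mul_eq_mul_div, div_mul_eq_mul_div, le_div_iff₀ hD]
  linarith

/-- TAY1 -/
theorem third_small {u₁ w₁ u₂ w₂ : V} (h1 : dt u₁ w₁ ≠ 0) (h2 : dt u₁ u₂ ≠ 0) (h3 : dt u₁ w₂ ≠ 0)
    (h4 : dt w₁ u₂ ≠ 0) (h5 : dt w₁ w₂ ≠ 0) :
    ∃ C > 0, ∀ (G : V → ℝ) (x : V) (ς : ℝ), ContDiff ℝ ∞ G → 0 ≤ ς →
      (∀ j, ‖j‖ = 1 → |Dv j (Dv u₁ (Dv w₁ G)) x| ≤ ς ∧ |Dv j (Dv u₂ (Dv w₂ G)) x| ≤ ς) →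
      ∀ a b c : V, |Dv a (Dv b (Dv c G)) x| ≤ C * ς * ‖a‖ * ‖b‖ * ‖c‖ := by
  set D := dt u₁ w₁ with hD
  set α := dt u₂ w₁ with hα
  set β := dt u₁ u₂ with hβ
  set γ := dt w₂ w₁ with hγ
  set δ := dt u₁ w₂ with hδ
  have hα0 : α ≠ 0 := by
    rw [hα, dt_comm]
    exact neg_ne_zero.mpr h4
  have hγ0 : γ ≠ 0 := by
    rw [hγ, dt_comm]
    exact neg_ne_zero.mpr h5
  set L := 2 * (‖u₁‖ + ‖w₁‖) / |D| with hL
  set kA := (D ^ 2 * ‖u₁‖ + |α * δ + β * γ| * ‖u₁‖ + |β * δ| * ‖w₁‖) / |α * γ| with hkA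
  set kD := (D ^ 2 * ‖w₁‖ + |α * γ| * ‖u₁‖ + |α * δ + β * γ| * ‖w₁‖) / |β * δ| with hkD
  have hL0 : 0 ≤ L := by positivity
  have hkA0 : 0 ≤ kA := by positivity
  have hkD0 : 0 ≤ kD := by positivity
  refine ⟨L ^ 3 * (‖u₁‖ + ‖w₁‖ + kA + kD) + 1, by positivity, ?_⟩
  intro G x ς hG hς hj
  have g1 : ContDiff ℝ ∞ (fderiv ℝ G) := hG.fderiv_right (by norm_num)
  have g2 : ContDiff ℝ ∞ (fderiv ℝ (fderiv ℝ G)) := g1.fderiv_right (by norm_num)
  set T := fderiv ℝ (fderiv ℝ (fderiv ℝ G)) x with hT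
  have hDv : ∀ a b c : V, Dv a (Dv b (Dv c G)) x = T a b c := by
    intro a b c
    have e1 : Dv b (Dv c G) = fun y => fderiv ℝ (fderiv ℝ G) y b c := by
      funext y
      exact dapp ((g1.differentiable (by norm_num)) y) c b
    rw [e1]
    have hd : DifferentiableAt ℝ (fderiv ℝ (fderiv ℝ G)) x := (g2.differentiable (by norm_num)) x
    have hd2 : DifferentiableAt ℝ (fun y => fderiv ℝ (fderiv ℝ G) y b) x :=
      hd.clm_apply (differentiableAt_const b)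
    show fderiv ℝ (fun y => (fun y => fderiv ℝ (fderiv ℝ G) y b) y c) x a = T a b c
    rw [dapp hd2, dapp hd]
  have hs1 : ∀ a b c, T a b c = T b a c := by
    intro a b c
    rw [← hDv, ← hDv, Dv_comm (Dv_contDiff hG c)]
  have hs2 : ∀ a b c, T a b c = T a c b := by
    intro a b c
    rw [← hDv, ← hDv, Dv_comm hG]
  have hsmall : ∀ j : V, |T j u₁ w₁| ≤ ς * ‖j‖ ∧ |T j u₂ w₂| ≤ ς * ‖j‖ := by
    intro j
    by_cases hj0 : j = 0
    · simp [hj0]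
    have hn : 0 < ‖j‖ := norm_pos_iff.mpr hj0
    have h6 := hj (‖j‖⁻¹ • j) (by rw [norm_smul, norm_inv, norm_norm, inv_mul_cancel₀ hn.ne'])
    rw [hDv, hDv] at h6
    simp only [map_smul, smul_apply, smul_eq_mul, abs_mul, abs_inv,
      abs_norm] at h6
    rw [inv_mul_le_iff₀ hn, inv_mul_le_iff₀ hn] at h6
    exact ⟨by linarith [h6.1], by linarith [h6.2]⟩
  have hB : |T u₁ u₁ w₁| ≤ ς * ‖u₁‖ := (hsmall u₁).1
  have hC : |T w₁ u₁ w₁| ≤ ς * ‖w₁‖ := (hsmall w₁).1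
  have eu : D • u₂ = α • u₁ + β • w₁ := expand u₁ w₁ u₂
  have ew : D • w₂ = γ • u₁ + δ • w₁ := expand u₁ w₁ w₂
  have hexp : ∀ j, D ^ 2 * T j u₂ w₂ =
      α * γ * T j u₁ u₁ + (α * δ + β * γ) * T j u₁ w₁ + β * δ * T j w₁ w₁ := by
    intro j
    have e1 : T j (D • u₂) (D • w₂) = D ^ 2 * T j u₂ w₂ := by
      simp only [map_smul, smul_apply, smul_eq_mul]
      ring
    rw [← e1, eu, ew]
    simp only [map_add, map_smul, add_apply, smul_apply,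
      smul_eq_mul]
    rw [hs2 j w₁ u₁]
    ring
  have hA : |T u₁ u₁ u₁| ≤ kA * ς := by
    have e1 := hexp u₁
    rw [hs1 u₁ w₁ w₁] at e1
    have e2 : α * γ * T u₁ u₁ u₁ =
        D ^ 2 * T u₁ u₂ w₂ - (α * δ + β * γ) * T u₁ u₁ w₁ - β * δ * T w₁ u₁ w₁ := by linarith
    have e3 : |α * γ| * |T u₁ u₁ u₁| ≤
        D ^ 2 * (ς * ‖u₁‖) + |α * δ + β * γ| * (ς * ‖u₁‖) + |β * δ| * (ς * ‖w₁‖) := by
      rw [← abs_mul, e2]
      refine (abs_sub _ _).trans (add_le_add ((abs_sub _ _).trans (add_le_add ?_ ?_)) ?_)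
      · rw [abs_mul, abs_of_nonneg (sq_nonneg D)]
        exact mul_le_mul_of_nonneg_left (hsmall u₁).2 (sq_nonneg D)
      · rw [abs_mul]
        exact mul_le_mul_of_nonneg_left hB (abs_nonneg _)
      · rw [abs_mul]
        exact mul_le_mul_of_nonneg_left hC (abs_nonneg _)
    rw [hkA, div_mul_eq_mul_div, le_div_iff₀ (abs_pos.mpr (mul_ne_zero hα0 hγ0))]
    linarith
  have hDd : |T w₁ w₁ w₁| ≤ kD * ς := by
    have e1 := hexp w₁
    rw [hs1 w₁ u₁ u₁, hs2 u₁ w₁ u₁] at e1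
    have e2 : β * δ * T w₁ w₁ w₁ =
        D ^ 2 * T w₁ u₂ w₂ - α * γ * T u₁ u₁ w₁ - (α * δ + β * γ) * T w₁ u₁ w₁ := by linarith
    have e3 : |β * δ| * |T w₁ w₁ w₁| ≤
        D ^ 2 * (ς * ‖w₁‖) + |α * γ| * (ς * ‖u₁‖) + |α * δ + β * γ| * (ς * ‖w₁‖) := by
      rw [← abs_mul, e2]
      refine (abs_sub _ _).trans (add_le_add ((abs_sub _ _).trans (add_le_add ?_ ?_)) ?_)
      · rw [abs_mul, abs_of_nonneg (sq_nonneg D)]
        exact mul_le_mul_of_nonneg_left (hsmall w₁).2 (sq_nonneg D)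
      · rw [abs_mul]
        exact mul_le_mul_of_nonneg_left hB (abs_nonneg _)
      · rw [abs_mul]
        exact mul_le_mul_of_nonneg_left hC (abs_nonneg _)
    rw [hkD, div_mul_eq_mul_div, le_div_iff₀ (abs_pos.mpr (mul_ne_zero h2 h3))]
    linarith
  set M := (‖u₁‖ + ‖w₁‖ + kA + kD) * ς with hM
  have hAM : |T u₁ u₁ u₁| ≤ M := by
    refine hA.trans ?_
    rw [hM]
    have : 0 ≤ ‖u₁‖ + ‖w₁‖ + kD := by positivity
    nlinarith [mul_nonneg this hς]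
  have hDM : |T w₁ w₁ w₁| ≤ M := by
    refine hDd.trans ?_
    rw [hM]
    have : 0 ≤ ‖u₁‖ + ‖w₁‖ + kA := by positivity
    nlinarith [mul_nonneg this hς]
  have hBM : |T u₁ u₁ w₁| ≤ M := by
    refine hB.trans ?_
    rw [hM]
    have : 0 ≤ ‖w₁‖ + kA + kD := by positivity
    nlinarith [mul_nonneg this hς]
  have hCM : |T w₁ u₁ w₁| ≤ M := by
    refine hC.trans ?_
    rw [hM]
    have : 0 ≤ ‖u₁‖ + kA + kD := by positivity
    nlinarith [mul_nonneg this hς]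
  have hM0 : 0 ≤ M := (abs_nonneg _).trans hAM
  -- first slot
  have s1 : ∀ a, |T a u₁ u₁| ≤ L * ‖a‖ * M ∧ |T a u₁ w₁| ≤ L * ‖a‖ * M ∧
      |T a w₁ w₁| ≤ L * ‖a‖ * M := by
    intro a
    refine ⟨?_, ?_, ?_⟩
    · have := basis_bound h1 ((T.flip u₁).flip u₁) (K := M) (by simpa using hAM)
        (by
          have : T w₁ u₁ u₁ = T u₁ u₁ w₁ := by rw [hs1 w₁ u₁ u₁, hs2 u₁ w₁ u₁]
          simpa [this] using hBM) a
      simpa using this
    · have := basis_bound h1 ((T.flip u₁).flip w₁) (K := M) (by simpa using hBM)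
        (by simpa using hCM) a
      simpa using this
    · have := basis_bound h1 ((T.flip w₁).flip w₁) (K := M)
        (by
          have : T u₁ w₁ w₁ = T w₁ u₁ w₁ := hs1 u₁ w₁ w₁
          simpa [this] using hCM) (by simpa using hDM) a
      simpa using this
  -- second slot
  have s2 : ∀ a b, |T a b u₁| ≤ L * ‖b‖ * (L * ‖a‖ * M) ∧ |T a b w₁| ≤ L * ‖b‖ * (L * ‖a‖ * M) := by
    intro a b
    refine ⟨?_, ?_⟩
    · have := basis_bound h1 ((T a).flip u₁) (K := L * ‖a‖ * M) (by simpa using (s1 a).1)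
        (by
          have : T a w₁ u₁ = T a u₁ w₁ := hs2 a w₁ u₁
          simpa [this] using (s1 a).2.1) b
      simpa using this
    · have := basis_bound h1 ((T a).flip w₁) (K := L * ‖a‖ * M) (by simpa using (s1 a).2.1)
        (by simpa using (s1 a).2.2) b
      simpa using this
  intro a b c
  rw [hDv]
  have s3 := basis_bound h1 (T a b) (K := L * ‖b‖ * (L * ‖a‖ * M)) (s2 a b).1 (s2 a b).2 c
  refine s3.trans ?_
  have e : 2 * (‖u₁‖ + ‖w₁‖) / |dt u₁ w₁| = L := rfl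
  rw [e]
  have e2 : L * ‖c‖ * (L * ‖b‖ * (L * ‖a‖ * M)) =
      L ^ 3 * (‖u₁‖ + ‖w₁‖ + kA + kD) * ς * ‖a‖ * ‖b‖ * ‖c‖ := by
    rw [hM]; ring
  rw [e2]
  have : 0 ≤ ς * ‖a‖ * ‖b‖ * ‖c‖ := by positivity
  nlinarith

end Pool.Agent.L1de93c
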