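import Pool.Agent.Lib_MP_1de93e_cont.HFall
import Pool.Agent.Lib_MP_1de93e_cont.TR
import Pool.Agent.Lib_MP_1de93e_cont.Moll1
import Pool.Agent.Lib_MP_1de93e_cont.Moll2
import Pool.Agent.Lib_MP_1de93e_cont.Tay1

/-!
# PIECE LCS: mollified approximate solutions

LCS is `lc_smooth` (the first three bullets and the estimate of `Dv j (Dv u (Dv w G))`), LCA is `lc_core`
(deduce it from `lc_smooth` applied with a small `ς`, `ς` plays the role of `D` and of `κ M`).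

By linearity assume `Θ = 1` (divide `a`, `Γ` by `Θ`; or carry `Θ` along). Let `C` denote constants
depending on `N₀` only. Given `τ, δ`, choose in this order `R` large, `ρ ≤ 1/16` small, `κ` small.
* `hf_all` and `tr`: for `‖h‖ ≤ ρ`, `∫_{closedBall 0 (3/16)} |g (y+h) - g y|² ≤ D²`,
  `D = C (κ + 1/R + R ρ)`, for `g = Γ` and `g = a u`.
* Let `k` be a kernel of radius `ρ` (`exists_kernel`), `G = mol k Γ`, `A = mol k (a u)`: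
  `∫_{closedBall 0 (1/8)} |Γ - G| ≤ D`, `∫_{closedBall 0 (1/8)} |a u - A| ≤ D` (`mol_close`).
* `mol_contDiff`, `fderiv_mol` (iterated) and `mol_wk` applied to the kernels `k`, `Dv i k`,
  `Dv i (Dv j k)` (`C^∞`, support of radius `ρ`) and to the functions `a u - (2/3) Γ`, `a u - (1/3) Γ` (`mol` is
  linear in `g`): on `closedBall 0 (1/8)` the functions `Dv u (A - (2/3) G)` and
  `Dv w (A - (1/3) G)`, `w = cj N₀ u`, and their first and second directional derivatives are at most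
  `κ M` in absolute value, `M = M(ρ)` = maximum of the `L²` norms of the gradients of these kernels
  (times `‖w‖` etc.; `Dv` commute, `Dv_comm`; a general unit direction is a combination of the two
  basis directions).
* `(1/3) Dv u (Dv w G) = Dv w (Dv u (A - (1/3) G)) - ...`: precisely
  `Dv w (Dv u (A - (2/3) G)) - Dv u (Dv w (A - (1/3) G)) = -(1/3) Dv u (Dv w G)`. So
  `|Dv j (Dv u (Dv w G))| ≤ C κ M` for every unit `j` and every unit `u`, in particular for the two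
  pairs of `exists_two_pairs`; `third_small` and `taylor2` with `s = 1/8`:
  `G = P + O(C κ M)` on `closedBall 0 (1/8)`, also for the gradients, `P y = g + l y + q y`.
* `∫_{closedBall 0 (1/8)} |P| ≤ ∫ |G - Γ| + ∫ |Γ| + C κ M ≤ C` so `|l|, |q_i| ≤ C` (`quad_coeff`) when
  `D + κ M ≤ 1`.
* Conclusion for `Γ`: with `b = g`, `(1/4) ∫_{closedBall 0 1} |Γ (τ y) - b - l (τ y)| ≤
  (1/(4 τ²)) ∫_{closedBall 0 τ} |Γ - G| + C κ M + C τ² ≤ D/(4 τ²) + C κ M + C τ²`.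
* For `a u`: let `λ y = (1/3) (l y + l u * fderiv N₀ u y / N₀ u)`; `λ u = (2/3) l u` and `λ w = (1/3) l w`
  (`fderiv N₀ u u = N₀ u`, `fderiv N₀ u w = 0`). On `closedBall 0 τ`, `|fderiv G y v - l v| ≤ C (τ + κ M) ‖v‖`,
  so `|fderiv A y u - λ u|, |fderiv A y w - λ w| ≤ C (τ + κ M)`, hence `‖fderiv A y - λ‖ ≤ C (τ + κ M)`
  (`dt u w = N₀ u ≥ c₀`), and `|A y - A 0 - λ y| ≤ C τ (τ + κ M)`. With `b = A 0` as before.
Finally choose `R` with `C/(R τ²) ≤ δ/8`, then `ρ` with `C R ρ/τ² ≤ δ/8`, then `κ`.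
-/

namespace Pool.Agent.L1de93c

open MeasureTheory Metric Set
open scoped ContDiff

theorem lcs_expand (f : V → ℝ) (v x : V) :
    Dv v f x = v.1 * Dv ((1, 0) : V) f x + v.2 * Dv ((0, 1) : V) f x := by
  unfold Dv
  conv_lhs => rw [vec_eq v]
  rw [map_add, map_smul, map_smul, smul_eq_mul, smul_eq_mul]

theorem lcs_one {f : V → ℝ} {x : V} {E : ℝ} (h1 : |Dv ((1, 0) : V) f x| ≤ E)
    (h2 : |Dv ((0, 1) : V) f x| ≤ E) (v : V) : |Dv v f x| ≤ 2 * ‖v‖ * E := by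
  rw [lcs_expand]
  have hE : 0 ≤ E := (abs_nonneg _).trans h1
  have a1 : |v.1 * Dv ((1, 0) : V) f x| ≤ ‖v‖ * E := by
    rw [abs_mul]
    exact mul_le_mul (abs_fst_le v) h1 (abs_nonneg _) (norm_nonneg _)
  have a2 : |v.2 * Dv ((0, 1) : V) f x| ≤ ‖v‖ * E := by
    rw [abs_mul]
    exact mul_le_mul (abs_snd_le v) h2 (abs_nonneg _) (norm_nonneg _)
  have := abs_add_le (v.1 * Dv ((1, 0) : V) f x) (v.2 * Dv ((0, 1) : V) f x)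
  linarith

theorem lcs_two {H : V → ℝ} (hH : ContDiff ℝ ∞ H) {x : V} {E : ℝ}
    (h11 : |Dv ((1, 0) : V) (Dv ((1, 0) : V) H) x| ≤ E)
    (h12 : |Dv ((1, 0) : V) (Dv ((0, 1) : V) H) x| ≤ E)
    (h21 : |Dv ((0, 1) : V) (Dv ((1, 0) : V) H) x| ≤ E)
    (h22 : |Dv ((0, 1) : V) (Dv ((0, 1) : V) H) x| ≤ E) (j u : V) :
    |Dv j (Dv u H) x| ≤ 4 * ‖j‖ * ‖u‖ * E := by
  have a1 : |Dv ((1, 0) : V) (Dv u H) x| ≤ 2 * ‖u‖ * E := by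
    rw [Dv_comm hH]
    exact lcs_one h11 (by rw [Dv_comm hH]; exact h12) u
  have a2 : |Dv ((0, 1) : V) (Dv u H) x| ≤ 2 * ‖u‖ * E := by
    rw [Dv_comm hH]
    exact lcs_one (by rw [Dv_comm hH]; exact h21) h22 u
  refine (lcs_one a1 a2 j).trans (le_of_eq ?_)
  ring

theorem lcs_neg (v : V) (f : V → ℝ) : Dv v (fun x => -f x) = fun x => -Dv v f x := by
  funext x
  unfold Dv
  rw [fderiv_fun_neg]
  rfl

theorem lcs_Dv_mol {k g : V → ℝ} (hk : ContDiff ℝ ∞ k) (hc : HasCompactSupport k)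
    (hg : ContinuousOn g (closedBall 0 (1 / 2))) (v : V) :
    Dv v (mol k g) = fun x => -mol (Dv v k) g x := by
  funext x
  exact fderiv_mol hk hc hg x v

theorem lcs_supp {k : V → ℝ} {ρ : ℝ} (hsupp : ∀ z, k z ≠ 0 → ‖z‖ ≤ ρ) (v : V) :
    ∀ z, Dv v k z ≠ 0 → ‖z‖ ≤ ρ := by
  intro z hz
  have h1 : tsupport k ⊆ closedBall 0 ρ := by
    refine closure_minimal (fun y hy => ?_) isClosed_closedBall
    rw [mem_closedBall_zero_iff]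
    exact hsupp y hy
  by_contra h
  apply hz
  have h2 : z ∉ tsupport k := fun h3 => h (by
    have := h1 h3
    rwa [mem_closedBall_zero_iff] at this)
  unfold Dv
  rw [fderiv_of_notMem_tsupport ℝ h2]
  rfl

theorem lcs_compact {k : V → ℝ} {ρ : ℝ} (hsupp : ∀ z, k z ≠ 0 → ‖z‖ ≤ ρ) :
    HasCompactSupport k := by
  refine (isCompact_closedBall (0 : V) ρ).of_isClosed_subset (isClosed_tsupport _) ?_
  refine closure_minimal (fun y hy => ?_) isClosed_closedBall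
  rw [mem_closedBall_zero_iff]
  exact hsupp y hy

/-- the basic estimate -/
theorem lcs_bound0 {k g : V → ℝ} (hk : ContDiff ℝ ∞ k) {ρ : ℝ} (hρ : ρ ≤ 1 / 16)
    (hsupp : ∀ z, k z ≠ 0 → ‖z‖ ≤ ρ) (hg : ContinuousOn g (closedBall 0 (1 / 2)))
    {v : V} {κ : ℝ} (hw : WK g v κ) {M : ℝ} (hM : 0 ≤ M)
    (hkM : ∫ z, ‖fderiv ℝ k z‖ ^ 2 ≤ M ^ 2) {x : V} (hx : ‖x‖ ≤ 1 / 8) :
    |Dv v (mol k g) x| ≤ κ * M := by
  rw [lcs_Dv_mol hk (lcs_compact hsupp) hg v, abs_neg]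
  exact mol_wk hk hsupp hw hM hkM (by linarith)

theorem lcs_bound {k g : V → ℝ} (hk : ContDiff ℝ ∞ k) {ρ : ℝ} (hρ : ρ ≤ 1 / 16)
    (hsupp : ∀ z, k z ≠ 0 → ‖z‖ ≤ ρ) (hg : ContinuousOn g (closedBall 0 (1 / 2)))
    {v : V} {κ : ℝ} (hw : WK g v κ) {M : ℝ} (hM : 0 ≤ M) (p q : V)
    (hkM : ∫ z, ‖fderiv ℝ (Dv p (Dv q k)) z‖ ^ 2 ≤ M ^ 2) {x : V} (hx : ‖x‖ ≤ 1 / 8) :
    |Dv p (Dv q (Dv v (mol k g))) x| ≤ κ * M := by
  have hkv := Dv_contDiff hk v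
  have hkq := Dv_contDiff hk q
  have hsq := lcs_supp hsupp q
  have e1 : Dv q (Dv v (mol k g)) = mol (Dv q (Dv v k)) g := by
    rw [lcs_Dv_mol hk (lcs_compact hsupp) hg v, lcs_neg,
      lcs_Dv_mol hkv (lcs_compact (lcs_supp hsupp v)) hg q]
    funext y
    exact neg_neg _
  have e2 : Dv p (Dv q (Dv v k)) = Dv v (Dv p (Dv q k)) := by
    rw [Dv_comm hk q v, Dv_comm hkq p v]
  rw [e1, lcs_Dv_mol (Dv_contDiff hkv q)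
    (lcs_compact (lcs_supp (lcs_supp hsupp v) q)) hg p, e2, abs_neg]
  exact mol_wk (Dv_contDiff hkq p) (lcs_supp hsq p) hw hM hkM (by linarith)

theorem lcs_mol_sub {k g₁ g₂ : V → ℝ} (hk : Continuous k)
    (h1 : ContinuousOn g₁ (closedBall 0 (1 / 2))) (h2 : ContinuousOn g₂ (closedBall 0 (1 / 2)))
    (c : ℝ) (x : V) :
    mol k (fun y => g₁ y - c * g₂ y) x = mol k g₁ x - c * mol k g₂ x := by
  unfold mol
  have hK := isCompact_closedBall (0 : V) (1 / 2)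
  have hkc : Continuous (fun y => k (y - x)) := hk.comp (by fun_prop)
  have i1 : IntegrableOn (fun y => g₁ y * k (y - x)) (closedBall (0 : V) (1 / 2)) :=
    (h1.mul hkc.continuousOn).integrableOn_compact hK
  have i2 : IntegrableOn (fun y => c * (g₂ y * k (y - x))) (closedBall (0 : V) (1 / 2)) :=
    (continuousOn_const.mul (h2.mul hkc.continuousOn)).integrableOn_compact hK
  rw [← integral_const_mul, ← integral_sub i1 i2]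
  refine integral_congr_ae (Filter.Eventually.of_forall fun y => ?_)
  simp only
  ring

theorem lcs_sub {f g : V → ℝ} (hf : ContDiff ℝ ∞ f) (hg : ContDiff ℝ ∞ g) (c : ℝ) (v : V) :
    Dv v (fun x => f x - c * g x) = fun x => Dv v f x - c * Dv v g x := by
  funext x
  unfold Dv
  have hf' : DifferentiableAt ℝ f x := (hf.differentiable (by simp)) x
  have hg' : DifferentiableAt ℝ g x := (hg.differentiable (by simp)) x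
  rw [fderiv_fun_sub hf' (hg'.const_mul c), fderiv_const_mul hg']
  simp

theorem lcs_sub3 {f g : V → ℝ} (hf : ContDiff ℝ ∞ f) (hg : ContDiff ℝ ∞ g) (c : ℝ)
    (v₁ v₂ v₃ x : V) :
    Dv v₁ (Dv v₂ (Dv v₃ (fun x => f x - c * g x))) x =
      Dv v₁ (Dv v₂ (Dv v₃ f)) x - c * Dv v₁ (Dv v₂ (Dv v₃ g)) x := by
  have hf1 := Dv_contDiff hf v₃
  have hg1 := Dv_contDiff hg v₃
  rw [lcs_sub hf hg, lcs_sub hf1 hg1, lcs_sub (Dv_contDiff hf1 v₂) (Dv_contDiff hg1 v₂)]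

theorem lcs_cj_le {N₀ : V → ℝ} (h₀ : Nice N₀) {u : V} (hu : ‖u‖ = 1) :
    ‖cj N₀ u‖ ≤ N₀ (1, 0) + N₀ (0, 1) := by
  have hu0 : u ≠ 0 := by
    rintro rfl
    simp at hu
  have h1 := h₀.abs_fderiv_le hu0 (1, 0)
  have h2 := h₀.abs_fderiv_le hu0 (0, 1)
  have p1 := h₀.toNormV.nonneg (1, 0)
  have p2 := h₀.toNormV.nonneg (0, 1)
  unfold cj
  rw [Prod.norm_def]
  refine max_le ?_ ?_
  · rw [Real.norm_eq_abs, abs_neg]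
    linarith
  · rw [Real.norm_eq_abs]
    linarith

/-- the choice of the two scales, as a statement on real numbers -/
theorem lcs_trans {CT CH ς R ρ κ Θ z : ℝ} (hCT : 0 < CT) (hCH : 0 < CH) (hς : 0 < ς)
    (hR1 : 1 ≤ R) (hRdef : 8 * CT * CH ^ 2 / ς ^ 2 ≤ R) (hρ2 : ρ ≤ ς / (R * (1 + 2 * CT)))
    (hκ0 : 0 ≤ κ) (hκR : κ ≤ 1 / R) (hΘ : 0 < Θ) (hz0 : 0 ≤ z) (hz : z ≤ ρ) :
    CT * ((CH * (κ * Θ + Θ / R)) ^ 2 + R ^ 2 * z ^ 2 * Θ ^ 2) ≤ (ς * Θ) ^ 2 := by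
  have hRpos : 0 < R := lt_of_lt_of_le one_pos hR1
  have hR2 : 0 < R ^ 2 := pow_pos hRpos 2
  have hς2 : 0 < ς ^ 2 := pow_pos hς 2
  have hc : 0 < 1 + 2 * CT := by linarith
  have hB0 : 0 ≤ CH * (κ * Θ + Θ / R) :=
    mul_nonneg hCH.le (add_nonneg (mul_nonneg hκ0 hΘ.le) (div_nonneg hΘ.le hRpos.le))
  have hB : CH * (κ * Θ + Θ / R) ≤ CH * (2 / R) * Θ := by
    have h1 : κ * Θ ≤ 1 / R * Θ := mul_le_mul_of_nonneg_right hκR hΘ.le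
    have h2 : κ * Θ + Θ / R ≤ 2 / R * Θ := by
      have e : Θ / R = 1 / R * Θ := by ring
      have h3 : 2 / R * Θ = 1 / R * Θ + 1 / R * Θ := by ring
      rw [e, h3]
      exact add_le_add h1 le_rfl
    calc CH * (κ * Θ + Θ / R) ≤ CH * (2 / R * Θ) := mul_le_mul_of_nonneg_left h2 hCH.le
      _ = CH * (2 / R) * Θ := by ring
  have h1 : (CH * (κ * Θ + Θ / R)) ^ 2 ≤ (CH * (2 / R) * Θ) ^ 2 := pow_le_pow_left₀ hB0 hB 2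
  have h2 : CT * (CH * (2 / R) * Θ) ^ 2 ≤ ς ^ 2 / 2 * Θ ^ 2 := by
    have h3 : CT * (CH * (2 / R) * Θ) ^ 2 = (4 * CT * CH ^ 2 / R ^ 2) * Θ ^ 2 := by
      rw [div_eq_mul_inv, div_eq_mul_inv, ← inv_pow]
      ring
    rw [h3]
    refine mul_le_mul_of_nonneg_right ?_ (sq_nonneg _)
    rw [div_le_iff₀ hR2]
    have h4 : 8 * CT * CH ^ 2 ≤ R * ς ^ 2 := (div_le_iff₀ hς2).1 hRdef
    have h5 : R * ς ^ 2 ≤ R ^ 2 * ς ^ 2 :=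
      mul_le_mul_of_nonneg_right (le_self_pow₀ hR1 two_ne_zero) hς2.le
    linarith
  have h5 : R * z ≤ ς / (1 + 2 * CT) := by
    have h6 : z ≤ ς / (R * (1 + 2 * CT)) := hz.trans hρ2
    rw [le_div_iff₀ hc]
    rw [le_div_iff₀ (mul_pos hRpos hc)] at h6
    linarith
  have h7 : CT * (R ^ 2 * z ^ 2 * Θ ^ 2) ≤ ς ^ 2 / 2 * Θ ^ 2 := by
    have h8 : (R * z) ^ 2 ≤ (ς / (1 + 2 * CT)) ^ 2 :=
      pow_le_pow_left₀ (mul_nonneg hRpos.le hz0) h5 2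
    have h9 : CT * (ς / (1 + 2 * CT)) ^ 2 ≤ ς ^ 2 / 2 := by
      rw [div_pow, ← mul_div_assoc, div_le_iff₀ (pow_pos hc 2)]
      have e : ς ^ 2 / 2 * (1 + 2 * CT) ^ 2 - CT * ς ^ 2 = ς ^ 2 * (1 / 2 + CT + 2 * CT ^ 2) := by
        ring
      have e2 : 0 ≤ ς ^ 2 * (1 / 2 + CT + 2 * CT ^ 2) :=
        mul_nonneg hς2.le (by have := sq_nonneg CT; linarith)
      linarith
    calc CT * (R ^ 2 * z ^ 2 * Θ ^ 2) = CT * (R * z) ^ 2 * Θ ^ 2 := by ring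
      _ ≤ CT * (ς / (1 + 2 * CT)) ^ 2 * Θ ^ 2 := by
        refine mul_le_mul_of_nonneg_right ?_ (sq_nonneg _)
        exact mul_le_mul_of_nonneg_left h8 hCT.le
      _ ≤ ς ^ 2 / 2 * Θ ^ 2 := mul_le_mul_of_nonneg_right h9 (sq_nonneg _)
  have h10 : CT * (CH * (κ * Θ + Θ / R)) ^ 2 ≤ CT * (CH * (2 / R) * Θ) ^ 2 :=
    mul_le_mul_of_nonneg_left h1 hCT.le
  rw [mul_add, mul_pow ς Θ 2]
  have e : ς ^ 2 * Θ ^ 2 = ς ^ 2 / 2 * Θ ^ 2 + ς ^ 2 / 2 * Θ ^ 2 := by ring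
  rw [e]
  exact add_le_add (h10.trans h2) h7

/-- one bound for all the gradient norms of a kernel and its second derivatives -/
theorem lcs_M (k : V → ℝ) : ∃ M : ℝ, 1 ≤ M ∧ (∫ z, ‖fderiv ℝ k z‖ ^ 2 ≤ M ^ 2) ∧
    (∫ z, ‖fderiv ℝ (Dv ((1, 0) : V) (Dv ((1, 0) : V) k)) z‖ ^ 2 ≤ M ^ 2) ∧
    (∫ z, ‖fderiv ℝ (Dv ((1, 0) : V) (Dv ((0, 1) : V) k)) z‖ ^ 2 ≤ M ^ 2) ∧
    (∫ z, ‖fderiv ℝ (Dv ((0, 1) : V) (Dv ((1, 0) : V) k)) z‖ ^ 2 ≤ M ^ 2) ∧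
    (∫ z, ‖fderiv ℝ (Dv ((0, 1) : V) (Dv ((0, 1) : V) k)) z‖ ^ 2 ≤ M ^ 2) := by
  have key : ∀ q0 q1 q2 q3 q4 : ℝ, 0 ≤ q0 → 0 ≤ q1 → 0 ≤ q2 → 0 ≤ q3 → 0 ≤ q4 →
      ∃ M : ℝ, 1 ≤ M ∧ q0 ≤ M ^ 2 ∧ q1 ≤ M ^ 2 ∧ q2 ≤ M ^ 2 ∧ q3 ≤ M ^ 2 ∧ q4 ≤ M ^ 2 := by
    intro q0 q1 q2 q3 q4 h0 h1 h2 h3 h4
    have hM1 : 1 ≤ 1 + q0 + q1 + q2 + q3 + q4 := by linarith
    have hMM := le_self_pow₀ hM1 two_ne_zero
    exact ⟨_, hM1, by linarith, by linarith, by linarith, by linarith, by linarith⟩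
  exact key _ _ _ _ _ (integral_nonneg fun z => sq_nonneg _)
    (integral_nonneg fun z => sq_nonneg _) (integral_nonneg fun z => sq_nonneg _)
    (integral_nonneg fun z => sq_nonneg _) (integral_nonneg fun z => sq_nonneg _)

/-- the last step, as a statement on real numbers -/
theorem lcs_fin {K P w X Y Z B : ℝ} (hP : 0 ≤ P) (hw : w ≤ K)
    (t1 : |X - 2 / 3 * Z| ≤ 4 * 1 * w * P) (t2 : |X - 1 / 3 * Z| ≤ 4 * 1 * 1 * P)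
    (h3 : 12 * (1 + K) * P ≤ B) (hY : Z = Y) : |Y| ≤ B := by
  subst hY
  have t3 : 4 * 1 * w * P ≤ 4 * K * P := mul_le_mul_of_nonneg_right (by linarith) hP
  have h1 := abs_le.1 (t1.trans t3)
  have h2 := abs_le.1 t2
  have e : 12 * (1 + K) * P = 12 * P + 12 * (K * P) := by ring
  have e' : 4 * K * P = 4 * (K * P) := by ring
  rw [e] at h3
  rw [e'] at h1
  rw [abs_le]
  constructor <;> linarith [h1.1, h1.2, h2.1, h2.2]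

/-- the closeness of a function and its mollification -/
theorem lcs_close {CT CH ς R ρ κ Θ : ℝ} (hCT : 0 < CT) (hCH : 0 < CH) (hς : 0 < ς)
    (hTR : ∀ (g : V → ℝ) (D Θ R : ℝ), ContinuousOn g (closedBall 0 (1 / 2)) →
      ∫ y in closedBall (0 : V) (1 / 2), (g y) ^ 2 ≤ Θ ^ 2 → 0 ≤ Θ → 0 ≤ D → 1 ≤ R →
      (∀ S : Finset (ℤ × ℤ), (∀ n ∈ S, R ≤ nn n) →
        ∑ n ∈ S, ‖fc (fun y => cut y * g y) n‖ ^ 2 ≤ D ^ 2) →
      ∀ h : V, ‖h‖ ≤ 1 / 16 →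
        ∫ y in closedBall (0 : V) (3 / 16), (g (y + h) - g y) ^ 2 ≤
          CT * (D ^ 2 + R ^ 2 * ‖h‖ ^ 2 * Θ ^ 2))
    (hR1 : 1 ≤ R) (hRdef : 8 * CT * CH ^ 2 / ς ^ 2 ≤ R) (hρ2 : ρ ≤ ς / (R * (1 + 2 * CT)))
    (hρ1 : ρ ≤ 1 / 16)
    (hκ0 : 0 ≤ κ) (hκR : κ ≤ 1 / R) (hΘ : 0 < Θ) {k : V → ℝ} (hk : ContDiff ℝ ∞ k)
    (hk0 : ∀ z, 0 ≤ k z) (hsupp : ∀ z, k z ≠ 0 → ‖z‖ ≤ ρ) (hk1 : ∫ z, k z = 1)
    {g : V → ℝ} (hg : ContinuousOn g (closedBall 0 (1 / 2)))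
    (hg2 : ∫ y in closedBall (0 : V) (1 / 2), (g y) ^ 2 ≤ Θ ^ 2)
    (hS : ∀ S : Finset (ℤ × ℤ), (∀ n ∈ S, R ≤ nn n) →
        ∑ n ∈ S, ‖fc (fun y => cut y * g y) n‖ ^ 2 ≤ (CH * (κ * Θ + Θ / R)) ^ 2) :
    ∫ x in closedBall (0 : V) (1 / 8), |g x - mol k g x| ≤ ς * Θ := by
  have hRpos : 0 < R := lt_of_lt_of_le one_pos hR1
  have hB0 : 0 ≤ CH * (κ * Θ + Θ / R) :=
    mul_nonneg hCH.le (add_nonneg (mul_nonneg hκ0 hΘ.le) (div_nonneg hΘ.le hRpos.le))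
  have h1 := mol_close hρ1 hk hk0 hsupp hk1 hg (mul_nonneg hς.le hΘ.le)
    (fun z hz => (hTR g _ Θ R hg hg2 hΘ.le hB0 hR1 hS z (hz.trans hρ1)).trans
      (lcs_trans hCT hCH hς hR1 hRdef hρ2 hκ0 hκR hΘ (norm_nonneg z) hz))
  refine le_trans (le_of_eq ?_) h1
  refine integral_congr_ae (Filter.Eventually.of_forall fun y => ?_)
  exact abs_sub_comm _ _

/-- the three pointwise estimates for the mollified functions -/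
theorem lcs_point {N₀ : V → ℝ} (h₀ : Nice N₀) {κ Θ ς M ρ : ℝ} (hκpos : 0 < κ) (hΘ : 0 < Θ)
    (hM0 : 0 ≤ M) (hκM1 : κ * M ≤ ς)
    (hκM : κ * (12 * (1 + (N₀ (1, 0) + N₀ (0, 1))) * M) ≤ ς)
    {a : V → V → ℝ} {Γ : V → ℝ} (hWS : WS N₀ (κ * Θ) Θ a Γ) (hρ1 : ρ ≤ 1 / 16)
    {k : V → ℝ} (hk : ContDiff ℝ ∞ k) (hkc : HasCompactSupport k)
    (hsupp : ∀ z, k z ≠ 0 → ‖z‖ ≤ ρ)
    (m0 : ∫ z, ‖fderiv ℝ k z‖ ^ 2 ≤ M ^ 2)
    (m1 : ∫ z, ‖fderiv ℝ (Dv ((1, 0) : V) (Dv ((1, 0) : V) k)) z‖ ^ 2 ≤ M ^ 2)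
    (m2 : ∫ z, ‖fderiv ℝ (Dv ((1, 0) : V) (Dv ((0, 1) : V) k)) z‖ ^ 2 ≤ M ^ 2)
    (m3 : ∫ z, ‖fderiv ℝ (Dv ((0, 1) : V) (Dv ((1, 0) : V) k)) z‖ ^ 2 ≤ M ^ 2)
    (m4 : ∫ z, ‖fderiv ℝ (Dv ((0, 1) : V) (Dv ((0, 1) : V) k)) z‖ ^ 2 ≤ M ^ 2)
    {x : V} (hx' : ‖x‖ ≤ 1 / 8) {u : V} (hu : ‖u‖ = 1) :
    |fderiv ℝ (mol k (a u)) x u - (2 / 3) * fderiv ℝ (mol k Γ) x u| ≤ ς * Θ ∧
    |fderiv ℝ (mol k (a u)) x (cj N₀ u) - (1 / 3) * fderiv ℝ (mol k Γ) x (cj N₀ u)| ≤ ς * Θ ∧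
    ∀ j, ‖j‖ = 1 → |Dv j (Dv u (Dv (cj N₀ u) (mol k Γ))) x| ≤ ς * Θ := by
  have hG : ContDiff ℝ ∞ (mol k Γ) := mol_contDiff hk hkc hWS.cΓ
  have hA : ContDiff ℝ ∞ (mol k (a u)) := mol_contDiff hk hkc (hWS.ca u hu)
  have hcu := hWS.ca u hu
  have e1 : mol k (fun y => a u y - 2 / 3 * Γ y) = fun x => mol k (a u) x - 2 / 3 * mol k Γ x :=
    funext fun y => lcs_mol_sub hk.continuous hcu hWS.cΓ _ y
  have e2 : mol k (fun y => a u y - 1 / 3 * Γ y) = fun x => mol k (a u) x - 1 / 3 * mol k Γ x :=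
    funext fun y => lcs_mol_sub hk.continuous hcu hWS.cΓ _ y
  have g1 : ContinuousOn (fun y => a u y - 2 / 3 * Γ y) (closedBall 0 (1 / 2)) :=
    hcu.sub (hWS.cΓ.const_mul _)
  have g2 : ContinuousOn (fun y => a u y - 1 / 3 * Γ y) (closedBall 0 (1 / 2)) :=
    hcu.sub (hWS.cΓ.const_mul _)
  have w1 := hWS.wu u hu
  have w2 := hWS.ww u hu
  have hmain : κ * Θ * M ≤ ς * Θ := by
    calc κ * Θ * M = κ * M * Θ := by ring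
      _ ≤ ς * Θ := mul_le_mul_of_nonneg_right hκM1 hΘ.le
  refine ⟨?_, ?_, fun j hj => ?_⟩
  · have h1 := lcs_bound0 hk hρ1 hsupp g1 w1 hM0 m0 hx'
    rw [e1, lcs_sub hA hG] at h1
    exact h1.trans hmain
  · have h1 := lcs_bound0 hk hρ1 hsupp g2 w2 hM0 m0 hx'
    rw [e2, lcs_sub hA hG] at h1
    exact h1.trans hmain
  · have hwK : ‖cj N₀ u‖ ≤ N₀ (1, 0) + N₀ (0, 1) := lcs_cj_le h₀ hu
    revert w2 hwK
    generalize cj N₀ u = w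
    intro w2 hwK
    have s1 : ContDiff ℝ ∞ (Dv u (mol k (fun y => a u y - 2 / 3 * Γ y))) :=
      Dv_contDiff (mol_contDiff hk hkc g1) u
    have s2 : ContDiff ℝ ∞ (Dv w (mol k (fun y => a u y - 1 / 3 * Γ y))) :=
      Dv_contDiff (mol_contDiff hk hkc g2) w
    have t1 : |Dv j (Dv w (Dv u (mol k (fun y => a u y - 2 / 3 * Γ y)))) x| ≤
        4 * ‖j‖ * ‖w‖ * (κ * Θ * M) :=
      lcs_two s1 (lcs_bound hk hρ1 hsupp g1 w1 hM0 _ _ m1 hx')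
        (lcs_bound hk hρ1 hsupp g1 w1 hM0 _ _ m2 hx')
        (lcs_bound hk hρ1 hsupp g1 w1 hM0 _ _ m3 hx')
        (lcs_bound hk hρ1 hsupp g1 w1 hM0 _ _ m4 hx') j w
    have t2 : |Dv j (Dv u (Dv w (mol k (fun y => a u y - 1 / 3 * Γ y)))) x| ≤
        4 * ‖j‖ * ‖u‖ * (κ * Θ * M) :=
      lcs_two s2 (lcs_bound hk hρ1 hsupp g2 w2 hM0 _ _ m1 hx')
        (lcs_bound hk hρ1 hsupp g2 w2 hM0 _ _ m2 hx')
        (lcs_bound hk hρ1 hsupp g2 w2 hM0 _ _ m3 hx')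
        (lcs_bound hk hρ1 hsupp g2 w2 hM0 _ _ m4 hx') j u
    rw [e1, lcs_sub3 hA hG, Dv_comm hA w u, Dv_comm hG w u] at t1
    rw [e2, lcs_sub3 hA hG] at t2
    rw [hj, hu] at t2
    rw [hj] at t1
    have hP : 0 ≤ κ * Θ * M := mul_nonneg (mul_nonneg hκpos.le hΘ.le) hM0
    have h3 : 12 * (1 + (N₀ (1, 0) + N₀ (0, 1))) * (κ * Θ * M) ≤ ς * Θ := by
      calc 12 * (1 + (N₀ (1, 0) + N₀ (0, 1))) * (κ * Θ * M)
          = κ * (12 * (1 + (N₀ (1, 0) + N₀ (0, 1))) * M) * Θ := by ring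
        _ ≤ ς * Θ := mul_le_mul_of_nonneg_right hκM hΘ.le
    exact lcs_fin hP hwK t1 t2 h3 rfl

/-- LCS -/
theorem lc_smooth {N₀ : V → ℝ} (h₀ : Nice N₀) :
    ∀ ς > 0, ∃ κ > 0, ∀ Θ > 0, ∀ (a : V → V → ℝ) (Γ : V → ℝ), WS N₀ (κ * Θ) Θ a Γ →
      ∃ (G : V → ℝ) (A : V → V → ℝ), ContDiff ℝ ∞ G ∧ (∀ u, ‖u‖ = 1 → ContDiff ℝ ∞ (A u)) ∧
        (∫ x in closedBall (0 : V) (1 / 8), |Γ x - G x| ≤ ς * Θ) ∧
        (∀ u, ‖u‖ = 1 → ∫ x in closedBall (0 : V) (1 / 8), |a u x - A u x| ≤ ς * Θ) ∧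
        ∀ x ∈ closedBall (0 : V) (1 / 8), ∀ u, ‖u‖ = 1 →
          |fderiv ℝ (A u) x u - (2 / 3) * fderiv ℝ G x u| ≤ ς * Θ ∧
          |fderiv ℝ (A u) x (cj N₀ u) - (1 / 3) * fderiv ℝ G x (cj N₀ u)| ≤ ς * Θ ∧
          ∀ j, ‖j‖ = 1 → |Dv j (Dv u (Dv (cj N₀ u) G)) x| ≤ ς * Θ := by
  intro ς hς
  obtain ⟨CH, hCH, hHF⟩ := hf_all h₀
  obtain ⟨CT, hCT, hTR⟩ := tr
  have hK0 : 0 ≤ N₀ (1, 0) + N₀ (0, 1) :=
    add_nonneg (h₀.toNormV.nonneg _) (h₀.toNormV.nonneg _)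
  obtain ⟨R, hR1, hRdef⟩ : ∃ R : ℝ, 1 ≤ R ∧ 8 * CT * CH ^ 2 / ς ^ 2 ≤ R :=
    ⟨max 1 _, le_max_left _ _, le_max_right _ _⟩
  have hRpos : 0 < R := lt_of_lt_of_le one_pos hR1
  have hc : 0 < 1 + 2 * CT := by linarith
  obtain ⟨ρ, hρpos, hρ1, hρ2⟩ : ∃ ρ : ℝ, 0 < ρ ∧ ρ ≤ 1 / 16 ∧ ρ ≤ ς / (R * (1 + 2 * CT)) :=
    ⟨min (1 / 16) (ς / (R * (1 + 2 * CT))),
      lt_min (by norm_num) (div_pos hς (mul_pos hRpos hc)), min_le_left _ _, min_le_right _ _⟩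
  obtain ⟨k, hk, hkc, hk0, hsupp, hk1⟩ := exists_kernel hρpos
  obtain ⟨M, hM1, m0, m1, m2, m3, m4⟩ := lcs_M k
  have hM0 : 0 < M := lt_of_lt_of_le one_pos hM1
  have h12 : 0 < 12 * (1 + (N₀ (1, 0) + N₀ (0, 1))) * M :=
    mul_pos (mul_pos (by norm_num) (by linarith)) hM0
  obtain ⟨κ, hκpos, hκR, hκM⟩ : ∃ κ : ℝ, 0 < κ ∧ κ ≤ 1 / R ∧
      κ * (12 * (1 + (N₀ (1, 0) + N₀ (0, 1))) * M) ≤ ς :=
    ⟨min (1 / R) (ς / (12 * (1 + (N₀ (1, 0) + N₀ (0, 1))) * M)),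
      lt_min (one_div_pos.2 hRpos) (div_pos hς h12), min_le_left _ _,
      (le_div_iff₀ h12).1 (min_le_right _ _)⟩
  have hκM1 : κ * M ≤ ς := by
    refine le_trans (mul_le_mul_of_nonneg_left ?_ hκpos.le) hκM
    have h1 : 0 ≤ (N₀ (1, 0) + N₀ (0, 1)) * M := mul_nonneg hK0 hM0.le
    linarith
  refine ⟨κ, hκpos, fun Θ hΘ a Γ hWS => ?_⟩
  have hbig := fun S hS => hHF (κ * Θ) Θ R (mul_nonneg hκpos.le hΘ.le) hΘ.le hR1 a Γ hWS S hS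
  refine ⟨mol k Γ, fun u => mol k (a u), mol_contDiff hk hkc hWS.cΓ,
    fun u hu => mol_contDiff hk hkc (hWS.ca u hu),
    lcs_close hCT hCH hς hTR hR1 hRdef hρ2 hρ1 hκpos.le hκR hΘ hk hk0 hsupp hk1 hWS.cΓ hWS.lΓ
      (fun S hS => (hbig S hS).1),
    fun u hu => lcs_close hCT hCH hς hTR hR1 hRdef hρ2 hρ1 hκpos.le hκR hΘ hk hk0 hsupp hk1
      (hWS.ca u hu) (hWS.la u hu) (fun S hS => (hbig S hS).2 u hu), ?_⟩
  intro x hx u hu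
  exact lcs_point h₀ hκpos hΘ hM0.le hκM1 hκM hWS hρ1 hk hkc hsupp m0 m1 m2 m3 m4
    (mem_closedBall_zero_iff.1 hx) hu

end Pool.Agent.L1de93c
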