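import Pool.Agent.Lib_MP_1de93e_cont.NiceB

/-!
# Definitions for the linear theory
-/

namespace Pool.Agent.L1de93c

open MeasureTheory Metric Set
open scoped ContDiff

/-- `∂_v g` is `κ`-small in the dual of the gradient norm, on the square `closedBall 0 (1/2)`. -/
def WK (g : V → ℝ) (v : V) (κ : ℝ) : Prop :=
  ∀ ψ : V → ℝ, ContDiff ℝ ∞ ψ → tsupport ψ ⊆ closedBall 0 (1 / 2) → ∀ M : ℝ, 0 ≤ M →
    ∫ y in closedBall (0 : V) (1 / 2), ‖fderiv ℝ ψ y‖ ^ 2 ≤ M ^ 2 →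
    |∫ y in closedBall (0 : V) (1 / 2), g y * fderiv ℝ ψ y v| ≤ κ * M

/-- Approximate solutions of the linearised system (`a u` stands for `log F · u`, `Γ` for `lc F`,
both up to constants). -/
structure WS (N₀ : V → ℝ) (κ Θ : ℝ) (a : V → V → ℝ) (Γ : V → ℝ) : Prop where
  ca : ∀ u, ‖u‖ = 1 → ContinuousOn (a u) (closedBall 0 (1 / 2))
  cΓ : ContinuousOn Γ (closedBall 0 (1 / 2))
  wu : ∀ u, ‖u‖ = 1 → WK (fun y => a u y - (2 / 3) * Γ y) u κ
  ww : ∀ u, ‖u‖ = 1 → WK (fun y => a u y - (1 / 3) * Γ y) (cj N₀ u) κ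
  la : ∀ u, ‖u‖ = 1 → ∫ y in closedBall (0 : V) (1 / 2), (a u y) ^ 2 ≤ Θ ^ 2
  lΓ : ∫ y in closedBall (0 : V) (1 / 2), (Γ y) ^ 2 ≤ Θ ^ 2

/-- Fourier coefficients on the unit square `closedBall 0 (1/2)`. -/
noncomputable def fc (w : V → ℝ) (n : ℤ × ℤ) : ℂ :=
  ∫ y in closedBall (0 : V) (1 / 2),
    (w y : ℂ) * Complex.exp (-(2 * Real.pi * ((n.1 : ℝ) * y.1 + (n.2 : ℝ) * y.2) : ℝ) * Complex.I)

/-- The size of a frequency. -/
noncomputable def nn (n : ℤ × ℤ) : ℝ := max |(n.1 : ℝ)| |(n.2 : ℝ)|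

/-- A smooth cutoff: `1` on `closedBall 0 (1/4)`, supported in `closedBall 0 (3/8)`. -/
noncomputable def cutB : ContDiffBump (0 : V) := ⟨1 / 4, 3 / 8, by norm_num, by norm_num⟩

noncomputable def cut (y : V) : ℝ := cutB y

theorem cut_contDiff : ContDiff ℝ ∞ cut := cutB.contDiff

theorem cut_nonneg (y : V) : 0 ≤ cut y := cutB.nonneg

theorem cut_le_one (y : V) : cut y ≤ 1 := cutB.le_one

theorem cut_one {y : V} (hy : y ∈ closedBall (0 : V) (1 / 4)) : cut y = 1 :=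
  cutB.one_of_mem_closedBall hy

theorem tsupport_cut : tsupport cut ⊆ closedBall 0 (3 / 8) := by
  have : tsupport cut = closedBall 0 (3 / 8) := cutB.tsupport_eq
  rw [this]

theorem cut_zero {y : V} (hy : y ∉ closedBall (0 : V) (3 / 8)) : cut y = 0 := by
  by_contra h
  exact hy (tsupport_cut (subset_tsupport _ h))

/-- Truncated convolution with the kernel `k`. -/
noncomputable def mol (k g : V → ℝ) (x : V) : ℝ :=
  ∫ y in closedBall (0 : V) (1 / 2), g y * k (y - x)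

end Pool.Agent.L1de93c
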