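import Pool.Agent.Lib_MP_1de93e_cont.Obl
import Pool.Agent.Lib_MP_1de93e_cont.Cam

/-!
# PIECE LIP: Lipschitz continuity

## LIP `F_lip`: `campanato` for every unit vector `u` (with the same constants), then homogeneity.
-/

namespace Pool.Agent.L1de93c

open MeasureTheory Metric Set

/-- LIP -/
theorem F_lip {U : Set V} {F : V → V → ℝ} (h : RP U F) {x₀ : V} (hx₀ : x₀ ∈ U)
    (h₀ : Nice (F x₀)) :
    ∃ L > 0, ∃ r₀ > 0, closedBall x₀ r₀ ⊆ U ∧ ∀ x ∈ closedBall x₀ r₀, ∀ y ∈ closedBall x₀ r₀,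
      ∀ u, |F x u - F y u| ≤ L * ‖x - y‖ * ‖u‖ := by
  obtain ⟨C, hC, r₀, hr₀, hsub, hob⟩ := ob_linear h hx₀ h₀
  have hsub' : closedBall x₀ (r₀ / 4) ⊆ U :=
    (closedBall_subset_closedBall (by linarith)).trans hsub
  refine ⟨40 * C, by positivity, r₀ / 4, by positivity, hsub', fun x hx y hy u => ?_⟩
  have hNx := h.norm x (hsub' hx)
  have hNy := h.norm y (hsub' hy)
  by_cases hu : u = 0
  · rw [hu, hNx.zero, hNy.zero, sub_zero, abs_zero, norm_zero, mul_zero]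
  have hn : 0 < ‖u‖ := norm_pos_iff.mpr hu
  have h1 : ‖‖u‖⁻¹ • u‖ = 1 := by
    rw [norm_smul, norm_inv, norm_norm, inv_mul_cancel₀ hn.ne']
  have h2 := campanato (h := fun y => F y (‖u‖⁻¹ • u)) hr₀ hC.le
    ((h.toHP.continuousOn_left _).mono hsub)
    (fun z hz r hr hrr => (hob z hz r hr hrr).1 _ h1) x hx y hy
  simp only [hNx.smul_nonneg (inv_nonneg.mpr hn.le), hNy.smul_nonneg (inv_nonneg.mpr hn.le)] at h2
  rw [← mul_sub, abs_mul, abs_of_pos (inv_pos.mpr hn), inv_mul_le_iff₀ hn] at h2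
  linarith

end Pool.Agent.L1de93c
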