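import Pool.Agent.Lib_MP_1de93e_cont.Base

/-!
# PIECE NUL: the null Lagrangian estimate

Let `Q = [-1,1]² = closedBall 0 1`, `b s = 1 - s²`, `χ (x,y) = b x * b y`, so `0 ≤ χ ≤ 1` and
`|∂₁ χ|, |∂₂ χ| ≤ 2` on `Q`, `χ = 0` on the boundary. Write `G1, A2, B1, G2` as functions of `(x, y)`.
Put `R1 (x,y) = ∫₀ˣ G1 (s,y) ds`, `R2 (x,y) = ∫₀ʸ G2 (x,s) ds`. By `h1`, `∂₂ R1 = ∫₀ˣ ∂₂ G1 (s,y) ds =
∫₀ˣ ∂₁ A2 (s,y) ds = A2 (x,y) - A2 (0,y)`, and by `h2` `∂₁ R2 = B1 (x,y) - B1 (x,0)`. Therefore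
`∬ χ A2 B1 = ∬ χ A2(0,y) B1(x,y) + ∬ χ ∂₂R1 B1`.
First term: `= (∫ b(y) A2(0,y) dy) (∫ b(x) B1(x,0) dx) + ∬ χ A2(0,y) ∂₁R2 = 0 - ∬ ∂₁χ A2(0,y) R2`, which is at
most `2 p ∬ |R2| ≤ 4 p ∬ |G2|` (`|R2 (x,y)| ≤ ∫_{-1}^1 |G2 (x,s)| ds`).
Second term, integration by parts in `y`: `- ∬ ∂₂χ B1 R1 - ∬ χ (∂₂ B1) R1`; the first part is at most
`2 p ∬ |R1| ≤ 4 p ∬ |G1|`; in the second `∂₂ B1 = ∂₁ G2`, and integrating by parts in `x`:
`- ∬ χ (∂₁ G2) R1 = ∬ ∂₁χ R1 G2 + ∬ χ G1 G2`, at most `2 p ∬ |G2| + p ∬ |G1|`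
(`|R1| ≤ p |x| ≤ p`, `|G2| ≤ p`). Total `≤ 5 p ∬ |G1| + 6 p ∬ |G2|`.

Lean hints: pass to iterated interval integrals (`closedBall_prod_same`, `setIntegral_prod`),
differentiate `R1` in `y` with `intervalIntegral.hasDerivAt_integral_of_dominated_loc_of_deriv_le` (or
`hasDerivAt_of_...` for jointly continuous derivative), integration by parts
`intervalIntegral.integral_mul_deriv_eq_deriv_mul`. Everything is continuous on a neighbourhood `U`
of the square. Exchange of the order of integration: `intervalIntegral_integral_swap`-type lemmas or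
`setIntegral_prod_swap`.
-/

namespace Pool.Agent.L1de93c

open MeasureTheory Metric Set

theorem nul_swap {f : ℝ × ℝ → ℝ} (hf : Continuous f) (a b c d : ℝ) :
    ∫ x in a..b, ∫ y in c..d, f (x, y) = ∫ y in c..d, ∫ x in a..b, f (x, y) := by
  refine intervalIntegral_intervalIntegral_swap (F := fun x y => f (x, y)) ?_
  have h1 : IntegrableOn f (uIcc a b ×ˢ uIcc c d) :=
    hf.continuousOn.integrableOn_compact (isCompact_uIcc.prod isCompact_uIcc)
  exact h1.mono_set (prod_mono uIoc_subset_uIcc uIoc_subset_uIcc)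

theorem nul_sub {h H : ℝ → ℝ} (hh : Continuous h) (hH : Continuous H)
    (hle : ∀ t ∈ Icc (-1 : ℝ) 1, |h t| ≤ H t) {y : ℝ} (hy : y ∈ Icc (-1 : ℝ) 1) :
    |∫ t in (0 : ℝ)..y, h t| ≤ ∫ t in (-1 : ℝ)..1, H t := by
  have hsub : uIoc 0 y ⊆ Ioc (-1 : ℝ) 1 := by
    intro t ht
    rcases le_total 0 y with h0 | h0
    · rw [uIoc_of_le h0] at ht
      exact ⟨by linarith [ht.1], ht.2.trans hy.2⟩
    · rw [uIoc_of_ge h0] at ht
      exact ⟨lt_of_le_of_lt hy.1 ht.1, ht.2.trans (by norm_num)⟩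
  have h1 := intervalIntegral.norm_integral_le_integral_norm_uIoc (f := h) (μ := volume)
    (a := 0) (b := y)
  rw [Real.norm_eq_abs] at h1
  refine h1.trans ?_
  rw [intervalIntegral.integral_of_le (by norm_num)]
  have hiH : IntegrableOn H (Ioc (-1 : ℝ) 1) := hH.integrableOn_Ioc
  calc ∫ t in uIoc 0 y, ‖h t‖ ≤ ∫ t in uIoc 0 y, H t := by
        refine setIntegral_mono_on ?_ (hiH.mono_set hsub) measurableSet_uIoc ?_
        · exact (hh.norm.integrableOn_Ioc (a := -1) (b := 1)).mono_set hsub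
        · intro t ht
          have := hsub ht
          exact hle t ⟨this.1.le, this.2⟩
    _ ≤ ∫ t in Ioc (-1 : ℝ) 1, H t := by
        refine setIntegral_mono_set hiH ?_ (Filter.Eventually.of_forall hsub)
        refine (ae_restrict_iff' measurableSet_Ioc).2 (Filter.Eventually.of_forall fun t ht => ?_)
        exact (abs_nonneg _).trans (hle t ⟨ht.1.le, ht.2⟩)

theorem nul_full {h H : ℝ → ℝ} (hH : Continuous H)
    (hle : ∀ t ∈ Icc (-1 : ℝ) 1, |h t| ≤ H t) :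
    |∫ t in (-1 : ℝ)..1, h t| ≤ ∫ t in (-1 : ℝ)..1, H t := by
  have h1 := intervalIntegral.norm_integral_le_of_norm_le (f := h) (g := H) (μ := volume)
    (a := -1) (b := 1) (by norm_num) (Filter.Eventually.of_forall fun t ht =>
      hle t ⟨ht.1.le, ht.2⟩) (hH.intervalIntegrable _ _)
  rwa [Real.norm_eq_abs] at h1

/-- Integration by parts with vanishing boundary values. -/
theorem nul_ibp {u v u' v' : ℝ → ℝ} (hu : Continuous u) (hv : Continuous v)
    (huu' : ∀ x ∈ Ioo (-1 : ℝ) 1, HasDerivAt u (u' x) x)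
    (hvv' : ∀ x ∈ Ioo (-1 : ℝ) 1, HasDerivAt v (v' x) x) (hu' : Continuous u')
    (hv' : Continuous v') (h1 : u 1 = 0) (h2 : u (-1) = 0) :
    ∫ x in (-1 : ℝ)..1, u x * v' x = -∫ x in (-1 : ℝ)..1, u' x * v x := by
  have h := intervalIntegral.integral_mul_deriv_eq_deriv_mul_of_hasDerivAt (a := -1) (b := 1)
    (u := u) (v := v) (u' := u') (v' := v') hu.continuousOn hv.continuousOn
    (by
      intro x hx
      rw [min_eq_left (by norm_num), max_eq_right (by norm_num)] at hx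
      exact huu' x hx)
    (by
      intro x hx
      rw [min_eq_left (by norm_num), max_eq_right (by norm_num)] at hx
      exact hvv' x hx)
    (hu'.intervalIntegrable _ _) (hv'.intervalIntegrable _ _)
  rw [h, h1, h2]
  ring

theorem nul_b (x : ℝ) : HasDerivAt (fun x : ℝ => 1 - x ^ 2) (-(2 * x)) x := by
  have h := ((hasDerivAt_id x).pow 2).const_sub 1
  simpa using h

theorem nul_b01 {x : ℝ} (hx : x ∈ Icc (-1 : ℝ) 1) : 0 ≤ 1 - x ^ 2 ∧ 1 - x ^ 2 ≤ 1 := by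
  have : x ^ 2 ≤ 1 := by nlinarith [hx.1, hx.2]
  constructor <;> nlinarith [sq_nonneg x]

section

variable {g1 a b g2 m n : ℝ × ℝ → ℝ} (hg1 : Continuous g1) (ha : Continuous a)
  (hb : Continuous b) (hg2 : Continuous g2) (hm : Continuous m) (hn : Continuous n)
  (dg1 : ∀ s ∈ Icc (-1 : ℝ) 1, ∀ y ∈ Ioo (-1 : ℝ) 1, HasDerivAt (fun y => g1 (s, y)) (m (s, y)) y)
  (da : ∀ x ∈ Icc (-1 : ℝ) 1, ∀ y ∈ Icc (-1 : ℝ) 1, a (x, y) - a (0, y) = ∫ s in (0:ℝ)..x, m (s, y))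
  (db : ∀ x ∈ Icc (-1 : ℝ) 1, ∀ y ∈ Ioo (-1 : ℝ) 1, HasDerivAt (fun y => b (x, y)) (n (x, y)) y)
  (db' : ∀ x ∈ Icc (-1 : ℝ) 1, ∀ y ∈ Icc (-1 : ℝ) 1, b (x, y) - b (x, 0) = ∫ t in (0:ℝ)..y, n (x, t))
  (dg2 : ∀ y ∈ Icc (-1 : ℝ) 1, ∀ x ∈ Ioo (-1 : ℝ) 1, HasDerivAt (fun x => g2 (x, y)) (n (x, y)) x)
  {p : ℝ} (hp : 0 ≤ p)
  (bg1 : ∀ x ∈ Icc (-1 : ℝ) 1, ∀ y ∈ Icc (-1 : ℝ) 1, |g1 (x, y)| ≤ p)
  (ba : ∀ x ∈ Icc (-1 : ℝ) 1, ∀ y ∈ Icc (-1 : ℝ) 1, |a (x, y)| ≤ p)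
  (bb : ∀ x ∈ Icc (-1 : ℝ) 1, ∀ y ∈ Icc (-1 : ℝ) 1, |b (x, y)| ≤ p)
  (bg2 : ∀ x ∈ Icc (-1 : ℝ) 1, ∀ y ∈ Icc (-1 : ℝ) 1, |g2 (x, y)| ≤ p)
  (hz : ∫ s in (-1 : ℝ)..1, (1 - s ^ 2) * a (0, s) = 0)

include hb hg2 hn dg2 db' in
/-- The first error term. -/
theorem nul_e {y : ℝ} (hy : y ∈ Icc (-1 : ℝ) 1) :
    |(∫ x in (-1 : ℝ)..1, (1 - x ^ 2) * b (x, y)) - ∫ x in (-1 : ℝ)..1, (1 - x ^ 2) * b (x, 0)| ≤
      2 * ∫ x in (-1 : ℝ)..1, ∫ y in (-1 : ℝ)..1, |g2 (x, y)| := by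
  have h1 : (∫ x in (-1 : ℝ)..1, (1 - x ^ 2) * b (x, y)) -
      ∫ x in (-1 : ℝ)..1, (1 - x ^ 2) * b (x, 0) =
      ∫ x in (-1 : ℝ)..1, ∫ t in (0:ℝ)..y, (1 - x ^ 2) * n (x, t) := by
    rw [← intervalIntegral.integral_sub]
    · refine intervalIntegral.integral_congr fun x hx => ?_
      rw [uIcc_of_le (by norm_num)] at hx
      simp only [intervalIntegral.integral_const_mul]
      rw [← db' x hx y hy]
      ring
    · exact Continuous.intervalIntegrable (by fun_prop) _ _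
    · exact Continuous.intervalIntegrable (by fun_prop) _ _
  rw [h1, nul_swap (f := fun q => (1 - q.1 ^ 2) * n (q.1, q.2)) (by fun_prop)]
  have h2 : ∀ t ∈ Icc (-1 : ℝ) 1, |∫ x in (-1 : ℝ)..1, (1 - x ^ 2) * n (x, t)| ≤
      ∫ x in (-1 : ℝ)..1, 2 * |g2 (x, t)| := by
    intro t ht
    rw [nul_ibp (u := fun x => 1 - x ^ 2) (u' := fun x => -(2 * x)) (v := fun x => g2 (x, t))
      (v' := fun x => n (x, t)) (by fun_prop) (by fun_prop) (fun x _ => nul_b x) (dg2 t ht)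
      (by fun_prop) (by fun_prop) (by norm_num) (by norm_num), abs_neg]
    refine nul_full (by fun_prop) fun x hx => ?_
    rw [abs_mul, abs_neg, abs_mul, abs_two]
    have : |x| ≤ 1 := abs_le.2 ⟨hx.1, hx.2⟩
    calc 2 * |x| * |g2 (x, t)| ≤ 2 * 1 * |g2 (x, t)| := by gcongr
      _ = _ := by ring
  have h3 := nul_sub (h := fun t => ∫ x in (-1 : ℝ)..1, (1 - x ^ 2) * n (x, t))
    (H := fun t => ∫ x in (-1 : ℝ)..1, 2 * |g2 (x, t)|) (by fun_prop) (by fun_prop) h2 hy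
  refine h3.trans (le_of_eq ?_)
  rw [nul_swap (f := fun q => |g2 (q.1, q.2)|) (by fun_prop), ← intervalIntegral.integral_const_mul]
  simp only [intervalIntegral.integral_const_mul]

include ha hb hg2 hn dg2 db' ba hz in
theorem nul_T1 :
    |∫ x in (-1 : ℝ)..1, ∫ y in (-1 : ℝ)..1, (1 - x ^ 2) * (1 - y ^ 2) * (a (0, y) * b (x, y))| ≤
      4 * p * ∫ x in (-1 : ℝ)..1, ∫ y in (-1 : ℝ)..1, |g2 (x, y)| := by
  set γ := ∫ x in (-1 : ℝ)..1, ∫ y in (-1 : ℝ)..1, |g2 (x, y)| with hγ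
  set c0 := ∫ x in (-1 : ℝ)..1, (1 - x ^ 2) * b (x, 0) with hc0
  have h1 : ∫ x in (-1 : ℝ)..1, ∫ y in (-1 : ℝ)..1, (1 - x ^ 2) * (1 - y ^ 2) * (a (0, y) * b (x, y)) =
      ∫ y in (-1 : ℝ)..1, (1 - y ^ 2) * a (0, y) *
        ((∫ x in (-1 : ℝ)..1, (1 - x ^ 2) * b (x, y)) - c0) := by
    have h2 : ∫ y in (-1 : ℝ)..1, (1 - y ^ 2) * a (0, y) *
        ((∫ x in (-1 : ℝ)..1, (1 - x ^ 2) * b (x, y)) - c0) =
        (∫ y in (-1 : ℝ)..1, (1 - y ^ 2) * a (0, y) *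
        (∫ x in (-1 : ℝ)..1, (1 - x ^ 2) * b (x, y))) -
        ∫ y in (-1 : ℝ)..1, ((1 - y ^ 2) * a (0, y)) * c0 := by
      rw [← intervalIntegral.integral_sub]
      · refine intervalIntegral.integral_congr fun x _ => ?_
        ring
      · exact Continuous.intervalIntegrable (by fun_prop) _ _
      · exact Continuous.intervalIntegrable (by fun_prop) _ _
    rw [h2, intervalIntegral.integral_mul_const, hz, zero_mul, sub_zero,
      nul_swap (f := fun q => (1 - q.1 ^ 2) * (1 - q.2 ^ 2) * (a (0, q.2) * b (q.1, q.2)))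
        (by fun_prop)]
    refine intervalIntegral.integral_congr fun y _ => ?_
    simp only
    rw [← intervalIntegral.integral_const_mul]
    refine intervalIntegral.integral_congr fun x _ => ?_
    ring
  rw [h1]
  have h3 := nul_full (h := fun y => (1 - y ^ 2) * a (0, y) *
        ((∫ x in (-1 : ℝ)..1, (1 - x ^ 2) * b (x, y)) - c0)) (H := fun _ => 1 * p * (2 * γ))
        (by fun_prop) (by
      intro y hy
      have h4 := nul_e hb hg2 hn db' dg2 hy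
      have h5 := nul_b01 hy
      rw [abs_mul, abs_mul, abs_of_nonneg h5.1]
      have h6 := ba 0 ⟨by norm_num, by norm_num⟩ y hy
      have h7 : 0 ≤ p := (abs_nonneg _).trans h6
      have h8 : (1 - y ^ 2) * |a (0, y)| ≤ 1 * p := mul_le_mul h5.2 h6 (abs_nonneg _) zero_le_one
      exact mul_le_mul h8 h4 (abs_nonneg _) (by positivity))
  refine h3.trans (le_of_eq ?_)
  rw [intervalIntegral.integral_const]
  simp only [smul_eq_mul]
  ring

include hg1 hn dg2 hg2 hp bg1 bg2 in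
/-- The innermost term: integration by parts in `x`. -/
theorem nul_S {y : ℝ} (hy : y ∈ Icc (-1 : ℝ) 1) :
    |∫ x in (-1 : ℝ)..1, ((1 - x ^ 2) * ∫ s in (0 : ℝ)..x, g1 (s, y)) * n (x, y)| ≤
      ∫ x in (-1 : ℝ)..1, (2 * p * |g2 (x, y)| + p * |g1 (x, y)|) := by
  have hR : ∀ x : ℝ, HasDerivAt (fun x => ∫ s in (0 : ℝ)..x, g1 (s, y)) (g1 (x, y)) x := by
    intro x
    have hc : Continuous fun s => g1 (s, y) := by fun_prop
    exact (hc.integral_hasStrictDerivAt 0 x).hasDerivAt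
  have hRc : Continuous fun x => ∫ s in (0 : ℝ)..x, g1 (s, y) :=
    continuous_iff_continuousAt.2 fun x => (hR x).continuousAt
  rw [nul_ibp (u := fun x => (1 - x ^ 2) * ∫ s in (0 : ℝ)..x, g1 (s, y))
    (u' := fun x => -(2 * x) * (∫ s in (0 : ℝ)..x, g1 (s, y)) + (1 - x ^ 2) * g1 (x, y))
    (v := fun x => g2 (x, y)) (v' := fun x => n (x, y)) (by fun_prop) (by fun_prop)
    (fun x _ => (nul_b x).mul (hR x)) (dg2 y hy) (by fun_prop) (by fun_prop) (by norm_num)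
    (by norm_num), abs_neg]
  refine nul_full (by fun_prop) fun x hx => ?_
  have h1 : |∫ s in (0 : ℝ)..x, g1 (s, y)| ≤ p := by
    have h2 := intervalIntegral.norm_integral_le_of_norm_le_const (a := 0) (b := x) (C := p)
      (f := fun s => g1 (s, y)) (by
        intro s hs
        refine bg1 s ?_ y hy
        rcases le_total 0 x with h0 | h0
        · rw [uIoc_of_le h0] at hs
          exact ⟨by linarith [hs.1], hs.2.trans hx.2⟩
        · rw [uIoc_of_ge h0] at hs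
          exact ⟨hx.1.trans hs.1.le, hs.2.trans (by norm_num)⟩)
    rw [Real.norm_eq_abs, sub_zero] at h2
    have h3 : |x| ≤ 1 := abs_le.2 ⟨hx.1, hx.2⟩
    calc _ ≤ p * |x| := h2
      _ ≤ p * 1 := by gcongr
      _ = p := mul_one p
  have h4 := nul_b01 hx
  have h5 : |x| ≤ 1 := abs_le.2 ⟨hx.1, hx.2⟩
  have h6 := bg2 x hx y hy
  rw [add_mul]
  refine (abs_add_le _ _).trans (add_le_add ?_ ?_)
  · rw [abs_mul, abs_mul, abs_neg, abs_mul, abs_two]
    have : 2 * |x| * |∫ s in (0 : ℝ)..x, g1 (s, y)| ≤ 2 * 1 * p := by gcongr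
    calc _ ≤ 2 * 1 * p * |g2 (x, y)| := by gcongr
      _ = _ := by ring
  · rw [abs_mul, abs_mul, abs_of_nonneg h4.1]
    calc (1 - x ^ 2) * |g1 (x, y)| * |g2 (x, y)| ≤ 1 * |g1 (x, y)| * p := by
          gcongr
          exact h4.2
      _ = _ := by ring

include hg1 hb hg2 hm hn dg1 da db dg2 hp bg1 bb bg2 in
theorem nul_T2 :
    |∫ x in (-1 : ℝ)..1, ∫ y in (-1 : ℝ)..1,
      (1 - x ^ 2) * (1 - y ^ 2) * ((a (x, y) - a (0, y)) * b (x, y))| ≤
      5 * p * (∫ x in (-1 : ℝ)..1, ∫ y in (-1 : ℝ)..1, |g1 (x, y)|) +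
      2 * p * ∫ x in (-1 : ℝ)..1, ∫ y in (-1 : ℝ)..1, |g2 (x, y)| := by
  set γ₁ := ∫ x in (-1 : ℝ)..1, ∫ y in (-1 : ℝ)..1, |g1 (x, y)| with hγ₁
  set γ₂ := ∫ x in (-1 : ℝ)..1, ∫ y in (-1 : ℝ)..1, |g2 (x, y)| with hγ₂
  -- for fixed `x`
  have hx1 : ∀ x ∈ Icc (-1 : ℝ) 1, ∫ y in (-1 : ℝ)..1,
      (1 - x ^ 2) * (1 - y ^ 2) * ((a (x, y) - a (0, y)) * b (x, y)) =
      -((1 - x ^ 2) * ∫ s in (0 : ℝ)..x, ∫ y in (-1 : ℝ)..1, -(2 * y) * b (x, y) * g1 (s, y)) -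
      ∫ y in (-1 : ℝ)..1, (1 - y ^ 2) * (((1 - x ^ 2) * ∫ s in (0 : ℝ)..x, g1 (s, y)) * n (x, y)) := by
    intro x hx
    have e1 : ∫ y in (-1 : ℝ)..1,
        (1 - x ^ 2) * (1 - y ^ 2) * ((a (x, y) - a (0, y)) * b (x, y)) =
        (1 - x ^ 2) * ∫ y in (-1 : ℝ)..1, ∫ s in (0 : ℝ)..x, ((1 - y ^ 2) * b (x, y)) * m (s, y) := by
      rw [← intervalIntegral.integral_const_mul]
      refine intervalIntegral.integral_congr fun y hy => ?_
      rw [uIcc_of_le (by norm_num)] at hy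
      simp only [intervalIntegral.integral_const_mul]
      rw [da x hx y hy]
      ring
    have e2 : ∫ y in (-1 : ℝ)..1, ∫ s in (0 : ℝ)..x, ((1 - y ^ 2) * b (x, y)) * m (s, y) =
        ∫ s in (0 : ℝ)..x, ∫ y in (-1 : ℝ)..1, ((1 - y ^ 2) * b (x, y)) * m (s, y) :=
      nul_swap (f := fun q => ((1 - q.1 ^ 2) * b (x, q.1)) * m (q.2, q.1)) (by fun_prop) _ _ _ _
    have e3 : ∫ s in (0 : ℝ)..x, ∫ y in (-1 : ℝ)..1, ((1 - y ^ 2) * b (x, y)) * m (s, y) =
        ∫ s in (0 : ℝ)..x, (-(∫ y in (-1 : ℝ)..1, -(2 * y) * b (x, y) * g1 (s, y)) -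
          ∫ y in (-1 : ℝ)..1, (1 - y ^ 2) * n (x, y) * g1 (s, y)) := by
      refine intervalIntegral.integral_congr fun s hs => ?_
      have hs' : s ∈ Icc (-1 : ℝ) 1 := by
        rcases le_total 0 x with h0 | h0
        · rw [uIcc_of_le h0] at hs
          exact ⟨by linarith [hs.1], hs.2.trans hx.2⟩
        · rw [uIcc_of_ge h0] at hs
          exact ⟨hx.1.trans hs.1, hs.2.trans (by norm_num)⟩
      rw [nul_ibp (u := fun y => (1 - y ^ 2) * b (x, y))
        (u' := fun y => -(2 * y) * b (x, y) + (1 - y ^ 2) * n (x, y))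
        (v := fun y => g1 (s, y)) (v' := fun y => m (s, y)) (by fun_prop) (by fun_prop)
        (fun y hy => (nul_b y).mul (db x hx y hy)) (dg1 s hs') (by fun_prop) (by fun_prop)
        (by norm_num) (by norm_num)]
      rw [neg_sub_left, ← intervalIntegral.integral_add]
      · congr 1
        refine intervalIntegral.integral_congr fun y _ => ?_
        ring
      · exact Continuous.intervalIntegrable (by fun_prop) _ _
      · exact Continuous.intervalIntegrable (by fun_prop) _ _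
    have e4 : ∫ s in (0 : ℝ)..x, ∫ y in (-1 : ℝ)..1, (1 - y ^ 2) * n (x, y) * g1 (s, y) =
        ∫ y in (-1 : ℝ)..1, ∫ s in (0 : ℝ)..x, (1 - y ^ 2) * n (x, y) * g1 (s, y) :=
      nul_swap (f := fun q => (1 - q.2 ^ 2) * n (x, q.2) * g1 (q.1, q.2)) (by fun_prop) _ _ _ _
    rw [e1, e2, e3, intervalIntegral.integral_sub, intervalIntegral.integral_neg, e4, mul_sub,
      mul_neg]
    · congr 1
      rw [← intervalIntegral.integral_const_mul]
      refine intervalIntegral.integral_congr fun y _ => ?_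
      simp only [intervalIntegral.integral_const_mul]
      ring
    · exact Continuous.intervalIntegrable (by fun_prop) _ _
    · exact Continuous.intervalIntegrable (by fun_prop) _ _
  have e5 : ∫ x in (-1 : ℝ)..1, ∫ y in (-1 : ℝ)..1,
      (1 - x ^ 2) * (1 - y ^ 2) * ((a (x, y) - a (0, y)) * b (x, y)) =
      (∫ x in (-1 : ℝ)..1,
        -((1 - x ^ 2) * ∫ s in (0 : ℝ)..x, ∫ y in (-1 : ℝ)..1, -(2 * y) * b (x, y) * g1 (s, y))) -
      ∫ y in (-1 : ℝ)..1, (1 - y ^ 2) *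
        ∫ x in (-1 : ℝ)..1, ((1 - x ^ 2) * ∫ s in (0 : ℝ)..x, g1 (s, y)) * n (x, y) := by
    have e6 : ∫ y in (-1 : ℝ)..1, (1 - y ^ 2) *
        ∫ x in (-1 : ℝ)..1, ((1 - x ^ 2) * ∫ s in (0 : ℝ)..x, g1 (s, y)) * n (x, y) =
        ∫ x in (-1 : ℝ)..1, ∫ y in (-1 : ℝ)..1,
          (1 - y ^ 2) * (((1 - x ^ 2) * ∫ s in (0 : ℝ)..x, g1 (s, y)) * n (x, y)) := by
      rw [nul_swap (f := fun q => (1 - q.2 ^ 2) *
        (((1 - q.1 ^ 2) * ∫ s in (0 : ℝ)..q.1, g1 (s, q.2)) * n (q.1, q.2))) (by fun_prop)]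
      refine intervalIntegral.integral_congr fun y _ => ?_
      simp only
      rw [← intervalIntegral.integral_const_mul]
    rw [e6, ← intervalIntegral.integral_sub]
    · refine intervalIntegral.integral_congr fun x hx => ?_
      rw [uIcc_of_le (by norm_num)] at hx
      exact hx1 x hx
    · exact Continuous.intervalIntegrable (by fun_prop) _ _
    · exact Continuous.intervalIntegrable (by fun_prop) _ _
  have b1 : |∫ x in (-1 : ℝ)..1,
      -((1 - x ^ 2) * ∫ s in (0 : ℝ)..x, ∫ y in (-1 : ℝ)..1, -(2 * y) * b (x, y) * g1 (s, y))| ≤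
      4 * p * γ₁ := by
    refine (nul_full (H := fun _ => 2 * p * γ₁) (by fun_prop) fun x hx => ?_).trans (le_of_eq ?_)
    · have h4 := nul_b01 hx
      have h1 := nul_sub (h := fun s => ∫ y in (-1 : ℝ)..1, -(2 * y) * b (x, y) * g1 (s, y))
        (H := fun s => ∫ y in (-1 : ℝ)..1, 2 * p * |g1 (s, y)|) (by fun_prop) (by fun_prop) (by
          intro s _
          refine nul_full (by fun_prop) fun y hy => ?_
          have h5 : |y| ≤ 1 := abs_le.2 ⟨hy.1, hy.2⟩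
          have h6 := bb x hx y hy
          rw [abs_mul, abs_mul, abs_neg, abs_mul, abs_two]
          have h7 : 2 * |y| * |b (x, y)| ≤ 2 * 1 * p := by gcongr
          calc _ ≤ 2 * 1 * p * |g1 (s, y)| := by gcongr
            _ = _ := by ring) hx
      have h8 : ∫ s in (-1 : ℝ)..1, ∫ y in (-1 : ℝ)..1, 2 * p * |g1 (s, y)| = 2 * p * γ₁ := by
        simp only [intervalIntegral.integral_const_mul, hγ₁]
      rw [h8] at h1
      rw [abs_neg, abs_mul, abs_of_nonneg h4.1]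
      calc _ ≤ 1 * (2 * p * γ₁) := mul_le_mul h4.2 h1 (abs_nonneg _) zero_le_one
        _ = _ := one_mul _
    · rw [intervalIntegral.integral_const]
      simp only [smul_eq_mul]
      ring
  have b2 : |∫ y in (-1 : ℝ)..1, (1 - y ^ 2) *
      ∫ x in (-1 : ℝ)..1, ((1 - x ^ 2) * ∫ s in (0 : ℝ)..x, g1 (s, y)) * n (x, y)| ≤
      2 * p * γ₂ + p * γ₁ := by
    refine (nul_full (H := fun y => ∫ x in (-1 : ℝ)..1, (2 * p * |g2 (x, y)| + p * |g1 (x, y)|))
      (by fun_prop) fun y hy => ?_).trans (le_of_eq ?_)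
    · have h4 := nul_b01 hy
      have h1 := nul_S hg1 hg2 hn dg2 hp bg1 bg2 hy
      rw [abs_mul, abs_of_nonneg h4.1]
      calc _ ≤ 1 * (∫ x in (-1 : ℝ)..1, (2 * p * |g2 (x, y)| + p * |g1 (x, y)|)) :=
            mul_le_mul h4.2 h1 (abs_nonneg _) zero_le_one
        _ = _ := one_mul _
    · rw [← nul_swap (f := fun q => 2 * p * |g2 (q.1, q.2)| + p * |g1 (q.1, q.2)|) (by fun_prop)]
      have h5 : ∀ x : ℝ, ∫ y in (-1 : ℝ)..1, (2 * p * |g2 (x, y)| + p * |g1 (x, y)|) =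
          2 * p * (∫ y in (-1 : ℝ)..1, |g2 (x, y)|) + p * ∫ y in (-1 : ℝ)..1, |g1 (x, y)| := by
        intro x
        rw [intervalIntegral.integral_add, intervalIntegral.integral_const_mul,
          intervalIntegral.integral_const_mul]
        · exact Continuous.intervalIntegrable (by fun_prop) _ _
        · exact Continuous.intervalIntegrable (by fun_prop) _ _
      simp only [h5]
      rw [intervalIntegral.integral_add, intervalIntegral.integral_const_mul,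
          intervalIntegral.integral_const_mul]
      · exact Continuous.intervalIntegrable (by fun_prop) _ _
      · exact Continuous.intervalIntegrable (by fun_prop) _ _
  rw [e5]
  refine (abs_sub _ _).trans ?_
  linarith

include hg1 ha hb hg2 hm hn dg1 da db db' dg2 hp bg1 ba bb bg2 hz in
theorem nul_core :
    |∫ x in (-1 : ℝ)..1, ∫ y in (-1 : ℝ)..1, (1 - x ^ 2) * (1 - y ^ 2) * (a (x, y) * b (x, y))| ≤
      6 * p * ((∫ x in (-1 : ℝ)..1, ∫ y in (-1 : ℝ)..1, |g1 (x, y)|) +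
        ∫ x in (-1 : ℝ)..1, ∫ y in (-1 : ℝ)..1, |g2 (x, y)|) := by
  have h1 := nul_T1 ha hb hg2 hn db' dg2 ba hz
  have h2 := nul_T2 hg1 hb hg2 hm hn dg1 da db dg2 hp bg1 bb bg2
  have h3 : ∫ x in (-1 : ℝ)..1, ∫ y in (-1 : ℝ)..1, (1 - x ^ 2) * (1 - y ^ 2) * (a (x, y) * b (x, y)) =
      (∫ x in (-1 : ℝ)..1, ∫ y in (-1 : ℝ)..1, (1 - x ^ 2) * (1 - y ^ 2) * (a (0, y) * b (x, y))) +
      ∫ x in (-1 : ℝ)..1, ∫ y in (-1 : ℝ)..1,
        (1 - x ^ 2) * (1 - y ^ 2) * ((a (x, y) - a (0, y)) * b (x, y)) := by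
    rw [← intervalIntegral.integral_add]
    · refine intervalIntegral.integral_congr fun x _ => ?_
      rw [← intervalIntegral.integral_add]
      · refine intervalIntegral.integral_congr fun y _ => ?_
        ring
      · exact Continuous.intervalIntegrable (by fun_prop) _ _
      · exact Continuous.intervalIntegrable (by fun_prop) _ _
    · exact Continuous.intervalIntegrable (by fun_prop) _ _
    · exact Continuous.intervalIntegrable (by fun_prop) _ _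
  have h4 : 0 ≤ ∫ x in (-1 : ℝ)..1, ∫ y in (-1 : ℝ)..1, |g1 (x, y)| := by
    refine intervalIntegral.integral_nonneg (by norm_num) fun x _ => ?_
    exact intervalIntegral.integral_nonneg (by norm_num) fun y _ => abs_nonneg _
  rw [h3]
  refine (abs_add_le _ _).trans ?_
  have h5 : 0 ≤ p * ∫ x in (-1 : ℝ)..1, ∫ y in (-1 : ℝ)..1, |g1 (x, y)| := mul_nonneg hp h4
  linarith

end

/-- Integration over the square. -/
theorem nul_ball {f : V → ℝ} (hf : ContinuousOn f (closedBall (0 : V) 1)) :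
    ∫ y in closedBall (0 : V) 1, f y = ∫ x in (-1 : ℝ)..1, ∫ y in (-1 : ℝ)..1, f (x, y) := by
  have h1 : closedBall (0 : V) 1 = Icc (-1 : ℝ) 1 ×ˢ Icc (-1 : ℝ) 1 := by
    have h2 : (0 : V) = ((0 : ℝ), (0 : ℝ)) := rfl
    rw [h2, ← closedBall_prod_same, Real.closedBall_eq_Icc]
    norm_num
  rw [h1] at hf ⊢
  have hc : IsCompact (Icc (-1 : ℝ) 1 ×ˢ Icc (-1 : ℝ) 1) := isCompact_Icc.prod isCompact_Icc
  rw [Measure.volume_eq_prod, setIntegral_prod _ (hf.integrableOn_compact hc),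
    intervalIntegral.integral_of_le (by norm_num), integral_Icc_eq_integral_Ioc]
  refine setIntegral_congr_fun measurableSet_Ioc fun x _ => ?_
  rw [intervalIntegral.integral_of_le (by norm_num), integral_Icc_eq_integral_Ioc]

theorem nul_hd {U : Set V} (hU : IsOpen U) {f : V → ℝ} (hf : ContDiffOn ℝ 1 f U) {γ : ℝ → V}
    {v : V} {t : ℝ} (hγ : HasDerivAt γ v t) (ht : γ t ∈ U) :
    HasDerivAt (fun t => f (γ t)) (fderiv ℝ f (γ t) v) t := by
  have h1 : DifferentiableAt ℝ f (γ t) :=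
    (hf.differentiableOn one_ne_zero).differentiableAt (hU.mem_nhds ht)
  exact h1.hasFDerivAt.comp_hasDerivAt t hγ

/-- clamping to `[-1,1]` -/
noncomputable def nulC (t : ℝ) : ℝ := max (-1) (min 1 t)

theorem nulC_cont : Continuous nulC := by unfold nulC; fun_prop

theorem nulC_mem (t : ℝ) : nulC t ∈ Icc (-1 : ℝ) 1 :=
  ⟨le_max_left _ _, max_le (by norm_num) (min_le_left _ _)⟩

theorem nulC_eq {t : ℝ} (ht : t ∈ Icc (-1 : ℝ) 1) : nulC t = t := by
  unfold nulC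
  rw [min_eq_right ht.2, max_eq_right ht.1]

theorem nul_mem {x y : ℝ} (hx : x ∈ Icc (-1 : ℝ) 1) (hy : y ∈ Icc (-1 : ℝ) 1) :
    ((x, y) : V) ∈ closedBall (0 : V) 1 := by
  rw [mem_closedBall_zero_iff, Prod.norm_mk, Real.norm_eq_abs, Real.norm_eq_abs]
  exact max_le (abs_le.2 ⟨hx.1, hx.2⟩) (abs_le.2 ⟨hy.1, hy.2⟩)

theorem nulC_contF {U : Set V} (hQ : closedBall (0 : V) 1 ⊆ U) {f : V → ℝ}
    (hf : ContinuousOn f U) : Continuous fun q : ℝ × ℝ => f (nulC q.1, nulC q.2) := by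
  have h1 : Continuous fun q : ℝ × ℝ => ((nulC q.1, nulC q.2) : V) :=
    (nulC_cont.comp continuous_fst).prodMk (nulC_cont.comp continuous_snd)
  exact hf.comp_continuous h1 fun q => hQ (nul_mem (nulC_mem _) (nulC_mem _))

theorem nulC_ev {t : ℝ} (ht : t ∈ Ioo (-1 : ℝ) 1) : ∀ᶠ s in nhds t, nulC s = s :=
  Filter.eventually_of_mem (Ioo_mem_nhds ht.1 ht.2) fun _ hs => nulC_eq ⟨hs.1.le, hs.2.le⟩

theorem null_bound {U : Set V} (hU : IsOpen U) (hQ : closedBall (0 : V) 1 ⊆ U)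
    {G1 A2 B1 G2 : V → ℝ} (hG1 : ContDiffOn ℝ 1 G1 U) (hA2 : ContDiffOn ℝ 1 A2 U)
    (hB1 : ContDiffOn ℝ 1 B1 U) (hG2 : ContDiffOn ℝ 1 G2 U)
    (h1 : ∀ y ∈ U, fderiv ℝ G1 y (0, 1) = fderiv ℝ A2 y (1, 0))
    (h2 : ∀ y ∈ U, fderiv ℝ G2 y (1, 0) = fderiv ℝ B1 y (0, 1))
    {p : ℝ} (hp : 0 ≤ p) (bG1 : ∀ y ∈ closedBall (0 : V) 1, |G1 y| ≤ p)
    (bA2 : ∀ y ∈ closedBall (0 : V) 1, |A2 y| ≤ p) (bB1 : ∀ y ∈ closedBall (0 : V) 1, |B1 y| ≤ p)
    (bG2 : ∀ y ∈ closedBall (0 : V) 1, |G2 y| ≤ p)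
    (hz : ∫ s in (-1 : ℝ)..1, (1 - s ^ 2) * A2 (0, s) = 0) :
    |∫ y in closedBall (0 : V) 1, (1 - y.1 ^ 2) * (1 - y.2 ^ 2) * (A2 y * B1 y)| ≤
      6 * p * ((∫ y in closedBall (0 : V) 1, |G1 y|) + ∫ y in closedBall (0 : V) 1, |G2 y|) := by
  have cG1 : ContinuousOn G1 (closedBall (0 : V) 1) := hG1.continuousOn.mono hQ
  have cA2 : ContinuousOn A2 (closedBall (0 : V) 1) := hA2.continuousOn.mono hQ
  have cB1 : ContinuousOn B1 (closedBall (0 : V) 1) := hB1.continuousOn.mono hQ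
  have cG2 : ContinuousOn G2 (closedBall (0 : V) 1) := hG2.continuousOn.mono hQ
  rw [nul_ball (f := fun y => (1 - y.1 ^ 2) * (1 - y.2 ^ 2) * (A2 y * B1 y)) (by fun_prop),
    nul_ball (f := fun y => |G1 y|) cG1.abs, nul_ball (f := fun y => |G2 y|) cG2.abs]
  have hdA2 : ContinuousOn (fun y => fderiv ℝ A2 y (1, 0)) U :=
    (hA2.continuousOn_fderiv_of_isOpen hU le_rfl).clm_apply continuousOn_const
  have hdB1 : ContinuousOn (fun y => fderiv ℝ B1 y (0, 1)) U :=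
    (hB1.continuousOn_fderiv_of_isOpen hU le_rfl).clm_apply continuousOn_const
  have hmemU : ∀ {x y : ℝ}, x ∈ Icc (-1 : ℝ) 1 → y ∈ Icc (-1 : ℝ) 1 → ((x, y) : V) ∈ U :=
    fun hx hy => hQ (nul_mem hx hy)
  have z0 : (0 : ℝ) ∈ Icc (-1 : ℝ) 1 := ⟨by norm_num, by norm_num⟩
  have dy : ∀ s y : ℝ, HasDerivAt (fun y : ℝ => ((s, y) : V)) (0, 1) y := fun s y =>
    (hasDerivAt_const y s).prodMk (hasDerivAt_id y)
  have dx : ∀ y x : ℝ, HasDerivAt (fun x : ℝ => ((x, y) : V)) (1, 0) x := fun y x =>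
    (hasDerivAt_id x).prodMk (hasDerivAt_const x y)
  have huI : ∀ {x t : ℝ}, x ∈ Icc (-1 : ℝ) 1 → t ∈ uIcc 0 x → t ∈ Icc (-1 : ℝ) 1 := by
    intro x t hx ht
    rcases le_total 0 x with h0 | h0
    · rw [uIcc_of_le h0] at ht
      exact ⟨by linarith [ht.1], ht.2.trans hx.2⟩
    · rw [uIcc_of_ge h0] at ht
      exact ⟨hx.1.trans ht.1, ht.2.trans (by norm_num)⟩
  have key := nul_core (g1 := fun q => G1 (nulC q.1, nulC q.2))
    (a := fun q => A2 (nulC q.1, nulC q.2)) (b := fun q => B1 (nulC q.1, nulC q.2))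
    (g2 := fun q => G2 (nulC q.1, nulC q.2))
    (m := fun q => fderiv ℝ A2 (nulC q.1, nulC q.2) (1, 0))
    (n := fun q => fderiv ℝ B1 (nulC q.1, nulC q.2) (0, 1))
    (nulC_contF hQ hG1.continuousOn) (nulC_contF hQ hA2.continuousOn)
    (nulC_contF hQ hB1.continuousOn) (nulC_contF hQ hG2.continuousOn)
    (nulC_contF hQ hdA2) (nulC_contF hQ hdB1)
    (by
      intro s hs y hy
      have hy' : y ∈ Icc (-1 : ℝ) 1 := ⟨hy.1.le, hy.2.le⟩
      have h3 := nul_hd hU hG1 (dy s y) (hmemU hs hy')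
      rw [h1 _ (hmemU hs hy')] at h3
      simp only [nulC_eq hs, nulC_eq hy']
      refine h3.congr_of_eventuallyEq ?_
      filter_upwards [nulC_ev hy] with z hz'
      rw [hz'])
    (by
      intro x hx y hy
      simp only [nulC_eq hx, nulC_eq hy, nulC_eq z0]
      have h3 := intervalIntegral.integral_eq_sub_of_hasDerivAt (a := 0) (b := x)
        (f := fun s => A2 (s, y)) (f' := fun s => fderiv ℝ A2 (nulC s, y) (1, 0)) (by
          intro t ht
          have ht' := huI hx ht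
          rw [nulC_eq ht']
          exact nul_hd hU hA2 (dx y t) (hmemU ht' hy)) (by
          have h4 : Continuous fun s => fderiv ℝ A2 (nulC s, nulC y) (1, 0) :=
            (nulC_contF hQ hdA2).comp (continuous_id.prodMk continuous_const)
          rw [nulC_eq hy] at h4
          exact h4.intervalIntegrable _ _)
      exact h3.symm)
    (by
      intro s hs y hy
      have hy' : y ∈ Icc (-1 : ℝ) 1 := ⟨hy.1.le, hy.2.le⟩
      have h3 := nul_hd hU hB1 (dy s y) (hmemU hs hy')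
      simp only [nulC_eq hs, nulC_eq hy']
      refine h3.congr_of_eventuallyEq ?_
      filter_upwards [nulC_ev hy] with z hz'
      rw [hz'])
    (by
      intro x hx y hy
      simp only [nulC_eq hx, nulC_eq hy, nulC_eq z0]
      have h3 := intervalIntegral.integral_eq_sub_of_hasDerivAt (a := 0) (b := y)
        (f := fun s => B1 (x, s)) (f' := fun s => fderiv ℝ B1 (x, nulC s) (0, 1)) (by
          intro t ht
          have ht' := huI hy ht
          rw [nulC_eq ht']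
          exact nul_hd hU hB1 (dy x t) (hmemU hx ht')) (by
          have h4 : Continuous fun s => fderiv ℝ B1 (nulC x, nulC s) (0, 1) :=
            (nulC_contF hQ hdB1).comp (continuous_const.prodMk continuous_id)
          rw [nulC_eq hx] at h4
          exact h4.intervalIntegrable _ _)
      exact h3.symm)
    (by
      intro y hy x hx
      have hx' : x ∈ Icc (-1 : ℝ) 1 := ⟨hx.1.le, hx.2.le⟩
      have h3 := nul_hd hU hG2 (dx y x) (hmemU hx' hy)
      rw [h2 _ (hmemU hx' hy)] at h3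
      simp only [nulC_eq hy, nulC_eq hx']
      refine h3.congr_of_eventuallyEq ?_
      filter_upwards [nulC_ev hx] with z hz'
      rw [hz'])
    hp (fun x _ y _ => bG1 _ (nul_mem (nulC_mem _) (nulC_mem _)))
    (fun x _ y _ => bA2 _ (nul_mem (nulC_mem _) (nulC_mem _)))
    (fun x _ y _ => bB1 _ (nul_mem (nulC_mem _) (nulC_mem _)))
    (fun x _ y _ => bG2 _ (nul_mem (nulC_mem _) (nulC_mem _)))
    (by
      refine (intervalIntegral.integral_congr fun s hs => ?_).trans hz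
      rw [uIcc_of_le (by norm_num)] at hs
      simp only [nulC_eq hs, nulC_eq z0])
  have hcongr : ∀ f : V → ℝ, ∫ x in (-1 : ℝ)..1, ∫ y in (-1 : ℝ)..1, f (nulC x, nulC y) =
      ∫ x in (-1 : ℝ)..1, ∫ y in (-1 : ℝ)..1, f (x, y) := by
    intro f
    refine intervalIntegral.integral_congr fun x hx => ?_
    rw [uIcc_of_le (by norm_num)] at hx
    refine intervalIntegral.integral_congr fun y hy => ?_
    rw [uIcc_of_le (by norm_num)] at hy
    simp only [nulC_eq hx, nulC_eq hy]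
  have hcongr2 : ∫ x in (-1 : ℝ)..1, ∫ y in (-1 : ℝ)..1,
      (1 - x ^ 2) * (1 - y ^ 2) * (A2 (nulC x, nulC y) * B1 (nulC x, nulC y)) =
      ∫ x in (-1 : ℝ)..1, ∫ y in (-1 : ℝ)..1, (1 - x ^ 2) * (1 - y ^ 2) * (A2 (x, y) * B1 (x, y)) := by
    refine intervalIntegral.integral_congr fun x hx => ?_
    rw [uIcc_of_le (by norm_num)] at hx
    refine intervalIntegral.integral_congr fun y hy => ?_
    rw [uIcc_of_le (by norm_num)] at hy
    simp only [nulC_eq hx, nulC_eq hy]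
  have e1 := hcongr fun y => |G1 y|
  have e2 := hcongr fun y => |G2 y|
  simp only at e1 e2 key ⊢
  rw [hcongr2, e1, e2] at key
  exact key

end Pool.Agent.L1de93c
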