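import Pool.Agent.Lib_MP_1de93e_cont.De4
import Pool.Agent.Lib_MP_1de93e_cont.Pla

/-!
# PIECE OBL: linear decay of the oscillation

## OBL `ob_linear`. With `l` from `decay_slope` and `A = Pull (Res F x r) l`: on `closedBall 0 (1/2)`,
`Res F x r = Pull A (-l)` (`pull_pull`, `pull_zero`), so `plain` (bounds on `A` from bounds of `F` near
`x₀`) gives `OB (Res F x r) 0 (1/2) (K (C r^{3/2} + ‖l‖)) ≤ C' r`, i.e. `OB F x (r/2) (C' r)`.
-/

namespace Pool.Agent.L1de93c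

open MeasureTheory Metric Set

theorem OBL_mono {F : V → V → ℝ} {x : V} {r Θ Θ' : ℝ} (h : OB F x r Θ) (hΘ : Θ ≤ Θ') :
    OB F x r Θ' := ⟨fun u hu => (h.1 u hu).trans hΘ, h.2.trans hΘ⟩

/-- Elementary bounds for the projective maps with a small gauge. -/
theorem OBL_bounds {l : V} (hl : ‖l‖ ≤ 1 / 100) {y : V} (hy : ‖y‖ ≤ 1) :
    dot l y < 1 ∧ ‖pj l y‖ ≤ 11 / 10 ∧
      ∀ v, (1 / 2) * ‖v‖ ≤ ‖dpj l y v‖ ∧ ‖dpj l y v‖ ≤ 2 * ‖v‖ := by
  have h1 : |dot l y| ≤ 1 / 50 := by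
    have := abs_dot_le l y
    nlinarith [norm_nonneg l, norm_nonneg y]
  have h2 := abs_le.1 h1
  have h3 : 49 / 50 ≤ 1 - dot l y := by linarith
  have h3' : 1 - dot l y ≤ 51 / 50 := by linarith
  have h4 : 0 < 1 - dot l y := by linarith
  have h5 : (1 - dot l y)⁻¹ ≤ 50 / 49 := by
    rw [inv_le_comm₀ h4 (by norm_num)]
    norm_num
    linarith
  have h6 : 50 / 51 ≤ (1 - dot l y)⁻¹ := by
    rw [le_inv_comm₀ (by norm_num) h4]
    norm_num
    linarith
  have h7 : 0 < (1 - dot l y)⁻¹ := inv_pos.2 h4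
  refine ⟨by linarith, ?_, fun v => ?_⟩
  · rw [pj, norm_smul, Real.norm_of_nonneg h7.le]
    nlinarith [norm_nonneg y]
  · have h8 : ‖((1 - dot l y)⁻¹ ^ 2 * dot l v) • y‖ ≤ 1 / 20 * ‖v‖ := by
      rw [norm_smul, Real.norm_eq_abs, abs_mul, abs_of_pos (pow_pos h7 2)]
      have h9 := abs_dot_le l v
      have h10 : |dot l v| ≤ 1 / 50 * ‖v‖ := by nlinarith [norm_nonneg l, norm_nonneg v]
      have h11 : (1 - dot l y)⁻¹ ^ 2 ≤ (50 / 49) ^ 2 := pow_le_pow_left₀ h7.le h5 2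
      have h12 : (1 - dot l y)⁻¹ ^ 2 * |dot l v| ≤ (50 / 49) ^ 2 * (1 / 50 * ‖v‖) :=
        mul_le_mul h11 h10 (abs_nonneg _) (by norm_num)
      have h13 : (1 - dot l y)⁻¹ ^ 2 * |dot l v| * ‖y‖ ≤ (50 / 49) ^ 2 * (1 / 50 * ‖v‖) * 1 :=
        mul_le_mul h12 hy (norm_nonneg _) (by positivity)
      nlinarith [norm_nonneg v]
    have h9 : ‖(1 - dot l y)⁻¹ • v‖ = (1 - dot l y)⁻¹ * ‖v‖ := by
      rw [norm_smul, Real.norm_of_nonneg h7.le]
    rw [dpj_apply]
    constructor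
    · have h10 := norm_sub_le ((1 - dot l y)⁻¹ • v + ((1 - dot l y)⁻¹ ^ 2 * dot l v) • y)
        (((1 - dot l y)⁻¹ ^ 2 * dot l v) • y)
      rw [add_sub_cancel_right, h9] at h10
      nlinarith [norm_nonneg v]
    · refine (norm_add_le _ _).trans ?_
      rw [h9]
      nlinarith [norm_nonneg v]

/-- OBL -/
theorem ob_linear {U : Set V} {F : V → V → ℝ} (h : RP U F) {x₀ : V} (hx₀ : x₀ ∈ U)
    (h₀ : Nice (F x₀)) :
    ∃ C > 0, ∃ r₀ > 0, closedBall x₀ (2 * r₀) ⊆ U ∧ ∀ x ∈ closedBall x₀ r₀, ∀ r, 0 < r → r ≤ r₀ →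
      OB F x r (C * r) := by
  obtain ⟨C, hC, r₀, hr₀, hsub, hds⟩ := decay_slope h hx₀ h₀
  obtain ⟨c₁, hc₁, C₁, hC₁, hb⟩ := h.toHP.bounds (isCompact_closedBall x₀ (2 * r₀)) hsub
  obtain ⟨K, hK, hplain⟩ := plain (c := c₁ / 2) (C := 2 * C₁) (by positivity) (by positivity)
  have hr₁ : 0 < min (r₀ / 4) (1 / 2) := lt_min (by positivity) (by norm_num)
  refine ⟨K * (4 * C), by positivity, min (r₀ / 4) (1 / 2), hr₁, ?_, ?_⟩
  · refine (closedBall_subset_closedBall ?_).trans hsub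
    have := min_le_left (r₀ / 4) (1 / 2)
    linarith
  intro x hx r hr hrr
  have hra : r ≤ r₀ / 4 := hrr.trans (min_le_left _ _)
  have hrb : r ≤ 1 / 2 := hrr.trans (min_le_right _ _)
  have hx' : dist x x₀ ≤ r₀ / 4 := (mem_closedBall.1 hx).trans (min_le_left _ _)
  obtain ⟨l, hl, hlC, hOB⟩ := hds x (mem_closedBall.2 (by linarith)) (2 * r) (by linarith)
    (by linarith)
  have h2r : (0 : ℝ) < 2 * r := by linarith
  have hmem : ∀ y : V, ‖y‖ ≤ 1 → x + (2 * r) • pj l y ∈ closedBall x₀ (2 * r₀) := by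
    intro y hy
    obtain ⟨-, h2, -⟩ := OBL_bounds hl hy
    rw [mem_closedBall]
    have h3 : dist (x + (2 * r) • pj l y) x ≤ 2 * r * (11 / 10) := by
      rw [dist_eq_norm, add_sub_cancel_left, norm_smul, Real.norm_of_nonneg h2r.le]
      exact mul_le_mul_of_nonneg_left h2 h2r.le
    have h4 := dist_triangle (x + (2 * r) • pj l y) x x₀
    linarith
  have hA := (h.toHP.res x h2r).pull l
  have hAsub : closedBall (0 : V) 1 ⊆
      {y | dot l y < 1 ∧ pj l y ∈ {y | x + (2 * r) • y ∈ U}} := by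
    intro y hy
    rw [mem_closedBall_zero_iff] at hy
    exact ⟨(OBL_bounds hl hy).1, hsub (hmem y hy)⟩
  have hAb : ∀ y ∈ closedBall (0 : V) 1, ∀ v, c₁ / 2 * ‖v‖ ≤ Pull (Res F x (2 * r)) l y v ∧
      Pull (Res F x (2 * r)) l y v ≤ 2 * C₁ * ‖v‖ := by
    intro y hy v
    rw [mem_closedBall_zero_iff] at hy
    obtain ⟨-, -, h3⟩ := OBL_bounds hl hy
    obtain ⟨h4, h5⟩ := h3 v
    obtain ⟨h6, h7⟩ := hb _ (hmem y hy) (dpj l y v)
    show c₁ / 2 * ‖v‖ ≤ F (x + (2 * r) • pj l y) (dpj l y v) ∧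
      F (x + (2 * r) • pj l y) (dpj l y v) ≤ 2 * C₁ * ‖v‖
    constructor
    · nlinarith
    · nlinarith
  have h1 := hplain _ _ (-l) _ hA hAsub hAb (by rw [norm_neg]; linarith) hOB
  have heq : ∀ y ∈ closedBall (0 : V) (1 / 2), ∀ v,
      Pull (Pull (Res F x (2 * r)) l) (-l) y v = Res F x (2 * r) y v := by
    intro y hy v
    rw [mem_closedBall_zero_iff] at hy
    have h2 : 1 - dot (-l) y ≠ 0 := by
      have h3 := (OBL_bounds (l := -l) (by rw [norm_neg]; exact hl) (y := y) (by linarith)).1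
      have h4 : 0 < 1 - dot (-l) y := by linarith
      exact h4.ne'
    have h3 : 1 - dot (-l + l) y ≠ 0 := by
      rw [neg_add_cancel]
      simp [dot]
    rw [pull_pull h2 h3, neg_add_cancel, pull_zero]
  have h2 : OB (Res F x (2 * r)) 0 (1 / 2) (K * (C * (2 * r * Real.sqrt (2 * r)) + ‖-l‖)) := by
    constructor
    · intro u hu
      have h3 := h1.1 u hu
      rwa [PLA_mo_congr (by norm_num) fun y hy => heq y hy u] at h3
    · have h3 := h1.2
      have h4 : mo (lc (Pull (Pull (Res F x (2 * r)) l) (-l))) 0 (1 / 2) =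
          mo (lc (Res F x (2 * r))) 0 (1 / 2) := by
        refine PLA_mo_congr (by norm_num) fun y hy => ?_
        show Real.log (rc (Pull (Pull (Res F x (2 * r)) l) (-l) y)) =
          Real.log (rc (Res F x (2 * r) y))
        rw [show Pull (Pull (Res F x (2 * r)) l) (-l) y = Res F x (2 * r) y from
          funext (heq y hy)]
      rwa [h4] at h3
  have h3 : OB F x r (K * (C * (2 * r * Real.sqrt (2 * r)) + ‖-l‖)) := by
    have e1 : x + (2 * r) • (0 : V) = x := by simp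
    have e2 : 2 * r * (1 / 2) = r := by ring
    constructor
    · intro u hu
      have h4 := h2.1 u hu
      have h5 := mo_scale (fun y => F y u) x 0 (2 * r) (1 / 2)
      rw [e1, e2] at h5
      rw [← h5]
      exact h4
    · have h4 := h2.2
      have h5 := mo_scale (lc F) x 0 (2 * r) (1 / 2)
      rw [e1, e2] at h5
      rw [← h5]
      exact h4
  refine OBL_mono h3 ?_
  rw [norm_neg, mul_assoc K]
  refine mul_le_mul_of_nonneg_left ?_ hK.le
  have h4 : Real.sqrt (2 * r) ≤ 1 := Real.sqrt_le_iff.2 ⟨by norm_num, by linarith⟩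
  have h5 : 2 * r * Real.sqrt (2 * r) ≤ 2 * r := by nlinarith
  nlinarith

end Pool.Agent.L1de93c
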