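import Pool.Agent.Lib_MP_1de93e_cont.Osc

/-!
# PIECE P1A: linearisation of the logarithm

`Q = closedBall 0 (1/2)`.
## P1A `p1_lin`.
`osc4` gives `a` with `|a - log N₀ u| ≤ C ε`, `g y = log (F y u) - a`, `|g| ≤ 2 C ε ≤ 1` on the square,
`∫ g⁴ ≤ C Θ⁴`, `∫ g² ≤ C Θ²`. `F y u = eᵃ e^g`, `|e^g - 1 - g| ≤ g²`. Since `∫_Q fderiv ψ y z = 0` (integral of a
derivative of a compactly supported function) and by Cauchy-Schwarz
(`∫_Q (fderiv ψ y z)² ≤ M² ‖z‖²`):
`|∫_Q F y u dψ z - eᵃ ∫_Q log (F y u) dψ z| ≤ eᵃ ∫ g² |dψ z| ≤ eᵃ √C Θ² M ‖z‖` and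
`|eᵃ - N₀ u| ≤ C' ε`, `|∫_Q log (F y u) dψ z| = |∫_Q g dψ z| ≤ √C Θ M ‖z‖`.
-/

namespace Pool.Agent.L1de93c

open MeasureTheory Metric Set
open scoped ContDiff

/-- The integral of a derivative of a compactly supported function vanishes. -/
theorem P1A_int_zero {ψ : V → ℝ} (hψ : ContDiff ℝ 1 ψ) (hs : tsupport ψ ⊆ closedBall 0 (1 / 2))
    (z : V) : ∫ y in closedBall (0 : V) (1 / 2), fderiv ℝ ψ y z = 0 := by
  have hcs : HasCompactSupport ψ :=
    (isCompact_closedBall (0 : V) (1 / 2)).of_isClosed_subset (isClosed_tsupport ψ) hs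
  have hc' : Continuous fun y => fderiv ℝ ψ y z :=
    (hψ.continuous_fderiv one_ne_zero).clm_apply continuous_const
  have hcs' : HasCompactSupport (fun y => fderiv ℝ ψ y z) := hcs.fderiv_apply ℝ z
  have h1 : ∫ y in closedBall (0 : V) (1 / 2), fderiv ℝ ψ y z = ∫ y, fderiv ℝ ψ y z := by
    refine setIntegral_eq_integral_of_forall_compl_eq_zero fun y hy => ?_
    have h2 : fderiv ℝ ψ y = 0 := by
      by_contra h3
      exact hy (hs (support_fderiv_subset ℝ (Function.mem_support.2 h3)))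
    rw [h2]
    rfl
  have h2 := integral_mul_fderiv_eq_neg_fderiv_mul_of_integrable (μ := (volume : Measure V))
    (f := fun _ : V => (1 : ℝ)) (g := ψ) (v := z) (by simp)
    (by simpa using hc'.integrable_of_hasCompactSupport hcs')
    (by simpa using hψ.continuous.integrable_of_hasCompactSupport hcs)
    (fun x _ => differentiableAt_const _) (fun x _ => (hψ.differentiable one_ne_zero) x)
  rw [h1]
  simpa using h2

/-- Cauchy-Schwarz. -/
theorem P1A_cs {K : Set V} (hK : IsCompact K) {f g : V → ℝ} (hf : ContinuousOn f K)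
    (hg : ContinuousOn g K) {α β : ℝ} (hα : 0 ≤ α) (hβ : 0 ≤ β)
    (h1 : ∫ y in K, f y ^ 2 ≤ α ^ 2) (h2 : ∫ y in K, g y ^ 2 ≤ β ^ 2) :
    |∫ y in K, f y * g y| ≤ α * β := by
  have i1 : IntegrableOn (fun y => f y ^ 2) K := (hf.pow 2).integrableOn_compact hK
  have i2 : IntegrableOn (fun y => g y ^ 2) K := (hg.pow 2).integrableOn_compact hK
  have i3 : IntegrableOn (fun y => f y * g y) K := (hf.mul hg).integrableOn_compact hK
  have h3 : ∀ x : ℝ, 0 ≤ (∫ y in K, g y ^ 2) * (x * x) + (-2 * ∫ y in K, f y * g y) * x +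
      ∫ y in K, f y ^ 2 := by
    intro x
    have h4 : ∫ y in K, (f y - x * g y) ^ 2 = (∫ y in K, g y ^ 2) * (x * x) +
        (-2 * ∫ y in K, f y * g y) * x + ∫ y in K, f y ^ 2 := by
      have h5 : (fun y => (f y - x * g y) ^ 2) = fun y =>
          ((x * x) * g y ^ 2 + (-2 * x) * (f y * g y)) + f y ^ 2 := by
        funext y
        ring
      have i4 : IntegrableOn (fun y => (x * x) * g y ^ 2) K := i2.const_mul _
      have i5 : IntegrableOn (fun y => (-2 * x) * (f y * g y)) K := i3.const_mul _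
      have i6 : IntegrableOn (fun y => (x * x) * g y ^ 2 + (-2 * x) * (f y * g y)) K := i4.add i5
      rw [h5, integral_add i6 i1, integral_add i4 i5, integral_const_mul, integral_const_mul]
      ring
    rw [← h4]
    exact integral_nonneg fun y => sq_nonneg _
  have h4 := discrim_le_zero h3
  unfold discrim at h4
  have h5 : 0 ≤ ∫ y in K, g y ^ 2 := integral_nonneg fun y => sq_nonneg _
  have h6 : (∫ y in K, f y ^ 2) * (∫ y in K, g y ^ 2) ≤ α ^ 2 * β ^ 2 :=
    mul_le_mul h1 h2 h5 (sq_nonneg α)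
  refine abs_le_of_sq_le_sq ?_ (mul_nonneg hα hβ)
  nlinarith

/-- P1A -/
theorem p1_lin {N₀ : V → ℝ} (h₀ : Nice N₀) :
    ∃ ε₁ > 0, ∃ C > 0, ∀ (R ε Θ : ℝ), 1 ≤ R → ε ≤ ε₁ → 0 ≤ Θ → ∀ (U : Set V) (F : V → V → ℝ),
      Loc N₀ R ε Θ U F → ∀ ψ : V → ℝ, ContDiff ℝ 1 ψ → tsupport ψ ⊆ closedBall 0 (1 / 2) →
      ∀ M : ℝ, 0 ≤ M → ∫ y in closedBall (0 : V) (1 / 2), ‖fderiv ℝ ψ y‖ ^ 2 ≤ M ^ 2 →
      ∀ u z, ‖u‖ = 1 →
        |(∫ y in closedBall (0 : V) (1 / 2), F y u * fderiv ℝ ψ y z) -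
          N₀ u * ∫ y in closedBall (0 : V) (1 / 2), Real.log (F y u) * fderiv ℝ ψ y z| ≤
        C * (ε + Θ) * Θ * M * ‖z‖ := by
  obtain ⟨ε₁, hε₁, C, hC, hosc⟩ := osc4 h₀
  have hN := h₀.toNormV
  obtain ⟨K₀, hK₀⟩ : ∃ K₀, K₀ = N₀ (1, 0) + N₀ (0, 1) := ⟨_, rfl⟩
  have hK₀p : 0 < K₀ := by
    rw [hK₀]
    exact add_pos (hN.pos _ (by simp)) (hN.pos _ (by simp))
  refine ⟨min ε₁ (1 / (2 * C)), lt_min hε₁ (by positivity), 2 * K₀ * √C * (1 + C), by positivity,
    ?_⟩
  intro R ε Θ hR hε hΘ U F hL ψ hψ hs M hM hMψ u z hu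
  obtain ⟨hosc1, -, -⟩ := hosc R ε Θ hR (hε.trans (min_le_left _ _)) hΘ U F hL
  obtain ⟨hpt, a, ha, h4, h2⟩ := hosc1 u hu
  have hCε : C * ε ≤ 1 / 2 := by
    have h := hε.trans (min_le_right _ _)
    rw [le_div_iff₀ (by positivity)] at h
    linarith
  have hε0 : 0 ≤ ε := by
    have h := (abs_nonneg _).trans ha
    by_contra hneg
    have := mul_neg_of_pos_of_neg hC (not_le.1 hneg)
    linarith
  have hu0 : u ≠ 0 := by
    rintro rfl
    simp at hu
  have hNu : 0 < N₀ u := hN.pos u hu0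
  have hNK : N₀ u ≤ K₀ := by
    have h := hN.le_mul_norm u
    rw [hu, mul_one, ← hK₀] at h
    exact h
  have hQ1 : closedBall (0 : V) (1 / 2) ⊆ closedBall 0 1 := closedBall_subset_closedBall (by norm_num)
  have h1R : closedBall (0 : V) 1 ⊆ closedBall 0 R := closedBall_subset_closedBall hR
  have hFc : ContinuousOn (fun y => F y u) (closedBall 0 1) :=
    (hL.rp.toHP.continuousOn_left u).mono (h1R.trans hL.sub)
  have hFpos : ∀ y ∈ closedBall (0 : V) 1, 0 < F y u := fun y hy => (hpt y (h1R hy)).1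
  obtain ⟨g, hg⟩ : ∃ g : V → ℝ, g = fun y => Real.log (F y u) - a := ⟨_, rfl⟩
  have hgc : ContinuousOn g (closedBall 0 1) := by
    rw [hg]
    exact (hFc.log fun y hy => (hFpos y hy).ne').sub continuousOn_const
  have hg1 : ∀ y ∈ closedBall (0 : V) 1, |g y| ≤ 1 := by
    intro y hy
    have h5 := (hpt y (h1R hy)).2
    have h6 : g y = (Real.log (F y u) - Real.log (N₀ u)) - (a - Real.log (N₀ u)) := by
      rw [hg]
      ring
    rw [h6]
    refine (abs_sub _ _).trans ?_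
    linarith
  have hgexp : ∀ y ∈ closedBall (0 : V) 1, F y u = Real.exp a * Real.exp (g y) := by
    intro y hy
    rw [← Real.exp_add, hg]
    simp only
    rw [add_sub_cancel, Real.exp_log (hFpos y hy)]
  have hglog : ∀ y, Real.log (F y u) = g y + a := by
    intro y
    rw [hg]
    ring
  have hKQ : IsCompact (closedBall (0 : V) (1 / 2)) := isCompact_closedBall _ _
  have hmQ : MeasurableSet (closedBall (0 : V) (1 / 2)) := measurableSet_closedBall
  obtain ⟨D, hD⟩ : ∃ D : V → ℝ, D = fun y => fderiv ℝ ψ y z := ⟨_, rfl⟩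
  have hDc : Continuous D := by
    rw [hD]
    exact (hψ.continuous_fderiv one_ne_zero).clm_apply continuous_const
  have hDc' : ContinuousOn D (closedBall (0 : V) (1 / 2)) := hDc.continuousOn
  have hD0 : ∫ y in closedBall (0 : V) (1 / 2), D y = 0 := by
    rw [hD]
    exact P1A_int_zero hψ hs z
  have hgQ : ContinuousOn g (closedBall (0 : V) (1 / 2)) := hgc.mono hQ1
  have heQ : ContinuousOn (fun y => Real.exp (g y) - 1 - g y) (closedBall (0 : V) (1 / 2)) :=
    ((Real.continuous_exp.comp_continuousOn hgQ).sub continuousOn_const).sub hgQ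
  have j1 : IntegrableOn (fun y => (Real.exp (g y) - 1 - g y) * D y)
      (closedBall (0 : V) (1 / 2)) := (heQ.mul hDc').integrableOn_compact hKQ
  have j2 : IntegrableOn (fun y => g y * D y) (closedBall (0 : V) (1 / 2)) :=
    (hgQ.mul hDc').integrableOn_compact hKQ
  have j3 : IntegrableOn D (closedBall (0 : V) (1 / 2)) := hDc'.integrableOn_compact hKQ
  have e1 : ∫ y in closedBall (0 : V) (1 / 2), F y u * fderiv ℝ ψ y z =
      Real.exp a * (∫ y in closedBall (0 : V) (1 / 2), (Real.exp (g y) - 1 - g y) * D y) +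
      Real.exp a * ∫ y in closedBall (0 : V) (1 / 2), g y * D y := by
    have h5 : ∫ y in closedBall (0 : V) (1 / 2), F y u * fderiv ℝ ψ y z =
        ∫ y in closedBall (0 : V) (1 / 2), (Real.exp a * ((Real.exp (g y) - 1 - g y) * D y) +
          Real.exp a * (g y * D y)) + Real.exp a * D y := by
      refine setIntegral_congr_fun hmQ fun y hy => ?_
      show F y u * fderiv ℝ ψ y z = (Real.exp a * ((Real.exp (g y) - 1 - g y) * D y) +
          Real.exp a * (g y * D y)) + Real.exp a * D y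
      rw [hgexp y (hQ1 hy), hD]
      ring
    have j4 : IntegrableOn (fun y => Real.exp a * ((Real.exp (g y) - 1 - g y) * D y))
      (closedBall (0 : V) (1 / 2)) := j1.const_mul _
    have j5 : IntegrableOn (fun y => Real.exp a * (g y * D y))
      (closedBall (0 : V) (1 / 2)) := j2.const_mul _
    have j6 : IntegrableOn (fun y => Real.exp a * D y)
      (closedBall (0 : V) (1 / 2)) := j3.const_mul _
    have j7 : IntegrableOn (fun y => Real.exp a * ((Real.exp (g y) - 1 - g y) * D y) +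
      Real.exp a * (g y * D y)) (closedBall (0 : V) (1 / 2)) := j4.add j5
    rw [h5, integral_add j7 j6, integral_add j4 j5, integral_const_mul, integral_const_mul,
      integral_const_mul, hD0]
    ring
  have e2 : ∫ y in closedBall (0 : V) (1 / 2), Real.log (F y u) * fderiv ℝ ψ y z =
      ∫ y in closedBall (0 : V) (1 / 2), g y * D y := by
    have h5 : ∫ y in closedBall (0 : V) (1 / 2), Real.log (F y u) * fderiv ℝ ψ y z =
        ∫ y in closedBall (0 : V) (1 / 2), g y * D y + a * D y := by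
      refine setIntegral_congr_fun hmQ fun y hy => ?_
      show Real.log (F y u) * fderiv ℝ ψ y z = g y * D y + a * D y
      rw [hglog, hD]
      ring
    have j6 : IntegrableOn (fun y => a * D y) (closedBall (0 : V) (1 / 2)) := j3.const_mul _
    rw [h5, integral_add j2 j6, integral_const_mul, hD0]
    ring
  -- the bounds
  have hDsq : ∫ y in closedBall (0 : V) (1 / 2), |D y| ^ 2 ≤ (M * ‖z‖) ^ 2 := by
    have h5 : ∫ y in closedBall (0 : V) (1 / 2), |D y| ^ 2 ≤
        ∫ y in closedBall (0 : V) (1 / 2), ‖z‖ ^ 2 * ‖fderiv ℝ ψ y‖ ^ 2 := by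
      refine setIntegral_mono_on ((hDc'.abs.pow 2).integrableOn_compact hKQ) ?_ hmQ fun y _ => ?_
      · refine ContinuousOn.integrableOn_compact hKQ ?_
        exact (continuous_const.mul ((hψ.continuous_fderiv one_ne_zero).norm.pow 2)).continuousOn
      · rw [← mul_pow]
        refine pow_le_pow_left₀ (abs_nonneg _) ?_ 2
        rw [hD, mul_comm, ← Real.norm_eq_abs]
        exact (fderiv ℝ ψ y).le_opNorm z
    rw [integral_const_mul] at h5
    have h6 := mul_le_mul_of_nonneg_left hMψ (sq_nonneg ‖z‖)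
    rw [mul_pow]
    linarith
  have hDsq' : ∫ y in closedBall (0 : V) (1 / 2), D y ^ 2 ≤ (M * ‖z‖) ^ 2 := by
    simpa only [sq_abs] using hDsq
  have hMz : 0 ≤ M * ‖z‖ := mul_nonneg hM (norm_nonneg z)
  have hg4 : ∫ y in closedBall (0 : V) (1 / 2), (g y ^ 2) ^ 2 ≤ (√C * Θ ^ 2) ^ 2 := by
    have h5 : ∫ y in closedBall (0 : V) (1 / 2), (g y ^ 2) ^ 2 ≤
        ∫ y in closedBall (0 : V) 1, (g y ^ 2) ^ 2 := by
      refine setIntegral_mono_set (((hgc.pow 2).pow 2).integrableOn_compact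
        (isCompact_closedBall _ _)) ?_ (Filter.Eventually.of_forall hQ1)
      exact Filter.Eventually.of_forall fun y => sq_nonneg _
    have h6 : ∫ y in closedBall (0 : V) 1, (g y ^ 2) ^ 2 =
        ∫ y in closedBall (0 : V) 1, (Real.log (F y u) - a) ^ 4 := by
      rw [hg]
      refine integral_congr_ae (Filter.Eventually.of_forall fun y => ?_)
      simp only
      ring
    have h7 : (√C * Θ ^ 2) ^ 2 = C * Θ ^ 4 := by
      rw [mul_pow, Real.sq_sqrt hC.le]
      ring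
    rw [h7]
    linarith
  have hg2 : ∫ y in closedBall (0 : V) (1 / 2), g y ^ 2 ≤ (√C * Θ) ^ 2 := by
    have h5 : ∫ y in closedBall (0 : V) (1 / 2), g y ^ 2 ≤
        ∫ y in closedBall (0 : V) 1, g y ^ 2 := by
      refine setIntegral_mono_set ((hgc.pow 2).integrableOn_compact
        (isCompact_closedBall _ _)) ?_ (Filter.Eventually.of_forall hQ1)
      exact Filter.Eventually.of_forall fun y => sq_nonneg _
    have h6 : ∫ y in closedBall (0 : V) 1, g y ^ 2 =
        ∫ y in closedBall (0 : V) 1, (Real.log (F y u) - a) ^ 2 := by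
      rw [hg]
    have h7 : (√C * Θ) ^ 2 = C * Θ ^ 2 := by
      rw [mul_pow, Real.sq_sqrt hC.le]
    rw [h7]
    linarith
  have b2 : |∫ y in closedBall (0 : V) (1 / 2), g y * D y| ≤ √C * Θ * (M * ‖z‖) :=
    P1A_cs hKQ hgQ hDc' (by positivity) hMz hg2 hDsq'
  have b1 : |∫ y in closedBall (0 : V) (1 / 2), (Real.exp (g y) - 1 - g y) * D y| ≤
      √C * Θ ^ 2 * (M * ‖z‖) := by
    have h5 : |∫ y in closedBall (0 : V) (1 / 2), g y ^ 2 * (|D y|)| ≤ √C * Θ ^ 2 * (M * ‖z‖) :=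
      P1A_cs hKQ (hgQ.pow 2) hDc'.abs (by positivity) hMz hg4 hDsq
    refine le_trans ?_ ((le_abs_self _).trans h5)
    refine (abs_integral_le_integral_abs).trans ?_
    refine setIntegral_mono_on j1.abs (((hgQ.pow 2).mul hDc'.abs).integrableOn_compact hKQ) hmQ
      fun y hy => ?_
    rw [abs_mul]
    exact mul_le_mul_of_nonneg_right (Real.abs_exp_sub_one_sub_id_le (hg1 y (hQ1 hy)))
      (abs_nonneg _)
  have hd1 : |a - Real.log (N₀ u)| ≤ 1 := by linarith
  have hexp : Real.exp a = N₀ u * Real.exp (a - Real.log (N₀ u)) := by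
    rw [Real.exp_sub, Real.exp_log hNu]
    field_simp
  have b3 : |Real.exp a - N₀ u| ≤ K₀ * (2 * (C * ε)) := by
    have h5 : Real.exp a - N₀ u = N₀ u * (Real.exp (a - Real.log (N₀ u)) - 1) := by
      rw [hexp]
      ring
    rw [h5, abs_mul, abs_of_pos hNu]
    have h6 := Real.abs_exp_sub_one_le hd1
    refine mul_le_mul hNK ?_ (abs_nonneg _) hK₀p.le
    linarith
  have b4 : Real.exp a ≤ 2 * K₀ := by
    have h5 := (abs_le.1 b3).2
    have h6 : K₀ * (2 * (C * ε)) ≤ K₀ * 1 := mul_le_mul_of_nonneg_left (by linarith) hK₀p.le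
    linarith
  rw [e1, e2]
  have e3 : Real.exp a * (∫ y in closedBall (0 : V) (1 / 2), (Real.exp (g y) - 1 - g y) * D y) +
      Real.exp a * (∫ y in closedBall (0 : V) (1 / 2), g y * D y) -
      N₀ u * (∫ y in closedBall (0 : V) (1 / 2), g y * D y) =
      Real.exp a * (∫ y in closedBall (0 : V) (1 / 2), (Real.exp (g y) - 1 - g y) * D y) +
      (Real.exp a - N₀ u) * (∫ y in closedBall (0 : V) (1 / 2), g y * D y) := by ring
  rw [e3]
  refine (abs_add_le _ _).trans ?_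
  rw [abs_mul, abs_mul, abs_of_pos (Real.exp_pos a)]
  have c1 : Real.exp a * |∫ y in closedBall (0 : V) (1 / 2), (Real.exp (g y) - 1 - g y) * D y| ≤
      2 * K₀ * (√C * Θ ^ 2 * (M * ‖z‖)) := mul_le_mul b4 b1 (abs_nonneg _) (by positivity)
  have c2 : |Real.exp a - N₀ u| * |∫ y in closedBall (0 : V) (1 / 2), g y * D y| ≤
      K₀ * (2 * (C * ε)) * (√C * Θ * (M * ‖z‖)) :=
    mul_le_mul b3 b2 (abs_nonneg _) (by positivity)
  have c3 : 2 * K₀ * √C * (1 + C) * (ε + Θ) * Θ * M * ‖z‖ =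
      2 * K₀ * (√C * Θ ^ 2 * (M * ‖z‖)) + K₀ * (2 * (C * ε)) * (√C * Θ * (M * ‖z‖)) +
      2 * K₀ * √C * (C * Θ + ε) * Θ * (M * ‖z‖) := by ring
  have c4 : 0 ≤ 2 * K₀ * √C * (C * Θ + ε) * Θ * (M * ‖z‖) := by positivity
  rw [c3]
  linarith

end Pool.Agent.L1de93c
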