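import Pool.Agent.Lib_MP_1de93e_cont.LCdef

/-!
# PIECE PAR: Parseval on the unit square

`e_n y = exp (2 π i (n.1 y.1 + n.2 y.2))`, `Q = closedBall 0 (1/2) = [-1/2,1/2]²` (area `1`).
## PAR `pars`: Parseval for continuous `w` on `Q`.
Iterate the one-dimensional Parseval identity (`hasSum_sq_fourierCoeffOn` / `hasSum_sq_fourierCoeff`)
first in `y.1`, then in `y.2` (exchange of sum and integral: nonnegative terms, `lintegral_tsum` or
`hasSum_integral_of_summable_norm`), or use `UnitAddTorus` (`Mathlib/Analysis/Fourier/AddCircleMulti`).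
-/

namespace Pool.Agent.L1de93c

open MeasureTheory Metric Set
open scoped ContDiff

theorem hasSum_prod_of_nonneg {f : ℤ × ℤ → ℝ} (hf : ∀ p, 0 ≤ f p) {g : ℤ → ℝ} {A : ℝ}
    (h1 : ∀ n, HasSum (fun m => f (m, n)) (g n)) (h2 : HasSum g A) : HasSum f A := by
  rw [← (Equiv.prodComm ℤ ℤ).hasSum_iff]
  have hs : Summable (f ∘ (Equiv.prodComm ℤ ℤ)) := by
    have hnn : (0 : ℤ × ℤ → ℝ) ≤ f ∘ (Equiv.prodComm ℤ ℤ) := fun p => hf _
    rw [summable_prod_of_nonneg hnn]
    refine ⟨fun n => (h1 n).summable, ?_⟩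
    have : (fun n => ∑' m, (f ∘ (Equiv.prodComm ℤ ℤ)) (n, m)) = g :=
      funext fun n => (h1 n).tsum_eq
    rw [this]
    exact h2.summable
  have h3 := hs.hasSum.prod_fiberwise (fun n => h1 n)
  have h4 := h3.unique h2
  rw [← h4]
  exact hs.hasSum

/-- One dimensional Parseval. -/
theorem pars1 {f : ℝ → ℂ} (hf : Continuous f) :
    HasSum (fun n : ℤ => ‖∫ x in (-(1 / 2) : ℝ)..(1 / 2),
      f x * Complex.exp (-(2 * Real.pi * ((n : ℝ) * x) : ℝ) * Complex.I)‖ ^ 2)
      (∫ x in (-(1 / 2) : ℝ)..(1 / 2), ‖f x‖ ^ 2) := by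
  have hab : (-(1 / 2) : ℝ) < 1 / 2 := by norm_num
  have hm : MemLp f 2 (volume.restrict (Ioc (-(1 / 2) : ℝ) (1 / 2))) := by
    rw [memLp_two_iff_integrable_sq_norm hf.aestronglyMeasurable]
    have h1 : IntegrableOn (fun x => ‖f x‖ ^ 2) (Icc (-(1 / 2) : ℝ) (1 / 2)) :=
      (hf.norm.pow 2).continuousOn.integrableOn_Icc
    exact h1.mono_set Ioc_subset_Icc_self
  have h := hasSum_sq_fourierCoeffOn hab hm
  have e1 : ((1 / 2 : ℝ) - -(1 / 2)) = 1 := by norm_num
  have e2 : ((1 / 2 : ℝ) - -(1 / 2))⁻¹ • ∫ x in (-(1 / 2) : ℝ)..(1 / 2), ‖f x‖ ^ 2 =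
      ∫ x in (-(1 / 2) : ℝ)..(1 / 2), ‖f x‖ ^ 2 := by
    rw [e1, inv_one, one_smul]
  rw [e2] at h
  have h3 : ∀ n : ℤ, fourierCoeffOn hab f n = ∫ x in (-(1 / 2) : ℝ)..(1 / 2),
      f x * Complex.exp (-(2 * Real.pi * ((n : ℝ) * x) : ℝ) * Complex.I) := by
    intro n
    have e3 : (1 / ((1 / 2 : ℝ) - -(1 / 2))) = 1 := by norm_num
    rw [fourierCoeffOn_eq_integral, e3, one_smul]
    apply intervalIntegral.integral_congr
    intro x _
    simp only []
    rw [fourier_coe_apply, smul_eq_mul, mul_comm, e1]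
    congr 2
    push_cast
    ring
  simp only [h3] at h
  exact h

/-- The integral over the unit square as an iterated integral. -/
theorem integral_Q {E : Type*} [NormedAddCommGroup E] [NormedSpace ℝ E] {g : V → E}
    (hg : Continuous g) :
    ∫ y in closedBall (0 : V) (1 / 2), g y =
      ∫ x in (-(1 / 2) : ℝ)..(1 / 2), ∫ y in (-(1 / 2) : ℝ)..(1 / 2), g (x, y) := by
  have hQ : closedBall (0 : V) (1 / 2) = Icc (-(1 / 2) : ℝ) (1 / 2) ×ˢ Icc (-(1 / 2) : ℝ) (1 / 2) := by
    have : (0 : V) = ((0 : ℝ), (0 : ℝ)) := rfl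
    rw [this, ← closedBall_prod_same, Real.closedBall_eq_Icc]
    norm_num
  have hi : IntegrableOn g (Icc (-(1 / 2) : ℝ) (1 / 2) ×ˢ Icc (-(1 / 2) : ℝ) (1 / 2))
      ((volume : Measure ℝ).prod (volume : Measure ℝ)) := by
    have := hg.continuousOn.integrableOn_compact (μ := (volume : Measure V))
      (isCompact_closedBall (0 : V) (1 / 2))
    rw [hQ] at this
    exact this
  rw [hQ]
  have h1 := setIntegral_prod g hi
  have h2 : (volume : Measure V) = (volume : Measure ℝ).prod (volume : Measure ℝ) := rfl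
  rw [h2, h1, intervalIntegral.integral_of_le (by norm_num), integral_Icc_eq_integral_Ioc]
  apply setIntegral_congr_fun measurableSet_Ioc
  intro x _
  simp only []
  rw [intervalIntegral.integral_of_le (by norm_num), integral_Icc_eq_integral_Ioc]

/-- Parseval for globally continuous functions. -/
theorem pars_cont {w : V → ℝ} (hw : Continuous w) :
    HasSum (fun n : ℤ × ℤ => ‖fc w n‖ ^ 2) (∫ y in closedBall (0 : V) (1 / 2), (w y) ^ 2) := by
  set G : ℤ → ℝ → ℂ := fun n x => ∫ y in (-(1 / 2) : ℝ)..(1 / 2),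
    (w (x, y) : ℂ) * Complex.exp (-(2 * Real.pi * ((n : ℝ) * y) : ℝ) * Complex.I) with hG
  have hGc : ∀ n, Continuous (G n) := by
    intro n
    apply intervalIntegral.continuous_parametric_intervalIntegral_of_continuous'
    have : Continuous (fun p : ℝ × ℝ => (w (p.1, p.2) : ℂ) *
        Complex.exp (-(2 * Real.pi * ((n : ℝ) * p.2) : ℝ) * Complex.I)) := by fun_prop
    exact this
  have hfc : ∀ m n : ℤ, fc w (m, n) = ∫ x in (-(1 / 2) : ℝ)..(1 / 2),
      G n x * Complex.exp (-(2 * Real.pi * ((m : ℝ) * x) : ℝ) * Complex.I) := by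
    intro m n
    unfold fc
    have hc : Continuous (fun y : V => (w y : ℂ) *
        Complex.exp (-(2 * Real.pi * (((m, n) : ℤ × ℤ).1 * y.1 + ((m, n) : ℤ × ℤ).2 * y.2) : ℝ) *
          Complex.I)) := by fun_prop
    rw [integral_Q hc]
    apply intervalIntegral.integral_congr
    intro x _
    simp only [hG]
    rw [← intervalIntegral.integral_mul_const]
    apply intervalIntegral.integral_congr
    intro y _
    simp only []
    rw [mul_assoc (w (x, y) : ℂ), ← Complex.exp_add]
    congr 2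
    push_cast
    ring
  have hA : Continuous (fun x : ℝ => ∫ y in (-(1 / 2) : ℝ)..(1 / 2), (w (x, y)) ^ 2) := by
    apply intervalIntegral.continuous_parametric_intervalIntegral_of_continuous'
    have : Continuous (fun p : ℝ × ℝ => (w (p.1, p.2)) ^ 2) := by fun_prop
    exact this
  have hx : ∀ x : ℝ, HasSum (fun n => ‖G n x‖ ^ 2)
      (∫ y in (-(1 / 2) : ℝ)..(1 / 2), (w (x, y)) ^ 2) := by
    intro x
    have hc : Continuous (fun y : ℝ => (w (x, y) : ℂ)) := by fun_prop
    have h := pars1 hc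
    have e : (∫ y in (-(1 / 2) : ℝ)..(1 / 2), ‖(w (x, y) : ℂ)‖ ^ 2) =
        ∫ y in (-(1 / 2) : ℝ)..(1 / 2), (w (x, y)) ^ 2 := by
      apply intervalIntegral.integral_congr
      intro y _
      simp only []
      rw [Complex.norm_real, Real.norm_eq_abs, sq_abs]
    rw [e] at h
    exact h
  have h2 : HasSum (fun n => ∫ x in (-(1 / 2) : ℝ)..(1 / 2), ‖G n x‖ ^ 2)
      (∫ x in (-(1 / 2) : ℝ)..(1 / 2), ∫ y in (-(1 / 2) : ℝ)..(1 / 2), (w (x, y)) ^ 2) := by
    apply intervalIntegral.hasSum_integral_of_dominated_convergence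
      (bound := fun n x => ‖G n x‖ ^ 2)
    · intro n
      exact ((hGc n).norm.pow 2).aestronglyMeasurable
    · intro n
      refine Filter.Eventually.of_forall fun x _ => ?_
      rw [Real.norm_eq_abs, abs_of_nonneg (by positivity)]
    · exact Filter.Eventually.of_forall fun x _ => (hx x).summable
    · have e : (fun x => ∑' n, ‖G n x‖ ^ 2) =
          fun x : ℝ => ∫ y in (-(1 / 2) : ℝ)..(1 / 2), (w (x, y)) ^ 2 :=
        funext fun x => (hx x).tsum_eq
      rw [e]
      exact hA.intervalIntegrable _ _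
    · exact Filter.Eventually.of_forall fun x _ => hx x
  have hsq : Continuous (fun y : V => (w y) ^ 2) := by fun_prop
  rw [integral_Q hsq]
  refine hasSum_prod_of_nonneg (fun p => by positivity) (fun n => ?_) h2
  have h3 := pars1 (hGc n)
  simp only [← hfc] at h3
  exact h3

/-- PAR -/
theorem pars {w : V → ℝ} (hw : ContinuousOn w (closedBall 0 (1 / 2))) :
    HasSum (fun n : ℤ × ℤ => ‖fc w n‖ ^ 2) (∫ y in closedBall (0 : V) (1 / 2), (w y) ^ 2) := by
  set P : V → V := fun y => (max (-(1 / 2)) (min (1 / 2) y.1), max (-(1 / 2)) (min (1 / 2) y.2))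
    with hP
  have hPc : Continuous P := by fun_prop
  have hmem : ∀ y : V, y ∈ closedBall (0 : V) (1 / 2) ↔
      (-(1 / 2) ≤ y.1 ∧ y.1 ≤ 1 / 2) ∧ (-(1 / 2) ≤ y.2 ∧ y.2 ≤ 1 / 2) := by
    intro y
    rw [mem_closedBall_zero_iff, Prod.norm_def, max_le_iff, Real.norm_eq_abs, Real.norm_eq_abs,
      abs_le, abs_le]
  have hPm : ∀ y, P y ∈ closedBall (0 : V) (1 / 2) := by
    intro y
    rw [hmem]
    simp only [hP]
    refine ⟨⟨le_max_left _ _, max_le (by norm_num) (min_le_left _ _)⟩,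
      ⟨le_max_left _ _, max_le (by norm_num) (min_le_left _ _)⟩⟩
  have hPid : ∀ y ∈ closedBall (0 : V) (1 / 2), P y = y := by
    intro y hy
    rw [hmem] at hy
    obtain ⟨⟨h1, h2⟩, h3, h4⟩ := hy
    simp only [hP]
    rw [min_eq_right h2, min_eq_right h4, max_eq_right h1, max_eq_right h3]
  have hc : Continuous (fun y => w (P y)) := hw.comp_continuous hPc hPm
  have h := pars_cont hc
  have e1 : ∀ n, fc (fun y => w (P y)) n = fc w n := by
    intro n
    unfold fc
    apply setIntegral_congr_fun measurableSet_closedBall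
    intro y hy
    simp only []
    rw [hPid y hy]
  have e2 : (∫ y in closedBall (0 : V) (1 / 2), (w (P y)) ^ 2) =
      ∫ y in closedBall (0 : V) (1 / 2), (w y) ^ 2 := by
    apply setIntegral_congr_fun measurableSet_closedBall
    intro y hy
    simp only []
    rw [hPid y hy]
  rw [e2] at h
  simp only [e1] at h
  exact h

end Pool.Agent.L1de93c
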