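import Pool.Agent.Lib_MP_1de93e_cont.LinB

/-!
# PIECE PJ1: algebra of the projective maps `pj l y = y / (1 - l y)`

`dpj l y v = (1 - l y)⁻¹ v + (1 - l y)⁻² (l v) y`.

## PJ1 (pure algebra)
* `pj_pj`: `1 - m (pj l y) = (1 - (l+m) y)/(1 - l y)`.
* `dpj_dpj`: expand, or differentiate `pj_pj`.
* `pj_split`: with `ν = ρ (1 - l y)⁻¹ l`: `1 - ν z = (1 - l (y + ρ z))/(1 - l y)`;
  `pj l y + ρ dpj l y (pj ν z) = y/(1-ly) + ρ z/(1 - l(y+ρz)) + ρ (l z) y/((1-ly)(1-l(y+ρz))) = pj l (y + ρ z)`.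
* `dpj_split`: the derivative in `z`.
* `detT_dpj`: `(1-ly)⁻² (1 + l y/(1 - l y)) = (1 - l y)⁻³`.
-/

namespace Pool.Agent.L1de93c

open MeasureTheory Metric Set

theorem pj_zero (l : V) : pj l 0 = 0 := by simp [pj]

theorem pj_zero_left (y : V) : pj 0 y = y := by simp [pj, dot]

theorem dpj_zero_left (y v : V) : dpj 0 y v = v := by simp [dot]

theorem dpj_at_zero (l v : V) : dpj l 0 v = v := by simp [dot]

theorem pull_zero (F : V → V → ℝ) : Pull F 0 = F := by
  ext y v; simp [Pull, pj_zero_left, dot]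

/-- PJ1 -/
theorem pj_pj {l m y : V} (h : 1 - dot l y ≠ 0) : pj m (pj l y) = pj (l + m) y := by
  unfold pj
  rw [smul_smul, dot_smul_right, dot_add_left]
  congr 1
  rw [← mul_inv]
  congr 1
  field_simp
  ring

/-- PJ1 -/
theorem dpj_dpj {l m y : V} (h : 1 - dot l y ≠ 0) (h2 : 1 - dot (l + m) y ≠ 0) (v : V) :
    dpj m (pj l y) (dpj l y v) = dpj (l + m) y v := by
  have e1 : 1 - dot m (pj l y) = (1 - dot (l + m) y) / (1 - dot l y) := by
    unfold pj
    rw [dot_smul_right, dot_add_left]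
    field_simp
    ring
  have e2 : dot m y = (1 - dot l y) - (1 - dot (l + m) y) := by
    rw [dot_add_left]; ring
  have e3 : dot (l + m) v = dot l v + dot m v := dot_add_left l m v
  have hab : (1 - dot (l + m) y) / (1 - dot l y) ≠ 0 := div_ne_zero h2 h
  rw [dpj_apply, dpj_apply, dpj_apply, e1, e3, dot_add_right, dot_smul_right, dot_smul_right, e2]
  unfold pj
  generalize 1 - dot (l + m) y = b at *
  generalize 1 - dot l y = a at *
  generalize dot l v = p
  generalize dot m v = q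
  ext <;> simp only [Prod.fst_add, Prod.snd_add, Prod.smul_fst, Prod.smul_snd, smul_eq_mul] <;>
    field_simp <;> ring

/-- PJ1 -/
theorem pj_hasFDerivAt {l y : V} (h : 1 - dot l y ≠ 0) : HasFDerivAt (pj l) (dpj l y) y := by
  have h1 : HasFDerivAt (fun z : V => 1 - dot l z)
      (-(l.1 • ContinuousLinearMap.fst ℝ ℝ ℝ + l.2 • ContinuousLinearMap.snd ℝ ℝ ℝ)) y := by
    have h2 : HasFDerivAt (fun z : V => dot l z)
        (l.1 • ContinuousLinearMap.fst ℝ ℝ ℝ + l.2 • ContinuousLinearMap.snd ℝ ℝ ℝ) y := by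
      have h3 := (l.1 • ContinuousLinearMap.fst ℝ ℝ ℝ +
        l.2 • ContinuousLinearMap.snd ℝ ℝ ℝ : V →L[ℝ] ℝ).hasFDerivAt (x := y)
      refine h3.congr_of_eventuallyEq (Filter.Eventually.of_forall fun z => ?_)
      simp [dot]
    exact h2.const_sub 1
  have h4 := ((hasDerivAt_inv h).comp_hasFDerivAt y h1).smul (hasFDerivAt_id y)
  have h2 : HasFDerivAt (pj l) _ y := h4
  refine h2.congr_fderiv ?_
  ext v <;> simp [dot] <;> ring

/-- PJ1 -/
theorem detT_dpj {l y : V} (h : 1 - dot l y ≠ 0) : detT (dpj l y) = (1 - dot l y)⁻¹ ^ 3 := by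
  have e1 : dot l (1, 0) = l.1 := by simp [dot]
  have e2 : dot l (0, 1) = l.2 := by simp [dot]
  have e3 : l.1 * y.1 + l.2 * y.2 = 1 - (1 - dot l y) := by simp [dot]
  unfold detT dt
  rw [dpj_apply, dpj_apply, e1, e2]
  generalize 1 - dot l y = a at *
  simp only [Prod.fst_add, Prod.snd_add, Prod.smul_fst, Prod.smul_snd, smul_eq_mul]
  have e4 : l.2 * y.2 = 1 - a - l.1 * y.1 := by linarith
  field_simp
  linear_combination a * e3

/-- PJ1 -/
theorem pj_split {l y z : V} {ρ : ℝ} (h : 1 - dot l y ≠ 0) (h2 : 1 - dot l (y + ρ • z) ≠ 0) :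
    pj l (y + ρ • z) = pj l y + ρ • dpj l y (pj ((ρ * (1 - dot l y)⁻¹) • l) z) := by
  have e1 : 1 - dot ((ρ * (1 - dot l y)⁻¹) • l) z = (1 - dot l (y + ρ • z)) / (1 - dot l y) := by
    rw [dot_smul_left, dot_add_right, dot_smul_right]
    field_simp
    ring
  have e2 : ρ * dot l z = (1 - dot l y) - (1 - dot l (y + ρ • z)) := by
    rw [dot_add_right, dot_smul_right]; ring
  have hab : (1 - dot l (y + ρ • z)) / (1 - dot l y) ≠ 0 := div_ne_zero h2 h
  rw [dpj_apply]
  unfold pj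
  rw [dot_smul_right, e1]
  generalize 1 - dot l (y + ρ • z) = b at *
  generalize 1 - dot l y = a at *
  generalize dot l z = p at *
  have e3 : b = a - ρ * p := by linarith
  ext <;> simp only [Prod.fst_add, Prod.snd_add, Prod.smul_fst, Prod.smul_snd, smul_eq_mul] <;>
    field_simp
  · linear_combination (-y.1) * e2
  · linear_combination (-y.2) * e2

/-- PJ1 -/
theorem dpj_split {l y z : V} {ρ : ℝ} (h : 1 - dot l y ≠ 0) (h2 : 1 - dot l (y + ρ • z) ≠ 0)
    (v : V) :
    dpj l (y + ρ • z) v = dpj l y (dpj ((ρ * (1 - dot l y)⁻¹) • l) z v) := by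
  have e1 : 1 - dot ((ρ * (1 - dot l y)⁻¹) • l) z = (1 - dot l (y + ρ • z)) / (1 - dot l y) := by
    rw [dot_smul_left, dot_add_right, dot_smul_right]
    field_simp
    ring
  have e2 : ρ * dot l z = (1 - dot l y) - (1 - dot l (y + ρ • z)) := by
    rw [dot_add_right, dot_smul_right]; ring
  have hab : (1 - dot l (y + ρ • z)) / (1 - dot l y) ≠ 0 := div_ne_zero h2 h
  rw [dpj_apply, dpj_apply, dpj_apply, e1, dot_add_right l (_ • v) (_ • z),
    dot_smul_right _ l v, dot_smul_right (_ ^ 2 * _) l z, dot_smul_left]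
  generalize 1 - dot l (y + ρ • z) = b at *
  generalize 1 - dot l y = a at *
  generalize dot l z = p at *
  generalize dot l v = q at *
  ext <;> simp only [Prod.fst_add, Prod.snd_add, Prod.smul_fst, Prod.smul_snd, smul_eq_mul] <;>
    field_simp
  · linear_combination (-q * y.1) * e2
  · linear_combination (-q * y.2) * e2

/-- PJ1 -/
theorem pull_pull {F : V → V → ℝ} {l m y : V} (h : 1 - dot l y ≠ 0)
    (h2 : 1 - dot (l + m) y ≠ 0) (v : V) : Pull (Pull F m) l y v = Pull F (l + m) y v := by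
  unfold Pull
  rw [dpj_dpj h h2, pj_pj h]

/-- PJ1 -/
theorem res_pull {G : V → V → ℝ} {l y z : V} {ρ : ℝ} (h : 1 - dot l y ≠ 0)
    (h2 : 1 - dot l (y + ρ • z) ≠ 0) (v : V) :
    Res (Pull G l) y ρ z v =
      Pull (Lin (dpj l y) (Res G (pj l y) ρ)) ((ρ * (1 - dot l y)⁻¹) • l) z v := by
  unfold Res Pull Lin
  rw [pj_split h h2, dpj_split h h2]

/-- PJ1 -/
theorem pull_lin {G : V → V → ℝ} {T : V →L[ℝ] V} {ν ν' : V} (h : ∀ z, dot ν' (T z) = dot ν z)
    (z v : V) : Pull (Lin T G) ν z v = Lin T (Pull G ν') z v := by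
  unfold Pull Lin
  have e1 : T (pj ν z) = pj ν' (T z) := by
    unfold pj
    rw [map_smul, h]
  have e2 : T (dpj ν z v) = dpj ν' (T z) (T v) := by
    rw [dpj_apply, dpj_apply, map_add, map_smul, map_smul, h, h]
  rw [e1, e2]

/-- PJ1 -/
theorem res_pull_zero (G : V → V → ℝ) (l : V) (s : ℝ) :
    Res (Pull G l) 0 s = Pull (Res G 0 s) (s • l) := by
  funext y v
  unfold Res Pull
  have e1 : pj l (0 + s • y) = 0 + s • pj (s • l) y := by
    unfold pj
    rw [zero_add, zero_add, dot_smul_right, dot_smul_left, smul_comm]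
  have e2 : dpj l (0 + s • y) v = dpj (s • l) y v := by
    rw [dpj_apply, dpj_apply, zero_add, dot_smul_right, dot_smul_left, dot_smul_left, smul_smul]
    congr 2
    ring
  rw [e1, e2]

/-- PJ1 -/
theorem res_res (F : V → V → ℝ) (x y : V) (r s : ℝ) :
    Res (Res F x r) y s = Res F (x + r • y) (r * s) := by
  funext z v
  unfold Res
  rw [smul_add, smul_smul, add_assoc]

end Pool.Agent.L1de93c
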