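import Pool.Agent.Lib_MP_1de93e_cont.Base

/-!
# PIECE POT1: two calibrations

For a norm `N` and `δ > 0` put
`a1 = (2/δ) ∫₀^δ N (1,t) dt - N (1,δ)`, `a2 = (N (1,δ) - N (1,0))/δ` and, with the coordinates
exchanged, `b2 = (2/δ) ∫₀^δ N (t,1) dt - N (δ,1)`, `b1 = (N (δ,1) - N (0,1))/δ`.

## POT1 `pot_dual`: `dot (a1, a2) v ≤ N v` and `dot (b1, b2) v ≤ N v`.
`Ψ ε = ∫₀^δ N ((1,t) + ε v) dt ≤ Ψ 0 + ε δ N v` for `ε ≥ 0`. For small `ε` substitute
`(1,t) + ε v = (1 + ε v₁) (1, (t + ε v₂)/(1 + ε v₁))`: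
`Ψ ε = (1 + ε v₁)² ∫_{ε v₂/(1 + ε v₁)}^{(δ + ε v₂)/(1 + ε v₁)} N (1,s) ds`, whose derivative at `0` is
`2 v₁ ∫₀^δ N (1,s) ds + N (1,δ) (v₂ - δ v₁) - N (1,0) v₂ = δ (a1 v₁ + a2 v₂)`. Hence
`δ dot (a1,a2) v ≤ δ N v`. The second claim is the first one for the norm `N ∘ swap`.
-/

namespace Pool.Agent.L1de93c

open MeasureTheory Metric Set

noncomputable def a1 (N : V → ℝ) (δ : ℝ) : ℝ := (2 / δ) * (∫ t in (0:ℝ)..δ, N (1, t)) - N (1, δ)
noncomputable def a2 (N : V → ℝ) (δ : ℝ) : ℝ := (N (1, δ) - N (1, 0)) / δ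
noncomputable def b2 (N : V → ℝ) (δ : ℝ) : ℝ := (2 / δ) * (∫ t in (0:ℝ)..δ, N (t, 1)) - N (δ, 1)
noncomputable def b1 (N : V → ℝ) (δ : ℝ) : ℝ := (N (δ, 1) - N (0, 1)) / δ

theorem pot1_aux {N : V → ℝ} (hN : NormV N) {δ : ℝ} (hδ : 0 < δ) (v : V) :
    dot (a1 N δ, a2 N δ) v ≤ N v := by
  set f : ℝ → ℝ := fun s => N (1, s) with hf
  have hfc : Continuous f := hN.continuous.comp (by fun_prop)
  set I : ℝ → ℝ := fun x => ∫ s in (0:ℝ)..x, f s with hI
  have hId : ∀ x, HasDerivAt I (f x) x := fun x =>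
    intervalIntegral.integral_hasDerivAt_right (hfc.intervalIntegrable _ _)
      (hfc.stronglyMeasurableAtFilter _ _) hfc.continuousAt
  set Ψ : ℝ → ℝ := fun ε =>
    (1 + ε * v.1) ^ 2 * (I ((δ + ε * v.2) / (1 + ε * v.1)) - I ((ε * v.2) / (1 + ε * v.1))) with hΨ
  have h0 : Ψ 0 = I δ := by
    simp [hΨ, hI]
  -- derivative at zero
  have hD : HasDerivAt Ψ (2 * v.1 * I δ + (f δ * (v.2 - δ * v.1) - f 0 * v.2)) 0 := by
    have e1 : HasDerivAt (fun ε : ℝ => 1 + ε * v.1) (v.1) 0 := by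
      simpa using ((hasDerivAt_id (0:ℝ)).mul_const v.1).const_add 1
    have e2 : HasDerivAt (fun ε : ℝ => δ + ε * v.2) (v.2) 0 := by
      simpa using ((hasDerivAt_id (0:ℝ)).mul_const v.2).const_add δ
    have e3 : HasDerivAt (fun ε : ℝ => ε * v.2) (v.2) 0 := by
      simpa using ((hasDerivAt_id (0:ℝ)).mul_const v.2)
    have e4 : HasDerivAt (fun ε : ℝ => (δ + ε * v.2) / (1 + ε * v.1)) (v.2 - δ * v.1) 0 := by
      have := e2.div e1 (by simp)
      refine this.congr_deriv ?_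
      simp
    have e5 : HasDerivAt (fun ε : ℝ => (ε * v.2) / (1 + ε * v.1)) v.2 0 := by
      have := e3.div e1 (by simp)
      refine this.congr_deriv ?_
      simp
    have e6 : HasDerivAt (fun ε : ℝ => I ((δ + ε * v.2) / (1 + ε * v.1)))
        (f δ * (v.2 - δ * v.1)) 0 := by
      have h1 : HasDerivAt I (f δ) ((δ + 0 * v.2) / (1 + 0 * v.1)) := by
        have : (δ + 0 * v.2) / (1 + 0 * v.1) = δ := by simp
        rw [this]
        exact hId δ
      exact HasDerivAt.comp (0:ℝ) h1 e4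
    have e7 : HasDerivAt (fun ε : ℝ => I ((ε * v.2) / (1 + ε * v.1))) (f 0 * v.2) 0 := by
      have h1 : HasDerivAt I (f 0) ((0 * v.2) / (1 + 0 * v.1)) := by
        have : (0 * v.2) / (1 + 0 * v.1) = 0 := by simp
        rw [this]
        exact hId 0
      exact HasDerivAt.comp (0:ℝ) h1 e5
    have e8 := (e1.pow 2).mul (e6.sub e7)
    refine e8.congr_deriv ?_
    simp [hI]
  have hslope := hD.tendsto_slope_zero_right
  -- the bound
  have hev : ∀ᶠ ε : ℝ in nhdsWithin 0 (Ioi 0), ε⁻¹ • (Ψ (0 + ε) - Ψ 0) ≤ δ * N v := by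
    have hpos : ∀ᶠ ε : ℝ in nhds 0, 0 < 1 + ε * v.1 := by
      have hc : Continuous (fun ε : ℝ => 1 + ε * v.1) := by fun_prop
      exact hc.continuousAt.eventually_const_lt (by simp)
    filter_upwards [hpos.filter_mono nhdsWithin_le_nhds, self_mem_nhdsWithin] with ε h1 h2
    have hε : 0 < ε := h2
    rw [zero_add, smul_eq_mul, inv_mul_le_iff₀ hε]
    have hsub : Ψ ε = ∫ t in (0:ℝ)..δ, N ((1, t) + ε • v) := by
      have e1 : ∀ t : ℝ, N ((1, t) + ε • v) =
          (1 + ε * v.1) * f (t / (1 + ε * v.1) + (ε * v.2) / (1 + ε * v.1)) := by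
        intro t
        have : ((1, t) : V) + ε • v = (1 + ε * v.1) •
            ((1, t / (1 + ε * v.1) + (ε * v.2) / (1 + ε * v.1)) : V) := by
          ext
          · simp
          · simp only [Prod.snd_add, Prod.smul_snd, smul_eq_mul]
            field_simp
        rw [this, hN.smul_nonneg h1.le]
      simp_rw [e1]
      rw [intervalIntegral.integral_const_mul, intervalIntegral.integral_comp_div_add _ h1.ne']
      have e2 : (∫ x in (0 / (1 + ε * v.1) + (ε * v.2) / (1 + ε * v.1))..(δ / (1 + ε * v.1) +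
          (ε * v.2) / (1 + ε * v.1)), f x) =
          I ((δ + ε * v.2) / (1 + ε * v.1)) - I ((ε * v.2) / (1 + ε * v.1)) := by
        rw [hI, intervalIntegral.integral_interval_sub_left (hfc.intervalIntegrable _ _)
          (hfc.intervalIntegrable _ _), zero_div, zero_add, add_div]
      rw [e2, hΨ, smul_eq_mul]
      ring
    have hle : (∫ t in (0:ℝ)..δ, N ((1, t) + ε • v)) ≤ ∫ t in (0:ℝ)..δ, (f t + ε * N v) := by
      refine intervalIntegral.integral_mono_on hδ.le ?_ ?_ ?_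
      · exact (hN.continuous.comp (by fun_prop)).intervalIntegrable _ _
      · exact (hfc.add continuous_const).intervalIntegrable _ _
      · intro t _
        refine (hN.add_le _ _).trans ?_
        rw [hN.smul_nonneg hε.le]
    have hval : (∫ t in (0:ℝ)..δ, (f t + ε * N v)) = I δ + δ * (ε * N v) := by
      rw [intervalIntegral.integral_add (hfc.intervalIntegrable _ _)
        (continuous_const.intervalIntegrable _ _), intervalIntegral.integral_const, sub_zero,
        smul_eq_mul]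
    rw [hsub, h0]
    linarith
  have hfin := le_of_tendsto hslope hev
  have e : δ * dot (a1 N δ, a2 N δ) v =
      2 * v.1 * I δ + (f δ * (v.2 - δ * v.1) - f 0 * v.2) := by
    simp only [dot, a1, a2, hI, hf]
    field_simp
    ring
  rw [← e] at hfin
  exact le_of_mul_le_mul_left hfin hδ

/-- POT1 -/
theorem pot_dual {N : V → ℝ} (hN : NormV N) {δ : ℝ} (hδ : 0 < δ) :
    (∀ v, dot (a1 N δ, a2 N δ) v ≤ N v) ∧ ∀ v, dot (b1 N δ, b2 N δ) v ≤ N v := by
  refine ⟨pot1_aux hN hδ, fun v => ?_⟩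
  have hN' : NormV (fun u : V => N (u.2, u.1)) := by
    refine ⟨fun u hu => hN.pos _ ?_, fun a u => ?_, fun u w => ?_⟩
    · intro h
      apply hu
      have h1 := congrArg Prod.fst h
      have h2 := congrArg Prod.snd h
      ext
      · exact h2
      · exact h1
    · have := hN.smul a (u.2, u.1)
      simpa using this
    · have := hN.add_le (u.2, u.1) (w.2, w.1)
      simpa using this
  have h1 := pot1_aux hN' hδ (v.2, v.1)
  have h2 : dot (b1 N δ, b2 N δ) v =
      dot (a1 (fun u : V => N (u.2, u.1)) δ, a2 (fun u : V => N (u.2, u.1)) δ) (v.2, v.1) := by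
    simp only [dot, a1, a2, b1, b2]
    ring
  rw [h2]
  exact h1

end Pool.Agent.L1de93c
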