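import Pool.Agent.Lib_MP_1de93e_cont.Base

/-!
# PIECE RC: the Radon constant `rc`

`rc N = inf { N u * N w : dt u w = 1 }`.

Proofs. Write `S = {c | ∃ u w, dt u w = 1 ∧ c = N u * N w}`; it is nonempty (`u = (1,0)`,
`w = (0,1)`) and bounded below by `0`.
* `rc_mul_le`: if `dt u w = 0` trivial. If `d = dt u w > 0` then `dt (d⁻¹ • u) w = 1`, so
  `rc N ≤ d⁻¹ * N u * N w`. If `d < 0` use `dt u (-w) = -d`.
* `rc_pos`: `NormV.exists_lower` gives `c ‖u‖ ≤ N u`; `1 = dt u w ≤ 2 ‖u‖ ‖w‖` (`abs_dt_le`), so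
  `N u * N w ≥ c² ‖u‖ ‖w‖ ≥ c² / 2`.
* `le_rc`: `le_csInf`.
* `rc_mono`: for `dt u w = 1`, `rc N ≤ N u * N w ≤ k² N' u N' w`; take the infimum (if `k = 0`
  then `N = 0` on everything, impossible; or use `le_csInf` on `k² • S'`).
* `rc_comp`: `dt (T u) (T w) = detT T * dt u w` (`dt_map`); both inequalities follow from
  `rc_mul_le` and `le_rc` (`T` is surjective: the inverse exists because `detT T ≠ 0`; explicitly
  `T` maps `(t₂₂, -t₂₁)/det`, `(-t₁₂, t₁₁)/det` to the basis vectors).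
* `rc_mulN`: `rc (fun u => k * N u) = k ^ 2 * rc N` for `0 ≤ k`.
* `lrc_near`: `N u ≤ N' u + ε ‖u‖ ≤ (1 + ε/c) N' u`, so by `rc_mono`
  `log rc N ≤ 2 log (1 + ε/c) + log rc N' ≤ 2 ε / c + log rc N'`; symmetric.
* `lc_continuousOn`: at `x ∈ U` choose a compact neighbourhood `closedBall x r ⊆ U`, `HP.bounds`
  gives `c`; by uniform continuity of `F` on `closedBall x r ×ˢ closedBall 0 1` for `y` near `x`:
  `|F y u - F x u| ≤ ε ‖u‖` for all `u` (homogeneity); now `lrc_near`.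
-/

namespace Pool.Agent.L1de93c

open MeasureTheory Metric Set

theorem RC_dt : dt ((1, 0) : V) (0, 1) = 1 := by simp [dt]

theorem RC_nonempty (N : V → ℝ) : {c : ℝ | ∃ u w : V, dt u w = 1 ∧ c = N u * N w}.Nonempty :=
  ⟨_, (1, 0), (0, 1), RC_dt, rfl⟩

theorem RC_bdd {N : V → ℝ} (h : ∀ u, 0 ≤ N u) :
    BddBelow {c : ℝ | ∃ u w : V, dt u w = 1 ∧ c = N u * N w} := by
  refine ⟨0, ?_⟩
  rintro c ⟨u, w, _, rfl⟩
  exact mul_nonneg (h u) (h w)

theorem RC_le {N : V → ℝ} (h : ∀ u, 0 ≤ N u) {u w : V} (hd : dt u w = 1) :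
    rc N ≤ N u * N w := csInf_le (RC_bdd h) ⟨u, w, hd, rfl⟩

theorem rc_mul_le {N : V → ℝ} (hN : NormV N) (u w : V) : rc N * |dt u w| ≤ N u * N w := by
  by_cases hd : dt u w = 0
  · rw [hd, abs_zero, mul_zero]
    exact mul_nonneg (hN.nonneg u) (hN.nonneg w)
  · have h1 : dt ((dt u w)⁻¹ • u) w = 1 := by
      rw [dt_smul_left, inv_mul_cancel₀ hd]
    have h2 := RC_le hN.nonneg h1
    rw [hN.smul, abs_inv, mul_assoc, le_inv_mul_iff₀ (abs_pos.2 hd)] at h2
    linarith

theorem le_rc {N : V → ℝ} {m : ℝ} (h : ∀ u w, dt u w = 1 → m ≤ N u * N w) : m ≤ rc N := by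
  refine le_csInf (RC_nonempty N) ?_
  rintro c ⟨u, w, hd, rfl⟩
  exact h u w hd

theorem rc_pos {N : V → ℝ} (hN : NormV N) : 0 < rc N := by
  obtain ⟨c, hc, h⟩ := hN.exists_lower
  have h1 : c ^ 2 / 2 ≤ rc N := by
    refine le_rc fun u w hd => ?_
    have h2 := abs_dt_le u w
    rw [hd, abs_one] at h2
    have h3 : c * ‖u‖ * (c * ‖w‖) ≤ N u * N w :=
      mul_le_mul (h u) (h w) (by positivity) (hN.nonneg u)
    nlinarith [sq_nonneg c, mul_pos hc hc]
  exact lt_of_lt_of_le (by positivity) h1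

theorem rc_mono {N N' : V → ℝ} (hN : NormV N) (hN' : NormV N') {k : ℝ} (hk : 0 ≤ k)
    (h : ∀ u, N u ≤ k * N' u) : rc N ≤ k ^ 2 * rc N' := by
  rcases hk.eq_or_lt with rfl | hk
  · have h1 := h (1, 0)
    rw [zero_mul] at h1
    exact absurd (hN.pos (1, 0) (by simp)) (not_lt.2 h1)
  · have h1 : rc N / k ^ 2 ≤ rc N' := by
      refine le_rc fun u w hd => ?_
      rw [div_le_iff₀ (by positivity)]
      have h2 := RC_le hN.nonneg hd
      have h3 : N u * N w ≤ (k * N' u) * (k * N' w) :=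
        mul_le_mul (h u) (h w) (hN.nonneg w) (mul_nonneg hk.le (hN'.nonneg u))
      linarith
    rw [div_le_iff₀ (by positivity)] at h1
    linarith

theorem RC_surj {T : V →L[ℝ] V} (hT : detT T ≠ 0) (z : V) : ∃ u, T u = z := by
  refine ⟨(detT T)⁻¹ • (dt z (T (0, 1)) • ((1, 0) : V) + dt (T (1, 0)) z • ((0, 1) : V)), ?_⟩
  rw [map_smul, map_add, map_smul, map_smul, ← expand, smul_smul]
  have h : (detT T)⁻¹ * dt (T (1, 0)) (T (0, 1)) = 1 := inv_mul_cancel₀ hT
  rw [h, one_smul]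

theorem rc_comp {N : V → ℝ} (hN : NormV N) {T : V →L[ℝ] V} (hT : detT T ≠ 0) :
    rc (fun u => N (T u)) = |detT T| * rc N := by
  have hp : 0 < |detT T| := abs_pos.2 hT
  apply le_antisymm
  · have h1 : rc (fun u => N (T u)) / |detT T| ≤ rc N := by
      refine le_rc fun a b hd => ?_
      obtain ⟨u, rfl⟩ := RC_surj hT a
      obtain ⟨w, rfl⟩ := RC_surj hT b
      rw [dt_map] at hd
      have h2 := rc_mul_le (hN.comp_map hT) u w
      have h3 : |detT T| * |dt u w| = 1 := by rw [← abs_mul, hd, abs_one]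
      have h4 : |dt u w| = 1 / |detT T| := by
        rw [eq_div_iff hp.ne', mul_comm]
        exact h3
      rw [h4] at h2
      rw [div_eq_mul_one_div]
      exact h2
    rw [div_le_iff₀ hp] at h1
    linarith
  · refine le_rc fun u w hd => ?_
    have h1 := rc_mul_le hN (T u) (T w)
    rw [dt_map, hd, mul_one] at h1
    linarith

theorem rc_mulN {N : V → ℝ} (hN : NormV N) {k : ℝ} (hk : 0 ≤ k) :
    rc (fun u => k * N u) = k ^ 2 * rc N := by
  rcases hk.eq_or_lt with rfl | hk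
  · apply le_antisymm
    · have h1 := RC_le (N := fun u => 0 * N u) (fun u => by simp) RC_dt
      simp only [zero_mul] at h1 ⊢
      simpa using h1
    · have h1 : (0 : ℝ) ≤ rc (fun u => 0 * N u) := le_rc fun u w _ => by simp
      simpa using h1
  · have hN' : NormV (fun u => k * N u) := by
      refine ⟨fun u hu => mul_pos hk (hN.pos u hu), fun a u => ?_, fun u v => ?_⟩
      · rw [hN.smul]
        ring
      · rw [← mul_add]
        exact mul_le_mul_of_nonneg_left (hN.add_le u v) hk.le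
    apply le_antisymm
    · exact rc_mono hN' hN hk.le fun u => le_rfl
    · have h1 := rc_mono hN hN' (inv_nonneg.2 hk.le) fun u => by
        rw [inv_mul_cancel_left₀ hk.ne']
      have h2 : k ^ 2 * (k⁻¹ ^ 2 * rc fun u => k * N u) = rc fun u => k * N u := by
        rw [← mul_assoc, ← mul_pow, mul_inv_cancel₀ hk.ne', one_pow, one_mul]
      rw [← h2]
      exact mul_le_mul_of_nonneg_left h1 (by positivity)

theorem RC_half {N N' : V → ℝ} (hN : NormV N) (hN' : NormV N') {c ε : ℝ} (hc : 0 < c)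
    (hε : 0 ≤ ε) (h2 : ∀ u, c * ‖u‖ ≤ N' u)
    (h : ∀ u, |N u - N' u| ≤ ε * ‖u‖) : Real.log (rc N) - Real.log (rc N') ≤ 2 * ε / c := by
  have hk : 0 < 1 + ε / c := by positivity
  have h3 : ∀ u, N u ≤ (1 + ε / c) * N' u := by
    intro u
    have h4 := (abs_le.1 (h u)).2
    have h5 : ε * ‖u‖ ≤ ε / c * N' u := by
      have h6 := mul_le_mul_of_nonneg_left (h2 u) (div_nonneg hε hc.le)
      have h7 : ε / c * (c * ‖u‖) = ε * ‖u‖ := by
        field_simp
      linarith
    linarith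
  have h4 := rc_mono hN hN' hk.le h3
  have h5 := Real.log_le_log (rc_pos hN) h4
  rw [Real.log_mul (by positivity) (rc_pos hN').ne', Real.log_pow] at h5
  have h6 := Real.log_le_sub_one_of_pos hk
  push_cast at h5
  have h7 : 2 * ε / c = 2 * (1 + ε / c - 1) := by ring
  rw [h7]
  linarith

theorem lrc_near {N N' : V → ℝ} (hN : NormV N) (hN' : NormV N') {c ε : ℝ} (hc : 0 < c)
    (hε : 0 ≤ ε) (h1 : ∀ u, c * ‖u‖ ≤ N u) (h2 : ∀ u, c * ‖u‖ ≤ N' u)
    (h : ∀ u, |N u - N' u| ≤ ε * ‖u‖) : |Real.log (rc N) - Real.log (rc N')| ≤ 2 * ε / c := by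
  rw [abs_le]
  constructor
  · have h3 := RC_half hN' hN hc hε h1 fun u => by
      rw [abs_sub_comm]
      exact h u
    linarith
  · exact RC_half hN hN' hc hε h2 h

theorem RC_unif {U : Set V} {F : V → V → ℝ} (h : HP U F) {x : V} (hx : x ∈ U) {ε : ℝ}
    (hε : 0 < ε) : ∀ᶠ y in nhds x, ∀ u, |F y u - F x u| ≤ ε * ‖u‖ := by
  have h1 : ∀ᶠ y in nhds x, ∀ u ∈ sphere (0 : V) 1, |F y u - F x u| < ε := by
    refine (isCompact_sphere (0 : V) 1).eventually_forall_of_forall_eventually ?_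
    intro u _
    have h2 : ContinuousAt (fun z : V × V => |F z.1 z.2 - F x z.2|) (x, u) := by
      have h3 : ContinuousAt (fun z : V × V => F x z.2) (x, u) :=
        ((h.norm x hx).continuous.comp continuous_snd).continuousAt
      exact ((h.continuousAt hx u).sub h3).abs
    refine h2.eventually_lt continuousAt_const ?_
    simpa using hε
  filter_upwards [h1, h.isOpen.mem_nhds hx] with y hy hyU u
  have hNx := h.norm x hx
  have hNy := h.norm y hyU
  by_cases hu : u = 0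
  · rw [hu, hNx.zero, hNy.zero, norm_zero]
    simp
  have hn : 0 < ‖u‖ := norm_pos_iff.mpr hu
  have h3 : ‖u‖⁻¹ • u ∈ sphere (0 : V) 1 := by
    rw [mem_sphere_zero_iff_norm, norm_smul, norm_inv, norm_norm, inv_mul_cancel₀ hn.ne']
  have h4 := (hy _ h3).le
  rw [hNx.smul_nonneg (inv_nonneg.mpr hn.le), hNy.smul_nonneg (inv_nonneg.mpr hn.le), ← mul_sub,
    abs_mul, abs_of_pos (inv_pos.2 hn), inv_mul_le_iff₀ hn, mul_comm] at h4
  exact h4

theorem lc_continuousOn {U : Set V} {F : V → V → ℝ} (h : HP U F) : ContinuousOn (lc F) U := by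
  intro x hx
  apply ContinuousAt.continuousWithinAt
  obtain ⟨r, hr, hrU⟩ := Metric.nhds_basis_closedBall.mem_iff.1 (h.isOpen.mem_nhds hx)
  obtain ⟨c, hc, C, _, hb⟩ := h.bounds (isCompact_closedBall x r) hrU
  rw [Metric.continuousAt_iff']
  intro η hη
  filter_upwards [RC_unif h hx (ε := c * η / 4) (by positivity), closedBall_mem_nhds x hr]
    with y hy hyr
  have h1 := lrc_near (h.norm y (hrU hyr)) (h.norm x hx) hc (by positivity)
    (fun u => (hb y hyr u).1) (fun u => (hb x (mem_closedBall_self hr.le) u).1) hy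
  rw [Real.dist_eq]
  refine lt_of_le_of_lt h1 ?_
  have h2 : 2 * (c * η / 4) / c = η / 2 := by
    field_simp
    ring
  rw [h2]
  linarith

end Pool.Agent.L1de93c
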