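import Pool.Agent.Lib_MP_1de93e_cont.RC

/-!
# PIECE RDU1: Radon norms: the product formula

Let `N` be a norm with `SB N` and `S = {N = 1}` (compact).
For `u ∈ S` let `D u = max_{y ∈ S} dt u y > 0`.

(1) If `v ∈ S` attains `D u` then `Bk N v u`: `dt u (v + s u) = dt u v`, so `N (v + s u) < 1` would
give a larger value after normalisation. By `SB`, `Bk N u v`. Conversely, if `u, w ∈ S`,
`dt u w > 0` and `Bk N u w`, then also `Bk N w u`, and for `y = α u + β w ∈ S`: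
`1 = N y ≥ |α| N u` (as `Bk N u w`) and `1 ≥ |β| N w` (as `Bk N w u`), so `|α|, |β| ≤ 1` and
`dt u y = β dt u w ≤ dt u w`, `dt y w = α dt u w ≤ dt u w`: `w` attains `D u`, and `u` maximises
`dt · w` over `S`.

(2) Let `v`, `v'` attain `D u`, `D u'`. By (1), `dt u v' ≤ dt u v`, `dt u' v ≤ dt u' v'`, and
(`u` maximises `dt · v`, `u'` maximises `dt · v'`) `dt u' v ≤ dt u v`, `dt u v' ≤ dt u' v'`. Hence
`|D u - D u'| ≤ dt (u - u') (v - v')`: if `D u ≥ D u'` the right side is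
`D u + D u' - dt u v' - dt u' v` and `dt u v' + dt u' v ≤ 2 D u'`.

(3) `D` is constant: the function `φ u = D (u / N u)` has Fréchet derivative zero at every `u ≠ 0`:
the maximisers depend upper semicontinuously on `u`, so for `u'` near `u` and a maximiser `v'` for
`u'` there is a maximiser `v` for `u` with `‖v - v'‖ < η`, and (2) bounds the difference by
`2 ‖u / N u - u' / N u'‖ η`. The complement of `0` is connected.

(4) For all `u, w`: `|dt u w| ≤ D₀ N u N w` (normalise); so `rc N ≥ 1/D₀` (`le_rc`), and for a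
maximiser pair `rc N * dt u v ≤ N u N v = 1` gives `rc N ≤ 1/D₀`. So `rc N = 1/D₀`.
`radon_eq`: trivial if `u = 0` or `w = 0`. `dt u w ≠ 0` (if `w = a u`, `a ≠ 0`, then
`N (u - a⁻¹ w) = 0 < N u`). Normalise `u, w ∈ S` and change the sign of `w` so that `dt u w > 0`
(`Bk` is invariant); by (1) `dt u w = D₀`, so `N u N w = 1 = rc N dt u w`.
-/

namespace Pool.Agent.L1de93c

open MeasureTheory Metric Set

/-- `v` maximises `dt u` on the unit sphere of `N` (homogeneous form) -/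
private def RDU1_P (N : V → ℝ) (u v : V) : Prop := N v = 1 ∧ ∀ y, dt u y ≤ dt u v * N y

private theorem RDU1_cont (u : V) : Continuous (fun y => dt u y) := by
  unfold dt
  fun_prop

private theorem RDU1_rot {u : V} (hu : u ≠ 0) : 0 < dt u (-u.2, u.1) := by
  have h : dt u (-u.2, u.1) = u.1 ^ 2 + u.2 ^ 2 := by
    simp only [dt]; ring
  rw [h]
  rcases eq_or_ne u.1 0 with h1 | h1
  · have h2 : u.2 ≠ 0 := fun h2 => hu (Prod.ext h1 h2)
    positivity
  · positivity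

private theorem RDU1_compact {N : V → ℝ} (hN : NormV N) : IsCompact {v : V | N v = 1} := by
  obtain ⟨c, hc, hlow⟩ := hN.exists_lower
  refine (isCompact_closedBall (0 : V) (1 / c)).of_isClosed_subset
    (isClosed_eq hN.continuous continuous_const) ?_
  intro v hv
  rw [mem_closedBall_zero_iff, le_div_iff₀ hc, mul_comm]
  have h1 : N v = 1 := hv
  rw [← h1]
  exact hlow v

private theorem RDU1_ex {N : V → ℝ} (hN : NormV N) (u : V) : ∃ v, RDU1_P N u v := by
  have h0 : N (1, 0) ≠ 0 := (hN.pos (1, 0) (by simp)).ne'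
  have hne : {v : V | N v = 1}.Nonempty := by
    refine ⟨(N (1, 0))⁻¹ • ((1, 0) : V), ?_⟩
    show N _ = 1
    rw [hN.smul_nonneg (inv_nonneg.2 (hN.nonneg _)), inv_mul_cancel₀ h0]
  obtain ⟨v, hv, hmax⟩ := (RDU1_compact hN).exists_isMaxOn hne (RDU1_cont u).continuousOn
  refine ⟨v, hv, fun y => ?_⟩
  by_cases hy : y = 0
  · rw [hy, hN.zero, mul_zero]
    simp [dt]
  have hNy : 0 < N y := hN.pos y hy
  have h1 : (N y)⁻¹ • y ∈ {v : V | N v = 1} := by
    show N _ = 1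
    rw [hN.smul_nonneg (inv_nonneg.2 hNy.le), inv_mul_cancel₀ hNy.ne']
  have h2 : dt u ((N y)⁻¹ • y) ≤ dt u v := hmax h1
  rw [dt_smul_right, inv_mul_le_iff₀ hNy, mul_comm] at h2
  exact h2

private theorem RDU1_pos {N : V → ℝ} (hN : NormV N) {u v : V} (hu : u ≠ 0) (h : RDU1_P N u v) :
    0 < dt u v := by
  have h1 := RDU1_rot hu
  have h2 := h.2 (-u.2, u.1)
  by_contra h3
  have h4 := mul_nonpos_of_nonpos_of_nonneg (not_lt.1 h3) (hN.nonneg (-u.2, u.1))
  linarith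

private theorem RDU1_bk {N : V → ℝ} (hN : NormV N) {u v : V} (hu : u ≠ 0) (h : RDU1_P N u v) :
    Bk N v u := by
  intro s
  have hp := RDU1_pos hN hu h
  have h1 := h.2 (v + s • u)
  rw [dt_add_right, dt_smul_right, dt_self, mul_zero, add_zero] at h1
  rw [h.1]
  by_contra h2
  have h3 := mul_lt_mul_of_pos_left (not_le.1 h2) hp
  linarith

/-- lower bound of the norm of a combination -/
private theorem RDU1_low {N : V → ℝ} (hN : NormV N) {u w : V} (h : Bk N u w) (α β : ℝ) :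
    |α| * N u ≤ N (α • u + β • w) := by
  by_cases hα : α = 0
  · rw [hα, abs_zero, zero_mul]
    exact hN.nonneg _
  have h1 : α • u + β • w = α • (u + (α⁻¹ * β) • w) := by
    rw [smul_add, smul_smul, mul_inv_cancel_left₀ hα]
  rw [h1, hN.smul]
  exact mul_le_mul_of_nonneg_left (h _) (abs_nonneg _)

private theorem RDU1_expand {u v : V} (h : 0 < dt u v) (y : V) :
    y = (dt y v / dt u v) • u + (dt u y / dt u v) • v := by
  have h1 := expand u v y
  have h2 : (dt u v)⁻¹ • (dt u v • y) = y := by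
    rw [smul_smul, inv_mul_cancel₀ h.ne', one_smul]
  calc y = (dt u v)⁻¹ • (dt u v • y) := h2.symm
    _ = (dt u v)⁻¹ • (dt y v • u + dt u y • v) := by rw [h1]
    _ = _ := by rw [smul_add, smul_smul, smul_smul, div_eq_inv_mul, div_eq_inv_mul]

/-- `u` maximises `dt · v` -/
private theorem RDU1_dual {N : V → ℝ} (hN : NormV N) (hs : SB N) {u v : V} (hu : N u = 1)
    (h : RDU1_P N u v) (y : V) : dt y v ≤ dt u v * N y := by
  have hu0 : u ≠ 0 := by
    rintro rfl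
    rw [hN.zero] at hu
    exact zero_ne_one hu
  have hp := RDU1_pos hN hu0 h
  have h1 : Bk N u v := hs _ _ (RDU1_bk hN hu0 h)
  have h2 := RDU1_low hN h1 (dt y v / dt u v) (dt u y / dt u v)
  rw [← RDU1_expand hp y, hu, mul_one] at h2
  have h3 := (le_abs_self _).trans h2
  rw [div_le_iff₀ hp] at h3
  linarith

private theorem RDU1_conv {N : V → ℝ} (hN : NormV N) (hs : SB N) {u w : V} (hw : N w = 1)
    (hp : 0 < dt u w) (h : Bk N u w) : RDU1_P N u w := by
  refine ⟨hw, fun y => ?_⟩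
  have h1 : Bk N w u := hs _ _ h
  have h2 := RDU1_low hN h1 (dt u y / dt u w) (dt y w / dt u w)
  rw [add_comm, ← RDU1_expand hp y, hw, mul_one] at h2
  have h3 := (le_abs_self _).trans h2
  rw [div_le_iff₀ hp] at h3
  linarith

private theorem RDU1_diff {N : V → ℝ} (hN : NormV N) (hs : SB N) {u v u' v' : V} (hu : N u = 1)
    (hu' : N u' = 1) (h : RDU1_P N u v) (h' : RDU1_P N u' v') :
    |dt u v - dt u' v'| ≤ dt (u - u') (v - v') := by
  have a1 := h.2 v'
  have a2 := h'.2 v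
  have a3 := RDU1_dual hN hs hu h u'
  have a4 := RDU1_dual hN hs hu' h' u
  rw [h'.1, mul_one] at a1
  rw [h.1, mul_one] at a2
  rw [hu', mul_one] at a3
  rw [hu, mul_one] at a4
  have e : dt (u - u') (v - v') = dt u v + dt u' v' - dt u v' - dt u' v := by
    simp only [dt, Prod.fst_sub, Prod.snd_sub]
    ring
  rw [e, abs_le]
  constructor <;> linarith

/-- upper semicontinuity of the maximisers -/
private theorem RDU1_uhc {N : V → ℝ} (hN : NormV N) (u₀ : V) {η : ℝ} (hη : 0 < η) :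
    ∃ δ > 0, ∀ u, ‖u - u₀‖ < δ → ∀ v', RDU1_P N u v' → ∃ v, RDU1_P N u₀ v ∧ ‖v - v'‖ < η := by
  set B : Set V := {v : V | N v = 1} ∩ {v : V | ∀ w, RDU1_P N u₀ w → η ≤ ‖w - v‖} with hB
  have hBc : IsCompact B := by
    refine (RDU1_compact hN).inter_right ?_
    have : {v : V | ∀ w, RDU1_P N u₀ w → η ≤ ‖w - v‖} =
        ⋂ w, ⋂ _ : RDU1_P N u₀ w, {v : V | η ≤ ‖w - v‖} := by
      ext v
      simp
    rw [this]
    refine isClosed_iInter fun w => isClosed_iInter fun _ => ?_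
    exact isClosed_le continuous_const (by fun_prop)
  by_cases hne : B.Nonempty
  swap
  · refine ⟨1, one_pos, fun u _ v' hv' => ?_⟩
    by_contra hcon
    push Not at hcon
    exact hne ⟨v', hv'.1, fun w hw => hcon w hw⟩
  obtain ⟨b, hb, hmax⟩ := hBc.exists_isMaxOn hne (RDU1_cont u₀).continuousOn
  obtain ⟨v₀, hv₀⟩ := RDU1_ex hN u₀
  obtain ⟨c, hc, hlow⟩ := hN.exists_lower
  have hg : dt u₀ b < dt u₀ v₀ := by
    by_contra hcon
    have hcon' := not_lt.1 hcon
    have hPb : RDU1_P N u₀ b := by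
      refine ⟨hb.1, fun y => (hv₀.2 y).trans ?_⟩
      exact mul_le_mul_of_nonneg_right hcon' (hN.nonneg y)
    have := hb.2 b hPb
    rw [sub_self, norm_zero] at this
    linarith
  have hR : ∀ v : V, N v = 1 → ‖v‖ ≤ 1 / c := by
    intro v hv
    rw [le_div_iff₀ hc, mul_comm, ← hv]
    exact hlow v
  refine ⟨(dt u₀ v₀ - dt u₀ b) * c / 4, by
    have : 0 < dt u₀ v₀ - dt u₀ b := by linarith
    positivity, fun u hu v' hv' => ?_⟩
  by_contra hcon
  push Not at hcon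
  have hv'B : v' ∈ B := ⟨hv'.1, fun w hw => hcon w hw⟩
  have e1 : dt u₀ v' ≤ dt u₀ b := hmax hv'B
  have e2 := hv'.2 v₀
  rw [hv₀.1, mul_one] at e2
  have e3 : |dt (u - u₀) v'| ≤ 2 * ‖u - u₀‖ * (1 / c) :=
    (abs_dt_le _ _).trans (mul_le_mul_of_nonneg_left (hR v' hv'.1) (by positivity))
  have e4 : |dt (u - u₀) v₀| ≤ 2 * ‖u - u₀‖ * (1 / c) :=
    (abs_dt_le _ _).trans (mul_le_mul_of_nonneg_left (hR v₀ hv₀.1) (by positivity))
  have e5 : dt (u - u₀) v' = dt u v' - dt u₀ v' := by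
    simp only [dt, Prod.fst_sub, Prod.snd_sub]; ring
  have e6 : dt (u - u₀) v₀ = dt u v₀ - dt u₀ v₀ := by
    simp only [dt, Prod.fst_sub, Prod.snd_sub]; ring
  rw [e5] at e3
  rw [e6] at e4
  have e7 := (abs_le.1 e3).2
  have e8 := (abs_le.1 e4).1
  have e9 : 2 * ‖u - u₀‖ * (1 / c) < (dt u₀ v₀ - dt u₀ b) / 2 := by
    have : 2 * ‖u - u₀‖ * (1 / c) < 2 * ((dt u₀ v₀ - dt u₀ b) * c / 4) * (1 / c) := by
      apply mul_lt_mul_of_pos_right _ (by positivity)
      linarith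
    calc _ < 2 * ((dt u₀ v₀ - dt u₀ b) * c / 4) * (1 / c) := this
      _ = (dt u₀ v₀ - dt u₀ b) / 2 := by field_simp; ring
  linarith

/-- normalisation -/
private noncomputable def RDU1_n (N : V → ℝ) (u : V) : V := (N u)⁻¹ • u

private theorem RDU1_n_one {N : V → ℝ} (hN : NormV N) {u : V} (hu : u ≠ 0) :
    N (RDU1_n N u) = 1 := by
  have h := hN.pos u hu
  rw [RDU1_n, hN.smul_nonneg (inv_nonneg.2 h.le), inv_mul_cancel₀ h.ne']

private theorem RDU1_n_lip {N : V → ℝ} (hN : NormV N) {u₀ : V} (hu₀ : u₀ ≠ 0) :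
    ∃ C > 0, ∀ᶠ u in nhds u₀, ‖RDU1_n N u - RDU1_n N u₀‖ ≤ C * ‖u - u₀‖ := by
  have h0 := hN.pos u₀ hu₀
  obtain ⟨c, hc, hlow⟩ := hN.exists_lower
  set C' := N (1, 0) + N (0, 1) with hC'
  have hC'0 : 0 ≤ C' := add_nonneg (hN.nonneg _) (hN.nonneg _)
  refine ⟨2 / N u₀ * (1 + C' / c), by positivity, ?_⟩
  have hev : ∀ᶠ u in nhds u₀, N u₀ / 2 < N u :=
    hN.continuous.continuousAt.eventually (lt_mem_nhds (by linarith))
  filter_upwards [hev] with u hu
  have hNu : 0 < N u := by linarith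
  have e1 : RDU1_n N u - RDU1_n N u₀ =
      (N u)⁻¹ • (u - u₀) + ((N u)⁻¹ - (N u₀)⁻¹) • u₀ := by
    rw [RDU1_n, RDU1_n, smul_sub, sub_smul]
    abel
  have e2 : |(N u)⁻¹ - (N u₀)⁻¹| ≤ (N u)⁻¹ * (N u₀)⁻¹ * (C' * ‖u - u₀‖) := by
    have : (N u)⁻¹ - (N u₀)⁻¹ = (N u)⁻¹ * (N u₀)⁻¹ * (N u₀ - N u) := by
      field_simp
    rw [this, abs_mul, abs_of_pos (by positivity : 0 < (N u)⁻¹ * (N u₀)⁻¹)]
    refine mul_le_mul_of_nonneg_left ?_ (by positivity)
    rw [abs_sub_comm]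
    exact (hN.abs_sub_le u u₀).trans (hN.le_mul_norm _)
  have e3 : ‖u₀‖ ≤ N u₀ / c := by
    rw [le_div_iff₀ hc, mul_comm]
    exact hlow u₀
  have e4 : (N u)⁻¹ ≤ 2 / N u₀ := by
    rw [inv_le_comm₀ hNu (by positivity), inv_div]
    exact hu.le
  calc ‖RDU1_n N u - RDU1_n N u₀‖ = ‖(N u)⁻¹ • (u - u₀) + ((N u)⁻¹ - (N u₀)⁻¹) • u₀‖ := by rw [e1]
    _ ≤ ‖(N u)⁻¹ • (u - u₀)‖ + ‖((N u)⁻¹ - (N u₀)⁻¹) • u₀‖ := norm_add_le _ _
    _ = (N u)⁻¹ * ‖u - u₀‖ + |(N u)⁻¹ - (N u₀)⁻¹| * ‖u₀‖ := by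
        rw [norm_smul, norm_smul, Real.norm_eq_abs, Real.norm_eq_abs,
          abs_of_pos (inv_pos.2 hNu)]
    _ ≤ (N u)⁻¹ * ‖u - u₀‖ + ((N u)⁻¹ * (N u₀)⁻¹ * (C' * ‖u - u₀‖)) * (N u₀ / c) := by
        have := mul_le_mul e2 e3 (norm_nonneg _) (by positivity)
        linarith
    _ = (N u)⁻¹ * ((1 + C' / c) * ‖u - u₀‖) := by
        field_simp
    _ ≤ 2 / N u₀ * ((1 + C' / c) * ‖u - u₀‖) :=
        mul_le_mul_of_nonneg_right e4 (by positivity)
    _ = 2 / N u₀ * (1 + C' / c) * ‖u - u₀‖ := by ring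

/-- the maximum is the same for all unit vectors -/
private theorem RDU1_const {N : V → ℝ} (hN : NormV N) (hs : SB N) :
    ∃ D > 0, ∀ u v, N u = 1 → RDU1_P N u v → dt u v = D := by
  choose m hm using RDU1_ex hN
  set φ : V → ℝ := fun u => dt (RDU1_n N u) (m (RDU1_n N u)) with hφ
  have hval : ∀ u v v', RDU1_P N u v → RDU1_P N u v' → dt u v = dt u v' := by
    intro u v v' h h'
    have h1 := h.2 v'
    have h2 := h'.2 v
    rw [h'.1, mul_one] at h1
    rw [h.1, mul_one] at h2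
    linarith
  have hder : ∀ u₀ : V, u₀ ≠ 0 → HasFDerivAt φ (0 : V →L[ℝ] ℝ) u₀ := by
    intro u₀ hu₀
    obtain ⟨C, hC, hlip⟩ := RDU1_n_lip hN hu₀
    refine HasFDerivAt.of_isLittleO ?_
    rw [Asymptotics.isLittleO_iff]
    intro ε hε
    obtain ⟨δ, hδ, hu⟩ := RDU1_uhc hN (RDU1_n N u₀) (η := ε / (2 * C)) (by positivity)
    have h1 : ∀ᶠ u in nhds u₀, ‖u - u₀‖ < δ / C := by
      have : ∀ᶠ u in nhds u₀, dist u u₀ < δ / C :=
        Metric.eventually_nhds_iff.2 ⟨δ / C, by positivity, fun _ h => h⟩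
      simpa only [dist_eq_norm] using this
    have h2 : ∀ᶠ u : V in nhds u₀, u ≠ 0 := isOpen_ne.mem_nhds hu₀
    filter_upwards [hlip, h1, h2] with u hu1 hu2 hu3
    have h3 : ‖RDU1_n N u - RDU1_n N u₀‖ < δ := by
      refine hu1.trans_lt ?_
      rw [lt_div_iff₀ hC] at hu2
      linarith
    obtain ⟨v, hv, hvv⟩ := hu _ h3 _ (hm (RDU1_n N u))
    have h4 := RDU1_diff hN hs (RDU1_n_one hN hu3) (RDU1_n_one hN hu₀) (hm (RDU1_n N u)) hv
    have h5 : φ u - φ u₀ - (0 : V →L[ℝ] ℝ) (u - u₀) =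
        dt (RDU1_n N u) (m (RDU1_n N u)) - dt (RDU1_n N u₀) v := by
      show dt (RDU1_n N u) (m (RDU1_n N u)) - dt (RDU1_n N u₀) (m (RDU1_n N u₀)) -
        (0 : V →L[ℝ] ℝ) (u - u₀) = _
      rw [hval _ _ _ (hm (RDU1_n N u₀)) hv]
      simp
    rw [h5, Real.norm_eq_abs]
    refine h4.trans ((le_abs_self _).trans ((abs_dt_le _ _).trans ?_))
    have h6 : ‖m (RDU1_n N u) - v‖ ≤ ε / (2 * C) := by
      rw [norm_sub_rev]
      exact hvv.le
    calc 2 * ‖RDU1_n N u - RDU1_n N u₀‖ * ‖m (RDU1_n N u) - v‖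
        ≤ 2 * (C * ‖u - u₀‖) * (ε / (2 * C)) := by gcongr
      _ = ε * ‖u - u₀‖ := by field_simp
  have hconn : IsPreconnected ({0}ᶜ : Set V) := by
    refine (isConnected_compl_singleton_of_one_lt_rank ?_ (0 : V)).isPreconnected
    rw [← Module.finrank_eq_rank]
    have : Module.finrank ℝ V = 2 := by simp [Module.finrank_prod]
    rw [this]
    norm_num
  have hcst : ∀ x y : V, x ≠ 0 → y ≠ 0 → φ x = φ y := by
    intro x y hx hy
    refine isOpen_compl_singleton.is_const_of_fderiv_eq_zero (𝕜 := ℝ) hconn ?_ ?_ hx hy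
    · intro z hz
      exact (hder z hz).differentiableAt.differentiableWithinAt
    · intro z hz
      exact (hder z hz).fderiv
  have he0 : ((1, 0) : V) ≠ 0 := by simp
  have hne : ∀ {u : V}, N u = 1 → u ≠ 0 := by
    rintro u hu rfl
    rw [hN.zero] at hu
    exact zero_ne_one hu
  refine ⟨φ (1, 0), ?_, ?_⟩
  · exact RDU1_pos hN (hne (RDU1_n_one hN he0)) (hm _)
  · intro u v hu hv
    have h1 := hcst u (1, 0) (hne hu) he0
    rw [← h1]
    have h2 : RDU1_n N u = u := by rw [RDU1_n, hu, inv_one, one_smul]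
    show dt u v = dt (RDU1_n N u) (m (RDU1_n N u))
    rw [h2]
    exact hval _ _ _ hv (hm u)

private theorem RDU1_main {N : V → ℝ} (hN : NormV N) (hs : SB N) {u w : V} (h : Bk N u w)
    (hu : u ≠ 0) (hw : w ≠ 0) (hp : 0 < dt u w) : N u * N w = rc N * dt u w := by
  obtain ⟨D, hD, hcst⟩ := RDU1_const hN hs
  have hle : ∀ a b : V, dt a b ≤ D * (N a * N b) := by
    intro a b
    by_cases ha : a = 0
    · rw [ha, hN.zero]
      simp [dt]
    have hNa := hN.pos a ha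
    obtain ⟨v, hv⟩ := RDU1_ex hN (RDU1_n N a)
    have h1 := hcst _ _ (RDU1_n_one hN ha) hv
    have h2 := hv.2 b
    rw [h1, RDU1_n, dt_smul_left, inv_mul_le_iff₀ hNa] at h2
    linarith
  have hrc1 : 1 / D ≤ rc N := by
    refine le_rc fun a b hab => ?_
    have := hle a b
    rw [hab] at this
    rw [div_le_iff₀ hD]
    linarith
  have hrc2 : rc N * D ≤ 1 := by
    have he0 : ((1, 0) : V) ≠ 0 := by simp
    obtain ⟨v, hv⟩ := RDU1_ex hN (RDU1_n N (1, 0))
    have h1 := hcst _ _ (RDU1_n_one hN he0) hv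
    have h2 := rc_mul_le hN (RDU1_n N (1, 0)) v
    rw [h1, abs_of_pos hD, RDU1_n_one hN he0, hv.1, mul_one] at h2
    exact h2
  have hrc : rc N * D = 1 := by
    rw [div_le_iff₀ hD] at hrc1
    linarith
  have hNu := hN.pos u hu
  have hNw := hN.pos w hw
  have hdt : dt (RDU1_n N u) (RDU1_n N w) = (N u)⁻¹ * ((N w)⁻¹ * dt u w) := by
    rw [RDU1_n, RDU1_n, dt_smul_left, dt_smul_right]
  have hbk : Bk N (RDU1_n N u) (RDU1_n N w) := by
    intro s
    have h1 : RDU1_n N u + s • RDU1_n N w = (N u)⁻¹ • (u + (N u * s * (N w)⁻¹) • w) := by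
      rw [RDU1_n, RDU1_n, smul_add, smul_smul, smul_smul]
      congr 2
      field_simp
    rw [h1, hN.smul_nonneg (inv_nonneg.2 hNu.le), RDU1_n, hN.smul_nonneg (inv_nonneg.2 hNu.le)]
    exact mul_le_mul_of_nonneg_left (h _) (inv_nonneg.2 hNu.le)
  have hpos : 0 < dt (RDU1_n N u) (RDU1_n N w) := by
    rw [hdt]
    positivity
  have hP := RDU1_conv hN hs (RDU1_n_one hN hw) hpos hbk
  have h1 := hcst _ _ (RDU1_n_one hN hu) hP
  rw [hdt] at h1
  have h2 : dt u w = D * (N u * N w) := by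
    rw [← h1]
    field_simp
  rw [h2, ← mul_assoc, hrc, one_mul]

theorem radon_eq {N : V → ℝ} (hN : NormV N) (hs : SB N) {u w : V} (h : Bk N u w) :
    N u * N w = rc N * |dt u w| := by
  by_cases hu : u = 0
  · rw [hu, hN.zero]
    simp [dt]
  by_cases hw : w = 0
  · rw [hw, hN.zero]
    simp [dt]
  have hne : dt u w ≠ 0 := by
    intro h0
    have hex : ∃ a : ℝ, w = a • u := by
      have h0' : u.1 * w.2 - u.2 * w.1 = 0 := h0
      by_cases h1 : u.1 = 0
      · have h2 : u.2 ≠ 0 := fun h2 => hu (Prod.ext h1 h2)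
        refine ⟨w.2 / u.2, Prod.ext ?_ ?_⟩
        · rw [h1, zero_mul, zero_sub, neg_eq_zero] at h0'
          have h3 := (mul_eq_zero.1 h0').resolve_left h2
          rw [Prod.smul_fst, h1, h3, smul_zero]
        · rw [Prod.smul_snd, smul_eq_mul, div_mul_cancel₀ _ h2]
      · refine ⟨w.1 / u.1, Prod.ext ?_ ?_⟩
        · rw [Prod.smul_fst, smul_eq_mul, div_mul_cancel₀ _ h1]
        · rw [Prod.smul_snd, smul_eq_mul]
          field_simp
          linarith
    obtain ⟨a, rfl⟩ := hex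
    have ha : a ≠ 0 := by
      rintro rfl
      exact hw (zero_smul _ _)
    have h1 := h (-a⁻¹)
    rw [smul_smul, neg_mul, inv_mul_cancel₀ ha, neg_one_smul, add_neg_cancel, hN.zero] at h1
    exact absurd (hN.pos u hu) (not_lt.2 h1)
  rcases lt_or_gt_of_ne hne with hlt | hgt
  · have h1 : Bk N u (-w) := by
      intro s
      have h2 := h (-s)
      rwa [neg_smul, ← smul_neg] at h2
    have h3 : dt u (-w) = -dt u w := by
      simp only [dt, Prod.fst_neg, Prod.snd_neg]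
      ring
    have h2 := RDU1_main hN hs h1 hu (neg_ne_zero.2 hw) (by rw [h3]; linarith)
    rw [hN.neg, h3] at h2
    rw [abs_of_neg hlt]
    exact h2
  · rw [abs_of_pos hgt]
    exact RDU1_main hN hs h hu hw hgt

end Pool.Agent.L1de93c
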