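import Pool.Agent.Lib_MP_1de93e_cont.RDual

/-!
# PIECE RSE: a Radon norm which is not differentiable is linear on an open sector

Let `N` be not differentiable at `u ≠ 0`, `z` a vector with `dt u z ≠ 0`, `f t = N (u + t z)`
(convex). If `f` were differentiable at `0` then `N` would be differentiable at `u`: near `u` every
vector is `(1 + α) u + β z` with `α, β` linear functions of the increment, and
`N ((1 + α) u + β z) = (1 + α) f (β / (1 + α))`. So the one-sided derivatives satisfy `a₋ < a₊`.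
For `a ∈ [a₋, a₊]` convexity gives `N (u + t z) ≥ N u + a t` for all `t`. Let `ℓ` be the linear
form with `ℓ u = N u`, `ℓ z = a`. Then `ℓ ≤ N`: on `{α u + β z, α > 0}` by homogeneity, and in
general `N y ≥ N (y + M u) - M N u ≥ ℓ (y + M u) - M ℓ u = ℓ y` for `M` large. Let
`v a = z - (a / N u) u`; `ℓ (v a) = 0`, so `N (u + s v a) ≥ ℓ (u + s v a) = N u`: `Bk N u (v a)`.
By `radon_eq`: `N u * N (v a) = rc N * |dt u z|`, so `N (v a) = K` for all `a ∈ [a₋, a₊]`. Hence
`N (α v a₋ + β v a₊) = (α + β) N (v a') = (α + β) K = α N (v a₋) + β N (v a₊)` for `α, β ≥ 0`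
(`a' = (α a₋ + β a₊) / (α + β)`). The open cone `{α v a₋ + β v a₊ : α, β > 0}` is open and nonempty,
so it contains two rational vectors `p, q` with `dt p q ≠ 0` (rational points are dense: choose `p`
near `v a₋ + 2 v a₊` and `q` near `2 v a₋ + v a₊`), and `N` is additive on this cone.
-/

namespace Pool.Agent.L1de93c

open MeasureTheory Metric Set

/-- The real vector of a rational vector. -/
def cQ (p : ℚ × ℚ) : V := ((p.1 : ℝ), (p.2 : ℝ))

private theorem rse_mid {N : V → ℝ} (hN : NormV N) {u z : V} (hu : N u ≠ 0) {a : ℝ}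
    (ha : ∀ t : ℝ, N u + a * t ≤ N (u + t • z)) : Bk N u (z - (a / N u) • u) := by
  have hNu : 0 < N u := lt_of_le_of_ne (hN.nonneg u) (Ne.symm hu)
  have hconv : ConvexOn ℝ univ (fun s : ℝ => N (u + s • (z - (a / N u) • u))) := by
    refine ⟨convex_univ, fun x _ y _ p q hp hq hpq => ?_⟩
    have e : u + (p • x + q • y) • (z - (a / N u) • u) =
        p • (u + x • (z - (a / N u) • u)) + q • (u + y • (z - (a / N u) • u)) := by
      have e1 : u = p • u + q • u := by rw [← add_smul, hpq, one_smul]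
      rw [smul_eq_mul, smul_eq_mul, add_smul, mul_smul, mul_smul, smul_add, smul_add]
      nth_rewrite 1 [e1]
      abel
    show N (u + (p • x + q • y) • (z - (a / N u) • u)) ≤ _
    rw [e]
    refine (hN.add_le _ _).trans ?_
    rw [hN.smul_nonneg hp, hN.smul_nonneg hq, smul_eq_mul, smul_eq_mul]
  have hloc : IsLocalMin (fun s : ℝ => N (u + s • (z - (a / N u) • u))) 0 := by
    have h1 : ∀ᶠ s : ℝ in nhds 0, 0 < 1 - s * (a / N u) := by
      have h2 : Continuous (fun s : ℝ => 1 - s * (a / N u)) := by fun_prop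
      exact (h2.tendsto 0).eventually_const_lt (by simp)
    filter_upwards [h1] with s hs
    have e : u + s • (z - (a / N u) • u) =
        (1 - s * (a / N u)) • (u + (s / (1 - s * (a / N u))) • z) := by
      rw [smul_add, ← mul_smul, mul_div_cancel₀ _ hs.ne', smul_sub, ← mul_smul, sub_smul, one_smul]
      abel
    show N (u + (0 : ℝ) • (z - (a / N u) • u)) ≤ N (u + s • (z - (a / N u) • u))
    rw [e, zero_smul, add_zero, hN.smul_nonneg hs.le]
    have h2 := mul_le_mul_of_nonneg_left (ha (s / (1 - s * (a / N u)))) hs.le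
    refine le_trans (le_of_eq ?_) h2
    have e3 : (1 - s * (a / N u)) * (N u + a * (s / (1 - s * (a / N u)))) =
        (1 - s * (a / N u)) * N u + a * ((1 - s * (a / N u)) * (s / (1 - s * (a / N u)))) := by
      ring
    rw [e3, mul_div_cancel₀ _ hs.ne']
    field_simp
    ring
  intro s
  have h3 := IsMinOn.of_isLocalMin_of_convex_univ hloc hconv s
  have h4 : N (u + (0 : ℝ) • (z - (a / N u) • u)) ≤ N (u + s • (z - (a / N u) • u)) := h3
  rwa [zero_smul, add_zero] at h4

/-- If `t ↦ N (u + t z)` is differentiable at zero then `N` is differentiable at `u`. -/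
private theorem rse_diff {N : V → ℝ} (hN : NormV N) {u z : V} (hd : dt u z ≠ 0)
    (hf : DifferentiableAt ℝ (fun t : ℝ => N (u + t • z)) 0) : DifferentiableAt ℝ N u := by
  have hα : Differentiable ℝ (fun v : V => dt v z / dt u z) := by
    unfold dt
    fun_prop
  have hβ : Differentiable ℝ (fun v : V => dt u v / dt u z) := by
    unfold dt
    fun_prop
  have hα1 : dt u z / dt u z = 1 := div_self hd
  have hβ1 : dt u u / dt u z = 0 := by rw [dt_self, zero_div]
  have hpos : ∀ᶠ v : V in nhds u, 0 < dt v z / dt u z :=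
    (hα.continuous.tendsto u).eventually_const_lt (by
      show 0 < dt u z / dt u z
      rw [hα1]
      exact one_pos)
  have heq : N =ᶠ[nhds u] fun v => (dt v z / dt u z) *
      N (u + ((dt u v / dt u z) / (dt v z / dt u z)) • z) := by
    filter_upwards [hpos] with v hv
    rw [← hN.smul_nonneg hv.le, smul_add, ← mul_smul, mul_div_cancel₀ _ hv.ne']
    congr 1
    have h1 := expand u z v
    -- `dt u z • v = dt v z • u + dt u v • z`
    calc v = (dt u z)⁻¹ • (dt u z • v) := by rw [smul_smul, inv_mul_cancel₀ hd, one_smul]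
      _ = (dt u z)⁻¹ • (dt v z • u + dt u v • z) := by rw [h1]
      _ = (dt v z / dt u z) • u + (dt u v / dt u z) • z := by
          rw [smul_add, smul_smul, smul_smul, div_eq_inv_mul, div_eq_inv_mul]
  refine DifferentiableAt.congr_of_eventuallyEq ?_ heq
  have hne : (fun v : V => dt v z / dt u z) u ≠ 0 := by
    show dt u z / dt u z ≠ 0
    rw [hα1]
    exact one_ne_zero
  have hinv : DifferentiableAt ℝ (fun v : V => (dt v z / dt u z)⁻¹) u :=
    DifferentiableAt.comp (g := fun x : ℝ => x⁻¹) (f := fun v : V => dt v z / dt u z) u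
      (differentiableAt_inv hne) (hα u)
  have hcomp : DifferentiableAt ℝ (fun v : V => (dt u v / dt u z) / (dt v z / dt u z)) u := by
    have h1 : DifferentiableAt ℝ (fun v : V => (dt u v / dt u z) * (dt v z / dt u z)⁻¹) u :=
      (hβ u).mul hinv
    exact h1
  refine (hα u).mul ?_
  have h0 : (dt u u / dt u z) / (dt u z / dt u z) = 0 := by rw [hβ1, zero_div]
  have hf' : DifferentiableAt ℝ (fun t : ℝ => N (u + t • z))
      ((fun v : V => (dt u v / dt u z) / (dt v z / dt u z)) u) := by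
    show DifferentiableAt ℝ (fun t : ℝ => N (u + t • z)) ((dt u u / dt u z) / (dt u z / dt u z))
    rw [h0]
    exact hf
  exact DifferentiableAt.comp (g := fun t : ℝ => N (u + t • z))
    (f := fun v : V => (dt u v / dt u z) / (dt v z / dt u z)) u hf' hcomp

theorem exists_rat_sector {N : V → ℝ} (hN : NormV N) (hs : SB N)
    (hnd : ¬ ∀ u, u ≠ 0 → DifferentiableAt ℝ N u) :
    ∃ p q : ℚ × ℚ, dt (cQ p) (cQ q) ≠ 0 ∧ N (cQ p + cQ q) = N (cQ p) + N (cQ q) := by
  push Not at hnd
  obtain ⟨u, hu, hdu⟩ := hnd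
  have hNu : 0 < N u := hN.pos u hu
  obtain ⟨z, hd⟩ : ∃ z : V, dt u z ≠ 0 := by
    refine ⟨(-u.2, u.1), ?_⟩
    have h1 : dt u (-u.2, u.1) = u.1 * u.1 + u.2 * u.2 := by
      unfold dt
      ring
    rw [h1]
    intro h0
    apply hu
    have h2 : u.1 = 0 := by nlinarith [mul_self_nonneg u.1, mul_self_nonneg u.2]
    have h3 : u.2 = 0 := by nlinarith [mul_self_nonneg u.1, mul_self_nonneg u.2]
    exact Prod.ext h2 h3
  obtain ⟨f, hf⟩ : ∃ f : ℝ → ℝ, f = fun t => N (u + t • z) := ⟨_, rfl⟩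
  have hfd : ¬ DifferentiableAt ℝ f 0 := by
    rw [hf]
    exact fun h => hdu (rse_diff hN hd h)
  have hconv : ConvexOn ℝ univ f := by
    refine ⟨convex_univ, fun x _ y _ p q hp hq hpq => ?_⟩
    have e : u + (p • x + q • y) • z = p • (u + x • z) + q • (u + y • z) := by
      have e1 : u = p • u + q • u := by rw [← add_smul, hpq, one_smul]
      rw [smul_eq_mul, smul_eq_mul, add_smul, mul_smul, mul_smul, smul_add, smul_add]
      nth_rewrite 1 [e1]
      abel
    rw [hf]
    show N (u + (p • x + q • y) • z) ≤ _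
    rw [e]
    refine (hN.add_le _ _).trans ?_
    rw [hN.smul_nonneg hp, hN.smul_nonneg hq, smul_eq_mul, smul_eq_mul]
  have h0i : (0 : ℝ) ∈ interior (univ : Set ℝ) := by rw [interior_univ]; exact mem_univ _
  obtain ⟨am, ham⟩ : ∃ am : ℝ, am = derivWithin f (Iio 0) 0 := ⟨_, rfl⟩
  obtain ⟨ap, hap⟩ : ∃ ap : ℝ, ap = derivWithin f (Ioi 0) 0 := ⟨_, rfl⟩
  have hlt : am < ap := by
    refine lt_of_le_of_ne ?_ fun heq => hfd ?_
    · rw [ham, hap]
      exact hconv.leftDeriv_le_rightDeriv_of_mem_interior h0i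
    · have h1 := (hconv.hasDerivWithinAt_rightDeriv_of_mem_interior h0i).Ici_of_Ioi
      have h2 := (hconv.hasDerivWithinAt_leftDeriv_of_mem_interior h0i).Iic_of_Iio
      rw [← hap] at h1
      rw [← ham, heq] at h2
      have h3 := h1.union h2
      rw [Ici_union_Iic, hasDerivWithinAt_univ] at h3
      exact h3.differentiableAt
  -- subgradients
  have hsub : ∀ a, am ≤ a → a ≤ ap → ∀ t : ℝ, N u + a * t ≤ N (u + t • z) := by
    intro a ha1 ha2 t
    have hf0 : f 0 = N u := by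
      rw [hf]
      show N (u + (0 : ℝ) • z) = N u
      rw [zero_smul, add_zero]
    have hft : f t = N (u + t • z) := by rw [hf]
    rw [← hf0, ← hft]
    rcases lt_trichotomy t 0 with ht | ht | ht
    · have h1 := hconv.slope_le_leftDeriv_of_mem_interior (mem_univ t) h0i ht
      rw [← ham, slope_def_field, div_le_iff₀ (by linarith)] at h1
      nlinarith
    · rw [ht]
      linarith
    · have h1 := hconv.rightDeriv_le_slope_of_mem_interior h0i (mem_univ t) ht
      rw [← hap, slope_def_field, le_div_iff₀ (by linarith)] at h1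
      nlinarith
  obtain ⟨K, hK⟩ : ∃ K : ℝ, K = rc N * |dt u z| / N u := ⟨_, rfl⟩
  have hval : ∀ a, am ≤ a → a ≤ ap → N (z - (a / N u) • u) = K := by
    intro a ha1 ha2
    have h1 := radon_eq hN hs (rse_mid hN hNu.ne' (hsub a ha1 ha2))
    have h2 : dt u (z - (a / N u) • u) = dt u z := by
      rw [sub_eq_add_neg, ← neg_smul, dt_add_right, dt_smul_right, dt_self, mul_zero, add_zero]
    rw [h2] at h1
    rw [hK, eq_div_iff hNu.ne', mul_comm]
    exact h1
  obtain ⟨v₁, hv₁⟩ : ∃ v₁ : V, v₁ = z - (am / N u) • u := ⟨_, rfl⟩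
  obtain ⟨v₂, hv₂⟩ : ∃ v₂ : V, v₂ = z - (ap / N u) • u := ⟨_, rfl⟩
  have hd12 : dt v₁ v₂ ≠ 0 := by
    have h1 : dt v₁ v₂ = (ap - am) / N u * dt u z := by
      rw [hv₁, hv₂]
      simp only [dt, Prod.fst_sub, Prod.snd_sub, Prod.smul_fst, Prod.smul_snd, smul_eq_mul]
      ring
    rw [h1]
    exact mul_ne_zero (div_ne_zero (sub_pos.2 hlt).ne' hNu.ne') hd
  have hcone : ∀ α β : ℝ, 0 < α → 0 < β → N (α • v₁ + β • v₂) = (α + β) * K := by
    intro α β hα hβ
    have hαβ : 0 < α + β := add_pos hα hβ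
    have e : α • v₁ + β • v₂ =
        (α + β) • (z - (((α * am + β * ap) / (α + β)) / N u) • u) := by
      rw [hv₁, hv₂]
      ext
      · simp only [Prod.fst_sub, Prod.fst_add, Prod.smul_fst, smul_eq_mul]
        field_simp
        ring
      · simp only [Prod.snd_sub, Prod.snd_add, Prod.smul_snd, smul_eq_mul]
        field_simp
        ring
    rw [e, hN.smul_nonneg hαβ.le, hval]
    · rw [le_div_iff₀ hαβ]
      nlinarith
    · rw [div_le_iff₀ hαβ]
      nlinarith
  have hN' : ∀ y : V, 0 < dt y v₂ / dt v₁ v₂ → 0 < dt v₁ y / dt v₁ v₂ →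
      N y = (dt y v₂ / dt v₁ v₂ + dt v₁ y / dt v₁ v₂) * K := by
    intro y h1 h2
    rw [← hcone _ _ h1 h2]
    congr 1
    have h3 := expand v₁ v₂ y
    have h4 : y = (dt v₁ v₂)⁻¹ • (dt v₁ v₂ • y) := by
      rw [smul_smul, inv_mul_cancel₀ hd12, one_smul]
    rw [div_eq_inv_mul, div_eq_inv_mul, mul_smul, mul_smul, ← smul_add, ← h3, ← h4]
  -- rational points
  have hdense : DenseRange (Prod.map cQ cQ) := by
    have h1 : DenseRange cQ := by
      have h2 : DenseRange (Prod.map (fun q : ℚ => (q : ℝ)) (fun q : ℚ => (q : ℝ))) :=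
        Rat.denseRange_cast.prodMap Rat.denseRange_cast
      exact h2
    exact h1.prodMap h1
  obtain ⟨S, hS⟩ : ∃ S : Set (V × V), S = {x | (0 < dt x.1 v₂ / dt v₁ v₂ ∧
      0 < dt v₁ x.1 / dt v₁ v₂) ∧ (0 < dt x.2 v₂ / dt v₁ v₂ ∧ 0 < dt v₁ x.2 / dt v₁ v₂) ∧
      dt x.1 x.2 ≠ 0} := ⟨_, rfl⟩
  have hSo : IsOpen S := by
    rw [hS]
    have c1 : Continuous fun x : V × V => dt x.1 v₂ / dt v₁ v₂ := by unfold dt; fun_prop
    have c2 : Continuous fun x : V × V => dt v₁ x.1 / dt v₁ v₂ := by unfold dt; fun_prop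
    have c3 : Continuous fun x : V × V => dt x.2 v₂ / dt v₁ v₂ := by unfold dt; fun_prop
    have c4 : Continuous fun x : V × V => dt v₁ x.2 / dt v₁ v₂ := by unfold dt; fun_prop
    have c5 : Continuous fun x : V × V => dt x.1 x.2 := by unfold dt; fun_prop
    exact ((isOpen_lt continuous_const c1).inter (isOpen_lt continuous_const c2)).inter
      (((isOpen_lt continuous_const c3).inter (isOpen_lt continuous_const c4)).inter
        (isOpen_ne_fun c5 continuous_const))
  have hmem : (v₁ + (2 : ℝ) • v₂, (2 : ℝ) • v₁ + v₂) ∈ S := by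
    rw [hS]
    have e1 : dt (v₁ + (2 : ℝ) • v₂) v₂ / dt v₁ v₂ = 1 := by
      rw [dt_add_left, dt_smul_left, dt_self, mul_zero, add_zero, div_self hd12]
    have e2 : dt v₁ (v₁ + (2 : ℝ) • v₂) / dt v₁ v₂ = 2 := by
      rw [dt_add_right, dt_smul_right, dt_self, zero_add, mul_div_assoc, div_self hd12, mul_one]
    have e3 : dt ((2 : ℝ) • v₁ + v₂) v₂ / dt v₁ v₂ = 2 := by
      rw [dt_add_left, dt_smul_left, dt_self, add_zero, mul_div_assoc, div_self hd12, mul_one]
    have e4 : dt v₁ ((2 : ℝ) • v₁ + v₂) / dt v₁ v₂ = 1 := by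
      rw [dt_add_right, dt_smul_right, dt_self, mul_zero, zero_add, div_self hd12]
    have e5 : dt (v₁ + (2 : ℝ) • v₂) ((2 : ℝ) • v₁ + v₂) = -3 * dt v₁ v₂ := by
      rw [dt_add_left, dt_add_right, dt_add_right, dt_smul_right, dt_smul_left, dt_smul_left,
        dt_smul_right, dt_self, dt_self, dt_comm v₂ v₁]
      ring
    refine ⟨⟨?_, ?_⟩, ⟨?_, ?_⟩, ?_⟩
    · show 0 < dt (v₁ + (2 : ℝ) • v₂) v₂ / dt v₁ v₂
      rw [e1]
      norm_num
    · show 0 < dt v₁ (v₁ + (2 : ℝ) • v₂) / dt v₁ v₂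
      rw [e2]
      norm_num
    · show 0 < dt ((2 : ℝ) • v₁ + v₂) v₂ / dt v₁ v₂
      rw [e3]
      norm_num
    · show 0 < dt v₁ ((2 : ℝ) • v₁ + v₂) / dt v₁ v₂
      rw [e4]
      norm_num
    · show dt (v₁ + (2 : ℝ) • v₂) ((2 : ℝ) • v₁ + v₂) ≠ 0
      rw [e5]
      exact mul_ne_zero (by norm_num) hd12
  obtain ⟨⟨p, q⟩, hpq⟩ := hdense.exists_mem_open hSo ⟨_, hmem⟩
  rw [hS] at hpq
  obtain ⟨⟨h1, h2⟩, ⟨h3, h4⟩, h5⟩ := hpq
  refine ⟨p, q, h5, ?_⟩
  have h1' : 0 < dt (cQ p) v₂ / dt v₁ v₂ := h1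
  have h2' : 0 < dt v₁ (cQ p) / dt v₁ v₂ := h2
  have h3' : 0 < dt (cQ q) v₂ / dt v₁ v₂ := h3
  have h4' : 0 < dt v₁ (cQ q) / dt v₁ v₂ := h4
  rw [hN' _ h1' h2', hN' _ h3' h4', hN' (cQ p + cQ q)]
  · rw [dt_add_left, dt_add_right]
    ring
  · rw [dt_add_left, add_div]
    exact add_pos h1' h3'
  · rw [dt_add_right, add_div]
    exact add_pos h2' h4'

end Pool.Agent.L1de93c
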