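import Pool.Agent.Lib_MP_1de93e_cont.NiceB
import Pool.Agent.Lib_1de93e.Rigid

/-!
# PIECE RIG1: rigidity (exact version, transfer from `EuclideanSpace`)

Uses `Pool.Agent.Lib_1de93e.rigidity` (exact version, on `Pl = EuclideanSpace ℝ (Fin 2)`).

(a) Exact version on `V`: if `Q (a • u) = a * Q u`, `Q` is `C¹` off `0` and
`fderiv Q u (cj N u) = -2 Q (cj N u)` for `u ≠ 0`, then `Q = 0`. Transfer to `Pl` by the linear
isomorphism `ι : Pl → V`, `ι x = (x 0, x 1)`. With `J u` the rotation, `detL`, `det2` of that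
library (`det2 a b = a 0 * b 1 - a 1 * b 0`, check): take `k u` with `J u + k u • u = (‖u‖²/N u) • cj u`
(both have `det2 u · = ‖u‖²`; so they differ by a multiple of `u`; explicitly
`k u = -(fderiv N u (J u)) / N u`), `c = rc N`: `N u * N (J u + k u u) = (‖u‖²/N u) N u rc N = c ‖u‖²`;
`hdN`: `fderiv N u z = dt z (cj u) = (N u/‖u‖²) dt z (J u + k u u)`; `hinv`: `cj_cj` and
homogeneity of `cj`.
-/

namespace Pool.Agent.L1de93c

open MeasureTheory Metric Set

open Pool.Agent.Lib_1de93e (Pl J det2 detL)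

/-- The isomorphism `x ↦ (x 0, x 1)`. -/
noncomputable def rigEI : Pl →L[ℝ] V :=
  (EuclideanSpace.proj (𝕜 := ℝ) (0 : Fin 2)).prod (EuclideanSpace.proj (𝕜 := ℝ) (1 : Fin 2))

theorem rigEI_apply (x : Pl) : rigEI x = (x 0, x 1) := rfl

/-- The inverse. -/
noncomputable def rigEK (v : V) : Pl := !₂[v.1, v.2]

@[simp] theorem rigEK_zero (v : V) : rigEK v 0 = v.1 := rfl
@[simp] theorem rigEK_one (v : V) : rigEK v 1 = v.2 := rfl

theorem rigEI_K (v : V) : rigEI (rigEK v) = v := by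
  rw [rigEI_apply]; simp

theorem rigEK_I (x : Pl) : rigEK (rigEI x) = x := by
  apply Pool.Agent.Lib_1de93e.pl_ext
  · rw [rigEK_zero, rigEI_apply]
  · rw [rigEK_one, rigEI_apply]

theorem rigEI_ne {x : Pl} (hx : x ≠ 0) : rigEI x ≠ 0 := by
  intro h
  apply hx
  rw [← rigEK_I x, h]
  apply Pool.Agent.Lib_1de93e.pl_ext <;> simp

theorem rigEK_smul (a : ℝ) (v : V) : rigEK (a • v) = a • rigEK v := by
  apply Pool.Agent.Lib_1de93e.pl_ext <;> simp

theorem rigE_det2 (w : Pl) (v : V) : det2 w (rigEK v) = dt (rigEI w) v := by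
  simp [det2, dt, rigEI_apply]

theorem rigE_fd (N : V → ℝ) (u : V) (z : V) :
    fderiv ℝ N u z = z.1 * fderiv ℝ N u (1, 0) + z.2 * fderiv ℝ N u (0, 1) := by
  have e : z = z.1 • ((1, 0) : V) + z.2 • ((0, 1) : V) := by
    apply Prod.ext <;> simp
  conv_lhs => rw [e]
  rw [map_add, map_smul, map_smul, smul_eq_mul, smul_eq_mul]

/-- The function `k`. -/
noncomputable def rigEk (N : V → ℝ) (x : Pl) : ℝ :=
  (x 1 * fderiv ℝ N (rigEI x) (1, 0) - x 0 * fderiv ℝ N (rigEI x) (0, 1)) / N (rigEI x)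

theorem rigE_vv {N : V → ℝ} (h : Nice N) {x : Pl} (hx : x ≠ 0) :
    J x + rigEk N x • x = (‖x‖ ^ 2 / N (rigEI x)) • rigEK (cj N (rigEI x)) := by
  have hpos : 0 < N (rigEI x) := h.pos _ (rigEI_ne hx)
  have hself := Nice.fderiv_self h (rigEI_ne hx)
  rw [rigE_fd] at hself
  have e1 : (rigEI x).1 = x 0 := rfl
  have e2 : (rigEI x).2 = x 1 := rfl
  rw [e1, e2] at hself
  apply Pool.Agent.Lib_1de93e.pl_ext
  · simp only [PiLp.add_apply, PiLp.smul_apply, smul_eq_mul, Pool.Agent.Lib_1de93e.J_zero,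
      rigEK_zero, Pool.Agent.Lib_1de93e.normsq, rigEk, cj]
    field_simp
    linear_combination (x 1) * hself
  · simp only [PiLp.add_apply, PiLp.smul_apply, smul_eq_mul, Pool.Agent.Lib_1de93e.J_one,
      rigEK_one, Pool.Agent.Lib_1de93e.normsq, rigEk, cj]
    field_simp
    linear_combination (-(x 0)) * hself

theorem rig_exact {N : V → ℝ} (h : Nice N) {Q : V → ℝ} (hQ : ∀ (a : ℝ) u, Q (a • u) = a * Q u)
    (hQ1 : ContDiffOn ℝ 1 Q {0}ᶜ)
    (heq : ∀ u, u ≠ 0 → fderiv ℝ Q u (cj N u) + 2 * Q (cj N u) = 0) : ∀ u, Q u = 0 := by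
  have hIo : MapsTo (fun x : Pl => rigEI x) {0}ᶜ {0}ᶜ := fun x hx => rigEI_ne hx
  have hIc : ContinuousOn (fun x : Pl => rigEI x) {0}ᶜ := rigEI.continuous.continuousOn
  have hrc : 0 < rc N := by
    have h1 : ((1, 0) : V) ≠ 0 := by simp
    rw [← Nice.N_cj h h1]
    exact h.pos _ (Nice.cj_ne_zero h h1)
  have hNc : ContinuousOn N {0}ᶜ := fun u hu => (h.diff u hu).continuousAt.continuousWithinAt
  have hNf : ContinuousOn (fun x : Pl => fderiv ℝ N (rigEI x)) {0}ᶜ :=
    (Nice.continuousOn_fderiv h).comp hIc hIo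
  have key := Pool.Agent.Lib_1de93e.rigidity (N := fun x : Pl => N (rigEI x)) (k := rigEk N)
    (c := rc N) (Q := fun x : Pl => Q (rigEI x))
    (dQ := fun x : Pl => (fderiv ℝ Q (rigEI x)).comp rigEI) ?_ hrc ?_ ?_ ?_ ?_ ?_ ?_ ?_ ?_
  · intro u
    have := key (rigEK u)
    simpa only [rigEI_K] using this
  · refine ⟨fun u hu => h.pos _ (rigEI_ne hu), fun r u => ?_, fun u v => ?_⟩
    · rw [map_smul, h.smul]
    · rw [map_add]; exact h.add_le _ _
  · unfold rigEk
    apply ContinuousOn.div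
    · apply ContinuousOn.sub
      · apply ContinuousOn.mul
        · exact (EuclideanSpace.proj (𝕜 := ℝ) (1 : Fin 2)).continuous.continuousOn
        · exact hNf.clm_apply continuousOn_const
      · apply ContinuousOn.mul
        · exact (EuclideanSpace.proj (𝕜 := ℝ) (0 : Fin 2)).continuous.continuousOn
        · exact hNf.clm_apply continuousOn_const
    · exact hNc.comp hIc hIo
    · intro x hx
      exact (h.pos _ (rigEI_ne hx)).ne'
  · intro u hu
    have hpos : 0 < N (rigEI u) := h.pos _ (rigEI_ne hu)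
    have hn : 0 < ‖u‖ := norm_pos_iff.2 hu
    have h1 : HasFDerivAt (fun x : Pl => N (rigEI x)) ((fderiv ℝ N (rigEI u)).comp rigEI) u :=
      (h.diff _ (rigEI_ne hu)).hasFDerivAt.comp u rigEI.hasFDerivAt
    convert h1 using 1
    ext w
    rw [rigE_vv h hu]
    simp only [smul_apply, Pool.Agent.Lib_1de93e.detL_apply, smul_eq_mul,
      ContinuousLinearMap.comp_apply, Pool.Agent.Lib_1de93e.det2_smul_right, rigE_det2]
    rw [Nice.fderiv_eq]
    field_simp
  · intro u hu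
    have hpos : 0 < N (rigEI u) := h.pos _ (rigEI_ne hu)
    have hn : 0 < ‖u‖ := norm_pos_iff.2 hu
    rw [rigE_vv h hu, map_smul, h.smul, rigEI_K, Nice.N_cj h (rigEI_ne hu),
      abs_of_pos (by positivity)]
    field_simp
  · intro u hu
    have hpos : 0 < N (rigEI u) := h.pos _ (rigEI_ne hu)
    have hn : 0 < ‖u‖ := norm_pos_iff.2 hu
    have ha : 0 < ‖u‖ ^ 2 / N (rigEI u) := by positivity
    have hw : J u + rigEk N u • u ≠ 0 := Pool.Agent.Lib_1de93e.Rigid.vv_ne_zero (k := rigEk N) hu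
    rw [rigE_vv h hw]
    have e : rigEI (J u + rigEk N u • u) = (‖u‖ ^ 2 / N (rigEI u)) • cj N (rigEI u) := by
      rw [rigE_vv h hu, map_smul, rigEI_K]
    rw [e, Nice.cj_smul_pos h ha, Nice.cj_cj h (rigEI_ne hu), rigEK_smul, rigEK_I, smul_smul]
    exact ⟨_, rfl⟩
  · intro a u
    rw [map_smul, hQ]
  · intro u hu
    have h1 : ContDiffAt ℝ 1 Q (rigEI u) :=
      hQ1.contDiffAt (isOpen_compl_singleton.mem_nhds (rigEI_ne hu))
    exact (h1.differentiableAt (by norm_num)).hasFDerivAt.comp u rigEI.hasFDerivAt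
  · have h1 : ContinuousOn (fderiv ℝ Q) {0}ᶜ :=
      hQ1.continuousOn_fderiv_of_isOpen isOpen_compl_singleton (by norm_num)
    exact (h1.comp hIc hIo).clm_comp continuousOn_const
  · intro u hu
    have hh := heq _ (rigEI_ne hu)
    rw [rigE_vv h hu]
    simp only [ContinuousLinearMap.comp_apply, map_smul, rigEI_K, smul_eq_mul, hQ]
    linear_combination (‖u‖ ^ 2 / N (rigEI u)) * hh

end Pool.Agent.L1de93c
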