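import Pool.Agent.Lib_MP_1de93e_cont.Chg

/-!
# PIECE SLO: comparison of two gauges

## SLO `slope`
`mo (-3 log (1 - d y)) 0 (1/2) ≤ Θ₂ + mo (G ∘ pj d) 0 (1/2) ≤ Θ₂ + 16 Θ₁`. Lower bound: say `|d.1| = ‖d‖`
(else `d.2`). For fixed `y.2` the function `y.1 ↦ -3 log (1 - d y)` is monotone with derivative of
absolute value `3 ‖d‖/(1 - d y) ≥ 2 ‖d‖`, so for every `c`, `∫_{-1/2}^{1/2} |f - c| dy.1 ≥ 2 ‖d‖ (1/4)`, and
`mo f 0 (1/2) ≥ ‖d‖/2`. So `‖d‖ ≤ 2 (Θ₂ + 16 Θ₁)`.
-/

namespace Pool.Agent.L1de93c

open MeasureTheory Metric Set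

private theorem slo_ball : closedBall (0 : V) 1 = Icc (-1 : ℝ) 1 ×ˢ Icc (-1 : ℝ) 1 := by
  have h : closedBall (0 : V) 1 = closedBall (0 : ℝ) 1 ×ˢ closedBall (0 : ℝ) 1 := by
    rw [closedBall_prod_same]; rfl
  rw [h, Real.closedBall_eq_Icc]
  norm_num

private theorem slo_prod (f g : ℝ → ℝ) : ∫ y in closedBall (0 : V) 1, f y.1 * g y.2 =
    (∫ x in (-1 : ℝ)..1, f x) * ∫ x in (-1 : ℝ)..1, g x := by
  rw [slo_ball, Measure.volume_eq_prod, setIntegral_prod_mul, integral_Icc_eq_integral_Ioc,
    integral_Icc_eq_integral_Ioc, ← intervalIntegral.integral_of_le (by norm_num),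
    ← intervalIntegral.integral_of_le (by norm_num)]

private theorem slo_int {f : V → ℝ} (hf : Continuous f) :
    IntegrableOn f (closedBall (0 : V) 1) :=
  hf.continuousOn.integrableOn_compact (isCompact_closedBall 0 1)

private theorem slo_11 : ∫ y in closedBall (0 : V) 1, y.1 * y.1 = 4 / 3 := by
  have h := slo_prod (fun x => x * x) (fun _ => 1)
  simp only [mul_one] at h
  rw [h]
  have e : ∀ x : ℝ, x * x = x ^ 2 := fun x => (sq x).symm
  simp only [e, integral_pow, intervalIntegral.integral_const]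
  norm_num

private theorem slo_22 : ∫ y in closedBall (0 : V) 1, y.2 * y.2 = 4 / 3 := by
  have h := slo_prod (fun _ => 1) (fun x => x * x)
  simp only [one_mul] at h
  rw [h]
  have e : ∀ x : ℝ, x * x = x ^ 2 := fun x => (sq x).symm
  simp only [e, integral_pow, intervalIntegral.integral_const]
  norm_num

private theorem slo_12 : ∫ y in closedBall (0 : V) 1, y.1 * y.2 = 0 := by
  have h := slo_prod (fun x => x) (fun x => x)
  rw [h, integral_id]
  norm_num

private theorem slo_bd {y : V} (hy : y ∈ closedBall (0 : V) 1) : |y.1| ≤ 1 ∧ |y.2| ≤ 1 := by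
  rw [mem_closedBall_zero_iff] at hy
  exact ⟨(abs_fst_le y).trans hy, (abs_snd_le y).trans hy⟩

private theorem slo_low (d : V) : 4 / 3 * ‖d‖ ≤ ∫ y in closedBall (0 : V) 1, |dot d y| := by
  have hc : Continuous fun y : V => dot d y := by unfold dot; fun_prop
  have key : ∀ φ : V → ℝ, Continuous φ → (∀ y ∈ closedBall (0 : V) 1, |φ y| ≤ 1) →
      |∫ y in closedBall (0 : V) 1, dot d y * φ y| ≤ ∫ y in closedBall (0 : V) 1, |dot d y| := by
    intro φ hφ h1
    refine (abs_integral_le_integral_abs).trans ?_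
    refine setIntegral_mono_on (slo_int (by fun_prop)) (slo_int (by fun_prop))
      measurableSet_closedBall fun y hy => ?_
    rw [abs_mul]
    exact mul_le_of_le_one_right (abs_nonneg _) (h1 y hy)
  have hmax : ‖d‖ = |d.1| ∨ ‖d‖ = |d.2| := by
    rw [Prod.norm_def, Real.norm_eq_abs, Real.norm_eq_abs]
    exact max_choice _ _
  rcases hmax with h | h
  · have h1 := key (fun y => y.1) continuous_fst (fun y hy => (slo_bd hy).1)
    have h2 : ∫ y in closedBall (0 : V) 1, dot d y * y.1 = d.1 * (4 / 3) := by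
      have e : ∀ y : V, dot d y * y.1 = d.1 * (y.1 * y.1) + d.2 * (y.1 * y.2) := by
        intro y; unfold dot; ring
      simp only [e]
      rw [integral_add (slo_int (by fun_prop)) (slo_int (by fun_prop)), integral_const_mul,
        integral_const_mul, slo_11, slo_12]
      ring
    rw [h2, abs_mul] at h1
    rw [h]
    norm_num at h1 ⊢
    linarith
  · have h1 := key (fun y => y.2) continuous_snd (fun y hy => (slo_bd hy).2)
    have h2 : ∫ y in closedBall (0 : V) 1, dot d y * y.2 = d.2 * (4 / 3) := by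
      have e : ∀ y : V, dot d y * y.2 = d.1 * (y.1 * y.2) + d.2 * (y.2 * y.2) := by
        intro y; unfold dot; ring
      simp only [e]
      rw [integral_add (slo_int (by fun_prop)) (slo_int (by fun_prop)), integral_const_mul,
        integral_const_mul, slo_22, slo_12]
      ring
    rw [h2, abs_mul] at h1
    rw [h]
    norm_num at h1 ⊢
    linarith

private theorem slo_log {s : ℝ} (h0 : 0 ≤ s) (h1 : s < 1) :
    2 * s ≤ Real.log (1 + s) - Real.log (1 - s) := by
  have h2 : 0 < 1 - s := by linarith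
  have h3 := Real.le_log_one_add_of_nonneg (x := 2 * s / (1 - s)) (by positivity)
  rw [← Real.log_div (by linarith) h2.ne']
  have e1 : 1 + 2 * s / (1 - s) = (1 + s) / (1 - s) := by field_simp; ring
  have e2 : 2 * (2 * s / (1 - s)) / (2 * s / (1 - s) + 2) = 2 * s := by
    field_simp
    ring
  rw [e1, e2] at h3
  exact h3

private theorem slo_log' {s : ℝ} (h1 : |s| < 1) :
    2 * |s| ≤ |Real.log (1 + s) - Real.log (1 - s)| := by
  rw [abs_lt] at h1
  rcases le_total 0 s with h | h
  · rw [abs_of_nonneg h]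
    exact (slo_log h h1.2).trans (le_abs_self _)
  · rw [abs_of_nonpos h]
    have h2 := slo_log (s := -s) (by linarith) (by linarith)
    rw [sub_neg_eq_add, ← sub_eq_add_neg] at h2
    rw [abs_sub_comm]
    exact h2.trans (le_abs_self _)

private theorem slo_neg (g : V → ℝ) : ∫ y in closedBall (0 : V) 1, g (-y) =
    ∫ y in closedBall (0 : V) 1, g y := by
  have h := (Measure.measurePreserving_neg (volume : Measure V)).setIntegral_preimage_emb
    (MeasurableEquiv.neg V).measurableEmbedding g (closedBall (0 : V) 1)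
  have e : (Neg.neg ⁻¹' closedBall (0 : V) 1) = closedBall (0 : V) 1 := by
    ext y
    simp
  rw [e] at h
  exact h

/-- SLO -/
theorem slope {G : V → ℝ} {d : V} (hd : ‖d‖ ≤ 1 / 20) (hG : ContinuousOn G (closedBall 0 1))
    {Θ₁ Θ₂ : ℝ} (h1 : mo G 0 1 ≤ Θ₁)
    (h2 : mo (fun y => -3 * Real.log (1 - dot d y) + G (pj d y)) 0 (1 / 2) ≤ Θ₂) :
    ‖d‖ ≤ 40 * (Θ₁ + Θ₂) := by
  have hdot : ∀ y : V, y ∈ closedBall (0 : V) 1 → |dot d y| ≤ 1 / 10 := by
    intro y hy
    rw [mem_closedBall_zero_iff] at hy
    refine (abs_dot_le d y).trans ?_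
    nlinarith [norm_nonneg d, norm_nonneg y]
  have hsub : closedBall (0 : V) (1 / 2) ⊆ closedBall 0 1 := closedBall_subset_closedBall (by norm_num)
  have hdc : Continuous fun y : V => dot d y := by unfold dot; fun_prop
  have hpos : ∀ y ∈ closedBall (0 : V) 1, 0 < 1 - dot d y := by
    intro y hy
    have := (abs_le.1 (hdot y hy)).2
    linarith
  have hfc : ContinuousOn (fun y => -3 * Real.log (1 - dot d y)) (closedBall (0 : V) 1) := by
    have h0 : ContinuousOn (fun y : V => 1 - dot d y) (closedBall 0 1) :=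
      (continuous_const.sub hdc).continuousOn
    exact continuousOn_const.mul (h0.log fun y hy => (hpos y hy).ne')
  have hpjc : ContinuousOn (fun y => G (pj d y)) (closedBall (0 : V) (1 / 2)) := by
    have hp : ContinuousOn (pj d) (closedBall (0 : V) (1 / 2)) := by
      unfold pj
      have h0 : ContinuousOn (fun y : V => 1 - dot d y) (closedBall 0 (1 / 2)) :=
        (continuous_const.sub hdc).continuousOn
      exact (h0.inv₀ fun y hy => (hpos y (hsub hy)).ne').smul continuousOn_id
    refine hG.comp hp fun y hy => ?_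
    have hy1 := hdot y (hsub hy)
    rw [mem_closedBall_zero_iff] at hy ⊢
    unfold pj
    have h3 : 9 / 10 ≤ 1 - dot d y := by
      have := (abs_le.1 hy1).2
      linarith
    rw [norm_smul, norm_inv, Real.norm_eq_abs, abs_of_pos (by linarith),
      inv_mul_le_iff₀ (by linarith)]
    linarith
  -- upper bound
  have hup : mo (fun y => -3 * Real.log (1 - dot d y)) 0 (1 / 2) ≤ Θ₂ + 16 * Θ₁ := by
    have e : (fun y => -3 * Real.log (1 - dot d y)) =
        fun y => (-3 * Real.log (1 - dot d y) + G (pj d y)) + (-1) * G (pj d y) := by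
      funext y; ring
    have h4 := mo_add_le (f := fun y => -3 * Real.log (1 - dot d y) + G (pj d y))
      (g := fun y => (-1) * G (pj d y)) (x := 0) (r := 1 / 2) (by norm_num)
      ((hfc.mono hsub).add hpjc) (continuousOn_const.mul hpjc)
    rw [mo_const_mul] at h4
    rw [e]
    refine h4.trans ?_
    have h3 := mo_pj (l := d) hd (r := 1 / 2) (by norm_num) (by norm_num) (h := G)
      (by norm_num; exact hG)
    rw [abs_neg, abs_one, one_mul]
    norm_num at h3
    linarith
  -- lower bound
  have hlow : ‖d‖ / 2 ≤ mo (fun y => -3 * Real.log (1 - dot d y)) 0 (1 / 2) := by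
    unfold mo
    set c := av (fun y => -3 * Real.log (1 - dot d y)) 0 (1 / 2) with hc
    set Φ : V → ℝ := fun y => |-3 * Real.log (1 - dot d ((0 : V) + (1 / 2 : ℝ) • y)) - c| with hΦ
    have hΦc : ContinuousOn Φ (closedBall (0 : V) 1) := by
      refine ((ContinuousOn.comp (t := closedBall (0 : V) 1) hfc (by fun_prop) ?_).sub
        continuousOn_const).abs
      intro y hy
      rw [mem_closedBall_zero_iff] at hy ⊢
      show ‖(0 : V) + (1 / 2 : ℝ) • y‖ ≤ 1
      rw [zero_add, norm_smul]
      norm_num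
      linarith
    have hΦn : ContinuousOn (fun y => Φ (-y)) (closedBall (0 : V) 1) := by
      refine hΦc.comp (by fun_prop) fun y hy => ?_
      rw [mem_closedBall_zero_iff] at hy ⊢
      rwa [norm_neg]
    have hI : ∫ y in closedBall (0 : V) 1, 3 * |dot d y| ≤
        ∫ y in closedBall (0 : V) 1, (Φ y + Φ (-y)) := by
      refine setIntegral_mono_on (slo_int (by fun_prop))
        ((hΦc.add hΦn).integrableOn_compact (isCompact_closedBall 0 1))
        measurableSet_closedBall fun y hy => ?_
      have e1 : dot d ((0 : V) + (1 / 2 : ℝ) • y) = dot d y / 2 := by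
        rw [zero_add, dot_smul_right]; ring
      have e2 : dot d ((0 : V) + (1 / 2 : ℝ) • (-y)) = -(dot d y / 2) := by
        rw [zero_add, dot_smul_right]
        have : dot d (-y) = - dot d y := by
          simp only [dot, Prod.fst_neg, Prod.snd_neg]; ring
        rw [this]; ring
      have hs : |dot d y / 2| < 1 := by
        rw [abs_div, abs_two]
        have := hdot y hy
        linarith
      have h3 := slo_log' hs
      have e3 : |dot d y / 2| = |dot d y| / 2 := by rw [abs_div, abs_two]
      rw [e3] at h3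
      simp only [hΦ, e1, e2]
      rw [sub_neg_eq_add]
      have h4 := abs_sub (-3 * Real.log (1 - dot d y / 2) - c) (-3 * Real.log (1 + dot d y / 2) - c)
      have e4 : (-3 * Real.log (1 - dot d y / 2) - c) - (-3 * Real.log (1 + dot d y / 2) - c) =
          3 * (Real.log (1 + dot d y / 2) - Real.log (1 - dot d y / 2)) := by ring
      rw [e4, abs_mul, abs_of_pos (by norm_num : (0:ℝ) < 3)] at h4
      linarith
    rw [integral_add (hΦc.integrableOn_compact (isCompact_closedBall 0 1))
      (hΦn.integrableOn_compact (isCompact_closedBall 0 1)), slo_neg Φ, integral_const_mul] at hI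
    have h3 := slo_low d
    linarith
  have h5 : 0 ≤ Θ₁ := (mo_nonneg _ _ _).trans h1
  have h6 : 0 ≤ Θ₂ := (mo_nonneg _ _ _).trans h2
  linarith

end Pool.Agent.L1de93c
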