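import Pool.Agent.Lib_MP_1de93e_cont.Base

/-!
# PIECE STK1: Steklov averages are `C¹` in the base point

`Stk F s x v = (1/4) ∫_{y ∈ closedBall 0 1} F (x + s y) v`.
## STK1 `stk_hpc`
* norm: averages of norms (`F (x + s y)` is a norm for `x ∈ U'`, continuous in `y`; positivity by
  `HP.bounds` on the compact `closedBall x s`, or positivity of the integral of a positive continuous
  function).
* joint continuity on `U' × V`: `(x, y, v) ↦ F (x + s y) v` is continuous on
  `U' × closedBall 0 1 × V`; parametric integral over a compact set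
  (`continuousOn_integral_of_compact_support`, `continuous_parametric_integral_of_continuous` on
  subtypes, or dominated convergence with `HP.bounds`).
* triangle inequality: by Fubini `DD (Stk F s) A B = (1/4) ∫_{y ∈ closedBall 0 1} DD F (A + s y) (B + s y)`
  and the points `A + s y` etc. lie in `U`.
* derivative: `closedBall 0 1 = [-1,1] × [-1,1]`. With `F (x + s y) v`, `x = (x₁, x₂)`, the substitution
  `σ = x₁ + s y₁` gives `Stk F s x v = 1/(4 s) ∫_{-1}^{1} ∫_{x₁ - s}^{x₁ + s} F (σ, x₂ + s y₂) v dσ dy₂`, so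
  `∂₁ = 1/(4 s) ∫_{-1}^1 (F (x + s (1, t)) v - F (x + s (-1, t)) v) dt` and similarly
  `∂₂ = 1/(4 s) ∫_{-1}^1 (F (x + s (t, 1)) v - F (x + s (t, -1)) v) dt`; both are continuous in
  `(x, v)`; a function with continuous partial derivatives is differentiable.
-/

namespace Pool.Agent.L1de93c

open MeasureTheory Metric Set

theorem stk1_square (k : V → ℝ) (hk : ContinuousOn k (closedBall (0 : V) 1)) :
    ∫ y in closedBall (0 : V) 1, k y = ∫ t in (-1 : ℝ)..1, ∫ u in (-1 : ℝ)..1, k (t, u) := by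
  have e : closedBall (0 : V) 1 = closedBall (0 : ℝ) 1 ×ˢ closedBall (0 : ℝ) 1 := by
    rw [closedBall_prod_same]; rfl
  have hi : IntegrableOn k (closedBall (0 : V) 1) :=
    hk.integrableOn_compact (isCompact_closedBall _ _)
  rw [e, Measure.volume_eq_prod] at hi
  rw [e, Measure.volume_eq_prod, setIntegral_prod _ hi, Real.closedBall_eq_Icc]
  norm_num
  rw [intervalIntegral.integral_of_le (by norm_num), integral_Icc_eq_integral_Ioc]
  refine setIntegral_congr_fun measurableSet_Ioc (fun x _ => ?_)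
  rw [intervalIntegral.integral_of_le (by norm_num), integral_Icc_eq_integral_Ioc]

theorem stk1_swap (k : ℝ → ℝ → ℝ) (hk : Continuous k.uncurry) :
    ∫ t in (-1 : ℝ)..1, ∫ u in (-1 : ℝ)..1, k t u = ∫ u in (-1 : ℝ)..1, ∫ t in (-1 : ℝ)..1, k t u := by
  apply intervalIntegral_intervalIntegral_swap
  have h1 : IntegrableOn k.uncurry (Icc (-1 : ℝ) 1 ×ˢ Icc (-1 : ℝ) 1) :=
    hk.continuousOn.integrableOn_compact (isCompact_Icc.prod isCompact_Icc)
  refine h1.mono_set (prod_mono ?_ ?_) <;>
  · rw [uIoc_of_le (by norm_num)]; exact Ioc_subset_Icc_self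

theorem stk1_d1 {φ : ℝ → ℝ} (hφ : Continuous φ) {s : ℝ} (hs : 0 < s) (a : ℝ) :
    HasDerivAt (fun a => ∫ t in (-1 : ℝ)..1, φ (a + s * t)) (s⁻¹ * (φ (a + s) - φ (a - s))) a := by
  have e : (fun a => ∫ t in (-1 : ℝ)..1, φ (a + s * t)) =
      fun a => s⁻¹ * ((∫ σ in (0 : ℝ)..(a + s), φ σ) - ∫ σ in (0 : ℝ)..(a - s), φ σ) := by
    funext a
    rw [intervalIntegral.integral_comp_add_mul _ hs.ne', smul_eq_mul,
      intervalIntegral.integral_interval_sub_left (hφ.intervalIntegrable _ _)
        (hφ.intervalIntegrable _ _)]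
    congr 2 <;> ring
  rw [e]
  have hΦ : ∀ b : ℝ, HasDerivAt (fun b => ∫ σ in (0 : ℝ)..b, φ σ) (φ b) b := fun b =>
    (hφ.integral_hasStrictDerivAt 0 b).hasDerivAt
  have h1 : HasDerivAt (fun a => ∫ σ in (0 : ℝ)..(a + s), φ σ) (φ (a + s)) a := by
    have := (hΦ (a + s)).comp_add_const a s
    exact this
  have h2 : HasDerivAt (fun a => ∫ σ in (0 : ℝ)..(a - s), φ σ) (φ (a - s)) a := by
    have := (hΦ (a - s)).comp_sub_const a s
    exact this
  exact (h1.sub h2).const_mul _

theorem stk1_deriv {g : V → ℝ} (hg : Continuous g) {s : ℝ} (hs : 0 < s) (x : V) :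
    HasFDerivAt (fun x : V => ∫ y in closedBall (0 : V) 1, g (x + s • y))
      ((s⁻¹ * ∫ t in (-1 : ℝ)..1, (g (x + s • (1, t)) - g (x + s • (-1, t)))) •
          ContinuousLinearMap.fst ℝ ℝ ℝ +
        (s⁻¹ * ∫ t in (-1 : ℝ)..1, (g (x + s • (t, 1)) - g (x + s • (t, -1)))) •
          ContinuousLinearMap.snd ℝ ℝ ℝ) x := by
  have e : (fun x : V => ∫ y in closedBall (0 : V) 1, g (x + s • y)) =
      Function.uncurry (fun a b : ℝ => ∫ t in (-1 : ℝ)..1, ∫ u in (-1 : ℝ)..1, g (a + s * t, b + s * u)) := by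
    funext x
    rw [stk1_square (fun y => g (x + s • y)) (by fun_prop)]
    rfl
  rw [e]
  have key := hasStrictFDerivAt_uncurry_coprod (𝕜 := ℝ) (u := x)
    (f := fun a b : ℝ => ∫ t in (-1 : ℝ)..1, ∫ u in (-1 : ℝ)..1, g (a + s * t, b + s * u))
    (f₁ := fun a b : ℝ => (s⁻¹ * ∫ t in (-1 : ℝ)..1, (g (a + s, b + s * t) - g (a - s, b + s * t))) •
      (1 : ℝ →L[ℝ] ℝ))
    (f₂ := fun a b : ℝ => (s⁻¹ * ∫ t in (-1 : ℝ)..1, (g (a + s * t, b + s) - g (a + s * t, b - s))) •
      (1 : ℝ →L[ℝ] ℝ)) ?_ ?_ ?_ ?_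
  · refine key.hasFDerivAt.congr_fderiv ?_
    ext <;> simp [Function.HasUncurry.uncurry, sub_eq_add_neg] <;> exact Or.inl rfl
  · refine Filter.Eventually.of_forall (fun v => ?_)
    have hφ : Continuous (fun σ : ℝ => ∫ u in (-1 : ℝ)..1, g (σ, v.2 + s * u)) := by
      apply intervalIntegral.continuous_parametric_intervalIntegral_of_continuous'
        (f := fun σ u => g (σ, v.2 + s * u))
      simp only [Function.uncurry_def]
      fun_prop
    have h1 := (stk1_d1 hφ hs v.1).hasFDerivAt
    refine h1.congr_fderiv ?_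
    ext
    simp only [ContinuousLinearMap.toSpanSingleton_apply, Function.HasUncurry.uncurry]
    rw [← intervalIntegral.integral_sub]
    · simp
    · exact (by fun_prop : Continuous fun u : ℝ => g (v.1 + s, v.2 + s * u)).intervalIntegrable _ _
    · exact (by fun_prop : Continuous fun u : ℝ => g (v.1 - s, v.2 + s * u)).intervalIntegrable _ _
  · refine Filter.Eventually.of_forall (fun v => ?_)
    have hφ : Continuous (fun σ : ℝ => ∫ t in (-1 : ℝ)..1, g (v.1 + s * t, σ)) := by
      apply intervalIntegral.continuous_parametric_intervalIntegral_of_continuous'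
        (f := fun σ t => g (v.1 + s * t, σ))
      simp only [Function.uncurry_def]
      fun_prop
    have h1 := (stk1_d1 hφ hs v.2).hasFDerivAt
    have e2 : (fun y : ℝ => ∫ t in (-1 : ℝ)..1, ∫ u in (-1 : ℝ)..1, g (v.1 + s * t, y + s * u)) =
        fun a => ∫ t in (-1 : ℝ)..1, (fun σ : ℝ => ∫ t in (-1 : ℝ)..1, g (v.1 + s * t, σ)) (a + s * t) := by
      funext y
      exact stk1_swap _ (by simp only [Function.uncurry_def]; fun_prop)
    change HasFDerivAt (fun y : ℝ => ∫ t in (-1 : ℝ)..1, ∫ u in (-1 : ℝ)..1, g (v.1 + s * t, y + s * u)) _ _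
    rw [e2]
    refine h1.congr_fderiv ?_
    ext
    simp only [ContinuousLinearMap.toSpanSingleton_apply, Function.HasUncurry.uncurry]
    rw [← intervalIntegral.integral_sub]
    · simp
    · exact (by fun_prop : Continuous fun u : ℝ => g (v.1 + s * u, v.2 + s)).intervalIntegrable _ _
    · exact (by fun_prop : Continuous fun u : ℝ => g (v.1 + s * u, v.2 - s)).intervalIntegrable _ _
  · apply Continuous.continuousAt
    have : Continuous (fun p : V => ∫ t in (-1 : ℝ)..1, (g (p.1 + s, p.2 + s * t) - g (p.1 - s, p.2 + s * t))) := by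
      apply intervalIntegral.continuous_parametric_intervalIntegral_of_continuous'
        (f := fun (p : V) t => (g (p.1 + s, p.2 + s * t) - g (p.1 - s, p.2 + s * t)))
      simp only [Function.uncurry_def]
      fun_prop
    exact (continuous_const.mul this).smul continuous_const
  · apply Continuous.continuousAt
    have : Continuous (fun p : V => ∫ t in (-1 : ℝ)..1, (g (p.1 + s * t, p.2 + s) - g (p.1 + s * t, p.2 - s))) := by
      apply intervalIntegral.continuous_parametric_intervalIntegral_of_continuous'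
        (f := fun (p : V) t => (g (p.1 + s * t, p.2 + s) - g (p.1 + s * t, p.2 - s)))
      simp only [Function.uncurry_def]
      fun_prop
    exact (continuous_const.mul this).smul continuous_const


/-- The derivative of the Steklov average. -/
noncomputable def stk1H (F : V → V → ℝ) (s : ℝ) (x v : V) : V →L[ℝ] ℝ :=
  ((1 / 4) * (s⁻¹ * ∫ t in (-1 : ℝ)..1, (F (x + s • (1, t)) v - F (x + s • (-1, t)) v))) •
      ContinuousLinearMap.fst ℝ ℝ ℝ +
    ((1 / 4) * (s⁻¹ * ∫ t in (-1 : ℝ)..1, (F (x + s • (t, 1)) v - F (x + s • (t, -1)) v))) •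
      ContinuousLinearMap.snd ℝ ℝ ℝ

/-- Retraction onto a square. -/
noncomputable def stk1r (x₀ : V) (R : ℝ) (y : V) : V :=
  (max (x₀.1 - R) (min (x₀.1 + R) y.1), max (x₀.2 - R) (min (x₀.2 + R) y.2))

theorem stk1_mem_ball {x₀ y : V} {R : ℝ} :
    y ∈ closedBall x₀ R ↔ (x₀.1 - R ≤ y.1 ∧ y.1 ≤ x₀.1 + R) ∧ (x₀.2 - R ≤ y.2 ∧ y.2 ≤ x₀.2 + R) := by
  rw [mem_closedBall, Prod.dist_eq, max_le_iff, Real.dist_eq, Real.dist_eq, abs_le, abs_le]
  constructor
  · rintro ⟨⟨h1, h2⟩, h3, h4⟩
    refine ⟨⟨?_, ?_⟩, ?_, ?_⟩ <;> linarith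
  · rintro ⟨⟨h1, h2⟩, h3, h4⟩
    refine ⟨⟨?_, ?_⟩, ?_, ?_⟩ <;> linarith

theorem stk1r_mem {x₀ : V} {R : ℝ} (hR : 0 ≤ R) (y : V) : stk1r x₀ R y ∈ closedBall x₀ R := by
  rw [stk1_mem_ball]
  refine ⟨⟨le_max_left _ _, max_le (by linarith) (min_le_left _ _)⟩,
    le_max_left _ _, max_le (by linarith) (min_le_left _ _)⟩

theorem stk1r_eq {x₀ : V} {R : ℝ} {y : V} (hy : y ∈ closedBall x₀ R) : stk1r x₀ R y = y := by
  rw [stk1_mem_ball] at hy
  unfold stk1r
  rw [min_eq_right hy.1.2, min_eq_right hy.2.2, max_eq_right hy.1.1, max_eq_right hy.2.1]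

theorem stk1r_cont (x₀ : V) (R : ℝ) : Continuous (stk1r x₀ R) := by
  unfold stk1r
  fun_prop

theorem stk1_local {U : Set V} {F : V → V → ℝ} (h : HP U F) {s : ℝ} (hs : 0 < s) {x₀ : V}
    (hx : closedBall x₀ s ⊆ U) :
    ∃ δ > 0, ∃ G : V → V → ℝ, Continuous (fun p : V × V => G p.1 p.2) ∧
      ∀ y ∈ closedBall x₀ (δ + s), ∀ v, F y v = G y v := by
  obtain ⟨δ, hδ, hsub⟩ := (isCompact_closedBall x₀ s).exists_cthickening_subset_open h.isOpen hx
  rw [cthickening_closedBall hδ.le hs.le] at hsub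
  refine ⟨δ, hδ, fun y v => F (stk1r x₀ (δ + s) y) v, ?_, fun y hy v => ?_⟩
  · have h1 : Continuous (fun p : V × V => ((stk1r x₀ (δ + s) p.1, p.2) : V × V)) :=
      ((stk1r_cont x₀ _).comp continuous_fst).prodMk continuous_snd
    exact h.cont.comp_continuous h1 (fun p => ⟨hsub (stk1r_mem (by positivity) _), mem_univ _⟩)
  · change F y v = F (stk1r x₀ (δ + s) y) v
    rw [stk1r_eq hy]

theorem stk1_add_mem {x₀ x y : V} {s δ : ℝ} (hs : 0 < s) (hx : x ∈ ball x₀ δ)
    (hy : y ∈ closedBall (0 : V) 1) : x + s • y ∈ closedBall x₀ (δ + s) := by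
  rw [mem_closedBall, dist_eq_norm]
  rw [mem_ball, dist_eq_norm] at hx
  rw [mem_closedBall, dist_zero_right] at hy
  have e : x + s • y - x₀ = (x - x₀) + s • y := by abel
  rw [e]
  have h1 := norm_add_le (x - x₀) (s • y)
  rw [norm_smul, Real.norm_eq_abs, abs_of_pos hs] at h1
  nlinarith

theorem stk1_congr {F G : V → V → ℝ} {s δ : ℝ} (hs : 0 < s) {x₀ x : V} (hx : x ∈ ball x₀ δ)
    (hFG : ∀ y ∈ closedBall x₀ (δ + s), ∀ v, F y v = G y v) (v : V) :
    Stk F s x v = Stk G s x v ∧ stk1H F s x v = stk1H G s x v := by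
  have hp : ∀ y ∈ closedBall (0 : V) 1, F (x + s • y) v = G (x + s • y) v := fun y hy =>
    hFG _ (stk1_add_mem hs hx hy) v
  constructor
  · unfold Stk av
    rw [setIntegral_congr_fun isClosed_closedBall.measurableSet hp]
  · have h1 : ∫ t in (-1 : ℝ)..1, (F (x + s • (1, t)) v - F (x + s • (-1, t)) v) =
        ∫ t in (-1 : ℝ)..1, (G (x + s • (1, t)) v - G (x + s • (-1, t)) v) := by
      apply intervalIntegral.integral_congr
      intro t ht
      rw [uIcc_of_le (by norm_num)] at ht
      have e1 := hp (1, t) (by rw [stk1_mem_ball]; simpa using ht)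
      have e2 := hp (-1, t) (by rw [stk1_mem_ball]; simpa using ht)
      change F (x + s • (1, t)) v - F (x + s • (-1, t)) v = G (x + s • (1, t)) v - G (x + s • (-1, t)) v
      rw [e1, e2]
    have h2 : ∫ t in (-1 : ℝ)..1, (F (x + s • (t, 1)) v - F (x + s • (t, -1)) v) =
        ∫ t in (-1 : ℝ)..1, (G (x + s • (t, 1)) v - G (x + s • (t, -1)) v) := by
      apply intervalIntegral.integral_congr
      intro t ht
      rw [uIcc_of_le (by norm_num)] at ht
      have e1 := hp (t, 1) (by rw [stk1_mem_ball]; simpa using ht)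
      have e2 := hp (t, -1) (by rw [stk1_mem_ball]; simpa using ht)
      change F (x + s • (t, 1)) v - F (x + s • (t, -1)) v = G (x + s • (t, 1)) v - G (x + s • (t, -1)) v
      rw [e1, e2]
    unfold stk1H
    rw [h1, h2]

theorem stk1_global {G : V → V → ℝ} (hG : Continuous (fun p : V × V => G p.1 p.2)) {s : ℝ}
    (hs : 0 < s) :
    Continuous (fun p : V × V => Stk G s p.1 p.2) ∧
    Continuous (fun p : V × V => stk1H G s p.1 p.2) ∧
    ∀ x v, HasFDerivAt (fun y => Stk G s y v) (stk1H G s x v) x := by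
  refine ⟨?_, ?_, fun x v => ?_⟩
  · have h1 : Continuous (Function.uncurry
        (fun (p : V × V) (y : V) => G (p.1 + s • y) p.2)) := by
      simp only [Function.uncurry_def]
      exact hG.comp (by fun_prop : Continuous (fun q : (V × V) × V => ((q.1.1 + s • q.2, q.1.2) : V × V)))
    have h2 := continuous_parametric_integral_of_continuous (μ := volume) h1
      (isCompact_closedBall (0 : V) 1)
    exact continuous_const.mul h2
  · have h1 : ∀ a b : V → ℝ → V, Continuous (Function.uncurry a) → Continuous (Function.uncurry b) →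
        Continuous (fun p : V × V => ∫ t in (-1 : ℝ)..1, (G (a p.1 t) p.2 - G (b p.1 t) p.2)) := by
      intro a b ha hb
      apply intervalIntegral.continuous_parametric_intervalIntegral_of_continuous'
        (f := fun (p : V × V) t => G (a p.1 t) p.2 - G (b p.1 t) p.2)
      simp only [Function.uncurry_def] at ha hb ⊢
      have h2 : Continuous (fun q : (V × V) × ℝ => ((a q.1.1 q.2, q.1.2) : V × V)) := by
        have : Continuous (fun q : (V × V) × ℝ => a q.1.1 q.2) :=
          ha.comp (by fun_prop : Continuous (fun q : (V × V) × ℝ => ((q.1.1, q.2) : V × ℝ)))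
        fun_prop
      have h3 : Continuous (fun q : (V × V) × ℝ => ((b q.1.1 q.2, q.1.2) : V × V)) := by
        have : Continuous (fun q : (V × V) × ℝ => b q.1.1 q.2) :=
          hb.comp (by fun_prop : Continuous (fun q : (V × V) × ℝ => ((q.1.1, q.2) : V × ℝ)))
        fun_prop
      exact (hG.comp h2).sub (hG.comp h3)
    have h2 := h1 (fun x t => x + s • (1, t)) (fun x t => x + s • (-1, t))
      (by simp only [Function.uncurry_def]; fun_prop) (by simp only [Function.uncurry_def]; fun_prop)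
    have h3 := h1 (fun x t => x + s • (t, 1)) (fun x t => x + s • (t, -1))
      (by simp only [Function.uncurry_def]; fun_prop) (by simp only [Function.uncurry_def]; fun_prop)
    unfold stk1H
    exact ((continuous_const.mul (continuous_const.mul h2)).smul continuous_const).add
      ((continuous_const.mul (continuous_const.mul h3)).smul continuous_const)
  · have hg : Continuous (fun y => G y v) :=
      hG.comp (by fun_prop : Continuous (fun y : V => ((y, v) : V × V)))
    have h1 := (stk1_deriv hg hs x).const_mul (1 / 4)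
    refine HasFDerivAt.congr_fderiv h1 ?_
    unfold stk1H
    rw [smul_add, smul_smul, smul_smul]

theorem stk1_pt {U : Set V} {F : V → V → ℝ} (h : HP U F) {s : ℝ} (hs : 0 < s) {x₀ : V}
    (hx : closedBall x₀ s ⊆ U) (v₀ : V) :
    ContinuousAt (fun p : V × V => Stk F s p.1 p.2) (x₀, v₀) ∧
    ContinuousAt (fun p : V × V => stk1H F s p.1 p.2) (x₀, v₀) ∧
    HasFDerivAt (fun y => Stk F s y v₀) (stk1H F s x₀ v₀) x₀ := by
  obtain ⟨δ, hδ, G, hG, hFG⟩ := stk1_local h hs hx
  obtain ⟨g1, g2, g3⟩ := stk1_global hG hs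
  have hn : ball x₀ δ ∈ nhds x₀ := ball_mem_nhds x₀ hδ
  have hn2 : ∀ᶠ p : V × V in nhds (x₀, v₀), p.1 ∈ ball x₀ δ :=
    continuousAt_fst.eventually hn
  refine ⟨?_, ?_, ?_⟩
  · refine g1.continuousAt.congr (hn2.mono (fun p hp => ?_))
    exact (stk1_congr hs hp hFG p.2).1.symm
  · refine g2.continuousAt.congr (hn2.mono (fun p hp => ?_))
    exact (stk1_congr hs hp hFG p.2).2.symm
  · rw [(stk1_congr hs (mem_ball_self hδ) hFG v₀).2]
    refine (g3 x₀ v₀).congr_of_eventuallyEq ?_
    filter_upwards [hn] with p hp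
    exact (stk1_congr hs hp hFG v₀).1


theorem stk1_pt_mem {x y : V} {s : ℝ} (hs : 0 < s) (hy : y ∈ closedBall (0 : V) 1) :
    x + s • y ∈ closedBall x s := by
  rw [mem_closedBall, dist_eq_norm, add_sub_cancel_left, norm_smul, Real.norm_eq_abs, abs_of_pos hs]
  rw [mem_closedBall, dist_zero_right] at hy
  nlinarith

theorem stk1_contOn {U : Set V} {F : V → V → ℝ} (h : HP U F) {s : ℝ} (hs : 0 < s) {x : V}
    (hx : closedBall x s ⊆ U) (v : V) :
    ContinuousOn (fun y : V => F (x + s • y) v) (closedBall (0 : V) 1) := by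
  have h1 : ContinuousOn (fun y : V => x + s • y) (closedBall (0 : V) 1) := by fun_prop
  exact (h.continuousOn_left v).comp h1 (fun y hy => hx (stk1_pt_mem hs hy))

theorem stk1_vol : 0 < (volume (closedBall (0 : V) 1)).toReal := by
  rw [ENNReal.toReal_pos_iff]
  exact ⟨measure_closedBall_pos _ _ one_pos, (isCompact_closedBall (0 : V) 1).measure_lt_top⟩

theorem stk1_norm {U : Set V} {F : V → V → ℝ} (h : HP U F) {s : ℝ} (hs : 0 < s) {x : V}
    (hx : closedBall x s ⊆ U) : NormV (Stk F s x) := by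
  have hint : ∀ v, IntegrableOn (fun y : V => F (x + s • y) v) (closedBall (0 : V) 1) := fun v =>
    (stk1_contOn h hs hx v).integrableOn_compact (isCompact_closedBall _ _)
  have hN : ∀ y ∈ closedBall (0 : V) 1, NormV (F (x + s • y)) := fun y hy =>
    h.norm _ (hx (stk1_pt_mem hs hy))
  have hm : MeasurableSet (closedBall (0 : V) 1) := isClosed_closedBall.measurableSet
  refine ⟨fun u hu => ?_, fun a u => ?_, fun u v => ?_⟩
  · obtain ⟨c, hc, C, hC, hb⟩ := h.bounds (isCompact_closedBall x s) hx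
    have h1 : c * ‖u‖ * (volume (closedBall (0 : V) 1)).toReal ≤
        ∫ y in closedBall (0 : V) 1, F (x + s • y) u := by
      have := setIntegral_mono_on (μ := volume) (s := closedBall (0 : V) 1)
        (f := fun _ => c * ‖u‖) (g := fun y => F (x + s • y) u)
        (integrableOn_const (isCompact_closedBall (0 : V) 1).measure_lt_top.ne) (hint u) hm
        (fun y hy => (hb _ (stk1_pt_mem hs hy) u).1)
      rw [setIntegral_const, smul_eq_mul, mul_comm] at this
      exact this
    have h2 : 0 < c * ‖u‖ * (volume (closedBall (0 : V) 1)).toReal :=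
      mul_pos (mul_pos hc (norm_pos_iff.mpr hu)) stk1_vol
    unfold Stk av
    linarith
  · unfold Stk av
    rw [setIntegral_congr_fun hm (g := fun y => |a| * F (x + s • y) u)
      (fun y hy => (hN y hy).smul a u), integral_const_mul]
    ring
  · unfold Stk av
    have h1 : ∫ y in closedBall (0 : V) 1, F (x + s • y) (u + v) ≤
        (∫ y in closedBall (0 : V) 1, F (x + s • y) u) + ∫ y in closedBall (0 : V) 1, F (x + s • y) v := by
      rw [← integral_add (hint u) (hint v)]
      exact setIntegral_mono_on (hint _) ((hint u).add (hint v)) hm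
        (fun y hy => (hN y hy).add_le u v)
    linarith

theorem stk1_DD {U : Set V} {F : V → V → ℝ} (h : HP U F) {s : ℝ} (hs : 0 < s) {U' : Set V}
    (hc : Convex ℝ U') (hsub : ∀ x ∈ U', closedBall x s ⊆ U) {A B : V} (hA : A ∈ U') (hB : B ∈ U') :
    IntegrableOn (fun y : V => DD F (A + s • y) (B + s • y)) (closedBall (0 : V) 1) ∧
    DD (Stk F s) A B = (1 / 4) * ∫ y in closedBall (0 : V) 1, DD F (A + s • y) (B + s • y) := by
  have hcont : ContinuousOn (fun q : ℝ × V => F (A + q.1 • (B - A) + s • q.2) (B - A))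
      (Icc (0 : ℝ) 1 ×ˢ closedBall (0 : V) 1) := by
    have h1 : ContinuousOn (fun q : ℝ × V => A + q.1 • (B - A) + s • q.2)
      (Icc (0 : ℝ) 1 ×ˢ closedBall (0 : V) 1) := by fun_prop
    refine (h.continuousOn_left (B - A)).comp h1 (fun q hq => ?_)
    refine hsub (A + q.1 • (B - A)) ?_ (stk1_pt_mem hs hq.2)
    exact hc.add_smul_sub_mem hA hB hq.1
  have hint : IntegrableOn (fun q : ℝ × V => F (A + q.1 • (B - A) + s • q.2) (B - A))
      (Ioc (0 : ℝ) 1 ×ˢ closedBall (0 : V) 1) :=
    (hcont.integrableOn_compact (isCompact_Icc.prod (isCompact_closedBall _ _))).mono_set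
      (prod_mono Ioc_subset_Icc_self le_rfl)
  have hint2 : Integrable (Function.uncurry fun (t : ℝ) (y : V) => F (A + t • (B - A) + s • y) (B - A))
      ((volume.restrict (Ioc (0 : ℝ) 1)).prod (volume.restrict (closedBall (0 : V) 1))) := by
    rw [Measure.prod_restrict, ← Measure.volume_eq_prod]
    exact hint
  have hDD : ∀ y : V, DD F (A + s • y) (B + s • y) =
      ∫ t in Ioc (0 : ℝ) 1, F (A + t • (B - A) + s • y) (B - A) := by
    intro y
    unfold DD
    rw [intervalIntegral.integral_of_le zero_le_one]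
    have e1 : B + s • y - (A + s • y) = B - A := by abel
    rw [e1]
    refine setIntegral_congr_fun measurableSet_Ioc (fun t _ => ?_)
    congr 1
    abel
  constructor
  · have h1 := hint2.integral_prod_right
    refine Integrable.congr h1 (Filter.Eventually.of_forall (fun y => ?_))
    exact (hDD y).symm
  · unfold DD Stk av
    rw [intervalIntegral.integral_of_le zero_le_one, integral_const_mul]
    congr 1
    rw [integral_integral_swap hint2]
    refine integral_congr_ae (Filter.Eventually.of_forall (fun y => ?_))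
    exact (hDD y).symm

/-- STK1 -/
theorem stk_hpc {U : Set V} {F : V → V → ℝ} (h : HP U F) {s : ℝ} (hs : 0 < s) {U' : Set V}
    (hU' : IsOpen U') (hc : Convex ℝ U') (hsub : ∀ x ∈ U', closedBall x s ⊆ U) :
    ∃ H' : V → V → V →L[ℝ] ℝ, HPC U' (Stk F s) H' := by
  refine ⟨stk1H F s, ⟨⟨hU', hc, ?_, fun x hx => stk1_norm h hs (hsub x hx), ?_⟩, ?_, ?_⟩⟩
  · intro p hp
    exact (stk1_pt h hs (hsub p.1 hp.1) p.2).1.continuousWithinAt
  · intro A hA B hB C hC
    obtain ⟨i1, e1⟩ := stk1_DD h hs hc hsub hA hC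
    obtain ⟨i2, e2⟩ := stk1_DD h hs hc hsub hA hB
    obtain ⟨i3, e3⟩ := stk1_DD h hs hc hsub hB hC
    have h1 : ∫ y in closedBall (0 : V) 1, DD F (A + s • y) (C + s • y) ≤
        (∫ y in closedBall (0 : V) 1, DD F (A + s • y) (B + s • y)) +
          ∫ y in closedBall (0 : V) 1, DD F (B + s • y) (C + s • y) := by
      rw [← integral_add i2 i3]
      exact setIntegral_mono_on i1 (i2.add i3) isClosed_closedBall.measurableSet
        (fun y hy => h.tri _ (hsub A hA (stk1_pt_mem hs hy)) _ (hsub B hB (stk1_pt_mem hs hy)) _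
          (hsub C hC (stk1_pt_mem hs hy)))
    rw [e1, e2, e3]
    linarith
  · intro x hx v
    exact (stk1_pt h hs (hsub x hx) v).2.2
  · intro p hp
    exact (stk1_pt h hs (hsub p.1 hp.1) p.2).2.1.continuousWithinAt

end Pool.Agent.L1de93c
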