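import Pool.Agent.Lib_MP_1de93e_cont.Conn
import Pool.Agent.Lib_1de93e.Metric
import Pool.Agent.Lib_1de93e.Defs2

/-!
# PIECE TRF: transfer to `EuclideanSpace ℝ (Fin 2)`

`ι : Pl ≃L[ℝ] V`, `ι x = (x 0, x 1)`. For a Finslerian projective-metric plane `(M, F, d)` (`FPlane M F d`,
`Pl = EuclideanSpace ℝ (Fin 2)`) with `SymmBirkhoff (F x)` for all `x ∈ M` let `U = ι '' M` and
`G y v = F (ι.symm y) (ι.symm v)`. `RP U G`: `DD G (ι A) (ι B) = d A B` (`FPlane.d_eq_integral`), triangle
inequality of `d`; strictness by the axiom `geodesic`. So `all_nice` and `F_lip` apply, and translate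
back (norm equivalence for the Lipschitz constant; `DifferentiableAt` under composition with `ι`).
-/

namespace Pool.Agent.L1de93c

open MeasureTheory Metric Set Pool.Agent.Lib_1de93e

/-- The coordinates of the plane. -/
private noncomputable def trfIota : Pl ≃L[ℝ] V :=
  (EuclideanSpace.equiv (Fin 2) ℝ).trans (ContinuousLinearEquiv.finTwoArrow ℝ ℝ)

/-- The Finsler function in coordinates. -/
private noncomputable def trfG (F : Pl → Pl → ℝ) : V → V → ℝ := fun y v =>
  F (trfIota.symm y) (trfIota.symm v)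

private theorem trf_DD {M : Set Pl} {F d : Pl → Pl → ℝ} (h : FPlane M F d) {A B : V}
    (hA : trfIota.symm A ∈ M) (hB : trfIota.symm B ∈ M) :
    DD (trfG F) A B = d (trfIota.symm A) (trfIota.symm B) := by
  rw [h.d_eq_integral hA hB]
  simp only [DD, trfG, map_add, map_sub, map_smul]

private theorem trf_RP {M : Set Pl} {F d : Pl → Pl → ℝ} (h : FPlane M F d)
    (hsym : ∀ x ∈ M, SymmBirkhoff (F x)) : RP (trfIota.symm ⁻¹' M) (trfG F) where
  isOpen := h.isOpen.preimage trfIota.symm.continuous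
  convex := h.pm.convex.linear_preimage (trfIota.symm : V →L[ℝ] Pl).toLinearMap
  cont := by
    have h1 : ContinuousOn (fun p : V × V => ((trfIota.symm p.1, trfIota.symm p.2) : Pl × Pl))
        ((trfIota.symm ⁻¹' M) ×ˢ univ) := by fun_prop
    exact h.fin.cont.comp h1 (fun p hp => ⟨hp.1, mem_univ _⟩)
  norm x hx := by
    have hN := h.fin.norm _ hx
    refine ⟨fun u hu => hN.pos _ ?_, fun a u => ?_, fun u v => ?_⟩
    · exact fun h0 => hu (by simpa using h0)
    · show F _ (trfIota.symm (a • u)) = |a| * F _ (trfIota.symm u)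
      rw [map_smul, hN.smul]
    · show F _ (trfIota.symm (u + v)) ≤ F _ (trfIota.symm u) + F _ (trfIota.symm v)
      rw [map_add]
      exact hN.add_le _ _
  tri A hA B hB C hC := by
    rw [trf_DD h hA hC, trf_DD h hA hB, trf_DD h hB hC]
    exact h.pm.triangle _ hA _ hB _ hC
  sb x hx u v huv := by
    intro s
    have h1 : Birkhoff (F (trfIota.symm x)) (trfIota.symm u) (trfIota.symm v) := by
      intro s
      have h2 := huv s
      simp only [trfG, map_add, map_smul] at h2
      exact h2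
    have h3 := hsym _ hx _ _ h1 s
    simp only [trfG, map_add, map_smul]
    exact h3

/-- TRF -/
theorem FPlane_regular {M : Set Pl} {F d : Pl → Pl → ℝ} (h : FPlane M F d)
    (hsym : ∀ x ∈ M, SymmBirkhoff (F x)) :
    (∀ x ∈ M, ∀ u : Pl, u ≠ 0 → DifferentiableAt ℝ (F x) u) ∧
    (∀ P ∈ M, ∃ r > 0, ∃ L : ℝ, ∀ x ∈ Metric.ball P r, ∀ y ∈ Metric.ball P r, x ∈ M → y ∈ M →
        ∀ u, |F x u - F y u| ≤ L * ‖x - y‖ * ‖u‖) := by
  have hRP := trf_RP h hsym
  have hmem : ∀ x ∈ M, trfIota x ∈ trfIota.symm ⁻¹' M := fun x hx => by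
    rw [mem_preimage, ContinuousLinearEquiv.symm_apply_apply]
    exact hx
  have hval : ∀ x u, trfG F (trfIota x) (trfIota u) = F x u := fun x u => by
    simp only [trfG, ContinuousLinearEquiv.symm_apply_apply]
  have hstrict : ∀ A ∈ trfIota.symm ⁻¹' M, ∀ B ∈ trfIota.symm ⁻¹' M,
      ∀ C ∈ trfIota.symm ⁻¹' M, DD (trfG F) A B + DD (trfG F) B C = DD (trfG F) A C →
        B ∈ segment ℝ A C := by
    intro A hA B hB C hC hABC
    rw [trf_DD h hA hC, trf_DD h hA hB, trf_DD h hB hC] at hABC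
    obtain ⟨a, b, ha, hb, hab, he⟩ := (h.pm.geodesic _ hA _ hB _ hC).1 hABC
    refine ⟨a, b, ha, hb, hab, ?_⟩
    have h1 := congrArg trfIota he
    rw [map_add, map_smul, map_smul, ContinuousLinearEquiv.apply_symm_apply,
      ContinuousLinearEquiv.apply_symm_apply, ContinuousLinearEquiv.apply_symm_apply] at h1
    exact h1
  have hnice : ∀ x ∈ M, Nice (trfG F (trfIota x)) := fun x hx =>
    all_nice hRP hstrict (hmem x hx)
  refine ⟨fun x hx u hu => ?_, fun P hP => ?_⟩
  · have h1 : F x = trfG F (trfIota x) ∘ trfIota := by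
      funext v
      exact (hval x v).symm
    have h2 : trfIota u ≠ 0 := fun h0 => hu (by simpa using h0)
    rw [h1]
    exact ((hnice x hx).diff _ h2).comp u trfIota.differentiableAt
  · obtain ⟨L, hL, r₀, hr₀, hsub, hlip⟩ := F_lip hRP (hmem P hP) (hnice P hP)
    set C : ℝ := ‖(trfIota : Pl →L[ℝ] V)‖ + 1 with hC
    have hCpos : 0 < C := by positivity
    have hle : ∀ z : Pl, ‖trfIota z‖ ≤ C * ‖z‖ := fun z => by
      have h1 := (trfIota : Pl →L[ℝ] V).le_opNorm z
      have h2 : ‖(trfIota : Pl →L[ℝ] V)‖ * ‖z‖ ≤ C * ‖z‖ :=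
        mul_le_mul_of_nonneg_right (by rw [hC]; linarith) (norm_nonneg _)
      exact h1.trans h2
    have hball : ∀ x ∈ Metric.ball P (r₀ / C), trfIota x ∈ closedBall (trfIota P) r₀ := by
      intro x hx
      rw [mem_closedBall, dist_eq_norm, ← map_sub]
      rw [mem_ball, dist_eq_norm, lt_div_iff₀ hCpos] at hx
      refine (hle _).trans ?_
      rw [mul_comm]
      exact hx.le
    refine ⟨r₀ / C, div_pos hr₀ hCpos, L * C * C, fun x hx y hy _ _ u => ?_⟩
    have h1 := hlip _ (hball x hx) _ (hball y hy) (trfIota u)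
    rw [hval, hval, ← map_sub] at h1
    refine h1.trans ?_
    calc L * ‖trfIota (x - y)‖ * ‖trfIota u‖ ≤ L * (C * ‖x - y‖) * (C * ‖u‖) := by
          have h3 := hle (x - y)
          have h4 := hle u
          gcongr
      _ = L * C * C * ‖x - y‖ * ‖u‖ := by ring

end Pool.Agent.L1de93c
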