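import Pool.Agent.Lib_MP_1de93e_cont.Lip

/-!
# PIECE TRE: approximate translations

## TRE `trel`. Let `x, x'` be near `x₀`, `v = x' - x ≠ 0`, `r = 4 ‖v‖`, `l` from `decay_slope` at `(x, r)`,
`A = Pull (Res F x r) l`, `y = pj (-l) (r⁻¹ v)`: `pj l y = r⁻¹ v`, `‖y‖ ≤ 1/2`. For a unit vector `u`, the
function `g z = A z u = F (x + r pj l z) (dpj l z u)` is `C r`-Lipschitz on `closedBall 0 1` (`F_lip`,
`‖l‖ ≤ C r`, `‖dpj l z u - dpj l z' u‖ ≤ C ‖l‖ ‖z - z'‖`, bounds of `F`), `mo g 0 1 ≤ C r^{3/2}`; `sup_dev`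
with `s = r^{1/6}`: `|g y - g 0| ≤ C r^{7/6}`. `g 0 = F x u`, `g y = F x' (T u)`, `T = dpj l y`,
`‖T u - u‖ ≤ C ‖l‖ ≤ C r`. General `u` by homogeneity. (`r^{7/6} = r * r^{1/6}`; statement with
`Real.rpow`.)
-/

namespace Pool.Agent.L1de93c

open MeasureTheory Metric Set

theorem TRE_a {l z : V} (hl : ‖l‖ ≤ 1 / 100) (hz : ‖z‖ ≤ 1) :
    0 < 1 - dot l z ∧ 0 < (1 - dot l z)⁻¹ ∧ (1 - dot l z)⁻¹ ≤ 21 / 20 := by
  have h1 := abs_le.1 (abs_dot_le l z)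
  have h2 : 2 * ‖l‖ * ‖z‖ ≤ 1 / 50 := by
    have := norm_nonneg l
    have := norm_nonneg z
    nlinarith
  have h3 : (49 : ℝ) / 50 ≤ 1 - dot l z := by linarith [h1.2]
  have h4 : 0 < 1 - dot l z := by linarith
  refine ⟨h4, inv_pos.2 h4, ?_⟩
  rw [inv_le_comm₀ h4 (by norm_num)]
  refine le_trans ?_ h3
  norm_num

theorem TRE_inv {l z z' : V} (hl : ‖l‖ ≤ 1 / 100) (hz : ‖z‖ ≤ 1) (hz' : ‖z'‖ ≤ 1) :
    |(1 - dot l z)⁻¹ - (1 - dot l z')⁻¹| ≤ 3 * ‖l‖ * ‖z - z'‖ := by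
  obtain ⟨h1, h2, h3⟩ := TRE_a hl hz
  obtain ⟨h1', h2', h3'⟩ := TRE_a hl hz'
  have e1 : (1 - dot l z)⁻¹ - (1 - dot l z')⁻¹ =
      dot l (z - z') * ((1 - dot l z)⁻¹ * (1 - dot l z')⁻¹) := by
    have e2 : dot l (z - z') = dot l z - dot l z' := by
      simp only [dot, Prod.fst_sub, Prod.snd_sub]
      ring
    rw [e2]
    field_simp
    ring
  rw [e1, abs_mul, abs_of_pos (mul_pos h2 h2')]
  have h4 := abs_dot_le l (z - z')
  have h5 : (1 - dot l z)⁻¹ * (1 - dot l z')⁻¹ ≤ 21 / 20 * (21 / 20) :=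
    mul_le_mul h3 h3' h2'.le (by norm_num)
  have h6 : 0 ≤ ‖l‖ * ‖z - z'‖ := by positivity
  calc |dot l (z - z')| * ((1 - dot l z)⁻¹ * (1 - dot l z')⁻¹)
      ≤ (2 * ‖l‖ * ‖z - z'‖) * (21 / 20 * (21 / 20)) :=
        mul_le_mul h4 h5 (mul_pos h2 h2').le (by positivity)
    _ ≤ 3 * ‖l‖ * ‖z - z'‖ := by nlinarith

theorem TRE_pj_lip {l z z' : V} (hl : ‖l‖ ≤ 1 / 100) (hz : ‖z‖ ≤ 1) (hz' : ‖z'‖ ≤ 1) :
    ‖pj l z - pj l z'‖ ≤ 2 * ‖z - z'‖ := by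
  obtain ⟨h1, h2, h3⟩ := TRE_a hl hz
  have h4 := TRE_inv hl hz hz'
  have e1 : pj l z - pj l z' = (1 - dot l z)⁻¹ • (z - z') +
      ((1 - dot l z)⁻¹ - (1 - dot l z')⁻¹) • z' := by
    unfold pj
    module
  rw [e1]
  refine (norm_add_le _ _).trans ?_
  rw [norm_smul, norm_smul, Real.norm_eq_abs, Real.norm_eq_abs, abs_of_pos h2]
  have h5 : (1 - dot l z)⁻¹ * ‖z - z'‖ ≤ 21 / 20 * ‖z - z'‖ :=
    mul_le_mul_of_nonneg_right h3 (norm_nonneg _)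
  have h6 : |(1 - dot l z)⁻¹ - (1 - dot l z')⁻¹| * ‖z'‖ ≤ 3 * ‖l‖ * ‖z - z'‖ * 1 :=
    mul_le_mul h4 hz' (norm_nonneg _) (by positivity)
  have h7 : ‖l‖ * ‖z - z'‖ ≤ 1 / 100 * ‖z - z'‖ := mul_le_mul_of_nonneg_right hl (norm_nonneg _)
  have h8 := norm_nonneg (z - z')
  nlinarith

theorem TRE_dpj_lip {l z z' : V} (hl : ‖l‖ ≤ 1 / 100) (hz : ‖z‖ ≤ 1) (hz' : ‖z'‖ ≤ 1) (u : V) :
    ‖dpj l z u - dpj l z' u‖ ≤ 7 * ‖l‖ * ‖z - z'‖ * ‖u‖ := by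
  obtain ⟨h1, h2, h3⟩ := TRE_a hl hz
  obtain ⟨h1', h2', h3'⟩ := TRE_a hl hz'
  have h4 := TRE_inv hl hz hz'
  have e1 : dpj l z u - dpj l z' u = ((1 - dot l z)⁻¹ - (1 - dot l z')⁻¹) • u +
      dot l u • ((1 - dot l z)⁻¹ ^ 2 • (z - z') +
        (((1 - dot l z)⁻¹ - (1 - dot l z')⁻¹) * ((1 - dot l z)⁻¹ + (1 - dot l z')⁻¹)) • z') := by
    rw [dpj_apply, dpj_apply]
    module
  rw [e1]
  have hlz : 0 ≤ ‖l‖ * ‖z - z'‖ := by positivity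
  have h7 : ‖l‖ * ‖z - z'‖ ≤ 1 / 100 * ‖z - z'‖ := mul_le_mul_of_nonneg_right hl (norm_nonneg _)
  have h5 : ‖(1 - dot l z)⁻¹ ^ 2 • (z - z') +
        (((1 - dot l z)⁻¹ - (1 - dot l z')⁻¹) * ((1 - dot l z)⁻¹ + (1 - dot l z')⁻¹)) • z'‖ ≤
      2 * ‖z - z'‖ := by
    refine (norm_add_le _ _).trans ?_
    rw [norm_smul, norm_smul, Real.norm_eq_abs, Real.norm_eq_abs, abs_mul,
      abs_of_pos (add_pos h2 h2'), abs_of_pos (pow_pos h2 2)]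
    have g1 : (1 - dot l z)⁻¹ ^ 2 ≤ (21 / 20) ^ 2 := pow_le_pow_left₀ h2.le h3 2
    have g2 : (1 - dot l z)⁻¹ ^ 2 * ‖z - z'‖ ≤ (21 / 20) ^ 2 * ‖z - z'‖ :=
      mul_le_mul_of_nonneg_right g1 (norm_nonneg _)
    have g3 : |(1 - dot l z)⁻¹ - (1 - dot l z')⁻¹| * ((1 - dot l z)⁻¹ + (1 - dot l z')⁻¹) ≤
        3 * ‖l‖ * ‖z - z'‖ * (21 / 10) :=
      mul_le_mul h4 (by linarith) (add_pos h2 h2').le (by positivity)
    have g4 : |(1 - dot l z)⁻¹ - (1 - dot l z')⁻¹| * ((1 - dot l z)⁻¹ + (1 - dot l z')⁻¹) * ‖z'‖ ≤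
        3 * ‖l‖ * ‖z - z'‖ * (21 / 10) * 1 :=
      mul_le_mul g3 hz' (norm_nonneg _) (by positivity)
    have h8 := norm_nonneg (z - z')
    nlinarith
  refine (norm_add_le _ _).trans ?_
  rw [norm_smul, norm_smul (dot l u), Real.norm_eq_abs, Real.norm_eq_abs]
  have g5 : |(1 - dot l z)⁻¹ - (1 - dot l z')⁻¹| * ‖u‖ ≤ 3 * ‖l‖ * ‖z - z'‖ * ‖u‖ :=
    mul_le_mul_of_nonneg_right h4 (norm_nonneg _)
  have g6 := abs_dot_le l u
  have g7 : |dot l u| * ‖(1 - dot l z)⁻¹ ^ 2 • (z - z') +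
        (((1 - dot l z)⁻¹ - (1 - dot l z')⁻¹) * ((1 - dot l z)⁻¹ + (1 - dot l z')⁻¹)) • z'‖ ≤
      (2 * ‖l‖ * ‖u‖) * (2 * ‖z - z'‖) :=
    mul_le_mul g6 h5 (norm_nonneg _) (by positivity)
  nlinarith

theorem TRE_dpj_sub {l z : V} (hl : ‖l‖ ≤ 1 / 100) (hz : ‖z‖ ≤ 1) (u : V) :
    ‖dpj l z u - u‖ ≤ 7 * ‖l‖ * ‖u‖ := by
  have h := TRE_dpj_lip hl hz (z' := 0) (by simp) u
  rw [dpj_at_zero, sub_zero] at h
  refine h.trans ?_
  have h1 : 0 ≤ 7 * ‖l‖ * ‖u‖ := by positivity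
  nlinarith

theorem TRE_dpj_bd {l z : V} (hl : ‖l‖ ≤ 1 / 100) (hz : ‖z‖ ≤ 1) (u : V) :
    ‖dpj l z u‖ ≤ 2 * ‖u‖ := by
  have h := TRE_dpj_sub hl hz u
  have h1 : ‖dpj l z u‖ ≤ ‖dpj l z u - u‖ + ‖u‖ := by
    have := norm_add_le (dpj l z u - u) u
    rwa [sub_add_cancel] at this
  have h2 : ‖l‖ * ‖u‖ ≤ 1 / 100 * ‖u‖ := mul_le_mul_of_nonneg_right hl (norm_nonneg _)
  have := norm_nonneg u
  nlinarith

/-- TRE -/
theorem trel {U : Set V} {F : V → V → ℝ} (h : RP U F) {x₀ : V} (hx₀ : x₀ ∈ U)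
    (h₀ : Nice (F x₀)) :
    ∃ C > 0, ∃ r₀ > 0, closedBall x₀ r₀ ⊆ U ∧ ∀ x ∈ closedBall x₀ r₀, ∀ x' ∈ closedBall x₀ r₀,
      ∃ T : V →L[ℝ] V, (∀ u, ‖T u - u‖ ≤ C * ‖x' - x‖ * ‖u‖) ∧
        ∀ u, |F x' (T u) - F x u| ≤ C * ‖x' - x‖ ^ (7 / 6 : ℝ) * ‖u‖ := by
  obtain ⟨L, hL, r₁, hr₁, hr₁U, hlip⟩ := F_lip h hx₀ h₀
  obtain ⟨C₁, hC₁, r₂, hr₂, hr₂U, hslope⟩ := decay_slope h hx₀ h₀
  obtain ⟨c, hc, C₂, hC₂, hbd⟩ := h.toHP.bounds (isCompact_closedBall x₀ r₁) hr₁U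
  obtain ⟨r₀, hr₀, hr01, hr02, hr03⟩ : ∃ r₀ : ℝ, 0 < r₀ ∧ 32 * r₀ ≤ r₁ ∧ 8 * r₀ ≤ r₂ ∧
      8 * r₀ ≤ 1 := by
    refine ⟨min (r₁ / 32) (min (r₂ / 8) (1 / 8)), by positivity, ?_, ?_, ?_⟩
    · have := min_le_left (r₁ / 32) (min (r₂ / 8) (1 / 8))
      linarith
    · have := (min_le_right (r₁ / 32) (min (r₂ / 8) (1 / 8))).trans (min_le_left _ _)
      linarith
    · have := (min_le_right (r₁ / 32) (min (r₂ / 8) (1 / 8))).trans (min_le_right _ _)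
      linarith
  set C₃ : ℝ := 4 * L + 7 * C₁ * C₂ with hC₃
  have hC₃0 : 0 < C₃ := by positivity
  refine ⟨28 * C₁ + 128 * (C₃ + C₁), by positivity, r₀, hr₀,
    (closedBall_subset_closedBall (by linarith)).trans hr₁U, ?_⟩
  intro x hx x' hx'
  rcases eq_or_ne x' x with rfl | hne
  · refine ⟨ContinuousLinearMap.id ℝ V, fun u => ?_, fun u => ?_⟩
    · simp
    · simp only [ContinuousLinearMap.coe_id', id_eq, sub_self, abs_zero]
      positivity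
  have hv : 0 < ‖x' - x‖ := norm_pos_iff.2 (sub_ne_zero.2 hne)
  have hx0 : ‖x - x₀‖ ≤ r₀ := by rwa [mem_closedBall, dist_eq_norm] at hx
  have hx0' : ‖x' - x₀‖ ≤ r₀ := by rwa [mem_closedBall, dist_eq_norm] at hx'
  have hv2 : ‖x' - x‖ ≤ 2 * r₀ := by
    have : x' - x = (x' - x₀) - (x - x₀) := by abel
    rw [this]
    have := norm_sub_le (x' - x₀) (x - x₀)
    linarith
  set r : ℝ := 4 * ‖x' - x‖ with hr
  have hr0 : 0 < r := by positivity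
  have hr8 : r ≤ 8 * r₀ := by linarith
  have hr1 : r ≤ 1 := by linarith
  obtain ⟨l, hl, hlr, hob⟩ := hslope x (closedBall_subset_closedBall (by linarith) hx) r hr0
    (by linarith)
  set w : V := r⁻¹ • (x' - x) with hw
  have hwn : ‖w‖ = 1 / 4 := by
    rw [hw, norm_smul, Real.norm_eq_abs, abs_of_pos (inv_pos.2 hr0), hr]
    field_simp
  have hml : ‖-l‖ ≤ 1 / 100 := by rwa [norm_neg]
  obtain ⟨a1, a2, a3⟩ := TRE_a hml (z := w) (by rw [hwn]; norm_num)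
  set y : V := pj (-l) w with hy
  have hyn : ‖y‖ ≤ 1 := by
    rw [hy, pj, norm_smul, Real.norm_eq_abs, abs_of_pos a2, hwn]
    linarith
  have hpy : pj l y = w := by
    rw [hy, pj_pj a1.ne', neg_add_cancel, pj_zero_left]
  have hxy : x + r • pj l y = x' := by
    rw [hpy, hw, smul_smul, mul_inv_cancel₀ hr0.ne', one_smul]
    abel
  -- points of the square
  have hpt : ∀ z : V, ‖z‖ ≤ 1 → x + r • pj l z ∈ closedBall x₀ r₁ := by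
    intro z hz
    rw [mem_closedBall, dist_eq_norm]
    have e1 : x + r • pj l z - x₀ = (x - x₀) + r • pj l z := by abel
    have e2 : ‖pj l z‖ ≤ 2 := by
      have := TRE_pj_lip hl hz (z' := 0) (by simp)
      rw [pj_zero, sub_zero, sub_zero] at this
      linarith
    rw [e1]
    refine (norm_add_le _ _).trans ?_
    rw [norm_smul, Real.norm_eq_abs, abs_of_pos hr0]
    have e3 : r * ‖pj l z‖ ≤ 8 * r₀ * 2 := mul_le_mul hr8 e2 (norm_nonneg _) (by positivity)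
    linarith
  have key : ∀ u : V, ‖u‖ = 1 → |F x' (dpj l y u) - F x u| ≤
      8 * ((C₃ + C₁) * r ^ (7 / 6 : ℝ)) := by
    intro u hu
    have hg : ∀ z ∈ closedBall (0 : V) 1, ∀ z' ∈ closedBall (0 : V) 1,
        |Pull (Res F x r) l z u - Pull (Res F x r) l z' u| ≤ C₃ * r * ‖z - z'‖ := by
      intro z hz z' hz'
      rw [mem_closedBall_zero_iff] at hz hz'
      change |F (x + r • pj l z) (dpj l z u) - F (x + r • pj l z') (dpj l z' u)| ≤ _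
      have h1 := hlip _ (hpt z hz) _ (hpt z' hz') (dpj l z u)
      have e1 : x + r • pj l z - (x + r • pj l z') = r • (pj l z - pj l z') := by
        rw [smul_sub]
        abel
      rw [e1, norm_smul, Real.norm_eq_abs, abs_of_pos hr0] at h1
      have h2 := TRE_pj_lip hl hz hz'
      have h3 := TRE_dpj_bd hl hz u
      rw [hu] at h3
      have h4 : L * (r * ‖pj l z - pj l z'‖) * ‖dpj l z u‖ ≤ L * (r * (2 * ‖z - z'‖)) * (2 * 1) := by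
        gcongr
      have hN := h.norm _ (hr₁U (hpt z' hz'))
      have h5 := hN.abs_sub_le (dpj l z u) (dpj l z' u)
      have h6 := (hbd _ (hpt z' hz') (dpj l z u - dpj l z' u)).2
      have h7 := TRE_dpj_lip hl hz hz' u
      rw [hu, mul_one] at h7
      have h8 : C₂ * ‖dpj l z u - dpj l z' u‖ ≤ C₂ * (7 * (C₁ * r) * ‖z - z'‖) := by
        refine mul_le_mul_of_nonneg_left (h7.trans ?_) hC₂.le
        gcongr
      have h9 := abs_sub_le (F (x + r • pj l z) (dpj l z u)) (F (x + r • pj l z') (dpj l z u))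
        (F (x + r • pj l z') (dpj l z' u))
      calc |F (x + r • pj l z) (dpj l z u) - F (x + r • pj l z') (dpj l z' u)|
          ≤ L * (r * (2 * ‖z - z'‖)) * (2 * 1) + C₂ * (7 * (C₁ * r) * ‖z - z'‖) := by linarith
        _ = C₃ * r * ‖z - z'‖ := by rw [hC₃]; ring
    have hmo := hob.1 u hu
    have hs0 : 0 < r ^ (1 / 6 : ℝ) := Real.rpow_pos_of_pos hr0 _
    have hs1 : r ^ (1 / 6 : ℝ) ≤ 1 := Real.rpow_le_one hr0.le hr1 (by norm_num)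
    have h1 := sup_dev (mul_nonneg hC₃0.le hr0.le) hg hmo y (mem_closedBall_zero_iff.2 hyn)
      (r ^ (1 / 6 : ℝ)) hs0 hs1
    have e1 : Pull (Res F x r) l y u = F x' (dpj l y u) := by
      change F (x + r • pj l y) (dpj l y u) = _
      rw [hxy]
    have e2 : Pull (Res F x r) l 0 u = F x u := by
      change F (x + r • pj l 0) (dpj l 0 u) = _
      rw [pj_zero, smul_zero, add_zero, dpj_at_zero]
    rw [e1, e2] at h1
    refine h1.trans (le_of_eq ?_)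
    congr 1
    have e3 : r ^ (7 / 6 : ℝ) = r * r ^ (1 / 6 : ℝ) := by
      rw [← Real.rpow_one_add' hr0.le (by norm_num)]
      norm_num
    have e4 : C₁ * (r * Real.sqrt r) / (r ^ (1 / 6 : ℝ)) ^ 2 = C₁ * r ^ (7 / 6 : ℝ) := by
      have e5 : Real.sqrt r = (r ^ (1 / 6 : ℝ)) ^ 3 := by
        rw [Real.sqrt_eq_rpow, ← Real.rpow_natCast, ← Real.rpow_mul hr0.le]
        norm_num
      rw [e5, e3]
      field_simp
    rw [e4, e3]
    ring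
  refine ⟨dpj l y, fun u => ?_, fun u => ?_⟩
  · have h1 := TRE_dpj_sub hl hyn u
    refine h1.trans ?_
    have h2 : 7 * ‖l‖ ≤ (28 * C₁ + 128 * (C₃ + C₁)) * ‖x' - x‖ := by
      have : 0 ≤ 128 * (C₃ + C₁) * ‖x' - x‖ := by positivity
      rw [hr] at hlr
      nlinarith
    exact mul_le_mul_of_nonneg_right h2 (norm_nonneg _)
  · by_cases hu : u = 0
    · have hNx := h.norm x (hr₁U (closedBall_subset_closedBall (by linarith) hx))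
      have hNx' := h.norm x' (hr₁U (closedBall_subset_closedBall (by linarith) hx'))
      rw [hu, map_zero, hNx.zero, hNx'.zero, norm_zero]
      simp
    have hun : 0 < ‖u‖ := norm_pos_iff.2 hu
    have hNx := h.norm x (hr₁U (closedBall_subset_closedBall (by linarith) hx))
    have hNx' := h.norm x' (hr₁U (closedBall_subset_closedBall (by linarith) hx'))
    have h1 := key (‖u‖⁻¹ • u) (by
      rw [norm_smul, norm_inv, norm_norm, inv_mul_cancel₀ hun.ne'])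
    rw [map_smul, hNx'.smul_nonneg (inv_nonneg.2 hun.le), hNx.smul_nonneg (inv_nonneg.2 hun.le),
      ← mul_sub, abs_mul, abs_of_pos (inv_pos.2 hun), inv_mul_le_iff₀ hun] at h1
    have h2 : r ^ (7 / 6 : ℝ) ≤ 16 * ‖x' - x‖ ^ (7 / 6 : ℝ) := by
      rw [hr, Real.mul_rpow (by norm_num) hv.le]
      refine mul_le_mul_of_nonneg_right ?_ (Real.rpow_nonneg hv.le _)
      calc (4 : ℝ) ^ (7 / 6 : ℝ) ≤ (4 : ℝ) ^ (2 : ℝ) :=
            Real.rpow_le_rpow_of_exponent_le (by norm_num) (by norm_num)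
        _ = 16 := by
            rw [Real.rpow_two]
            norm_num
    have h3 : 0 ≤ ‖x' - x‖ ^ (7 / 6 : ℝ) := Real.rpow_nonneg hv.le _
    calc |F x' (dpj l y u) - F x u| ≤ ‖u‖ * (8 * ((C₃ + C₁) * r ^ (7 / 6 : ℝ))) := h1
      _ ≤ ‖u‖ * (8 * ((C₃ + C₁) * (16 * ‖x' - x‖ ^ (7 / 6 : ℝ)))) := by gcongr
      _ = 128 * (C₃ + C₁) * ‖x' - x‖ ^ (7 / 6 : ℝ) * ‖u‖ := by ring
      _ ≤ (28 * C₁ + 128 * (C₃ + C₁)) * ‖x' - x‖ ^ (7 / 6 : ℝ) * ‖u‖ := by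
          gcongr
          linarith

end Pool.Agent.L1de93c
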